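import Pool.Agent.Lib.MP_bf45aa_co.Graph

set_option autoImplicit false
set_option linter.unusedSectionVars false

/-! The abstract amalgam argument, part 1: data, transport, critical pairs. -/

namespace Pool.Agent.Lib.MP_bf45aa_co

open Subgroup
open scoped commutatorElement

/-- Data of the abstract amalgam argument. -/
structure Dat (G V : Type*) [Group G] where
  P : V → Subgroup G
  B : V → V → Subgroup G
  S : V → Set (Subgroup G)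
  T : V → V → Subgroup G → Subgroup G

variable {G V : Type*} [Group G] [MulAction G V] {Γ : SimpleGraph V}

/-- The join of the strands. -/
def Dat.U (D : Dat G V) (x : V) : Subgroup G := sSup (D.S x)

/-- Equivariance of the data. -/
structure Dat.Equi (D : Dat G V) : Prop where
  P : ∀ (g : G) x, cj g (D.P x) = D.P (g • x)
  B : ∀ (g : G) x y, cj g (D.B x y) = D.B (g • x) (g • y)
  S : ∀ (g : G) x κ, κ ∈ D.S x → cj g κ ∈ D.S (g • x)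
  T : ∀ (g : G) x y κ, cj g (D.T x y κ) = D.T (g • x) (g • y) (cj g κ)
  symm : ∀ x y, D.B x y = D.B y x

/-- Local properties at an arc. -/
structure Dat.Loc (D : Dat G V) (Γ : SimpleGraph V) (p : ℕ) (x y : V) : Prop where
  PB : D.P x ≤ D.B x y
  BS : D.B x y ≤ St G x
  PK : D.P x ≤ Kn G Γ 1 x
  BK : D.B x y ⊓ Kn G Γ 1 x ≤ D.P x
  UP : D.U x ≤ D.P x
  PU : D.P x ≤ Cn (D.U x)
  ea : EA p (D.U x)
  CU : D.B x y ⊓ Cn (D.U x) ≤ D.P x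
  Une : D.U x ≠ ⊥
  Bn : ∀ κ ∈ D.S x, D.B x y ≤ Nm κ
  PT : ∀ κ ∈ D.S x, D.P x ≤ D.T x y κ
  TB : ∀ κ ∈ D.S x, D.T x y κ ≤ D.B x y
  zeta : ∀ κ ∈ D.S x, D.B x y ≤ Cn ⁅κ, D.T x y κ⁆
  oth : ∀ κ ∈ D.S x, ∀ κ' ∈ D.S x, κ' ≠ κ → D.T x y κ ≤ Cn κ'
  ncent : ∀ κ ∈ D.S x, ∃ y', Γ.Adj x y' ∧ ¬ D.T x y' κ ≤ Cn ⁅κ, D.T x y κ⁆
  tr : ∀ κ ∈ D.S x, ∀ κ' ∈ D.S x, ∃ g : G, g • x = x ∧ g • y = y ∧ cj g κ = κ'
  dec : ∀ X ≤ D.B x y, EA p X → ∀ κ ∈ D.S x, ∀ a ∈ X, ∃ t ∈ D.T x y κ, t⁻¹ * a ∈ Cn κ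
  off1 : ∀ X ≤ D.B x y, EA p X → (D.P x).relIndex X ≤ (Cn X).relIndex (D.U x)
  off2 : ∀ X ≤ D.B x y, EA p X → (Cn X).relIndex (D.U x) ≤ (D.P x).relIndex X →
    ∀ κ ∈ D.S x, ¬ X ≤ Cn κ → D.T x y κ ≤ X ⊔ D.P x
  nn : ∀ κ ∈ D.S x, (D.P x).relIndex (D.T x y κ) ≤ (Cn (D.T x y κ)).relIndex κ

variable {D : Dat G V} {p : ℕ}

theorem Dat.le_U {x : V} {κ : Subgroup G} (h : κ ∈ D.S x) : κ ≤ D.U x := le_sSup h

theorem Dat.Equi.S_surj (E : D.Equi) {g : G} {x : V} {κ : Subgroup G} (h : κ ∈ D.S (g • x)) :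
    ∃ κ₀ ∈ D.S x, κ = cj g κ₀ :=
  ⟨cj g⁻¹ κ, by simpa using E.S g⁻¹ _ _ h, (cj_cj_inv g κ).symm⟩

theorem Dat.Equi.U (E : D.Equi) (g : G) (x : V) : cj g (D.U x) = D.U (g • x) := by
  refine cj_eq_of_le (fun (g : G) (x : V) => g • x) act_inv D.U ?_ g x
  intro g x
  rw [Dat.U, cj_sSup]
  refine sSup_le ?_
  rintro _ ⟨κ, hκ, rfl⟩
  exact Dat.le_U (E.S g x κ hκ)

theorem exists_cj (g : G) (X : Subgroup G) : ∃ X₀, X = cj g X₀ := ⟨_, (cj_cj_inv g X).symm⟩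

theorem EA.of_cj {X : Subgroup G} {g : G} (h : EA p (MP_bf45aa_co.cj g X)) : EA p X := by
  have := h.cj g⁻¹
  rwa [cj_inv_cj] at this

theorem Dat.Loc.smul (c : Ctx G Γ) (E : D.Equi) {x y : V} (h : D.Loc Γ p x y) (g : G) :
    D.Loc Γ p (g • x) (g • y) where
  PB := by rw [← E.P, ← E.B, cj_le_cj]; exact h.PB
  BS := by rw [← cj_St, ← E.B, cj_le_cj]; exact h.BS
  PK := by rw [← E.P, ← c.cj_Kn, cj_le_cj]; exact h.PK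
  BK := by rw [← E.P, ← E.B, ← c.cj_Kn, ← cj_inf, cj_le_cj]; exact h.BK
  UP := by rw [← E.P, ← E.U, cj_le_cj]; exact h.UP
  PU := by rw [← E.P, ← E.U, ← cj_Cn, cj_le_cj]; exact h.PU
  ea := by rw [← E.U]; exact h.ea.cj g
  CU := by rw [← E.P, ← E.U, ← E.B, ← cj_Cn, ← cj_inf, cj_le_cj]; exact h.CU
  Une := by rw [← E.U, Ne, cj_eq_bot]; exact h.Une
  Bn := by
    intro κ hκ0; obtain ⟨κ, hκ, rfl⟩ := E.S_surj hκ0
    rw [← E.B, ← cj_Nm, cj_le_cj]; exact h.Bn κ hκ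
  PT := by
    intro κ hκ0; obtain ⟨κ, hκ, rfl⟩ := E.S_surj hκ0
    rw [← E.P, ← E.T, cj_le_cj]; exact h.PT κ hκ
  TB := by
    intro κ hκ0; obtain ⟨κ, hκ, rfl⟩ := E.S_surj hκ0
    rw [← E.B, ← E.T, cj_le_cj]; exact h.TB κ hκ
  zeta := by
    intro κ hκ0; obtain ⟨κ, hκ, rfl⟩ := E.S_surj hκ0
    rw [← E.B, ← E.T, ← cj_comm, ← cj_Cn, cj_le_cj]; exact h.zeta κ hκ
  oth := by
    intro κ hκ0 κ' hκ1 hne
    obtain ⟨κ, hκ, rfl⟩ := E.S_surj hκ0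
    obtain ⟨κ', hκ', rfl⟩ := E.S_surj hκ1
    rw [← E.T, ← cj_Cn, cj_le_cj]; exact h.oth κ hκ κ' hκ' fun e => hne (by rw [e])
  ncent := by
    intro κ hκ0; obtain ⟨κ, hκ, rfl⟩ := E.S_surj hκ0
    obtain ⟨y', h1, h2⟩ := h.ncent κ hκ
    refine ⟨g • y', c.adj g h1, ?_⟩
    rwa [← E.T, ← E.T, ← cj_comm, ← cj_Cn, cj_le_cj]
  tr := by
    intro κ hκ0 κ' hκ1
    obtain ⟨κ, hκ, rfl⟩ := E.S_surj hκ0
    obtain ⟨κ', hκ', rfl⟩ := E.S_surj hκ1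
    obtain ⟨k, h1, h2, h3⟩ := h.tr κ hκ κ' hκ'
    refine ⟨g * k * g⁻¹, by simp [mul_smul, h1], by simp [mul_smul, h2], ?_⟩
    rw [cj_cj, ← h3, cj_cj]; simp
  dec := by
    intro X hX hE κ hκ0 a ha
    obtain ⟨κ, hκ, rfl⟩ := E.S_surj hκ0
    obtain ⟨X, rfl⟩ := exists_cj g X
    rw [← E.B, cj_le_cj] at hX
    obtain ⟨t, ht, h2⟩ := h.dec X hX hE.of_cj κ hκ _ (mem_cj.1 ha)
    refine ⟨g * t * g⁻¹, by rw [← E.T]; exact conj_mem_cj ht, ?_⟩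
    rw [← cj_Cn, mem_cj]
    simpa [mul_assoc] using h2
  off1 := by
    intro X hX hE
    obtain ⟨X, rfl⟩ := exists_cj g X
    rw [← E.B, cj_le_cj] at hX
    rw [← E.P, ← E.U, ← cj_Cn, relIndex_cj, relIndex_cj]
    exact h.off1 X hX hE.of_cj
  off2 := by
    intro X hX hE hi κ hκ0 hn
    obtain ⟨κ, hκ, rfl⟩ := E.S_surj hκ0
    obtain ⟨X, rfl⟩ := exists_cj g X
    rw [← E.B, cj_le_cj] at hX
    rw [← E.P, ← E.U, ← cj_Cn, relIndex_cj, relIndex_cj] at hi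
    rw [← cj_Cn, cj_le_cj] at hn
    rw [← E.T, ← E.P, ← cj_sup, cj_le_cj]
    exact h.off2 X hX hE.of_cj hi κ hκ hn
  nn := by
    intro κ hκ0; obtain ⟨κ, hκ, rfl⟩ := E.S_surj hκ0
    rw [← E.T, ← E.P, ← cj_Cn, relIndex_cj, relIndex_cj]
    exact h.nn κ hκ

theorem Dat.Loc.all (c : Ctx G Γ) (E : D.Equi) {a b : V} (hab : Γ.Adj a b) (h : D.Loc Γ p a b)
    (x y : V) (hxy : Γ.Adj x y) : D.Loc Γ p x y := by
  obtain ⟨g, rfl, rfl⟩ := c.arc hab hxy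
  exact h.smul c E g

theorem Dat.Loc.BP (E : D.Equi) {x y : V} (h : D.Loc Γ p x y) : D.B x y ≤ Nm (D.P x) :=
  h.BS.trans (St_le_Nm_of_equi E.P x)

theorem Dat.Loc.BU (E : D.Equi) {x y : V} (h : D.Loc Γ p x y) : D.B x y ≤ Nm (D.U x) :=
  h.BS.trans (St_le_Nm_of_equi E.U x)

theorem Dat.Loc.PC {x y : V} (h : D.Loc Γ p x y) {κ : Subgroup G} (hκ : κ ∈ D.S x) :
    D.P x ≤ Cn κ := h.PU.trans (Cn_anti (Dat.le_U hκ))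

theorem Dat.Loc.T_not_le {x y : V} (h : D.Loc Γ p x y) {κ : Subgroup G} (hκ : κ ∈ D.S x) :
    ¬ D.T x y κ ≤ Cn κ := by
  intro hc
  obtain ⟨y', -, h2⟩ := h.ncent κ hκ
  rw [commutator_eq_bot_iff_le_centralizer.2 (le_Cn_comm.1 hc), Cn_bot] at h2
  exact h2 le_top

theorem relIndex_congr {A B X : Subgroup G} (h : A ⊓ X = B ⊓ X) : A.relIndex X = B.relIndex X := by
  rw [← inf_relIndex_right A, h, inf_relIndex_right]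

section S7

variable [Finite G] {x x₁ y y₁ : V} {κ κ' : Subgroup G}

theorem s7a (hx : D.Loc Γ p x x₁) (hy : D.Loc Γ p y y₁) (hyx : D.U y ≤ D.B x x₁)
    (hxy : D.U x ≤ D.B y y₁) (hκ : κ ∈ D.S x) (hκ' : κ' ∈ D.S y) (hn : ¬ κ ≤ Cn κ') :
    D.T y y₁ κ' ≤ D.U x ⊔ D.P y := by
  refine hy.off2 _ hxy hx.ea ?_ κ' hκ' fun h => hn ((Dat.le_U hκ).trans h)
  have e1 : Cn (D.U x) ⊓ D.U y = D.P x ⊓ D.U y :=
    le_antisymm (fun a ha => ⟨hx.CU ⟨hyx ha.2, ha.1⟩, ha.2⟩) (inf_le_inf_right _ hx.PU)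
  have e2 : Cn (D.U y) ⊓ D.U x = D.P y ⊓ D.U x :=
    le_antisymm (fun a ha => ⟨hy.CU ⟨hxy ha.2, ha.1⟩, ha.2⟩) (inf_le_inf_right _ hy.PU)
  rw [relIndex_congr e1, ← relIndex_congr e2]
  exact hx.off1 _ hyx hy.ea

theorem s7b (hx : D.Loc Γ p x x₁) (hy : D.Loc Γ p y y₁) (hyx : D.U y ≤ D.B x x₁)
    (hxy : D.U x ≤ D.B y y₁) (hκ : κ ∈ D.S x) (hκ' : κ' ∈ D.S y) (hn : ¬ κ ≤ Cn κ') :
    D.T x x₁ κ ≤ κ' ⊔ D.P x := by
  have hU := Dat.le_U hκ'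
  refine hx.off2 _ (hU.trans hyx) (hy.ea.mono hU) ?_ κ hκ fun h => hn (le_Cn_comm.1 h)
  have h1 := s7a hx hy hyx hxy hκ hκ' hn
  calc (Cn κ').relIndex (D.U x) ≤ (Cn κ').relIndex (D.T y y₁ κ') :=
        relIndex_le_of_cover (hy.dec _ hxy hx.ea κ' hκ')
    _ ≤ (D.P y).relIndex (D.T y y₁ κ') := relIndex_le_of_le_left (hy.PC hκ') (relIndex_pos _ _).ne'
    _ ≤ (Cn (D.T y y₁ κ')).relIndex κ' := hy.nn κ' hκ'
    _ ≤ (D.P x ⊓ κ').relIndex κ' := by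
        refine relIndex_le_of_le_left (fun a ha => Cn_anti h1 ?_) (relIndex_pos _ _).ne'
        exact mem_Cn_sup (hx.PU ha.1) (le_Cn_comm.1 (hy.PC hκ') ha.2)
    _ = (D.P x).relIndex κ' := inf_relIndex_right _ _

theorem s7c (E : D.Equi) (hx : D.Loc Γ p x x₁) (hy : D.Loc Γ p y y₁) (hyx : D.U y ≤ D.B x x₁)
    (hxy : D.U x ≤ D.B y y₁) (hκ : κ ∈ D.S x) (hκ' : κ' ∈ D.S y) (hn : ¬ κ ≤ Cn κ')
    {μ : Subgroup G} (hμ : μ ∈ D.S x) (hne : μ ≠ κ) : μ ≤ Cn κ' := by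
  by_contra hn'
  have h1 := s7b hy hx hxy hyx hκ' hκ fun h => hn (le_Cn_comm.1 h)
  have h2 := s7b hy hx hxy hyx hκ' hμ fun h => hn' (le_Cn_comm.1 h)
  have h3 := s7b hx hy hyx hxy hκ hκ' hn
  refine hy.T_not_le hκ' fun t ht => ?_
  obtain ⟨k, hk, q, hq, e1⟩ :=
    mem_sup_of_left_Nm ((Dat.le_U hκ).trans (hxy.trans (hy.BP E))) (h1 ht)
  obtain ⟨m, hm, r, hr, e2⟩ :=
    mem_sup_of_left_Nm ((Dat.le_U hμ).trans (hxy.trans (hy.BP E))) (h2 ht)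
  have h4 : m⁻¹ * k ∈ D.P y := by
    have : m⁻¹ * k = r * q⁻¹ := by
      rw [inv_mul_eq_iff_eq_mul, ← mul_assoc, ← e2, e1, mul_inv_cancel_right]
    rw [this]; exact mul_mem hr (inv_mem hq)
  have h5 : m⁻¹ * k ∈ D.U x := mul_mem (inv_mem (Dat.le_U hμ hm)) (Dat.le_U hκ hk)
  have h6 : m⁻¹ * k ∈ Cn (D.T x x₁ κ) :=
    Cn_anti h3 (mem_Cn_sup (hy.PC hκ' h4) (le_Cn_comm.1 hx.PU h5))
  have h7 : m ∈ Cn (D.T x x₁ κ) := le_Cn_comm.1 (hx.oth κ hκ μ hμ hne) hm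
  have h8 : k ∈ Cn (D.T x x₁ κ) := by simpa using mul_mem h7 h6
  have h9 : k ∈ Cn κ' := by
    have : κ' ≤ Cn (zpowers k) := by
      intro l hl
      obtain ⟨s, hs, h10⟩ := hx.dec κ' ((Dat.le_U hκ').trans hyx) (hy.ea.mono (Dat.le_U hκ')) κ hκ l hl
      have h11 : s ∈ Cn (zpowers k) := le_Cn_comm.1 (zpowers_le.2 h8) hs
      have h12 : s⁻¹ * l ∈ Cn (zpowers k) := Cn_anti (zpowers_le.2 hk) h10
      simpa using mul_mem h11 h12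
    exact zpowers_le.1 (le_Cn_comm.1 this)
  rw [e1]; exact mul_mem h9 (hy.PC hκ' hq)

theorem s7d (E : D.Equi) (hx : D.Loc Γ p x x₁) (hy : D.Loc Γ p y y₁) (hyx : D.U y ≤ D.B x x₁)
    (hxy : D.U x ≤ D.B y y₁) (hκ : κ ∈ D.S x) (hκ' : κ' ∈ D.S y) (hn : ¬ κ ≤ Cn κ') :
    D.T x x₁ κ = κ' ⊔ D.P x := by
  refine le_antisymm (s7b hx hy hyx hxy hκ hκ' hn) (sup_le ?_ (hx.PT κ hκ))
  intro l hl
  have hB := (Dat.le_U hκ').trans hyx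
  obtain ⟨s, hs, h1⟩ := hx.dec κ' hB (hy.ea.mono (Dat.le_U hκ')) κ hκ l hl
  have h2 : s⁻¹ * l ∈ D.P x := by
    refine hx.CU ⟨(D.B x x₁).mul_mem (inv_mem (hx.TB κ hκ hs)) (hB hl), mem_Cn_sSup fun μ hμ => ?_⟩
    by_cases hne : μ = κ
    · rw [hne]; exact h1
    · exact mul_mem (inv_mem (hx.oth κ hκ μ hμ hne hs))
        (le_Cn_comm.1 (s7c E hx hy hyx hxy hκ hκ' hn hμ hne) hl)
  simpa using mul_mem hs (hx.PT κ hκ h2)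

theorem s7e (E : D.Equi) (hx : D.Loc Γ p x x₁) (hy : D.Loc Γ p y y₁) (hyx : D.U y ≤ D.B x x₁)
    (hxy : D.U x ≤ D.B y y₁) (hκ : κ ∈ D.S x) (hκ' : κ' ∈ D.S y) (hn : ¬ κ ≤ Cn κ') :
    ⁅κ, D.T x x₁ κ⁆ = ⁅κ, κ'⁆ := by
  rw [s7d E hx hy hyx hxy hκ hκ' hn]
  refine le_antisymm (commutator_le.2 fun k hk t ht => ?_) (commutator_mono le_rfl le_sup_left)
  obtain ⟨l, hl, q, hq, rfl⟩ :=
    mem_sup_of_left_Nm ((Dat.le_U hκ').trans (hyx.trans (hx.BP E))) ht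
  have h1 : k * q = q * k := mem_Cn.1 (hx.PC hκ hq) k hk
  have : ⁅k, l * q⁆ = ⁅k, l⁆ := by
    rw [commutatorElement_mul_right_eq_mul_conj, commutatorElement_eq_one_iff_mul_comm.2 h1]; simp
  rw [this]; exact commutator_mem_commutator hk hl

end S7

end Pool.Agent.Lib.MP_bf45aa_co
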