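import Pool.Agent.Lib.MP_bf45aa_co.Amalgam1

set_option autoImplicit false
set_option linter.unusedSectionVars false

/-! The abstract amalgam argument, part 2: bounding the critical distance. -/

namespace Pool.Agent.Lib.MP_bf45aa_co

open Subgroup
open scoped commutatorElement

variable {G V : Type*} [Group G] [MulAction G V] {Γ : SimpleGraph V}

/-- A critical path of length `n + 1` with linked strands at its ends. -/
structure Crit (D : Dat G V) (Γ : SimpleGraph V) (n : ℕ) (f : ℕ → V) (κ κ' : Subgroup G) :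
    Prop where
  wk : Wk Γ f (n + 1)
  m0 : κ ∈ D.S (f 0)
  mb : κ' ∈ D.S (f (n + 1))
  nc : ¬ κ ≤ Cn κ'

/-- The situation with critical distance `n + 1`. -/
structure Amb (D : Dat G V) (Γ : SimpleGraph V) (p n : ℕ) : Prop where
  c : Ctx G Γ
  E : D.Equi
  L : ∀ x y, Γ.Adj x y → D.Loc Γ p x y
  hb : ∀ m ≤ n, ∀ x y, Rch Γ m x y → D.U x ≤ D.P y
  ex : ∃ f κ κ', Crit D Γ n f κ κ'

/-- Prepending a vertex. -/
def cons (γ : V) (f : ℕ → V) : ℕ → V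
  | 0 => γ
  | i + 1 => f i

theorem cons_zero (γ : V) (f : ℕ → V) : cons γ f 0 = γ := rfl

theorem cons_succ (γ : V) (f : ℕ → V) (i : ℕ) : cons γ f (i + 1) = f i := rfl

theorem conj_eq_aux {l m t : G} (h4 : l * (t⁻¹ * m) = (t⁻¹ * m) * l) :
    l * m * l⁻¹ = ⁅l, t⁆ * m := by
  rw [commutatorElement_def]
  calc l * m * l⁻¹ = l * t * (t⁻¹ * m) * l⁻¹ := by group
    _ = l * t * l⁻¹ * (l * (t⁻¹ * m)) * l⁻¹ := by group
    _ = l * t * l⁻¹ * t⁻¹ * m := by rw [h4]; group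

variable [Finite G] {D : Dat G V} {p n : ℕ}

namespace Amb

variable (A : Amb D Γ p n)
include A

theorem U_le_B {f : ℕ → V} (h : Wk Γ f (n + 1)) : D.U (f 0) ≤ D.B (f (n + 1)) (f n) := by
  have h1 := A.hb n le_rfl _ _ (by simpa using h.rch (Nat.zero_le n) (Nat.le_succ n))
  rw [A.E.symm]
  exact h1.trans (A.L _ _ (h n (Nat.lt_succ_self n))).PB

theorem U_le_B' {f : ℕ → V} (h : Wk Γ f (n + 1)) : D.U (f (n + 1)) ≤ D.B (f 0) (f 1) := by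
  have h1 := A.hb n le_rfl _ _
    (by simpa using (h.rch (Nat.le_add_left 1 n) le_rfl).symm : Rch Γ n (f (n + 1)) (f 1))
  rw [A.E.symm]
  exact h1.trans (A.L _ _ (h 0 (Nat.succ_pos n)).symm).PB

theorem crit_T {f : ℕ → V} {κ κ' : Subgroup G} (h : Crit D Γ n f κ κ') :
    D.T (f 0) (f 1) κ = κ' ⊔ D.P (f 0) :=
  s7d A.E (A.L _ _ (h.wk 0 (Nat.succ_pos n))) (A.L _ _ (h.wk n (Nat.lt_succ_self n)).symm)
    (A.U_le_B' h.wk) (A.U_le_B h.wk) h.m0 h.mb h.nc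

theorem crit_z {f : ℕ → V} {κ κ' : Subgroup G} (h : Crit D Γ n f κ κ') :
    ⁅κ, D.T (f 0) (f 1) κ⁆ = ⁅κ, κ'⁆ :=
  s7e A.E (A.L _ _ (h.wk 0 (Nat.succ_pos n))) (A.L _ _ (h.wk n (Nat.lt_succ_self n)).symm)
    (A.U_le_B' h.wk) (A.U_le_B h.wk) h.m0 h.mb h.nc

theorem crit_z' {f : ℕ → V} {κ κ' : Subgroup G} (h : Crit D Γ n f κ κ') :
    ⁅κ', D.T (f (n + 1)) (f n) κ'⁆ = ⁅κ', κ⁆ :=
  s7e A.E (A.L _ _ (h.wk n (Nat.lt_succ_self n)).symm) (A.L _ _ (h.wk 0 (Nat.succ_pos n)))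
    (A.U_le_B h.wk) (A.U_le_B' h.wk) h.mb h.m0 fun h' => h.nc (le_Cn_comm.1 h')

theorem shift {f : ℕ → V} {κ κ' : Subgroup G} (h : Crit D Γ n f κ κ') {γ : V}
    (hγ : Γ.Adj γ (f 0)) {μ : Subgroup G} (hμ : μ ∈ D.S γ)
    (hT : ¬ D.T (f 0) (f 1) κ ≤ Nm (μ ⊔ D.U (f 0))) : ∃ μ', Crit D Γ n (cons γ f) μ μ' := by
  have hw : Wk Γ (cons γ f) (n + 1) := by
    intro i hi
    cases i with
    | zero => exact hγ
    | succ i => exact h.wk i (by omega)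
  have L0 := A.L _ _ (h.wk 0 (Nat.succ_pos n))
  have Lb := A.L _ _ (h.wk n (Nat.lt_succ_self n)).symm
  have hnot : ¬ μ ≤ D.P (f n) := by
    intro hP
    apply hT
    rw [A.crit_T h]
    refine sup_le ?_ fun q hq => Nm_sup ?_ (L0.BU A.E (L0.PB hq))
    · have hB : μ ≤ D.B (f (n + 1)) (f n) := by
        rw [A.E.symm]; exact hP.trans (A.L _ _ (h.wk n (Nat.lt_succ_self n))).PB
      have hk : κ' ≤ D.B (f 0) (f 1) := (Dat.le_U h.mb).trans (A.U_le_B' h.wk)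
      have h1 : ⁅κ', κ⁆ ≤ D.U (f 0) :=
        (le_normalizer_iff_commutator_le_right.1 (hk.trans (L0.Bn κ h.m0))).trans (Dat.le_U h.m0)
      refine le_Nm_of_cj_le fun l hl => ?_
      rw [cj_sup, mem_Nm_iff.1 (L0.BU A.E (hk hl))]
      refine sup_le ?_ le_sup_right
      intro a ha
      obtain ⟨m, hm, rfl⟩ := mem_cj'.1 ha
      obtain ⟨t, ht, h2⟩ := Lb.dec μ hB ((A.L _ _ hγ).ea.mono (Dat.le_U hμ)) κ' h.mb m hm
      have h3 : ⁅l, t⁆ ∈ D.U (f 0) := by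
        apply h1; rw [← A.crit_z' h]; exact commutator_mem_commutator hl ht
      have h4 : l * (t⁻¹ * m) = (t⁻¹ * m) * l := mem_Cn.1 h2 l hl
      have h5 : l * m * l⁻¹ = ⁅l, t⁆ * m := conj_eq_aux h4
      rw [h5]
      exact mul_mem (mem_sup_right h3) (mem_sup_left hm)
    · refine (A.L _ _ hγ).Bn μ hμ ?_
      rw [A.E.symm]; exact (A.L _ _ hγ.symm).PB hq
  have hB := A.U_le_B hw
  have Ln := A.L _ _ (hw n (Nat.lt_succ_self n)).symm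
  rw [cons_succ] at hB Ln
  rw [cons_zero] at hB
  replace hB := (Dat.le_U hμ).trans hB
  by_contra hcon
  apply hnot
  intro m hm
  refine Ln.CU ⟨hB hm, ?_⟩
  refine mem_Cn_sSup fun μ' hμ' => ?_
  by_contra h3
  exact hcon ⟨μ', ⟨hw, hμ, by rw [cons_succ]; exact hμ', fun h4 => h3 (h4 hm)⟩⟩

theorem crit_smul {f : ℕ → V} {κ κ' : Subgroup G} (h : Crit D Γ n f κ κ') (g : G) :
    Crit D Γ n (fun i => g • f i) (cj g κ) (cj g κ') :=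
  ⟨fun i hi => A.c.adj g (h.wk i hi), A.E.S g _ _ h.m0, A.E.S g _ _ h.mb,
    by rw [← cj_Cn, cj_le_cj]; exact h.nc⟩

theorem live {α β : V} (h : Γ.Adj α β) {l : Subgroup G} (hl : l ∈ D.S α) :
    ∃ f κ', Crit D Γ n f l κ' ∧ f 0 = α ∧ f 1 = β := by
  obtain ⟨f, κ, κ', hc⟩ := A.ex
  obtain ⟨g, h1, h2⟩ := A.c.arc (hc.wk 0 (Nat.succ_pos n)) h
  have h3 := A.E.S g _ _ hc.m0
  rw [h1] at h3
  obtain ⟨k, k1, k2, k3⟩ := (A.L _ _ h).tr _ h3 _ hl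
  refine ⟨_, _, k3 ▸ A.crit_smul (A.crit_smul hc g) k, ?_, ?_⟩
  · show k • g • f 0 = α
    rw [h1, k1]
  · show k • g • f 1 = β
    rw [h2, k2]

end Amb

/-- The join of the groups `T α β l` not contained in `N`. -/
def FF (D : Dat G V) (Γ : SimpleGraph V) (α : V) (N : Subgroup G) : Subgroup G :=
  sSup {X | ∃ β l, Γ.Adj α β ∧ l ∈ D.S α ∧ X = D.T α β l ∧ ¬ X ≤ N}

/-- The join of the groups `T α β l` contained in `N`. -/
def NN (D : Dat G V) (Γ : SimpleGraph V) (α : V) (N : Subgroup G) : Subgroup G :=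
  sSup {X | ∃ β l, Γ.Adj α β ∧ l ∈ D.S α ∧ X = D.T α β l ∧ X ≤ N}

/-- The join of all groups `T α β l`. -/
def DD (D : Dat G V) (Γ : SimpleGraph V) (α : V) : Subgroup G :=
  sSup {X | ∃ β l, Γ.Adj α β ∧ l ∈ D.S α ∧ X = D.T α β l}

/-- Edge chains. -/
inductive Ch (D : Dat G V) (Γ : SimpleGraph V) (z : Subgroup G) : ℕ → V → V → Subgroup G → Prop
  | base {γ α : V} {μ : Subgroup G} : Γ.Adj γ α → μ ∈ D.S γ → z = ⁅μ, D.T γ α μ⁆ → Ch D Γ z 0 γ α μ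
  | step {j : ℕ} {γ α β : V} {μ l : Subgroup G} : Ch D Γ z j γ α μ → l ∈ D.S α → Γ.Adj α β →
      ¬ D.T α β l ≤ Nm (μ ⊔ D.U α) → Ch D Γ z (j + 1) α γ l

theorem Ch.adj {z : Subgroup G} {j : ℕ} {γ α : V} {μ : Subgroup G} (h : Ch D Γ z j γ α μ) :
    Γ.Adj γ α ∧ μ ∈ D.S γ := by
  induction h with
  | base h1 h2 _ => exact ⟨h1, h2⟩
  | step _ h2 _ _ ih => exact ⟨ih.1.symm, h2⟩

namespace Amb

variable (A : Amb D Γ p n)
include A

theorem ch_B {z : Subgroup G} {j : ℕ} {γ α : V} {μ : Subgroup G} (h : Ch D Γ z j γ α μ) :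
    D.B γ α ≤ Cn z := by
  induction h with
  | base h1 h2 h3 => rw [h3]; exact (A.L _ _ h1).zeta _ h2
  | step _ _ _ _ ih => rw [A.E.symm]; exact ih

theorem ch_smul {z : Subgroup G} {j : ℕ} {γ α : V} {μ : Subgroup G} (h : Ch D Γ z j γ α μ)
    (g : G) : Ch D Γ (cj g z) j (g • γ) (g • α) (cj g μ) := by
  induction h with
  | base h1 h2 h3 => exact Ch.base (A.c.adj g h1) (A.E.S g _ _ h2) (by rw [h3, cj_comm, A.E.T])
  | step _ h2 h3 h4 ih =>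
    refine Ch.step ih (A.E.S g _ _ h2) (A.c.adj g h3) ?_
    rwa [← A.E.T, ← A.E.U, ← cj_sup, ← cj_Nm, cj_le_cj]

theorem DD_le (α : V) : DD D Γ α ≤ St G α ⊓ ⨅ l : D.S α, Nm l := by
  refine sSup_le ?_
  rintro _ ⟨β, l, h1, h2, rfl⟩
  have L := A.L _ _ h1
  exact (L.TB l h2).trans (le_inf L.BS (le_iInf fun l' => L.Bn l' l'.2))

theorem DD_fix {α : V} {g : G} (hg : g ∈ DD D Γ α) :
    g • α = α ∧ ∀ l ∈ D.S α, cj g l = l := by
  have := A.DD_le α hg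
  exact ⟨this.1, fun l hl => mem_Nm_iff.1 (mem_iInf.1 this.2 ⟨l, hl⟩)⟩

theorem DD_tr {α β : V} (h : Γ.Adj α β) : Tr Γ (DD D Γ α) α := by
  have L := A.L _ _ h
  obtain ⟨l, hl⟩ : ∃ l, l ∈ D.S α := by
    by_contra hc
    apply L.Une
    rw [eq_bot_iff]
    exact sSup_le fun l hl => absurd ⟨l, hl⟩ hc
  obtain ⟨t, ht, h2⟩ := SetLike.not_le_iff_exists.1 (L.T_not_le hl)
  have hB := L.TB l hl ht
  refine A.c.sp_tr ((A.DD_le α).trans inf_le_left) ?_ h (a := t)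
    (le_sSup (s := {X | ∃ β l, Γ.Adj α β ∧ l ∈ D.S α ∧ X = D.T α β l}) ⟨β, l, h, hl, rfl⟩ ht)
    ((A.L _ _ h.symm).BS (by rw [A.E.symm]; exact hB)) fun hK => h2 (L.PC hl (L.BK ⟨hB, hK⟩))
  refine le_Nm_of_cj_le fun g hg => ?_
  rw [DD, cj_sSup]
  refine sSup_le_sSup ?_
  rintro _ ⟨_, ⟨β, l, h1, h2, rfl⟩, rfl⟩
  have h3 := A.E.S g _ _ h2
  rw [mem_St.1 hg] at h3
  exact ⟨g • β, cj g l, A.c.adj_St hg h1, h3, by rw [A.E.T, mem_St.1 hg]⟩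

theorem fold {α β₀ : V} {l : Subgroup G} {N : Subgroup G} (h0 : Γ.Adj α β₀) (hl : l ∈ D.S α)
    (hT : ¬ D.T α β₀ l ≤ N) {β : V} (hβ : Γ.Adj α β) :
    ∃ g ∈ FF D Γ α N, ∃ β₁, Γ.Adj α β₁ ∧ g • β₁ = β ∧ ¬ D.T α β₁ l ≤ N ∧ g • α = α ∧
      cj g l = l := by
  have hF : FF D Γ α N ≤ DD D Γ α :=
    sSup_le_sSup fun X ⟨β, l, h1, h2, h3, _⟩ => ⟨β, l, h1, h2, h3⟩
  have hN : NN D Γ α N ≤ DD D Γ α :=
    sSup_le_sSup fun X ⟨β, l, h1, h2, h3, _⟩ => ⟨β, l, h1, h2, h3⟩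
  have hN' : NN D Γ α N ≤ N := sSup_le fun X ⟨_, _, _, _, _, h⟩ => h
  have key : ∀ m ∈ NN D Γ α N, ∀ β l, l ∈ D.S α → ¬ D.T α β l ≤ N → ¬ D.T α (m • β) l ≤ N := by
    intro m hm β l hl h1 h2
    obtain ⟨e1, e2⟩ := A.DD_fix (hN hm)
    apply h1
    rw [← cj_le_cj (g := m), A.E.T, e1, e2 l hl, mem_Nm_iff.1 (le_Nm_self N (hN' hm))]
    exact h2
  have hNF : NN D Γ α N ≤ Nm (FF D Γ α N) := by
    refine le_Nm_of_cj_le fun m hm => ?_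
    obtain ⟨e1, e2⟩ := A.DD_fix (hN hm)
    rw [FF, cj_sSup]
    refine sSup_le_sSup ?_
    rintro _ ⟨_, ⟨β, l, h1, h2, rfl, h4⟩, rfl⟩
    rw [A.E.T, e1, e2 l h2]
    exact ⟨m • β, l, A.c.adj_St e1 h1, h2, rfl, key m hm β l h2 h4⟩
  have hD : DD D Γ α ≤ FF D Γ α N ⊔ NN D Γ α N := by
    refine sSup_le ?_
    rintro X ⟨β, l, h1, h2, h3⟩
    by_cases h4 : X ≤ N
    · exact le_sup_of_le_right (le_sSup ⟨β, l, h1, h2, h3, h4⟩)
    · exact le_sup_of_le_left (le_sSup ⟨β, l, h1, h2, h3, h4⟩)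
  obtain ⟨d, hd, e⟩ := A.DD_tr h0 _ _ h0 hβ
  obtain ⟨g, hg, m, hm, rfl⟩ := mem_sup_of_right_Nm hNF (hD hd)
  obtain ⟨e1, e2⟩ := A.DD_fix (hF hg)
  exact ⟨g, hg, m • β₀, A.c.adj_St (A.DD_fix (hN hm)).1 h0, by rw [← e, mul_smul],
    key m hm β₀ l hl hT, e1, e2 l hl⟩

/-- From the location of `z` to its centraliser. -/
theorem stepB {z : Subgroup G} {j : ℕ} {γ α : V} {μ : Subgroup G} (h : Ch D Γ z j γ α μ)
    (hj : j < n)
    (hA : ∀ f l κ', Crit D Γ n f l κ' → f 0 = α → ¬ D.T α (f 1) l ≤ Nm (μ ⊔ D.U α) →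
      z ≤ D.U (f (n - j))) : FF D Γ α (Nm (μ ⊔ D.U α)) ≤ Cn z := by
  refine sSup_le ?_
  rintro _ ⟨β, l, h1, h2, rfl, h4⟩
  obtain ⟨f, κ', hc, rfl, rfl⟩ := A.live h1 h2
  have h5 := hA f l κ' hc rfl h4
  rw [A.crit_T hc]
  refine sup_le ?_ ?_
  · have h6 := A.hb _ (by omega) _ _ (hc.wk.rch (i := n - j) (j := n + 1) (by omega) le_rfl).symm
    exact (Dat.le_U hc.mb).trans (h6.trans
      ((A.L _ _ (hc.wk (n - j) (by omega))).PU.trans (Cn_anti h5)))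
  · refine le_trans ?_ (A.ch_B h)
    rw [A.E.symm]; exact (A.L _ _ h.adj.1.symm).PB

theorem stepA (j : ℕ) : ∀ {z : Subgroup G} {γ α : V} {μ : Subgroup G}, Ch D Γ z j γ α μ → j ≤ n →
    ∀ f l κ', Crit D Γ n f l κ' → f 0 = α → ¬ D.T α (f 1) l ≤ Nm (μ ⊔ D.U α) →
      z ≤ D.U (f (n - j)) := by
  induction j with
  | zero =>
    intro z γ α μ h _ f l κ' hc e hT
    subst e
    obtain ⟨μ', hc'⟩ := A.shift hc h.adj.1 h.adj.2 hT
    cases h with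
    | base h1 h2 h3 =>
      have h4 := A.crit_z hc'
      have h5 : z = ⁅μ, μ'⁆ := h3.trans h4
      rw [h5]
      have Ln := A.L _ _ (hc'.wk n (Nat.lt_succ_self n)).symm
      exact (le_normalizer_iff_commutator_le_right.1
        ((Dat.le_U hc'.m0).trans ((A.U_le_B hc'.wk).trans (Ln.Bn μ' hc'.mb)))).trans
        (Dat.le_U hc'.mb)
  | succ j ih =>
    intro z α γ l h hj f ν κ' hc e hT
    subst e
    obtain ⟨μ', hc'⟩ := A.shift hc h.adj.1 h.adj.2 hT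
    cases h with
    | @step _ _ _ β μ _ h1 h2 h3 h4 =>
      obtain ⟨g, hg, β₁, k1, k2, k3, k4, k5⟩ := A.fold h3 h2 h4 h1.adj.1.symm
      have hz : g ∈ Cn z := A.stepB h1 hj (ih h1 (by omega)) hg
      have h5 := A.ch_smul h1 g
      rw [mem_Nm_iff.1 (Cn_le_Nm z hz), k4] at h5
      have h6 := ih h5 (by omega) _ l μ' hc' rfl (by
        show ¬ D.T α (f 0) l ≤ _
        rw [← k2]
        intro h7
        apply k3
        rw [← cj_le_cj (g := g), A.E.T, cj_Nm, cj_sup, A.E.U, k4, k5]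
        exact h7)
      rwa [show n - j = n - (j + 1) + 1 by omega] at h6

theorem ch_final {z : Subgroup G} {j : ℕ} {γ α β₀ : V} {μ l : Subgroup G} (h : Ch D Γ z j γ α μ)
    (hj : j < n) (h0 : Γ.Adj α β₀) (hl : l ∈ D.S α) (hT : ¬ D.T α β₀ l ≤ Nm (μ ⊔ D.U α))
    {β : V} (hβ : Γ.Adj α β) : D.T α β l ≤ Cn z := by
  have hF := A.stepB h hj (A.stepA j h hj.le)
  obtain ⟨g, hg, β₁, k1, k2, k3, k4, k5⟩ := A.fold h0 hl hT hβ
  have h0 : D.T α β₁ l ≤ FF D Γ α (Nm (μ ⊔ D.U α)) := le_sSup ⟨β₁, l, k1, hl, rfl, k3⟩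
  have h1 : D.T α β₁ l ≤ Cn z := le_trans h0 hF
  have h2 := cj_mono g h1
  rwa [A.E.T, k4, k5, k2, cj_Cn, mem_Nm_iff.1 (Cn_le_Nm z (hF hg))] at h2

theorem arrow {γ α : V} (h : Γ.Adj γ α) {μ : Subgroup G} (hμ : μ ∈ D.S γ) :
    ∃ l ∈ D.S α, ∃ β, Γ.Adj α β ∧ ¬ D.T α β l ≤ Nm (μ ⊔ D.U α) := by
  by_contra hc
  push Not at hc
  have L := A.L _ _ h
  have L' := A.L _ _ h.symm
  have h1 : DD D Γ α ≤ Nm (D.U γ ⊔ D.U α) := by
    refine sSup_le ?_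
    rintro _ ⟨β, l, h1, h2, rfl⟩
    have h3 : ∀ μ' ∈ D.S γ, D.T α β l ≤ Nm (μ' ⊔ D.U α) := by
      intro μ' hμ'
      obtain ⟨g, g1, g2, rfl⟩ := L.tr μ hμ μ' hμ'
      have h4 : g⁻¹ • α = α := by rw [inv_smul_eq_iff, g2]
      have h5 := A.E.S g⁻¹ _ _ h2
      rw [h4] at h5
      have h6 := cj_mono g (hc _ h5 _ (A.c.adj_St h4 h1))
      rwa [A.E.T, cj_Nm, cj_sup, A.E.U, g2, smul_inv_smul, cj_cj_inv] at h6
    refine le_Nm_of_cj_le fun t ht => ?_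
    rw [cj_sup, Dat.U, cj_sSup]
    refine sup_le (sSup_le ?_) ?_
    · rintro _ ⟨μ', hμ', rfl⟩
      refine (cj_mono t (le_sup_left (b := D.U α))).trans ?_
      rw [mem_Nm_iff.1 (h3 μ' hμ' ht)]
      exact sup_le_sup_right (le_sSup hμ') _
    · rw [mem_Nm_iff.1 ((A.L _ _ h1).BU A.E ((A.L _ _ h1).TB l h2 ht))]
      exact le_sup_right
  have t1 : Tr Γ (Nm (D.U γ ⊔ D.U α) ⊓ St G α) α :=
    (A.DD_tr h.symm).mono (le_inf h1 ((A.DD_le α).trans inf_le_left))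
  obtain ⟨g, g1, g2⟩ := A.c.arc h.symm h
  have t2 := A.c.tr_cj t1 g
  rw [cj_inf, cj_Nm, cj_sup, A.E.U, A.E.U, cj_St, g1, g2, sup_comm] at t2
  have hγ : D.U γ ≤ D.B γ α := L.UP.trans L.PB
  have hα : D.U α ≤ D.B α γ := L'.UP.trans L'.PB
  have h2 := A.c.L0 h (X := D.U γ ⊔ D.U α)
    (sup_le (hγ.trans L.BS) (hα.trans ((A.E.symm _ _).le.trans L.BS)))
    (sup_le (hγ.trans ((A.E.symm _ _).le.trans L'.BS)) (hα.trans L'.BS)) t2 t1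
  exact L.Une (eq_bot_iff.2 (le_sup_left.trans h2.le))

theorem card_S {α β : V} (h : Γ.Adj α β) :
    Nat.card (D.S α) ≤ (Kn G Γ 1 α).relIndex (St G α) := by
  have L := A.L _ _ h
  have h1 : ∀ l : D.S α, ∃ t ∈ D.T α β l, t ∉ Cn l := fun l =>
    SetLike.not_le_iff_exists.1 (L.T_not_le l.2)
  choose t ht htc using h1
  have hB : ∀ l, t l ∈ D.B α β := fun l => L.TB l l.2 (ht l)
  let φ : D.S α → (St G α) ⧸ (Kn G Γ 1 α).subgroupOf (St G α) := fun l =>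
    QuotientGroup.mk ⟨t l, L.BS (hB l)⟩
  refine Nat.card_le_card_of_injective φ fun l l' e => ?_
  have h2 := QuotientGroup.eq.1 e
  rw [mem_subgroupOf] at h2
  by_contra hne
  have h3 : (t l)⁻¹ * t l' ∈ Cn l :=
    L.PC l.2 (L.BK ⟨(D.B α β).mul_mem (inv_mem (hB l)) (hB l'), h2⟩)
  have h4 : t l' ∈ Cn l := L.oth l' l'.2 l l.2 (fun e => hne (Subtype.ext e)) (ht l')
  apply htc l
  simpa using mul_mem h4 (inv_mem h3)

theorem bound {α β : V} (h : Γ.Adj α β) : n < 2 * Nat.card (D.S α) := by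
  by_contra hn
  push Not at hn
  let r : D.S α → D.S α → Prop := fun μ ν => ∃ l ∈ D.S β, ∃ β₁ β₂, Γ.Adj β β₁ ∧ Γ.Adj α β₂ ∧
    ¬ D.T β β₁ l ≤ Nm (μ ⊔ D.U β) ∧ ¬ D.T α β₂ ν ≤ Nm (l ⊔ D.U α)
  have hr : ∀ μ, ∃ ν, r μ ν := by
    intro μ
    obtain ⟨l, hl, β₁, h1, h2⟩ := A.arrow h μ.2
    obtain ⟨ν, hν, β₂, h3, h4⟩ := A.arrow h.symm hl
    exact ⟨⟨ν, hν⟩, l, hl, β₁, β₂, h1, h3, h2, h4⟩
  choose φ hφ using hr
  obtain ⟨μ₀, hμ₀⟩ : ∃ l, l ∈ D.S α := by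
    by_contra hc
    apply (A.L _ _ h).Une
    rw [eq_bot_iff]
    exact sSup_le fun l hl => absurd ⟨l, hl⟩ hc
  have hch : ∀ (μ : D.S α) (k : ℕ), Ch D Γ ⁅(μ : Subgroup G), D.T α β μ⁆ (2 * k) α β (φ^[k] μ) := by
    intro μ k
    induction k with
    | zero => exact Ch.base h μ.2 rfl
    | succ k ih =>
      obtain ⟨l, hl, β₁, β₂, h1, h2, h3, h4⟩ := hφ (φ^[k] μ)
      rw [Function.iterate_succ_apply']
      exact (ih.step hl h1 h3).step (φ _).2 h2 h4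
  obtain ⟨i, j, hij, e⟩ : ∃ i j : Fin (Nat.card (D.S α) + 1), i < j ∧
      φ^[i] ⟨μ₀, hμ₀⟩ = φ^[j] ⟨μ₀, hμ₀⟩ := by
    classical
    let _ := Fintype.ofFinite (D.S α)
    obtain ⟨i, j, hne, e⟩ := Fintype.exists_ne_map_eq_of_card_lt
      (fun i : Fin (Nat.card (D.S α) + 1) => φ^[i] ⟨μ₀, hμ₀⟩) (by simp)
    rcases lt_or_gt_of_ne hne with h1 | h1
    · exact ⟨i, j, h1, e⟩
    · exact ⟨j, i, h1, e.symm⟩
  obtain ⟨k, hk⟩ : ∃ k, (j : ℕ) = k + 1 + i := ⟨j - i - 1, by have : (i : ℕ) < j := hij; omega⟩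
  rw [hk, Function.iterate_add_apply, Function.iterate_succ_apply'] at e
  set μ := φ^[i] ⟨μ₀, hμ₀⟩
  obtain ⟨l, hl, β₁, β₂, h1, h2, h3, h4⟩ := hφ (φ^[k] μ)
  rw [← e] at h4
  obtain ⟨y', h5, h6⟩ := (A.L _ _ h).ncent μ μ.2
  exact h6 (A.ch_final ((hch μ k).step hl h1 h3) (by have := j.2; omega) h2 μ.2 h4 h5)

end Amb

theorem Ctx.has_nbr (c : Ctx G Γ) {α β : V} (h : Γ.Adj α β) (x : V) : ∃ y, Γ.Adj x y := by
  obtain ⟨w⟩ := c.conn x α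
  cases w with
  | nil => exact ⟨β, h⟩
  | cons h1 _ => exact ⟨_, h1⟩

/-- The abstract amalgam theorem. -/
theorem amalgam [Finite V] (c : Ctx G Γ) {d : ℕ} (hd : ∀ v, (Γ.neighborSet v).ncard ≤ d)
    (E : D.Equi) {α β : V} (h : Γ.Adj α β) (L : D.Loc Γ p α β) :
    ∃ m ≤ 2 * cb d 1, ∃ x u u', Rch Γ m x u ∧ Γ.Adj u u' ∧ ∃ a ∈ D.U x, a • u = u ∧ a • u' = u' ∧
      a ∉ Kn G Γ 1 u := by
  classical
  have L' := Dat.Loc.all c E h L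
  have hex : ∃ m, ∃ x y, Rch Γ m x y ∧ ¬ D.U x ≤ D.P y := by
    by_contra hc
    push Not at hc
    apply L.Une
    rw [eq_bot_iff]
    intro a ha
    refine mem_bot.2 (c.faithful a fun y => ?_)
    obtain ⟨m, hm⟩ := rch_of_reachable (c.conn α y)
    obtain ⟨y', hy'⟩ := c.has_nbr h y
    exact Kn_le_St 1 y ((L' _ _ hy').PK (hc m _ _ hm ha))
  obtain ⟨x, y, ⟨f, hf, rfl, e⟩, hn⟩ := Nat.find_spec hex
  have hmin : ∀ m < Nat.find hex, ∀ x y, Rch Γ m x y → D.U x ≤ D.P y := by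
    intro m hm x y hr
    by_contra hc
    exact Nat.find_min hex hm ⟨x, y, hr, hc⟩
  generalize Nat.find hex = b at hf e hmin
  subst e
  cases b with
  | zero =>
    obtain ⟨y', hy'⟩ := c.has_nbr h (f 0)
    exact absurd (L' _ _ hy').UP hn
  | succ n =>
    have hl := (hf n (Nat.lt_succ_self n)).symm
    have Ln := L' _ _ hl
    have hB : D.U (f 0) ≤ D.B (f (n + 1)) (f n) := by
      have h1 := hmin n (Nat.lt_succ_self n) _ _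
        (by simpa using hf.rch (Nat.zero_le n) (Nat.le_succ n))
      rw [E.symm]
      exact h1.trans (L' _ _ hl.symm).PB
    have A : Amb D Γ p n := by
      refine ⟨c, E, L', fun m hm => hmin m (by omega), f, ?_⟩
      by_contra hc
      refine hn fun a ha => Ln.CU ⟨hB ha, mem_Cn_sSup fun κ' hκ' => ?_⟩
      have : D.U (f 0) ≤ Cn κ' := sSup_le fun κ hκ => by
        by_contra h3
        exact hc ⟨κ, κ', hf, hκ, hκ', h3⟩
      exact this ha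
    have h1 := A.bound h
    have h2 := (A.card_S h).trans (c.relIndex_Kn hd 1 α)
    obtain ⟨a, ha, h3⟩ := SetLike.not_le_iff_exists.1 hn
    exact ⟨n + 1, by omega, f 0, f (n + 1), f n, ⟨f, hf, rfl, rfl⟩, hl, a, ha, Ln.BS (hB ha),
      (L' _ _ hl.symm).BS (by rw [E.symm]; exact hB ha), fun hK => h3 (Ln.BK ⟨hB ha, hK⟩)⟩

end Pool.Agent.Lib.MP_bf45aa_co
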