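import Mathlib

set_option autoImplicit false

/-! Conjugation of subgroups, normalisers, centralisers, cores and subnormality. -/

namespace Pool.Agent.Lib.MP_bf45aa_co

open Subgroup

variable {G : Type*} [Group G]

/-- The conjugate `g X g⁻¹`. -/
def cj (g : G) (X : Subgroup G) : Subgroup G := X.map (MulAut.conj g).toMonoidHom

/-- Normaliser of a subgroup. -/
abbrev Nm (X : Subgroup G) : Subgroup G := normalizer (X : Set G)

/-- Centraliser of a subgroup. -/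
abbrev Cn (X : Subgroup G) : Subgroup G := centralizer (X : Set G)

theorem mem_cj {g a : G} {X : Subgroup G} : a ∈ cj g X ↔ g⁻¹ * a * g ∈ X := by
  constructor
  · rintro ⟨b, hb, rfl⟩
    simpa [mul_assoc] using hb
  · intro h
    exact ⟨_, h, by simp [mul_assoc]⟩

theorem mem_cj' {g a : G} {X : Subgroup G} : a ∈ cj g X ↔ ∃ b ∈ X, g * b * g⁻¹ = a := Iff.rfl

theorem conj_mem_cj {g a : G} {X : Subgroup G} (h : a ∈ X) : g * a * g⁻¹ ∈ cj g X := by
  rw [mem_cj]; simpa [mul_assoc] using h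

theorem conj_mem_cj_iff {g a : G} {X : Subgroup G} : g * a * g⁻¹ ∈ cj g X ↔ a ∈ X := by
  rw [mem_cj]; simp [mul_assoc]

theorem cj_one (X : Subgroup G) : cj 1 X = X := by
  ext a; simp [mem_cj]

theorem cj_cj (g h : G) (X : Subgroup G) : cj g (cj h X) = cj (g * h) X := by
  ext a; simp [mem_cj, mul_assoc]

theorem cj_inv_cj (g : G) (X : Subgroup G) : cj g⁻¹ (cj g X) = X := by
  rw [cj_cj, inv_mul_cancel, cj_one]

theorem cj_cj_inv (g : G) (X : Subgroup G) : cj g (cj g⁻¹ X) = X := by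
  rw [cj_cj, mul_inv_cancel, cj_one]

theorem cj_mono (g : G) {X Y : Subgroup G} (h : X ≤ Y) : cj g X ≤ cj g Y := map_mono h

theorem cj_le_cj {g : G} {X Y : Subgroup G} : cj g X ≤ cj g Y ↔ X ≤ Y :=
  ⟨fun h => by simpa [cj_inv_cj] using cj_mono g⁻¹ h, cj_mono g⟩

theorem cj_inj {g : G} {X Y : Subgroup G} : cj g X = cj g Y ↔ X = Y := by
  simp only [le_antisymm_iff, cj_le_cj]

theorem cj_le_iff {g : G} {X Y : Subgroup G} : cj g X ≤ Y ↔ X ≤ cj g⁻¹ Y := by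
  rw [← cj_le_cj (g := g⁻¹), cj_inv_cj]

theorem cj_sup (g : G) (X Y : Subgroup G) : cj g (X ⊔ Y) = cj g X ⊔ cj g Y := map_sup _ _ _

theorem cj_inf (g : G) (X Y : Subgroup G) : cj g (X ⊓ Y) = cj g X ⊓ cj g Y := by
  ext a; simp [mem_cj]

theorem cj_bot (g : G) : cj g (⊥ : Subgroup G) = ⊥ := Subgroup.map_bot _

theorem cj_eq_bot {g : G} {X : Subgroup G} : cj g X = ⊥ ↔ X = ⊥ := by
  rw [← cj_inj (g := g) (X := X), cj_bot]

theorem cj_comm (g : G) (X Y : Subgroup G) : cj g ⁅X, Y⁆ = ⁅cj g X, cj g Y⁆ :=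
  map_commutator _ _ _

theorem cj_eq_of_le {ι : Type*} (act : G → ι → ι) (hact : ∀ g i, act g⁻¹ (act g i) = i)
    (Φ : ι → Subgroup G) (h : ∀ g i, cj g (Φ i) ≤ Φ (act g i)) (g : G) (i : ι) :
    cj g (Φ i) = Φ (act g i) := by
  refine le_antisymm (h g i) ?_
  have := h g⁻¹ (act g i)
  rw [hact, cj_le_iff, inv_inv] at this
  exact this

theorem cj_Cn (g : G) (X : Subgroup G) : cj g (Cn X) = Cn (cj g X) := by
  refine cj_eq_of_le cj cj_inv_cj Cn ?_ g X
  intro g X a ha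
  rw [mem_cj] at ha
  rw [mem_centralizer_iff] at ha ⊢
  rintro b hb
  have := ha _ (mem_cj.1 hb)
  have h2 : g * (g⁻¹ * b * g * (g⁻¹ * a * g)) * g⁻¹ = g * (g⁻¹ * a * g * (g⁻¹ * b * g)) * g⁻¹ := by
    rw [this]
  simpa [mul_assoc] using h2

theorem mem_Nm_iff {g : G} {X : Subgroup G} : g ∈ Nm X ↔ cj g X = X := by
  rw [mem_normalizer_iff'']
  constructor
  · intro h; ext a; rw [mem_cj, ← h]
  · intro h a; rw [← mem_cj, h]

theorem cj_Nm (g : G) (X : Subgroup G) : cj g (Nm X) = Nm (cj g X) := by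
  ext a
  rw [mem_cj, mem_Nm_iff, mem_Nm_iff, cj_cj, ← cj_inj (g := g), cj_cj]
  simp [mul_assoc]

theorem cj_sSup (g : G) (S : Set (Subgroup G)) : cj g (sSup S) = sSup (cj g '' S) := by
  rw [sSup_image, sSup_eq_iSup]
  simp only [cj, Subgroup.map_iSup]

theorem card_cj (g : G) (X : Subgroup G) : Nat.card (cj g X) = Nat.card X :=
  card_map_of_injective (MulAut.conj g).injective

theorem relIndex_cj (g : G) (X Y : Subgroup G) : (cj g X).relIndex (cj g Y) = X.relIndex Y :=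
  relIndex_map_map_of_injective _ _ (MulAut.conj g).injective

theorem cj_zpowers (g a : G) : cj g (zpowers a) = zpowers (g * a * g⁻¹) := by
  rw [cj, MonoidHom.map_zpowers]; rfl

theorem conj_mem_of_Nm {g a : G} {X : Subgroup G} (hg : g ∈ Nm X) (ha : a ∈ X) :
    g * a * g⁻¹ ∈ X := (mem_normalizer_iff.1 hg a).1 ha

theorem conj_mem_of_Nm' {g a : G} {X : Subgroup G} (hg : g ∈ Nm X) (ha : a ∈ X) :
    g⁻¹ * a * g ∈ X := (mem_normalizer_iff''.1 hg a).1 ha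

theorem le_Nm_of_conj {H X : Subgroup G} (h : ∀ g ∈ H, ∀ a ∈ X, g * a * g⁻¹ ∈ X) : H ≤ Nm X := by
  intro g hg
  rw [mem_normalizer_iff]
  intro a
  refine ⟨h g hg a, fun ha => ?_⟩
  have := h g⁻¹ (H.inv_mem hg) _ ha
  simpa [mul_assoc] using this

theorem le_Nm_of_cj_le {H X : Subgroup G} (h : ∀ g ∈ H, cj g X ≤ X) : H ≤ Nm X :=
  le_Nm_of_conj fun g hg _ ha => h g hg (conj_mem_cj ha)

theorem mem_Nm_of_cj_le [Finite G] {g : G} {X : Subgroup G} (h : cj g X ≤ X) : g ∈ Nm X :=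
  mem_Nm_iff.2 (eq_of_le_of_card_ge h (card_cj g X).ge)

theorem Nm_inf {g : G} {X Y : Subgroup G} (hX : g ∈ Nm X) (hY : g ∈ Nm Y) : g ∈ Nm (X ⊓ Y) := by
  rw [mem_Nm_iff] at *; rw [cj_inf, hX, hY]

theorem Nm_sup {g : G} {X Y : Subgroup G} (hX : g ∈ Nm X) (hY : g ∈ Nm Y) : g ∈ Nm (X ⊔ Y) := by
  rw [mem_Nm_iff] at *; rw [cj_sup, hX, hY]

theorem Nm_Cn {g : G} {X : Subgroup G} (hX : g ∈ Nm X) : g ∈ Nm (Cn X) := by
  rw [mem_Nm_iff] at *; rw [cj_Cn, hX]

theorem Nm_comm {g : G} {X Y : Subgroup G} (hX : g ∈ Nm X) (hY : g ∈ Nm Y) : g ∈ Nm ⁅X, Y⁆ := by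
  rw [mem_Nm_iff] at *; rw [cj_comm, hX, hY]

theorem le_Nm_self (X : Subgroup G) : X ≤ Nm X := le_normalizer

theorem Cn_le_Nm (X : Subgroup G) : Cn X ≤ Nm X := centralizer_le_normalizer _

theorem Cn_anti {X Y : Subgroup G} (h : X ≤ Y) : Cn Y ≤ Cn X := centralizer_le h

theorem mem_Cn {g : G} {X : Subgroup G} : g ∈ Cn X ↔ ∀ h ∈ X, h * g = g * h :=
  mem_centralizer_iff

theorem le_Cn_comm {X Y : Subgroup G} : X ≤ Cn Y ↔ Y ≤ Cn X := le_centralizer_iff

theorem mem_Cn_sup {g : G} {X Y : Subgroup G} (hX : g ∈ Cn X) (hY : g ∈ Cn Y) :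
    g ∈ Cn (X ⊔ Y) := by
  have : X ⊔ Y ≤ Cn (zpowers g) :=
    sup_le (le_Cn_comm.1 (zpowers_le.2 hX)) (le_Cn_comm.1 (zpowers_le.2 hY))
  exact zpowers_le.1 (le_Cn_comm.1 this)

theorem mem_Cn_sSup {g : G} {S : Set (Subgroup G)} (h : ∀ X ∈ S, g ∈ Cn X) :
    g ∈ Cn (sSup S) := by
  have : sSup S ≤ Cn (zpowers g) :=
    sSup_le fun X hX => le_Cn_comm.1 (zpowers_le.2 (h X hX))
  exact zpowers_le.1 (le_Cn_comm.1 this)

theorem Cn_bot : Cn (⊥ : Subgroup G) = ⊤ := by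
  rw [eq_top_iff]; intro g _; rw [mem_Cn]; intro h hh; rw [mem_bot.1 hh]; simp

theorem mem_sup_of_left_Nm {H N : Subgroup G} (h : H ≤ Nm N) {g : G} (hg : g ∈ H ⊔ N) :
    ∃ a ∈ H, ∃ n ∈ N, g = a * n := by
  have := coe_mul_of_left_le_normalizer_right H N h
  have h2 : g ∈ ((H ⊔ N : Subgroup G) : Set G) := hg
  rw [this] at h2
  obtain ⟨a, ha, n, hn, rfl⟩ := h2
  exact ⟨a, ha, n, hn, rfl⟩

theorem mem_sup_of_right_Nm {H N : Subgroup G} (h : H ≤ Nm N) {g : G} (hg : g ∈ N ⊔ H) :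
    ∃ n ∈ N, ∃ a ∈ H, g = n * a := by
  have := coe_mul_of_right_le_normalizer_left N H h
  have h2 : g ∈ ((N ⊔ H : Subgroup G) : Set G) := hg
  rw [this] at h2
  obtain ⟨a, ha, n, hn, rfl⟩ := h2
  exact ⟨a, ha, n, hn, rfl⟩

theorem relIndex_sup_of_Nm {H N : Subgroup G} (h : H ≤ Nm N) :
    N.relIndex (H ⊔ N) = N.relIndex H := by
  let _ := Subgroup.normal_subgroupOf_of_le_normalizer h
  let _ := Subgroup.normal_subgroupOf_sup_of_le_normalizer h
  exact (Nat.card_congr (QuotientGroup.quotientInfEquivProdNormalizerQuotient H N h).toEquiv).symm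

theorem card_mul_relIndex (H K : Subgroup G) :
    Nat.card (H ⊓ K : Subgroup G) * H.relIndex K = Nat.card K := by
  rw [← relIndex_bot_left, ← relIndex_bot_left, ← inf_relIndex_right H K]
  exact relIndex_mul_relIndex _ _ _ bot_le inf_le_right

theorem card_sup_mul_card_inf {H N : Subgroup G} (h : H ≤ Nm N) :
    Nat.card (H ⊔ N : Subgroup G) * Nat.card (N ⊓ H : Subgroup G) = Nat.card H * Nat.card N := by
  rw [← card_mul_relIndex N (H ⊔ N), ← card_mul_relIndex N H, relIndex_sup_of_Nm h,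
    inf_of_le_left (le_sup_right : N ≤ H ⊔ N)]
  ring

theorem relIndex_pos [Finite G] (H K : Subgroup G) : 0 < H.relIndex K :=
  Nat.pos_of_ne_zero index_ne_zero_of_finite

/-- If every element of `U` lies in `T C`, then `[U : U ⊓ C] ≤ [T : T ⊓ C]`. -/
theorem relIndex_le_of_cover [Finite G] {C U T : Subgroup G}
    (h : ∀ u ∈ U, ∃ t ∈ T, t⁻¹ * u ∈ C) : C.relIndex U ≤ C.relIndex T := by
  classical
  choose! t ht htc using h
  unfold relIndex index
  let φ : U ⧸ C.subgroupOf U → T ⧸ C.subgroupOf T := fun q =>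
    QuotientGroup.mk ⟨t (q.out : U), ht _ (q.out).2⟩
  refine Nat.card_le_card_of_injective φ ?_
  intro q r hqr
  have h1 := QuotientGroup.eq.1 hqr
  rw [mem_subgroupOf] at h1
  rw [← q.out_eq, ← r.out_eq]
  apply QuotientGroup.eq.2
  rw [mem_subgroupOf]
  have h2 := htc _ (q.out).2
  have h3 := htc _ (r.out).2
  have h4 := C.mul_mem (C.mul_mem (C.inv_mem h2) h1) h3
  simpa [mul_assoc] using h4

/-- Elementary abelian of exponent `p`. -/
def EA (p : ℕ) (A : Subgroup G) : Prop := (∀ a ∈ A, a ^ p = 1) ∧ A ≤ Cn A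

theorem EA.mono {p : ℕ} {A B : Subgroup G} (h : EA p A) (hB : B ≤ A) : EA p B :=
  ⟨fun a ha => h.1 a (hB ha), hB.trans (h.2.trans (Cn_anti hB))⟩

theorem EA.cj {p : ℕ} {A : Subgroup G} (h : EA p A) (g : G) : EA p (cj g A) := by
  refine ⟨?_, by rw [← cj_Cn]; exact cj_mono g h.2⟩
  rintro a ⟨b, hb, rfl⟩
  rw [← map_pow, h.1 b hb, map_one]

theorem EA.isPGroup {p : ℕ} {A : Subgroup G} (h : EA p A) : IsPGroup p A :=
  fun a => ⟨1, Subtype.ext (by simpa using h.1 a a.2)⟩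

theorem EA.sup {p : ℕ} {A B : Subgroup G} (hA : EA p A) (hB : EA p B) (h : A ≤ Cn B) :
    EA p (A ⊔ B) := by
  have h' : B ≤ Cn A := le_Cn_comm.1 h
  refine ⟨fun g hg => ?_, sup_le (fun a ha => mem_Cn_sup (hA.2 ha) (h ha))
    (fun b hb => mem_Cn_sup (h' hb) (hB.2 hb))⟩
  obtain ⟨a, ha, b, hb, rfl⟩ := mem_sup_of_left_Nm (h.trans (Cn_le_Nm B)) hg
  have : Commute a b := (mem_Cn.1 (h' hb) a ha)
  rw [this.mul_pow, hA.1 a ha, hB.1 b hb, one_mul]

theorem isPGroup_cj {p : ℕ} {A : Subgroup G} (h : IsPGroup p A) (g : G) : IsPGroup p (cj g A) :=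
  h.map _

/-- All primes dividing the order satisfy `π`. -/
def IsPi (π : ℕ → Prop) (X : Subgroup G) : Prop := ∀ q : ℕ, q.Prime → q ∣ Nat.card X → π q

theorem IsPi.mono {π : ℕ → Prop} {X Y : Subgroup G} (h : IsPi π Y) (hXY : X ≤ Y) : IsPi π X :=
  fun q hq hd => h q hq (hd.trans (card_dvd_of_le hXY))

theorem IsPi.cj {π : ℕ → Prop} {X : Subgroup G} (h : IsPi π X) (g : G) : IsPi π (cj g X) :=
  fun q hq hd => h q hq (by rwa [card_cj] at hd)

theorem IsPi.sup {π : ℕ → Prop} {X Y : Subgroup G} (hX : IsPi π X) (hY : IsPi π Y)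
    (h : X ≤ Nm Y) : IsPi π (X ⊔ Y) := by
  intro q hq hd
  have := hd.trans (Dvd.intro _ (card_sup_mul_card_inf h))
  rcases (Nat.Prime.dvd_mul hq).1 this with h1 | h1
  · exact hX q hq h1
  · exact hY q hq h1

theorem isPi_bot (π : ℕ → Prop) : IsPi π (⊥ : Subgroup G) := by
  intro q hq hd
  rw [card_bot, Nat.dvd_one] at hd
  exact absurd hd hq.one_lt.ne'

theorem isPi_iff_isPGroup [Finite G] {p : ℕ} [hp : Fact p.Prime] {X : Subgroup G} :
    IsPi (· = p) X ↔ IsPGroup p X := by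
  rw [IsPGroup.iff_card]
  constructor
  · intro h
    exact ⟨_, Nat.eq_prime_pow_of_unique_prime_dvd Nat.card_pos.ne' fun hq hd => h _ hq hd⟩
  · rintro ⟨n, hn⟩ q hq hd
    rw [hn] at hd
    exact (Nat.prime_dvd_prime_iff_eq hq hp.out).1 (hq.dvd_of_dvd_pow hd)

theorem isPi_ne_iff {p : ℕ} [hp : Fact p.Prime] {X : Subgroup G} :
    IsPi (· ≠ p) X ↔ ¬ p ∣ Nat.card X :=
  ⟨fun h hd => h p hp.out hd rfl, fun h _ _ hd he => h (he ▸ hd)⟩

/-- The largest normal `π`-subgroup of `X`. -/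
def core (π : ℕ → Prop) (X : Subgroup G) : Subgroup G :=
  sSup {N | N ≤ X ∧ X ≤ Nm N ∧ IsPi π N}

theorem le_core {π : ℕ → Prop} {X N : Subgroup G} (h1 : N ≤ X) (h2 : X ≤ Nm N) (h3 : IsPi π N) :
    N ≤ core π X := le_sSup ⟨h1, h2, h3⟩

theorem core_le (π : ℕ → Prop) (X : Subgroup G) : core π X ≤ X := sSup_le fun _ h => h.1

theorem cj_core (π : ℕ → Prop) (g : G) (X : Subgroup G) : cj g (core π X) = core π (cj g X) := by
  refine cj_eq_of_le cj cj_inv_cj (core π) ?_ g X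
  intro g X
  rw [core, cj_sSup]
  refine sSup_le ?_
  rintro _ ⟨N, hN, rfl⟩
  exact le_core (cj_mono g hN.1) (by rw [← cj_Nm]; exact cj_mono g hN.2.1) (hN.2.2.cj g)

theorem Nm_core {π : ℕ → Prop} {g : G} {X : Subgroup G} (h : g ∈ Nm X) : g ∈ Nm (core π X) := by
  rw [mem_Nm_iff] at *; rw [cj_core, h]

theorem isPi_core [Finite G] (π : ℕ → Prop) (X : Subgroup G) : IsPi π (core π X) := by
  obtain ⟨M, hM, hmax⟩ := Set.Finite.exists_maximalFor (fun N : Subgroup G => N)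
    {N | N ≤ X ∧ X ≤ Nm N ∧ IsPi π N} (Set.toFinite _)
    ⟨⊥, bot_le, fun g _ => mem_Nm_iff.2 (cj_bot g), isPi_bot π⟩
  refine hM.2.2.mono (sSup_le fun N hN => ?_)
  have : N ⊔ M ≤ M := hmax ⟨sup_le hN.1 hM.1, fun g hg => Nm_sup (hN.2.1 hg) (hM.2.1 hg),
    hN.2.2.sup hM.2.2 (hN.1.trans hM.2.1)⟩ le_sup_right
  exact le_sup_left.trans this

/-- `S` is subnormal in `X`. -/
def SN (S X : Subgroup G) : Prop :=
  Relation.ReflTransGen (fun A B : Subgroup G => A ≤ B ∧ B ≤ Nm A) S X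

theorem SN.refl (X : Subgroup G) : SN X X := Relation.ReflTransGen.refl

theorem SN.single {A B : Subgroup G} (h1 : A ≤ B) (h2 : B ≤ Nm A) : SN A B :=
  Relation.ReflTransGen.single ⟨h1, h2⟩

theorem SN.trans {A B C : Subgroup G} (h1 : SN A B) (h2 : SN B C) : SN A C :=
  Relation.ReflTransGen.trans h1 h2

theorem SN.le {S X : Subgroup G} (h : SN S X) : S ≤ X := by
  induction h with
  | refl => exact le_rfl
  | tail _ h2 ih => exact ih.trans h2.1

theorem SN.inf {S X : Subgroup G} (h : SN S X) (Y : Subgroup G) : SN (S ⊓ Y) (X ⊓ Y) := by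
  induction h with
  | refl => exact SN.refl _
  | tail _ h2 ih =>
    exact ih.trans (SN.single (inf_le_inf_right _ h2.1)
      fun g hg => Nm_inf (h2.2 hg.1) (le_Nm_self Y hg.2))

theorem SN.of_le {S X Y : Subgroup G} (h : SN S X) (h1 : S ≤ Y) (h2 : Y ≤ X) : SN S Y := by
  have := h.inf Y
  rwa [inf_of_le_left h1, inf_of_le_right h2] at this

theorem SN.cj {S X : Subgroup G} (h : SN S X) (g : G) : SN (cj g S) (cj g X) := by
  induction h with
  | refl => exact SN.refl _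
  | tail _ h2 ih =>
    exact ih.trans (SN.single (cj_mono g h2.1) (by rw [← cj_Nm]; exact cj_mono g h2.2))

theorem SN.le_core [Finite G] {π : ℕ → Prop} {S X : Subgroup G} (h : SN S X) (hS : IsPi π S) :
    S ≤ core π X := by
  induction h with
  | refl => exact MP_bf45aa_co.le_core le_rfl (le_Nm_self _) hS
  | tail _ h2 ih =>
    exact ih.trans (MP_bf45aa_co.le_core ((core_le _ _).trans h2.1)
      (fun g hg => Nm_core (h2.2 hg)) (isPi_core _ _))

/-- Wielandt: a perfect simple subnormal subgroup lies in or centralises a normal subgroup. -/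
theorem SN.wielandt {S X : Subgroup G} (h : SN S X) (hperf : ⁅S, S⁆ = S)
    (hsimp : ∀ N ≤ S, S ≤ Nm N → N = ⊥ ∨ N = S) :
    ∀ H ≤ X, X ≤ Nm H → ¬ S ≤ H → S ≤ Cn H := by
  induction h with
  | refl =>
    intro H h1 h2 h3
    rcases hsimp H h1 h2 with h4 | h4
    · rw [h4, Cn_bot]; exact le_top
    · exact absurd h4.ge h3
  | @tail Y Z h1 h2 ih =>
    intro H hH hZ h3
    have hSY : S ≤ Y := SN.le h1
    have h4 : S ≤ Cn (H ⊓ Y) := ih (H ⊓ Y) inf_le_right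
      (fun g hg => Nm_inf (hZ (h2.1 hg)) (le_Nm_self Y hg)) fun h5 => h3 (h5.trans inf_le_left)
    have h5 : ⁅S, H⁆ ≤ H ⊓ Y := le_inf
      (le_normalizer_iff_commutator_le_right.1 (hSY.trans (h2.1.trans hZ)))
      ((commutator_mono hSY le_rfl).trans
        (le_normalizer_iff_commutator_le_left.1 (hH.trans h2.2)))
    have h6 : ⁅⁅S, H⁆, S⁆ = ⊥ :=
      commutator_eq_bot_iff_le_centralizer.2 (h5.trans (le_Cn_comm.1 h4))
    have h7 : ⁅⁅H, S⁆, S⁆ = ⊥ := by rw [commutator_comm H S]; exact h6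
    have h8 := commutator_commutator_eq_bot_of_rotate h6 h7
    rw [hperf] at h8
    exact commutator_eq_bot_iff_le_centralizer.1 h8

end Pool.Agent.Lib.MP_bf45aa_co
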