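import Pool.Agent.Lib.MP_bf45aa_co.RankOne

set_option autoImplicit false
set_option linter.unusedSectionVars false

/-! Coprime action and the Hall-Higman centraliser lemma. -/

namespace Pool.Agent.Lib.MP_bf45aa_co

open Subgroup
open scoped commutatorElement Pointwise

variable {p : ℕ} [hp : Fact p.Prime]

theorem eq_one_of_pow_prime {M : Type*} [Group M] (h : ¬ p ∣ Nat.card M) {x : M}
    (hx : x ^ p = 1) : x = 1 := by
  by_contra h1
  exact h (orderOf_eq_prime hx h1 ▸ orderOf_dvd_natCard x)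

theorem eq_one_of_pow_prime' {G : Type*} [Group G] {F : Subgroup G} (h : ¬ p ∣ Nat.card F) {x : G}
    (hxF : x ∈ F) (hx : x ^ p = 1) : x = 1 :=
  congrArg Subtype.val (eq_one_of_pow_prime h (x := ⟨x, hxF⟩) (Subtype.ext hx))

theorem ab_norm {A M : Type*} [Group A] [CommGroup M] [MulDistribMulAction A M]
    (hA : ∀ a : A, a ^ p = 1) (A₀ : Subgroup A)
    (hf : ∀ a ∉ A₀, ∀ v : M, a • v = v → v = 1) {b c : A} (hbc : Commute c b) (hb : b ∉ A₀)
    (hc : ∀ k : ℕ, c * b ^ k ∉ A₀) (v : M) : v ^ p = 1 := by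
  have hN : ∀ a ∉ A₀, ∀ w : M, ∏ i ∈ Finset.range p, a ^ i • w = 1 := by
    intro a ha w
    refine hf a ha _ ?_
    have h1 := Finset.prod_range_succ (fun i => a ^ i • w) p
    have h2 := Finset.prod_range_succ' (fun i => a ^ i • w) p
    rw [hA a, one_smul, h2, pow_zero, one_smul] at h1
    rw [Finset.smul_prod', ← mul_right_cancel h1]
    exact Finset.prod_congr rfl fun i _ => by rw [← mul_smul, pow_succ']
  have h1 : ∏ k ∈ Finset.range p, ∏ i ∈ Finset.range p, (c * b ^ k) ^ i • v = 1 :=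
    Finset.prod_eq_one fun k _ => hN _ (hc k) v
  rw [Finset.prod_comm, Finset.prod_eq_single 0] at h1
  · simpa using h1
  · intro i hi hi0
    have h2 : b ^ i ∉ A₀ := by
      intro h3
      have h4 : i.Coprime (orderOf b) :=
        Nat.Coprime.coprime_dvd_right (orderOf_dvd_of_pow_eq_one (hA b))
          (Nat.coprime_of_lt_prime hi0 (Finset.mem_range.1 hi) hp.out).symm
      obtain ⟨m, hm⟩ := exists_pow_eq_self_of_coprime h4
      exact hb (hm ▸ pow_mem h3 m)
    have h5 := congrArg (c ^ i • ·) (hN _ h2 v)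
    simp only [Finset.smul_prod', smul_one] at h5
    rw [← h5]
    refine Finset.prod_congr rfl fun k _ => ?_
    rw [← mul_smul, (hbc.pow_right k).mul_pow, ← pow_mul, ← pow_mul, mul_comm k i]
  · intro h; exact absurd (Finset.mem_range.2 hp.out.pos) h

variable {G : Type*} [Group G] [Finite G]

theorem coprime_hyper {A F : Subgroup G} (hA : EA p A) (hF : ¬ p ∣ Nat.card F) (hn : A ≤ Nm F)
    (hc : ¬ A ≤ Cn F) : ∃ x ∈ F, ∃ b ∈ A, b ∉ Cn (zpowers x) ∧
      ∀ c ∈ A, ∃ k : ℕ, c * b ^ k ∈ Cn (zpowers x) := by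
  obtain ⟨F₀, ⟨hle, hn₀, hc₀⟩, hmin'⟩ := Set.Finite.exists_minimalFor (fun N : Subgroup G => N)
    {S | S ≤ F ∧ A ≤ Nm S ∧ ¬ A ≤ Cn S} (Set.toFinite _) ⟨F, le_rfl, hn, hc⟩
  have hmin : ∀ M ≤ F₀, A ≤ Nm M → M ≠ F₀ → A ≤ Cn M := by
    intro M h1 h2 h3
    by_contra h4
    exact h3 (le_antisymm h1 (hmin' ⟨h1.trans hle, h2, h4⟩ h1))
  have hF₀ : ¬ p ∣ Nat.card F₀ := fun h => hF (h.trans (card_dvd_of_le hle))
  let _ : MulDistribMulAction A F₀ := MulDistribMulAction.compHom F₀ (inclusion hn₀)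
  have hsm : ∀ (a : A) (x : F₀), ((a • x : F₀) : G) = a * x * (a : G)⁻¹ := fun _ _ => rfl
  have hnt : commutator F₀ ≠ ⊤ := by
    by_cases hq : ∃ q : ℕ, q.Prime ∧ IsPGroup q F₀
    · obtain ⟨q, hq, hq'⟩ := hq
      have := Fact.mk hq
      have := hq'.isNilpotent
      have : Nontrivial F₀ := (nontrivial_iff_ne_bot F₀).2 fun e => hc₀ (by
        rw [e, Cn_bot]; exact le_top)
      exact (Group.IsSolvable.commutator_lt_top_of_nontrivial F₀).ne
    · exfalso
      apply hc₀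
      rw [le_Cn_comm, ← inf_eq_right (a := Cn A)]
      refine eq_of_le_of_card_ge inf_le_right (Nat.le_of_dvd Nat.card_pos ?_)
      rw [Nat.dvd_iff_prime_pow_dvd_dvd]
      intro q k hq' hd
      have := Fact.mk hq'
      obtain ⟨P, hP⟩ := hA.isPGroup.nonempty_fixed_point_of_prime_not_dvd_card (Sylow q F₀)
        fun h => hF₀ (h.trans ((Sylow.card_dvd_index (default : Sylow q F₀)).trans
          (index_dvd_card _)))
      have h1 : A ≤ Cn ((P : Subgroup F₀).map F₀.subtype) := by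
        refine hmin _ (map_subtype_le _) (le_Nm_of_conj ?_) fun e => hq ⟨q, hq', ?_⟩
        · rintro a ha _ ⟨x, hx, rfl⟩
          have h2 := smul_mem_pointwise_smul x (⟨a, ha⟩ : A) _ hx
          rw [← Sylow.pointwise_smul_def, hP ⟨a, ha⟩] at h2
          exact ⟨_, h2, rfl⟩
        · rw [← e]; exact P.2.map _
      refine (P.pow_dvd_card_of_pow_dvd_card hd).trans ?_
      rw [← card_map_of_injective F₀.subtype_injective]
      exact card_dvd_of_le (le_inf (le_Cn_comm.1 h1) (map_subtype_le _))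
  let _ : MulDistribMulAction A (Abelianization F₀) :=
    { smul := fun a v => Abelianization.map (MulDistribMulAction.toMonoidHom F₀ a) v
      one_smul := fun v => by
        obtain ⟨x, rfl⟩ := QuotientGroup.mk_surjective v
        exact congrArg Abelianization.of (one_smul A x)
      mul_smul := fun a b v => by
        obtain ⟨x, rfl⟩ := QuotientGroup.mk_surjective v
        exact congrArg Abelianization.of (mul_smul a b x)
      smul_one := fun a => map_one _
      smul_mul := fun a => map_mul _ }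
  have hof : ∀ (a : A) (x : F₀), a • Abelianization.of x = Abelianization.of (a • x) :=
    fun _ _ => rfl
  have hAb : ¬ p ∣ Nat.card (Abelianization F₀) := fun h => hF₀ (h.trans (card_quotient_dvd_card _))
  have hAc : ∀ a b : A, Commute a b := fun a b => Subtype.ext (mem_Cn.1 (hA.2 b.2) a a.2)
  have hAp : ∀ a : A, a ^ p = 1 := fun a => Subtype.ext (hA.1 a a.2)
  have hf : ∀ a ∉ (Cn F₀).subgroupOf A, ∀ v : Abelianization F₀, a • v = v → v = 1 := by
    intro a ha v hv
    let ψ : Abelianization F₀ →* Abelianization F₀ := MonoidHom.mk' (fun u => a • u * u⁻¹)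
      fun u w => by rw [smul_mul', mul_inv, mul_mul_mul_comm]
    have hM : (ψ.range.comap Abelianization.of).map F₀.subtype = F₀ := by
      by_contra hne
      have h1 := hmin _ (map_subtype_le _) (le_Nm_of_conj (by
        rintro b hb _ ⟨x, ⟨u, hu⟩, rfl⟩
        refine ⟨(⟨b, hb⟩ : A) • x, ⟨(⟨b, hb⟩ : A) • u, ?_⟩, rfl⟩
        rw [← hof, ← hu]
        show a • (⟨b, hb⟩ : A) • u * _ = (⟨b, hb⟩ : A) • (a • u * u⁻¹)
        rw [smul_mul', smul_inv', ← mul_smul, ← mul_smul, (hAc a ⟨b, hb⟩).eq])) hne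
      apply ha
      rw [mem_subgroupOf, mem_Cn]
      intro x hx
      have h2 : ⁅(a : G), x⁆ ∈ (ψ.range.comap Abelianization.of).map F₀.subtype :=
        ⟨a • (⟨x, hx⟩ : F₀) * (⟨x, hx⟩ : F₀)⁻¹, ⟨Abelianization.of ⟨x, hx⟩, by
          rw [map_mul, map_inv, ← hof]; rfl⟩, rfl⟩
      have h3 := comm_pow_left (mem_Cn.1 (h1 a.2) _ h2).symm p
      rw [hA.1 a a.2, commutatorElement_one_left] at h3
      exact (commutatorElement_eq_one_iff_mul_comm.1
        (eq_one_of_pow_prime' hF₀ (map_subtype_le _ h2) h3.symm)).symm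
    obtain ⟨x, rfl⟩ := QuotientGroup.mk_surjective v
    obtain ⟨y, ⟨u, hu⟩, h1⟩ : (x : G) ∈ (ψ.range.comap Abelianization.of).map F₀.subtype :=
      hM.symm ▸ x.2
    obtain rfl : y = x := Subtype.ext h1
    have h2 : a • u = Abelianization.of y * u := by
      rw [← hu]; exact (inv_mul_cancel_right _ _).symm
    have h3 : ∀ n : ℕ, a ^ n • u = Abelianization.of y ^ n * u := by
      intro n
      induction n with
      | zero => simp
      | succ n ih =>
        have hv' : a • Abelianization.of y = Abelianization.of y := hv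
        rw [pow_succ', mul_smul, ih, smul_mul', smul_pow', hv', h2, ← mul_assoc, pow_succ]
    have h4 := h3 p
    rw [hAp, one_smul, eq_comm, mul_eq_right] at h4
    exact eq_one_of_pow_prime hAb h4
  obtain ⟨b, hb, h1⟩ := SetLike.not_le_iff_exists.1 hc₀
  obtain ⟨x, hx, h2⟩ : ∃ x ∈ F₀, b ∉ Cn (zpowers x) := by
    by_contra h3
    push Not at h3
    exact h1 (mem_Cn.2 fun x hx => mem_Cn.1 (h3 x hx) x (mem_zpowers x))
  refine ⟨x, hle hx, b, hb, h2, fun c hc => ?_⟩
  by_contra h3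
  push Not at h3
  apply hnt
  rw [eq_top_iff]
  intro y _
  rw [← Abelianization.ker_of, MonoidHom.mem_ker]
  exact eq_one_of_pow_prime hAb (ab_norm hAp _ hf (hAc ⟨c, hc⟩ ⟨b, hb⟩) h1
    (fun k hk => h3 k (Cn_anti (zpowers_le.2 hx) hk)) _)

/-- `X / Y` is a `p`-group, a `p'`-group, or abelian. -/
def Step (p : ℕ) (X Y : Subgroup G) : Prop :=
  (∀ g ∈ X, ∃ k : ℕ, g ^ p ^ k ∈ Y) ∨ (∀ g ∈ X, ∃ m : ℕ, m.Coprime p ∧ g ^ m ∈ Y) ∨
    ∀ g ∈ X, ∀ h ∈ X, ⁅g, h⁆ ∈ Y

theorem HH_key {D M : Subgroup G} (hO : core (· = p) D = ⊥) (hM : SN M D)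
    (hc : M ≤ Cn (core (· ≠ p) D)) (hs : Step p M (core (· ≠ p) D)) : M ≤ core (· ≠ p) D := by
  refine hM.le_core (isPi_ne_iff.2 fun hd => ?_)
  have hF : ¬ p ∣ Nat.card (core (· ≠ p) D) := isPi_ne_iff.1 (isPi_core _ _)
  set F := core (· ≠ p) D
  have hk : ∀ S, SN S M → IsPGroup p S → S = ⊥ := fun S h1 h2 =>
    eq_bot_iff.2 (hO ▸ (h1.trans hM).le_core (isPi_iff_isPGroup.2 h2))
  obtain ⟨x, hx⟩ := exists_prime_orderOf_dvd_card' p hd
  have hx' : orderOf (x : G) = p := by rw [orderOf_coe, hx]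
  have hxp : (x : G) ^ p = 1 := by rw [← hx', pow_orderOf_eq_one]
  rcases hs with hs | hs | hs
  · have : (F.subgroupOf M).Normal := normal_subgroupOf_of_le_normalizer (hc.trans (Cn_le_Nm F))
    have hP : IsPGroup p (M ⧸ F.subgroupOf M) := by
      intro q
      obtain ⟨d, rfl⟩ := QuotientGroup.mk'_surjective _ q
      obtain ⟨k, hk⟩ := hs d d.2
      exact ⟨k, by rw [← map_pow]; exact (QuotientGroup.eq_one_iff _).2 hk⟩
    have := hP.isNilpotent
    have : Group.IsNilpotent M :=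
      Subgroup.isNilpotent_of_ker_le_center (QuotientGroup.mk' (F.subgroupOf M)) (by
        rw [QuotientGroup.ker_mk']
        intro z hz
        exact mem_center_iff.2 fun g => Subtype.ext (mem_Cn.1 (hc g.2) z hz).symm)
    let P : Sylow p M := default
    have h1 := hk ((P : Subgroup M).map M.subtype) (SN.single (map_subtype_le _)
      (le_Nm_of_conj (by
        rintro g hg _ ⟨y, hy, rfl⟩
        exact ⟨_, (inferInstance : (P : Subgroup M).Normal).conj_mem y hy ⟨g, hg⟩, rfl⟩)))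
      (P.2.map _)
    exact P.ne_bot_of_dvd_card hd ((map_eq_bot_iff_of_injective _ M.subtype_injective).1 h1)
  · obtain ⟨m, hm, h1⟩ := hs x x.2
    have h2 := eq_one_of_pow_prime' hF h1 (by rw [← pow_mul, mul_comm, pow_mul, hxp, one_pow])
    rw [← orderOf_dvd_iff_pow_eq_one, hx'] at h2
    exact hp.out.one_lt.ne' (Nat.Coprime.eq_one_of_dvd hm.symm h2)
  · have h1 : M ≤ Cn (zpowers (x : G)) := by
      refine le_Cn_comm.1 (zpowers_le.2 (mem_Cn.2 fun g hg => ?_))
      have h2 := hs x x.2 g hg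
      have h3 := comm_pow_left (mem_Cn.1 (hc x.2) _ h2).symm p
      rw [hxp, commutatorElement_one_left] at h3
      exact (commutatorElement_eq_one_iff_mul_comm.1 (eq_one_of_pow_prime' hF h2 h3.symm)).symm
    have h2 := hk _ (SN.single (zpowers_le.2 x.2) (h1.trans (Cn_le_Nm _))) (EA_zpowers hxp).isPGroup
    rw [zpowers_eq_bot, ← orderOf_eq_one_iff, hx'] at h2
    exact hp.out.one_lt.ne' h2

theorem HH {D : Subgroup G} (hO : core (· = p) D = ⊥) (M : ℕ → Subgroup G) (n : ℕ) (h0 : M 0 = D)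
    (hs : ∀ i < n, M (i + 1) ≤ M i ∧ M i ≤ Nm (M (i + 1)) ∧ Step p (M i) (M (i + 1)))
    (hn : M n ≤ Cn (M n)) : Cn (core (· ≠ p) D) ⊓ D ≤ core (· ≠ p) D := by
  set C := Cn (core (· ≠ p) D)
  have h1 : ∀ i ≤ n, SN (M i ⊓ C) D := by
    have h2 : ∀ i ≤ n, SN (M i) D := by
      intro i hi
      induction i with
      | zero => rw [h0]; exact SN.refl _
      | succ i ih => exact (SN.single (hs i hi).1 (hs i hi).2.1).trans (ih (by omega))
    exact fun i hi => ((h2 i hi).inf C).trans (SN.single inf_le_left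
      fun g hg => Nm_inf (le_Nm_self D hg) (Nm_Cn (Nm_core (le_Nm_self D hg))))
  have h2 : ∀ j ≤ n, M (n - j) ⊓ C ≤ core (· ≠ p) D := by
    intro j hj
    induction j with
    | zero =>
      refine HH_key hO (h1 _ (Nat.sub_le _ _)) inf_le_right (Or.inr (Or.inr fun g hg h hh => ?_))
      rw [commutatorElement_eq_one_iff_mul_comm.2 (mem_Cn.1 (hn hh.1) g hg.1)]
      exact one_mem _
    | succ j ih =>
      have h3 := ih (by omega)
      rw [show n - j = n - (j + 1) + 1 by omega] at h3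
      refine HH_key hO (h1 _ (Nat.sub_le _ _)) inf_le_right ?_
      rcases (hs (n - (j + 1)) (by omega)).2.2 with h4 | h4 | h4
      · exact Or.inl fun g hg => let ⟨k, hk⟩ := h4 g hg.1; ⟨k, h3 ⟨hk, pow_mem hg.2 _⟩⟩
      · exact Or.inr (Or.inl fun g hg =>
          let ⟨k, hk, hk'⟩ := h4 g hg.1; ⟨k, hk, h3 ⟨hk', pow_mem hg.2 _⟩⟩)
      · exact Or.inr (Or.inr fun g hg h hh => h3 ⟨h4 g hg.1 h hh.1,
          C.mul_mem (C.mul_mem (C.mul_mem hg.2 hh.2) (inv_mem hg.2)) (inv_mem hh.2)⟩)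
  have h3 := h2 n le_rfl
  rwa [Nat.sub_self, h0, inf_comm] at h3

end Pool.Agent.Lib.MP_bf45aa_co
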