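import Pool.Agent.Lib.MP_bf45aa_co.Basic

set_option autoImplicit false

/-! Arc-transitive locally semiprimitive actions. -/

namespace Pool.Agent.Lib.MP_bf45aa_co

open Subgroup

variable {V : Type*}

/-- Vertex stabiliser. -/
abbrev St (G : Type*) [Group G] [MulAction G V] (v : V) : Subgroup G := MulAction.stabilizer G v

/-- Pointwise stabiliser of the ball of radius `k`. -/
def Kn (G : Type*) [Group G] [MulAction G V] (Γ : SimpleGraph V) : ℕ → V → Subgroup G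
  | 0, x => St G x
  | k + 1, x => Kn G Γ k x ⊓ ⨅ y : Γ.neighborSet x, Kn G Γ k y

/-- Transitivity on the neighbours of `v`. -/
def Tr {G : Type*} [Group G] [MulAction G V] (Γ : SimpleGraph V) (N : Subgroup G) (v : V) : Prop :=
  ∀ x y, Γ.Adj v x → Γ.Adj v y → ∃ n ∈ N, n • x = y

/-- The standing hypotheses. -/
structure Ctx (G : Type*) [Group G] [MulAction G V] (Γ : SimpleGraph V) : Prop where
  adj : ∀ (g : G) {x y : V}, Γ.Adj x y → Γ.Adj (g • x) (g • y)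
  faithful : ∀ g : G, (∀ x : V, g • x = x) → g = 1
  conn : Γ.Preconnected
  arc : ∀ {u v x y : V}, Γ.Adj u v → Γ.Adj x y → ∃ g : G, g • u = x ∧ g • v = y
  sp : ∀ (v : V) (N : Subgroup G), N ≤ St G v → St G v ≤ Nm N →
    Tr Γ N v ∨ ∀ n ∈ N, ∀ x, Γ.Adj v x → n • x = x → ∀ y, Γ.Adj v y → n • y = y

variable {G : Type*} [Group G] [MulAction G V] {Γ : SimpleGraph V}

theorem mem_St {g : G} {v : V} : g ∈ St G v ↔ g • v = v := MulAction.mem_stabilizer_iff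

theorem cj_St (g : G) (v : V) : cj g (St G v) = St G (g • v) := by
  ext a
  rw [mem_cj, mem_St, mem_St, mul_smul, mul_smul, inv_smul_eq_iff]

theorem mem_Kn_succ {g : G} {k : ℕ} {x : V} :
    g ∈ Kn G Γ (k + 1) x ↔ g ∈ Kn G Γ k x ∧ ∀ y, Γ.Adj x y → g ∈ Kn G Γ k y := by
  simp [Kn, mem_iInf]

theorem mem_K1 {g : G} {x : V} :
    g ∈ Kn G Γ 1 x ↔ g • x = x ∧ ∀ y, Γ.Adj x y → g • y = y := by
  rw [mem_Kn_succ]; rfl

theorem Kn_succ_le (k : ℕ) (x : V) : Kn G Γ (k + 1) x ≤ Kn G Γ k x :=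
  fun _ h => (mem_Kn_succ.1 h).1

theorem Kn_succ_le_adj (k : ℕ) {x y : V} (h : Γ.Adj x y) : Kn G Γ (k + 1) x ≤ Kn G Γ k y :=
  fun _ hg => (mem_Kn_succ.1 hg).2 y h

theorem Kn_add_le (k j : ℕ) (x : V) : Kn G Γ (k + j) x ≤ Kn G Γ k x := by
  induction j with
  | zero => exact le_rfl
  | succ j ih => exact (Kn_succ_le _ _).trans ih

theorem Kn_le_St (k : ℕ) (x : V) : Kn G Γ k x ≤ St G x := by
  have := Kn_add_le (G := G) (Γ := Γ) 0 k x
  rwa [zero_add] at this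

theorem Kn_le_St_adj (k : ℕ) {x y : V} (h : Γ.Adj x y) : Kn G Γ (k + 1) x ≤ St G y :=
  (Kn_succ_le_adj k h).trans (Kn_le_St k y)

theorem Ctx.adj_inv (c : Ctx G Γ) {g : G} {x y : V} (h : Γ.Adj (g • x) y) :
    Γ.Adj x (g⁻¹ • y) := by
  simpa using c.adj g⁻¹ h

theorem Ctx.adj_St (c : Ctx G Γ) {g : G} {x y : V} (hg : g • x = x) (h : Γ.Adj x y) :
    Γ.Adj x (g • y) := by
  have := c.adj g h
  rwa [hg] at this

theorem act_inv (g : G) (x : V) : g⁻¹ • g • x = x := inv_smul_smul g x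

theorem Ctx.cj_Kn (c : Ctx G Γ) (k : ℕ) (g : G) (x : V) : cj g (Kn G Γ k x) = Kn G Γ k (g • x) := by
  induction k generalizing g x with
  | zero => exact cj_St g x
  | succ k ih =>
    refine cj_eq_of_le (fun (g : G) (x : V) => g • x) act_inv (Kn G Γ (k + 1)) ?_ g x
    intro g x a ha
    rw [mem_cj, mem_Kn_succ] at ha
    rw [mem_Kn_succ]
    refine ⟨by rw [← ih, mem_cj]; exact ha.1, fun y hy => ?_⟩
    have := ha.2 _ (c.adj_inv hy)
    rwa [← mem_cj, ih, smul_inv_smul] at this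

theorem St_le_Nm_of_equi {X : V → Subgroup G} (h : ∀ (g : G) x, cj g (X x) = X (g • x)) (x : V) :
    St G x ≤ Nm (X x) := fun g hg => by rw [mem_Nm_iff, h, mem_St.1 hg]

theorem Ctx.St_le_Nm_Kn (c : Ctx G Γ) (k : ℕ) (x : V) : St G x ≤ Nm (Kn G Γ k x) :=
  St_le_Nm_of_equi (c.cj_Kn k) x

theorem Tr.mono {N M : Subgroup G} {v : V} (h : Tr Γ N v) (hNM : N ≤ M) : Tr Γ M v :=
  fun x y hx hy => let ⟨n, hn, e⟩ := h x y hx hy; ⟨n, hNM hn, e⟩

theorem Ctx.tr_cj (c : Ctx G Γ) {N : Subgroup G} {v : V} (h : Tr Γ N v) (g : G) :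
    Tr Γ (cj g N) (g • v) := by
  intro x y hx hy
  obtain ⟨n, hn, e⟩ := h _ _ (c.adj_inv hx) (c.adj_inv hy)
  refine ⟨_, conj_mem_cj hn, ?_⟩
  rw [mul_smul, mul_smul, e, smul_inv_smul]

theorem Ctx.tr_St (c : Ctx G Γ) (v : V) : Tr Γ (St G v) v := fun _ _ hx hy =>
  let ⟨g, h1, h2⟩ := c.arc hx hy; ⟨g, h1, h2⟩

theorem Ctx.sp_le (c : Ctx G Γ) {v x : V} {N : Subgroup G} (h1 : N ≤ St G v) (h2 : St G v ≤ Nm N)
    (h3 : ¬ Tr Γ N v) (hx : Γ.Adj v x) : N ⊓ St G x ≤ Kn G Γ 1 v := by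
  intro n hn
  rcases c.sp v N h1 h2 with h | h
  · exact absurd h h3
  · exact mem_K1.2 ⟨h1 hn.1, h n hn.1 x hx hn.2⟩

theorem Ctx.sp_tr (c : Ctx G Γ) {v x : V} {N : Subgroup G} (h1 : N ≤ St G v) (h2 : St G v ≤ Nm N)
    (hx : Γ.Adj v x) {a : G} (ha : a ∈ N) (hax : a • x = x) (haK : a ∉ Kn G Γ 1 v) : Tr Γ N v := by
  by_contra h3
  exact haK (c.sp_le h1 h2 h3 hx ⟨ha, hax⟩)

theorem Ctx.L0 (c : Ctx G Γ) {x y : V} (hxy : Γ.Adj x y) {X : Subgroup G} (hx : X ≤ St G x)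
    (hy : X ≤ St G y) (tx : Tr Γ (Nm X ⊓ St G x) x) (ty : Tr Γ (Nm X ⊓ St G y) y) : X = ⊥ := by
  have key : ∀ v, Γ.Reachable x v → ∃ h ∈ Nm X, v = h • x ∨ v = h • y := by
    intro v hv
    rw [SimpleGraph.reachable_iff_reflTransGen] at hv
    induction hv with
    | refl => exact ⟨1, one_mem _, Or.inl (one_smul _ _).symm⟩
    | tail _ h2 ih =>
      obtain ⟨h, hh, rfl | rfl⟩ := ih
      · obtain ⟨k, hk, e⟩ := tx _ _ hxy (c.adj_inv h2)
        exact ⟨h * k, mul_mem hh hk.1, Or.inr (by rw [mul_smul, e, smul_inv_smul])⟩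
      · obtain ⟨k, hk, e⟩ := ty _ _ hxy.symm (c.adj_inv h2)
        exact ⟨h * k, mul_mem hh hk.1, Or.inl (by rw [mul_smul, e, smul_inv_smul])⟩
  rw [eq_bot_iff]
  intro a ha
  rw [mem_bot]
  refine c.faithful a fun v => ?_
  obtain ⟨h, hh, rfl | rfl⟩ := key v (c.conn x v)
  · have := mem_St.1 (hx (conj_mem_of_Nm' hh ha))
    rwa [mul_smul, mul_smul, inv_smul_eq_iff] at this
  · have := mem_St.1 (hy (conj_mem_of_Nm' hh ha))
    rwa [mul_smul, mul_smul, inv_smul_eq_iff] at this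

/-- Transport of transitivity along an equivariant family. -/
theorem Ctx.tr_all (c : Ctx G Γ) {X : V → Subgroup G} (h : ∀ (g : G) x, cj g (X x) = X (g • x))
    {u u' : V} (hu : Γ.Adj u u') (t : Tr Γ (X u) u) {x y : V} (hxy : Γ.Adj x y) : Tr Γ (X x) x := by
  obtain ⟨g, rfl, -⟩ := c.arc hu hxy
  rw [← h]; exact c.tr_cj t g

theorem Ctx.kill0 (c : Ctx G Γ) {X : V → Subgroup G} (h : ∀ (g : G) x, cj g (X x) = X (g • x))
    {u u' : V} (hu : Γ.Adj u u') (t : Tr Γ (Cn (X u) ⊓ St G u) u)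
    {x y : V} (hxy : Γ.Adj x y) {Z : Subgroup G} (h1 : Z ≤ X x) (h2 : Z ≤ X y)
    (h3 : Z ≤ St G x) (h4 : Z ≤ St G y) : Z = ⊥ := by
  have he : ∀ (g : G) x, cj g (Cn (X x) ⊓ St G x) = Cn (X (g • x)) ⊓ St G (g • x) := by
    intro g x; rw [cj_inf, cj_Cn, h, cj_St]
  refine c.L0 hxy h3 h4 ?_ ?_
  · exact (c.tr_all he hu t hxy).mono
      (inf_le_inf_right _ ((Cn_anti h1).trans (Cn_le_Nm _)))
  · exact (c.tr_all he hu t hxy.symm).mono
      (inf_le_inf_right _ ((Cn_anti h2).trans (Cn_le_Nm _)))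

theorem Ctx.kill (c : Ctx G Γ) {X : V → Subgroup G} (h : ∀ (g : G) x, cj g (X x) = X (g • x))
    {u u' : V} (hu : Γ.Adj u u') {a : G} (ha : a ∈ Cn (X u)) (h1 : a • u = u) (h2 : a • u' = u')
    (h3 : a ∉ Kn G Γ 1 u) {x y : V} (hxy : Γ.Adj x y) {Z : Subgroup G} (k1 : Z ≤ X x)
    (k2 : Z ≤ X y) (k3 : Z ≤ St G x) (k4 : Z ≤ St G y) : Z = ⊥ := by
  refine c.kill0 h hu ?_ hxy k1 k2 k3 k4
  exact c.sp_tr inf_le_right
    (fun g hg => Nm_inf (Nm_Cn (St_le_Nm_of_equi h u hg)) (le_Nm_self _ hg)) hu ⟨ha, h1⟩ h2 h3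

/-- The numerical bound. -/
def cb (d : ℕ) : ℕ → ℕ
  | 0 => 1
  | k + 1 => cb d k * (d * cb d k + 1) ^ d

theorem Ctx.relIndex_St [Finite V] (c : Ctx G Γ) {d : ℕ} (hd : ∀ v, (Γ.neighborSet v).ncard ≤ d)
    {x y : V} (h : Γ.Adj x y) : (St G y).relIndex (St G x) ≤ d := by
  have e : (St G y).subgroupOf (St G x) = MulAction.stabilizer (St G x) y := by
    ext g; rw [mem_subgroupOf, MulAction.mem_stabilizer_iff]; rfl
  rw [relIndex, e, MulAction.index_stabilizer]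
  refine le_trans (Set.ncard_le_ncard ?_ (Set.toFinite _)) (hd x)
  rintro _ ⟨g, rfl⟩
  exact c.adj_St g.2 h

theorem Ctx.relIndex_Kn [Finite G] [Finite V] (c : Ctx G Γ) {d : ℕ}
    (hd : ∀ v, (Γ.neighborSet v).ncard ≤ d) (k : ℕ) (x : V) :
    (Kn G Γ k x).relIndex (St G x) ≤ cb d k := by
  induction k generalizing x with
  | zero => exact (relIndex_self _).le
  | succ k ih =>
    classical
    let _ := Fintype.ofFinite (Γ.neighborSet x)
    rw [Kn, cb]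
    refine relIndex_inf_le.trans (Nat.mul_le_mul (ih x) ((relIndex_iInf_le _).trans ?_))
    have h1 : ∀ y : Γ.neighborSet x, (Kn G Γ k y).relIndex (St G x) ≤ d * cb d k + 1 := by
      intro y
      have h2 := relIndex_inf_mul_relIndex (Kn G Γ k (y : V)) (St G (y : V)) (St G x)
      rw [inf_of_le_left (Kn_le_St k _)] at h2
      rw [← h2, mul_comm]
      refine (Nat.mul_le_mul (c.relIndex_St hd y.2) ?_).trans (Nat.le_succ _)
      exact (relIndex_le_of_le_right inf_le_left (relIndex_pos _ _).ne').trans (ih y)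
    refine (Finset.prod_le_pow_card _ _ _ fun y _ => h1 y).trans ?_
    refine Nat.pow_le_pow_right (Nat.succ_pos _) ?_
    rw [Finset.card_univ, ← Nat.card_eq_fintype_card, Nat.card_coe_set_eq]
    exact hd x

/-- Walks as functions. -/
def Wk (Γ : SimpleGraph V) (f : ℕ → V) (n : ℕ) : Prop := ∀ i < n, Γ.Adj (f i) (f (i + 1))

/-- There is a walk of length `n`. -/
def Rch (Γ : SimpleGraph V) (n : ℕ) (x y : V) : Prop := ∃ f, Wk Γ f n ∧ f 0 = x ∧ f n = y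

theorem Wk.rch {f : ℕ → V} {n : ℕ} (h : Wk Γ f n) {i j : ℕ} (hij : i ≤ j) (hj : j ≤ n) :
    Rch Γ (j - i) (f i) (f j) :=
  ⟨fun k => f (i + k), fun k hk => h (i + k) (by omega), rfl, by
    show f (i + (j - i)) = f j
    rw [Nat.add_sub_cancel' hij]⟩

theorem Rch.symm {n : ℕ} {x y : V} (h : Rch Γ n x y) : Rch Γ n y x := by
  obtain ⟨f, hf, h0, hn⟩ := h
  refine ⟨fun k => f (n - k), fun k hk => ?_, by simpa using hn, by simpa using h0⟩
  have := hf (n - (k + 1)) (by omega)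
  rw [show n - (k + 1) + 1 = n - k by omega] at this
  exact this.symm

theorem rch_of_reachable {x y : V} (h : Γ.Reachable x y) : ∃ n, Rch Γ n x y := by
  obtain ⟨w⟩ := h
  exact ⟨w.length, w.getVert, fun i hi => w.adj_getVert_succ hi, w.getVert_zero, w.getVert_length⟩

theorem Ctx.SN_Kn_self (c : Ctx G Γ) (k j : ℕ) (x : V) : SN (Kn G Γ (k + j) x) (Kn G Γ k x) :=
  SN.single (Kn_add_le k j x) ((Kn_le_St k x).trans (c.St_le_Nm_Kn _ x))

theorem Ctx.SN_Kn_adj (c : Ctx G Γ) (k : ℕ) {x y : V} (h : Γ.Adj x y) :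
    SN (Kn G Γ (k + 2) x) (Kn G Γ (k + 1) y) :=
  SN.single (Kn_succ_le_adj _ h) ((Kn_le_St_adj k h.symm).trans (c.St_le_Nm_Kn _ x))

theorem Ctx.SN_Kn (c : Ctx G Γ) {n : ℕ} {x y : V} (h : Rch Γ n x y) :
    SN (Kn G Γ (n + 1) y) (Kn G Γ 1 x) := by
  obtain ⟨f, hf, rfl, rfl⟩ := h
  have : ∀ i ≤ n, SN (Kn G Γ (i + 1) (f i)) (Kn G Γ 1 (f 0)) := by
    intro i hi
    induction i with
    | zero => exact SN.refl _
    | succ i ih => exact (c.SN_Kn_adj i (hf i hi).symm).trans (ih (by omega))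
  exact this n le_rfl

end Pool.Agent.Lib.MP_bf45aa_co
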