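import Pool.Agent.Lib.MP_bf45aa_co.LAch0

set_option autoImplicit false

/-! Achievable compositions. -/

namespace Pool.Agent.Lib.MP_bf45aa_co

open Polynomial
open scoped MatrixGroups

variable {p : ℕ} [Fact p.Prime]

/-- Induction on the number of non-zero values of `φ` on `T`: normalise the value at `τ₀` to `-1`
by `ach_norm`; if another value is not in `{0, -1}` kill it by `ach_kill`. -/
theorem ach_sep (hp : 5 ≤ p) (T : Finset (AlgebraicClosure (ZMod p)))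
    {τ₀ : AlgebraicClosure (ZMod p)} (h0 : τ₀ ≠ 0) :
    ∃ φ, AchS p φ ∧ aeval τ₀ φ = -1 ∧ ∀ τ ∈ T, aeval τ φ = 0 ∨ aeval τ φ = -1 := by
  classical
  have key : ∀ (n : ℕ) (φ : (ZMod p)[X]), AchS p φ → aeval τ₀ φ ≠ 0 →
      (T.filter fun τ => aeval τ φ ≠ 0).card < n →
      ∃ φ, AchS p φ ∧ aeval τ₀ φ = -1 ∧ ∀ τ ∈ T, aeval τ φ = 0 ∨ aeval τ φ = -1 := by
    intro n
    induction n with
    | zero => exact fun φ _ _ h => absurd h (Nat.not_lt_zero _)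
    | succ n ih =>
      intro φ hφ hne hc
      obtain ⟨ψ, hψ, hv⟩ := ach_norm hp hne
      rw [← aeval_comp] at hv
      by_cases hall : ∀ τ ∈ T, aeval τ (ψ.comp φ) = 0 ∨ aeval τ (ψ.comp φ) = -1
      · exact ⟨_, hφ.step hψ, hv, hall⟩
      push Not at hall
      obtain ⟨τ, hτ, h1, h2⟩ := hall
      obtain ⟨χ, hχ, k1, k2⟩ := ach_kill hp h1 h2
      refine ih (χ.comp (ψ.comp φ)) ((hφ.step hψ).step hχ) (by rwa [aeval_comp, hv]) ?_
      refine lt_of_lt_of_le (Finset.card_lt_card ⟨fun σ hσ => ?_, fun hs => ?_⟩)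
        (Nat.lt_succ_iff.1 hc)
      · rw [Finset.mem_filter] at hσ ⊢
        refine ⟨hσ.1, fun h => hσ.2 ?_⟩
        rw [aeval_comp, aeval_comp, h, ach_zero hψ, ach_zero hχ]
      · have h3 : τ ∈ T.filter fun τ => aeval τ φ ≠ 0 :=
          Finset.mem_filter.2 ⟨hτ, fun h => h1 (by rw [aeval_comp, h, ach_zero hψ])⟩
        exact (Finset.mem_filter.1 (hs h3)).2 (by rw [aeval_comp, k1])
  exact key _ X AchS.base (by rwa [aeval_X]) (Nat.lt_succ_self _)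

/-- The Newton step: `m = (yL X)⁻¹ * (xU 1)⁻¹ * (yL X)⁻¹`. -/
theorem ach_newton : Ach p (-(2 * X + X ^ 2) ^ 2) := by
  have h1 : xU 1 ∈ GG p := Subgroup.subset_closure (by simp)
  have h2 : yL X ∈ GG p := Subgroup.subset_closure (by simp)
  refine ⟨(yL X)⁻¹ * (xU 1)⁻¹ * (yL X)⁻¹,
    mul_mem (mul_mem (inv_mem h2) (inv_mem h1)) (inv_mem h2), ?_⟩
  simp [xU, yL, Matrix.SpecialLinearGroup.coe_inv, Matrix.adjugate_fin_two, Matrix.mul_apply,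
    Fin.sum_univ_two]
  ring

/-- Iterate the Newton step `ψ = -(2 X + X ^ 2) ^ 2`: `ψ (ψ + 1)` is divisible by
`(X (X + 1)) ^ 2` and `ψ + 1` by `X + 1`. -/
theorem achS_newton (n : ℕ) :
    ∃ φ, AchS p φ ∧ (X * (X + 1)) ^ n ∣ φ * (φ + 1) ∧ X + 1 ∣ φ + 1 := by
  have key : ∀ n : ℕ, ∃ φ, AchS p φ ∧ (X * (X + 1)) ^ (n + 1) ∣ φ * (φ + 1) ∧ X + 1 ∣ φ + 1 := by
    intro n
    induction n with
    | zero => exact ⟨X, AchS.base, by simp, dvd_rfl⟩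
    | succ n ih =>
      obtain ⟨φ, hφ, h1, h2⟩ := ih
      have e : (-(2 * X + X ^ 2) ^ 2 : (ZMod p)[X]).comp φ = -(2 * φ + φ ^ 2) ^ 2 := by simp
      refine ⟨_, hφ.step ach_newton, ?_, ?_⟩
      · have e1 : -(2 * φ + φ ^ 2) ^ 2 * (-(2 * φ + φ ^ 2) ^ 2 + 1) =
            (φ * (φ + 1)) ^ 2 * (-(φ + 2) ^ 2 * (1 - 2 * φ - φ ^ 2)) := by ring
        rw [e, e1]
        refine dvd_mul_of_dvd_left (dvd_trans ?_ (pow_dvd_pow_of_dvd h1 2)) _
        rw [← pow_mul]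
        exact pow_dvd_pow _ (by omega)
      · have e1 : -(2 * φ + φ ^ 2) ^ 2 + 1 = (φ + 1) * ((φ + 1) * (1 - 2 * φ - φ ^ 2)) := by ring
        rw [e, e1]
        exact dvd_mul_of_dvd_left h2 _
  obtain ⟨φ, hφ, h1, h2⟩ := key n
  exact ⟨φ, hφ, (pow_dvd_pow _ (Nat.le_succ n)).trans h1, h2⟩

end Pool.Agent.Lib.MP_bf45aa_co
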