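import Pool.Agent.Lib.MP_bf45aa_co.LDick

set_option autoImplicit false

/-! Separating eigenvalues by achievable polynomials. -/

namespace Pool.Agent.Lib.MP_bf45aa_co

open Polynomial
open scoped MatrixGroups

variable {p : ℕ} [Fact p.Prime]

/-- Evaluation of polynomial matrices. -/
noncomputable def evM (τ : AlgebraicClosure (ZMod p)) :
    SL(2, (ZMod p)[X]) →* SL(2, AlgebraicClosure (ZMod p)) :=
  Matrix.SpecialLinearGroup.map (aeval τ : (ZMod p)[X] →ₐ[ZMod p] _).toRingHom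

theorem LAch0_evM_apply (τ : AlgebraicClosure (ZMod p)) (m : SL(2, (ZMod p)[X])) (i j : Fin 2) :
    evM τ m i j = aeval τ (m i j) := rfl

theorem LAch0_evM_xU (τ : AlgebraicClosure (ZMod p)) : evM τ (xU 1) = xU 1 := by
  ext i j
  rw [LAch0_evM_apply]
  fin_cases i <;> fin_cases j <;> simp [xU]

theorem LAch0_evM_yL (τ : AlgebraicClosure (ZMod p)) : evM τ (yL X) = yL τ := by
  ext i j
  rw [LAch0_evM_apply]
  fin_cases i <;> fin_cases j <;> simp [yL]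

theorem LAch0_xU_mem : (xU 1 : SL(2, (ZMod p)[X])) ∈ GG p :=
  Subgroup.subset_closure (by simp)

theorem LAch0_yL_mem : (yL X : SL(2, (ZMod p)[X])) ∈ GG p :=
  Subgroup.subset_closure (by simp)

theorem LAch0_mul {R : Type*} [CommRing R] (g h : SL(2, R)) (i j : Fin 2) :
    (g * h) i j = g i 0 * h 0 j + g i 1 * h 1 j := by
  simp [Matrix.SpecialLinearGroup.coe_mul, Matrix.mul_apply, Fin.sum_univ_two]

theorem LAch0_inv {R : Type*} [CommRing R] (g : SL(2, R)) :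
    g⁻¹ 0 0 = g 1 1 ∧ g⁻¹ 0 1 = -g 0 1 ∧ g⁻¹ 1 0 = -g 1 0 ∧ g⁻¹ 1 1 = g 0 0 := by
  rw [Matrix.SpecialLinearGroup.SL2_inv_expl]
  simp

theorem LAch0_det {R : Type*} [CommRing R] (g : SL(2, R)) :
    g 0 0 * g 1 1 - g 0 1 * g 1 0 = 1 := by
  have := g.det_coe
  rwa [Matrix.det_fin_two] at this

theorem LAch0_conj {R : Type*} [CommRing R] (g : SL(2, R)) (t : R) :
    (g⁻¹ * yL t * g) 1 0 = t * g 0 0 ^ 2 := by
  obtain ⟨-, -, h3, h4⟩ := LAch0_inv g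
  simp only [LAch0_mul, h3, h4]
  simp [yL]
  ring

/-- The entries lie in the finite ring `Algebra.adjoin (ZMod p) {τ}` (`τ` is integral). -/
theorem finite_evM (τ : AlgebraicClosure (ZMod p)) : Finite ((GG p).map (evM τ)) := by
  have hi : IsIntegral (ZMod p) τ := Algebra.IsIntegral.isIntegral τ
  have h1 : Module.Finite (ZMod p) (Algebra.adjoin (ZMod p) {τ}) :=
    Algebra.finite_adjoin_simple_of_isIntegral hi
  have h2 : Finite (Algebra.adjoin (ZMod p) {τ}) := Module.finite_of_finite (ZMod p)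
  have h3 : ∀ g : (GG p).map (evM τ), ∀ i j, g.1 i j ∈ Algebra.adjoin (ZMod p) {τ} := by
    rintro ⟨_, m, -, rfl⟩ i j
    exact Polynomial.aeval_mem_adjoin_singleton _ _
  refine Finite.of_injective
    (fun (g : (GG p).map (evM τ)) (i j : Fin 2) =>
      (⟨g.1 i j, h3 g i j⟩ : Algebra.adjoin (ZMod p) {τ})) fun g g' h => ?_
  ext i j
  exact congrArg Subtype.val (congrFun (congrFun h i) j)

/-- Every lower left entry is divisible by `X` (closure induction: evaluation at `0` maps `GG p`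
into the upper triangular matrices). -/
theorem ach_zero {ψ : (ZMod p)[X]} (h : Ach p ψ) : aeval (0 : AlgebraicClosure (ZMod p)) ψ = 0 := by
  obtain ⟨m, hm, rfl⟩ := h
  have key : evM (0 : AlgebraicClosure (ZMod p)) m 1 0 = 0 := by
    induction hm using Subgroup.closure_induction with
    | mem x hx =>
      rcases hx with rfl | rfl
      · rw [LAch0_evM_xU]; simp [xU]
      · rw [LAch0_evM_yL]; simp [yL]
    | one => simp
    | mul x y _ _ hx hy => rw [map_mul, LAch0_mul, hx, hy]; simp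
    | inv x _ hx => rw [map_inv, (LAch0_inv _).2.2.1, hx, neg_zero]
  rw [LAch0_evM_apply] at key
  rw [map_neg, map_pow, key]
  simp

theorem LAch0_dickson (hp : 5 ≤ p) {τ : AlgebraicClosure (ZMod p)} (hτ : τ ≠ 0) :
    (∀ g ∈ GG p, evM τ g 1 0 ≠ 0 → ∃ m ∈ GG p, evM τ m = xU (evM τ g 0 0 / evM τ g 1 0)) ∧
      ∃ m ∈ GG p, evM τ m = yL 1 := by
  have := finite_evM τ
  obtain ⟨h1, h2⟩ := dickson hp ((GG p).map (evM τ)) ⟨_, LAch0_xU_mem, LAch0_evM_xU τ⟩ hτ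
    ⟨_, LAch0_yL_mem, LAch0_evM_yL τ⟩
  exact ⟨fun g hg h => h1 _ ⟨g, hg, rfl⟩ h, h2⟩

/-- `dickson` gives `m ∈ GG p` with `evM τ m = yL 1`. -/
theorem ach_norm (hp : 5 ≤ p) {τ : AlgebraicClosure (ZMod p)} (hτ : τ ≠ 0) :
    ∃ ψ, Ach p ψ ∧ aeval τ ψ = -1 := by
  obtain ⟨m, hm, e⟩ := (LAch0_dickson hp hτ).2
  refine ⟨_, ⟨m, hm, rfl⟩, ?_⟩
  rw [map_neg, map_pow, ← LAch0_evM_apply, e]
  simp [yL]

/-- Find `m ∈ GG p` with `c = m 1 0`, `c(τ) = 0`, `c(-1) ≠ 0`. If `1 / τ = j ∈ ZMod p`, take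
`m = yL X * xU (-2 j) * yL X` (`xU (-2 j)` is a power of `xU 1`), `c = 2 X - 2 j X ^ 2`.
Otherwise suppose (H): `c(τ) = 0 → c(-1) = 0` for all `m ∈ GG p`. If `evM τ k = 1` then all
conjugates of `k` have `c(-1) = 0`, so (conjugate by `yL X`, `(yL X) ^ 2`) `evM (-1) k = ± 1`.
By `dickson` there is `m₁` with `evM τ m₁ = xU (1 / τ)`; `evM (-1) m₁` is upper triangular with
entries in the prime field and commutes with `xU 1` up to sign, so it is `± xU j`, `j ∈ ℕ`.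
Put `k₁ = m₁ * (xU 1) ^ (-j)`: `evM τ k₁ = xU β`, `β = 1 / τ - j ≠ 0`, `evM (-1) k₁ = ± 1`.
With `g₀ = m₁⁻¹ * yL X` (`evM τ g₀ = !![0, -1/τ; τ, 1]`), `k₂ = g₀ k₁ g₀⁻¹` has
`evM τ k₂ = yL (-β τ ^ 2)`; let `γ₀ = -1 / (β τ ^ 2)`; by `dickson`, `xU γ₀` is a value of `evM τ`,
so `xU (1 / τ - γ₀) = evM τ m₂`, and `k₃ = m₂ k₂ m₂⁻¹` has first column proportional to
`(1 / τ, 1)`. Then `k₃⁻¹ * yL X` has `c(τ) = 0`, but its value at `-1` is `± yL (-1)`. -/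
theorem ach_kill (hp : 5 ≤ p) {τ : AlgebraicClosure (ZMod p)} (h0 : τ ≠ 0) (h1 : τ ≠ -1) :
    ∃ ψ, Ach p ψ ∧ aeval τ ψ = 0 ∧ aeval (-1 : AlgebraicClosure (ZMod p)) ψ ≠ 0 := by
  by_contra hcon
  have H : ∀ m ∈ GG p, evM τ m 1 0 = 0 → evM (-1) m 1 0 = 0 := by
    intro m hm h
    by_contra h'
    refine hcon ⟨_, ⟨m, hm, rfl⟩, ?_, ?_⟩
    · rw [map_neg, map_pow, ← LAch0_evM_apply, h]
      simp
    · rw [map_neg, map_pow, ← LAch0_evM_apply]
      exact neg_ne_zero.2 (pow_ne_zero _ h')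
  have A : ∀ k ∈ GG p, evM τ k 0 0 = 0 → evM (-1) k 0 0 = 0 := by
    intro k hk h
    have h2 := H (k⁻¹ * yL X * k) (mul_mem (mul_mem (inv_mem hk) LAch0_yL_mem) hk) (by
      rw [map_mul, map_mul, map_inv, LAch0_evM_yL, LAch0_conj, h]
      simp)
    rw [map_mul, map_mul, map_inv, LAch0_evM_yL, LAch0_conj] at h2
    simpa using h2
  have B : ∀ g ∈ GG p, evM τ g 1 0 ≠ 0 → ∃ m ∈ GG p, evM τ (m⁻¹ * g) 0 0 = 0 ∧
      evM (-1) m 1 0 = 0 := by
    intro g hg h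
    obtain ⟨m, hm, e⟩ := (LAch0_dickson hp h0).1 g hg h
    refine ⟨m, hm, ?_, H m hm (by rw [e]; simp [xU])⟩
    rw [map_mul, map_inv, LAch0_mul, (LAch0_inv _).1, (LAch0_inv _).2.1, e]
    simp [xU]
    field_simp
    ring
  obtain ⟨m₁, hm₁, e₁, -⟩ := B _ LAch0_yL_mem (by rw [LAch0_evM_yL]; simpa [yL] using h0)
  have hg₀ : m₁⁻¹ * yL X ∈ GG p := mul_mem (inv_mem hm₁) LAch0_yL_mem
  generalize m₁⁻¹ * yL X = g₀ at e₁ hg₀
  have e₂ := A g₀ hg₀ e₁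
  have hc : evM τ g₀ 1 0 ≠ 0 := by
    intro h
    have := LAch0_det (evM τ g₀)
    rw [e₁, h] at this
    simp at this
  have hh : yL X * (xU 1 * g₀) ∈ GG p := mul_mem LAch0_yL_mem (mul_mem LAch0_xU_mem hg₀)
  obtain ⟨m₂, hm₂, e₃, e₄⟩ := B _ hh (by
    rw [map_mul, map_mul, LAch0_evM_yL, LAch0_evM_xU]
    simp only [LAch0_mul, e₁]
    have : τ + 1 ≠ 0 := fun h => h1 (eq_neg_of_add_eq_zero_left h)
    have h5 := mul_ne_zero this hc
    intro h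
    apply h5
    simp [xU, yL] at h
    linear_combination h)
  have e₅ := A _ (mul_mem (inv_mem hm₂) hh) e₃
  have e₆ : evM (-1) (yL X * (xU 1 * g₀)) 1 0 = 0 := by
    rw [map_mul, map_mul, LAch0_evM_yL, LAch0_evM_xU]
    simp only [LAch0_mul, e₂]
    simp [xU, yL]
  have e₇ : evM (-1) (m₂⁻¹ * (yL X * (xU 1 * g₀))) 1 0 = 0 := by
    rw [map_mul, map_inv, LAch0_mul, (LAch0_inv _).2.2.1, e₄, e₆]
    simp
  have := LAch0_det (evM (-1) (m₂⁻¹ * (yL X * (xU 1 * g₀))))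
  rw [e₅, e₇] at this
  simp at this

end Pool.Agent.Lib.MP_bf45aa_co
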