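import Mathlib

set_option autoImplicit false

/-! The Baer-Suzuki theorem. -/

namespace Pool.Agent.Lib.MP_bf45aa_co

open Subgroup Pointwise

lemma LBaer_conj {G : Type*} [Group G] {x y : G} (g : G) :
    IsConj x (g * y * g⁻¹) ↔ IsConj x y :=
  ⟨fun h => h.trans (isConj_iff.2 ⟨g, rfl⟩).symm, fun h => h.trans (isConj_iff.2 ⟨g, rfl⟩)⟩

lemma LBaer_pair {G : Type*} [Group G] {p : ℕ} {x : G}
    (h : ∀ g : G, IsPGroup p (closure {x, g * x * g⁻¹} : Subgroup G)) {s t : G}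
    (hs : IsConj x s) (ht : IsConj x t) : IsPGroup p (closure {s, t} : Subgroup G) := by
  obtain ⟨a, rfl⟩ := isConj_iff.1 hs
  obtain ⟨b, rfl⟩ := isConj_iff.1 ht
  have h1 := (h (a⁻¹ * b)).map (MulAut.conj a).toMonoidHom
  rw [MonoidHom.map_closure, Set.image_pair] at h1
  have e : (MulAut.conj a).toMonoidHom (a⁻¹ * b * x * (a⁻¹ * b)⁻¹) = b * x * b⁻¹ := by
    simp [mul_assoc]
  rw [e] at h1
  exact h1

lemma LBaer_card {G : Type*} [Group G] [Finite G] {p : ℕ} [Fact p.Prime] (x : G)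
    (S T : Sylow p G) : {y | y ∈ S ∧ IsConj x y}.ncard = {y | y ∈ T ∧ IsConj x y}.ncard := by
  obtain ⟨g, rfl⟩ := MulAction.exists_smul_eq G S T
  have : {y | y ∈ g • S ∧ IsConj x y} = MulAut.conj g '' {y | y ∈ S ∧ IsConj x y} := by
    ext y
    have e : y ∈ g • S ↔ y ∈ MulAut.conj g • (S : Set G) := by
      rw [← Sylow.coe_smul]; rfl
    simp only [Set.mem_ofPred_eq, e]
    constructor
    · rintro ⟨⟨z, hz, rfl⟩, h2⟩
      exact ⟨z, ⟨hz, (LBaer_conj g).1 h2⟩, rfl⟩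
    · rintro ⟨z, ⟨hz, h2⟩, rfl⟩
      exact ⟨⟨z, hz, rfl⟩, (LBaer_conj g).2 h2⟩
  rw [this, Set.ncard_image_of_injective _ (MulAut.conj g).injective]

lemma LBaer_norm {G : Type*} [Group G] [Finite G] {p : ℕ} [Fact p.Prime] (x : G)
    {S K : Subgroup G} (hS : IsPGroup p S) (hK : K ≤ S) {z : G} (hz : z ∈ S) (hzx : IsConj x z)
    (hzK : z ∉ K) : ∃ s ∈ S, IsConj x s ∧ s ∉ K ∧
      s ∈ normalizer {y | y ∈ K ∧ IsConj x y} := by
  obtain ⟨J, hJ, hmax⟩ := Set.Finite.exists_maximal (Set.toFinite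
    {J : Subgroup G | J ≤ S ∧ ∀ y, IsConj x y → (y ∈ J ↔ y ∈ K)}) ⟨K, hK, fun _ _ => Iff.rfl⟩
  have hnil := hS.isNilpotent
  have hlt : J.subgroupOf S < ⊤ := by
    rw [lt_top_iff_ne_top, Ne, subgroupOf_eq_top]
    exact fun h => hzK ((hJ.2 z hzx).1 (h hz))
  have h1 := Group.normalizerCondition_of_isNilpotent (G := S) _ hlt
  rw [← subgroupOf_normalizer_eq hJ.1] at h1
  obtain ⟨n, hn1, hn2⟩ := SetLike.exists_of_lt h1
  rw [mem_subgroupOf] at hn1 hn2
  have hJN : J ≤ normalizer (J : Set G) ⊓ S := le_inf le_normalizer hJ.1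
  by_contra hcon
  refine hn2 (hmax (y := normalizer (J : Set G) ⊓ S) ⟨inf_le_right, fun y hy => ?_⟩ hJN ⟨hn1, n.2⟩)
  refine ⟨fun h => ?_, fun h => hJN ((hJ.2 y hy).2 h)⟩
  by_contra hyK
  refine hcon ⟨y, h.2, hy, hyK, mem_set_normalizer_iff.2 fun w => ?_⟩
  have h2 := mem_normalizer_iff.1 h.1 w
  simp only [Set.mem_ofPred_eq, LBaer_conj]
  constructor
  · rintro ⟨h3, h4⟩
    exact ⟨(hJ.2 _ ((LBaer_conj y).2 h4)).1 (h2.1 ((hJ.2 w h4).2 h3)), h4⟩
  · rintro ⟨h3, h4⟩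
    exact ⟨(hJ.2 w h4).1 (h2.2 ((hJ.2 _ ((LBaer_conj y).2 h4)).2 h3)), h4⟩

lemma LBaer_eq {G : Type*} [Group G] [Finite G] {p : ℕ} [Fact p.Prime] {x : G}
    (h : ∀ g : G, IsPGroup p (closure {x, g * x * g⁻¹} : Subgroup G)) (S T : Sylow p G) :
    {y | y ∈ S ∧ IsConj x y} = {y | y ∈ T ∧ IsConj x y} := by
  by_contra hne
  obtain ⟨⟨S, T⟩, hST, hmax⟩ := Set.exists_max_image
    {q : Sylow p G × Sylow p G | {y | y ∈ q.1 ∧ IsConj x y} ≠ {y | y ∈ q.2 ∧ IsConj x y}}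
    (fun q => {y | y ∈ (q.1 : Subgroup G) ⊓ q.2 ∧ IsConj x y}.ncard) (Set.toFinite _)
    ⟨(S, T), hne⟩
  have hex : ∀ A B : Sylow p G, {y | y ∈ A ∧ IsConj x y} ≠ {y | y ∈ B ∧ IsConj x y} →
      ∃ z ∈ A, IsConj x z ∧ z ∉ B := by
    intro A B hAB
    by_contra hcon
    refine hAB (Set.eq_of_subset_of_ncard_le (fun y hy => ⟨?_, hy.2⟩) (LBaer_card x B A).le)
    by_contra hy2
    exact hcon ⟨y, hy.1, hy.2, hy2⟩
  obtain ⟨z, hz, hzx, hzT⟩ := hex S T hST
  obtain ⟨w, hw, hwx, hwS⟩ := hex T S (Ne.symm hST)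
  obtain ⟨s, hs, hsx, hsK, hsn⟩ := LBaer_norm x S.2 (K := (S : Subgroup G) ⊓ T) inf_le_left hz hzx
    fun h => hzT h.2
  obtain ⟨t, ht, htx, htK, htn⟩ := LBaer_norm x T.2 (K := (S : Subgroup G) ⊓ T) inf_le_right hw hwx
    fun h => hwS h.1
  set E : Set G := {y | y ∈ (S : Subgroup G) ⊓ T ∧ IsConj x y} with hE
  have hI : IsPGroup p (closure E) :=
    S.2.to_le ((closure_le _).2 fun y hy => hy.1.1)
  have hn : closure {s, t} ≤ normalizer (closure E : Set G) := by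
    rw [closure_le]
    rintro y (rfl | rfl)
    · exact normalizer_le_normalizer_closure E hsn
    · exact normalizer_le_normalizer_closure E htn
  obtain ⟨R, hR⟩ := ((LBaer_pair h hsx htx).to_sup_of_normal_right' hI hn).exists_le_sylow
  have hsR : s ∈ R := hR (mem_sup_left (subset_closure (by simp)))
  have htR : t ∈ R := hR (mem_sup_left (subset_closure (by simp)))
  have hER : ∀ y ∈ E, y ∈ R := fun y hy => hR (mem_sup_right (subset_closure hy))
  have key : ∀ A : Sylow p G, (∀ y ∈ E, y ∈ A) → ∀ u ∈ A, u ∈ R → IsConj x u →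
      u ∉ (S : Subgroup G) ⊓ T → {y | y ∈ A ∧ IsConj x y} = {y | y ∈ R ∧ IsConj x y} := by
    intro A hA u huA huR hux huK
    by_contra hcon
    have h1 := hmax (A, R) hcon
    refine absurd h1 (not_le.2 (Set.ncard_lt_ncard ⟨fun y hy => ⟨⟨hA y hy, hER y hy⟩, hy.2⟩,
      fun h2 => huK (h2 (show u ∈ {y | y ∈ (A : Subgroup G) ⊓ R ∧ IsConj x y} from
        ⟨⟨huA, huR⟩, hux⟩)).1⟩))
  exact hST ((key S (fun y hy => hy.1.1) s hs hsR hsx hsK).trans
    (key T (fun y hy => hy.1.2) t ht htR htx htK).symm)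

/-- Baer-Suzuki (proof of Alperin and Lyons). Let `D` be the conjugacy class of `x`; any two
elements of `D` generate a `p`-group. If all Sylow `p`-subgroups have the same trace on `D` then
`D` lies in one Sylow subgroup and we are done. Otherwise choose Sylow `S`, `T` with
`S ∩ D ≠ T ∩ D` and `E = S ∩ T ∩ D` of maximal size. As `S`, `T` are conjugate, `S ∩ D` and
`T ∩ D` have the same size, so both properly contain `E`. Claim: some `s ∈ (S ∩ D) \ E`
normalises `I = closure E`: take `J` maximal among the subgroups with `I ≤ J ≤ S` and `J ∩ D = E`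
(`I ≤ S ∩ T` is one); `J ≠ S`, so `J < N_S(J)` (normalizer condition of the nilpotent group `S`),
hence `N_S(J)` contains some `s ∈ D \ E`, and `s` permutes `J ∩ D = E`. The same for `t ∈ T`.
Then `closure {s, t} ⊔ I` is a `p`-group, lies in a Sylow `R`, and maximality gives
`R ∩ D = S ∩ D` and `R ∩ D = T ∩ D`, a contradiction. -/
theorem baer_suzuki {G : Type*} [Group G] [Finite G] {p : ℕ} [Fact p.Prime] {x : G}
    (h : ∀ g : G, IsPGroup p (closure {x, g * x * g⁻¹} : Subgroup G)) :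
    IsPGroup p (normalClosure {x} : Subgroup G) := by
  obtain ⟨S⟩ : Nonempty (Sylow p G) := inferInstance
  refine S.2.to_le ((closure_le _).2 fun y hy0 => ?_)
  obtain ⟨a, ha, hy⟩ := Group.mem_conjugatesOfSet_iff.1 hy0
  rw [Set.mem_singleton_iff] at ha
  subst ha
  obtain ⟨T, hT⟩ := (LBaer_pair h hy hy).exists_le_sylow
  have h1 : y ∈ {y | y ∈ T ∧ IsConj a y} := ⟨hT (subset_closure (by simp)), hy⟩
  rw [LBaer_eq h T S] at h1
  exact h1.1

end Pool.Agent.Lib.MP_bf45aa_co
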