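import Pool.Agent.Lib.MP_bf45aa_co.LChain1

set_option autoImplicit false
set_option linter.unusedSectionVars false

/-! Long chains do not exist. -/

namespace Pool.Agent.Lib.MP_bf45aa_co

open Subgroup Module

theorem LChain_cube {n : ℕ} (hn : 10 ≤ n) : n ^ 3 ≤ 2 ^ n := by
  induction n, hn using Nat.le_induction with
  | base => norm_num
  | succ n hn ih =>
    have h1 : 10 * n ^ 2 ≤ n ^ 3 := by
      rw [pow_succ n 2, mul_comm]
      exact Nat.mul_le_mul_left _ hn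
    have h2 : 10 * n ≤ n ^ 2 := by
      rw [pow_two]
      exact Nat.mul_le_mul_right _ hn
    have h3 : (n + 1) ^ 3 = n ^ 3 + 3 * n ^ 2 + 3 * n + 1 := by ring
    rw [h3, pow_succ 2 n]
    omega

theorem LChain_sq (l : ℕ) : l ^ 2 ≤ 2 * 2 ^ l := by
  induction l with
  | zero => simp
  | succ l ih =>
    have h1 : l < 2 ^ l := Nat.lt_two_pow_self
    have h3 : (l + 1) ^ 2 = l ^ 2 + 2 * l + 1 := by ring
    rw [h3, pow_succ 2 l]
    omega

theorem LChain_rev {I : Finset ℕ} {l : ℕ} (hl : l ≤ I.card) :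
    ∃ g : ℕ → ℕ, (∀ i < l, g i ∈ I) ∧ ∀ i k, i < k → k < l → g k < g i := by
  obtain ⟨J, hJ, hc⟩ := Finset.exists_subset_card_eq hl
  refine ⟨fun i => if h : i < l then J.orderEmbOfFin hc ⟨l - 1 - i, by omega⟩ else 0,
    fun i hi => ?_, fun i k hik hk => ?_⟩
  · simp only [dif_pos hi]
    exact hJ (J.orderEmbOfFin_mem hc _)
  · simp only [dif_pos hk, dif_pos (hik.trans hk)]
    exact (J.orderEmbOfFin hc).strictMono (Fin.mk_lt_mk.2 (by omega))

namespace LD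

variable {p : ℕ} [Fact p.Prime] {H X V : Type} [Group H] [MulAction H X] [AddCommGroup V]
  [Module (ZMod p) V] {D : LD p H X V}

variable {σ R m : ℕ} {y : ℕ → X} {x η : ℕ → End (ZMod p) V}

/-- Few members of a chain are bad. Let `M t = Vb (y t) (r₀ - 2 σ t)`, `E t = rk (x t * η t) (M t)`,
`N t = rk (x t - x t * η t * x t) (M t)`. By `rk_add_rk`, `E t + N t ≤ rk (x t) (M t)`; for
`t + 1 < m`, `M (t + 1) ≤ M t ≤ Vb o R` and `rk_le_rk` gives `rk (x (t + 1)) (M t) ≤ E t`. So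
`∑ t < m, N t ≤ finrank (M 0) ≤ c (r₀ + 1)`. If `N t ≤ ν` then `nil_zero` applies. -/
theorem Chain.good (h : D.Chain σ R m y x η) {ν a r₀ K : ℕ} (ha : 2 * D.β * ν + 2 ≤ a)
    (hr : a + 4 * ν + 4 + 2 * σ * m ≤ r₀) (hR : r₀ + σ ≤ R) (hK : r₀ + 1 ≤ K * (ν + 1)) :
    ∃ I ⊆ Finset.range m, m ≤ I.card + D.c * K ∧
      ∀ t ∈ I, ∀ v ∈ D.Vb (y t) a, x t (η t (x t v)) = x t v := by
  classical
  obtain ⟨ρ, hρ⟩ : ∃ ρ : ℕ → ℕ, ∀ t, ρ t = r₀ - 2 * σ * t := ⟨_, fun _ => rfl⟩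
  have hle : ∀ t ≤ m, 2 * σ * t ≤ 2 * σ * m := fun t ht => Nat.mul_le_mul_left _ ht
  obtain ⟨N, hN⟩ : ∃ N : ℕ → ℕ, ∀ t, N t = rk (x t - x t * η t * x t) (D.Vb (y t) (ρ t)) :=
    ⟨_, fun _ => rfl⟩
  have h1 : ∀ t < m, rk (x t * η t) (D.Vb (y t) (ρ t)) + N t ≤ rk (x t) (D.Vb (y t) (ρ t)) :=
    fun t ht => hN t ▸ (h.par t ht).rk_add_rk (ρ t)
  have h2 : ∀ t, t + 1 < m →
      rk (x (t + 1)) (D.Vb (y (t + 1)) (ρ (t + 1))) ≤ rk (x t * η t) (D.Vb (y t) (ρ t)) := by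
    intro t ht
    have ht' : t < m := by omega
    have e1 : D.Vb (y (t + 1)) (ρ (t + 1)) ≤ D.Vb (y t) (ρ t) := by
      refine D.Vb_near ((h.near _ ht).symm.trans (h.near _ ht')) ?_
      have := hle _ ht.le
      rw [hρ, hρ]
      rw [mul_add, mul_one] at this ⊢
      omega
    have e2 : D.Vb (y t) (ρ t) ≤ D.Vb D.o R := by
      refine D.Vb_near (h.near _ ht').symm ?_
      rw [hρ]
      omega
    exact (rk_mono _ e1).trans ((h.par t ht').rk_le_rk (h.pa t _ (Nat.lt_succ_self t) ht) _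
      (fun v hv => h.p2 t _ (Nat.lt_succ_self t) ht v (e2 hv))
      (fun v hv => h.p0 t _ (Nat.lt_succ_self t) ht v (e2 hv))
      (fun v hv => h.q t ht v (e2 hv)))
  have h3 : ∀ t < m, ∑ s ∈ Finset.range t, N s + rk (x t) (D.Vb (y t) (ρ t)) ≤
      D.c * (r₀ + 1) := by
    intro t
    induction t with
    | zero =>
      intro _
      rw [Finset.sum_range_zero, zero_add, hρ, mul_zero, Nat.sub_zero]
      exact (rk_le _ _).trans (D.rank_le _ _)
    | succ t ih =>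
      intro ht
      have a1 := ih (by omega)
      have a2 := h1 t (by omega)
      have a3 := h2 t ht
      rw [Finset.sum_range_succ]
      omega
  have h4 : ∑ s ∈ Finset.range m, N s ≤ D.c * (r₀ + 1) := by
    rcases m with _ | m
    · simp
    · have a1 := h3 m (Nat.lt_succ_self m)
      have a2 := h1 m (Nat.lt_succ_self m)
      rw [Finset.sum_range_succ]
      omega
  refine ⟨(Finset.range m).filter fun t => N t ≤ ν, Finset.filter_subset _ _, ?_, fun t ht => ?_⟩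
  · have a1 := Finset.card_filter_add_card_filter_not (s := Finset.range m) fun t => N t ≤ ν
    rw [Finset.card_range] at a1
    have a2 : ((Finset.range m).filter fun t => ¬N t ≤ ν).card * (ν + 1) ≤
        ∑ s ∈ (Finset.range m).filter fun t => ¬N t ≤ ν, N s := by
      rw [← smul_eq_mul]
      exact Finset.card_nsmul_le_sum _ _ _ fun s hs => not_le.1 (Finset.mem_filter.1 hs).2
    have a3 := a2.trans ((Finset.sum_le_sum_of_subset (Finset.filter_subset _ _)).trans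
      (h4.trans (Nat.mul_le_mul_left _ hK)))
    rw [← mul_assoc] at a3
    have a4 := Nat.le_of_mul_le_mul_right a3 (Nat.succ_pos ν)
    omega
  · obtain ⟨a1, a2⟩ := Finset.mem_filter.1 ht
    have a3 := Finset.mem_range.1 a1
    rw [hN] at a2
    refine (h.par t a3).nil_zero a2 ha ?_
    have := hle t a3.le
    rw [hρ]
    omega

/-- Apply `entropy` with `Fil k = Vb o (2 j + σ + 2 σ k)`, `r = j`, and the members of `I` in
decreasing order (take a subset with exactly `l` elements and `Finset.orderEmbOfFin`, reversed).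
`hx`, `hy`: `PA_shift`; `rel`: from `p0`, `p2`, for `t < t'`,
`x t' = x t * η t * x t' + x t' * η t * x t` on `Vb o R`; `hr`: `thick0` and `bd`;
`finrank (Fil (2 l ^ 2 + 1)) ≤ c (2 j + σ + 2 σ (2 l ^ 2 + 1) + 1) ≤ 6 c j`. -/
theorem Chain.bound (h : D.Chain σ R m y x η) {I : Finset ℕ} (hI : I ⊆ Finset.range m)
    {l j T a N : ℕ} (hl : l ≤ I.card) (hj : j = (σ + 1) * (l + 1) ^ 2)
    (hT : 2 * l ^ 2 + 2 ^ (l + 1) + 8 ≤ T) (ha : 2 * j + 2 * σ + 2 * σ * T ≤ a) (hR : a ≤ R)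
    (hN : 12 * D.c * j ≤ 2 ^ N)
    (hg : ∀ t ∈ I, ∀ v ∈ D.Vb (y t) a, x t (η t (x t v)) = x t v) : l ≤ 12 * D.c * (N + 2) := by
  obtain ⟨g, hg1, hg2⟩ := LChain_rev hl
  have hgm : ∀ i < l, g i < m := fun i hi => Finset.mem_range.1 (hI (hg1 i hi))
  have hfin : finrank (ZMod p) (D.Vb D.o (2 * j + σ + 2 * σ * (2 * l ^ 2 + 1))) ≤
      6 * D.c * j := by
    refine (D.rank_le _ _).trans ?_
    have a1 : 2 * j + σ + 2 * σ * (2 * l ^ 2 + 1) + 1 ≤ 6 * j := by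
      have a2 : 4 * j = σ + 2 * σ * (2 * l ^ 2 + 1) + 1 +
          (8 * σ * l + σ + 4 * l ^ 2 + 8 * l + 3) := by
        rw [hj]
        ring
      omega
    calc D.c * _ ≤ D.c * (6 * j) := Nat.mul_le_mul_left _ a1
      _ = 6 * D.c * j := by ring
  have hsh : ∀ k, 2 * j + σ + 2 * σ * k + 2 * σ ≤ 2 * j + σ + 2 * σ * (k + 1) := fun k => by
    rw [mul_add, mul_one, add_assoc]
  have key := entropy (fun k => D.Vb D.o (2 * j + σ + 2 * σ * k))
    (fun k k' hk => D.Vb_mono _ (Nat.add_le_add_left (Nat.mul_le_mul_left _ hk) _))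
    (fun k => D.fd _ _) l T N j (fun i => x (g i)) (fun i => η (g i))
    (fun i hi k v hv => D.PA_shift (h.par _ (hgm i hi)).x_PA (h.near _ (hgm i hi)) (hsh k) hv)
    (fun i hi k v hv => D.PA_shift (h.par _ (hgm i hi)).η_PA (h.near _ (hgm i hi)) (hsh k) hv)
    (fun i hi => (h.par _ (hgm i hi)).yxy)
    (fun i k hik hk v hv => by
      have hv' : v ∈ D.Vb D.o R := D.Vb_mono _ (by omega) hv
      have a1 := h.p2 _ _ (hg2 i k hik hk) (hgm i (hik.trans hk)) v hv'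
      have a2 := h.p0 _ _ (hg2 i k hik hk) (hgm i (hik.trans hk)) v hv'
      simp only [End.mul_apply, LinearMap.sub_apply, End.one_apply, map_sub] at a1 a2
      rw [a1, sub_zero, sub_sub, sub_eq_zero] at a2
      exact (add_comm _ _).trans a2.symm)
    (fun i hi v hv => hg _ (hg1 i hi) v (D.Vb_near (h.near _ (hgm i hi)) (by omega) hv))
    hT
    (le_trans (by
      calc 2 * _ ≤ 2 * (6 * D.c * j) := Nat.mul_le_mul_left _ hfin
        _ = 12 * D.c * j := by ring) hN)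
    (fun i hi => by
      obtain ⟨u, y', b1, b2, b3, b4, b5⟩ := h.bd _ (hgm i hi)
      have a1 := D.thick0 b1 b2 b3 b4 j
      rw [b5, add_sub_cancel_left] at a1
      exact a1.trans (rk_mono _ (D.Vb_near (h.near _ (hgm i hi)).symm (by omega))))
  have hj0 : 0 < j := by
    rw [hj]
    positivity
  refine Nat.le_of_mul_le_mul_right (key.trans ?_) hj0
  calc 2 * _ * (N + 2) ≤ 2 * (6 * D.c * j) * (N + 2) :=
        Nat.mul_le_mul_right _ (Nat.mul_le_mul_left _ hfin)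
    _ = 12 * D.c * (N + 2) * j := by ring

/-- Numerics. `C = 48 c + 3`, `l = (48 c + 1) n`, `m = C n = l + 2 n`, `N = 2 n`,
`T = 2 l ^ 2 + 2 ^ (l + 1) + 8`, `ν = 2 j + 2 σ + 2 σ T`, `a = (2 β + 1) ν + 2`,
`r₀ = a + 4 ν + 4 + 2 σ m`, `K = 2 β + 7` (as `m ≤ T`). For large `n`: `c K ≤ n`,
`12 c j ≤ 24 c 2 ^ n (l + 1) ^ 2 ≤ 2 ^ (2 n)`, and `r₀ + σ ≤ (K + 1) (ν + 1) ≤ 2 ^ (l + 2 n)` since
`(l + 1) ^ 2 ≤ T ≤ 2 ^ (l + 4)` and `ν + 1 ≤ 2 ^ (n + l + 8)`. Then `l ≤ 12 c (2 n + 2) ≤ 48 c n`,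
a contradiction. -/
theorem no_chain (D : LD p H X V) : ∃ C n₀ : ℕ, 1 ≤ C ∧ ∀ n, n₀ ≤ n → ∀ σ ≤ 2 ^ n, ∀ R,
    2 ^ (C * n) ≤ R → ∀ y x η, ¬ D.Chain σ R (C * n) y x η := by
  obtain ⟨K, hK⟩ : ∃ K, K = 2 * D.β + 7 := ⟨_, rfl⟩
  refine ⟨48 * D.c + 3, 10 + D.c * K + 24 * D.c * (48 * D.c + 2) ^ 2 + 256 * (K + 1), by omega,
    fun n hn σ hσ R hR y x η h => ?_⟩
  obtain ⟨l, hl⟩ : ∃ l, l = (48 * D.c + 1) * n := ⟨_, rfl⟩
  have hm : (48 * D.c + 3) * n = l + 2 * n := by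
    rw [hl]
    ring
  rw [hm] at h hR
  obtain ⟨s, hs⟩ : ∃ s, s = 2 ^ n := ⟨_, rfl⟩
  obtain ⟨L, hL⟩ : ∃ L, L = 2 ^ l := ⟨_, rfl⟩
  have hR' : L * s * s ≤ R := by
    rw [hL, hs, ← pow_add, ← pow_add, add_assoc, ← two_mul]
    exact hR
  rw [← hs] at hσ
  have hn3 : n ^ 3 ≤ s := hs ▸ LChain_cube (by omega)
  have hn1 : 1 ≤ n := by omega
  have hs1 : 1 ≤ s := hs ▸ Nat.one_le_two_pow
  have hL1 : 1 ≤ L := hL ▸ Nat.one_le_two_pow
  have hl2 : l ^ 2 ≤ 2 * L := hL ▸ LChain_sq l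
  have hnl : n ≤ l := by
    rw [hl]
    exact Nat.le_mul_of_pos_left _ (by omega)
  obtain ⟨j, hj⟩ : ∃ j, j = (σ + 1) * (l + 1) ^ 2 := ⟨_, rfl⟩
  obtain ⟨T, hT⟩ : ∃ T, T = 2 * l ^ 2 + 2 ^ (l + 1) + 8 := ⟨_, rfl⟩
  have hT1 : T ≤ 16 * L := by
    rw [hT, pow_succ 2 l, ← hL]
    omega
  have hll : 2 * l ≤ l ^ 2 + 1 := by nlinarith [sq_nonneg ((l : ℤ) - 1)]
  have hT2 : (l + 1) ^ 2 ≤ T := by
    have : (l + 1) ^ 2 = l ^ 2 + 2 * l + 1 := by ring
    rw [this, hT]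
    omega
  have hT3 : l + 2 * n ≤ T := by
    rw [hT]
    omega
  have hT4 : 1 ≤ T := by omega
  obtain ⟨ν, hν⟩ : ∃ ν, ν = 2 * j + 2 * σ + 2 * σ * T := ⟨_, rfl⟩
  have hσm : 2 * σ * (l + 2 * n) ≤ ν := (Nat.mul_le_mul_left _ hT3).trans (by omega)
  have hν1 : ν + 1 ≤ 256 * (L * s) := by
    have a1 : j ≤ (s + s) * T := hj ▸ Nat.mul_le_mul (by omega) hT2
    have a2 : 2 * σ * T ≤ 2 * s * T := Nat.mul_le_mul_right _ (by omega)
    have a3 : s ≤ s * T := Nat.le_mul_of_pos_right _ hT4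
    have a4 : s * T ≤ s * (16 * L) := Nat.mul_le_mul_left _ hT1
    have a5 : (s + s) * T = 2 * (s * T) := by ring
    have a6 : 2 * s * T = 2 * (s * T) := by ring
    have a7 : s * (16 * L) = 16 * (L * s) := by ring
    omega
  have hKν : K * (ν + 1) = 2 * D.β * ν + 7 * ν + 2 * D.β + 7 := by
    rw [hK]
    ring
  have hns : n ≤ s := (Nat.le_self_pow (by norm_num) n).trans hn3
  have hbig : K * (ν + 1) + (ν + 1) ≤ R := by
    calc K * (ν + 1) + (ν + 1) = (K + 1) * (ν + 1) := by ring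
      _ ≤ (K + 1) * (256 * (L * s)) := Nat.mul_le_mul_left _ hν1
      _ = L * s * (256 * (K + 1)) := by ring
      _ ≤ L * s * s := Nat.mul_le_mul_left _ (le_trans (Nat.le_add_left _ _) (hn.trans hns))
      _ ≤ R := hR'
  obtain ⟨I, hI, hc, hg⟩ := h.good (ν := ν) (a := 2 * D.β * ν + ν + 2)
    (r₀ := 2 * D.β * ν + ν + 2 + 4 * ν + 4 + 2 * σ * (l + 2 * n)) (K := K) (by omega) le_rfl
    (by omega) (by omega)
  have hN : 12 * D.c * j ≤ 2 ^ (2 * n) := by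
    have a1 : l + 1 ≤ (48 * D.c + 2) * n := by
      have : (48 * D.c + 2) * n = (48 * D.c + 1) * n + n := by ring
      omega
    have a2 : j ≤ (s + s) * ((48 * D.c + 2) * n) ^ 2 :=
      hj ▸ Nat.mul_le_mul (by omega) (Nat.pow_le_pow_left a1 2)
    calc 12 * D.c * j ≤ 12 * D.c * ((s + s) * ((48 * D.c + 2) * n) ^ 2) :=
          Nat.mul_le_mul_left _ a2
      _ = s * (n ^ 2 * (24 * D.c * (48 * D.c + 2) ^ 2)) := by ring
      _ ≤ s * (n ^ 2 * n) := Nat.mul_le_mul_left _ (Nat.mul_le_mul_left _ (by omega))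
      _ ≤ s * s := Nat.mul_le_mul_left _ (by rw [← pow_succ]; exact hn3)
      _ = 2 ^ (2 * n) := by rw [hs, ← pow_add, two_mul]
  have key := h.bound hI (l := l) (by omega) hj hT.ge (by omega) (by omega) hN hg
  have a1 : 12 * D.c * (2 * n + 2) ≤ 12 * D.c * (4 * n) := Nat.mul_le_mul_left _ (by omega)
  have a2 : l = 12 * D.c * (4 * n) + n := by
    rw [hl]
    ring
  omega

end LD

end Pool.Agent.Lib.MP_bf45aa_co
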