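import Pool.Agent.Lib.MP_bf45aa_co.LEnt0

set_option autoImplicit false
set_option linter.unusedSectionVars false

/-! The cube inequality. -/

namespace Pool.Agent.Lib.MP_bf45aa_co

open Module

theorem LEnt2_sum {M : Type} [AddCommMonoid M] (n : ℕ) (f : List Bool → M) :
    ∑ l ∈ LL' (n + 1), f l = ∑ l ∈ LL' n, (f (true :: l) + f (false :: l)) := by
  rw [LL', Finset.sum_union, Finset.sum_image, Finset.sum_image, Finset.sum_add_distrib]
  · intro a _ b _ h
    exact List.tail_eq_of_cons_eq h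
  · intro a _ b _ h
    exact List.tail_eq_of_cons_eq h
  · rw [Finset.disjoint_left]
    intro a ha hb
    obtain ⟨x, -, rfl⟩ := Finset.mem_image.mp ha
    obtain ⟨y, -, hy⟩ := Finset.mem_image.mp hb
    exact absurd (List.head_eq_of_cons_eq hy) (by decide)

/-- The entropy function. -/
noncomputable def LEnt2_psi (D n : ℕ) : ℝ := n * (Real.log D + 1 - Real.log n)

theorem LEnt2_log {a b : ℕ} (h : a ≤ b) : Real.log a ≤ Real.log b := by
  rcases Nat.eq_zero_or_pos a with rfl | ha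
  · rw [Nat.cast_zero, Real.log_zero]
    exact Real.log_natCast_nonneg b
  · exact Real.log_le_log (by exact_mod_cast ha) (by exact_mod_cast h)

theorem LEnt2_nonneg {D n : ℕ} (h : n ≤ D) : 0 ≤ LEnt2_psi D n :=
  mul_nonneg (Nat.cast_nonneg n) (by linarith [LEnt2_log h])

theorem LEnt2_mono {D a b : ℕ} (hab : a ≤ b) (hb : b ≤ D) : LEnt2_psi D a ≤ LEnt2_psi D b := by
  rcases Nat.eq_zero_or_pos a with rfl | ha
  · have := LEnt2_nonneg hb
    simpa [LEnt2_psi] using this
  have ha' : (0 : ℝ) < a := by exact_mod_cast ha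
  have hab' : (a : ℝ) ≤ b := by exact_mod_cast hab
  have hb' : (0 : ℝ) < b := by linarith
  have h1 := Real.log_le_sub_one_of_pos (div_pos hb' ha')
  rw [Real.log_div hb'.ne' ha'.ne'] at h1
  have h2 := mul_le_mul_of_nonneg_left h1 ha'.le
  have h3 : (a : ℝ) * (b / a - 1) = b - a := by field_simp
  have h4 := mul_le_mul_of_nonneg_left (LEnt2_log hb) (sub_nonneg.mpr hab')
  unfold LEnt2_psi
  nlinarith

theorem LEnt2_add' (D : ℕ) {a b : ℕ} (hab : a ≤ b) :
    LEnt2_psi D (a + b) + Real.log 2 * a ≤ LEnt2_psi D a + LEnt2_psi D b := by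
  have h1 := mul_le_mul_of_nonneg_left (LEnt2_log (Nat.le_add_left b a)) (Nat.cast_nonneg (α := ℝ) b)
  have h2 : (a : ℝ) * (Real.log 2 + Real.log a) ≤ a * Real.log ((a + b : ℕ) : ℝ) := by
    rcases Nat.eq_zero_or_pos a with rfl | ha
    · simp
    have ha' : (0 : ℝ) < a := by exact_mod_cast ha
    refine mul_le_mul_of_nonneg_left ?_ ha'.le
    rw [← Real.log_mul two_ne_zero ha'.ne']
    refine Real.log_le_log (by positivity) ?_
    have : (a : ℝ) ≤ b := by exact_mod_cast hab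
    push_cast
    linarith
  unfold LEnt2_psi
  generalize Real.log ((a + b : ℕ) : ℝ) = t at *
  push_cast
  nlinarith

theorem LEnt2_add (D a b : ℕ) :
    LEnt2_psi D (a + b) + Real.log 2 * (min a b : ℕ) ≤ LEnt2_psi D a + LEnt2_psi D b := by
  rcases le_total a b with h | h
  · rw [min_eq_left h]
    exact LEnt2_add' D h
  · rw [min_eq_right h, add_comm a b, add_comm (LEnt2_psi D a)]
    exact LEnt2_add' D h

/-- The cube inequality. With `ψ n = n (log D + 1 - log n)`, which is monotone on `[0, D]` and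
satisfies `ψ (A + B) ≤ ψ A + ψ B - log 2 * min A B`, put `H j = ∑ l ∈ LL' (m - j), ψ (ν j l)`.
Then `H (j + 1) ≤ H j - log 2 * r`, `H m ≥ 0`, `H 0 ≤ D (log D + 1) ≤ log 2 * D (N + 2)`. -/
theorem cube_ineq (m D N r : ℕ) (ν : ℕ → List Bool → ℕ) (hD : D ≤ 2 ^ N)
    (h1 : ∀ j ≤ m, ∑ l ∈ LL' (m - j), ν j l ≤ D)
    (h2 : ∀ j < m, ∀ l ∈ LL' (m - (j + 1)), ν (j + 1) l ≤ ν j (true :: l) + ν j (false :: l))
    (h3 : ∀ j < m, r ≤ ∑ l ∈ LL' (m - (j + 1)), min (ν j (true :: l)) (ν j (false :: l))) :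
    m * r ≤ D * (N + 2) := by
  have step : ∀ j < m, ∑ l ∈ LL' (m - (j + 1)), LEnt2_psi D (ν (j + 1) l) + Real.log 2 * r ≤
      ∑ l ∈ LL' (m - j), LEnt2_psi D (ν j l) := by
    intro j hj
    have e : m - j = m - (j + 1) + 1 := by omega
    have a1 := h1 j hj.le
    rw [e, LEnt2_sum] at a1
    have a3 : (r : ℝ) ≤ ∑ l ∈ LL' (m - (j + 1)),
        ((min (ν j (true :: l)) (ν j (false :: l)) : ℕ) : ℝ) := by
      rw [← Nat.cast_sum]
      exact Nat.cast_le.mpr (h3 j hj)
    have a4 := mul_le_mul_of_nonneg_left a3 (Real.log_nonneg one_le_two)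
    rw [e, LEnt2_sum]
    refine (add_le_add le_rfl a4).trans ?_
    rw [Finset.mul_sum, ← Finset.sum_add_distrib]
    refine Finset.sum_le_sum fun l hl => ?_
    have a5 : ν j (true :: l) + ν j (false :: l) ≤ D :=
      (Finset.single_le_sum (f := fun l => ν j (true :: l) + ν j (false :: l))
        (fun _ _ => Nat.zero_le _) hl).trans a1
    exact (add_le_add (LEnt2_mono (h2 j hj l hl) a5) le_rfl).trans (LEnt2_add D _ _)
  have ind : ∀ j ≤ m, ∑ l ∈ LL' (m - j), LEnt2_psi D (ν j l) + Real.log 2 * (j * r) ≤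
      ∑ l ∈ LL' (m - 0), LEnt2_psi D (ν 0 l) := by
    intro j
    induction j with
    | zero => intro _; simp
    | succ j ih =>
      intro hj
      have a1 := ih (by omega)
      have a2 := step j hj
      push_cast
      linarith
  have b1 := ind m le_rfl
  have b2 : 0 ≤ ∑ l ∈ LL' (m - m), LEnt2_psi D (ν m l) := by
    refine Finset.sum_nonneg fun l hl => LEnt2_nonneg ?_
    exact (Finset.single_le_sum (f := fun l => ν m l) (fun _ _ => Nat.zero_le _) hl).trans
      (h1 m le_rfl)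
  have hl0 := Real.log_natCast_nonneg D
  have b3 : ∑ l ∈ LL' (m - 0), LEnt2_psi D (ν 0 l) ≤ D * (Real.log D + 1) := by
    have c1 : ((∑ l ∈ LL' (m - 0), ν 0 l : ℕ) : ℝ) ≤ D := Nat.cast_le.mpr (h1 0 (Nat.zero_le m))
    refine le_trans ?_ (mul_le_mul_of_nonneg_right c1 (by linarith))
    rw [Nat.cast_sum, Finset.sum_mul]
    refine Finset.sum_le_sum fun l _ => mul_le_mul_of_nonneg_left ?_ (Nat.cast_nonneg _)
    linarith [Real.log_natCast_nonneg (ν 0 l)]
  have b4 : Real.log D ≤ N * Real.log 2 := by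
    have := LEnt2_log hD
    rwa [Nat.cast_pow, Real.log_pow, Nat.cast_ofNat] at this
  have b5 := Real.log_two_gt_d9
  have b6 : (D : ℝ) * (Real.log D + 1) ≤ D * ((N + 2) * Real.log 2) :=
    mul_le_mul_of_nonneg_left (by linarith) (Nat.cast_nonneg D)
  have b7 : Real.log 2 * (m * r) ≤ Real.log 2 * (D * (N + 2)) := by linarith
  exact_mod_cast le_of_mul_le_mul_left b7 (by linarith)

end Pool.Agent.Lib.MP_bf45aa_co
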