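import Pool.Agent.Lib.MP_bf45aa_co.LEnt1
import Pool.Agent.Lib.MP_bf45aa_co.LEnt2

set_option autoImplicit false
set_option linter.unusedSectionVars false

/-! The entropy inequality. -/

namespace Pool.Agent.Lib.MP_bf45aa_co

open Module

variable {F V : Type*} [Field F] [AddCommGroup V] [Module F V]

theorem LEnt_length {n : ℕ} {l : List Bool} (h : l ∈ LL' n) : l.length = n := by
  induction n generalizing l with
  | zero => rw [Finset.mem_singleton.1 h]; rfl
  | succ n ih =>
    rcases Finset.mem_union.1 h with h | h <;>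
    · obtain ⟨l', h1, rfl⟩ := Finset.mem_image.1 h
      rw [List.length_cons, ih h1]

theorem LEnt_EP {Fil : ℕ → Submodule F V} (hF : Monotone Fil) {π : ℕ → End F V} {m : ℕ}
    (hπ : ∀ i < m, ∀ k, ∀ v ∈ Fil k, π i v ∈ Fil (k + 2)) (l : List Bool) :
    ∀ j, j + l.length ≤ m → ∀ k, ∀ v ∈ Fil k, EP π j l v ∈ Fil (k + 2 * l.length) := by
  induction l with
  | nil => exact fun j _ k v hv => hv
  | cons b l ih =>
    intro j hj k v hv
    rw [List.length_cons] at hj ⊢
    have h1 := ih (j + 1) (by omega) k v hv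
    cases b
    · exact hF (by omega) h1
    · exact hπ j (by omega) _ _ h1

theorem LEnt_KK (π : ℕ → End F V) (n : ℕ) : ∀ j (T : End F V), KK π j n T ≤ LinearMap.ker T := by
  induction n with
  | zero => exact fun _ _ => le_rfl
  | succ n ih => exact fun j T => inf_le_right.trans (ih (j + 1) T)

theorem LEnt_rk (π : ℕ → End F V) (n j : ℕ) (T : End F V) (M : Submodule F V)
    [Module.Finite F M] : rk T M ≤ ∑ l ∈ LL' n, mu π j l T M := by
  have h1 := sum_mu π n j T M
  have h2 := sum_mu π 0 j T M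
  have h3 : ∑ l ∈ LL' 0, mu π j l T M = rk T M := by
    simp [LL', mu, EP, NN']
  have : Module.Finite F (M ⊓ KK π j 0 T : Submodule F V) :=
    Submodule.finiteDimensional_of_le inf_le_left
  have h4 : finrank F (M ⊓ KK π j n T : Submodule F V) ≤
      finrank F (M ⊓ KK π j 0 T : Submodule F V) :=
    finrank_mono' (inf_le_inf_left _ (LEnt_KK π n j T))
  omega

/-- The entropy inequality. Take `π i = 1 - x i * y i`, `f i = y i * x i`, hulls `E_W`, `E_Z` of
`Fil S`, `S = 2 m ^ 2 + 1`, spaces `W j = Fil (2 m (m - j))`, `Z j = Fil (2 m (m - j) + 1)` and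
`ν j l = mu f j l 1 (W j) + mu π j l 1 (Z j)`. By `mu_match` the minimum in `cube_ineq` is at least
`mu f j (true :: l) 1 (W j) = mu f (j + 1) l (f j) (W j)`, whose sum is
`finrank (W j) - finrank (W j ⊓ KK ..) ≥ rk (f j) (W j) ≥ rk (x j) (Fil 0)`. -/
theorem entropy (Fil : ℕ → Submodule F V) (hF : Monotone Fil) (fd : ∀ k, Module.Finite F (Fil k))
    (m T N r : ℕ) (x y : ℕ → End F V)
    (hx : ∀ i < m, ∀ k, ∀ v ∈ Fil k, x i v ∈ Fil (k + 1))
    (hy : ∀ i < m, ∀ k, ∀ v ∈ Fil k, y i v ∈ Fil (k + 1))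
    (yxy : ∀ i < m, y i * x i * y i = y i)
    (rel : ∀ i k, i < k → k < m → ∀ v ∈ Fil T, x i (y k (x k v)) + x k (y k (x i v)) = x i v)
    (nil : ∀ i < m, ∀ v ∈ Fil T, x i (y i (x i v)) = x i v)
    (hT : 2 * m ^ 2 + 2 ^ (m + 1) + 8 ≤ T)
    (hN : 2 * finrank F (Fil (2 * m ^ 2 + 1)) ≤ 2 ^ N) (hr : ∀ i < m, r ≤ rk (x i) (Fil 0)) :
    m * r ≤ 2 * finrank F (Fil (2 * m ^ 2 + 1)) * (N + 2) := by
  obtain ⟨T', rfl⟩ : ∃ T', T = T' + 3 := ⟨T - 3, by
    generalize 2 ^ (m + 1) = u at hT
    omega⟩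
  let f : ℕ → End F V := fun i => y i * x i
  let π : ℕ → End F V := fun i => 1 - x i * y i
  have hf : ∀ i < m, ∀ k, ∀ v ∈ Fil k, f i v ∈ Fil (k + 2) := fun i hi k v hv =>
    hy i hi _ _ (hx i hi k v hv)
  have hπ : ∀ i < m, ∀ k, ∀ v ∈ Fil k, π i v ∈ Fil (k + 2) := fun i hi k v hv =>
    sub_mem (hF (Nat.le_add_right k 2) hv) (hx i hi _ _ (hy i hi k v hv))
  obtain ⟨EW, w1, w2, tW⟩ := exists_hull Fil hF f m (2 * m ^ 2 + 1) (T' + 3) hf
    (fun i hi => by simp only [f]; rw [← mul_assoc, yxy i hi])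
    (fun i k hik hk v hv h => by
      have h1 := nil i (hik.trans hk) v hv
      have h2 := rel i k hik hk v hv
      change y i (x i v) = 0 at h
      change y i (x i (y k (x k v))) = 0
      rw [h, map_zero] at h1
      rw [← h1, map_zero, map_zero, add_zero] at h2
      rw [h2, map_zero]) (by omega)
  obtain ⟨EZ, z1, -, tZ⟩ := exists_hull Fil hF π m (2 * m ^ 2 + 1) T' hπ
    (fun i hi => by
      simp only [π]
      rw [mul_sub, mul_one, sub_mul, one_mul, mul_assoc, ← mul_assoc (y i), yxy i hi, sub_self,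
        sub_zero])
    (fun i k hik hk v hv h => by
      have h0 : v = x i (y i v) := sub_eq_zero.1 h
      have h1 := hy i (hik.trans hk) _ v hv
      have h2 := rel i k hik hk _ (hF (by omega) h1)
      have h3 := nil i (hik.trans hk) _ (hy k hk _ _ (hx k hk _ _ h1))
      rw [← h0] at h2
      have h4 : π k v = x i (y k (x k (y i v))) := (eq_sub_of_add_eq h2).symm
      rw [h4]
      exact sub_eq_zero.2 h3.symm) (by omega)
  have w3 : EW ≤ Fil (T' + 3) := w2.trans (hF (by omega))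
  have b1 : ∀ j, 2 * m * (m - j) ≤ 2 * m ^ 2 := fun j => by
    rw [sq, ← mul_assoc]
    exact Nat.mul_le_mul_left _ (Nat.sub_le _ _)
  have b2 : ∀ j < m, 2 * m * (m - (j + 1)) + 2 * m = 2 * m * (m - j) := fun j hj => by
    rw [← Nat.mul_succ]
    congr 1
    omega
  refine cube_ineq m _ N r (fun j l => mu f j l 1 (Fil (2 * m * (m - j))) +
    mu π j l 1 (Fil (2 * m * (m - j) + 1))) hN (fun j _ => ?_) (fun j hj l hl => ?_) fun j hj => ?_
  · have h1 := sum_mu f (m - j) j 1 (Fil (2 * m * (m - j)))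
    have h2 := sum_mu π (m - j) j 1 (Fil (2 * m * (m - j) + 1))
    have h3 := finrank_mono' (hF ((b1 j).trans (Nat.le_succ _)))
    have h4 := finrank_mono' (hF (Nat.succ_le_succ (b1 j)))
    rw [Finset.sum_add_distrib]
    simp only [Nat.succ_eq_add_one] at h3 h4
    omega
  · have e := LEnt_length hl
    have e1 := b1 j
    have e2 := b2 j hj
    have h1 := tW.mu_le (j := j) (l := l) (by omega) (M := Fil (2 * m * (m - (j + 1))))
      (M' := Fil (2 * m * (m - j))) (hF (by omega)) ((hF (by omega)).trans w1)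
      fun v hv => hF (by omega) (LEnt_EP hF hf l (j + 1) (by omega) _ v hv)
    have h2 := tZ.mu_le (j := j) (l := l) (by omega) (M := Fil (2 * m * (m - (j + 1)) + 1))
      (M' := Fil (2 * m * (m - j) + 1)) (hF (by omega)) ((hF (by omega)).trans z1)
      fun v hv => hF (by omega) (LEnt_EP hF hπ l (j + 1) (by omega) _ v hv)
    omega
  · have e1 := b1 j
    have hW : Fil (2 * m * (m - j)) ≤ EW := (hF (by omega)).trans w1
    have h1 : r ≤ rk (f j) (Fil (2 * m * (m - j))) := by
      refine (hr j hj).trans ((rk_mono _ (hF (Nat.zero_le (2 * m * (m - j))))).trans ?_)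
      rw [rk_congr (b := x j * f j) fun v hv => (nil j hj v (w3 (hW hv))).symm]
      exact rk_mul_le_right _ _ _
    refine h1.trans ((LEnt_rk f (m - (j + 1)) (j + 1) _ _).trans (Finset.sum_le_sum fun l hl => ?_))
    have e := LEnt_length hl
    have h2 : mu f (j + 1) l (f j) (Fil (2 * m * (m - j))) =
        mu f j (true :: l) 1 (Fil (2 * m * (m - j))) := by
      simp only [mu, EP, NN', one_mul]
    have h3 := mu_match (π := π) tW.inv (j := j) (l := l) (by omega) (x := x j) (y := y j) rfl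
      (fun v hv => nil j hj v (w3 hv)) (fun v hv => sub_eq_zero.2 (nil j hj v (w3 hv)).symm)
      (fun k hjk hk v hv => eq_sub_of_add_eq (rel j k hjk hk v (w3 hv))) hW (hx j hj _)
    omega

end Pool.Agent.Lib.MP_bf45aa_co
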