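import Pool.Agent.Lib.MP_bf45aa_co.LMat

set_option autoImplicit false

/-! A special case of Dickson's theorem. -/

namespace Pool.Agent.Lib.MP_bf45aa_co

open scoped MatrixGroups

theorem LDick_arith {n q β e m : ℕ} (hq : 5 ≤ q) (hn : n = 1 + m * q) (hm : 1 ≤ m)
    (hc : β + q ≤ q * q) (he : 1 ≤ e) (h : n * β = e * (2 + n * (q - 2))) : m = 1 := by
  obtain ⟨k, rfl⟩ : ∃ k, q = k + 2 := ⟨q - 2, by omega⟩
  rw [Nat.add_sub_cancel] at h
  have hk : 3 ≤ k := by omega
  have hd : n ∣ 2 * e := by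
    have h1 : n ∣ e * (2 + n * k) := h ▸ dvd_mul_right _ _
    rw [mul_add, mul_left_comm, mul_comm e 2] at h1
    exact (Nat.dvd_add_left (dvd_mul_right _ _)).1 h1
  by_contra h1
  have n0 : 0 < n := by omega
  by_cases h2 : m = 2
  · have h3 : n ∣ e := by
      refine Nat.Coprime.dvd_of_dvd_mul_left ?_ hd
      rw [Nat.coprime_two_right, hn, h2]
      exact ⟨k + 2, by ring⟩
    have h4 := Nat.le_of_dvd he h3
    have h5 : n * (2 + n * k) ≤ n * β := h ▸ Nat.mul_le_mul_right _ h4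
    have h6 := Nat.le_of_mul_le_mul_left h5 n0
    rw [hn, h2] at h6
    nlinarith
  · have h3 : 3 ≤ m := by omega
    have h4 := Nat.le_of_dvd (by omega) hd
    have h5 : n * (2 + n * k) ≤ n * (2 * β) := by
      rw [mul_left_comm, h, ← mul_assoc]
      exact Nat.mul_le_mul_right _ h4
    have h6 := Nat.le_of_mul_le_mul_left h5 n0
    have h7 : (1 + 3 * (k + 2)) * k ≤ n * k := Nat.mul_le_mul_right _ (by rw [hn]; nlinarith)
    nlinarith

section count

open Finset

variable {G P : Type*} [Group G] [Fintype G] [MulAction G P] [DecidableEq P] [DecidableEq G]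

theorem LDick_conj (T : G → Prop) [DecidablePred T] (hT : ∀ g h, T g → T (h * g * h⁻¹)) (h : G)
    (x : P) : #{g | T g ∧ g • h • x = h • x} = #{g | T g ∧ g • x = x} := by
  symm
  refine card_bij' (fun g _ => h * g * h⁻¹) (fun g _ => h⁻¹ * g * h⁻¹⁻¹) ?_ ?_ ?_ ?_
  · intro g hg
    simp only [mem_filter, mem_univ, true_and] at hg ⊢
    exact ⟨hT _ _ hg.1, by rw [mul_smul, inv_smul_smul, mul_smul, hg.2]⟩
  · intro g hg
    simp only [mem_filter, mem_univ, true_and] at hg ⊢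
    exact ⟨hT _ _ hg.1, by rw [inv_inv, mul_smul, mul_smul, hg.2, inv_smul_smul]⟩
  · intro g _
    group
  · intro g _
    group

theorem LDick_st (h : G) (x : P) : #{g : G | g • h • x = h • x} = #{g : G | g • x = x} := by
  simpa using LDick_conj (fun _ => True) (fun _ _ _ => trivial) h x

theorem LDick_orb (x : P) :
    #(univ.image fun g : G => g • x) * #{g : G | g • x = x} = Fintype.card G := by
  rw [← card_univ, card_eq_sum_card_image (fun g : G => g • x) univ, ← smul_eq_mul, ← sum_const]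
  refine sum_congr rfl fun y hy => ?_
  obtain ⟨h, -, rfl⟩ := mem_image.1 hy
  refine card_bij' (fun g _ => h * g) (fun g _ => h⁻¹ * g) ?_ ?_ ?_ ?_
  · intro g hg
    simp only [mem_filter, mem_univ, true_and] at hg ⊢
    rw [mul_smul, hg]
  · intro g hg
    simp only [mem_filter, mem_univ, true_and] at hg ⊢
    rw [mul_smul, hg, inv_smul_smul]
  · intro g _
    group
  · intro g _
    group

theorem LDick_orb_sum (x : P) :
    ∑ y ∈ univ.image fun g : G => g • x, #{g : G | g • y = y} = Fintype.card G := by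
  rw [← LDick_orb x, ← smul_eq_mul, ← sum_const]
  refine sum_congr rfl fun y hy => ?_
  obtain ⟨h, -, rfl⟩ := mem_image.1 hy
  exact LDick_st h x

theorem LDick_even {m : G} (hm1 : m ≠ 1) (hm2 : m ^ 2 = 1) {x : P} (hm3 : m • x = x) :
    2 ∣ #{g : G | g • x = x} := by
  have h1 : Nat.card (MulAction.stabilizer G x) = #{g : G | g • x = x} :=
    Nat.subtype_card _ fun g => by simp
  rw [← h1, ← orderOf_eq_prime hm2 hm1]
  exact Subgroup.orderOf_dvd_natCard _ hm3

theorem LDick_count (o : P) {m : G} (hm1 : m ≠ 1) (hm2 : m ^ 2 = 1) (hm3 : ∀ x : P, m • x = x)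
    (par : G → Prop) [DecidablePred par] (hp1 : ¬ par 1) (hpm : ¬ par m)
    (hconj : ∀ g h, par g → par (h * g * h⁻¹))
    (hpar : ∀ g, par g → ∃ h : G, ∀ z : P, g • z = z ↔ z = h • o)
    (hss : ∀ g : G, g ≠ 1 → g ≠ m → ¬ par g →
      ∃ x y : P, x ≠ y ∧ ∀ z : P, g • z = z ↔ z = x ∨ z = y)
    {k : ℕ} (hk : #{g | par g ∧ g • o = o} = 2 * (k + 1)) :
    ∃ e, Fintype.card G = 2 * e * (2 + #(univ.image fun g : G => g • o) * k) := by
  have h0 : ∀ g : G, ∃ F : Finset P, g ≠ 1 → g ≠ m →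
      (∀ z, z ∈ F ↔ g • z = z) ∧ #F + (if par g then 1 else 0) = 2 := by
    intro g
    by_cases h1 : g ≠ 1 ∧ g ≠ m
    · by_cases h2 : par g
      · obtain ⟨h, hh⟩ := hpar g h2
        exact ⟨{h • o}, fun _ _ => ⟨fun z => by rw [hh, mem_singleton], by simp [h2]⟩⟩
      · obtain ⟨x, y, hxy, hh⟩ := hss g h1.1 h1.2 h2
        exact ⟨{x, y}, fun _ _ => ⟨fun z => by rw [hh, mem_insert, mem_singleton],
          by simp [h2, card_pair hxy]⟩⟩
    · exact ⟨∅, fun a b => absurd ⟨a, b⟩ h1⟩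
  choose F hF using h0
  obtain ⟨N, hN⟩ : ∃ N : Finset G, N = univ.filter fun g => g ≠ 1 ∧ g ≠ m := ⟨_, rfl⟩
  have mN : ∀ g, g ∈ N ↔ g ≠ 1 ∧ g ≠ m := fun g => by simp [hN]
  obtain ⟨T, hT⟩ : ∃ T : Finset P, T = N.biUnion F := ⟨_, rfl⟩
  have mT : ∀ x, x ∈ T ↔ ∃ g ∈ N, g • x = x := fun x => by
    rw [hT, mem_biUnion]
    exact exists_congr fun g => and_congr_right fun hg =>
      (hF g ((mN g).1 hg).1 ((mN g).1 hg).2).1 x
  obtain ⟨O, hO⟩ : ∃ O : Finset P, O = univ.image fun g : G => g • o := ⟨_, rfl⟩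
  have s1 : ∀ x : P, #{g ∈ N | g • x = x} + 2 = #{g : G | g • x = x} := by
    intro x
    rw [← card_pair hm1.symm, ← card_union_of_disjoint]
    · congr 1
      ext g
      simp only [mem_union, mem_filter, mN, mem_insert, mem_singleton, mem_univ, true_and]
      constructor
      · rintro (h | rfl | rfl)
        · exact h.2
        · exact one_smul _ _
        · exact hm3 x
      · intro h
        by_cases h1 : g = 1 ∨ g = m
        · exact Or.inr h1
        · exact Or.inl ⟨not_or.1 h1, h⟩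
    · rw [disjoint_left]
      intro g hg h
      rw [mem_filter, mN] at hg
      rw [mem_insert, mem_singleton] at h
      exact h.elim hg.1.1 hg.1.2
  have s2 : #N + 2 = Fintype.card G := by
    rw [← card_pair hm1.symm, ← card_univ, ← card_union_of_disjoint]
    · congr 1
      ext g
      simp only [mem_union, mN, mem_insert, mem_singleton, mem_univ, iff_true]
      tauto
    · rw [disjoint_left]
      intro g hg h
      rw [mN] at hg
      rw [mem_insert, mem_singleton] at h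
      exact h.elim hg.1 hg.2
  have s3 : ∀ x : P, x ∈ T ↔ 2 < #{g : G | g • x = x} := fun x => by
    rw [mT, ← s1, lt_add_iff_pos_left, card_pos]
    exact ⟨fun ⟨g, h1, h2⟩ => ⟨g, mem_filter.2 ⟨h1, h2⟩⟩, fun ⟨g, h⟩ => ⟨g, mem_filter.1 h⟩⟩
  have s4 : ∀ (h : G), ∀ x ∈ T, h • x ∈ T := fun h x hx => by rwa [s3, LDick_st, ← s3]
  have pN : ∀ g, par g → g ∈ N := fun g hg =>
    (mN g).2 ⟨fun e => hp1 (e ▸ hg), fun e => hpm (e ▸ hg)⟩
  have s5 : O ⊆ T := by
    intro x hx
    obtain ⟨h, -, rfl⟩ := mem_image.1 (hO ▸ hx)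
    obtain ⟨g, hg⟩ := card_pos.1 (show 0 < #{g | par g ∧ g • o = o} by omega)
    simp only [mem_filter, mem_univ, true_and] at hg
    exact s4 h o ((mT o).2 ⟨g, pN g hg.1, hg.2⟩)
  have s6 : #{g | par g} = #O * (2 * (k + 1)) := by
    have e1 : ∑ x ∈ O, #{g | par g ∧ g • x = x} = #O * (2 * (k + 1)) := by
      rw [← smul_eq_mul, ← sum_const]
      refine sum_congr rfl fun y hy => ?_
      obtain ⟨h, -, rfl⟩ := mem_image.1 (hO ▸ hy)
      rw [LDick_conj par hconj, hk]
    rw [← e1]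
    simp only [card_filter]
    rw [sum_comm]
    refine sum_congr rfl fun g _ => ?_
    by_cases hg : par g
    · obtain ⟨h, hh⟩ := hpar g hg
      have : h • o ∈ O := hO ▸ mem_image_of_mem _ (mem_univ h)
      simp [hg, hh, this]
    · simp [hg]
  have s7 : ∑ x ∈ T, #{g ∈ N | g • x = x} + #{g | par g} = 2 * #N := by
    have e1 : #{g | par g} = ∑ g ∈ N, if par g then 1 else 0 := by
      rw [← card_filter]
      congr 1
      ext g
      simp only [mem_filter, mem_univ, true_and]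
      exact ⟨fun h => ⟨pN g h, h⟩, fun h => h.2⟩
    rw [e1]
    simp only [card_filter]
    rw [sum_comm, ← sum_add_distrib, mul_comm, ← smul_eq_mul, ← sum_const]
    refine sum_congr rfl fun g hg => ?_
    obtain ⟨a1, a2⟩ := hF g ((mN g).1 hg).1 ((mN g).1 hg).2
    rw [← a2, ← card_filter]
    congr 2
    ext z
    rw [mem_filter, a1]
    exact ⟨fun h => h.2, fun h => ⟨(mT z).2 ⟨g, hg, h⟩, h⟩⟩
  have s8 : ∑ x ∈ T, #{g : G | g • x = x} = ∑ x ∈ T, #{g ∈ N | g • x = x} + 2 * #T := by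
    rw [mul_comm, ← smul_eq_mul, ← sum_const, ← sum_add_distrib]
    exact sum_congr rfl fun x _ => (s1 x).symm
  have s9 := sum_sdiff (f := fun x : P => #{g : G | g • x = x}) s5
  have s10 := card_sdiff_add_card_eq_card s5
  have s11 : ∑ x ∈ O, #{g : G | g • x = x} = Fintype.card G := hO ▸ LDick_orb_sum o
  rw [← hO]
  have s12 : ∑ x ∈ T \ O, #{g : G | g • x = x} + 4 + 2 * (#O * k) =
      Fintype.card G + 2 * #(T \ O) := by
    have : #O * (2 * (k + 1)) = 2 * (#O * k) + 2 * #O := by ring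
    omega
  have s13 : ∀ x ∈ T \ O, (univ.image fun g : G => g • x) ⊆ T \ O := by
    intro x hx y hy
    obtain ⟨h, -, rfl⟩ := mem_image.1 hy
    rw [mem_sdiff] at hx ⊢
    refine ⟨s4 h x hx.1, fun h1 => hx.2 ?_⟩
    obtain ⟨h', -, e⟩ := mem_image.1 (hO ▸ h1)
    exact hO ▸ mem_image.2 ⟨h⁻¹ * h', mem_univ _, by rw [mul_smul, e, inv_smul_smul]⟩
  rcases (T \ O).eq_empty_or_nonempty with h | ⟨x, hx⟩
  · rw [h, sum_empty, card_empty] at s12
    exact ⟨1, by omega⟩
  · by_cases h : T \ O ⊆ univ.image fun g : G => g • x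
    · have e1 := Subset.antisymm h (s13 x hx)
      obtain ⟨e, he⟩ := LDick_even hm1 hm2 (hm3 x)
      have e2 := LDick_orb (G := G) x
      rw [e1, LDick_orb_sum] at s12
      refine ⟨e, ?_⟩
      rw [← e2, he, mul_comm]
      congr 1
      omega
    · exfalso
      obtain ⟨y, hy, hyx⟩ := not_subset.1 h
      have e1 : Disjoint (univ.image fun g : G => g • x) (univ.image fun g : G => g • y) := by
        rw [disjoint_left]
        intro z h1 h2
        obtain ⟨a, -, rfl⟩ := mem_image.1 h1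
        obtain ⟨b, -, e⟩ := mem_image.1 h2
        exact hyx (mem_image.2 ⟨b⁻¹ * a, mem_univ _, by rw [mul_smul, ← e, inv_smul_smul]⟩)
      have e2 := sum_le_sum_of_subset (f := fun x : P => #{g : G | g • x = x})
        (union_subset (s13 x hx) (s13 y hy))
      rw [sum_union e1, LDick_orb_sum, LDick_orb_sum] at e2
      have e3 := card_nsmul_le_sum (T \ O) (fun x : P => #{g : G | g • x = x}) 4 fun z hz => by
        have a1 := (s3 z).1 (mem_sdiff.1 hz).1
        obtain ⟨e, he⟩ := LDick_even hm1 hm2 (hm3 z)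
        omega
      rw [smul_eq_mul] at e3
      omega

theorem LDick_fix {p : ℕ} [Fact p.Prime] (o : P) (hp : ¬ p ∣ #(univ.image fun g : G => g • o))
    {u : G} (hu : ∀ x : P, u ^ p • x = x) : ∃ h : G, u • h • o = h • o := by
  let _ : Fintype (MulAction.orbit G o) := (Set.finite_range _).fintype
  have h1 : Fintype.card (MulAction.orbit G o) = #(univ.image fun g : G => g • o) :=
    Fintype.card_of_subtype _ fun x => by simp [MulAction.mem_orbit_iff]
  obtain ⟨⟨_, h, rfl⟩, ha⟩ := Equiv.Perm.exists_fixed_point_of_prime (n := 1) (h1 ▸ hp)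
    (σ := MulAction.toPermHom G (MulAction.orbit G o) u) (by
      rw [pow_one, ← map_pow]
      ext x
      exact hu x)
  exact ⟨h, congrArg Subtype.val ha⟩

end count

theorem LDick_dvd {K : Type*} [AddCommGroup K] (Λ : AddSubgroup K) {A L : Finset K}
    (hL : ∀ b, b ∈ L ↔ b ∈ Λ) (hA : ∀ a ∈ A, ∀ b ∈ Λ, a + b ∈ A) : L.card ∣ A.card := by
  classical
  rw [Finset.card_eq_sum_card_image (fun a : K => (a : K ⧸ Λ)) A]
  refine Finset.dvd_sum fun y hy => dvd_of_eq ?_
  obtain ⟨a, ha, rfl⟩ := Finset.mem_image.1 hy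
  refine Finset.card_bij' (fun b _ => a + b) (fun c _ => c - a) ?_ ?_ ?_ ?_
  · intro b hb
    rw [Finset.mem_filter, eq_comm, QuotientAddGroup.eq, neg_add_cancel_left]
    exact ⟨hA a ha b ((hL b).1 hb), (hL b).1 hb⟩
  · intro c hc
    rw [Finset.mem_filter, eq_comm, QuotientAddGroup.eq, neg_add_eq_sub] at hc
    exact (hL _).2 hc.2
  · intro b _
    simp
  · intro b _
    simp

section mat

open Matrix.SpecialLinearGroup OnePoint

variable {K : Type*} [Field K]

theorem LDick_det (g : SL(2, K)) : g 0 0 * g 1 1 - g 0 1 * g 1 0 = 1 := by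
  rw [← Matrix.det_fin_two, g.det_coe]

theorem LDick_ext {g h : SL(2, K)} (h1 : g 0 0 = h 0 0) (h2 : g 0 1 = h 0 1) (h3 : g 1 0 = h 1 0)
    (h4 : g 1 1 = h 1 1) : g = h := by
  ext i j
  fin_cases i <;> fin_cases j
  exacts [h1, h2, h3, h4]

theorem LDick_mul (g h : SL(2, K)) (i j : Fin 2) :
    (g * h) i j = g i 0 * h 0 j + g i 1 * h 1 j := by
  simp [Matrix.mul_apply, Fin.sum_univ_two]

theorem LDick_inv (g : SL(2, K)) :
    g⁻¹ 0 0 = g 1 1 ∧ g⁻¹ 0 1 = -g 0 1 ∧ g⁻¹ 1 0 = -g 1 0 ∧ g⁻¹ 1 1 = g 0 0 := by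
  simp [Matrix.SpecialLinearGroup.SL2_inv_expl]

theorem LDick_neg (g : SL(2, K)) (i j : Fin 2) : (-g) i j = -g i j := rfl

theorem LDick_one : (1 : SL(2, K)) 0 0 = 1 ∧ (1 : SL(2, K)) 0 1 = 0 ∧ (1 : SL(2, K)) 1 0 = 0 ∧
    (1 : SL(2, K)) 1 1 = 1 := by
  simp

theorem LDick_xU (b : K) : xU b 0 0 = 1 ∧ xU b 0 1 = b ∧ xU b 1 0 = 0 ∧ xU b 1 1 = 1 :=
  ⟨rfl, rfl, rfl, rfl⟩

theorem LDick_yL (b : K) : yL b 0 0 = 1 ∧ yL b 0 1 = 0 ∧ yL b 1 0 = b ∧ yL b 1 1 = 1 :=
  ⟨rfl, rfl, rfl, rfl⟩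

theorem LDick_xU_add (a b : K) : xU (a + b) = xU a * xU b := by
  refine LDick_ext ?_ ?_ ?_ ?_ <;> simp only [LDick_mul, LDick_xU] <;> ring

theorem LDick_xU_neg (a : K) : xU (-a) = (xU a)⁻¹ := by
  refine LDick_ext ?_ ?_ ?_ ?_ <;> simp only [LDick_inv, LDick_xU, neg_zero]

theorem LDick_xU_zero : xU (0 : K) = 1 := by
  refine LDick_ext ?_ ?_ ?_ ?_ <;> simp only [LDick_one, LDick_xU]

theorem LDick_pow {g : SL(2, K)} (h : g 0 0 + g 1 1 = 2) (n : ℕ) :
    (g ^ n) 0 0 = 1 + n * (g 0 0 - 1) ∧ (g ^ n) 0 1 = n * g 0 1 ∧ (g ^ n) 1 0 = n * g 1 0 ∧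
      (g ^ n) 1 1 = 1 + n * (g 1 1 - 1) := by
  have hd := LDick_det g
  induction n with
  | zero => simp
  | succ n ih =>
    obtain ⟨a, b, c, d⟩ := ih
    rw [pow_succ]
    simp only [LDick_mul, a, b, c, d]
    push_cast
    refine ⟨?_, ?_, ?_, ?_⟩
    · linear_combination n * g 0 0 * h - n * hd
    · linear_combination n * g 0 1 * h
    · linear_combination n * g 1 0 * h
    · linear_combination n * g 1 1 * h - n * hd

theorem LDick_pow_p {p : ℕ} [CharP K p] {g : SL(2, K)} (h : g 0 0 + g 1 1 = 2) : g ^ p = 1 := by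
  obtain ⟨a, b, c, d⟩ := LDick_pow h p
  refine LDick_ext ?_ ?_ ?_ ?_ <;> simp [a, b, c, d]

theorem LDick_tr (g h : SL(2, K)) :
    (h * g * h⁻¹) 0 0 + (h * g * h⁻¹) 1 1 = g 0 0 + g 1 1 := by
  simp only [LDick_mul, LDick_inv]
  linear_combination (g 0 0 + g 1 1) * LDick_det h

variable [DecidableEq K]

theorem LDick_inf (g : SL(2, K)) : toGL g • (∞ : OnePoint K) =
    if g 1 0 = 0 then ∞ else ((g 0 0 / g 1 0 : K) : OnePoint K) :=
  OnePoint.smul_infty_eq_ite _

theorem LDick_fix_inf (g : SL(2, K)) : toGL g • (∞ : OnePoint K) = ∞ ↔ g 1 0 = 0 :=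
  OnePoint.smul_infty_eq_self_iff

theorem LDick_fix_some (g : SL(2, K)) (c : K) : toGL g • (c : OnePoint K) = c ↔
    g 1 0 * (c * c) + (g 1 1 - g 0 0) * c + -g 0 1 = 0 := by
  rw [← Matrix.GeneralLinearGroup.fixpointPolynomial_aeval_eq_zero_iff]
  simp [Matrix.GeneralLinearGroup.fixpointPolynomial, sq, sub_eq_add_neg]

theorem LDick_xU_some (b c : K) : toGL (xU b) • (c : OnePoint K) = ((c + b : K) : OnePoint K) := by
  rw [OnePoint.smul_some_eq_ite]
  change (if (0 : K) * c + 1 = 0 then ∞ else (((1 * c + b) / (0 * c + 1) : K) : OnePoint K)) = _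
  simp

theorem LDick_neg_one (x : OnePoint K) : toGL (-1 : SL(2, K)) • x = x := by
  cases x with
  | infty => rw [LDick_fix_inf]; simp [LDick_neg]
  | coe c => rw [LDick_fix_some]; simp [LDick_neg]

theorem LDick_one_fix (h2 : (2 : K) ≠ 0) {g : SL(2, K)} (h1 : g ≠ 1) (hm : g ≠ -1)
    (ht : (g 0 0 + g 1 1) ^ 2 = 4) : ∃ x : OnePoint K, ∀ z, toGL g • z = z ↔ z = x := by
  have hd := LDick_det g
  have : NeZero (2 : K) := ⟨h2⟩
  by_cases hc : g 1 0 = 0
  · have e1 : g 1 1 = g 0 0 := by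
      have : (g 1 1 - g 0 0) ^ 2 = 0 := by linear_combination ht - 4 * hd - 4 * g 0 1 * hc
      exact sub_eq_zero.1 (pow_eq_zero_iff two_ne_zero |>.1 this)
    have e2 : g 0 0 * g 0 0 = 1 := by linear_combination hd + g 0 1 * hc - g 0 0 * e1
    have e3 : g 0 1 ≠ 0 := fun hb => by
      rcases mul_self_eq_one_iff.1 e2 with h | h
      · exact h1 (LDick_ext (by simp [h]) (by simp [hb]) (by simp [hc]) (by simp [e1, h]))
      · exact hm (LDick_ext (by simp [LDick_neg, h]) (by simp [LDick_neg, hb])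
          (by simp [LDick_neg, hc]) (by simp [LDick_neg, e1, h]))
    refine ⟨∞, fun z => ?_⟩
    cases z with
    | infty => simp [LDick_fix_inf, hc]
    | coe c => simp [LDick_fix_some, hc, e1, e3]
  · have e1 : discrim (g 1 0) (g 1 1 - g 0 0) (-g 0 1) = 0 := by
      rw [discrim]
      linear_combination ht - 4 * hd
    refine ⟨((-(g 1 1 - g 0 0) / (2 * g 1 0) : K) : OnePoint K), fun z => ?_⟩
    cases z with
    | infty => simp [LDick_fix_inf, hc]
    | coe c => rw [LDick_fix_some, quadratic_eq_zero_iff_of_discrim_eq_zero hc e1, coe_eq_coe]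

theorem LDick_two_fix [IsAlgClosed K] (h2 : (2 : K) ≠ 0) {g : SL(2, K)}
    (ht : (g 0 0 + g 1 1) ^ 2 ≠ 4) :
    ∃ x y : OnePoint K, x ≠ y ∧ ∀ z, toGL g • z = z ↔ z = x ∨ z = y := by
  have hd := LDick_det g
  have : NeZero (2 : K) := ⟨h2⟩
  by_cases hc : g 1 0 = 0
  · have e1 : g 1 1 - g 0 0 ≠ 0 := fun h =>
      ht (by linear_combination (g 1 1 - g 0 0) * h + 4 * hd + 4 * g 0 1 * hc)
    refine ⟨∞, ((g 0 1 / (g 1 1 - g 0 0) : K) : OnePoint K), infty_ne_coe _, fun z => ?_⟩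
    cases z with
    | infty => simp [LDick_fix_inf, hc]
    | coe c =>
      rw [LDick_fix_some, hc, coe_eq_coe, eq_div_iff e1, zero_mul, zero_add, add_neg_eq_zero,
        mul_comm]
      simp
  · obtain ⟨s, hs⟩ := IsAlgClosed.exists_eq_mul_self ((g 0 0 + g 1 1) ^ 2 - 4)
    have e1 : discrim (g 1 0) (g 1 1 - g 0 0) (-g 0 1) = s * s := by
      rw [discrim]
      linear_combination hs - 4 * hd
    have e2 : s ≠ 0 := fun h => ht (by rw [h] at hs; linear_combination hs)
    refine ⟨(((-(g 1 1 - g 0 0) + s) / (2 * g 1 0) : K) : OnePoint K),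
      (((-(g 1 1 - g 0 0) - s) / (2 * g 1 0) : K) : OnePoint K), fun h => ?_, fun z => ?_⟩
    · rw [coe_eq_coe, div_left_inj' (mul_ne_zero h2 hc)] at h
      exact mul_ne_zero h2 e2 (by linear_combination h)
    · cases z with
      | infty => simp [LDick_fix_inf, hc]
      | coe c => rw [LDick_fix_some, quadratic_eq_zero_iff hc e1, coe_eq_coe, coe_eq_coe]

end mat

section main

open Finset Matrix.SpecialLinearGroup OnePoint

variable {K : Type*} [Field K]

theorem LDick_eq_xU {g : SL(2, K)} (h1 : g 1 0 = 0) (h2 : g 0 0 = 1) : g = xU (g 0 1) :=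
  LDick_ext h2 rfl h1 (by
    change g 1 1 = 1
    linear_combination LDick_det g + g 0 1 * h1 - g 1 1 * h2)

theorem LDick_ne (h2 : (2 : K) ≠ 0) : (-1 : SL(2, K)) ≠ 1 := fun h => h2 (by
  have e : (-1 : SL(2, K)) 0 0 = (1 : SL(2, K)) 0 0 := by rw [h]
  rw [LDick_neg, LDick_one.1] at e
  linear_combination -e)

theorem LDick_main [IsAlgClosed K] {p : ℕ} [Fact p.Prime] [CharP K p]
    (hp : 5 ≤ p) (G : Subgroup SL(2, K)) [Finite G] (hm : -1 ∈ G) (h1 : xU 1 ∈ G) {τ : K}
    (hτ : τ ≠ 0) (h2 : yL τ ∈ G) : ∀ g ∈ G, g 1 0 ≠ 0 → xU (g 0 0 / g 1 0) ∈ G := by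
  classical
  have : Fintype G := Fintype.ofFinite G
  let _ : MulAction G (OnePoint K) := MulAction.compHom _ (toGL.comp G.subtype)
  have hs : ∀ (g : G) (x : OnePoint K), g • x = toGL g.1 • x := fun _ _ => rfl
  have two : (2 : K) ≠ 0 := fun h => by
    have := Nat.le_of_dvd two_pos ((CharP.cast_eq_zero_iff K p 2).1 (by exact_mod_cast h))
    omega
  have odd : Odd p := (Fact.out : p.Prime).odd_of_ne_two (by omega)
  let Λ : AddSubgroup K :=
    { carrier := {b | xU b ∈ G}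
      add_mem' := fun {a b} ha hb => by
        change xU (a + b) ∈ G
        rw [LDick_xU_add]
        exact mul_mem ha hb
      zero_mem' := by
        change xU 0 ∈ G
        rw [LDick_xU_zero]
        exact one_mem _
      neg_mem' := fun {a} ha => by
        change xU (-a) ∈ G
        rw [LDick_xU_neg]
        exact inv_mem ha }
  have mΛ : ∀ b, b ∈ Λ ↔ xU b ∈ G := fun _ => Iff.rfl
  obtain ⟨m, hm'⟩ : ∃ m : G, m = ⟨-1, hm⟩ := ⟨_, rfl⟩
  have m0 : m.1 = -1 := by rw [hm']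
  have m1 : m ≠ 1 := fun h => LDick_ne two (m0 ▸ congrArg Subtype.val h)
  have m2 : m ^ 2 = 1 := Subtype.ext (by simp [m0])
  have m3 : ∀ x : OnePoint K, m • x = x := fun x => by rw [hs, m0, LDick_neg_one]
  have m4 : ∀ g : G, (m * g).1 = -g.1 := fun g => by simp [m0]
  obtain ⟨L, hL⟩ : ∃ L : Finset K,
    L = (univ.filter fun g : G => g.1 1 0 = 0 ∧ g.1 0 0 = 1).image fun g => g.1 0 1 := ⟨_, rfl⟩
  have mL : ∀ b, b ∈ L ↔ b ∈ Λ := fun b => by
    simp only [hL, mem_image, mem_filter, mem_univ, true_and, mΛ]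
    constructor
    · rintro ⟨g, ⟨a1, a2⟩, rfl⟩
      exact LDick_eq_xU a1 a2 ▸ g.2
    · exact fun h => ⟨⟨_, h⟩, ⟨rfl, rfl⟩, rfl⟩
  have cL : #L = #{g : G | g.1 1 0 = 0 ∧ g.1 0 0 = 1} := by
    rw [hL]
    refine card_image_of_injOn fun g hg g' hg' e => Subtype.ext ?_
    simp only [coe_filter, mem_univ, true_and, Set.mem_ofPred_eq] at hg hg' e
    rw [LDick_eq_xU hg.1 hg.2, LDick_eq_xU hg'.1 hg'.2, e]
  have cU : #{g : G | g.1 1 0 = 0 ∧ g.1 0 0 * g.1 0 0 = 1} = 2 * #L := by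
    have e1 : #{g : G | g.1 1 0 = 0 ∧ g.1 0 0 = -1} = #L := by
      rw [cL]
      refine card_bij' (fun g _ => m * g) (fun g _ => m * g) ?_ ?_ ?_ ?_
      · intro g hg
        simp only [mem_filter, mem_univ, true_and, m4, LDick_neg] at hg ⊢
        simp [hg]
      · intro g hg
        simp only [mem_filter, mem_univ, true_and, m4, LDick_neg] at hg ⊢
        simp [hg]
      · intro g _
        rw [← mul_assoc, ← sq, m2, one_mul]
      · intro g _
        rw [← mul_assoc, ← sq, m2, one_mul]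
    rw [two_mul]
    nth_rewrite 1 [cL]
    rw [← e1, ← card_union_of_disjoint]
    · congr 1
      ext g
      simp only [mem_filter, mem_univ, true_and, mem_union, mul_self_eq_one_iff]
      tauto
    · rw [disjoint_left]
      intro g a1 a2
      simp only [mem_filter, mem_univ, true_and] at a1 a2
      exact two (by linear_combination a2.2 - a1.2)
  have pL : p ∣ #L := by
    rw [← Nat.subtype_card L mL, CharP.eq K (‹_› : CharP K p) (CharP.addOrderOf_one K)]
    exact Λ.addOrderOf_dvd_natCard h1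
  have q5 : 5 ≤ #L := hp.trans (Nat.le_of_dvd (card_pos.2 ⟨1, (mL 1).2 h1⟩) pL)
  obtain ⟨A, hA⟩ : ∃ A : Finset K,
    A = (univ.filter fun g : G => g.1 1 0 ≠ 0).image fun g => g.1 0 0 / g.1 1 0 := ⟨_, rfl⟩
  have mA : ∀ a, a ∈ A ↔ ∃ g : G, g.1 1 0 ≠ 0 ∧ g.1 0 0 / g.1 1 0 = a := fun a => by simp [hA]
  have aA : ∀ a ∈ A, ∀ b ∈ Λ, a + b ∈ A := by
    intro a ha b hb
    obtain ⟨g, e1, rfl⟩ := (mA a).1 ha
    refine (mA _).2 ⟨⟨_, hb⟩ * g, ?_, ?_⟩
    · simpa [LDick_mul, LDick_xU] using e1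
    · simp only [Subgroup.coe_mul, LDick_mul, LDick_xU, one_mul, zero_mul, zero_add]
      rw [add_div, mul_div_cancel_right₀ _ e1]
  obtain ⟨r, hr⟩ := LDick_dvd Λ mL aA
  have cO : #(univ.image fun g : G => g • (∞ : OnePoint K)) = 1 + r * #L := by
    rw [mul_comm, ← hr, add_comm, ← card_image_of_injective A (OnePoint.coe_injective (X := K)),
      ← card_insert_of_notMem (a := ∞) (by simp)]
    congr 1
    ext x
    simp only [mem_image, mem_univ, true_and, mem_insert, mA, hs, LDick_inf]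
    constructor
    · rintro ⟨g, rfl⟩
      split_ifs with h
      · exact Or.inl rfl
      · exact Or.inr ⟨_, ⟨g, h, rfl⟩, rfl⟩
    · rintro (rfl | ⟨_, ⟨g, h, rfl⟩, rfl⟩)
      · exact ⟨1, by simp⟩
      · exact ⟨g, if_neg h⟩
  have pO : ¬ p ∣ #(univ.image fun g : G => g • (∞ : OnePoint K)) := fun h => by
    rw [cO] at h
    have := Nat.le_of_dvd one_pos ((Nat.dvd_add_left (pL.mul_left r)).1 h)
    omega
  let par : G → Prop := fun g => g ≠ 1 ∧ g ≠ m ∧ (g.1 0 0 + g.1 1 1) ^ 2 = 4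
  have hpar : ∀ g, par g → ∃ h : G, ∀ z : OnePoint K, g • z = z ↔ z = h • ∞ := by
    intro g ⟨a1, a2, a3⟩
    obtain ⟨x, hx⟩ := LDick_one_fix two (fun e => a1 (Subtype.ext e))
      (fun e => a2 (Subtype.ext (e.trans m0.symm))) a3
    obtain ⟨h, hh⟩ := LDick_fix ∞ pO (u := g) fun x => by
      rcases sq_eq_sq_iff_eq_or_eq_neg.1 (a3.trans (show (4 : K) = 2 ^ 2 by norm_num)) with e | e
      · rw [show g ^ p = 1 from Subtype.ext (LDick_pow_p e), one_smul]
      · have e1 : (-g.1) ^ p = 1 := LDick_pow_p (by rw [LDick_neg, LDick_neg]; linear_combination -e)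
        rw [odd.neg_pow, neg_eq_iff_eq_neg, ← m0] at e1
        rw [show g ^ p = m from Subtype.ext e1, m3]
    exact ⟨h, fun z => by rw [(hx _).1 hh]; exact hx z⟩
  have A0 : (0 : K) ∈ A := by
    obtain ⟨h, hh⟩ := hpar ⟨_, h2⟩ ⟨fun e => hτ (by
      have := congrArg (fun g : G => g.1 1 0) e
      simpa [LDick_yL] using this), fun e => hτ (by
      have := congrArg (fun g : G => g.1 1 0) e
      simpa [LDick_yL, m0, LDick_neg] using this), by
      simp only [LDick_yL]
      norm_num⟩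
    have e := (hh ((0 : K) : OnePoint K)).1 (by rw [hs, LDick_fix_some]; simp [LDick_yL])
    rw [hs, LDick_inf] at e
    split_ifs at e with h3
    · exact absurd e (coe_ne_infty _)
    · exact (mA 0).2 ⟨h, h3, (coe_eq_coe.1 e).symm⟩
  have cP : #{g | par g ∧ g • (∞ : OnePoint K) = ∞} = 2 * (#L - 2 + 1) := by
    have e1 : #{g | par g ∧ g • (∞ : OnePoint K) = ∞} + 2 = 2 * #L := by
      refine (congrArg _ (card_pair m1.symm).symm).trans ?_
      rw [← cU, ← card_union_of_disjoint]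
      · congr 1
        ext g
        simp only [mem_union, mem_filter, mem_univ, true_and, mem_insert, mem_singleton, hs,
          LDick_fix_inf]
        have hd := LDick_det g.1
        constructor
        · rintro (⟨⟨-, -, a3⟩, a4⟩ | rfl | rfl)
          · refine ⟨a4, ?_⟩
            have : (g.1 1 1 - g.1 0 0) ^ 2 = 0 := by
              linear_combination a3 - 4 * hd - 4 * g.1 0 1 * a4
            linear_combination hd + g.1 0 1 * a4 -
              g.1 0 0 * (pow_eq_zero_iff two_ne_zero |>.1 this)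
          · simp
          · simp [m0, LDick_neg]
        · rintro ⟨a1, a2⟩
          by_cases h : g = 1 ∨ g = m
          · exact Or.inr h
          · refine Or.inl ⟨⟨(not_or.1 h).1, (not_or.1 h).2, ?_⟩, a1⟩
            have : g.1 1 1 = g.1 0 0 := by
              linear_combination g.1 0 0 * hd + g.1 0 0 * g.1 0 1 * a1 - g.1 1 1 * a2
            rw [this]
            linear_combination 4 * a2
      · rw [disjoint_left]
        intro g a1 a2
        simp only [mem_filter, mem_univ, true_and, mem_insert, mem_singleton] at a1 a2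
        exact a2.elim a1.1.1 a1.1.2.1
    omega
  obtain ⟨e, he⟩ := LDick_count (∞ : OnePoint K) m1 m2 m3 par (fun h => h.1 rfl)
    (fun h => h.2.1 rfl)
    (fun g h ⟨a1, a2, a3⟩ => ⟨fun e => a1 (by simpa using e), fun e => a2 (by
      rw [mul_inv_eq_iff_eq_mul, ← eq_inv_mul_iff_mul_eq] at e
      exact Subtype.ext (by simp [e, m0])), by
      simp only [Subgroup.coe_mul, Subgroup.coe_inv, LDick_tr, a3]⟩) hpar
    (fun g a1 a2 a3 => LDick_two_fix two fun h => a3 ⟨a1, a2, h⟩) cP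
  obtain ⟨β, hβ⟩ := LDick_even m1 m2 (m3 ∞)
  have cB : #{g : G | g • (∞ : OnePoint K) = ∞} ≤ 2 * #L * #(L.erase 0) := by
    refine card_le_mul_card_image_of_maps_to (f := fun g : G => g.1 0 0 * g.1 0 0) ?_ _ ?_
    · intro g hg
      simp only [mem_filter, mem_univ, true_and, hs, LDick_fix_inf] at hg
      have hd := LDick_det g.1
      rw [mem_erase, mL, mΛ]
      refine ⟨mul_self_ne_zero.2 fun h => one_ne_zero (α := K) ?_, ?_⟩
      · rw [← hd, h, hg, zero_mul, mul_zero, sub_zero]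
      · have : xU (g.1 0 0 * g.1 0 0) = g.1 * xU 1 * g.1⁻¹ := by
          refine LDick_ext ?_ ?_ ?_ ?_ <;> simp only [LDick_mul, LDick_inv, LDick_xU, hg]
          · linear_combination -hd - g.1 0 1 * hg
          · ring
          · ring
          · linear_combination -hd - g.1 0 1 * hg
        rw [this]
        exact mul_mem (mul_mem g.2 h1) (inv_mem g.2)
    · intro t _
      rcases (filter (fun g : G => g.1 0 0 * g.1 0 0 = t)
        {g : G | g • (∞ : OnePoint K) = ∞}).eq_empty_or_nonempty with h | ⟨g₀, h₀⟩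
      · rw [h]
        exact Nat.zero_le _
      · rw [← cU]
        refine card_le_card_of_injOn (fun g => g * g₀⁻¹) (fun g hg => ?_)
          (mul_left_injective _).injOn
        simp only [coe_filter, mem_filter, mem_univ, true_and, Set.mem_ofPred_eq, hs,
          LDick_fix_inf, Subgroup.coe_mul, Subgroup.coe_inv, LDick_mul, LDick_inv] at hg h₀ ⊢
        have hd := LDick_det g₀.1
        rw [h₀.1] at hd
        rw [hg.1, h₀.1]
        refine ⟨by ring, ?_⟩
        linear_combination g₀.1 1 1 ^ 2 * (hg.2 - h₀.2) + (g₀.1 0 0 * g₀.1 1 1 + 1) * hd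
  have cG := LDick_orb (G := G) (∞ : OnePoint K)
  rw [card_erase_of_mem ((mL 0).2 (zero_mem _)), hβ, mul_assoc] at cB
  have r1 : r = 1 := by
    refine LDick_arith (β := β) (e := e) q5 cO ?_ ?_ ?_ ?_
    · have := card_pos.2 ⟨0, A0⟩
      rw [hr] at this
      exact Nat.pos_of_mul_pos_left this
    · obtain ⟨k, hk⟩ : ∃ k, #L = k + 1 := ⟨#L - 1, by omega⟩
      rw [hk, Nat.add_sub_cancel] at cB
      rw [hk]
      nlinarith
    · have := Fintype.card_pos (α := G)
      rw [he, mul_assoc] at this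
      exact Nat.pos_of_mul_pos_right (Nat.pos_of_mul_pos_left this)
    · rw [hβ, he, mul_left_comm, mul_assoc] at cG
      exact Nat.eq_of_mul_eq_mul_left two_pos cG
  have eq : L = A := eq_of_subset_of_card_le (fun b hb => by
    simpa using aA 0 A0 b ((mL b).1 hb)) (by rw [hr, r1, mul_one])
  intro g hg h
  exact (mΛ _).1 ((mL _).1 (eq ▸ (mA _).2 ⟨⟨g, hg⟩, h, rfl⟩))

theorem LDick_y (G : Subgroup SL(2, K)) [Finite G] (h1 : xU 1 ∈ G) {τ : K} (hτ : τ ≠ 0)
    (h2 : yL τ ∈ G) (h : ∀ g ∈ G, g 1 0 ≠ 0 → xU (g 0 0 / g 1 0) ∈ G) : yL 1 ∈ G := by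
  have e1 : xU (1 / τ) ∈ G := h _ h2 hτ
  have e2 : (xU (1 / τ))⁻¹ * yL τ * (xU (1 / τ))⁻¹ ∈ G :=
    mul_mem (mul_mem (inv_mem e1) h2) (inv_mem e1)
  have e3 : ∀ b, xU b ∈ G → yL (-(τ ^ 2 * b)) ∈ G := fun b hb => by
    have := mul_mem (mul_mem e2 hb) (inv_mem e2)
    convert this using 1
    refine LDick_ext ?_ ?_ ?_ ?_ <;> simp only [LDick_mul, LDick_inv, LDick_xU, LDick_yL] <;>
      field_simp <;> ring
  have fin : {b : K | xU b ∈ G ∧ b ≠ 0}.Finite := by
    refine ((Set.finite_range fun g : G => g.1 0 1).subset ?_)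
    exact fun b hb => ⟨⟨_, hb.1⟩, rfl⟩
  have e4 : Set.MapsTo (fun b : K => 1 / -(τ ^ 2 * b)) {b : K | xU b ∈ G ∧ b ≠ 0}
      {b : K | xU b ∈ G ∧ b ≠ 0} := fun b hb => by
    have : -(τ ^ 2 * b) ≠ 0 := neg_ne_zero.2 (mul_ne_zero (pow_ne_zero _ hτ) hb.2)
    exact ⟨h _ (e3 b hb.1) this, one_div_ne_zero this⟩
  obtain ⟨b, hb, e5⟩ := ((fin.injOn_iff_bijOn_of_mapsTo e4).1 fun a _ b _ e => by
    simpa [hτ] using e).surjOn ⟨h1, one_ne_zero⟩
  have e6 : -(τ ^ 2 * b) = 1 := inv_eq_one.1 ((one_div _).symm.trans e5)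
  exact e6 ▸ e3 b hb.1

end main

/-- The arithmetic of the orbit count. Write `n = 1 + m q`. From the equation `n ∣ 2 e`.
`m ≥ 3`: `2 e ≥ n` gives `n (q - 2) < 2 q (q - 1)`, false for `q ≥ 5`. `m = 2`: `n` is odd, so
`e ≥ n`, and `n (q - 2) < q (q - 1)` is false. -/
theorem dickson_arith {n q c e m : ℕ} (hq : 5 ≤ q) (hn : n = 1 + m * q) (hm : 1 ≤ m)
    (hc : c + 1 ≤ q) (he : 1 ≤ e) (h : n * q * c = e * (2 + n * (q - 2))) : m = 1 :=
  LDick_arith (β := q * c) hq hn hm (Nat.mul_le_mul_left q hc) he (mul_assoc n q c ▸ h)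

/-- Let `G` act on the projective line `P` over `K` (for instance `Option K` or `OnePoint K` with
the Moebius action `g • ∞ = g 0 0 / g 1 0`, `xU b • z = z + b`; or lines in `K ^ 2`), and let
`Ḡ` be the image of `G` in `Perm P`, `N = card Ḡ`. An element `g ≠ ±1` fixes exactly one point if
`trace g = ±2` (then its image has order `p`), and exactly two points otherwise (`K` is
algebraically closed). Call a point of type `p` if some element with exactly one fixed point fixes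
it. (1) The points of type `p` form one orbit `O ∋ ∞, 0`: for two orbits `O₁ ∋ a`, `O₂ ∋ b`, an
element of order `p` fixing only `a` gives `card O₁ ≡ 1`, and one fixing only `b` gives
`card O₁ ≡ 0 mod p`. (2) `Λ = {b | xU b ∈ G}` is an additive group of order `q ≥ p ≥ 5` (note
`(- xU b) ^ 2 = xU (2 b)`, so `± xU b ∈ G` gives `xU b ∈ G`); it acts freely on `O \ ∞`, so
`n = card O = 1 + m q`, `m ≥ 1`. The stabiliser of `∞` in `Ḡ` has order `q c`, where `c` is the
number of values `(g 0 0) ^ 2`, and `c ≤ q - 1` as `(g 0 0) ^ 2 ∈ Λ \ 0` (conjugate `xU 1`).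
The elements with exactly one fixed point number `n (q - 1)`. (3) Let `𝒫` be the finite invariant
set of points fixed by some element `≠ 1`, with `r` orbits; Burnside
(`MulAction.sum_card_fixedBy_eq_card_orbits_mul_card_group`) gives
`card 𝒫 + 2 (N - 1) - n (q - 1) = r N` with `N = n q c`; each orbit other than `O` has size
`N / e ≤ N / 2`. So `r ≤ 2`; `r = 1` is impossible, and `r = 2` gives
`n q c = e (2 + n (q - 2))`, hence `m = 1` by `dickson_arith`. (4) So `O \ ∞ = Λ + 0 = Λ`, which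
is the first claim. Conjugating by an element of `G` taking `∞` to `0`, the elements
`± yL γ ∈ G` are transitive on `O \ 0 ∋ ∞, 1`; `yL γ • ∞ = 1 / γ`, so `yL 1 ∈ G`. -/
theorem dickson {K : Type*} [Field K] [IsAlgClosed K] {p : ℕ} [Fact p.Prime] [CharP K p]
    (hp : 5 ≤ p) (G : Subgroup SL(2, K)) [Finite G] (h1 : xU 1 ∈ G) {τ : K} (hτ : τ ≠ 0)
    (h2 : yL τ ∈ G) :
    (∀ g ∈ G, g 1 0 ≠ 0 → xU (g 0 0 / g 1 0) ∈ G) ∧ yL 1 ∈ G := by
  have odd : Odd p := (Fact.out : p.Prime).odd_of_ne_two (by omega)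
  let G' : Subgroup SL(2, K) :=
    { carrier := {g | g ∈ G ∨ -g ∈ G}
      mul_mem' := by
        rintro a b (ha | ha) (hb | hb)
        · exact Or.inl (mul_mem ha hb)
        · exact Or.inr (mul_neg a b ▸ mul_mem ha hb)
        · exact Or.inr (neg_mul a b ▸ mul_mem ha hb)
        · exact Or.inl (neg_mul_neg a b ▸ mul_mem ha hb)
      one_mem' := Or.inl (one_mem _)
      inv_mem' := by
        rintro a (ha | ha)
        · exact Or.inl (inv_mem ha)
        · refine Or.inr ?_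
          rw [← inv_neg]
          exact inv_mem ha }
  have : Finite G' := by
    refine ((Set.finite_range fun g : G => g.1).union
      (Set.finite_range fun g : G => -g.1)).subset ?_
    rintro g (h | h)
    · exact Or.inl ⟨⟨_, h⟩, rfl⟩
    · exact Or.inr ⟨⟨_, h⟩, neg_neg g⟩
  have key : ∀ g ∈ G, g 1 0 ≠ 0 → xU (g 0 0 / g 1 0) ∈ G := fun g hg h => by
    rcases LDick_main hp G' (Or.inr (by rw [neg_neg]; exact one_mem _)) (Or.inl h1) hτ (Or.inl h2)
      g (Or.inl hg) h with e | e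
    · exact e
    · have e1 := pow_mem e (p + 1)
      rwa [odd.add_one.neg_pow, pow_succ, LDick_pow_p (by simp only [LDick_xU]; norm_num),
        one_mul] at e1
  exact ⟨key, LDick_y G h1 hτ h2 key⟩

end Pool.Agent.Lib.MP_bf45aa_co
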