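import Pool.Agent.Lib.MP_bf45aa_co.LDef

set_option autoImplicit false
set_option linter.unusedSectionVars false

/-! The entropy inequality for a triangular system of idempotents. -/

namespace Pool.Agent.Lib.MP_bf45aa_co

open Module

variable {F V : Type*} [Field F] [AddCommGroup V] [Module F V]

/-- The product of the `π i` over the positions `i ≥ j` at which the list has the entry `true`. -/
def EP (π : ℕ → End F V) : ℕ → List Bool → End F V
  | _, [] => 1
  | j, true :: l => π j * EP π (j + 1) l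
  | j, false :: l => EP π (j + 1) l

/-- The common kernel of all `T * EP π j l`, `l` of length `n`. -/
def KK (π : ℕ → End F V) : ℕ → ℕ → End F V → Submodule F V
  | _, 0, T => LinearMap.ker T
  | j, n + 1, T => KK π (j + 1) n (T * π j) ⊓ KK π (j + 1) n T

/-- The common kernel of all `T * EP π j l'` with `l'` lexicographically larger than `l`. -/
def NN' (π : ℕ → End F V) : ℕ → List Bool → End F V → Submodule F V
  | _, [], _ => ⊤
  | j, true :: l, T => NN' π (j + 1) l (T * π j)
  | j, false :: l, T => KK π (j + 1) l.length (T * π j) ⊓ NN' π (j + 1) l T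

/-- The multiplicity of the state `l` in `M`. -/
noncomputable def mu (π : ℕ → End F V) (j : ℕ) (l : List Bool) (T : End F V) (M : Submodule F V) :
    ℕ := rk (T * EP π j l) (M ⊓ NN' π j l T)

/-- All lists of length `n`. -/
def LL' : ℕ → Finset (List Bool)
  | 0 => {[]}
  | n + 1 => (LL' n).image (true :: ·) ∪ (LL' n).image (false :: ·)

/-- An exact triangular system on the invariant subspace `E`. -/
structure Tri (π : ℕ → End F V) (m : ℕ) (E : Submodule F V) : Prop where
  inv : ∀ i < m, ∀ v ∈ E, π i v ∈ E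
  idem : ∀ i < m, π i * π i = π i
  tri : ∀ i k, i < k → k < m → ∀ v ∈ E, π i v = 0 → π i (π k v) = 0

theorem LEnt0_length {n : ℕ} {l : List Bool} (h : l ∈ LL' n) : l.length = n := by
  induction n generalizing l with
  | zero => simpa [LL'] using h
  | succ n ih =>
    simp only [LL', Finset.mem_union, Finset.mem_image] at h
    rcases h with ⟨l', h, rfl⟩ | ⟨l', h, rfl⟩ <;> simp [ih h]

theorem LEnt0_rn (T : End F V) (M : Submodule F V) [Module.Finite F M] :
    finrank F (M.map T) + finrank F (M ⊓ LinearMap.ker T : Submodule F V) = finrank F M := by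
  have h := LinearMap.finrank_range_add_finrank_ker (T.domRestrict M)
  rw [LinearMap.range_domRestrict, LinearMap.ker_domRestrict,
    ← Submodule.finrank_map_subtype_eq, Submodule.map_comap_subtype] at h
  exact h

/-- Induction on `n` for all `j`, `T`, `M` (rank-nullity for `n = 0`); note
`mu π j (true :: l) T M = mu π (j + 1) l (T * π j) M` and
`mu π j (false :: l) T M = mu π (j + 1) l T (M ⊓ KK π (j + 1) l.length (T * π j))`. -/
theorem sum_mu (π : ℕ → End F V) (n j : ℕ) (T : End F V) (M : Submodule F V) [Module.Finite F M] :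
    ∑ l ∈ LL' n, mu π j l T M + finrank F (M ⊓ KK π j n T : Submodule F V) = finrank F M := by
  induction n generalizing j T M with
  | zero =>
    rw [LL', Finset.sum_singleton, mu, EP, NN', KK, mul_one, inf_top_eq, rk]
    exact LEnt0_rn T M
  | succ n ih =>
    have : Module.Finite F (M ⊓ KK π (j + 1) n (T * π j) : Submodule F V) :=
      Submodule.finiteDimensional_of_le inf_le_left
    have h1 := ih (j + 1) (T * π j) M
    have h2 := ih (j + 1) T (M ⊓ KK π (j + 1) n (T * π j))
    rw [LL', Finset.sum_union (by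
      simp only [Finset.disjoint_left, Finset.mem_image]
      rintro _ ⟨l, -, rfl⟩ ⟨l', -, h⟩
      simp at h), Finset.sum_image fun _ _ _ _ h => by simpa using h,
      Finset.sum_image fun _ _ _ _ h => by simpa using h]
    have e1 : ∀ l, mu π j (true :: l) T M = mu π (j + 1) l (T * π j) M := fun l => by
      simp only [mu, EP, NN', mul_assoc]
    have e2 : ∀ l ∈ LL' n, mu π j (false :: l) T M =
        mu π (j + 1) l T (M ⊓ KK π (j + 1) n (T * π j)) := fun l hl => by
      simp only [mu, EP, NN', inf_assoc, LEnt0_length hl]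
    rw [Finset.sum_congr rfl e2, KK, ← inf_assoc]
    simp only [e1]
    omega

theorem LEnt0_hull (Fil : ℕ → Submodule F V) (hF : Monotone Fil) (π : ℕ → End F V) (m T : ℕ)
    (hπ : ∀ i < m, ∀ k, ∀ v ∈ Fil k, π i v ∈ Fil (k + 2)) (idem : ∀ i < m, π i * π i = π i)
    (tri : ∀ i k, i < k → k < m → ∀ v ∈ Fil T, π i v = 0 → π i (π k v) = 0) (d : ℕ) :
    ∀ j, j + d = m → ∀ s u (M : Submodule F V), M ≤ Fil s → s + 2 ^ (d + 1) ≤ u + 2 → u ≤ T →
      ∃ G, M ≤ G ∧ G ≤ Fil u ∧ ∀ k, j ≤ k → k < m → ∀ v ∈ G, π k v ∈ G := by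
  induction d with
  | zero =>
    intro j hj s u M hM hs _
    exact ⟨M, le_rfl, hM.trans (hF (by omega)), fun k h1 h2 => by omega⟩
  | succ d ih =>
    intro j hj s u M hM hs hu
    have h2 : 2 ≤ 2 ^ (d + 1) := Nat.le_self_pow (by omega) 2
    have h3 : 2 ^ (d + 1 + 1) = 2 * 2 ^ (d + 1) := by ring
    obtain ⟨G₁, a1, a2, a3⟩ := ih (j + 1) (by omega) s (s + 2 ^ (d + 1) - 2) M hM (by omega)
      (by omega)
    obtain ⟨G₂, b1, b2, b3⟩ := ih (j + 1) (by omega) (s + 2 ^ (d + 1) - 2 + 2) u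
      (G₁.map (1 - π j)) (by
        rintro _ ⟨v, hv, rfl⟩
        exact sub_mem (hF (by omega) (a2 hv)) (hπ j (by omega) _ v (a2 hv))) (by omega) hu
    refine ⟨G₁ ⊔ (G₂ ⊓ LinearMap.ker (π j)), a1.trans le_sup_left,
      sup_le (a2.trans (hF (by omega))) (inf_le_left.trans b2), fun k h4 h5 v hv => ?_⟩
    obtain ⟨v₁, c1, v₂, ⟨c2, c3⟩, rfl⟩ := Submodule.mem_sup.1 hv
    rw [map_add]
    rcases h4.eq_or_lt with rfl | h4
    · have e : π j v₁ = v₁ - (1 - π j) v₁ := by simp
      rw [show π j v₂ = 0 from c3, add_zero, e]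
      refine sub_mem (Submodule.mem_sup_left c1) (Submodule.mem_sup_right ⟨b1 ⟨v₁, c1, rfl⟩, ?_⟩)
      show π j ((1 - π j) v₁) = 0
      rw [← End.mul_apply, mul_sub, mul_one, idem j h5, sub_self, LinearMap.zero_apply]
    · exact Submodule.add_mem_sup (a3 k h4 h5 _ c1)
        ⟨b3 k h4 h5 _ c2, tri j k h4 h5 _ (hF hu (b2 c2)) c3⟩

/-- The hull: by downward induction on `j`, every `M ≤ Fil t` lies in a subspace of
`Fil (t + 2 ^ (m - j + 1) - 2)` invariant under `π k`, `j ≤ k < m`. Use the smallest invariant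
subspace `hull j M`: with `G₁ = hull (j + 1) M`, `G₂ = hull (j + 1) ((1 - π j) G₁) ≤ ker (π j)`
(as `G₂ ⊓ ker (π j)` is invariant), `G₁ ⊔ G₂` is invariant under `π j` too. -/
theorem exists_hull (Fil : ℕ → Submodule F V) (hF : Monotone Fil) (π : ℕ → End F V) (m t T : ℕ)
    (hπ : ∀ i < m, ∀ k, ∀ v ∈ Fil k, π i v ∈ Fil (k + 2)) (idem : ∀ i < m, π i * π i = π i)
    (tri : ∀ i k, i < k → k < m → ∀ v ∈ Fil T, π i v = 0 → π i (π k v) = 0)
    (hT : t + 2 ^ (m + 1) ≤ T) :
    ∃ E, Fil t ≤ E ∧ E ≤ Fil (t + 2 ^ (m + 1)) ∧ Tri π m E := by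
  obtain ⟨G, h1, h2, h3⟩ := LEnt0_hull Fil hF π m T hπ idem tri m 0 (zero_add m) t
    (t + 2 ^ (m + 1)) (Fil t) le_rfl (by omega) hT
  exact ⟨G, h1, h2, fun i hi => h3 i (Nat.zero_le _) hi, idem,
    fun i k a b v hv => tri i k a b v (hF hT (h2 hv))⟩

end Pool.Agent.Lib.MP_bf45aa_co
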