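import Pool.Agent.Lib.MP_bf45aa_co.LEnt0

set_option autoImplicit false
set_option linter.unusedSectionVars false

/-! Comparison of multiplicities. -/

namespace Pool.Agent.Lib.MP_bf45aa_co

open Module

variable {F V : Type*} [Field F] [AddCommGroup V] [Module F V]

/-- Goodness of an operator. -/
def LEnt1_Good (π : ℕ → End F V) (m : ℕ) (E : Submodule F V) (T : End F V) (j : ℕ) : Prop :=
  ∀ v ∈ E, T v = 0 → ∀ k, j ≤ k → k < m → T (π k v) = 0

theorem LEnt1_good_one (π : ℕ → End F V) (m : ℕ) (E : Submodule F V) (j : ℕ) :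
    LEnt1_Good π m E 1 j := by
  intro v _ hv k _ _
  have h0 : v = 0 := hv
  simp [h0]

theorem LEnt1_good_succ {π : ℕ → End F V} {m : ℕ} {E : Submodule F V} {T : End F V} {j : ℕ}
    (hT : LEnt1_Good π m E T j) : LEnt1_Good π m E T (j + 1) :=
  fun v hv h0 k hk hm => hT v hv h0 k (by omega) hm

theorem LEnt1_idem {π : ℕ → End F V} {m : ℕ} {E : Submodule F V} (h : Tri π m E) {j : ℕ}
    (hj : j < m) (v : V) : π j (v - π j v) = 0 := by
  have h1 : π j (π j v) = π j v := by
    rw [← Module.End.mul_apply, h.idem j hj]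
  rw [map_sub, h1, sub_self]

theorem LEnt1_good_mul {π : ℕ → End F V} {m : ℕ} {E : Submodule F V} (h : Tri π m E)
    {T : End F V} {j : ℕ} (hT : LEnt1_Good π m E T j) (hj : j < m) :
    LEnt1_Good π m E (T * π j) (j + 1) := by
  intro v hv h0 k hk hm
  rw [Module.End.mul_apply] at h0 ⊢
  have hw : π j v ∈ E := h.inv j hj v hv
  have h1 : π j (π k (v - π j v)) = 0 :=
    h.tri j k (by omega) hm _ (E.sub_mem hv hw) (LEnt1_idem h hj v)
  have h2 : T (π k (π j v)) = 0 := hT _ hw h0 k (by omega) hm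
  have h3 : T (π j (π k (π j v))) = 0 := hT _ (h.inv k hm _ hw) h2 j le_rfl hj
  have h4 : π j (π k v) = π j (π k (π j v)) := by
    rw [map_sub, map_sub, sub_eq_zero] at h1
    exact h1
  rw [h4, h3]

theorem LEnt1_mem_KK {π : ℕ → End F V} {m : ℕ} {E : Submodule F V} (h : Tri π m E) (n : ℕ) :
    ∀ (j : ℕ) (T : End F V), LEnt1_Good π m E T j → j + n ≤ m → ∀ v ∈ E, T v = 0 →
      v ∈ KK π j n T := by
  induction n with
  | zero => intro j T _ _ v _ h0; exact h0
  | succ n ih =>
    intro j T hT hj v hv h0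
    exact ⟨ih (j + 1) _ (LEnt1_good_mul h hT (by omega)) (by omega) v hv
      (hT v hv h0 j le_rfl (by omega)), ih (j + 1) _ (LEnt1_good_succ hT) (by omega) v hv h0⟩

theorem LEnt1_KK_ker (π : ℕ → End F V) (n : ℕ) :
    ∀ (j : ℕ) (T : End F V), ∀ v ∈ KK π j n T, T v = 0 := by
  induction n with
  | zero => intro j T v hv; exact hv
  | succ n ih => intro j T v hv; exact ih (j + 1) T v hv.2

theorem LEnt1_KK_NN (π : ℕ → End F V) (l : List Bool) :
    ∀ (j : ℕ) (T : End F V), ∀ v ∈ KK π j l.length T, v ∈ NN' π j l T := by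
  induction l with
  | nil => intro j T v _; trivial
  | cons b l ih =>
    intro j T v hv
    cases b with
    | true => exact ih (j + 1) _ v hv.1
    | false => exact ⟨hv.1, ih (j + 1) _ v hv.2⟩

theorem LEnt1_EP_mem {π : ℕ → End F V} {m : ℕ} {E : Submodule F V}
    (inv : ∀ i < m, ∀ v ∈ E, π i v ∈ E) (l : List Bool) :
    ∀ j, j + l.length ≤ m → ∀ v ∈ E, EP π j l v ∈ E := by
  induction l with
  | nil => intro j _ v hv; exact hv
  | cons b l ih =>
    intro j hj v hv
    rw [List.length_cons] at hj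
    cases b with
    | true => exact inv j (by omega) _ (ih (j + 1) (by omega) v hv)
    | false => exact ih (j + 1) (by omega) v hv

theorem LEnt1_EP_zero {π : ℕ → End F V} {m : ℕ} {E : Submodule F V} (h : Tri π m E)
    (l : List Bool) {T : End F V} :
    ∀ j, LEnt1_Good π m E T j → j + l.length ≤ m → ∀ v ∈ E, T v = 0 → T (EP π j l v) = 0 := by
  induction l with
  | nil => intro j _ _ v _ h0; exact h0
  | cons b l ih =>
    intro j hT hj v hv h0
    rw [List.length_cons] at hj
    have h1 := ih (j + 1) (LEnt1_good_succ hT) (by omega) v hv h0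
    cases b with
    | true =>
      exact hT _ (LEnt1_EP_mem h.inv l (j + 1) (by omega) v hv) h1 j le_rfl (by omega)
    | false => exact h1

theorem LEnt1_EP_NN {π : ℕ → End F V} {m : ℕ} {E : Submodule F V} (h : Tri π m E)
    (l : List Bool) :
    ∀ (j : ℕ) (T : End F V), LEnt1_Good π m E T j → j + l.length ≤ m → ∀ v ∈ E,
      v ∈ NN' π j l T → EP π j l v ∈ NN' π j l T := by
  induction l with
  | nil => intro j T _ _ v _ _; trivial
  | cons b l ih =>
    intro j T hT hj v hv hN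
    rw [List.length_cons] at hj
    have hG := LEnt1_good_mul h hT (show j < m by omega)
    have hw : EP π (j + 1) l v ∈ E := LEnt1_EP_mem h.inv l (j + 1) (by omega) v hv
    cases b with
    | true =>
      have h1 : EP π (j + 1) l v ∈ NN' π (j + 1) l (T * π j) := ih (j + 1) _ hG (by omega) v hv hN
      have h2 : EP π (j + 1) l v - π j (EP π (j + 1) l v) ∈ NN' π (j + 1) l (T * π j) := by
        refine LEnt1_KK_NN π l _ _ _ (LEnt1_mem_KK h _ _ _ hG (by omega) _
          (E.sub_mem hw (h.inv j (by omega) _ hw)) ?_)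
        rw [Module.End.mul_apply, LEnt1_idem h (by omega), map_zero]
      have h3 := Submodule.sub_mem _ h1 h2
      rw [sub_sub_cancel] at h3
      exact h3
    | false =>
      refine ⟨LEnt1_mem_KK h _ _ _ hG (by omega) _ hw ?_,
        ih (j + 1) _ (LEnt1_good_succ hT) (by omega) v hv hN.2⟩
      exact LEnt1_EP_zero h l (j + 1) hG (by omega) v hv (LEnt1_KK_ker π _ _ _ v hN.1)

theorem LEnt1_EP_idem {π : ℕ → End F V} {m : ℕ} {E : Submodule F V} (h : Tri π m E)
    (l : List Bool) :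
    ∀ j, j + l.length ≤ m → ∀ v ∈ E, EP π j l (EP π j l v) = EP π j l v := by
  induction l with
  | nil => intro j _ v _; rfl
  | cons b l ih =>
    intro j hj v hv
    rw [List.length_cons] at hj
    cases b with
    | false => exact ih (j + 1) (by omega) v hv
    | true =>
      have hw : EP π (j + 1) l v ∈ E := LEnt1_EP_mem h.inv l (j + 1) (by omega) v hv
      have hG := LEnt1_good_mul h (LEnt1_good_one π m E j) (show j < m by omega)
      rw [one_mul] at hG
      have h1 := LEnt1_EP_zero h l (j + 1) hG (by omega) _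
        (E.sub_mem hw (h.inv j (by omega) _ hw)) (LEnt1_idem h (by omega) _)
      rw [map_sub, map_sub, ih (j + 1) (by omega) v hv, sub_eq_zero] at h1
      exact h1.symm

theorem LEnt1_KK_map {π f : ℕ → End F V} {m j : ℕ} {E : Submodule F V}
    (inv : ∀ i < m, ∀ v ∈ E, f i v ∈ E) {x : End F V}
    (h3 : ∀ k, j ≤ k → k < m → ∀ v ∈ E, x (f k v) = π k (x v)) (n : ℕ) :
    ∀ (k : ℕ) (T T' : End F V), j ≤ k → k + n ≤ m → (∀ v ∈ E, T v = 0 → T' (x v) = 0) →
      ∀ v ∈ E, v ∈ KK f k n T → x v ∈ KK π k n T' := by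
  induction n with
  | zero => intro k T T' _ _ hT v hv h0; exact hT v hv h0
  | succ n ih =>
    intro k T T' hk hm hT v hv h0
    refine ⟨ih (k + 1) _ _ (by omega) (by omega) (fun w hw e => ?_) v hv h0.1,
      ih (k + 1) _ _ (by omega) (by omega) hT v hv h0.2⟩
    rw [Module.End.mul_apply] at e ⊢
    rw [← h3 k hk (by omega) w hw]
    exact hT _ (inv k (by omega) w hw) e

theorem LEnt1_NN_map {π f : ℕ → End F V} {m j : ℕ} {E : Submodule F V}
    (inv : ∀ i < m, ∀ v ∈ E, f i v ∈ E) {x : End F V}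
    (h3 : ∀ k, j ≤ k → k < m → ∀ v ∈ E, x (f k v) = π k (x v)) (l : List Bool) :
    ∀ (k : ℕ) (T T' : End F V), j ≤ k → k + l.length ≤ m → (∀ v ∈ E, T v = 0 → T' (x v) = 0) →
      ∀ v ∈ E, v ∈ NN' f k l T → x v ∈ NN' π k l T' := by
  induction l with
  | nil => intro k T T' _ _ _ v _ _; trivial
  | cons b l ih =>
    intro k T T' hk hm hT v hv h0
    rw [List.length_cons] at hm
    have hS : ∀ w ∈ E, (T * f k) w = 0 → (T' * π k) (x w) = 0 := fun w hw e => by
      rw [Module.End.mul_apply] at e ⊢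
      rw [← h3 k hk (by omega) w hw]
      exact hT _ (inv k (by omega) w hw) e
    cases b with
    | true => exact ih (k + 1) _ _ (by omega) (by omega) hS v hv h0
    | false =>
      exact ⟨LEnt1_KK_map inv h3 _ (k + 1) _ _ (by omega) (by omega) hS v hv h0.1,
        ih (k + 1) _ _ (by omega) (by omega) hT v hv h0.2⟩

theorem LEnt1_EP_map {π f : ℕ → End F V} {m j : ℕ} {E : Submodule F V}
    (inv : ∀ i < m, ∀ v ∈ E, f i v ∈ E) {x : End F V}
    (h3 : ∀ k, j ≤ k → k < m → ∀ v ∈ E, x (f k v) = π k (x v)) (l : List Bool) :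
    ∀ k, j ≤ k → k + l.length ≤ m → ∀ v ∈ E, x (EP f k l v) = EP π k l (x v) := by
  induction l with
  | nil => intro k _ _ v _; rfl
  | cons b l ih =>
    intro k hk hm v hv
    rw [List.length_cons] at hm
    have h1 := ih (k + 1) (by omega) (by omega) v hv
    cases b with
    | false => exact h1
    | true =>
      show x (f k (EP f (k + 1) l v)) = π k (EP π (k + 1) l (x v))
      rw [h3 k hk (by omega) _ (LEnt1_EP_mem inv l (k + 1) (by omega) v hv), h1]

theorem LEnt1_KK_zero (f : ℕ → End F V) (n : ℕ) : ∀ (k : ℕ) (v : V), v ∈ KK f k n 0 := by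
  induction n with
  | zero => intro k v; exact LinearMap.mem_ker.2 rfl
  | succ n ih =>
    intro k v
    refine ⟨?_, ih _ v⟩
    rw [zero_mul]
    exact ih _ v

theorem LEnt1_rank_null (a : End F V) (B : Submodule F V) [Module.Finite F B] :
    finrank F B = rk a B + finrank F (B ⊓ LinearMap.ker a : Submodule F V) := by
  have h1 := LinearMap.finrank_range_add_finrank_ker (a.domRestrict B)
  rw [LinearMap.range_domRestrict, LinearMap.ker_domRestrict,
    ← Submodule.finrank_map_subtype_eq B, Submodule.map_comap_subtype] at h1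
  exact h1.symm

/-- The pointwise comparison. Call `T` good for `j` if `T v = 0`, `v ∈ E` gives `T (π k v) = 0` for
`j ≤ k < m`. `1` is good; if `T` is good for `j` then `T * π j` is good for `j + 1` (write
`v = π j v + (1 - π j) v`), and then `E ⊓ ker T ≤ KK π j n T ≤ NN' π j l T` and
`KK π j n T ≤ ker T`. For good `T`: `EP π j l` maps `E ⊓ NN' π j l T` to `NN' π j l T` (induction
on `l`), and `EP π j l` is idempotent on `E`. Also `NN' π j l T ≤ NN' π j l (S * T)`. Now let
`A = M ⊓ NN' π (j + 1) l 1`, `P = EP π (j + 1) l`; `rk P A = rk (π j * P) A + finrank D` with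
`D = P A ⊓ ker (π j) ≤ M' ⊓ NN' π j (false :: l) 1`, and `P` is the identity on `D`. -/
theorem Tri.mu_le {π : ℕ → End F V} {m : ℕ} {E : Submodule F V} (h : Tri π m E) {j : ℕ}
    {l : List Bool} (hl : j + 1 + l.length = m) {M M' : Submodule F V} [Module.Finite F M']
    (hM : M ≤ M') (hE : M' ≤ E) (hP : ∀ v ∈ M, EP π (j + 1) l v ∈ M') :
    mu π (j + 1) l 1 M ≤ mu π j (true :: l) 1 M' + mu π j (false :: l) 1 M' := by
  have hj : j < m := by omega
  have : Module.Finite F M := Submodule.finiteDimensional_of_le hM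
  show rk (1 * EP π (j + 1) l) (M ⊓ NN' π (j + 1) l 1) ≤
    rk (1 * (π j * EP π (j + 1) l)) (M' ⊓ NN' π (j + 1) l (1 * π j)) +
    rk (1 * EP π (j + 1) l) (M' ⊓ (KK π (j + 1) l.length (1 * π j) ⊓ NN' π (j + 1) l 1))
  have hG := LEnt1_good_mul h (LEnt1_good_one π m E j) hj
  rw [one_mul] at hG
  simp only [one_mul]
  have h1 := LEnt1_rank_null (π j) ((M ⊓ NN' π (j + 1) l 1).map (EP π (j + 1) l))
  rw [← rk_mul] at h1
  refine (le_of_eq h1).trans (add_le_add (rk_mono _ ?_) (finrank_mono' ?_))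
  · rintro v ⟨hv, hN⟩
    refine ⟨hM hv, ?_⟩
    refine LEnt1_NN_map (π := π) (f := π) (j := 0) (x := 1) h.inv (fun _ _ _ _ _ => rfl) l (j + 1)
      1 (π j) (by omega) (by omega) (fun w _ e => ?_) v (hE (hM hv)) hN
    have h0 : w = 0 := e
    simp [h0]
  · rintro _ ⟨⟨a, ⟨ha, hN⟩, rfl⟩, h0⟩
    have haE : a ∈ E := hE (hM ha)
    refine ⟨EP π (j + 1) l a, ⟨hP a ha, ?_, ?_⟩, LEnt1_EP_idem h l (j + 1) (by omega) a haE⟩
    · exact LEnt1_mem_KK h _ _ _ hG (by omega) _ (hE (hP a ha)) h0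
    · exact LEnt1_EP_NN h l (j + 1) 1 (LEnt1_good_one π m E _) (by omega) a haE hN

/-- The matching: `x` intertwines `EP f (j + 1) l` and `EP π (j + 1) l` on `E`, so it maps
`M ⊓ NN' f (j + 1) l (f j)` into `M' ⊓ NN' π j (false :: l) 1` (prove a statement for pairs
`T`, `T'` with `T' x = x T` on `E` by induction on lists), and `f j = y * x`. -/
theorem mu_match {π f : ℕ → End F V} {m : ℕ} {E : Submodule F V}
    (inv : ∀ i < m, ∀ v ∈ E, f i v ∈ E) {j : ℕ} {l : List Bool} (hl : j + 1 + l.length = m)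
    {x y : End F V} (hf : f j = y * x) (h1 : ∀ v ∈ E, x (f j v) = x v)
    (h2 : ∀ v ∈ E, π j (x v) = 0) (h3 : ∀ k, j < k → k < m → ∀ v ∈ E, x (f k v) = π k (x v))
    {M M' : Submodule F V} [Module.Finite F M'] [Module.Finite F M] (hE : M ≤ E)
    (hx : ∀ v ∈ M, x v ∈ M') :
    mu f j (true :: l) 1 M ≤ mu π j (false :: l) 1 M' := by
  show rk (1 * (f j * EP f (j + 1) l)) (M ⊓ NN' f (j + 1) l (1 * f j)) ≤
    rk (1 * EP π (j + 1) l) (M' ⊓ (KK π (j + 1) l.length (1 * π j) ⊓ NN' π (j + 1) l 1))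
  simp only [one_mul]
  have h3' : ∀ k, j + 1 ≤ k → k < m → ∀ v ∈ E, x (f k v) = π k (x v) :=
    fun k hk => h3 k (by omega)
  have e : rk (f j * EP f (j + 1) l) (M ⊓ NN' f (j + 1) l (f j)) =
      rk (y * (EP π (j + 1) l * x)) (M ⊓ NN' f (j + 1) l (f j)) := by
    refine rk_congr fun v hv => ?_
    rw [Module.End.mul_apply, hf, Module.End.mul_apply,
      LEnt1_EP_map inv h3' l (j + 1) le_rfl (by omega) v (hE hv.1)]
    rfl
  rw [e]
  refine (rk_mul_le_right _ _ _).trans (rk_mul_le_left _ ?_)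
  rintro v ⟨hv, hN⟩
  refine ⟨hx v hv, ?_, ?_⟩
  · exact LEnt1_KK_map inv h3' _ (j + 1) 0 (π j) le_rfl (by omega) (fun w hw _ => h2 w hw) v
      (hE hv) (LEnt1_KK_zero f _ _ v)
  · refine LEnt1_NN_map inv h3' l (j + 1) (f j) 1 le_rfl (by omega) (fun w hw e0 => ?_) v
      (hE hv) hN
    show x w = 0
    rw [← h1 w hw, e0, map_zero]

end Pool.Agent.Lib.MP_bf45aa_co
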