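import Pool.Agent.Lib.MP_bf45aa_co.LFin1

set_option autoImplicit false
set_option linter.unusedSectionVars false

/-! Quadratic families. -/

namespace Pool.Agent.Lib.MP_bf45aa_co

open Subgroup

variable {V G : Type} [Group G] [MulAction G V] {Γ : SimpleGraph V} [Finite G] [Finite V]
  {p : ℕ} [hp : Fact p.Prime]

theorem LFin3_split {a b : ℕ} {x y : V} (h : Near Γ (a + b) x y) :
    ∃ z, Near Γ a x z ∧ Near Γ b z y := by
  induction a generalizing x with
  | zero => exact ⟨x, Near.refl _ _, h.mono (by omega)⟩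
  | succ a ih =>
    rcases near_succ (h.mono (show a + 1 + b ≤ a + b + 1 by omega)) with rfl | ⟨z, h1, h2⟩
    · exact ⟨x, Near.refl _ _, Near.refl _ _⟩
    · obtain ⟨w, h3, h4⟩ := ih h2
      exact ⟨w, ((Near.of_adj h1).trans h3).mono (by omega), h4⟩

theorem LFin3_W_le (U : V → Subgroup G) {x y : V} {t k l : ℕ} (h : Near Γ t y x) (hl : t + k ≤ l) :
    WW Γ U x k ≤ WW Γ U y l :=
  iSup_le fun z => le_iSup (fun z : {z // Near Γ l y z} => U z) ⟨z.1, (h.trans z.2).mono hl⟩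

/-- The elements of `S` that centralise `A` modulo `B`. -/
def LFin3_CL (S A B : Subgroup G) (hA : S ≤ Nm A) (hB : S ≤ Nm B) : Subgroup G where
  carrier := {g | g ∈ S ∧ ∀ a ∈ A, g * a * g⁻¹ * a⁻¹ ∈ B}
  one_mem' := ⟨one_mem _, fun a _ => by simp⟩
  mul_mem' := fun {g h} hg hh => ⟨mul_mem hg.1 hh.1, fun a ha => by
    have := mul_mem (conj_mem_of_Nm (hB hg.1) (hh.2 a ha)) (hg.2 a ha)
    convert this using 1
    group⟩
  inv_mem' := fun {g} hg => ⟨inv_mem hg.1, fun a ha => by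
    have := inv_mem (hg.2 _ (conj_mem_of_Nm' (hA hg.1) ha))
    convert this using 1
    group⟩

theorem LFin3_Nm (S A B : Subgroup G) (hA : S ≤ Nm A) (hB : S ≤ Nm B) :
    S ≤ Nm (LFin3_CL S A B hA hB) :=
  le_Nm_of_conj fun x hx g hg => ⟨mul_mem (mul_mem hx hg.1) (inv_mem hx), fun a ha => by
    have := conj_mem_of_Nm (hB hx) (hg.2 _ (conj_mem_of_Nm' (hA hx) ha))
    convert this using 1
    group⟩

theorem LFin3_count (W : ℕ → Subgroup G) (v : G) (s : ℕ) (hm : ∀ i, W i ≤ W (i + 1))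
    (hv : ∀ i, v ∈ Nm (W i)) (hc : ∀ i ≤ s, W i ≤ Cn (W i))
    (h : ∀ i < s, ∃ a ∈ W (i + 1), v * a * v⁻¹ * a⁻¹ ∉ W i) :
    ∃ f : Fin (2 ^ s) → G, (∀ i, f i ∈ W s) ∧ Function.Injective fun i => f i * v * (f i)⁻¹ := by
  induction s with
  | zero => exact ⟨fun _ => 1, fun _ => one_mem _, fun i j _ => Fin.ext (by omega)⟩
  | succ s ih =>
    obtain ⟨f, hf, hi⟩ := ih (fun i hi => hc i (by omega)) fun i hi => h i (by omega)
    obtain ⟨a, ha, hn⟩ := h s (by omega)
    have key : ∀ j k, f j * v * (f j)⁻¹ ≠ a * f k * v * (a * f k)⁻¹ := by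
      intro j k e
      have h1 : f j * v * (f j)⁻¹ * v⁻¹ ∈ W s := by
        have := mul_mem (hf j) (conj_mem_of_Nm (hv s) (inv_mem (hf j)))
        convert this using 1
        group
      have h2 : f k * v * (f k)⁻¹ * v⁻¹ ∈ W s := by
        have := mul_mem (hf k) (conj_mem_of_Nm (hv s) (inv_mem (hf k)))
        convert this using 1
        group
      have h3 := mem_Cn.1 (hc (s + 1) le_rfl (hm s h2)) a ha
      refine hn ?_
      have h4 : v * a * v⁻¹ * a⁻¹ = (f j * v * (f j)⁻¹ * v⁻¹)⁻¹ *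
          (a * (f k * v * (f k)⁻¹ * v⁻¹) * a⁻¹) := by
        rw [e]
        group
      rw [h4, h3, mul_inv_cancel_right]
      exact mul_mem (inv_mem h1) h2
    let e : Fin (2 ^ (s + 1)) ≃ Fin (2 ^ s) ⊕ Fin (2 ^ s) :=
      Fintype.equivOfCardEq (by simp [pow_succ, mul_two])
    refine ⟨fun i => Sum.elim f (fun j => a * f j) (e i), fun i => ?_, fun i j hij => e.injective ?_⟩
    · beta_reduce
      rcases e i with j | j
      exacts [hm s (hf j), mul_mem ha (hm s (hf j))]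
    · revert hij
      beta_reduce
      rcases e i with i | i <;> rcases e j with j | j <;> intro hij
      · exact congrArg _ (hi hij)
      · exact absurd hij (key i j)
      · exact absurd hij.symm (key j i)
      · refine congrArg _ (hi ?_)
        have h1 : a * f i * v * (a * f i)⁻¹ = a * f j * v * (a * f j)⁻¹ := hij
        calc f i * v * (f i)⁻¹ = a⁻¹ * (a * f i * v * (a * f i)⁻¹) * a := by group
          _ = f j * v * (f j)⁻¹ := by rw [h1]; group

namespace CP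

variable {d n : ℕ} {U : V → Subgroup G} {α α₁ α' : V} {u : G} (P : CP G Γ p d U n α α₁ α' u)
include P

/-- `B = W α' (2 s)`, `w` on the walk within `2 s + 1` of `α` and within `n - 2 s` of `α'`. By
`intr` and `sp_le` some `v ∈ U α` does not commute with `u`; `v` fixes `α'` and its neighbour on the
walk and `v ∉ Kn 1 α'` (otherwise `v ∈ QQ α'` by `RR_inf_K`). For each `i` the elements of `St G α'`
centralising `W α' (2 i + 2)` modulo `W α' (2 i)` form an intransitive normal subgroup (`W_layer`),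
which does not contain `v` (`sp_le`). The images of `W α' (2 i)` under the homomorphism
`a ↦ v a v⁻¹ a⁻¹` increase strictly, so the last one has at least `2 ^ s` elements.
Quadratic action: `v' ∈ W α k` fixes the vertex `z` of the walk within `k` of `α'` and within
`n + 1 - k` of `α`; `B ≤ W z (2 s + k)`, which is abelian and normalised by `v'`. -/
theorem fam {b : ℕ} (hb : 8 * b + 8 ≤ n) {s : ℕ} (hs : s ≤ b) :
    ∃ w, Near Γ (2 * s + 1) α w ∧ ∃ B : Subgroup G, B ≤ QQ G Γ p w ∧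
      (∀ k ≤ b, ∀ a ∈ B, ∀ a' ∈ B, ∀ v ∈ WW Γ U α k, Commute a (a' * v * a'⁻¹ * v⁻¹)) ∧
      ∃ v ∈ WW Γ U α 0, ∃ f : Fin (2 ^ s) → G, (∀ i, f i ∈ B) ∧
        Function.Injective fun i => f i * v * (f i)⁻¹ := by
  have hN : ∀ x k, St G x ≤ Nm (WW Γ U x k) := fun x k =>
    St_le_Nm_of_equi (X := fun x => WW Γ U x k) (fun g x => P.W_equi g x k) x
  obtain ⟨w, hw1, hw2⟩ := LFin3_split (a := 2 * s) (b := n - 2 * s) (P.near.mono (by omega))
  refine ⟨w, ((Near.of_adj P.adj).trans hw1).mono (by omega), WW Γ U α' (2 * s),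
    P.W_le_Q hw2.symm (by omega), fun k hk a ha a' ha' v hv => ?_, ?_⟩
  · obtain ⟨z, hz1, hz2⟩ := LFin3_split (a := n - (k + 1)) (b := k + 1) (P.near.mono (by omega))
    have h1 : v ∈ St G z := (QQ_le_K z).trans (Kn_le_St 1 z)
      (P.W_le_Q ((Near.of_adj P.adj).trans hz1) (by omega) hv)
    have h2 : WW Γ U α' (2 * s) ≤ WW Γ U z (k + 1 + 2 * s) := LFin3_W_le U hz2 le_rfl
    have h3 : a' * v * a'⁻¹ * v⁻¹ ∈ WW Γ U z (k + 1 + 2 * s) := by
      have := mul_mem (h2 ha') (conj_mem_of_Nm (hN z _ h1) (inv_mem (h2 ha')))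
      convert this using 1
      group
    exact mem_Cn.1 ((P.W_EA z (by omega)).2 h3) a (h2 ha)
  have hu := mem_K1.1 (QQ_le_K α₁ (P.short α' α₁ P.near.symm P.mem))
  have h1 : u ∉ Cn (U α) := fun h => P.notK (P.c.sp_le inf_le_right
    (fun g hg => Nm_inf (Nm_Cn (St_le_Nm_of_equi P.equi α hg)) (le_Nm_self _ hg)) (P.intr α) P.adj
    ⟨⟨h, hu.2 α P.adj.symm⟩, hu.1⟩)
  rw [mem_Cn] at h1
  push Not at h1
  obtain ⟨v, hv, hvu⟩ := h1
  obtain ⟨y, hy, hya⟩ : ∃ y, Near Γ (n - 1) α₁ y ∧ Γ.Adj y α' := by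
    rcases near_succ' (n := n - 1) (P.near.mono (by omega)) with h | h
    · refine absurd (QQ_le_K α (P.short α' α ?_ P.mem)) P.notK
      exact (h ▸ Near.of_adj P.adj.symm).mono (by omega)
    · exact h
  have hvQ : v ∈ QQ G Γ p y := P.short α y (((Near.of_adj P.adj).trans hy).mono (by omega)) hv
  have hvK := mem_K1.1 (QQ_le_K y hvQ)
  have hvn : v ∉ Kn G Γ 1 α' := fun h => by
    have h2 : v ∈ QQ G Γ p α' := P.c.RR_inf_K hya.symm ⟨mem_sup_right hvQ, h⟩
    exact hvu (mem_Cn.1 (QQ_le_Cn_YY α' h2) u (P.le α' P.mem)).symm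
  refine ⟨v, le_iSup (fun z : {z // Near Γ 0 α z} => U z) ⟨α, Near.refl _ _⟩ hv,
    LFin3_count (fun i => WW Γ U α' (2 * i)) v s
      (fun i => LFin3_W_le U (Near.refl 0 _) (by omega)) (fun i => hN α' _ (hvK.2 α' hya))
      (fun i hi => (P.W_EA α' (by omega)).2) fun i hi => ?_⟩
  by_contra hc
  push Not at hc
  refine hvn (P.c.sp_le (N := LFin3_CL (St G α') _ _ (hN α' (2 * i + 2)) (hN α' (2 * i)))
    (fun _ h => h.1) (LFin3_Nm _ _ _ _ _) (fun t => ?_) hya.symm ⟨⟨hvK.2 α' hya, hc⟩, hvK.1⟩)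
  obtain ⟨g, hg, a, ha, h⟩ := P.W_layer α' (k := 2 * i) (by omega) _ (fun _ h => And.left h) t
  exact h (hg.2 a ha)

end CP

end Pool.Agent.Lib.MP_bf45aa_co
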