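import Pool.Agent.Lib.MP_bf45aa_co.LFin2
import Pool.Agent.Lib.MP_bf45aa_co.LFin3

set_option autoImplicit false
set_option linter.unusedSectionVars false

/-! Finite data. -/

namespace Pool.Agent.Lib.MP_bf45aa_co

open Subgroup

variable {V G : Type} [Group G] [MulAction G V] {Γ : SimpleGraph V} [Finite G] [Finite V]
  {p : ℕ} [hp : Fact p.Prime]

theorem LFin_cb (d : ℕ) : cb d 1 ≤ cb d 3 := by
  have h : ∀ k, cb d k ≤ cb d (k + 1) := fun k =>
    Nat.le_mul_of_pos_right _ (Nat.pow_pos (Nat.succ_pos _))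
  exact (h 1).trans (h 2)

theorem LFin_pow {A B : Subgroup G} (hB : B ≤ Nm A) {n : G} (hn : n ∈ B) {k : ℕ} (hk : n ^ k ∈ A) :
    ∃ k' ≤ A.relIndex B, k' ∣ k ∧ n ^ k' ∈ A := by
  have := normal_subgroupOf_of_le_normalizer hB
  let π := QuotientGroup.mk' (A.subgroupOf B)
  have h1 : ∀ j : ℕ, π ⟨n, hn⟩ ^ j = 1 ↔ n ^ j ∈ A := fun j => by
    rw [← map_pow]
    exact (QuotientGroup.eq_one_iff _).trans mem_subgroupOf
  exact ⟨orderOf (π ⟨n, hn⟩), orderOf_le_card, orderOf_dvd_of_pow_eq_one ((h1 k).2 hk),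
    (h1 _).1 (pow_orderOf_eq_one _)⟩

theorem LFin_unip {W : Subgroup G} {q v : G} {m N : ℕ} (hq : q ^ p ^ m = 1)
    (hW : ∀ v ∈ W, q * v * q⁻¹ ∈ W) (hc : Nat.card W ≤ p ^ N) (hv : v ∈ W) :
    q ^ p ^ N * v * (q ^ p ^ N)⁻¹ = v := by
  let f : G → G := fun a => q * a * q⁻¹
  have h1 : ∀ n, f^[n] v = q ^ n * v * (q ^ n)⁻¹ := fun n => by
    induction n with
    | zero => simp
    | succ n ih =>
      rw [Function.iterate_succ_apply', ih, pow_succ']
      simp only [f, mul_inv_rev, mul_assoc]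
  have h2 : ∀ n, f^[n] v ∈ W := fun n => by
    induction n with
    | zero => exact hv
    | succ n ih =>
      rw [Function.iterate_succ_apply']
      exact hW _ ih
  have h3 : Function.IsPeriodicPt f (p ^ m) v := by
    rw [Function.IsPeriodicPt, Function.IsFixedPt, h1, hq]
    simp
  obtain ⟨j, -, hj⟩ := (Nat.dvd_prime_pow hp.out).1 h3.minimalPeriod_dvd
  have h4 : Function.minimalPeriod f v ≤ Nat.card W := by
    have h5 : Function.Injective fun i : Fin (Function.minimalPeriod f v) =>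
        (⟨f^[i] v, h2 i⟩ : W) := fun i i' e =>
      Fin.ext (Function.iterate_injOn_Iio_minimalPeriod i.2 i'.2 (congrArg Subtype.val e))
    simpa using Nat.card_le_card_of_injective _ h5
  rw [hj] at h4
  have h6 : j ≤ N := (Nat.pow_le_pow_iff_right hp.out.one_lt).1 (h4.trans hc)
  have h7 : Function.IsPeriodicPt f (p ^ N) v :=
    Function.isPeriodicPt_iff_minimalPeriod_dvd.2 (hj ▸ pow_dvd_pow p h6)
  rwa [Function.IsPeriodicPt, Function.IsFixedPt, h1] at h7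

theorem LFin_FD {d n b : ℕ} {U : V → Subgroup G} {α α₁ α' : V} {u : G}
    (P : CP G Γ p d U n α α₁ α' u) (hP : HP G Γ p) (h3 : ∀ x, Kn G Γ 3 x ≤ QQ G Γ p x)
    (hb : 8 * b + 8 ≤ n) :
    Nonempty (FD p (2 * cb d 1 * (2 * d + 2 * cb d 3)) (cb d 3) d b G V) := by
  have c := P.c
  have he : ∀ (g : G) x k, ∀ v ∈ WW Γ U x k, g * v * g⁻¹ ∈ WW Γ U (g • x) k :=
    fun g x k v hv => by rw [← P.W_equi]; exact conj_mem_cj hv
  refine ⟨{ Γ := Γ, W := WW Γ U, Q := QQ G Γ p, o := α, finG := inferInstance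
            finV := inferInstance, deg := P.deg, adj := c.adj, nbr := c.has_nbr P.adj, sp := c.sp
            hp := ?_, mono := ?_, shift := ?_, equi := he, comm := ?_, pow := ?_, card := ?_
            cent := ?_, layer := ?_, Q_le := QQ_le_K, Q_conj := ?_, Q_adj := ?_, Q_idx := ?_
            Q_unip := ?_, fam := fun s hs => P.fam hb hs
            W_le := fun x k hk => (P.W_le_Q (Near.refl 0 x) (by omega)).trans
              ((QQ_le_K x).trans (Kn_le_St 1 x)) }⟩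
  · intro v N h1 h2 h4 a ha
    obtain ⟨k, hk, hak⟩ := hP v N h1 h2 h4 a ha
    obtain ⟨k', h5, h6, h7⟩ := LFin_pow (c.St_le_Nm_Kn 1 v) (h1 ha) hak
    exact ⟨k', h5.trans ((c.relIndex_Kn P.deg 1 v).trans (LFin_cb d)),
      Nat.Coprime.coprime_dvd_left h6 hk, h7⟩
  · intro x k
    exact iSup_le fun y => le_iSup (fun y : {y // Near Γ (k + 1) x y} => U y)
      ⟨y.1, y.2.mono (Nat.le_succ k)⟩
  · intro x y hxy k
    exact iSup_le fun z => le_iSup (fun z : {z // Near Γ (k + 1) y z} => U z)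
      ⟨z.1, ((Near.of_adj hxy.symm).trans z.2).mono (by omega)⟩
  · intro x k hk a ha v hv
    exact mem_Cn.1 ((P.W_EA x (k := k) (by omega)).2 hv) a ha
  · intro x k hk a ha
    exact (P.W_EA x (k := k) (by omega)).1 a ha
  · intro x k hk
    exact P.W_card x (by omega)
  · intro x k g hg v hv
    have h1 : WW Γ U x k ≤ Cn (zpowers g) := by
      refine iSup_le fun y => le_Cn_comm.1 (zpowers_le.2 ?_)
      exact Cn_anti (P.le y) (QQ_le_Cn_YY _ (h3 _ (Kn_near y.2 (by rwa [add_comm]))))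
    rw [mem_Cn.1 (h1 hv) g (mem_zpowers g), mul_inv_cancel_right]
  · intro x k hk N h1 h2
    exact P.W_layer x (by omega) N h1 h2
  · intro g x q hq
    rw [← c.cj_QQ]
    exact conj_mem_cj hq
  · intro x y hxy q hq hK
    exact c.RR_inf_K hxy.symm ⟨(le_sup_right : QQ G Γ p x ≤ RR G Γ p y x) hq, hK⟩
  · intro x
    exact (relIndex_le_of_le_left (h3 x) (relIndex_pos _ _).ne').trans (c.relIndex_Kn P.deg 3 x)
  · intro x k hk q hq v hv
    obtain ⟨m, hm⟩ := QQ_pg (G := G) (Γ := Γ) (p := p) x ⟨q, hq⟩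
    refine LFin_unip (m := m) (by simpa using congrArg Subtype.val hm) (fun a ha => ?_)
      (P.W_card x (by omega)) hv
    have := he q x k a ha
    rwa [mem_St.1 (Kn_le_St 1 x (QQ_le_K x hq))] at this

/-- Either a short critical walk exists or there are finite data. Take `U` from `exists_U`. The
property `∀ x y, Near Γ n x y → U x ≤ QQ G Γ p y` holds for `n = 0` and fails for some `n` (otherwise
`U α` fixes all vertices, `faithful`, `conn`); take `n` for which it holds and fails for `n + 1`: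
`Near Γ (n + 1) α' α₀`, `u ∈ U α'`, `u ∉ QQ α₀`. Then `Near Γ n α' α₁`, `Γ.Adj α₁ α₀` (`near_succ'`),
`u ∈ QQ α₁`, and `u ∉ Kn 1 α₀` by `RR_inf_K`. If `n < 8 b + 8` take `x = α'`, `a = u`
(`U α' ≤ YY α' ≤ Cn (QQ α')`). Otherwise `CP` holds; put `W = WW Γ U`, `Q = QQ G Γ p`, `o = α₀`.
`hp`: replace `k` by the order of `n` modulo the normal subgroup `Kn 1 v` of `St G v`; it divides
`k` and is at most `cb d 1 ≤ cb d 3` (`relIndex_Kn`). `cent` and `Q_idx`: `Kn3_le`, `Kn_near`.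
`Q_adj`: `RR_inf_K`. `Q_unip`: the orbit of `v` under the `p`-group `zpowers q` lies in `W x k`,
its size is a power of `p`, at most `p ^ (c (k + 1))`. `nbr`: `has_nbr` (file `Amalgam2`) or `conn`. -/
theorem Ctx.exists_FD (c : Ctx G Γ) {d : ℕ} (hd : ∀ v, (Γ.neighborSet v).ncard ≤ d)
    (hP : HP G Γ p) {α β : V} (h : Γ.Adj α β) (h0 : QQ G Γ p α ⊓ QQ G Γ p β ≠ ⊥) (b : ℕ) :
    (∃ x u u', Near Γ (8 * b + 9) x u ∧ Γ.Adj u u' ∧ ∃ a ∈ Cn (QQ G Γ p x), a • u = u ∧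
      a • u' = u' ∧ a ∉ Kn G Γ 1 u) ∨
    Nonempty (FD p (2 * cb d 1 * (2 * d + 2 * cb d 3)) (cb d 3) d b G V) := by
  classical
  obtain ⟨U, h1, h2, h3, h4, h5⟩ := c.exists_U hd h h0
  have hz : ∀ x, U x ≤ QQ G Γ p x := fun x => (h2 x).trans (YY_le_QQ x)
  have hex : ∃ n, ¬ ∀ x y, Near Γ n x y → U x ≤ QQ G Γ p y := by
    by_contra hc
    push Not at hc
    refine h4 α (eq_bot_iff.2 fun a ha => mem_bot.2 (c.faithful a fun y => ?_))
    obtain ⟨w⟩ := c.conn α y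
    exact mem_St.1 (Kn_le_St 1 y (QQ_le_K y (hc w.length α y ⟨w, le_rfl⟩ ha)))
  have h6 := Nat.find_spec hex
  have h7 : ∀ m < Nat.find hex, ∀ x y, Near Γ m x y → U x ≤ QQ G Γ p y := fun m hm =>
    not_not.1 (Nat.find_min hex hm)
  generalize Nat.find hex = m at h6 h7
  obtain _ | n := m
  · exact absurd (fun x y hxy => near_zero hxy ▸ hz x) h6
  have h8 := h7 n (Nat.lt_succ_self n)
  push Not at h6
  obtain ⟨α', α₀, hn, hU⟩ := h6
  obtain ⟨u, hu, huQ⟩ := SetLike.not_le_iff_exists.1 hU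
  rcases near_succ' hn with rfl | ⟨α₁, hn1, hadj⟩
  · exact absurd (hz _ hu) huQ
  have hu1 : u ∈ QQ G Γ p α₁ := h8 _ _ hn1 hu
  have huK : u ∉ Kn G Γ 1 α₀ := fun hK =>
    huQ (c.RR_inf_K hadj.symm ⟨(le_sup_right : QQ G Γ p α₁ ≤ RR G Γ p α₀ α₁) hu1, hK⟩)
  by_cases hb : 8 * b + 8 ≤ n
  · exact Or.inr (LFin_FD ⟨c, hd, h1, h2, h3, h4, h5, h8, hadj.symm, hn1.symm, hu, huK⟩ hP
      (c.Kn3_le h h0) hb)
  · have hK := mem_K1.1 (QQ_le_K α₁ hu1)
    exact Or.inl ⟨α', α₀, α₁, hn.mono (by omega), hadj.symm, u, OZ_le_Cn _ (h2 α' hu),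
      hK.2 _ hadj, hK.1, huK⟩

end Pool.Agent.Lib.MP_bf45aa_co
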