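import Pool.Agent.Lib.MP_bf45aa_co.TW

set_option autoImplicit false
set_option linter.unusedSectionVars false

/-! Thompson subgroup, `Ω₁ Z`, and the basic `p`-local set-up. -/

namespace Pool.Agent.Lib.MP_bf45aa_co

open Subgroup
open scoped commutatorElement

section GroupPart

variable {G : Type*} [Group G]

/-- `Ω₁ (Z X)`. -/
def OZ (p : ℕ) (X : Subgroup G) : Subgroup G where
  carrier := {x | x ∈ X ∧ x ∈ Cn X ∧ x ^ p = 1}
  one_mem' := ⟨one_mem _, one_mem _, one_pow p⟩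
  mul_mem' := fun {a b} ha hb => ⟨mul_mem ha.1 hb.1, mul_mem ha.2.1 hb.2.1, by
    have : Commute a b := mem_Cn.1 hb.2.1 a ha.1
    rw [this.mul_pow, ha.2.2, hb.2.2, one_mul]⟩
  inv_mem' := fun {a} ha => ⟨inv_mem ha.1, inv_mem ha.2.1, by rw [inv_pow, ha.2.2, inv_one]⟩

/-- Elementary abelian subgroups of maximal order. -/
def AA (p : ℕ) (R : Subgroup G) : Set (Subgroup G) :=
  {A | A ≤ R ∧ EA p A ∧ ∀ A' ≤ R, EA p A' → Nat.card A' ≤ Nat.card A}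

/-- The Thompson subgroup. -/
def JJ (p : ℕ) (R : Subgroup G) : Subgroup G := sSup (AA p R)

variable {p : ℕ}

theorem mem_OZ {X : Subgroup G} {x : G} : x ∈ OZ p X ↔ x ∈ X ∧ x ∈ Cn X ∧ x ^ p = 1 := Iff.rfl

theorem OZ_le (X : Subgroup G) : OZ p X ≤ X := fun _ h => h.1

theorem OZ_le_Cn (X : Subgroup G) : OZ p X ≤ Cn X := fun _ h => h.2.1

theorem OZ_EA (X : Subgroup G) : EA p (OZ p X) :=
  ⟨fun _ h => h.2.2, (OZ_le_Cn X).trans (Cn_anti (OZ_le X))⟩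

theorem cj_OZ (g : G) (X : Subgroup G) : cj g (OZ p X) = OZ p (cj g X) := by
  refine cj_eq_of_le cj cj_inv_cj (OZ p) ?_ g X
  intro g X a ha
  exact ⟨cj_mono g (OZ_le X) ha, by rw [← cj_Cn]; exact cj_mono g (OZ_le_Cn X) ha,
    ((OZ_EA X).cj g).1 a ha⟩

theorem cj_mem_AA {R A : Subgroup G} (h : A ∈ AA p R) (g : G) : cj g A ∈ AA p (cj g R) := by
  refine ⟨cj_mono g h.1, h.2.1.cj g, fun A' h1 h2 => ?_⟩
  obtain ⟨A', rfl⟩ := exists_cj g A'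
  rw [card_cj, card_cj]
  exact h.2.2 A' (cj_le_cj.1 h1) h2.of_cj

theorem le_JJ {R A : Subgroup G} (h : A ∈ AA p R) : A ≤ JJ p R := le_sSup h

theorem JJ_le (R : Subgroup G) : JJ p R ≤ R := sSup_le fun _ h => h.1

theorem cj_JJ (g : G) (R : Subgroup G) : cj g (JJ p R) = JJ p (cj g R) := by
  refine cj_eq_of_le cj cj_inv_cj (JJ p) ?_ g R
  intro g R
  rw [JJ, cj_sSup]
  refine sSup_le ?_
  rintro _ ⟨A, hA, rfl⟩
  exact le_JJ (cj_mem_AA hA g)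

theorem EA_bot : EA p (⊥ : Subgroup G) :=
  ⟨fun a ha => by rw [mem_bot.1 ha, one_pow], bot_le⟩

theorem EA_zpowers {a : G} (h : a ^ p = 1) : EA p (zpowers a) := by
  refine ⟨?_, ?_⟩
  · rintro _ ⟨k, rfl⟩
    show (a ^ k) ^ p = 1
    rw [← zpow_natCast, ← zpow_mul, mul_comm, zpow_mul, zpow_natCast, h, one_zpow]
  · rintro _ ⟨k, rfl⟩
    rw [mem_Cn]
    rintro _ ⟨l, rfl⟩
    exact (Commute.zpow_zpow_self a l k)

variable [Finite G]

theorem AA_nonempty (R : Subgroup G) : ∃ A, A ∈ AA p R := by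
  obtain ⟨A, hA, hmax⟩ := Set.exists_max_image {A : Subgroup G | A ≤ R ∧ EA p A}
    (fun A => Nat.card A) (Set.toFinite _) ⟨⊥, bot_le, EA_bot⟩
  exact ⟨A, hA.1, hA.2, fun A' h1 h2 => hmax A' ⟨h1, h2⟩⟩

theorem AA_absorb {R A Y : Subgroup G} (hA : A ∈ AA p R) (hY : Y ≤ R) (hE : EA p Y)
    (hc : Y ≤ Cn A) : Y ≤ A := by
  have h1 : EA p (Y ⊔ A) := hE.sup hA.2.1 hc
  have h2 := hA.2.2 _ (sup_le hY hA.1) h1
  rw [eq_of_le_of_card_ge (le_sup_right : A ≤ Y ⊔ A) h2]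
  exact le_sup_left

theorem AA_sub {R Q A : Subgroup G} (hQ : Q ≤ R) (hA : A ∈ AA p R) (hAQ : A ≤ Q) :
    AA p Q ⊆ AA p R := fun _ h =>
  ⟨h.1.trans hQ, h.2.1, fun A' h1 h2 => (hA.2.2 A' h1 h2).trans (h.2.2 A hAQ hA.2.1)⟩

theorem JJ_eq_of_le {R Q : Subgroup G} (hQ : Q ≤ R) (h : JJ p R ≤ Q) : JJ p R = JJ p Q := by
  obtain ⟨A, hA⟩ := AA_nonempty (p := p) R
  refine le_antisymm (sSup_le fun A' h' => le_JJ ⟨(le_JJ h').trans h, h'.2.1,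
    fun A'' h1 h2 => h'.2.2 A'' (h1.trans hQ) h2⟩) ?_
  exact sSup_le_sSup (AA_sub hQ hA ((le_JJ hA).trans h))

theorem thompson_count {R Q A Y : Subgroup G} (hA : A ∈ AA p R) (hY : Y ≤ R)
    (hE : EA p Y) (hc : Y ≤ Cn (A ⊓ Q)) :
    (Cn A).relIndex Y ≤ Q.relIndex A ∧
      (Q.relIndex A ≤ (Cn A).relIndex Y → (A ⊓ Q) ⊔ Y ∈ AA p R) := by
  have h1 : EA p ((A ⊓ Q) ⊔ Y) := (hA.2.1.mono inf_le_left).sup hE (le_Cn_comm.1 hc)
  have hR : (A ⊓ Q) ⊔ Y ≤ R := sup_le (inf_le_left.trans hA.1) hY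
  have h2 := hA.2.2 _ hR h1
  have h3 := card_sup_mul_card_inf ((le_Cn_comm.1 hc).trans (Cn_le_Nm Y))
  have h4 := card_mul_relIndex Q A
  have h5 := card_mul_relIndex (Cn A) Y
  have h6 : Nat.card (Y ⊓ (A ⊓ Q) : Subgroup G) ≤ Nat.card (Cn A ⊓ Y : Subgroup G) :=
    card_le_of_le fun y hy => ⟨hA.2.1.2 hy.2.1, hy.1⟩
  rw [inf_comm Q A] at h4
  have ha : 0 < Nat.card (A ⊓ Q : Subgroup G) := Nat.card_pos
  have hc' : 0 < Nat.card (Cn A ⊓ Y : Subgroup G) := Nat.card_pos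
  generalize Nat.card (A ⊓ Q : Subgroup G) = a at *
  generalize Nat.card (Cn A ⊓ Y : Subgroup G) = c at *
  generalize Nat.card (Y ⊓ (A ⊓ Q) : Subgroup G) = t at *
  generalize Q.relIndex A = i at *
  generalize (Cn A).relIndex Y = j at *
  constructor
  · have h7 : a * c * j ≤ a * c * i := by
      calc a * c * j = Nat.card ((A ⊓ Q) ⊔ Y : Subgroup G) * t := by rw [h3, ← h5]; ring
        _ ≤ (a * i) * c := Nat.mul_le_mul (h2.trans h4.ge) h6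
        _ = a * c * i := by ring
    exact Nat.le_of_mul_le_mul_left h7 (Nat.mul_pos ha hc')
  · intro hij
    refine ⟨hR, h1, fun A' k1 k2 => (hA.2.2 A' k1 k2).trans ?_⟩
    have h7 : c * (a * i) ≤ c * Nat.card ((A ⊓ Q) ⊔ Y : Subgroup G) := by
      calc c * (a * i) ≤ c * (a * j) := Nat.mul_le_mul_left _ (Nat.mul_le_mul_left _ hij)
        _ = Nat.card ((A ⊓ Q) ⊔ Y : Subgroup G) * t := by rw [h3, ← h5]; ring
        _ ≤ _ := by rw [mul_comm c]; exact Nat.mul_le_mul_left _ h6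
    rw [← h4]
    exact Nat.le_of_mul_le_mul_left h7 hc'

variable [hp : Fact p.Prime]

theorem exists_pow_prime {X : Subgroup G} (hX : IsPGroup p X) {b : G} (hb : b ∈ X) (h1 : b ≠ 1) :
    ∃ n : ℕ, b ^ n ≠ 1 ∧ (b ^ n) ^ p = 1 := by
  classical
  have hex : ∃ k, b ^ p ^ k = 1 := by
    obtain ⟨k, hk⟩ := hX ⟨b, hb⟩
    exact ⟨k, by simpa using congrArg Subtype.val hk⟩
  have h2 := Nat.find_spec hex
  have h3 : ∀ m < Nat.find hex, b ^ p ^ m ≠ 1 := fun m hm => Nat.find_min hex hm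
  generalize Nat.find hex = k at h2 h3
  cases k with
  | zero => exact absurd (by simpa using h2) h1
  | succ k => exact ⟨p ^ k, h3 k (Nat.lt_succ_self k), by rw [← pow_mul, ← pow_succ, h2]⟩

theorem exists_central {R N : Subgroup G} (hR : IsPGroup p R) (hN : IsPGroup p N)
    (h : R ≤ Nm N) (h0 : N ≠ ⊥) : ∃ z ∈ N, z ≠ 1 ∧ z ∈ Cn R ∧ z ^ p = 1 := by
  let _ : MulAction R N := MulAction.compHom N (inclusion h)
  have hd : p ∣ Nat.card N := hN.card_eq_or_dvd.resolve_left fun h1 => h0 (card_eq_one.1 h1)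
  obtain ⟨b, hb, hb1⟩ := hR.exists_fixed_point_of_prime_dvd_card_of_fixed_point N hd (a := 1)
    (fun r => Subtype.ext (by
      show (r : G) * 1 * (r : G)⁻¹ = 1
      simp))
  have hc : (b : G) ∈ Cn R := by
    rw [mem_Cn]
    intro r hr
    have : r * (b : G) * r⁻¹ = b := congrArg Subtype.val (hb ⟨r, hr⟩)
    rw [← mul_inv_eq_iff_eq_mul]; exact this
  obtain ⟨n, h1, h2⟩ := exists_pow_prime hN b.2 fun e => hb1 (Subtype.ext e.symm)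
  exact ⟨_, pow_mem b.2 n, h1, pow_mem hc n, h2⟩

theorem JJ_ne_bot {R : Subgroup G} (hR : IsPGroup p R) (h0 : R ≠ ⊥) : JJ p R ≠ ⊥ := by
  obtain ⟨z, hz, h1, h2, h3⟩ := exists_central hR hR (le_Nm_self R) h0
  obtain ⟨A, hA⟩ := AA_nonempty (p := p) R
  have := AA_absorb hA (zpowers_le.2 hz) (EA_zpowers h3) (zpowers_le.2 (Cn_anti hA.1 h2))
  intro h
  exact h1 (mem_bot.1 (h ▸ le_JJ hA (this (mem_zpowers z))))

theorem le_relIndex_of_not_le {H X : Subgroup G} (hX : IsPGroup p X) (h : ¬ X ≤ H) :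
    p ≤ H.relIndex X := by
  obtain ⟨n, hn⟩ := hX.index (H.subgroupOf X)
  have h1 : H.relIndex X ≠ 1 := fun e => h (relIndex_eq_one.1 e)
  rw [relIndex, hn] at *
  exact Nat.le_self_pow (fun e => h1 (by rw [e, pow_zero])) p

end GroupPart

variable {V : Type*}

/-- The product of the two `p`-cores at an edge. -/
def RR (G : Type*) [Group G] [MulAction G V] (Γ : SimpleGraph V) (p : ℕ) (x y : V) : Subgroup G :=
  QQ G Γ p x ⊔ QQ G Γ p y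

/-- `Ω₁ Z (Q x)`. -/
def YY (G : Type*) [Group G] [MulAction G V] (Γ : SimpleGraph V) (p : ℕ) (x : V) : Subgroup G :=
  OZ p (QQ G Γ p x)

variable {G : Type*} [Group G] [MulAction G V] {Γ : SimpleGraph V} [Finite G] {p : ℕ}

theorem RR_symm (x y : V) : RR G Γ p x y = RR G Γ p y x := sup_comm _ _

theorem QQ_le_RR (x y : V) : QQ G Γ p x ≤ RR G Γ p x y := le_sup_left

theorem QQ_le_K (x : V) : QQ G Γ p x ≤ Kn G Γ 1 x := core_le _ _

theorem YY_le_QQ (x : V) : YY G Γ p x ≤ QQ G Γ p x := OZ_le _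

theorem QQ_le_Cn_YY (x : V) : QQ G Γ p x ≤ Cn (YY G Γ p x) := le_Cn_comm.1 (OZ_le_Cn _)

theorem YY_EA (x : V) : EA p (YY G Γ p x) := OZ_EA _

theorem Ctx.cj_RR (c : Ctx G Γ) (g : G) (x y : V) :
    cj g (RR G Γ p x y) = RR G Γ p (g • x) (g • y) := by
  rw [RR, cj_sup, c.cj_QQ, c.cj_QQ]; rfl

theorem Ctx.cj_YY (c : Ctx G Γ) (g : G) (x : V) : cj g (YY G Γ p x) = YY G Γ p (g • x) := by
  rw [YY, cj_OZ, c.cj_QQ]; rfl

theorem Ctx.St_le_Nm_QQ (c : Ctx G Γ) (x : V) : St G x ≤ Nm (QQ G Γ p x) :=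
  St_le_Nm_of_equi (c.cj_QQ p) x

theorem Ctx.St_le_Nm_YY (c : Ctx G Γ) (x : V) : St G x ≤ Nm (YY G Γ p x) :=
  St_le_Nm_of_equi c.cj_YY x

theorem RR_le_St {x y : V} (h : Γ.Adj x y) : RR G Γ p x y ≤ St G x :=
  sup_le ((QQ_le_K x).trans (Kn_le_St 1 x)) ((QQ_le_K y).trans (Kn_le_St_adj 0 h.symm))

theorem RR_le_St' {x y : V} (h : Γ.Adj x y) : RR G Γ p x y ≤ St G y := by
  rw [RR_symm]; exact RR_le_St h.symm

theorem Ctx.Nm_RR (c : Ctx G Γ) {x y : V} {g : G} (h1 : g • x = x) (h2 : g • y = y) :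
    g ∈ Nm (RR G Γ p x y) := by rw [mem_Nm_iff, c.cj_RR, h1, h2]

theorem tr_of_base {N : Subgroup G} {α β : V} (h : ∀ y, Γ.Adj α y → ∃ n ∈ N, n • β = y) :
    Tr Γ N α := by
  intro x y hx hy
  obtain ⟨a, ha, rfl⟩ := h x hx
  obtain ⟨b, hb, rfl⟩ := h y hy
  exact ⟨b * a⁻¹, mul_mem hb (inv_mem ha), by simp [mul_smul]⟩

variable [hp : Fact p.Prime]

theorem QQ_pg (x : V) : IsPGroup p (QQ G Γ p x) := isPi_iff_isPGroup.1 (isPi_core _ _)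

theorem Ctx.RR_pg (c : Ctx G Γ) {x y : V} (h : Γ.Adj x y) : IsPGroup p (RR G Γ p x y) :=
  (QQ_pg x).to_sup_of_normal_right' (QQ_pg y)
    ((QQ_le_K x).trans ((Kn_le_St_adj 0 h).trans (c.St_le_Nm_QQ y)))

theorem Ctx.RR_inf_K (c : Ctx G Γ) {x y : V} (h : Γ.Adj x y) :
    RR G Γ p x y ⊓ Kn G Γ 1 x ≤ QQ G Γ p x :=
  le_core inf_le_right
    (fun _ hg => Nm_inf (c.Nm_RR (Kn_le_St 1 x hg) (Kn_le_St_adj 0 h hg)) (le_Nm_self _ hg))
    (isPi_iff_isPGroup.2 (c.RR_pg h).to_inf_left)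

theorem Ctx.exists_z (c : Ctx G Γ) {α β : V} (h : Γ.Adj α β)
    (h0 : QQ G Γ p α ⊓ QQ G Γ p β ≠ ⊥) : ∃ z, z ≠ 1 ∧ z ∈ YY G Γ p α ∧ z ∈ YY G Γ p β := by
  obtain ⟨z, hz, h1, h2, h3⟩ := exists_central (c.RR_pg h) (QQ_pg α).to_inf_left
    (fun g hg => Nm_inf (c.St_le_Nm_QQ α (RR_le_St h hg)) (c.St_le_Nm_QQ β (RR_le_St' h hg))) h0
  exact ⟨z, h1, ⟨hz.1, Cn_anti le_sup_left h2, h3⟩, ⟨hz.2, Cn_anti le_sup_right h2, h3⟩⟩

theorem Ctx.CY_intr (c : Ctx G Γ) {α β : V} (h : Γ.Adj α β)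
    (h0 : QQ G Γ p α ⊓ QQ G Γ p β ≠ ⊥) : ¬ Tr Γ (Cn (YY G Γ p α) ⊓ St G α) α := by
  intro t
  obtain ⟨z, h1, h2, h3⟩ := c.exists_z h h0
  have := c.kill0 c.cj_YY h t h (Z := zpowers z) (zpowers_le.2 h2) (zpowers_le.2 h3)
    (zpowers_le.2 (Kn_le_St 1 α (QQ_le_K α (YY_le_QQ α h2))))
    (zpowers_le.2 (Kn_le_St 1 β (QQ_le_K β (YY_le_QQ β h3))))
  exact h1 (zpowers_eq_bot.1 this)

theorem Ctx.exists_AA (c : Ctx G Γ) {α β : V} (h : Γ.Adj α β)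
    (h0 : QQ G Γ p α ⊓ QQ G Γ p β ≠ ⊥) : ∃ A ∈ AA p (RR G Γ p α β), ¬ A ≤ QQ G Γ p α := by
  by_contra hc
  push Not at hc
  have h1 : JJ p (RR G Γ p α β) = JJ p (QQ G Γ p α) := JJ_eq_of_le le_sup_left (sSup_le hc)
  obtain ⟨g, g1, g2⟩ := c.arc h h.symm
  have h2 := congrArg (cj g) h1
  rw [cj_JJ, cj_JJ, c.cj_RR, c.cj_QQ, g1, g2, RR_symm] at h2
  have hE : ∀ (g : G) x, cj g (JJ p (QQ G Γ p x)) = JJ p (QQ G Γ p (g • x)) := by
    intro g x; rw [cj_JJ, c.cj_QQ]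
  have h3 := c.L0 h ((JJ_le (p := p) _).trans (RR_le_St h)) ((JJ_le _).trans (RR_le_St' h))
    ((c.tr_St α).mono (le_inf (by rw [h1]; exact St_le_Nm_of_equi hE α) le_rfl))
    ((c.tr_St β).mono (le_inf (by rw [h2]; exact St_le_Nm_of_equi hE β) le_rfl))
  refine JJ_ne_bot (c.RR_pg h) (fun e => h0 ?_) h3
  exact eq_bot_iff.2 ((inf_le_left.trans le_sup_left).trans e.le)

/-- The join of a family over the neighbours. -/
def JN (Γ : SimpleGraph V) (S : V → Subgroup G) (α : V) : Subgroup G :=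
  sSup {X | ∃ y, Γ.Adj α y ∧ X = S y}

theorem le_JN {S : V → Subgroup G} {α y : V} (h : Γ.Adj α y) : S y ≤ JN Γ S α :=
  le_sSup ⟨y, h, rfl⟩

theorem JN_le {S : V → Subgroup G} {α : V} {X : Subgroup G} (h : ∀ y, Γ.Adj α y → S y ≤ X) :
    JN Γ S α ≤ X := sSup_le (by rintro _ ⟨y, hy, rfl⟩; exact h y hy)

theorem Ctx.Nm_JN (c : Ctx G Γ) {S : V → Subgroup G} {α : V}
    (hS : ∀ g ∈ St G α, ∀ y, cj g (S y) = S (g • y)) : St G α ≤ Nm (JN Γ S α) := by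
  refine le_Nm_of_cj_le fun g hg => ?_
  rw [JN, cj_sSup]
  refine sSup_le ?_
  rintro _ ⟨_, ⟨y, hy, rfl⟩, rfl⟩
  rw [hS g hg]
  exact le_JN (c.adj_St hg hy)

theorem PF {S : V → Subgroup G} {α β : V} (h : Γ.Adj α β)
    (hS : ∀ g ∈ St G α, ∀ y, cj g (S y) = S (g • y)) (hD : JN Γ S α ≤ St G α)
    (hβ : S β ≤ St G β) (t : Tr Γ (JN Γ S α) α) {C : Subgroup G} (hC : St G α ≤ Nm C)
    (hpg : ∀ d ∈ JN Γ S α, ∃ k, d ^ p ^ k ∈ C) : Tr Γ C α := by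
  set D := JN Γ S α
  have : (C.subgroupOf D).Normal := normal_subgroupOf_of_le_normalizer (hD.trans hC)
  let π := QuotientGroup.mk' (C.subgroupOf D)
  have hP : IsPGroup p (D ⧸ C.subgroupOf D) := by
    intro q
    obtain ⟨d, rfl⟩ := QuotientGroup.mk'_surjective _ q
    obtain ⟨k, hk⟩ := hpg d d.2
    exact ⟨k, by rw [← map_pow]; exact (QuotientGroup.eq_one_iff _).2 hk⟩
  have := hP.isNilpotent
  have htop : ((S β).subgroupOf D).map π = ⊤ := by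
    rcases eq_top_or_exists_le_coatom (((S β).subgroupOf D).map π) with h1 | ⟨M, hM, h1⟩
    · exact h1
    · exfalso
      have hn : M.Normal := NormalizerCondition.normal_of_coatom M
        Group.normalizerCondition_of_isNilpotent hM
      have h2 : D ≤ (M.comap π).map D.subtype := by
        refine JN_le fun y hy => ?_
        obtain ⟨d, hd, rfl⟩ := t _ _ h hy
        rw [← hS d (hD hd)]
        intro a ha
        obtain ⟨s, hs, rfl⟩ := mem_cj'.1 ha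
        have hsD : s ∈ D := le_JN h hs
        refine ⟨⟨d, hd⟩ * ⟨s, hsD⟩ * ⟨d, hd⟩⁻¹, ?_, rfl⟩
        exact (hn.comap π).conj_mem _ (h1 ⟨⟨s, hsD⟩, hs, rfl⟩) _
      apply hM.1
      rw [eq_top_iff]
      intro q _
      obtain ⟨d, rfl⟩ := QuotientGroup.mk'_surjective _ q
      obtain ⟨d', h3, h4⟩ := h2 d.2
      rw [← Subtype.ext h4]; exact h3
  refine tr_of_base (β := β) fun y hy => ?_
  obtain ⟨d, hd, rfl⟩ := t _ _ h hy
  have h1 : π (⟨d, hd⟩⁻¹) ∈ ((S β).subgroupOf D).map π := htop ▸ mem_top _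
  obtain ⟨s, hs, h2⟩ := h1
  have h3 := QuotientGroup.eq.1 h2
  rw [mem_subgroupOf] at h3
  refine ⟨_, inv_mem h3, ?_⟩
  have h4 : (s : G) • β = β := hβ hs
  simp [mul_smul, h4]

end Pool.Agent.Lib.MP_bf45aa_co
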