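import Mathlib

set_option autoImplicit false

/-! Elementary matrices and achievable polynomials. -/

namespace Pool.Agent.Lib.MP_bf45aa_co

open Polynomial Module
open scoped MatrixGroups

/-- Upper elementary matrix. -/
def xU {R : Type*} [CommRing R] (b : R) : SL(2, R) := ⟨!![1, b; 0, 1], by simp [Matrix.det_fin_two]⟩

/-- Lower elementary matrix. -/
def yL {R : Type*} [CommRing R] (b : R) : SL(2, R) := ⟨!![1, 0; b, 1], by simp [Matrix.det_fin_two]⟩

/-- The group generated by `x(1)` and `y(T)`. -/
noncomputable def GG (p : ℕ) : Subgroup SL(2, (ZMod p)[X]) := Subgroup.closure {xU 1, yL X}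

/-- The polynomials `-c ^ 2`, `c` a lower left entry. -/
def Ach (p : ℕ) (φ : (ZMod p)[X]) : Prop := ∃ m ∈ GG p, φ = -(m 1 0) ^ 2

/-- Compositions of achievable polynomials. -/
inductive AchS (p : ℕ) : (ZMod p)[X] → Prop
  | base : AchS p X
  | step {φ ψ : (ZMod p)[X]} : AchS p φ → Ach p ψ → AchS p (ψ.comp φ)

/-- The central element of a quadratic pair. -/
def tau {A : Type*} [Ring A] (x y : A) : A := x * y + y * x

/-- A power of `a` maps `A` into `A'`. -/
def NilOn {F V : Type*} [Field F] [AddCommGroup V] [Module F V] (a : End F V)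
    (A A' : Submodule F V) : Prop := ∃ n : ℕ, ∀ v ∈ A, (a ^ n) v ∈ A'

end Pool.Agent.Lib.MP_bf45aa_co
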