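import Pool.Agent.Lib.MP_bf45aa_co.LPoly0

set_option autoImplicit false

/-! Unipotent filtrations. -/

namespace Pool.Agent.Lib.MP_bf45aa_co

open Polynomial Module

variable {p : ℕ} [Fact p.Prime] {V : Type*} [AddCommGroup V] [Module (ZMod p) V]

/-- A group acting on a non-zero finite module by operators of `p`-power order fixes a non-zero
linear functional. -/
theorem LPoly_fixed_dual {G N : Type*} [Group G] [AddCommGroup N] [Module (ZMod p) N]
    [Module.Finite (ZMod p) N] [Nontrivial N] (r : G →* End (ZMod p) N)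
    (hu : ∀ g : G, ∃ n : ℕ, r (g ^ p ^ n) = 1) :
    ∃ f : Dual (ZMod p) N, f ≠ 0 ∧ ∀ g v, f (r g v) = f v := by
  classical
  let act : MulAction G (Dual (ZMod p) N) :=
    { smul := fun g f => f ∘ₗ r g⁻¹
      one_smul := fun f => by
        change f ∘ₗ r 1⁻¹ = f
        rw [inv_one, map_one]
        rfl
      mul_smul := fun g h f => by
        change f ∘ₗ r (g * h)⁻¹ = (f ∘ₗ r h⁻¹) ∘ₗ r g⁻¹
        rw [mul_inv_rev, map_mul]
        rfl }
  have hsm : ∀ (g : G) (f : Dual (ZMod p) N), g • f = f ∘ₗ r g⁻¹ := fun _ _ => rfl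
  have : Finite (Dual (ZMod p) N) := Module.finite_of_finite (ZMod p)
  let φ : G →* Equiv.Perm (Dual (ZMod p) N) := MulAction.toPermHom G (Dual (ZMod p) N)
  have hP : IsPGroup p φ.range := by
    rintro ⟨_, g, rfl⟩
    obtain ⟨n, hn⟩ := hu g⁻¹
    refine ⟨n, Subtype.ext ?_⟩
    change φ g ^ p ^ n = 1
    rw [← map_pow]
    ext1 f
    change (g ^ p ^ n) • f = f
    rw [hsm, ← inv_pow, hn]
    rfl
  have hc : p ∣ Nat.card (Dual (ZMod p) N) := by
    rw [Module.natCard_eq_pow_finrank (K := ZMod p), Nat.card_zmod, Subspace.dual_finrank_eq]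
    exact dvd_pow_self p (Module.finrank_pos (R := ZMod p) (M := N)).ne'
  have h0 : (0 : Dual (ZMod p) N) ∈ MulAction.fixedPoints φ.range (Dual (ZMod p) N) := by
    rintro ⟨_, g, rfl⟩
    change g • (0 : Dual (ZMod p) N) = 0
    rw [hsm]
    rfl
  obtain ⟨f, hf, hne⟩ := hP.exists_fixed_point_of_prime_dvd_card_of_fixed_point _ hc h0
  refine ⟨f, hne.symm, fun g v => ?_⟩
  have h1 : g⁻¹ • f = f := hf ⟨φ g⁻¹, g⁻¹, rfl⟩
  rw [hsm, inv_inv] at h1
  exact LinearMap.congr_fun h1 v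

/-- The commutator of a subspace with `Q`. -/
def LPoly_comm {H : Type*} [Group H] (ρ : H →* End (ZMod p) V) (Q : Subgroup H)
    (N : Submodule (ZMod p) V) : Submodule (ZMod p) V :=
  Submodule.span (ZMod p) {w | ∃ q ∈ Q, ∃ v ∈ N, w = ρ q v - v}

theorem LPoly_comm_le {H : Type*} [Group H] (ρ : H →* End (ZMod p) V) (Q : Subgroup H)
    {N : Submodule (ZMod p) V} (hN : ∀ q ∈ Q, ∀ v ∈ N, ρ q v ∈ N) : LPoly_comm ρ Q N ≤ N := by
  refine Submodule.span_le.2 ?_
  rintro _ ⟨q, hq, v, hv, rfl⟩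
  exact N.sub_mem (hN q hq v hv) hv

theorem LPoly_comm_inv {H : Type*} [Group H] (ρ : H →* End (ZMod p) V) (S Q : Subgroup H)
    (hn : ∀ g ∈ S, ∀ q ∈ Q, g * q * g⁻¹ ∈ Q) {N : Submodule (ZMod p) V}
    (hN : ∀ g ∈ S, ∀ v ∈ N, ρ g v ∈ N) :
    ∀ g ∈ S, ∀ v ∈ LPoly_comm ρ Q N, ρ g v ∈ LPoly_comm ρ Q N := by
  intro g hg
  have : LPoly_comm ρ Q N ≤ (LPoly_comm ρ Q N).comap (ρ g) := by
    refine Submodule.span_le.2 ?_
    rintro _ ⟨q, hq, v, hv, rfl⟩
    refine Submodule.subset_span ⟨g * q * g⁻¹, hn g hg q hq, ρ g v, hN g hg v hv, ?_⟩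
    rw [map_sub, ← Module.End.mul_apply (ρ (g * q * g⁻¹)), ← map_mul, inv_mul_cancel_right,
      map_mul, Module.End.mul_apply]
  exact fun v hv => this hv

theorem LPoly_comm_lt {H : Type*} [Group H] (ρ : H →* End (ZMod p) V) (Q : Subgroup H)
    {N : Submodule (ZMod p) V} [Module.Finite (ZMod p) N] (hN : ∀ q ∈ Q, ∀ v ∈ N, ρ q v ∈ N)
    (hu : ∀ q ∈ Q, ∃ n : ℕ, ∀ v ∈ N, ρ (q ^ p ^ n) v = v) (hne : N ≠ ⊥) :
    LPoly_comm ρ Q N < N := by
  have : Nontrivial N := Submodule.nontrivial_iff_ne_bot.2 hne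
  let r : Q →* End (ZMod p) N :=
    { toFun := fun q => (ρ q).restrict (hN q q.2)
      map_one' := by
        ext v
        simp
      map_mul' := fun q q' => by
        ext v
        simp }
  have hr : ∀ (q : Q) (v : N), ((r q v : N) : V) = ρ q v := fun _ _ => rfl
  obtain ⟨f, hf, hfix⟩ := LPoly_fixed_dual r (fun q => by
    obtain ⟨n, hn⟩ := hu q q.2
    refine ⟨n, ?_⟩
    ext v
    rw [hr]
    simpa using hn v v.2)
  refine lt_of_le_of_ne (LPoly_comm_le ρ Q hN) fun he => hf ?_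
  have hle : LPoly_comm ρ Q N ≤ (LinearMap.ker f).map N.subtype := by
    refine Submodule.span_le.2 ?_
    rintro _ ⟨q, hq, v, hv, rfl⟩
    refine ⟨r ⟨q, hq⟩ ⟨v, hv⟩ - ⟨v, hv⟩, ?_, rfl⟩
    change f _ = 0
    rw [map_sub, hfix, sub_self]
  ext v
  have hv : (v : V) ∈ LPoly_comm ρ Q N := he.symm ▸ v.2
  obtain ⟨w, hw, hwv⟩ := hle hv
  have : w = v := Subtype.ext hwv
  subst this
  exact hw

/-- A finite `p`-group of operators is unipotent: `A i` is the `i`-fold commutator of `A` with `Q`.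
The image of `Q` in the finite group of units of `End A` is a `p`-group `P`; if `A i ≠ ⊥` then
`A (i + 1) < A i` (a maximal proper `P`-invariant subspace `B` of `A i`: `P` has a non-zero fixed
vector on the quotient, `IsPGroup.exists_fixed_point_of_prime_dvd_card_of_fixed_point`, so acts
trivially on it). -/
theorem exists_filtration {H : Type*} [Group H] (ρ : H →* End (ZMod p) V) (S Q : Subgroup H)
    (hQ : Q ≤ S) (hn : ∀ g ∈ S, ∀ q ∈ Q, g * q * g⁻¹ ∈ Q) (M : Submodule (ZMod p) V)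
    [Module.Finite (ZMod p) M] (hM : ∀ g ∈ S, ∀ v ∈ M, ρ g v ∈ M)
    (hu : ∀ q ∈ Q, ∃ n : ℕ, ∀ v ∈ M, ρ (q ^ p ^ n) v = v) :
    ∃ (A : ℕ → Submodule (ZMod p) V) (l : ℕ), A 0 = M ∧ A l = ⊥ ∧ (∀ i, A (i + 1) ≤ A i) ∧
      (∀ i, ∀ g ∈ S, ∀ v ∈ A i, ρ g v ∈ A i) ∧ ∀ i, ∀ q ∈ Q, ∀ v ∈ A i, ρ q v - v ∈ A (i + 1) := by
  let A : ℕ → Submodule (ZMod p) V := fun i => (LPoly_comm ρ Q)^[i] M
  have hs : ∀ i, A (i + 1) = LPoly_comm ρ Q (A i) := fun i => Function.iterate_succ_apply' _ _ _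
  have hinv : ∀ i, ∀ g ∈ S, ∀ v ∈ A i, ρ g v ∈ A i := by
    intro i
    induction i with
    | zero => exact hM
    | succ i ih =>
      rw [hs]
      exact LPoly_comm_inv ρ S Q hn ih
  have hle : ∀ i, A (i + 1) ≤ A i := fun i => by
    rw [hs]
    exact LPoly_comm_le ρ Q fun q hq => hinv i q (hQ hq)
  have hM' : ∀ i, A i ≤ M := fun i => antitone_nat_of_succ_le hle (Nat.zero_le i)
  have hfin : ∀ i, Module.Finite (ZMod p) (A i) := fun i => Submodule.finiteDimensional_of_le (hM' i)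
  have hrk : ∀ i, A i = ⊥ ∨ finrank (ZMod p) (A i) + i ≤ finrank (ZMod p) M := by
    intro i
    induction i with
    | zero => exact Or.inr le_rfl
    | succ i ih =>
      by_cases h0 : A i = ⊥
      · exact Or.inl (le_bot_iff.1 (h0 ▸ hle i))
      · right
        have := hfin i
        have hlt : A (i + 1) < A i := by
          rw [hs]
          refine LPoly_comm_lt ρ Q (fun q hq => hinv i q (hQ hq)) (fun q hq => ?_) h0
          obtain ⟨n, hn⟩ := hu q hq
          exact ⟨n, fun v hv => hn v (hM' i hv)⟩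
        have h1 := Submodule.finrank_lt_finrank_of_lt hlt
        have h2 := ih.resolve_left h0
        omega
  refine ⟨A, finrank (ZMod p) M + 1, rfl, (hrk _).resolve_right (by omega), hle, hinv, ?_⟩
  intro i q hq v hv
  rw [hs]
  exact Submodule.subset_span ⟨q, hq, v, hv, rfl⟩

/-- If `a`, `a'` preserve all `A i` and `a' - a` lowers the filtration then so does
`a' ^ n - a ^ n`; hence `a' ^ n` maps `A i ≤ A 0` into `A (i + 1) ⊔ B`, and `a' ^ (n l)` maps
`A 0` into `B`. -/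
theorem NilOn.of_filtration {a a' : End (ZMod p) V} {A : ℕ → Submodule (ZMod p) V} {l : ℕ}
    {B : Submodule (ZMod p) V} (hl : A l = ⊥) (hle : ∀ i, A (i + 1) ≤ A i)
    (ha : ∀ i, ∀ v ∈ A i, a v ∈ A i) (hd : ∀ i, ∀ v ∈ A i, a' v - a v ∈ A (i + 1))
    (hB : ∀ v ∈ B, a' v ∈ B) (h : NilOn a (A 0) B) : NilOn a' (A 0) B := by
  obtain ⟨n, hn⟩ := h
  have ha' : ∀ i, ∀ v ∈ A i, a' v ∈ A i := fun i v hv => by
    have := (A i).add_mem (hle i (hd i v hv)) (ha i v hv)
    rwa [sub_add_cancel] at this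
  have hpa : ∀ i m, ∀ v ∈ A i, (a ^ m) v ∈ A i := fun i m v hv =>
    Module.End.pow_apply_mem_of_forall_mem m (ha i) v hv
  have hpB : ∀ m, ∀ v ∈ B, (a' ^ m) v ∈ B := fun m v hv =>
    Module.End.pow_apply_mem_of_forall_mem m hB v hv
  have hpd : ∀ i m, ∀ v ∈ A i, (a' ^ m) v - (a ^ m) v ∈ A (i + 1) := by
    intro i m
    induction m with
    | zero => intro v _; simp
    | succ m ih =>
      intro v hv
      have h1 := ha' (i + 1) _ (ih v hv)
      have h2 := hd i _ (hpa i m v hv)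
      have h3 := (A (i + 1)).add_mem h1 h2
      rw [map_sub, sub_add_sub_cancel] at h3
      rw [pow_succ', pow_succ', Module.End.mul_apply, Module.End.mul_apply]
      exact h3
  have h0 : ∀ i, A i ≤ A 0 := fun i => antitone_nat_of_succ_le hle (Nat.zero_le i)
  have key : ∀ i, ∀ v ∈ A 0, (a' ^ (n * i)) v ∈ A i ⊔ B := by
    intro i
    induction i with
    | zero => intro v hv; simpa using Submodule.mem_sup_left hv
    | succ i ih =>
      intro v hv
      obtain ⟨x, hx, y, hy, hxy⟩ := Submodule.mem_sup.1 (ih v hv)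
      rw [Nat.mul_succ, add_comm (n * i) n, pow_add, Module.End.mul_apply, ← hxy, map_add]
      refine Submodule.add_mem _ ?_ (Submodule.mem_sup_right (hpB n y hy))
      have h3 := Submodule.add_mem_sup (hpd i n x hx) (hn x (h0 i hx))
      rwa [sub_add_cancel] at h3
  refine ⟨n * l, fun v hv => ?_⟩
  have := key l v hv
  rwa [hl, bot_sup_eq] at this

end Pool.Agent.Lib.MP_bf45aa_co
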