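import Pool.Agent.Lib.MP_bf45aa_co.LPei
import Pool.Agent.Lib.MP_bf45aa_co.LPoly

set_option autoImplicit false
set_option linter.unusedSectionVars false

/-! Two consecutive Peirce-2 steps lose dimension. -/

namespace Pool.Agent.Lib.MP_bf45aa_co

open Subgroup Module Polynomial
open scoped MatrixGroups

section Aux

variable {F : Type*} [Field F]

theorem LP20_mul_inv (g : SL(2, F[X])) :
    (g : Matrix (Fin 2) (Fin 2) F[X]) * ((g⁻¹ : SL(2, F[X])) : Matrix (Fin 2) (Fin 2) F[X]) = 1 := by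
  rw [← Matrix.SpecialLinearGroup.coe_mul, mul_inv_cancel, Matrix.SpecialLinearGroup.coe_one]

theorem LP20_conj {h : SL(2, F[X])} {n : ℕ} {M : Matrix (Fin 2) (Fin 2) F[X]}
    (e : (h : Matrix (Fin 2) (Fin 2) F[X]) = 1 + (X ^ n : F[X]) • M) (g : SL(2, F[X])) :
    ((g * h * g⁻¹ : SL(2, F[X])) : Matrix (Fin 2) (Fin 2) F[X]) =
      1 + (X ^ n : F[X]) • ((g : Matrix (Fin 2) (Fin 2) F[X]) * M *
        ((g⁻¹ : SL(2, F[X])) : Matrix (Fin 2) (Fin 2) F[X])) := by
  rw [Matrix.SpecialLinearGroup.coe_mul, Matrix.SpecialLinearGroup.coe_mul, e, mul_add, add_mul,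
    mul_one, LP20_mul_inv, Matrix.mul_smul, Matrix.smul_mul]

theorem LP20_inv_zero {h : SL(2, F[X])} {n : ℕ} (hn : 1 ≤ n) {M : Matrix (Fin 2) (Fin 2) F[X]}
    (e : (h : Matrix (Fin 2) (Fin 2) F[X]) = 1 + (X ^ n : F[X]) • M) :
    (constantCoeff : F[X] →+* F).mapMatrix ((h⁻¹ : SL(2, F[X])) : Matrix (Fin 2) (Fin 2) F[X]) =
      1 := by
  have h1 : (constantCoeff : F[X] →+* F).mapMatrix (h : Matrix (Fin 2) (Fin 2) F[X]) = 1 := by
    rw [e, map_add, map_one, add_eq_left]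
    ext i j
    simp [coeff_X_pow, show 0 ≠ n by omega]
  have h2 := congrArg (constantCoeff : F[X] →+* F).mapMatrix (LP20_mul_inv h)
  rwa [map_mul, h1, one_mul, map_one] at h2

theorem LP20_comm {h k : SL(2, F[X])} {n : ℕ} {M E : Matrix (Fin 2) (Fin 2) F[X]}
    (e : (h : Matrix (Fin 2) (Fin 2) F[X]) = 1 + (X ^ n : F[X]) • M)
    (e' : (k : Matrix (Fin 2) (Fin 2) F[X]) = 1 + (X ^ 1 : F[X]) • E) :
    ((h * k * h⁻¹ * k⁻¹ : SL(2, F[X])) : Matrix (Fin 2) (Fin 2) F[X]) =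
      1 + (X ^ (n + 1) : F[X]) • ((M * E - E * M) *
        ((h⁻¹ : SL(2, F[X])) : Matrix (Fin 2) (Fin 2) F[X]) *
        ((k⁻¹ : SL(2, F[X])) : Matrix (Fin 2) (Fin 2) F[X])) := by
  have h1 : (h : Matrix (Fin 2) (Fin 2) F[X]) * k =
      (k : Matrix (Fin 2) (Fin 2) F[X]) * h + (X ^ (n + 1) : F[X]) • (M * E - E * M) := by
    rw [e, e']
    simp only [mul_add, add_mul, mul_one, one_mul, Matrix.mul_smul, Matrix.smul_mul, smul_smul,
      smul_sub, ← pow_add, add_comm 1 n]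
    abel
  simp only [Matrix.SpecialLinearGroup.coe_mul]
  rw [h1, add_mul, add_mul, mul_assoc (k : Matrix (Fin 2) (Fin 2) F[X]), LP20_mul_inv, mul_one,
    LP20_mul_inv, Matrix.smul_mul, Matrix.smul_mul]

theorem LP20_xU : ((xU X : SL(2, F[X])) : Matrix (Fin 2) (Fin 2) F[X]) =
    1 + (X ^ 1 : F[X]) • !![0, 1; 0, 0] := by
  ext i j
  fin_cases i <;> fin_cases j <;> simp [xU]

theorem LP20_yL : ((yL 1 : SL(2, F[X])) : Matrix (Fin 2) (Fin 2) F[X]) = !![1, 0; 1, 1] := rfl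

theorem LP20_yL_inv : (((yL 1)⁻¹ : SL(2, F[X])) : Matrix (Fin 2) (Fin 2) F[X]) =
    !![1, 0; -1, 1] := by
  rw [Matrix.SpecialLinearGroup.coe_inv, LP20_yL, Matrix.adjugate_fin_two_of]
  simp

end Aux

section Units

variable {F A : Type*} [Field F] [Ring A] [Algebra F A]

/-- Matrices over polynomials evaluated on a system of matrix units. -/
noncomputable def LP20_psi (t : A) (u : Fin 2 → Fin 2 → A) (m : Matrix (Fin 2) (Fin 2) F[X]) : A :=
  ∑ i, ∑ j, aeval t (m i j) * u i j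

theorem LP20_psi_mul {t : A} {u : Fin 2 → Fin 2 → A}
    (hu : ∀ i j k l, u i j * u k l = if j = k then u i l else 0) (ht : ∀ i j, Commute t (u i j))
    (m m' : Matrix (Fin 2) (Fin 2) F[X]) :
    LP20_psi t u (m * m') = LP20_psi t u m * LP20_psi t u m' := by
  have hc : ∀ (q : F[X]) i j, u i j * aeval t q = aeval t q * u i j := by
    intro q i j
    induction q using Polynomial.induction_on' with
    | add a b ha hb => rw [map_add, mul_add, add_mul, ha, hb]
    | monomial n c =>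
      rw [aeval_monomial, ← mul_assoc, ← Algebra.commutes, mul_assoc, mul_assoc,
        ((ht i j).pow_left n).eq]
  have h1 : ∀ (q q' : F[X]) i j k l, aeval t q * u i j * (aeval t q' * u k l) =
      if j = k then aeval t (q * q') * u i l else 0 := by
    intro q q' i j k l
    rw [mul_assoc, ← mul_assoc (u i j), hc, mul_assoc, hu, map_mul]
    split_ifs
    · rw [mul_assoc]
    · rw [mul_zero, mul_zero]
  simp only [LP20_psi, Matrix.mul_apply, Fin.sum_univ_two, add_mul, mul_add, h1, map_add]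
  simp only [Fin.isValue, if_true, zero_ne_one, one_ne_zero, if_false, add_zero, zero_add]
  abel

theorem LP20_psi_add (t : A) (u : Fin 2 → Fin 2 → A) (m m' : Matrix (Fin 2) (Fin 2) F[X]) :
    LP20_psi t u (m + m') = LP20_psi t u m + LP20_psi t u m' := by
  simp only [LP20_psi, Matrix.add_apply, map_add, add_mul, Finset.sum_add_distrib]

theorem LP20_psi_smul (t : A) (u : Fin 2 → Fin 2 → A) (q : F[X])
    (m : Matrix (Fin 2) (Fin 2) F[X]) : LP20_psi t u (q • m) = aeval t q * LP20_psi t u m := by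
  simp only [LP20_psi, Matrix.smul_apply, smul_eq_mul, map_mul, Finset.mul_sum, mul_assoc]

/-- The associated representation of the special linear group. -/
noncomputable def LP20_phi {t : A} {u : Fin 2 → Fin 2 → A}
    (hu : ∀ i j k l, u i j * u k l = if j = k then u i l else 0) (ht : ∀ i j, Commute t (u i j)) :
    SL(2, F[X]) →* A where
  toFun m := 1 - LP20_psi t u (1 : Matrix (Fin 2) (Fin 2) F[X]) +
    LP20_psi t u (m : Matrix (Fin 2) (Fin 2) F[X])
  map_one' := by rw [Matrix.SpecialLinearGroup.coe_one, sub_add_cancel]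
  map_mul' m m' := by
    have h1 := LP20_psi_mul hu ht (1 : Matrix (Fin 2) (Fin 2) F[X]) 1
    have h2 := LP20_psi_mul hu ht (m : Matrix (Fin 2) (Fin 2) F[X]) 1
    have h3 := LP20_psi_mul hu ht (1 : Matrix (Fin 2) (Fin 2) F[X]) m'
    rw [mul_one] at h1 h2
    rw [one_mul] at h3
    rw [Matrix.SpecialLinearGroup.coe_mul, LP20_psi_mul hu ht]
    simp only [mul_add, add_mul, mul_sub, sub_mul, mul_one, one_mul, ← h1, ← h2, ← h3]
    abel

theorem LP20_phi_apply {t : A} {u : Fin 2 → Fin 2 → A}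
    (hu : ∀ i j k l, u i j * u k l = if j = k then u i l else 0) (ht : ∀ i j, Commute t (u i j))
    {m : SL(2, F[X])} {q : F[X]} {M : Matrix (Fin 2) (Fin 2) F[X]}
    (e : (m : Matrix (Fin 2) (Fin 2) F[X]) = 1 + q • M) :
    LP20_phi hu ht m = 1 + aeval t q * LP20_psi t u M := by
  change 1 - LP20_psi t u (1 : Matrix (Fin 2) (Fin 2) F[X]) +
    LP20_psi t u (m : Matrix (Fin 2) (Fin 2) F[X]) = _
  rw [e, LP20_psi_add, LP20_psi_smul, ← add_assoc, sub_add_cancel]

theorem LP20_units {x η : A} (xx : x * x = 0) (sq : η * η = 0) (yxy : η * x * η = η) (i j k l : Fin 2) :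
    ![![x * η, x * η * x], ![η, η * x]] i j * ![![x * η, x * η * x], ![η, η * x]] k l =
      if j = k then ![![x * η, x * η * x], ![η, η * x]] i l else 0 := by
  have h1 : ∀ z, x * (x * z) = 0 := fun z => by rw [← mul_assoc, xx, zero_mul]
  have h2 : ∀ z, η * (η * z) = 0 := fun z => by rw [← mul_assoc, sq, zero_mul]
  have h3 : ∀ z, η * (x * (η * z)) = η * z := fun z => by rw [← mul_assoc, ← mul_assoc, yxy]
  have h4 : η * (x * η) = η := by rw [← mul_assoc, yxy]
  fin_cases i <;> fin_cases j <;> fin_cases k <;> fin_cases l <;>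
    simp [mul_assoc, h1, h2, h3, h4, sq]

end Units

/-- Congruence elements. `S` is a subgroup of `SL(2, F[X])` containing `xU X` and normalised by
`yL 1`. Induction: if `h = 1 + X ^ n M` then `h k - k h = X ^ (n + 1) (M E - E M)` for
`k = xU X = 1 + X E`, so the commutator is `1 + X ^ (n + 1) M'` with `M'(0) = M(0) E - E M(0)`
(keep as invariant that `M(0)` has trace zero, which also follows from `det h = 1`). With
`M(0) = !![α, β; γ, -α]`, `M'(0) = !![-γ, 2 α; 0, γ]`; conjugation by `yL 1` or its inverse gives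
lower left entry `-2 (γ + α)` or `2 (γ - α)`, and one of them is non-zero. -/
theorem exists_cong {F : Type*} [Field F] (h2 : (2 : F) ≠ 0) (S : Subgroup SL(2, F[X]))
    (hx : xU X ∈ S) (hy : ∀ m ∈ S, yL 1 * m * (yL 1)⁻¹ ∈ S)
    (hy' : ∀ m ∈ S, (yL 1)⁻¹ * m * yL 1 ∈ S) (n : ℕ) (hn : 1 ≤ n) :
    ∃ h ∈ S, ∃ M : Matrix (Fin 2) (Fin 2) F[X],
      (h : Matrix (Fin 2) (Fin 2) F[X]) = 1 + (X ^ n : F[X]) • M ∧ (M 1 0).coeff 0 ≠ 0 := by
  induction n, hn using Nat.le_induction with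
  | base =>
    refine ⟨_, hy _ hx, _, LP20_conj LP20_xU _, ?_⟩
    rw [LP20_yL, LP20_yL_inv]
    simp [Matrix.mul_apply, Fin.sum_univ_two]
  | succ n hn ih =>
    obtain ⟨h, hS, M, e, hM⟩ := ih
    have hc : h * xU X * h⁻¹ * (xU X)⁻¹ ∈ S :=
      mul_mem (mul_mem (mul_mem hS hx) (inv_mem hS)) (inv_mem hx)
    have e1 := LP20_comm e LP20_xU
    generalize hN : (M * !![0, 1; 0, 0] - !![0, 1; 0, 0] * M) *
      ((h⁻¹ : SL(2, F[X])) : Matrix (Fin 2) (Fin 2) F[X]) *
      (((xU X)⁻¹ : SL(2, F[X])) : Matrix (Fin 2) (Fin 2) F[X]) = N at e1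
    have e2 := congrArg (constantCoeff : F[X] →+* F).mapMatrix hN
    rw [map_mul, map_mul, LP20_inv_zero hn e, LP20_inv_zero le_rfl LP20_xU, mul_one, mul_one] at e2
    have a00 := congrFun (congrFun e2 0) 0
    have a01 := congrFun (congrFun e2 0) 1
    have a10 := congrFun (congrFun e2 1) 0
    have a11 := congrFun (congrFun e2 1) 1
    simp [Matrix.mul_apply, Fin.sum_univ_two, Matrix.vecMul, dotProduct] at a00 a01 a10 a11
    by_cases h0 : (N 0 0).coeff 0 + (N 1 0).coeff 0 - (N 0 1).coeff 0 - (N 1 1).coeff 0 = 0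
    · have h1 := hy' _ hc
      have e3 := LP20_conj e1 (yL 1)⁻¹
      rw [inv_inv] at e3
      refine ⟨_, h1, _, e3, ?_⟩
      rw [LP20_yL, LP20_yL_inv]
      intro h3
      simp [Matrix.mul_apply, Fin.sum_univ_two, Matrix.vecMul, dotProduct] at h3
      refine hM (mul_left_cancel₀ (mul_ne_zero h2 h2) ?_)
      linear_combination h3 - h0 - 2 * a00 + 2 * a11
    · refine ⟨_, hy _ hc, _, LP20_conj e1 _, ?_⟩
      rw [LP20_yL, LP20_yL_inv]
      intro h3
      simp [Matrix.mul_apply, Fin.sum_univ_two, Matrix.vecMul, dotProduct] at h3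
      exact h0 (by linear_combination h3)

namespace LD

variable {p : ℕ} [Fact p.Prime] {H X V : Type} [Group H] [MulAction H X] [AddCommGroup V]
  [Module (ZMod p) V] {D : LD p H X V}

namespace Partner

variable {w : X} {x η : End (ZMod p) V} (P : D.Partner w x η)
include P

/-- Put `e = x η`, `f = η x`, `x' = x η x`, `t = tau a η`. Then `t` commutes with `x'`, `η`, `e`,
`f`, and `x' t = a`. The map `ψ m = m₀₀(t) e + m₀₁(t) x' + m₁₀(t) η + m₁₁(t) f` is additive and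
multiplicative, so the `m ∈ SL(2, (ZMod p)[X])` with `1 - e - f + ψ m = ρ g` for some `g ∈ Q w`
form a subgroup `S` as in `exists_cong`. -/
theorem cong (hp : 5 ≤ p) {a : End (ZMod p) V} (ha : x * η * a * (η * x) = a)
    (hQ : ∃ g ∈ D.Q w, D.ρ g = 1 + a) (n : ℕ) (hn : 1 ≤ n) :
    ∃ h ∈ D.Q w, ∃ m₀ m₁ m₂ m₃ : (ZMod p)[X], m₂.coeff 0 ≠ 0 ∧
      D.ρ h = 1 + tau a η ^ n * (aeval (tau a η) m₀ * (x * η) + aeval (tau a η) m₁ * (x * η * x) +
        aeval (tau a η) m₂ * η + aeval (tau a η) m₃ * (η * x)) := by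
  have hu := LP20_units P.xx P.sq P.yxy
  have sq := P.sq
  have h1 : ∀ z, x * (x * z) = 0 := fun z => by rw [← mul_assoc, P.xx, zero_mul]
  have h2 : ∀ z, η * (η * z) = 0 := fun z => by rw [← mul_assoc, P.sq, zero_mul]
  have h3 : ∀ z, η * (x * (η * z)) = η * z := fun z => by rw [← mul_assoc, ← mul_assoc, P.yxy]
  have h4 : η * (x * η) = η := by rw [← mul_assoc, P.yxy]
  have c1 : tau a η * (x * η * x) = a := by
    rw [← ha]
    simp [tau, add_mul, mul_assoc, h1, h3, h4]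
  have c2 : x * η * x * tau a η = a := by
    rw [← ha]
    simp [tau, mul_add, mul_assoc, h1, h3, h4]
  have c3 : Commute (tau a η) (x * η * x) := c1.trans c2.symm
  have c4 : Commute (tau a η) η := by
    change tau a η * η = η * tau a η
    simp [tau, mul_add, add_mul, mul_assoc, h2, sq]
  have ht : ∀ i j, Commute (tau a η) (![![x * η, x * η * x], ![η, η * x]] i j) := by
    intro i j
    have c5 := c3.mul_right c4
    have c6 := c4.mul_right c3
    rw [mul_assoc (x * η), P.e_idem] at c5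
    rw [← mul_assoc, h4] at c6
    fin_cases i <;> fin_cases j
    exacts [c5, c3, c4, c6]
  have inv : ∀ (g : H) (m : SL(2, (ZMod p)[X])), D.ρ g = LP20_phi hu ht m →
      D.ρ g⁻¹ = LP20_phi hu ht m⁻¹ := by
    intro g m e
    have e1 : D.ρ g * LP20_phi hu ht m⁻¹ = 1 := by rw [e, ← map_mul, mul_inv_cancel, map_one]
    rw [← mul_one (D.ρ g⁻¹), ← e1, ← mul_assoc, D.ρ_inv_mul, one_mul]
  let S : Subgroup SL(2, (ZMod p)[X]) :=
    { carrier := {m | ∃ g ∈ D.Q w, D.ρ g = LP20_phi hu ht m}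
      one_mem' := ⟨1, one_mem _, by rw [map_one, map_one]⟩
      mul_mem' := fun ⟨g, hg, e⟩ ⟨g', hg', e'⟩ =>
        ⟨g * g', mul_mem hg hg', by rw [map_mul, map_mul, e, e']⟩
      inv_mem' := fun ⟨g, hg, e⟩ => ⟨g⁻¹, inv_mem hg, inv g _ e⟩ }
  have two : (2 : ZMod p) ≠ 0 := by
    intro e
    have e1 : p ∣ 2 := (ZMod.natCast_eq_zero_iff 2 p).1 (by exact_mod_cast e)
    have := Nat.le_of_dvd two_pos e1
    omega
  obtain ⟨g₁, hg₁, e₁⟩ := P.r1
  have ey : D.ρ g₁ = LP20_phi hu ht (yL 1 : SL(2, (ZMod p)[X])) := by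
    rw [e₁, LP20_phi_apply hu ht (q := 1) (M := !![0, 0; 1, 0])]
    · simp [LP20_psi, Fin.sum_univ_two]
    · rw [LP20_yL]
      ext i j
      fin_cases i <;> fin_cases j <;> simp
  have hx : xU Polynomial.X ∈ S := by
    obtain ⟨g, hg, e⟩ := hQ
    refine ⟨g, hg, ?_⟩
    rw [e, LP20_phi_apply hu ht LP20_xU]
    simp [LP20_psi, Fin.sum_univ_two, c1]
  obtain ⟨h, ⟨g, hg, e⟩, M, eM, hM⟩ := exists_cong two S hx
    (fun m ⟨g, hg, e⟩ => ⟨_, D.Q_conj_St hg₁ hg, by
      rw [map_mul, map_mul, map_mul, map_mul, inv _ _ ey, ey, e]⟩)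
    (fun m ⟨g, hg, e⟩ => ⟨_, D.Q_conj_St (inv_mem hg₁) hg, by
      rw [inv_inv, map_mul, map_mul, map_mul, map_mul, inv _ _ ey, ey, e]⟩) n hn
  refine ⟨g, hg, M 0 0, M 0 1, M 1 0, M 1 1, hM, ?_⟩
  rw [e, LP20_phi_apply hu ht eM]
  simp [LP20_psi, Fin.sum_univ_two, add_assoc]

end Partner

end LD

end Pool.Agent.Lib.MP_bf45aa_co
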