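import Pool.Agent.Lib.MP_bf45aa_co.LQuad0

set_option autoImplicit false

/-! Realising the partner. -/

namespace Pool.Agent.Lib.MP_bf45aa_co

open Polynomial Subgroup
open scoped MatrixGroups

variable {p : ℕ} [Fact p.Prime] {G A : Type*} [Group G] [Ring A] [Algebra (ZMod p) A]

/-- The elements `a t + b x + c y + d x y` with coefficients commuting with `x`, `y`. -/
def LQuad_I {A : Type*} [Ring A] (x y ν : A) : Prop :=
  ∃ a ∈ Subring.centralizer ({x, y} : Set A), ∃ b ∈ Subring.centralizer ({x, y} : Set A),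
    ∃ c ∈ Subring.centralizer ({x, y} : Set A), ∃ d ∈ Subring.centralizer ({x, y} : Set A),
      ν = a * tau x y + b * x + c * y + d * (x * y)

theorem LQuad_cx {A : Type*} [Ring A] {x y a : A} (ha : a ∈ Subring.centralizer ({x, y} : Set A)) :
    x * a = a * x := Subring.mem_centralizer_iff.1 ha x (by simp)

theorem LQuad_cy {A : Type*} [Ring A] {x y a : A} (ha : a ∈ Subring.centralizer ({x, y} : Set A)) :
    y * a = a * y := Subring.mem_centralizer_iff.1 ha y (by simp)

theorem LQuad_cx' {A : Type*} [Ring A] {x y a : A} (ha : a ∈ Subring.centralizer ({x, y} : Set A))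
    (z : A) : x * (a * z) = a * (x * z) := by rw [← mul_assoc, LQuad_cx ha, mul_assoc]

theorem LQuad_cy' {A : Type*} [Ring A] {x y a : A} (ha : a ∈ Subring.centralizer ({x, y} : Set A))
    (z : A) : y * (a * z) = a * (y * z) := by rw [← mul_assoc, LQuad_cy ha, mul_assoc]

theorem LQuad_sq' {A : Type*} [Ring A] {x : A} (hx : x * x = 0) (z : A) : x * (x * z) = 0 := by
  rw [← mul_assoc, hx, zero_mul]

theorem LQuad_tau_mem {A : Type*} [Ring A] {x y : A} (hx : x * x = 0) (hy : y * y = 0) :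
    tau x y ∈ Subring.centralizer ({x, y} : Set A) := by
  refine Subring.mem_centralizer_iff.2 ?_
  rintro g (rfl | rfl) <;>
  simp only [tau, mul_add, add_mul, mul_assoc, hx, hy, LQuad_sq' hx, LQuad_sq' hy, mul_zero,
    add_zero, zero_add]

theorem LQuad_I_add {A : Type*} [Ring A] {x y ν μ : A} (h : LQuad_I x y ν) (h' : LQuad_I x y μ) :
    LQuad_I x y (ν + μ) := by
  obtain ⟨a, ha, b, hb, c, hc, d, hd, rfl⟩ := h
  obtain ⟨a', ha', b', hb', c', hc', d', hd', rfl⟩ := h'
  refine ⟨a + a', add_mem ha ha', b + b', add_mem hb hb', c + c', add_mem hc hc', d + d',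
    add_mem hd hd', ?_⟩
  simp only [add_mul]; abel

theorem LQuad_I_mul {A : Type*} [Ring A] {x y ν μ : A} (hx : x * x = 0) (hy : y * y = 0)
    (h : LQuad_I x y ν) (h' : LQuad_I x y μ) : LQuad_I x y (ν * μ) := by
  obtain ⟨a, ha, b, hb, c, hc, d, hd, rfl⟩ := h
  obtain ⟨a', ha', b', hb', c', hc', d', hd', rfl⟩ := h'
  have ht := LQuad_tau_mem hx hy
  refine ⟨a * a' * tau x y + c * b', ?_, (a * b' + b * a' + d * b') * tau x y, ?_,
    (a * c' + c * a' + c * d') * tau x y, ?_,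
    (a * d' + d * a' + d * d') * tau x y + b * c' - c * b', ?_, ?_⟩
  · exact add_mem (mul_mem (mul_mem ha ha') ht) (mul_mem hc hb')
  · exact mul_mem (add_mem (add_mem (mul_mem ha hb') (mul_mem hb ha')) (mul_mem hd hb')) ht
  · exact mul_mem (add_mem (add_mem (mul_mem ha hc') (mul_mem hc ha')) (mul_mem hc hd')) ht
  · exact sub_mem (add_mem (mul_mem (add_mem (add_mem (mul_mem ha hd') (mul_mem hd ha'))
      (mul_mem hd hd')) ht) (mul_mem hb hc')) (mul_mem hc hb')
  · simp only [tau, mul_add, add_mul, sub_mul, mul_assoc, hx, hy, LQuad_sq' hx, LQuad_sq' hy,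
      mul_zero, add_zero, zero_add, LQuad_cx' ha', LQuad_cx' hb', LQuad_cx' hc', LQuad_cx' hd',
      LQuad_cy' ha', LQuad_cy' hb', LQuad_cy' hc', LQuad_cy' hd']
    abel

theorem LQuad_I_nil {A : Type*} [Ring A] {x y ν : A} (hx : x * x = 0) (hy : y * y = 0)
    (ht : IsNilpotent (tau x y)) (h : LQuad_I x y ν) : IsNilpotent ν := by
  obtain ⟨a, ha, b, hb, c, hc, d, hd, hν⟩ := h
  have hm := LQuad_tau_mem hx hy
  have cz : ∀ z ∈ Subring.centralizer ({x, y} : Set A), Commute (tau x y) z := fun z hz => by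
    have h1 : Commute x z := LQuad_cx hz
    have h2 : Commute y z := LQuad_cy hz
    exact (h1.mul_left h2).add_left (h2.mul_left h1)
  have cx : Commute (tau x y) x := (LQuad_cx hm).symm
  have cy : Commute (tau x y) y := (LQuad_cy hm).symm
  have ca := cz a ha
  have cb := cz b hb
  have cc := cz c hc
  have cd := cz d hd
  have ct := Commute.refl (tau x y)
  have cν : Commute (tau x y) ν := by
    rw [hν]
    exact (((ca.mul_right ct).add_right (cb.mul_right cx)).add_right (cc.mul_right cy)).add_right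
      (cd.mul_right (cx.mul_right cy))
  set w : A := (a * a * tau x y + c * b) + (a * b + b * a + d * b) * x + (a * c + c * a + c * d) * y
    + (a * d + d * a + d * d) * (x * y) with hw
  have cw : Commute (tau x y) w := by
    rw [hw]
    exact (((((ca.mul_right ca).mul_right ct).add_right (cc.mul_right cb)).add_right
      ((((ca.mul_right cb).add_right (cb.mul_right ca)).add_right (cd.mul_right cb)).mul_right
        cx)).add_right
      ((((ca.mul_right cc).add_right (cc.mul_right ca)).add_right (cc.mul_right cd)).mul_right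
        cy)).add_right
      ((((ca.mul_right cd).add_right (cd.mul_right ca)).add_right (cd.mul_right cd)).mul_right
        (cx.mul_right cy))
  have h2 : ν * ν = w * tau x y + (b * c - c * b) * (x * y) := by
    rw [hw, hν]
    simp only [tau, mul_add, add_mul, sub_mul, mul_assoc, hx, hy, LQuad_sq' hx, LQuad_sq' hy,
      mul_zero, add_zero, zero_add, LQuad_cx' ha, LQuad_cx' hb, LQuad_cx' hc, LQuad_cx' hd,
      LQuad_cy' ha, LQuad_cy' hb, LQuad_cy' hc, LQuad_cy' hd]
    abel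
  have h3 : x * y * ν = (a * (x * y) + b * x + d * (x * y)) * tau x y := by
    rw [hν]
    simp only [tau, mul_add, add_mul, mul_assoc, hy, LQuad_sq' hx, LQuad_sq' hy,
      mul_zero, add_zero, zero_add, LQuad_cx' ha, LQuad_cx' hb, LQuad_cx' hd,
      LQuad_cy' ha, LQuad_cy' hb, LQuad_cy' hc, LQuad_cy' hd]
    abel
  set z : A := w * ν + (b * c - c * b) * (a * (x * y) + b * x + d * (x * y)) with hz
  have czz : Commute (tau x y) z := by
    rw [hz]
    exact (cw.mul_right cν).add_right (((cb.mul_right cc).sub_right (cc.mul_right cb)).mul_right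
      (((ca.mul_right (cx.mul_right cy)).add_right (cb.mul_right cx)).add_right
        (cd.mul_right (cx.mul_right cy))))
  have h4 : ν ^ 3 = z * tau x y := by
    clear_value w
    rw [pow_succ, pow_two, h2, add_mul, mul_assoc (b * c - c * b), h3, mul_assoc w, cν.eq, hz,
      add_mul (w * ν), mul_assoc w, mul_assoc (b * c - c * b)]
  exact IsNilpotent.of_pow (h4 ▸ czz.symm.isNilpotent_mul_left ht)

theorem LQuad_inv (ρ : G →* A) {u : G} (hu : (ρ u - 1) * (ρ u - 1) = 0) :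
    ρ u⁻¹ = 1 - (ρ u - 1) := by
  have h1 : ρ u * (1 - (ρ u - 1)) = 1 := by
    have : ρ u * (1 - (ρ u - 1)) = 1 - (ρ u - 1) * (ρ u - 1) := by noncomm_ring
    rw [this, hu, sub_zero]
  calc ρ u⁻¹ = ρ u⁻¹ * (ρ u * (1 - (ρ u - 1))) := by rw [h1, mul_one]
    _ = _ := by rw [← mul_assoc, ← map_mul, inv_mul_cancel, map_one, one_mul]

theorem LQuad_pow {x : A} (hx : x * x = 0) (n : ℕ) : (1 + x) ^ n = 1 + (n : ZMod p) • x := by
  induction n with
  | zero => simp
  | succ n ih =>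
    rw [pow_succ, ih, Nat.cast_succ, add_smul, one_smul, add_mul, one_mul, mul_add, mul_one,
      smul_mul_assoc, hx, smul_zero]
    abel

/-- The elements `a t + b x + c y + d x y` (`a b c d` polynomials in `t`) form a set `I` closed
under sums and products, `1 + I` contains `ρ g` for `g ∈ closure {u, u'}`, and `ν ∈ I` has
`ν ^ 3 ∈ t A'` with `A'` commuting with `t`; so `ν` is nilpotent and
`(1 + ν) ^ p ^ n = 1 + ν ^ p ^ n = 1`. (If `A` is trivial there is nothing to prove, otherwise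
`CharP A p`.) -/
theorem quad_pgroup (ρ : G →* A) {u u' : G} (hu : (ρ u - 1) * (ρ u - 1) = 0)
    (hu' : (ρ u' - 1) * (ρ u' - 1) = 0) (h : IsNilpotent (tau (ρ u - 1) (ρ u' - 1))) :
    ∀ g ∈ closure {u, u'}, ∃ n : ℕ, ρ (g ^ p ^ n) = 1 := by
  intro g hg
  set x := ρ u - 1 with hxd
  set y := ρ u' - 1 with hyd
  have z0 : (0 : A) ∈ Subring.centralizer ({x, y} : Set A) := zero_mem _
  have z1 : (1 : A) ∈ Subring.centralizer ({x, y} : Set A) := one_mem _
  have key : LQuad_I x y (ρ g - 1) := by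
    induction hg using Subgroup.closure_induction'' with
    | mem g hg =>
      rcases hg with rfl | rfl
      · exact ⟨0, z0, 1, z1, 0, z0, 0, z0, by simp [hxd]⟩
      · exact ⟨0, z0, 0, z0, 1, z1, 0, z0, by simp [hyd]⟩
    | inv_mem g hg =>
      rcases hg with rfl | rfl
      · exact ⟨0, z0, -1, neg_mem z1, 0, z0, 0, z0, by rw [LQuad_inv ρ hu]; simp [hxd]⟩
      · exact ⟨0, z0, 0, z0, -1, neg_mem z1, 0, z0, by rw [LQuad_inv ρ hu']; simp [hyd]⟩
    | one => exact ⟨0, z0, 0, z0, 0, z0, 0, z0, by simp⟩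
    | mul a b _ _ ha hb =>
      have : ρ (a * b) - 1 = (ρ a - 1) + (ρ b - 1) + (ρ a - 1) * (ρ b - 1) := by
        rw [map_mul]; noncomm_ring
      rw [this]
      exact LQuad_I_add (LQuad_I_add ha hb) (LQuad_I_mul hu hu' ha hb)
  obtain ⟨n, hn⟩ := LQuad_I_nil hu hu' h key
  refine ⟨n, ?_⟩
  rcases subsingleton_or_nontrivial A with hA | hA
  · exact Subsingleton.elim _ _
  · have : CharP A p := charP_of_injective_algebraMap (algebraMap (ZMod p) A).injective p
    have h1 : ρ g = 1 + (ρ g - 1) := by abel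
    rw [map_pow, h1, add_pow_char_pow_of_commute p n (Commute.one_left _), one_pow,
      pow_eq_zero_of_le (Nat.lt_pow_self (Fact.out : p.Prime).one_lt).le hn, add_zero]

/-- The ring identities behind `quad_realise`. -/
theorem LQuad_ids {F : Type*} [Field F] [Algebra F A] (h2 : (2 : F) ≠ 0) {x y : A}
    (hx : x * x = 0) (hy : y * y = 0) (h : tau x y * tau x y = -tau x y) :
    ∃ e f g N : A, e + f + g = 1 ∧ e * e = e ∧ f * f = f ∧ g * g = g ∧ e * f = 0 ∧ f * e = 0 ∧
      e * g = 0 ∧ g * e = 0 ∧ f * g = 0 ∧ g * f = 0 ∧ N * N * N = 0 ∧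
      Commute ((2 : F) • e + (2 : F)⁻¹ • f + g) N ∧
      (1 + (2 : F) • x) * (1 + (2 : F)⁻¹ • y) * (1 + (2 : F) • x) * ((1 - x) * (1 - y) * (1 - x)) =
        (2 : F) • e + (2 : F)⁻¹ • f + g + N ∧
      ((2 : F) • e + (2 : F)⁻¹ • f + g) * (1 + x) =
        (1 + (3 : F) • -(tau x y * x)) * ((1 + x) * ((2 : F) • e + (2 : F)⁻¹ • f + g)) ∧
      (1 + y) * ((2 : F) • e + (2 : F)⁻¹ • f + g) =
        ((2 : F) • e + (2 : F)⁻¹ • f + g) * ((1 + (3 : F) • -(tau x y * y)) * (1 + y)) := by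
  have r : y * (x * (y * x)) = -(x * (y * (x * y))) - x * y - y * x := by
    simp only [tau, mul_add, add_mul, mul_assoc, LQuad_sq' hx, LQuad_sq' hy, mul_zero, add_zero,
      zero_add] at h
    rw [eq_sub_iff_add_eq, eq_sub_iff_add_eq, eq_neg_iff_add_eq_zero]
    rw [← add_eq_zero_iff_eq_neg] at h
    rw [← h]; abel
  have r' : ∀ z, y * (x * (y * (x * z))) = -(x * (y * (x * (y * z)))) - x * (y * z) - y * (x * z) := by
    intro z
    have := congrArg (· * z) r
    simpa only [mul_assoc, sub_mul, neg_mul] using this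
  refine ⟨tau x y * (x * y), tau x y * (y * x), 1 + tau x y,
    (1 + tau x y) * ((2 : F) • x + ((2 : F)⁻¹ - 1) • y - (3 : F) • (x * y)),
    ?_, ?_, ?_, ?_, ?_, ?_, ?_, ?_, ?_, ?_, ?_, ?_, ?_, ?_, ?_⟩ <;>
  simp only [Commute, SemiconjBy, tau, mul_add, add_mul, mul_sub, sub_mul, mul_neg, neg_mul,
    mul_one, one_mul,
    mul_assoc, smul_mul_assoc, mul_smul_comm, hx, hy, LQuad_sq' hx, LQuad_sq' hy, r, r', mul_zero,
    add_zero, zero_add, sub_zero, neg_zero, smul_zero, smul_add, smul_sub, smul_neg] <;>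
  match_scalars <;> first | ring1 | (field_simp; done) | (field_simp; ring1)

/-- `ε = -t` is an idempotent commuting with `x`, `y`. Let `k` be a natural number with
`2 k = 1` in `ZMod p`, `w₂ = u ^ 2 u' ^ k u ^ 2`, `w₁ = u u' u`, `h = w₂ w₁⁻¹`. With
`e = t x y`, `f = t y x` (`e + f = ε`): `ε ρ h = 2 e + k f`, and `((1 - ε) (ρ h - 1)) ^ 3 = 0` since
`x y = - y x` on the `1 - ε` part. So `s = h ^ p` has `ρ s = 2 e + k f + (1 - ε)` (Frobenius,
`2 ^ p = 2`). Then `ρ (s u s⁻¹ u⁻¹) = 1 + 3 ε x` and `ρ (s⁻¹ u' s u'⁻¹) = 1 + 3 ε y`; take powers. -/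
theorem quad_realise (hp : 5 ≤ p) (ρ : G →* A) {u u' : G} (hu : (ρ u - 1) * (ρ u - 1) = 0)
    (hu' : (ρ u' - 1) * (ρ u' - 1) = 0)
    (h : tau (ρ u - 1) (ρ u' - 1) * tau (ρ u - 1) (ρ u' - 1) = -tau (ρ u - 1) (ρ u' - 1)) :
    (∃ g ∈ closure {u, u'}, ρ g = 1 + tau (ρ u - 1) (ρ u' - 1) * (ρ u' - 1)) ∧
    ∃ g ∈ closure {u, u'}, ρ g = 1 - tau (ρ u - 1) (ρ u' - 1) * (ρ u - 1) := by
  set x := ρ u - 1 with hxd
  set y := ρ u' - 1 with hyd
  have hpp : p.Prime := Fact.out
  have hne : ∀ n : ℕ, 0 < n → n < 5 → (n : ZMod p) ≠ 0 := fun n h0 h5 hn =>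
    absurd (Nat.le_of_dvd h0 ((ZMod.natCast_eq_zero_iff n p).1 hn)) (by omega)
  have h2 : (2 : ZMod p) ≠ 0 := by exact_mod_cast hne 2 (by norm_num) (by norm_num)
  have h3 : (3 : ZMod p) ≠ 0 := by exact_mod_cast hne 3 (by norm_num) (by norm_num)
  rcases subsingleton_or_nontrivial A with hA | hA
  · exact ⟨⟨1, one_mem _, Subsingleton.elim _ _⟩, 1, one_mem _, Subsingleton.elim _ _⟩
  have : CharP A p := charP_of_injective_algebraMap (algebraMap (ZMod p) A).injective p
  obtain ⟨e, f, g, N, h1, ee, ff, gg, ef, fe, eg, ge, fg, gf, hN, hc, hh, hu1, hu2⟩ :=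
    LQuad_ids h2 hu hu' h
  have mu : u ∈ closure ({u, u'} : Set G) := subset_closure (by simp)
  have mu' : u' ∈ closure ({u, u'} : Set G) := subset_closure (by simp)
  have eu : ρ u = 1 + x := by rw [hxd]; abel
  have eu' : ρ u' = 1 + y := by rw [hyd]; abel
  set D : A := (2 : ZMod p) • e + (2 : ZMod p)⁻¹ • f + g with hD
  have hDn : ∀ n : ℕ, D ^ n = (2 : ZMod p) ^ n • e + ((2 : ZMod p)⁻¹) ^ n • f + g := by
    intro n
    induction n with
    | zero => simp [h1]
    | succ n ih =>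
      rw [pow_succ, ih, hD]
      simp only [mul_add, add_mul, smul_mul_assoc, mul_smul_comm, ee, ff, gg, ef, fe, eg, ge, fg, gf,
        smul_zero, add_zero, zero_add, smul_smul, pow_succ']
  have hDp : D ^ p = D := by rw [hDn, ZMod.pow_card, ZMod.pow_card]
  set k : ℕ := ((2 : ZMod p)⁻¹).val with hk
  set s : G := (u ^ 2 * u' ^ k * u ^ 2 * (u⁻¹ * u'⁻¹ * u⁻¹)) ^ p with hs
  have ms : s ∈ closure ({u, u'} : Set G) :=
    pow_mem (mul_mem (mul_mem (mul_mem (pow_mem mu _) (pow_mem mu' _)) (pow_mem mu _))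
      (mul_mem (mul_mem (inv_mem mu) (inv_mem mu')) (inv_mem mu))) _
  have es : ρ s = D := by
    rw [hs, map_pow]
    simp only [map_mul, map_pow]
    rw [LQuad_inv ρ hu, LQuad_inv ρ hu', ← hxd, ← hyd, eu, eu', LQuad_pow (p := p) hu,
      LQuad_pow (p := p) hu', hk, ZMod.natCast_zmod_val, Nat.cast_ofNat, hh,
      add_pow_char_of_commute p hc, hDp,
      pow_eq_zero_of_le (show 3 ≤ p by omega) (by rw [pow_succ, pow_two, hN]), add_zero]
  have cx : Commute (tau x y) x := (LQuad_cx (LQuad_tau_mem hu hu')).symm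
  have cy : Commute (tau x y) y := (LQuad_cy (LQuad_tau_mem hu hu')).symm
  have sq : ∀ z : A, Commute (tau x y) z → z * z = 0 →
      ((3 : ZMod p) • -(tau x y * z)) * ((3 : ZMod p) • -(tau x y * z)) = 0 := fun z cz hz => by
    rw [smul_mul_assoc, mul_smul_comm, neg_mul_neg, mul_assoc, ← mul_assoc z, ← cz.eq, mul_assoc,
      hz, mul_zero, mul_zero, smul_zero, smul_zero]
  have e1 : ρ (s * u * (u * s)⁻¹) = 1 + (3 : ZMod p) • -(tau x y * x) := by
    rw [map_mul, map_mul, es, eu, hu1, ← eu, ← es, ← map_mul, mul_assoc, ← map_mul, mul_inv_cancel,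
      map_one, mul_one]
  have e2 : ρ (s⁻¹ * (u' * s) * u'⁻¹) = 1 + (3 : ZMod p) • -(tau x y * y) := by
    rw [map_mul, map_mul, map_mul, es, eu', hu2, ← eu', ← es, ← mul_assoc, ← map_mul,
      inv_mul_cancel, map_one, one_mul, mul_assoc, ← map_mul, mul_inv_cancel, map_one, mul_one]
  refine ⟨⟨(s⁻¹ * (u' * s) * u'⁻¹) ^ (-(3 : ZMod p)⁻¹).val,
    pow_mem (mul_mem (mul_mem (inv_mem ms) (mul_mem mu' ms)) (inv_mem mu')) _, ?_⟩,
    (s * u * (u * s)⁻¹) ^ ((3 : ZMod p)⁻¹).val,
    pow_mem (mul_mem (mul_mem ms mu) (inv_mem (mul_mem mu ms))) _, ?_⟩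
  · rw [map_pow, e2, LQuad_pow (p := p) (sq y cy hu'), ZMod.natCast_zmod_val, smul_smul, neg_mul,
      inv_mul_cancel₀ h3, neg_smul, one_smul, neg_neg]
  · rw [map_pow, e1, LQuad_pow (p := p) (sq x cx hu), ZMod.natCast_zmod_val, smul_smul,
      inv_mul_cancel₀ h3, one_smul, sub_eq_add_neg]

end Pool.Agent.Lib.MP_bf45aa_co
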