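import Pool.Agent.Lib.MP_bf45aa_co.LDef
import Pool.Agent.Lib.MP_bf45aa_co.PSetup
import Pool.Agent.Lib.MP_bf45aa_co.LBaer
import Pool.Agent.Lib.MP_bf45aa_co.LAch
import Pool.Agent.Lib.MP_bf45aa_co.LQuad
import Pool.Agent.Lib.MP_bf45aa_co.LPoly

set_option autoImplicit false
set_option linter.unusedSectionVars false

/-! Existence of thick partners. -/

namespace Pool.Agent.Lib.MP_bf45aa_co

open Subgroup Module Polynomial

/-- A Frattini type argument in a finite image. -/
theorem LPart0_frattini {p : ℕ} [Fact p.Prime] {S G : Type*} [Group S] [Group G] [Finite G]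
    (π : S →* G) (hπ : Function.Surjective π) {u : S} {T : Subgroup S} (hu : u ∈ T)
    (hP : IsPGroup p (normalClosure {π u} : Subgroup G))
    (ht : ∀ g : S, ∃ d, π d ∈ normalClosure {π u} ∧ d⁻¹ * g ∈ T) {d : S}
    (hd : π d ∈ normalClosure {π u}) : ∃ t ∈ T, π t = π d := by
  have := hP.isNilpotent
  have hx : π u ∈ normalClosure {π u} := subset_normalClosure rfl
  have htop : (T.map π).subgroupOf (normalClosure {π u}) = ⊤ := by
    rcases eq_top_or_exists_le_coatom ((T.map π).subgroupOf (normalClosure {π u})) with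
      h1 | ⟨M, hM, h1⟩
    · exact h1
    · exfalso
      have hn : M.Normal := NormalizerCondition.normal_of_coatom M
        Group.normalizerCondition_of_isNilpotent hM
      have h2 : closure (Group.conjugatesOfSet {π u}) ≤ M.map (normalClosure {π u}).subtype := by
        rw [closure_le]
        intro z hz
        obtain ⟨_, rfl, hz⟩ := Group.mem_conjugatesOfSet_iff.1 hz
        obtain ⟨c, rfl⟩ := isConj_iff.1 hz
        obtain ⟨g, rfl⟩ := hπ c
        obtain ⟨e, he, het⟩ := ht g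
        have h3 : π (e⁻¹ * g * u * (e⁻¹ * g)⁻¹) ∈ normalClosure {π u} := by
          rw [map_mul, map_mul π _ u, map_inv]
          exact normalClosure_normal.conj_mem _ hx _
        refine ⟨⟨_, he⟩ * ⟨_, h3⟩ * ⟨_, he⟩⁻¹, hn.conj_mem _ (h1 ?_) _, ?_⟩
        · exact ⟨_, mul_mem (mul_mem het hu) (inv_mem het), rfl⟩
        · simp [mul_assoc]
      apply hM.1
      rw [eq_top_iff]
      intro q _
      obtain ⟨q', h3, h4⟩ := h2 q.2
      rw [← Subtype.ext h4]
      exact h3
  have h1 : (⟨_, hd⟩ : normalClosure {π u}) ∈ (T.map π).subgroupOf (normalClosure {π u}) :=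
    htop ▸ mem_top _
  exact h1

/-- Congruence modulo the operators that lower a filtration. -/
structure LPart0_Rel {F V : Type*} [Field F] [AddCommGroup V] [Module F V]
    (A : ℕ → Submodule F V) (B : Submodule F V) (a a' : End F V) : Prop where
  pres : ∀ i, ∀ v ∈ A i, a v ∈ A i
  low : ∀ i, ∀ v ∈ A i, a' v - a v ∈ A (i + 1)
  presB : ∀ v ∈ B, a' v ∈ B

section Rel

variable {F V : Type*} [Field F] [AddCommGroup V] [Module F V] {A : ℕ → Submodule F V}
  {B : Submodule F V} {a a' b b' : End F V}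

theorem LPart0_Rel.const (c : F) :
    LPart0_Rel A B (algebraMap F (End F V) c) (algebraMap F (End F V) c) :=
  ⟨fun _ _ hv => Submodule.smul_mem _ c hv, fun _ _ _ => by simp,
    fun _ hv => Submodule.smul_mem _ c hv⟩

theorem LPart0_Rel.add (h : LPart0_Rel A B a a') (h' : LPart0_Rel A B b b') :
    LPart0_Rel A B (a + b) (a' + b') :=
  ⟨fun i v hv => add_mem (h.pres i v hv) (h'.pres i v hv), fun i v hv => by
    simpa only [LinearMap.add_apply, add_sub_add_comm] using add_mem (h.low i v hv) (h'.low i v hv),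
    fun v hv => add_mem (h.presB v hv) (h'.presB v hv)⟩

theorem LPart0_Rel.sub_one (h : LPart0_Rel A B a a') : LPart0_Rel A B (a - 1) (a' - 1) :=
  ⟨fun i v hv => sub_mem (h.pres i v hv) hv, fun i v hv => by
    simpa only [LinearMap.sub_apply, sub_sub_sub_cancel_right] using h.low i v hv,
    fun v hv => sub_mem (h.presB v hv) hv⟩

theorem LPart0_Rel.mul (hle : ∀ i, A (i + 1) ≤ A i) (h : LPart0_Rel A B a a')
    (h' : LPart0_Rel A B b b') : LPart0_Rel A B (a * b) (a' * b') := by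
  refine ⟨fun i v hv => h.pres i _ (h'.pres i v hv), fun i v hv => ?_,
    fun v hv => h.presB _ (h'.presB v hv)⟩
  have h1 : b' v ∈ A i := by
    simpa using add_mem (hle i (h'.low i v hv)) (h'.pres i v hv)
  have h2 := add_mem (h.low i _ h1) (h.pres _ _ (h'.low i v hv))
  rwa [map_sub, sub_add_sub_cancel] at h2

theorem LPart0_Rel.aeval (hle : ∀ i, A (i + 1) ≤ A i) (h : LPart0_Rel A B a a') (φ : F[X]) :
    LPart0_Rel A B (aeval a φ) (aeval a' φ) := by
  induction φ using Polynomial.induction_on with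
  | C c => simpa only [aeval_C] using LPart0_Rel.const c
  | add φ ψ h1 h2 => simpa only [map_add] using h1.add h2
  | monomial n c h1 =>
    rw [pow_succ, ← mul_assoc, map_mul, map_mul (Polynomial.aeval a'), aeval_X, aeval_X]
    exact h1.mul hle h

end Rel

namespace LD

variable {p : ℕ} [Fact p.Prime] {H X V : Type} [Group H] [MulAction H X] [AddCommGroup V]
  [Module (ZMod p) V] (D : LD p H X V)

/-- The central element of the pair `u`, `g u g⁻¹`. -/
def tg (u g : H) : End (ZMod p) V := tau (D.ρ u - 1) (D.ρ (g * u * g⁻¹) - 1)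

/-- The action on a layer. -/
theorem LPart0_layer (y : X) (k : ℕ) : ∃ (A : Type) (_ : Ring A) (_ : Algebra (ZMod p) A)
    (_ : Finite A) (ψ : D.PA y →+* A),
    ∀ a, ψ a = 0 ↔ ∀ v ∈ D.Vb y (k + 2), (a : End (ZMod p) V) v ∈ D.Vb y k := by
  let N := (D.Vb y k).comap (D.Vb y (k + 2)).subtype
  let f : D.PA y → End (ZMod p) (D.Vb y (k + 2) ⧸ N) := fun a =>
    N.mapQ N ((a : End (ZMod p) V).restrict (a.2 (k + 2))) fun v hv => a.2 k v hv
  have hf : ∀ (a : D.PA y) (v : D.Vb y (k + 2)),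
      f a (N.mkQ v) = N.mkQ ⟨(a : End (ZMod p) V) v, a.2 _ v v.2⟩ := fun a v => rfl
  have hext : ∀ b c : End (ZMod p) (D.Vb y (k + 2) ⧸ N), (∀ v, b (N.mkQ v) = c (N.mkQ v)) →
      b = c := fun b c h => LinearMap.ext fun w => by
    obtain ⟨v, rfl⟩ := N.mkQ_surjective w
    exact h v
  have : Finite (D.Vb y (k + 2) ⧸ N) := Module.finite_of_finite (ZMod p)
  refine ⟨End (ZMod p) (D.Vb y (k + 2) ⧸ N), inferInstance, inferInstance,
    Finite.of_injective _ DFunLike.coe_injective,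
    { toFun := f
      map_one' := hext _ _ fun v => rfl
      map_mul' := fun a b => hext _ _ fun v => rfl
      map_zero' := hext _ _ fun v => rfl
      map_add' := fun a b => hext _ _ fun v => rfl }, fun a => ⟨fun h v hv => ?_, fun h => ?_⟩⟩
  · have h1 : f a (N.mkQ ⟨v, hv⟩) = 0 := by
      have h2 : f a = 0 := h
      rw [h2]
      rfl
    rw [hf] at h1
    exact (Submodule.Quotient.mk_eq_zero N).1 h1
  · refine hext (f a) 0 fun v => ?_
    rw [hf]
    exact (Submodule.Quotient.mk_eq_zero N).2 (h v v.2)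

/-- Suppose not. Let `L` be the finite module `Vb y (k + 2) ⧸ (Vb y k).submoduleOf _` and
`φ : St H y →* (End L)ˣ` the induced action; its kernel is `C = D.CL y k`, which is intransitive
(`not_tr_CL`). By `quad_pgroup` (for `Units.coeHom` restricted to the finite group `φ.range`) and
`baer_suzuki`, the normal closure of `φ u` in `φ.range` is a `p`-group. Let
`S z = closure {g u g⁻¹ | g ∈ St H y, g • y' = z} ≤ St H z` and `J = JN Γ S y` (the normal closure of
`u` in `St H y`). `J` is transitive by `sp_K`, each `d ∈ J` has `d ^ p ^ n ∈ C`, and `C` has finite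
index in `J`. Copy the proof of `PF` (file `PSetup`), which only needs `Finite (J ⧸ C.subgroupOf J)`:
it gives that `C` is transitive, a contradiction. -/
theorem bs_layer {y y' : X} (h : D.Γ.Adj y y') {u : H} (h1 : u • y = y) (h2 : u • y' = y')
    (h3 : u ∉ Kn H D.Γ 1 y) (hu : (D.ρ u - 1) * (D.ρ u - 1) = 0) (k : ℕ) :
    ∃ g ∈ St H y, ¬ NilOn (D.tg u g) (D.Vb y (k + 2)) (D.Vb y k) := by
  by_contra hc
  push Not at hc
  obtain ⟨A, _, _, _, ψ, hψ⟩ := D.LPart0_layer y k
  let r : St H y →* D.PA y :=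
    { toFun := fun g => ⟨D.ρ g, D.ρ_mem_PA g.2⟩
      map_one' := Subtype.ext (map_one D.ρ)
      map_mul' := fun a b => Subtype.ext (map_mul D.ρ (a : H) b) }
  have hr : ∀ g : St H y, (r g : End (ZMod p) V) = D.ρ g := fun g => rfl
  let φ : St H y →* Aˣ := ((ψ : D.PA y →* A).comp r).toHomUnits
  let π := φ.rangeRestrict
  let ρ' : φ.range →* A := (Units.coeHom A).comp φ.range.subtype
  have hρ' : ∀ g, ρ' (π g) = ψ (r g) := fun g => rfl
  have hinj : Function.Injective ρ' := fun a b e => Subtype.ext (Units.ext e)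
  have hπ : Function.Surjective π := φ.rangeRestrict_surjective
  let u' : St H y := ⟨u, h1⟩
  have hsq : (ρ' (π u') - 1) * (ρ' (π u') - 1) = 0 := by
    rw [hρ', ← map_one ψ, ← map_sub, ← map_mul]
    have e : (r u' - 1) * (r u' - 1) = 0 := Subtype.ext hu
    rw [e, map_zero]
  have hP : IsPGroup p (normalClosure {π u'} : Subgroup φ.range) := by
    refine baer_suzuki fun c => ?_
    obtain ⟨g, rfl⟩ := hπ c
    have hn : IsNilpotent (tau (ρ' (π u') - 1) (ρ' (π g * π u' * (π g)⁻¹) - 1)) := by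
      obtain ⟨n, hn⟩ := hc g g.2
      refine ⟨n, ?_⟩
      rw [← map_inv, ← map_mul, ← map_mul, hρ', hρ', ← map_one ψ, ← map_sub, ← map_sub, tau,
        ← map_mul, ← map_mul, ← map_add, ← map_pow, hψ]
      exact hn
    intro z
    obtain ⟨n, hn⟩ := quad_pgroup (p := p) ρ' hsq (conj_sq ρ' hsq _) hn z z.2
    exact ⟨n, Subtype.ext (hinj (hn.trans (map_one ρ').symm))⟩
  have hJ : Tr D.Γ (((normalClosure {π u'}).comap π).map (St H y).subtype) y := by
    by_contra ht
    refine h3 (D.sp_K (map_subtype_le _) (le_Nm_of_conj ?_) ht h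
      ⟨u', subset_normalClosure rfl, rfl⟩ h2)
    rintro g hg _ ⟨a, ha, rfl⟩
    exact ⟨⟨g, hg⟩ * a * ⟨g, hg⟩⁻¹, (normalClosure_normal.comap π).conj_mem _ ha _, rfl⟩
  have key : ∀ z, D.Γ.Adj y z → ∃ c ∈ D.CL y k, c • y' = z := by
    intro z hz
    obtain ⟨_, ⟨d, hd, rfl⟩, rfl⟩ := hJ _ _ h hz
    obtain ⟨t, ht, e⟩ := LPart0_frattini π hπ (T := (St H y').subgroupOf (St H y)) (u := u') h2 hP
      (fun g => by
        have h4 := D.adj g h
        rw [mem_St.1 g.2] at h4
        obtain ⟨_, ⟨e, he, rfl⟩, he'⟩ := hJ _ _ h h4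
        refine ⟨e, he, ?_⟩
        change ((e : H)⁻¹ * g) • y' = y'
        rw [mul_smul, ← he']
        exact inv_smul_smul _ _) hd
    refine ⟨((d * t⁻¹ : St H y) : H), ⟨(d * t⁻¹).2, ?_⟩, ?_⟩
    · have h4 : ψ (r (d * t⁻¹) - 1) = 0 := by
        rw [map_sub, map_one, ← hρ', map_mul, map_inv, e, mul_inv_cancel, map_one, sub_self]
      exact (hψ _).1 h4
    · have h4 : (t : H)⁻¹ • y' = y' := inv_mem (mem_subgroupOf.1 ht)
      change ((d : H) * (t : H)⁻¹) • y' = (d : H) • y'
      rw [mul_smul, h4]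
  refine D.not_tr_CL y k fun z z' hz hz' => ?_
  obtain ⟨a, ha, rfl⟩ := key z hz
  obtain ⟨b, hb, rfl⟩ := key z' hz'
  exact ⟨b * a⁻¹, mul_mem hb (inv_mem ha), by simp [mul_smul]⟩

/-- Take `A`, `l` from `exists_filtration` for `St H y`, `D.Q y`, `Vb y k` (`Q_unip`). The operators
preserving all `A i` form a subalgebra, those lowering the filtration an ideal in it. As
`(g q) u (g q)⁻¹ = (g u g⁻¹) q'` with `q' = g (u⁻¹ q u) q⁻¹ g⁻¹ ∈ D.Q y`, the operators `tg u g` and
`tg u (g q)` are congruent modulo the ideal, and so are their polynomials. Apply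
`NilOn.of_filtration`. -/
theorem nilOn_Q {y : X} {u g q : H} (h1 : u ∈ St H y) (hg : g ∈ St H y) (hq : q ∈ D.Q y)
    (φ : (ZMod p)[X]) (k : ℕ) {B : Submodule (ZMod p) V}
    (hB : ∀ a ∈ St H y, ∀ v ∈ B, D.ρ a v ∈ B)
    (h : NilOn (aeval (D.tg u g) φ) (D.Vb y k) B) :
    NilOn (aeval (D.tg u (g * q)) φ) (D.Vb y k) B := by
  obtain ⟨A, l, h0, hl, hle, hA, hQ⟩ := exists_filtration D.ρ (St H y) (D.Q y) (D.Q_le_St y)
    (fun g hg q hq => D.Q_conj_St hg hq) (D.Vb y k) (fun g hg => D.ρ_mem_PA hg k) (D.Q_unip y k)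
  have key : ∀ a ∈ St H y, ∀ b ∈ D.Q y, LPart0_Rel A B (D.ρ a - 1) (D.ρ (a * b) - 1) := by
    intro a ha b hb
    refine LPart0_Rel.sub_one ⟨fun i => hA i a ha, fun i v hv => ?_,
      hB _ (mul_mem ha (D.Q_le_St y hb))⟩
    rw [map_mul, End.mul_apply, ← map_sub]
    exact hA _ a ha _ (hQ i b hb v hv)
  have h2 := key u h1 1 (one_mem _)
  have h3 := key (g * u * g⁻¹) (mul_mem (mul_mem hg h1) (inv_mem hg))
    (g * (u⁻¹ * q * u⁻¹⁻¹ * q⁻¹) * g⁻¹)
    (D.Q_conj_St hg (mul_mem (D.Q_conj_St (inv_mem h1) hq) (inv_mem hq)))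
  have e : g * u * g⁻¹ * (g * (u⁻¹ * q * u⁻¹⁻¹ * q⁻¹) * g⁻¹) = g * q * u * (g * q)⁻¹ := by group
  rw [mul_one] at h2
  rw [e] at h3
  have h4 := ((h2.mul hle h3).add (h3.mul hle h2)).aeval hle φ
  rw [← h0] at h ⊢
  exact NilOn.of_filtration hl hle h4.pres h4.low h4.presB h

end LD

end Pool.Agent.Lib.MP_bf45aa_co
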