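import Pool.Agent.Lib.MP_bf45aa_co.LPei1

set_option autoImplicit false
set_option linter.unusedSectionVars false

/-! The nilpotent part vanishes. -/

namespace Pool.Agent.Lib.MP_bf45aa_co

open Subgroup Module

namespace LD

variable {p : ℕ} [Fact p.Prime] {H X V : Type} [Group H] [MulAction H X] [AddCommGroup V]
  [Module (ZMod p) V] {D : LD p H X V}

theorem LPei_finrank_iSup {F W ι : Type*} [Field F] [AddCommGroup W] [Module F W] (t : Finset ι)
    (A : ι → Submodule F W) [∀ i, Module.Finite F (A i)] {ν : ℕ}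
    (hA : ∀ i ∈ t, finrank F (A i) ≤ ν) :
    Module.Finite F (t.sup A : Submodule F W) ∧ finrank F (t.sup A : Submodule F W) ≤ t.card * ν := by
  classical
  induction t using Finset.induction with
  | empty =>
    rw [Finset.sup_empty]
    exact ⟨inferInstance, by simp⟩
  | insert i s hi ih =>
    obtain ⟨h1, h2⟩ := ih fun j hj => hA j (Finset.mem_insert_of_mem hj)
    rw [Finset.sup_insert, Finset.card_insert_of_notMem hi]
    refine ⟨inferInstance, ?_⟩
    have h3 := Submodule.finrank_add_le_finrank_add_finrank (A i) (s.sup A)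
    have h4 := hA i (Finset.mem_insert_self i s)
    have h5 : (s.card + 1) * ν = s.card * ν + ν := by ring
    omega

variable (D) in
/-- Elements all of whose conjugates move `Vb y a` inside `A`. -/
def LPei_core (y : X) (a : ℕ) (A : Submodule (ZMod p) V) : Subgroup H where
  carrier := {h | h ∈ St H y ∧ ∀ g ∈ St H y, ∀ v ∈ D.Vb y a, D.ρ (g * h * g⁻¹) v - v ∈ A}
  one_mem' := ⟨one_mem _, fun g _ v _ => by simp⟩
  mul_mem' := fun {b c} hb hc => ⟨mul_mem hb.1 hc.1, fun g hg v hv => by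
    have h0 : g * c * g⁻¹ ∈ St H y := mul_mem (mul_mem hg hc.1) (inv_mem hg)
    have h1 := add_mem (hb.2 g hg _ (D.ρ_mem_PA h0 a v hv)) (hc.2 g hg v hv)
    have e : g * (b * c) * g⁻¹ = g * b * g⁻¹ * (g * c * g⁻¹) := by group
    rwa [sub_add_sub_cancel, ← End.mul_apply, ← map_mul, ← e] at h1⟩
  inv_mem' := fun {b} hb => ⟨inv_mem hb.1, fun g hg v hv => by
    have h0 : g * b⁻¹ * g⁻¹ ∈ St H y := mul_mem (mul_mem hg (inv_mem hb.1)) (inv_mem hg)
    have h1 := neg_mem (hb.2 g hg _ (D.ρ_mem_PA h0 a v hv))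
    have e : g * b * g⁻¹ * (g * b⁻¹ * g⁻¹) = 1 := by group
    rwa [← End.mul_apply, ← map_mul, e, map_one, End.one_apply, neg_sub] at h1⟩

theorem LPei_core_Nm (y : X) (a : ℕ) (A : Submodule (ZMod p) V) :
    St H y ≤ Nm (D.LPei_core y a A) := by
  refine le_Nm_of_conj fun g hg b hb => ⟨mul_mem (mul_mem hg hb.1) (inv_mem hg), fun g' hg' v hv => ?_⟩
  have e : g' * (g * b * g⁻¹) * g'⁻¹ = g' * g * b * (g' * g)⁻¹ := by group
  rw [e]
  exact hb.2 _ (mul_mem hg' hg) v hv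

theorem LPei_main {y : X} {n : H} (hn : n ∈ St H y) {z : End (ZMod p) V} (hz : D.ρ n = 1 + z)
    (hzz : z * z = 0) {ν a r : ℕ} (hν : rk z (D.Vb y r) ≤ ν) (ha : 2 * D.β * ν + 2 ≤ a)
    (hr : a + 4 * ν + 4 ≤ r) : ∀ v ∈ D.Vb y a, z v = 0 := by
  classical
  obtain ⟨y', hy'⟩ := D.nbr y
  have conj : ∀ g : H, D.ρ (g * n * g⁻¹) = 1 + D.ρ g * (z * D.ρ g⁻¹) := fun g => by
    rw [map_mul, map_mul, hz, mul_add, mul_one, add_mul, D.ρ_mul_inv, mul_assoc]
  have rkc : ∀ g ∈ St H y, rk (D.ρ g * (z * D.ρ g⁻¹)) (D.Vb y r) ≤ ν := fun g hg =>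
    (rk_mul_le_right _ _ _).trans ((rk_mul_le_left z (D.ρ_mem_PA (inv_mem hg) r)).trans hν)
  have comm : ∀ q ∈ D.Q y, ∀ v ∈ D.Vb y a, D.ρ (q * n * q⁻¹) v = D.ρ n v := by
    intro q hq v hv
    have h1 : n⁻¹ * q * n⁻¹⁻¹ ∈ D.Q y := D.Q_conj_St (inv_mem hn) hq
    have h2 : n⁻¹ * (q * n * q⁻¹) ∈ D.Q y := by
      have e : n⁻¹ * (q * n * q⁻¹) = n⁻¹ * q * n⁻¹⁻¹ * q⁻¹ := by group
      rw [e]
      exact mul_mem h1 (inv_mem hq)
    have h3 := mem_K1.1 (D.Q_le y h2)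
    have h4 : D.ρ (n⁻¹ * (q * n * q⁻¹)) - 1 = D.ρ n⁻¹ * (D.ρ q * (z * D.ρ q⁻¹) - z) := by
      have h5 := D.ρ_inv_mul n
      rw [hz] at h5
      rw [map_mul, conj, sub_eq_iff_eq_add]
      calc D.ρ n⁻¹ * (1 + D.ρ q * (z * D.ρ q⁻¹))
          = D.ρ n⁻¹ * (D.ρ q * (z * D.ρ q⁻¹) - z) + D.ρ n⁻¹ * (1 + z) := by noncomm_ring
        _ = _ := by rw [h5]
    have h6 : rk (D.ρ (n⁻¹ * (q * n * q⁻¹)) - 1) (D.Vb y r) < 2 * ν + 1 := by
      rw [h4]
      have h7 := (rk_mul_le_right (D.ρ n⁻¹) (D.ρ q * (z * D.ρ q⁻¹) - z) (D.Vb y r)).trans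
        (rk_sub_le _ _ _)
      have h8 := rkc q (D.Q_le_St y hq)
      omega
    have h9 := D.thick hy' h3.1 (h3.2 y' hy') (r := a) (j := 2 * ν + 1) (R := r) (by omega) h6 v hv
    have h10 := congrArg (D.ρ n) h9
    rwa [← End.mul_apply, ← map_mul, mul_inv_cancel_left] at h10
  obtain ⟨t, ht1, ht2, ht3⟩ := D.Q_idx y
  obtain ⟨hfin, hdim⟩ := LPei_finrank_iSup t
    (fun g : H => (D.Vb y a).map (D.ρ g * (z * D.ρ g⁻¹))) (ν := ν) fun g hg =>
      (rk_mono _ (D.Vb_mono y (by omega : a ≤ r))).trans (rkc g (ht2 g hg))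
  set A : Submodule (ZMod p) V := t.sup fun g : H => (D.Vb y a).map (D.ρ g * (z * D.ρ g⁻¹)) with hA
  have hnN : n ∈ D.LPei_core y a A := by
    refine ⟨hn, fun g hg v hv => ?_⟩
    obtain ⟨b, hb, hq⟩ := ht3 g hg
    have e : g * n * g⁻¹ = b * (b⁻¹ * g * n * (b⁻¹ * g)⁻¹) * b⁻¹ := by group
    have h1 : D.ρ (g * n * g⁻¹) v = D.ρ (b * n * b⁻¹) v := by
      rw [e, map_mul, map_mul, End.mul_apply, End.mul_apply,
        comm _ hq _ (D.ρ_mem_PA (inv_mem (ht2 b hb)) a v hv), map_mul, map_mul, End.mul_apply,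
        End.mul_apply]
    rw [h1, conj, LinearMap.add_apply, End.one_apply, add_sub_cancel_left]
    exact (Finset.le_sup (f := fun g : H => (D.Vb y a).map (D.ρ g * (z * D.ρ g⁻¹))) hb)
      ⟨v, hv, rfl⟩
  have hle : D.LPei_core y a A ≤ St H y := fun _ h => h.1
  have hnt : ¬ Tr D.Γ (D.LPei_core y a A) y := by
    intro tr
    have h1 := card_le_finrank (A := A) (fun i => D.Vb y (2 * i))
      (fun _ _ hi => D.Vb_mono y (by omega)) (Finset.range (D.β * ν + 1)) fun i hi => by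
        obtain ⟨g, hg, v, hv, h4⟩ := D.layer y (2 * i) _ hle tr
        have hi' := Finset.mem_range.1 hi
        have h5 : 2 * D.β * ν = 2 * (D.β * ν) := by ring
        have h6 := hg.2 1 (one_mem _) v (D.Vb_mono y (by omega) hv)
        rw [one_mul, inv_one, mul_one] at h6
        exact ⟨_, h6, sub_mem (D.ρ_mem_PA hg.1 _ v hv) hv, h4⟩
    rw [Finset.card_range] at h1
    have h2 : t.card * ν ≤ D.β * ν := Nat.mul_le_mul_right _ ht1
    omega
  obtain ⟨k, hk, hk1⟩ := D.hp y _ hle (LPei_core_Nm y a A) hnt n hnN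
  have h3 := mem_K1.1 hk1
  have h4 : D.ρ (n ^ k) - 1 = ((k : ZMod p) • (1 : End (ZMod p) V)) * z := by
    rw [ρ_pow hz hzz, add_sub_cancel_left, smul_mul_assoc, one_mul]
  have h5 : rk (D.ρ (n ^ k) - 1) (D.Vb y r) < ν + 1 := by
    rw [h4]
    exact Nat.lt_succ_of_le ((rk_mul_le_right _ _ _).trans hν)
  intro v hv
  have h6 := D.thick hy' h3.1 (h3.2 y' hy') (r := a) (j := ν + 1) (R := r) (by omega) h5 v hv
  rw [ρ_pow hz hzz, LinearMap.add_apply, End.one_apply, add_eq_left, LinearMap.smul_apply,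
    smul_eq_zero] at h6
  refine h6.resolve_left fun h7 => ?_
  rw [ZMod.natCast_eq_zero_iff] at h7
  exact (Fact.out : p.Prime).one_lt.ne' (Nat.Coprime.eq_one_of_dvd hk.symm h7)

namespace Partner

variable {y : X} {x η : End (ZMod p) V} (P : D.Partner y x η)
include P

variable {Z C : Submodule (ZMod p) V} {h : Z ≤ C}

/-- Let `n = u g₂⁻¹` realise `x'' = x - x η x`. For `q ∈ Q y` the commutator of `n` and `q` lies in
`Q y` and has rank at most `2 ν` on `Vb y r`, so by `thick` it is trivial on `M = Vb y a`. Hence the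
conjugates `t n t⁻¹` (`t` in the set from `Q_idx`) give all actions of conjugates of `n` on `M`, and
`A = ⨆ t, (ρ (t n t⁻¹) - 1) M` has dimension at most `β ν`. The elements `g ∈ St H y` with
`(ρ g - 1) M ≤ A` form a subgroup containing the closure `N` of all conjugates of `n` under
`St H y`. If `N` is transitive, `layer` and `card_le_finrank` give `a / 2 ≤ β ν`. So `N` is
intransitive, `n ^ k ∈ Kn 1 y` with `k` coprime to `p`, `ρ (n ^ k) = 1 + k x''`, and `thick` applies. -/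
theorem nil_zero {ν a r : ℕ} (hν : rk (x - x * η * x) (D.Vb y r) ≤ ν) (ha : 2 * D.β * ν + 2 ≤ a)
    (hr : a + 4 * ν + 4 ≤ r) : ∀ v ∈ D.Vb y a, x (η (x v)) = x v := by
  obtain ⟨u, hu, eu⟩ := P.r0
  obtain ⟨g, hg, eg⟩ := P.r2
  have h1 : x * (x * η * x) = 0 := by rw [← mul_assoc, ← mul_assoc, P.xx, zero_mul, zero_mul]
  have h2 : x * η * x * x = 0 := by rw [mul_assoc (x * η), P.xx, mul_zero]
  have h3 : x * η * x * (x * η * x) = 0 := by rw [mul_assoc (x * η), h1, mul_zero]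
  have h4 : D.ρ (u * g⁻¹) = 1 + (x - x * η * x) := by
    rw [map_mul, eu, ρ_inv eg h3, add_mul, one_mul, mul_sub, mul_one, h1]
    abel
  have h5 : (x - x * η * x) * (x - x * η * x) = 0 := by
    rw [sub_mul, mul_sub, mul_sub, P.xx, h1, h2, h3]
    simp
  intro v hv
  have h6 := LPei_main (mul_mem hu (inv_mem hg)) h4 h5 hν ha hr v hv
  rw [LinearMap.sub_apply, sub_eq_zero] at h6
  exact h6.symm

end Partner

end LD

end Pool.Agent.Lib.MP_bf45aa_co
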