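import Pool.Agent.Lib.MP_bf45aa_co.LDef

set_option autoImplicit false
set_option linter.unusedSectionVars false

/-! Peirce decomposition with respect to a partner. -/

namespace Pool.Agent.Lib.MP_bf45aa_co

open Subgroup Module

section LPei0

variable {A : Type} [Ring A] {x η a : A}

theorem LPei0_r {u v w : A} (h : u * v = w) (t : A) : u * (v * t) = w * t := by
  rw [← mul_assoc, h]

theorem LPei0_r3 (h : η * x * η = η) (t : A) : η * (x * (η * t)) = η * t := by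
  rw [← mul_assoc, ← mul_assoc, h]

theorem LPei0_weyl (h1 : x * x = 0) (h3 : η * x * η = η) :
    (1 + x * η * x) * (1 - η) * (1 + x * η * x) = 1 - x * η - η * x + x * η * x - η := by
  simp only [mul_add, add_mul, mul_sub, sub_mul, mul_one, one_mul, mul_assoc, LPei0_r h1,
    LPei0_r3 h3, (mul_assoc _ _ _).symm.trans h3, zero_mul, mul_zero]
  abel

theorem LPei0_weyl' (h1 : x * x = 0) (h2 : η * η = 0) (h3 : η * x * η = η) :
    (1 - x * η - η * x + x * η * x - η) * (1 - x * η - η * x - x * η * x + η) = 1 := by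
  simp only [mul_add, add_mul, mul_sub, sub_mul, mul_one, one_mul, mul_assoc, LPei0_r h1,
    LPei0_r h2, LPei0_r3 h3, (mul_assoc _ _ _).symm.trans h3, h2, zero_mul, mul_zero]
  abel

theorem LPei0_conj (h1 : x * x = 0) (h3 : η * x * η = η) (h4 : a * x = 0)
    (h5 : x * a = 0) :
    (1 - x * η - η * x + x * η * x - η) * (a - x * η * a * (η * x) - (1 - x * η) * a * (1 - η * x))
      * (1 - x * η - η * x - x * η * x + η) = (1 - x * η) * a * η - η * a * (1 - η * x) := by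
  simp only [mul_add, add_mul, mul_sub, sub_mul, mul_one, one_mul, mul_assoc, LPei0_r h1,
    LPei0_r3 h3, (mul_assoc _ _ _).symm.trans h3, LPei0_r h4, LPei0_r h5, h5, zero_mul, mul_zero]
  abel

theorem LPei0_comm (h1 : x * x = 0) (h2 : η * η = 0) (h3 : η * x * η = η) (h4 : a * x = 0)
    (h5 : x * a = 0) (h6 : a * a = 0) {b d : A}
    (hb : b = a - x * η * a * (η * x) - (1 - x * η) * a * (1 - η * x))
    (hd : d = (1 - x * η) * a * η - η * a * (1 - η * x)) : d * d = 0 ∧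
    (1 + d) * (1 + b) * (1 - d) * (1 - b) = 1 + ((1 - x * η) * (a * η * a) * (1 - η * x) +
      (1 - x * η) * (a * η * a) * (1 - η * x)) := by
  obtain ⟨q, hq⟩ : ∃ q, q = (1 - x * η) * (a * η * a) * (1 - η * x) := ⟨_, rfl⟩
  have key : d * d = 0 ∧ b * b = 0 ∧ d * b = q ∧ b * d = -q ∧ q * d = 0 ∧ q * b = 0 := by
    subst hb hd hq
    simp only [mul_sub, sub_mul, mul_one, one_mul, mul_assoc, LPei0_r h1, LPei0_r h2, LPei0_r3 h3,
      LPei0_r h4, LPei0_r h5, LPei0_r h6, h5, h6, zero_mul, mul_zero]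
    refine ⟨?_, ?_, ?_, ?_, ?_, ?_⟩ <;> abel
  obtain ⟨e1, e2, e3, e4, e5, e6⟩ := key
  rw [← hq]
  refine ⟨e1, ?_⟩
  have e7 : (1 + d) * (1 + b) * (1 - d) = 1 + b + q + q := by
    simp only [mul_add, add_mul, mul_sub, mul_one, one_mul, e1, e3, e4, e5]
    abel
  rw [e7]
  simp only [add_mul, mul_sub, mul_one, one_mul, e2, e6]
  abel

theorem LPei0_sq {e f : A} (he : e * e = e) (hf : f * f = f) (a : A) :
    (1 + e) * ((1 + e) * a * (1 + f)) * (1 + f) =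
      a + 3 • (e * a) + 3 • (a * f) + 9 • (e * a * f) := by
  simp only [mul_add, add_mul, mul_one, one_mul, mul_assoc, LPei0_r he, hf]
  abel

end LPei0

theorem LPei0_ne {p : ℕ} [Fact p.Prime] (hp : 5 ≤ p) {n : ℕ} (h0 : n ≠ 0) (hn : n < 5) :
    (n : ZMod p) ≠ 0 := fun h =>
  absurd (Nat.le_of_dvd (Nat.pos_of_ne_zero h0) ((ZMod.natCast_eq_zero_iff n p).1 h)) (by omega)

namespace LD

variable {p : ℕ} [Fact p.Prime] {H X V : Type} [Group H] [MulAction H X] [AddCommGroup V]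
  [Module (ZMod p) V] {D : LD p H X V}

theorem Fr.mul {Z C : Submodule (ZMod p) V} (h : Z ≤ C) {a b : End (ZMod p) V} (ha : Fr Z C a)
    (hb : Fr Z C b) : a * b = 0 :=
  LinearMap.ext fun v => ha.2 _ (h (hb.1 v))

theorem ρ_pow {g : H} {a : End (ZMod p) V} (h : D.ρ g = 1 + a) (ha : a * a = 0) (n : ℕ) :
    D.ρ (g ^ n) = 1 + (n : ZMod p) • a := by
  induction n with
  | zero => simp
  | succ n ih =>
    rw [pow_succ, map_mul, ih, h, add_mul, one_mul, mul_add, mul_one, smul_mul_assoc, ha, smul_zero,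
      Nat.cast_succ, add_smul, one_smul]
    abel

theorem LPei0_inv {g : H} {a b : End (ZMod p) V} (h : D.ρ g = a) (hab : a * b = 1) :
    D.ρ g⁻¹ = b := by
  rw [← mul_one (D.ρ g⁻¹), ← hab, ← mul_assoc, ← h, D.ρ_inv_mul, one_mul]

theorem ρ_inv {g : H} {a : End (ZMod p) V} (h : D.ρ g = 1 + a) (ha : a * a = 0) :
    D.ρ g⁻¹ = 1 - a := by
  refine LPei0_inv h ?_
  rw [add_mul, one_mul, mul_sub, mul_one, ha, sub_zero, sub_add_cancel]

theorem LPei0_smul {S : Subgroup H} {a : End (ZMod p) V} (h : ∃ g ∈ S, D.ρ g = 1 + a)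
    (ha : a * a = 0) (c : ZMod p) : ∃ g ∈ S, D.ρ g = 1 + c • a := by
  obtain ⟨g, hg, e⟩ := h
  exact ⟨g ^ c.val, pow_mem hg _, by rw [ρ_pow e ha, ZMod.natCast_zmod_val]⟩

variable (D) in
/-- The operators in the frame realised in `Q y`. -/
def RL (y : X) {Z C : Submodule (ZMod p) V} (h : Z ≤ C) : Submodule (ZMod p) (End (ZMod p) V) where
  carrier := {a | Fr Z C a ∧ ∃ g ∈ D.Q y, D.ρ g = 1 + a}
  zero_mem' := ⟨⟨fun _ => zero_mem _, fun _ _ => rfl⟩, 1, one_mem _, by rw [map_one, add_zero]⟩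
  add_mem' := by
    rintro a b ⟨ha, g, hg, e⟩ ⟨hb, g', hg', e'⟩
    refine ⟨⟨fun v => add_mem (ha.1 v) (hb.1 v), fun v hv => ?_⟩, g * g', mul_mem hg hg', ?_⟩
    · rw [LinearMap.add_apply, ha.2 v hv, hb.2 v hv, add_zero]
    · rw [map_mul, e, e', add_mul, one_mul, mul_add, mul_one, ha.mul h hb]
      abel
  smul_mem' := by
    rintro c a ⟨ha, hg⟩
    refine ⟨⟨fun v => Z.smul_mem c (ha.1 v), fun v hv => ?_⟩, LPei0_smul hg (ha.mul h ha) c⟩
    rw [LinearMap.smul_apply, ha.2 v hv, smul_zero]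

theorem mem_RL {y : X} {Z C : Submodule (ZMod p) V} {h : Z ≤ C} {a : End (ZMod p) V} :
    a ∈ D.RL y h ↔ Fr Z C a ∧ ∃ g ∈ D.Q y, D.ρ g = 1 + a := Iff.rfl

namespace Partner

variable {y : X} {x η : End (ZMod p) V} (P : D.Partner y x η)
include P

theorem x_PA : x ∈ D.PA y := let ⟨_, hg, e⟩ := P.r0; D.mem_PA_of_real hg e

theorem η_PA : η ∈ D.PA y := let ⟨_, hg, e⟩ := P.r1; D.mem_PA_of_real hg e

theorem e_idem : x * η * (x * η) = x * η := by
  rw [mul_assoc x η, ← mul_assoc η, P.yxy]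

theorem f_idem : η * x * (η * x) = η * x := by
  rw [← mul_assoc, P.yxy]

/-- The Weyl element `w = (1 + x') (1 - η) (1 + x')`, `x' = x η x`. -/
theorem weyl : ∃ w ∈ St H y, D.ρ w = 1 - x * η - η * x + x * η * x - η ∧
    D.ρ w⁻¹ = 1 - x * η - η * x - x * η * x + η := by
  obtain ⟨g, hg, e⟩ := P.r1
  obtain ⟨g', hg', e'⟩ := P.r2
  have e1 : D.ρ (g' * g⁻¹ * g') = 1 - x * η - η * x + x * η * x - η := by
    rw [map_mul, map_mul, ρ_inv e P.sq, e', LPei0_weyl P.xx P.yxy]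
  exact ⟨_, mul_mem (mul_mem hg' (inv_mem hg)) hg', e1,
    LPei0_inv e1 (LPei0_weyl' P.xx P.sq P.yxy)⟩

/-- The torus element `s = (1 + 2 x') (1 - η / 2) (1 + 2 x') w⁻¹`. -/
theorem torus (hp : 5 ≤ p) : ∃ s ∈ St H y, D.ρ s = 1 + x * η - (2 : ZMod p)⁻¹ • (η * x) ∧
    D.ρ s⁻¹ = 1 - (2 : ZMod p)⁻¹ • (x * η) + η * x := by
  have h2 : (2 : ZMod p) ≠ 0 := by exact_mod_cast LPei0_ne hp (n := 2) (by omega) (by omega)
  obtain ⟨w, hw, -, e0⟩ := P.weyl
  obtain ⟨g, hg, e⟩ := LPei0_smul P.r1 P.sq (-(2 : ZMod p)⁻¹)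
  obtain ⟨g', hg', e'⟩ := LPei0_smul P.r2 (by
    simp only [mul_assoc, LPei0_r P.xx, zero_mul, mul_zero]) 2
  have e1 : D.ρ (g' * g * g' * w⁻¹) = 1 + x * η - (2 : ZMod p)⁻¹ • (η * x) := by
    rw [map_mul, map_mul, map_mul, e0, e, e']
    simp only [mul_add, add_mul, mul_sub, mul_one, one_mul, mul_assoc, smul_mul_assoc,
      mul_smul_comm, LPei0_r P.xx, LPei0_r P.sq, LPei0_r3 P.yxy,
      (mul_assoc _ _ _).symm.trans P.yxy, P.sq, zero_mul, mul_zero, smul_zero]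
    match_scalars <;> field_simp <;> ring
  refine ⟨_, mul_mem (mul_mem (mul_mem hg' hg) hg') (inv_mem hw), e1, LPei0_inv e1 ?_⟩
  simp only [mul_add, add_mul, mul_sub, sub_mul, mul_one, one_mul, mul_assoc, smul_mul_assoc,
    mul_smul_comm, LPei0_r P.xx, LPei0_r P.sq, LPei0_r3 P.yxy,
    (mul_assoc _ _ _).symm.trans P.yxy, zero_mul, mul_zero, smul_zero]
  match_scalars <;> field_simp <;> ring

/-- Conjugation by the torus element: `a e = 0` and `f a = 0`. -/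
theorem torus_conj (hp : 5 ≤ p) : ∃ s ∈ St H y, D.ρ s ∈ D.PA y ∧ ∀ a : End (ZMod p) V,
    a * x = 0 → x * a = 0 → D.ρ s * a * D.ρ s⁻¹ = (1 + x * η) * a * (1 + η * x) := by
  obtain ⟨s, hs, e, e'⟩ := P.torus hp
  refine ⟨s, hs, D.ρ_mem_PA hs, fun a h1 h2 => ?_⟩
  rw [e, e']
  simp only [mul_add, add_mul, mul_sub, sub_mul, mul_one, one_mul, mul_assoc, smul_mul_assoc,
    mul_smul_comm, LPei0_r h1, h2, zero_mul, mul_zero, add_zero, smul_zero, sub_zero]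

variable {Z C : Submodule (ZMod p) V} {h : Z ≤ C}

theorem LPei0_sig (hp : 5 ≤ p) (hx : Fr Z C x) {a : End (ZMod p) V} (ha : a ∈ D.RL y h) :
    (1 + x * η) * a * (1 + η * x) ∈ D.RL y h := by
  obtain ⟨s, hs, -, e⟩ := P.torus_conj hp
  obtain ⟨h1, g, hg, h2⟩ := ha
  refine ⟨⟨fun v => ?_, fun v hv => ?_⟩, s * g * s⁻¹, D.Q_conj_St hs hg, ?_⟩
  · exact add_mem (h1.1 _) (hx.1 _)
  · simp [hx.2 v hv, h1.2 v hv]
  · rw [map_mul, map_mul, h2, mul_add, add_mul, mul_one, D.ρ_mul_inv,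
      e a (h1.mul h hx) (hx.mul h h1)]

/-- With `σ a = (1 + e) a (1 + f)`: `σ (σ a) - 3 σ a + 2 a = 6 e a f`. -/
theorem P2_mem (hp : 5 ≤ p) (hx : Fr Z C x) {a : End (ZMod p) V} (ha : a ∈ D.RL y h) :
    x * η * a * (η * x) ∈ D.RL y h := by
  have h2 : (2 : ZMod p) ≠ 0 := by exact_mod_cast LPei0_ne hp (n := 2) (by omega) (by omega)
  have h3 : (3 : ZMod p) ≠ 0 := by exact_mod_cast LPei0_ne hp (n := 3) (by omega) (by omega)
  have s1 := P.LPei0_sig hp hx ha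
  have s2 := P.LPei0_sig hp hx s1
  rw [LPei0_sq P.e_idem P.f_idem] at s2
  have s3 := (D.RL y h).smul_mem ((2 : ZMod p) * 3)⁻¹ (add_mem (sub_mem s2
    ((D.RL y h).smul_mem (3 : ZMod p) s1)) ((D.RL y h).smul_mem (2 : ZMod p) ha))
  convert s3 using 1
  simp only [mul_add, add_mul, mul_one, one_mul]
  match_scalars <;> field_simp <;> ring

/-- `σ (σ a) - 6 σ a + 8 a = 3 (1 - e) a (1 - f)`. -/
theorem P0_mem (hp : 5 ≤ p) (hx : Fr Z C x) {a : End (ZMod p) V} (ha : a ∈ D.RL y h) :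
    (1 - x * η) * a * (1 - η * x) ∈ D.RL y h := by
  have h3 : (3 : ZMod p) ≠ 0 := by exact_mod_cast LPei0_ne hp (n := 3) (by omega) (by omega)
  have s1 := P.LPei0_sig hp hx ha
  have s2 := P.LPei0_sig hp hx s1
  rw [LPei0_sq P.e_idem P.f_idem] at s2
  have s3 := (D.RL y h).smul_mem (3 : ZMod p)⁻¹ (add_mem (sub_mem s2
    ((D.RL y h).smul_mem (6 : ZMod p) s1)) ((D.RL y h).smul_mem (8 : ZMod p) ha))
  convert s3 using 1
  simp only [mul_add, add_mul, mul_sub, sub_mul, mul_one, one_mul]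
  match_scalars <;> field_simp <;> ring

/-- Let `a₁ = b + c` be the Peirce-1 part, `b = e a (1 - f)`, `c = (1 - e) a f`, realised by `g`.
Then `w a₁ w⁻¹ = c η - η b`, and the commutator of `w g w⁻¹` and `g` acts as `1 + 2 c η b`, with
`c η b = (1 - e) a η a (1 - f)`. -/
theorem Q_mem (hp : 5 ≤ p) (hx : Fr Z C x) {a : End (ZMod p) V} (ha : a ∈ D.RL y h) :
    (1 - x * η) * (a * η * a) * (1 - η * x) ∈ D.RL y h := by
  have h2 : (2 : ZMod p) ≠ 0 := by exact_mod_cast LPei0_ne hp (n := 2) (by omega) (by omega)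
  obtain ⟨h1, g, hg, e⟩ := sub_mem (sub_mem ha (P.P2_mem hp hx ha)) (P.P0_mem hp hx ha)
  obtain ⟨w, hw, e1, e2⟩ := P.weyl
  have ax := ha.1.mul h hx
  have xa := hx.mul h ha.1
  have e3 : D.ρ (w * g * w⁻¹) = 1 + ((1 - x * η) * a * η - η * a * (1 - η * x)) := by
    rw [map_mul, map_mul, e, mul_add, add_mul, mul_one, D.ρ_mul_inv, e1, e2,
      LPei0_conj P.xx P.yxy ax xa]
  obtain ⟨e4, e5⟩ := LPei0_comm P.xx P.sq P.yxy ax xa (ha.1.mul h ha.1) rfl rfl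
  have hg' := D.Q_conj_St hw hg
  have hq : Fr Z C ((1 - x * η) * (a * η * a) * (1 - η * x)) :=
    ⟨fun v => sub_mem (ha.1.1 _) (hx.1 _), fun v hv => by simp [hx.2 v hv, ha.1.2 v hv]⟩
  have s : (1 - x * η) * (a * η * a) * (1 - η * x) + (1 - x * η) * (a * η * a) * (1 - η * x) ∈
      D.RL y h := by
    refine ⟨⟨fun v => add_mem (hq.1 v) (hq.1 v), fun v hv => ?_⟩,
      w * g * w⁻¹ * g * (w * g * w⁻¹)⁻¹ * g⁻¹,
      mul_mem (mul_mem (mul_mem hg' hg) (inv_mem hg')) (inv_mem hg), ?_⟩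
    · rw [LinearMap.add_apply, hq.2 v hv, add_zero]
    · rw [map_mul, map_mul, map_mul, ρ_inv e3 e4, ρ_inv e (h1.mul h h1), e3, e, e5]
  convert (D.RL y h).smul_mem (2 : ZMod p)⁻¹ s using 1
  rw [← two_smul (ZMod p), smul_smul, inv_mul_cancel₀ h2, one_smul]

end Partner

end LD

end Pool.Agent.Lib.MP_bf45aa_co
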