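import Pool.Agent.Lib.MP_bf45aa_co.LPei0

set_option autoImplicit false
set_option linter.unusedSectionVars false

/-! Rank inequalities. -/

namespace Pool.Agent.Lib.MP_bf45aa_co

open Subgroup Module

theorem LPei1_indep {F V : Type*} [Field F] [AddCommGroup V] [Module F V] {A B N : Submodule F V}
    [Module.Finite F N] (e : End F V) (hA : ∀ v ∈ A, e v = v) (hB : ∀ v ∈ B, e v = 0)
    (h1 : A ≤ N) (h2 : B ≤ N) : finrank F A + finrank F B ≤ finrank F N := by
  have : Module.Finite F A := Submodule.finiteDimensional_of_le h1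
  have : Module.Finite F B := Submodule.finiteDimensional_of_le h2
  have h3 : A ⊓ B = ⊥ := by
    rw [eq_bot_iff]
    intro v hv
    exact (Submodule.mem_bot F).2 ((hA v hv.1).symm.trans (hB v hv.2))
  have h4 := Submodule.finrank_sup_add_finrank_inf_eq A B
  rw [h3, finrank_bot, add_zero] at h4
  rw [← h4]
  exact finrank_mono' (sup_le h1 h2)

theorem LPei1_rn {F V : Type*} [Field F] [AddCommGroup V] [Module F V] (c : End F V)
    {A N : Submodule F V} [Module.Finite F N] (h1 : A ≤ N) (h2 : ∀ v ∈ A, c v = 0) :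
    rk c N + finrank F A ≤ finrank F N := by
  have h3 := LinearMap.finrank_range_add_finrank_ker (c.domRestrict N)
  have h4 : LinearMap.range (c.domRestrict N) = N.map c := by
    rw [LinearMap.range_domRestrict]
  have h5 : finrank F A ≤ finrank F (LinearMap.ker (c.domRestrict N)) := by
    have h6 : A ≤ (LinearMap.ker (c.domRestrict N)).map N.subtype := fun v hv =>
      ⟨⟨v, h1 hv⟩, h2 v hv, rfl⟩
    exact (finrank_mono' h6).trans (Submodule.finrank_map_le _ _)
  rw [h4] at h3
  unfold rk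
  omega

namespace LD

variable {p : ℕ} [Fact p.Prime] {H X V : Type} [Group H] [MulAction H X] [AddCommGroup V]
  [Module (ZMod p) V] {D : LD p H X V}

namespace Partner

variable {y : X} {x η : End (ZMod p) V} (P : D.Partner y x η)
include P

variable {Z C : Submodule (ZMod p) V} {h : Z ≤ C}

/-- The images of `e` and of `x - x η x = (1 - e) x` are independent and lie in the image of `x`
(`e v = x (η v)`, and `(1 - e) x v = x ((1 - f) v)`). -/
theorem rk_add_rk (r : ℕ) :
    rk (x * η) (D.Vb y r) + rk (x - x * η * x) (D.Vb y r) ≤ rk x (D.Vb y r) := by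
  have hx := P.x_PA
  have hη := P.η_PA
  refine LPei1_indep (N := (D.Vb y r).map x) (x * η) ?_ ?_ ?_ ?_
  · rintro _ ⟨v, -, rfl⟩
    rw [← End.mul_apply, P.e_idem]
  · rintro _ ⟨v, -, rfl⟩
    rw [← End.mul_apply, mul_sub, ← mul_assoc, P.e_idem, sub_self]
    rfl
  · rintro _ ⟨v, hv, rfl⟩
    exact ⟨η v, hη r v hv, rfl⟩
  · rintro _ ⟨v, hv, rfl⟩
    exact ⟨v - η (x v), sub_mem hv (hη r _ (hx r v hv)), by rw [map_sub]; rfl⟩

/-- On `M = Vb y r`, `a = b + c`; `rk c M + finrank (η b M) ≤ rk f M ≤ rk e M` as `η b M` lies in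
`f M ⊓ ker c`, and `η` is injective on the image of `e`. -/
theorem rk_le_rk {a : End (ZMod p) V} (ha : a ∈ D.PA y) (r : ℕ)
    (h2 : ∀ v ∈ D.Vb y r, (x * η * a * (η * x)) v = 0)
    (h0 : ∀ v ∈ D.Vb y r, ((1 - x * η) * a * (1 - η * x)) v = 0)
    (hq : ∀ v ∈ D.Vb y r, ((1 - x * η) * (a * η * a) * (1 - η * x)) v = 0) :
    rk a (D.Vb y r) ≤ rk (x * η) (D.Vb y r) := by
  have hx := P.x_PA
  have hη := P.η_PA
  have he : x * η ∈ D.PA y := mul_mem hx hη
  have hf : η * x ∈ D.PA y := mul_mem hη hx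
  have hb : x * η * a * (1 - η * x) ∈ D.PA y := mul_mem (mul_mem he ha) (sub_mem (one_mem _) hf)
  have k1 : η * x * η = η := P.yxy
  have k2 : η * (x * η) = η := by rw [← mul_assoc, k1]
  have s1 : rk a (D.Vb y r) =
      rk (x * η * a * (1 - η * x) + (1 - x * η) * a * (η * x)) (D.Vb y r) := by
    refine rk_congr fun v hv => ?_
    have e : a = x * η * a * (1 - η * x) + (1 - x * η) * a * (η * x) +
        x * η * a * (η * x) + (1 - x * η) * a * (1 - η * x) := by noncomm_ring
    have e2 := LinearMap.congr_fun e v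
    rw [LinearMap.add_apply, LinearMap.add_apply, h2 v hv, h0 v hv, add_zero, add_zero] at e2
    exact e2
  have s2 : rk (x * η * a * (1 - η * x)) (D.Vb y r) ≤
      rk (η * (x * η * a * (1 - η * x))) (D.Vb y r) := by
    have e : x * η * a * (1 - η * x) = x * (η * (x * η * a * (1 - η * x))) := by
      rw [← mul_assoc η, ← mul_assoc η, k2, ← mul_assoc, ← mul_assoc]
    have e2 := rk_mul_le_right x (η * (x * η * a * (1 - η * x))) (D.Vb y r)
    rwa [← e] at e2
  have s3 : rk ((1 - x * η) * a * (η * x)) (D.Vb y r) =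
      rk ((1 - x * η) * a * (η * x)) ((D.Vb y r).map (η * x)) := by
    rw [← rk_mul, mul_assoc _ (η * x) (η * x), P.f_idem]
  have s4 := LPei1_rn ((1 - x * η) * a * (η * x))
    (A := (D.Vb y r).map (η * (x * η * a * (1 - η * x)))) (N := (D.Vb y r).map (η * x))
    (by
      rintro _ ⟨v, hv, rfl⟩
      refine ⟨η ((x * η * a * (1 - η * x)) v), hη r _ (hb r v hv), ?_⟩
      rw [← End.mul_apply, k1]
      rfl)
    (by
      rintro _ ⟨v, hv, rfl⟩
      have e : (1 - x * η) * a * (η * x) * (η * (x * η * a * (1 - η * x))) =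
          (1 - x * η) * (a * η * a) * (1 - η * x) := by
        calc _ = (1 - x * η) * a * (η * x * η * (x * η)) * a * (1 - η * x) := by
              simp only [mul_assoc]
          _ = _ := by rw [k1, k2]; simp only [mul_assoc]
      rw [← End.mul_apply, e]
      exact hq v hv)
  have s5 : finrank (ZMod p) ((D.Vb y r).map (η * x)) ≤ rk (x * η) (D.Vb y r) := by
    have e : η * x = η * (x * η) * x := by rw [k2]
    have e2 : rk (η * (x * η) * x) (D.Vb y r) ≤ rk (η * (x * η)) (D.Vb y r) :=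
      rk_mul_le_left _ fun v hv => hx r v hv
    rw [← e] at e2
    exact e2.trans (rk_mul_le_right _ _ _)
  have s6 := rk_add_le (x * η * a * (1 - η * x)) ((1 - x * η) * a * (η * x)) (D.Vb y r)
  unfold rk at *
  omega

/-- The two subspaces on the left are independent and lie in the space on the right. -/
theorem drop0 (hx : Fr Z C x) {σ r r' : ℕ} (hy : Near D.Γ σ D.o y) (hr : r + 2 * σ ≤ r') :
    finrank (ZMod p) (Z.map (1 - x * η) ⊓ D.Vb D.o r : Submodule (ZMod p) V) +
      rk (x * η) (D.Vb D.o r) ≤ finrank (ZMod p) (Z ⊓ D.Vb D.o r' : Submodule (ZMod p) V) := by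
  have he : x * η ∈ D.PA y := mul_mem P.x_PA P.η_PA
  have : Module.Finite (ZMod p) (Z ⊓ D.Vb D.o r' : Submodule (ZMod p) V) :=
    Submodule.finiteDimensional_of_le inf_le_right
  rw [add_comm]
  refine LPei1_indep (x * η) ?_ ?_ ?_ ?_
  · rintro _ ⟨v, -, rfl⟩
    rw [← End.mul_apply, P.e_idem]
  · rintro _ ⟨⟨v, -, rfl⟩, -⟩
    rw [← End.mul_apply, mul_sub, mul_one, P.e_idem, sub_self]
    rfl
  · rintro _ ⟨v, hv, rfl⟩
    exact ⟨hx.1 _, D.PA_shift he hy hr hv⟩
  · rintro _ ⟨⟨v, hv, rfl⟩, h2⟩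
    exact ⟨sub_mem hv (hx.1 (η v)), D.Vb_mono _ (by omega) h2⟩

end Partner

end LD

end Pool.Agent.Lib.MP_bf45aa_co
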