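import Pool.Agent.Lib.MP_bf45aa_co.LMat

set_option autoImplicit false

/-! Linear algebra: eigenvalues on sections, isotropic vectors, faithful subspaces. -/

namespace Pool.Agent.Lib.MP_bf45aa_co

open Polynomial Module

variable {p : ℕ} [Fact p.Prime] {V : Type*} [AddCommGroup V] [Module (ZMod p) V]

theorem LPoly0_rad {F K : Type*} [Field F] [Field K] [Algebra F K] [IsAlgClosed K] {μ φ : F[X]}
    (hμ : μ ≠ 0) (h : ∀ τ : K, aeval τ μ = 0 → aeval τ φ = 0) : ∃ n : ℕ, μ ∣ φ ^ n := by
  set μ' := μ.map (algebraMap F K) with hμ'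
  have h0 : μ' ≠ 0 := (Polynomial.map_ne_zero_iff (algebraMap F K).injective).2 hμ
  refine ⟨μ'.roots.card, ?_⟩
  rw [← Polynomial.map_dvd_map' (algebraMap F K), Polynomial.map_pow, ← hμ']
  have h1 := (IsAlgClosed.splits μ').eq_prod_roots
  have h2 : (μ'.roots.map fun τ => X - C τ).prod ∣ φ.map (algebraMap F K) ^ μ'.roots.card := by
    have h3 : φ.map (algebraMap F K) ^ μ'.roots.card =
        (μ'.roots.map fun _ => φ.map (algebraMap F K)).prod := by simp
    rw [h3]
    refine Multiset.prod_dvd_prod_of_dvd _ _ fun τ hτ => ?_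
    rw [dvd_iff_isRoot, IsRoot.def, eval_map_algebraMap]
    apply h
    rw [← eval_map_algebraMap]
    exact (mem_roots h0).1 hτ
  conv_lhs => rw [h1]
  exact (IsUnit.mul_left_dvd (isUnit_C.2 (leadingCoeff_ne_zero.2 h0).isUnit)).2 h2

theorem LPoly0_restrict {F W : Type*} [Field F] [AddCommGroup W] [Module F W] (a : End F W)
    {M : Submodule F W} (hM : ∀ v ∈ M, a v ∈ M) (φ : F[X]) (v : M) :
    (aeval (a.restrict hM) φ v : W) = aeval a φ v := by
  induction φ using Polynomial.induction_on' with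
  | add φ ψ h1 h2 => simp [h1, h2]
  | monomial n c =>
    simp only [aeval_monomial, End.mul_apply, algebraMap_end_apply, Submodule.coe_smul]
    rw [End.pow_restrict]
    rfl

theorem LPoly0_ann {F W : Type*} [Field F] [AddCommGroup W] [Module F W] (a : End F W)
    {M : Submodule F W} [Module.Finite F M] (hM : ∀ v ∈ M, a v ∈ M) :
    ∃ μ : F[X], μ ≠ 0 ∧ ∀ v ∈ M, aeval a μ v = 0 := by
  refine ⟨(a.restrict hM).charpoly, (LinearMap.charpoly_monic _).ne_zero, fun v hv => ?_⟩
  rw [← LPoly0_restrict a hM _ ⟨v, hv⟩, LinearMap.aeval_self_charpoly]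
  rfl

/-- The polynomials in `a` that map `A` into `A'`. -/
def LPoly0_ideal {F W : Type*} [Field F] [AddCommGroup W] [Module F W] (a : End F W)
    (A : Submodule F W) {A' : Submodule F W} (hA' : ∀ v ∈ A', a v ∈ A') : Ideal F[X] where
  carrier := {φ | ∀ v ∈ A, aeval a φ v ∈ A'}
  zero_mem' := fun v _ => by simp
  add_mem' := fun {φ ψ} h1 h2 v hv => by
    rw [map_add]
    exact add_mem (h1 v hv) (h2 v hv)
  smul_mem' := fun ψ φ h v hv => by
    rw [smul_eq_mul, map_mul]
    exact aeval_apply_smul_mem_of_le_comap (h v hv) ψ a hA'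

/-- Let `μ` be the minimal polynomial of `a` restricted to `M` and `T` its set of roots in the
algebraic closure. If `φ` vanishes on `T` then `μ ∣ φ ^ n` (map to the algebraic closure, where `μ`
splits). The polynomials `φ` with `φ(a) A ≤ A'` form an ideal containing `μ`, generated by some
monic `μ' ∣ μ`, and `μ'` is not a power of `X`, so it has a root `τ₀ ≠ 0`. -/
theorem exists_roots (a : End (ZMod p) V) {M A A' : Submodule (ZMod p) V}
    [Module.Finite (ZMod p) M] (hM : ∀ v ∈ M, a v ∈ M) (hA : A ≤ M) (hA' : ∀ v ∈ A', a v ∈ A')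
    (h : ¬ NilOn a A A') :
    ∃ (T : Finset (AlgebraicClosure (ZMod p))) (τ₀ : AlgebraicClosure (ZMod p)), τ₀ ≠ 0 ∧
      (∀ φ : (ZMod p)[X], (∀ τ ∈ T, aeval τ φ = 0) → NilOn (aeval a φ) M ⊥) ∧
      ∀ φ : (ZMod p)[X], NilOn (aeval a φ) A A' → aeval τ₀ φ = 0 := by
  classical
  obtain ⟨μ, hμ, hμ'⟩ := LPoly0_ann a hM
  obtain ⟨g, hg⟩ := (IsPrincipalIdealRing.principal (LPoly0_ideal a A hA')).principal
  have hmem : ∀ φ : (ZMod p)[X], (∀ v ∈ A, aeval a φ v ∈ A') ↔ g ∣ φ := fun φ => by
    rw [← Ideal.mem_span_singleton, ← Ideal.submodule_span_eq, ← hg]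
    rfl
  have hg0 : g ≠ 0 := by
    rintro rfl
    refine hμ (zero_dvd_iff.1 ((hmem μ).1 fun v hv => ?_))
    rw [hμ' v (hA hv)]
    exact zero_mem _
  have hτ : ∃ τ₀ : AlgebraicClosure (ZMod p), aeval τ₀ g = 0 ∧ τ₀ ≠ 0 := by
    by_contra hc
    push Not at hc
    obtain ⟨n, hn⟩ := LPoly0_rad (K := AlgebraicClosure (ZMod p)) (φ := X) hg0
      fun τ hτ => by rw [aeval_X, hc τ hτ]
    refine h ⟨n, fun v hv => ?_⟩
    have h1 := (hmem _).2 hn v hv
    rwa [map_pow, aeval_X] at h1
  obtain ⟨τ₀, h1, h2⟩ := hτ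
  refine ⟨(μ.aroots (AlgebraicClosure (ZMod p))).toFinset, τ₀, h2, fun φ hφ => ?_, ?_⟩
  · obtain ⟨n, ψ, hn⟩ := LPoly0_rad (K := AlgebraicClosure (ZMod p)) (φ := φ) hμ fun τ hτ =>
      hφ τ (Multiset.mem_toFinset.2 (mem_aroots.2 ⟨hμ, hτ⟩))
    refine ⟨n, fun v hv => ?_⟩
    rw [← map_pow, hn, mul_comm, map_mul, End.mul_apply, hμ' v hv, map_zero]
    exact zero_mem _
  · rintro φ ⟨n, hn⟩
    obtain ⟨ψ, hψ⟩ := (hmem (φ ^ n)).1 fun v hv => by
      rw [map_pow]
      exact hn v hv
    have h3 := congrArg (aeval τ₀) hψ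
    rw [map_mul, h1, zero_mul, map_pow] at h3
    exact eq_zero_of_pow_eq_zero h3

/-- Chevalley-Warning (`char_dvd_card_solutions_of_fintype_sum_lt`): in bases of `M` and `E` the
equation `q x x = 0` is a system of `finrank E` homogeneous equations of degree `2`. -/
theorem exists_isotropic {M E : Type*} [AddCommGroup M] [Module (ZMod p) M] [AddCommGroup E]
    [Module (ZMod p) E] [Module.Finite (ZMod p) M] [Module.Finite (ZMod p) E]
    (q : M →ₗ[ZMod p] M →ₗ[ZMod p] E) (h : 2 * finrank (ZMod p) E < finrank (ZMod p) M) :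
    ∃ x, x ≠ 0 ∧ q x x = 0 := by
  classical
  set bM := Module.finBasis (ZMod p) M
  set bE := Module.finBasis (ZMod p) E
  set f : Fin (finrank (ZMod p) E) → MvPolynomial (Fin (finrank (ZMod p) M)) (ZMod p) :=
    fun j => ∑ i, ∑ i', MvPolynomial.C (bE.repr (q (bM i) (bM i')) j) *
      (MvPolynomial.X i * MvPolynomial.X i') with hf
  have hdeg : ∀ j, (f j).totalDegree ≤ 2 := by
    intro j
    refine MvPolynomial.totalDegree_finsetSum_le fun i _ =>
      MvPolynomial.totalDegree_finsetSum_le fun i' _ => ?_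
    refine (MvPolynomial.totalDegree_mul _ _).trans ?_
    rw [MvPolynomial.totalDegree_C, zero_add]
    refine (MvPolynomial.totalDegree_mul _ _).trans ?_
    rw [MvPolynomial.totalDegree_X, MvPolynomial.totalDegree_X]
  have hsum : ∑ j, (f j).totalDegree < Fintype.card (Fin (finrank (ZMod p) M)) := by
    refine (Finset.sum_le_card_nsmul _ _ 2 fun j _ => hdeg j).trans_lt ?_
    simp only [Finset.card_univ, Fintype.card_fin, smul_eq_mul]
    omega
  have hev : ∀ x j, MvPolynomial.eval x (f j) =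
      bE.repr (q (∑ i, x i • bM i) (∑ i, x i • bM i)) j := by
    intro x j
    simp only [hf, map_sum, map_mul, MvPolynomial.eval_C, MvPolynomial.eval_X, map_smul,
      LinearMap.sum_apply, LinearMap.smul_apply, Finsupp.coe_finsetSum, Finset.sum_apply,
      Finsupp.coe_smul, Pi.smul_apply, smul_eq_mul, Finset.mul_sum]
    rw [Finset.sum_comm]
    refine Finset.sum_congr rfl fun i _ => Finset.sum_congr rfl fun i' _ => ?_
    ring
  have hdvd := char_dvd_card_solutions_of_fintype_sum_lt p hsum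
  have hz : ∀ j, MvPolynomial.eval 0 (f j) = 0 := fun j => by
    rw [hev]
    simp
  have hpos : 0 < Fintype.card {x // ∀ j, MvPolynomial.eval x (f j) = 0} :=
    Fintype.card_pos_iff.2 ⟨⟨0, hz⟩⟩
  have h1 : 1 < Fintype.card {x // ∀ j, MvPolynomial.eval x (f j) = 0} :=
    (Fact.out : p.Prime).one_lt.trans_le (Nat.le_of_dvd hpos (by convert hdvd))
  obtain ⟨⟨x, hx⟩, hx0⟩ := Fintype.exists_ne_of_one_lt_card h1 ⟨0, hz⟩
  refine ⟨∑ i, x i • bM i, fun h0 => hx0 (Subtype.ext (funext fun i => ?_)), ?_⟩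
  · exact Fintype.linearIndependent_iff.1 bM.linearIndependent x h0 i
  · refine bE.ext_elem fun j => ?_
    rw [← hev, hx j]
    simp

/-- Either the image of `L` has `n` independent vectors (lift them), or it has rank `< n`. -/
theorem faithful_or_small {F W E : Type*} [Field F] [AddCommGroup W] [Module F W] [AddCommGroup E]
    [Module F E] (r : W →ₗ[F] E) (L : Submodule F W) (n : ℕ) :
    (∃ B ≤ L, Module.Finite F B ∧ n ≤ finrank F B ∧ ∀ a ∈ B, r a = 0 → a = 0) ∨
      (Module.Finite F (L.map r) ∧ finrank F (L.map r) < n) := by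
  by_cases h : (n : Cardinal) ≤ Module.rank F (L.map r)
  · left
    obtain ⟨f, hf⟩ := exists_linearIndependent_of_le_rank h
    choose w hw hw' using fun i => Submodule.mem_map.1 (f i).2
    have h1 : LinearIndependent F (r ∘ w) := by
      have h2 : r ∘ w = (L.map r).subtype ∘ f := funext fun i => hw' i
      rw [h2]
      exact hf.map' _ (Submodule.ker_subtype _)
    refine ⟨Submodule.span F (Set.range w), Submodule.span_le.2 ?_,
      Module.Finite.span_of_finite F (Set.finite_range w), ?_, fun a ha h0 => ?_⟩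
    · rintro _ ⟨i, rfl⟩
      exact hw i
    · rw [finrank_span_eq_card (h1.of_comp r), Fintype.card_fin]
    · obtain ⟨c, rfl⟩ := (Submodule.mem_span_range_iff_exists_fun F).1 ha
      have h3 := Fintype.linearIndependent_iff.1 h1 c (by simpa using h0)
      simp [h3]
  · right
    rw [not_le] at h
    exact ⟨Module.rank_lt_aleph0_iff.1 (h.trans Cardinal.natCast_lt_aleph0),
      finrank_lt_of_rank_lt h⟩

/-- The kernel of a map with small image has small codimension. -/
theorem finrank_le_ker_add {F W E : Type*} [Field F] [AddCommGroup W] [Module F W]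
    [AddCommGroup E] [Module F E] (r : W →ₗ[F] E) (B : Submodule F W) [Module.Finite F B]
    (S : Submodule F E) [Module.Finite F S] (h : ∀ a ∈ B, r a ∈ S) :
    finrank F B ≤ finrank F (B ⊓ LinearMap.ker r : Submodule F W) + finrank F S := by
  set f : B →ₗ[F] S := r.restrict h with hf
  have h1 := LinearMap.finrank_range_add_finrank_ker f
  have h2 : finrank F (LinearMap.range f) ≤ finrank F S := Submodule.finrank_le _
  have h3 : (LinearMap.ker f).map B.subtype = B ⊓ LinearMap.ker r := by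
    rw [hf, LinearMap.ker_restrict, Submodule.map_comap_subtype]
  rw [← h3, Submodule.finrank_map_subtype_eq]
  omega

end Pool.Agent.Lib.MP_bf45aa_co
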