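import Pool.Agent.Lib.MP_bf45aa_co.LMat

set_option autoImplicit false

/-! Pairs of quadratic elements. -/

namespace Pool.Agent.Lib.MP_bf45aa_co

open Polynomial Subgroup
open scoped MatrixGroups

variable {p : ℕ} [Fact p.Prime] {G A : Type*} [Group G] [Ring A] [Algebra (ZMod p) A]

theorem tau_comm_left {x y : A} (hx : x * x = 0) : Commute (tau x y) x := by
  unfold tau Commute SemiconjBy
  rw [add_mul, mul_add, mul_assoc y, ← mul_assoc x x, hx, mul_zero, zero_mul, add_zero, zero_add,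
    mul_assoc]

theorem tau_comm_right {x y : A} (hy : y * y = 0) : Commute (tau x y) y := by
  have := tau_comm_left (y := x) hy
  unfold tau at this ⊢
  rwa [add_comm]

theorem LQuad0_conj (ρ : G →* A) (u g : G) :
    ρ (g * u * g⁻¹) - 1 = ρ g * (ρ u - 1) * ρ g⁻¹ := by
  rw [mul_sub, sub_mul, mul_one, ← map_mul ρ g g⁻¹, mul_inv_cancel, map_one, map_mul, map_mul]

theorem conj_sq (ρ : G →* A) {u : G} (hu : (ρ u - 1) * (ρ u - 1) = 0) (g : G) :
    (ρ (g * u * g⁻¹) - 1) * (ρ (g * u * g⁻¹) - 1) = 0 := by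
  have h1 : ρ g⁻¹ * ρ g = 1 := by rw [← map_mul, inv_mul_cancel, map_one]
  rw [LQuad0_conj]
  calc ρ g * (ρ u - 1) * ρ g⁻¹ * (ρ g * (ρ u - 1) * ρ g⁻¹)
      = ρ g * ((ρ u - 1) * (ρ g⁻¹ * ρ g) * (ρ u - 1)) * ρ g⁻¹ := by simp only [mul_assoc]
    _ = 0 := by rw [h1, mul_one, hu, mul_zero, zero_mul]

theorem LQuad0_inv (ρ : G →* A) {u : G} (hu : (ρ u - 1) * (ρ u - 1) = 0) :
    ρ u⁻¹ = 1 - (ρ u - 1) := by
  have h1 : ρ u⁻¹ * ρ u = 1 := by rw [← map_mul, inv_mul_cancel, map_one]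
  have h2 : ρ u * (1 - (ρ u - 1)) = 1 - (ρ u - 1) * (ρ u - 1) := by noncomm_ring
  rw [hu, sub_zero] at h2
  rw [← mul_one (ρ u⁻¹), ← h2, ← mul_assoc, h1, one_mul, h2]

theorem LQuad0_mul {x y : A} (hx : x * x = 0) (hy : y * y = 0) (a b c d : A) {a' b' c' d' : A}
    (ha : Commute x a' ∧ Commute y a') (hb : Commute x b' ∧ Commute y b')
    (hc : Commute x c' ∧ Commute y c') (hd : Commute x d' ∧ Commute y d') :
    (a + b * x + c * y + d * (x * y)) * (a' + b' * x + c' * y + d' * (x * y)) =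
      (a * a' + c * b' * tau x y) + (a * b' + b * a' + d * b' * tau x y) * x +
        (a * c' + c * a' + c * d' * tau x y) * y +
        (a * d' + d * a' + d * d' * tau x y + b * c' - c * b') * (x * y) := by
  have hxx : ∀ z, x * (x * z) = 0 := fun z => by rw [← mul_assoc, hx, zero_mul]
  have hyy : ∀ z, y * (y * z) = 0 := fun z => by rw [← mul_assoc, hy, zero_mul]
  simp only [tau, add_mul, mul_add, sub_mul, mul_assoc, ha.1.eq, ha.2.eq, ha.1.left_comm,
    hb.1.left_comm, hb.2.left_comm, hc.1.left_comm, hc.2.left_comm, hd.1.left_comm,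
    hd.2.left_comm, hx, hy, hxx, hyy, mul_zero, add_zero, zero_add]
  abel

/-- The relation between matrices and elements of the algebra. -/
def LQuad0_Rel (x y : A) (M : Matrix (Fin 2) (Fin 2) (ZMod p)[X]) (o : A) : Prop :=
  ∃ a b c d : (ZMod p)[X], M = !![a + d * X, b; c * X, a] ∧
    o = aeval (tau x y) a + aeval (tau x y) b * x + aeval (tau x y) c * y +
      aeval (tau x y) d * (x * y)

theorem LQuad0_Rel.un {x y o o' : A} {M : Matrix (Fin 2) (Fin 2) (ZMod p)[X]}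
    (h : LQuad0_Rel x y M o) (h' : LQuad0_Rel x y M o') : o = o' := by
  obtain ⟨a, b, c, d, rfl, rfl⟩ := h
  obtain ⟨a', b', c', d', e, rfl⟩ := h'
  obtain rfl : a = a' := congrFun (congrFun e 1) 1
  obtain rfl : b = b' := congrFun (congrFun e 0) 1
  obtain rfl : c = c' := mul_right_cancel₀ X_ne_zero (congrFun (congrFun e 1) 0)
  obtain rfl : d = d' := mul_right_cancel₀ X_ne_zero (add_left_cancel (congrFun (congrFun e 0) 0))
  rfl

theorem LQuad0_Rel.add {x y o o' : A} {M M' : Matrix (Fin 2) (Fin 2) (ZMod p)[X]}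
    (h : LQuad0_Rel x y M o) (h' : LQuad0_Rel x y M' o') : LQuad0_Rel x y (M + M') (o + o') := by
  obtain ⟨a, b, c, d, rfl, rfl⟩ := h
  obtain ⟨a', b', c', d', rfl, rfl⟩ := h'
  refine ⟨a + a', b + b', c + c', d + d', ?_, ?_⟩
  · ext1 i j
    fin_cases i <;> fin_cases j <;> simp <;> ring
  · simp only [map_add, add_mul]
    abel

theorem LQuad0_comm {x t : A} (h : Commute t x) (f : (ZMod p)[X]) : Commute x (aeval t f) := by
  induction f using Polynomial.induction_on' with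
  | add f g hf hg =>
    rw [map_add]
    exact hf.add_right hg
  | monomial n a =>
    rw [aeval_monomial]
    exact (Algebra.commute_algebraMap_right a x).mul_right (h.symm.pow_right n)

theorem LQuad0_Rel.mul {x y o o' : A} (hx : x * x = 0) (hy : y * y = 0)
    {M M' : Matrix (Fin 2) (Fin 2) (ZMod p)[X]}
    (h : LQuad0_Rel x y M o) (h' : LQuad0_Rel x y M' o') : LQuad0_Rel x y (M * M') (o * o') := by
  obtain ⟨a, b, c, d, rfl, rfl⟩ := h
  obtain ⟨a', b', c', d', rfl, rfl⟩ := h'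
  have hc : ∀ f : (ZMod p)[X], Commute x (aeval (tau x y) f) ∧ Commute y (aeval (tau x y) f) :=
    fun f => ⟨LQuad0_comm (tau_comm_left hx) f, LQuad0_comm (tau_comm_right hy) f⟩
  refine ⟨a * a' + c * b' * X, a * b' + b * a' + d * b' * X, a * c' + c * a' + c * d' * X,
    a * d' + d * a' + d * d' * X + b * c' - c * b', ?_, ?_⟩
  · ext1 i j
    fin_cases i <;> fin_cases j <;> simp [Matrix.mul_apply, Fin.sum_univ_two] <;> ring
  · rw [LQuad0_mul hx hy _ _ _ _ (hc a') (hc b') (hc c') (hc d')]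
    simp only [map_add, map_sub, map_mul, aeval_X]

theorem LQuad0_word (ρ : G →* A) {u u' : G} (hu : (ρ u - 1) * (ρ u - 1) = 0)
    (hu' : (ρ u' - 1) * (ρ u' - 1) = 0) {m : SL(2, (ZMod p)[X])} (hm : m ∈ GG p) :
    ∃ g ∈ closure {u, u'}, LQuad0_Rel (ρ u - 1) (ρ u' - 1) m.1 (ρ g) ∧
      LQuad0_Rel (ρ u - 1) (ρ u' - 1) (m⁻¹).1 (ρ g⁻¹) := by
  induction hm using Subgroup.closure_induction with
  | mem m hm =>
    rcases hm with rfl | rfl
    · refine ⟨u, subset_closure (by simp), ⟨1, 1, 0, 0, by simp [xU], by simp⟩,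
        ⟨1, -1, 0, 0, ?_, ?_⟩⟩
      · rw [Matrix.SpecialLinearGroup.coe_inv, Matrix.adjugate_fin_two]
        simp [xU]
      · rw [LQuad0_inv ρ hu]
        simp [sub_eq_add_neg]
    · refine ⟨u', subset_closure (by simp), ⟨1, 0, 1, 0, by simp [yL], by simp⟩,
        ⟨1, 0, -1, 0, ?_, ?_⟩⟩
      · rw [Matrix.SpecialLinearGroup.coe_inv, Matrix.adjugate_fin_two]
        simp [yL]
      · rw [LQuad0_inv ρ hu']
        simp [sub_eq_add_neg]
  | one =>
    have h1 : LQuad0_Rel (ρ u - 1) (ρ u' - 1) (1 : SL(2, (ZMod p)[X])).1 (ρ 1) :=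
      ⟨1, 0, 0, 0, by simp [Matrix.one_fin_two], by simp⟩
    exact ⟨1, one_mem _, h1, by rwa [inv_one, inv_one]⟩
  | mul m m' _ _ ih ih' =>
    obtain ⟨g, hg, h1, h2⟩ := ih
    obtain ⟨g', hg', h1', h2'⟩ := ih'
    refine ⟨g * g', mul_mem hg hg', ?_, ?_⟩
    · rw [map_mul]
      exact h1.mul hu hu' h1'
    · rw [mul_inv_rev, mul_inv_rev, map_mul]
      exact h2'.mul hu hu' h2
  | inv m _ ih =>
    obtain ⟨g, hg, h1, h2⟩ := ih
    exact ⟨g⁻¹, inv_mem hg, h2, by rwa [inv_inv, inv_inv]⟩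

/-- Put `x = ρ u - 1`, `y = ρ u' - 1`, `t = tau x y` (central). Say that a matrix `M` over
`(ZMod p)[X]` and `o : A` are related if there are polynomials `a b c d` with
`M = !![a + d X, b; c X, a]` and `o = a(t) + b(t) x + c(t) y + d(t) x y`. The relation is
functional in `M`, closed under sums and products (use `y x = t - x y`, `x y x = t x`,
`y x y = t y`, `x y x y = t x y`), relates `E₁₂` to `x` and `X E₂₁` to `y`. By closure induction each
`m ∈ GG p` has `g ∈ closure {u, u'}` with `m ~ ρ g` and `m⁻¹ ~ ρ g⁻¹`. The matrix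
`E₁₂ (m E₁₂ m⁻¹) + (m E₁₂ m⁻¹) E₁₂` is the scalar `-(m 1 0) ^ 2`. -/
theorem quad_ach (ρ : G →* A) {u u' : G} (hu : (ρ u - 1) * (ρ u - 1) = 0)
    (hu' : (ρ u' - 1) * (ρ u' - 1) = 0) {ψ : (ZMod p)[X]} (h : Ach p ψ) :
    ∃ g ∈ closure {u, u'},
      tau (ρ u - 1) (ρ (g * u * g⁻¹) - 1) = aeval (tau (ρ u - 1) (ρ u' - 1)) ψ := by
  obtain ⟨m, hm, rfl⟩ := h
  obtain ⟨g, hg, h1, h2⟩ := LQuad0_word ρ hu hu' hm
  have h0 : LQuad0_Rel (p := p) (ρ u - 1) (ρ u' - 1) !![0, 1; 0, 0] (ρ u - 1) :=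
    ⟨0, 1, 0, 0, by simp, by simp⟩
  have h3 := (h1.mul hu hu' h0).mul hu hu' h2
  rw [← LQuad0_conj] at h3
  refine ⟨g, hg, ((h0.mul hu hu' h3).add (h3.mul hu hu' h0)).un
    ⟨-(m 1 0) ^ 2, 0, 0, 0, ?_, by simp⟩⟩
  have h4 : m.1 * !![0, 1; 0, 0] * (m⁻¹).1 =
      !![-(m 0 0 * m 1 0), m 0 0 ^ 2; -(m 1 0) ^ 2, m 0 0 * m 1 0] := by
    rw [Matrix.SpecialLinearGroup.coe_inv, Matrix.adjugate_fin_two]
    ext1 i j
    fin_cases i <;> fin_cases j <;> simp [Matrix.mul_apply, Fin.sum_univ_two] <;> ring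
  rw [h4]
  simp

/-- Induction on `AchS`, applying `quad_ach` to the pair `u`, `g u g⁻¹`. -/
theorem quad_achS (ρ : G →* A) {u : G} (hu : (ρ u - 1) * (ρ u - 1) = 0) (g₀ : G)
    {φ : (ZMod p)[X]} (h : AchS p φ) :
    ∃ g, tau (ρ u - 1) (ρ (g * u * g⁻¹) - 1) = aeval (tau (ρ u - 1) (ρ (g₀ * u * g₀⁻¹) - 1)) φ := by
  induction h with
  | base => exact ⟨g₀, by rw [aeval_X]⟩
  | step _ hψ ih =>
    obtain ⟨g, hg⟩ := ih
    obtain ⟨g', -, h⟩ := quad_ach ρ hu (conj_sq ρ hu g) hψ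
    exact ⟨g', by rw [h, hg, aeval_comp]⟩

end Pool.Agent.Lib.MP_bf45aa_co
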