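import Pool.Agent.Lib.MP_bf45aa_co.LChain
import Pool.Agent.Lib.MP_bf45aa_co.LP2

set_option autoImplicit false
set_option linter.unusedSectionVars false

/-! There are no limit data for `p ≥ 5`. -/

namespace Pool.Agent.Lib.MP_bf45aa_co

open Subgroup Module

namespace LD

variable {p : ℕ} [hp' : Fact p.Prime] {H X V : Type} [Group H] [MulAction H X] [AddCommGroup V]
  [Module (ZMod p) V] (D : LD p H X V)

theorem exists_fam (s n : ℕ) (h : p * n ≤ s) : ∃ w Z C B, D.Fam (2 * s + 1) n w Z C B := by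
  obtain ⟨w, hw, B, hB, hq, v, hv, f, hf, hinj⟩ := D.fam s
  have hq' : ∀ {g g' : H} {a a' : End (ZMod p) V}, g ∈ B → g' ∈ B → D.ρ g = 1 + a →
      D.ρ g' = 1 + a' → a * a' = 0 := by
    intro g g' a a' hg hg' e e'
    have := hq g hg g' hg'
    rwa [e, e', add_sub_cancel_left, add_sub_cancel_left] at this
  let L : Submodule (ZMod p) (End (ZMod p) V) :=
    { carrier := {a | ∃ g ∈ B, D.ρ g = 1 + a}
      zero_mem' := ⟨1, one_mem _, by simp⟩
      add_mem' := by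
        rintro a b ⟨g, hg, e⟩ ⟨g', hg', e'⟩
        refine ⟨g * g', mul_mem hg hg', ?_⟩
        rw [map_mul, e, e', add_mul, one_mul, mul_add, mul_one, hq' hg hg' e e']
        abel
      smul_mem' := by
        rintro r a ⟨g, hg, e⟩
        refine ⟨g ^ r.val, pow_mem hg _, ?_⟩
        rw [ρ_pow e (hq' hg hg e e), ZMod.natCast_zmod_val] }
  rcases faithful_or_small (LinearMap.applyₗ v) L n with ⟨B', h1, h2, h3, h4⟩ | ⟨h1, h2⟩
  · refine ⟨w, ⨆ a ∈ L, LinearMap.range a, ⨅ a ∈ L, LinearMap.ker a, B', hw, ?_, ?_, ?_, h2, h3, ?_⟩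
    · refine iSup₂_le fun a ha => le_iInf₂ fun b hb => ?_
      rintro _ ⟨u, rfl⟩
      obtain ⟨g, hg, e⟩ := ha
      obtain ⟨g', hg', e'⟩ := hb
      exact LinearMap.congr_fun (hq' hg' hg e' e) u
    · intro a ha
      obtain ⟨g, hg, e⟩ := h1 ha
      exact ⟨g, hB hg, e⟩
    · intro a ha
      refine ⟨fun u => ?_, fun u hu => ?_⟩
      · exact (le_iSup₂_of_le (f := fun a (_ : a ∈ L) => LinearMap.range a) a (h1 ha) le_rfl) ⟨u, rfl⟩
      · exact (iInf₂_le (f := fun a (_ : a ∈ L) => LinearMap.ker a) a (h1 ha)) hu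
    · exact fun a ha h5 => h4 a ha (h5 v (D.Vb_mono _ (Nat.zero_le _) hv))
  · exfalso
    have h3 : Finite (L.map (LinearMap.applyₗ (R := ZMod p) v)) := Module.finite_of_finite (ZMod p)
    have h4 := Nat.card_le_card_of_injective
      (fun i => (⟨D.ρ (f i) v - v, D.ρ (f i) - 1, ⟨f i, hf i, by simp⟩, rfl⟩ :
        L.map (LinearMap.applyₗ (R := ZMod p) v)))
      fun i j e => hinj (sub_left_injective (congrArg Subtype.val e))
    rw [Nat.card_eq_fintype_card, Fintype.card_fin, Module.natCard_eq_pow_finrank (K := ZMod p),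
      Nat.card_zmod] at h4
    have h5 := h4.trans (Nat.pow_le_pow_left (Nat.lt_two_pow_self (n := p)).le _)
    rw [← pow_mul, Nat.pow_le_pow_iff_right (by norm_num)] at h5
    have h6 := Nat.mul_lt_mul_of_pos_left h2 hp'.out.pos
    omega

/-- The dimension of the trace of `Z` on a ball space. -/
noncomputable def Phi (Z : Submodule (ZMod p) V) (R : ℕ) : ℕ :=
  finrank (ZMod p) (Z ⊓ D.Vb D.o R : Submodule (ZMod p) V)

instance (Z : Submodule (ZMod p) V) (x : X) (R : ℕ) :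
    Module.Finite (ZMod p) (Z ⊓ D.Vb x R : Submodule (ZMod p) V) :=
  Submodule.finiteDimensional_of_le inf_le_right

theorem Phi_mono {Z Z' : Submodule (ZMod p) V} {R R' : ℕ} (h : Z ≤ Z') (h' : R ≤ R') :
    D.Phi Z R ≤ D.Phi Z' R' := finrank_mono' (inf_le_inf h (D.Vb_mono _ h'))

theorem Phi_le (Z : Submodule (ZMod p) V) (R : ℕ) : D.Phi Z R ≤ D.c * (R + 1) :=
  (finrank_mono' inf_le_right).trans (D.rank_le _ _)

theorem β_pos : 0 < D.β := by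
  obtain ⟨t, h1, -, h2⟩ := D.Q_idx D.o
  obtain ⟨a, ha, -⟩ := h2 1 (one_mem _)
  exact (Finset.card_pos.2 ⟨a, ha⟩).trans_le h1

variable {D}

theorem Fam.weaken {σ n n' : ℕ} {w : X} {Z C : Submodule (ZMod p) V}
    {B : Submodule (ZMod p) (End (ZMod p) V)} (h : D.Fam σ n w Z C B) (hn : n' ≤ n) :
    D.Fam σ n' w Z C B := { h with dim := hn.trans h.dim }

theorem Partner.drop0' {y : X} {x η : End (ZMod p) V} (P : D.Partner y x η)
    {Z C : Submodule (ZMod p) V} (hx : Fr Z C x) {σ θ r r' : ℕ} (hy : Near D.Γ σ D.o y)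
    (hθ : 2 * D.β * θ ≤ 2 * D.β * rk (x * η) (D.Vb y (2 * (2 * D.β * θ))))
    (h1 : 4 * D.β * θ + σ ≤ r) (hr : r + 2 * σ ≤ r') :
    D.Phi (Z.map (1 - x * η)) r + θ ≤ D.Phi Z r' := by
  have h2 := P.drop0 hx hy hr
  have h3 := Nat.le_of_mul_le_mul_left hθ (Nat.mul_pos two_pos D.β_pos)
  have h4 := rk_mono (x * η) (D.Vb_near hy.symm (k := 2 * (2 * D.β * θ)) (l := r) (by
    have : 2 * (2 * D.β * θ) = 4 * D.β * θ := by ring
    omega))
  unfold Phi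
  omega

theorem one_step (hp : 5 ≤ p) {C n₀ : ℕ} (hC : 1 ≤ C)
    (hc : ∀ n, n₀ ≤ n → ∀ σ ≤ 2 ^ n, ∀ R, 2 ^ (C * n) ≤ R → ∀ y x η, ¬ D.Chain σ R (C * n) y x η)
    {n σ k : ℕ} (hn : n₀ ≤ n) (hσ : σ ≤ 2 ^ n) (hn1 : 1 ≤ n) (j : ℕ) {w : X}
    {Z C' : Submodule (ZMod p) V} {B : Submodule (ZMod p) (End (ZMod p) V)}
    (h : D.Fam σ (3 * C * n * ((D.β + 1) * (2 * k + 1))) w Z C' B) :
    ∃ y, ∃ x ∈ B, ∃ η B', Near D.Γ (2 ^ (n + 2)) D.o y ∧ x ≠ 0 ∧ D.Partner y x η ∧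
      j ≤ 2 * D.β * rk (x * η) (D.Vb y (2 * j)) ∧
      (D.Fam (2 ^ (3 * C * n)) k y (Z.map (1 - x * η)) C' B' ∨
        D.Fam (2 ^ (3 * C * n)) k y (LinearMap.range (x * η)) (LinearMap.ker (η * x)) B') := by
  have h0 : 2 ≤ 2 ^ n := Nat.le_self_pow (by omega) 2
  have h1 : 3 * σ + 2 ≤ 2 ^ (n + 2) := by rw [pow_add]; omega
  have h2 : C * (n + 2) ≤ 3 * C * n := by nlinarith
  have h3 : 2 ^ (C * (n + 2)) ≤ 2 ^ (3 * C * n) := Nat.pow_le_pow_right two_pos h2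
  have h4 : 2 ^ (n + 2) ≤ 2 ^ (C * (n + 2)) :=
    Nat.pow_le_pow_right two_pos (Nat.le_mul_of_pos_left _ hC)
  rcases h.step hp (C * (n + 2)) k (2 ^ (3 * C * n)) j
    (Nat.mul_le_mul h2 (le_of_eq (by ring))) (by omega) with h5 | ⟨y, x, η, h5⟩
  · obtain ⟨y, x, hx, η, B', h6, h7⟩ := h5
    exact ⟨y, x, hx, η, B', h6.mono h1, h7⟩
  · exact absurd h5 (hc (n + 2) (by omega) _ h1 _ h3 y x η)

theorem two_step (hp : 5 ≤ p) {C n₀ : ℕ} (hC : 1 ≤ C)
    (hc : ∀ n, n₀ ≤ n → ∀ σ ≤ 2 ^ n, ∀ R, 2 ^ (C * n) ≤ R → ∀ y x η, ¬ D.Chain σ R (C * n) y x η)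
    {n σ k θ R R' : ℕ} (hn : n₀ ≤ n) (hσ : σ ≤ 2 ^ n) (hn1 : 1 ≤ n) {w : X}
    {Z C' : Submodule (ZMod p) V} {B : Submodule (ZMod p) (End (ZMod p) V)}
    (h : D.Fam σ (3 * C * n * ((D.β + 1) *
      (2 * (9 * C * C * n * ((D.β + 1) * (2 * k + 1))) + 1))) w Z C' B)
    (h1 : (4 * D.β + 12) * θ + 110 * 2 ^ (9 * C * C * n) ≤ R')
    (h2 : R' + 16 * 2 ^ (9 * C * C * n) ≤ R) :
    ∃ σ' w' Z' C'' B', σ' ≤ 2 ^ (9 * C * C * n) ∧ D.Fam σ' k w' Z' C'' B' ∧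
      D.Phi Z' R' + θ ≤ D.Phi Z R := by
  have e1 : n ≤ 3 * C * n := Nat.le_mul_of_pos_left _ (by omega)
  have e2 : 3 * C * (3 * C * n) = 9 * C * C * n := by ring
  have e3 : 3 * C * n ≤ 9 * C * C * n := e2 ▸ Nat.le_mul_of_pos_left _ (by omega)
  have e4 : 2 ^ n ≤ 2 ^ (3 * C * n) := Nat.pow_le_pow_right two_pos e1
  have e5 : 2 ^ (3 * C * n) ≤ 2 ^ (9 * C * C * n) := Nat.pow_le_pow_right two_pos e3
  have e6 : 1 ≤ 2 ^ n := Nat.one_le_two_pow
  have e7 : (4 * D.β + 12) * θ = 4 * D.β * θ + 12 * θ := by ring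
  obtain ⟨y, x, hx, η, B₁, k1, k2, P, k3, k4⟩ := one_step hp hC hc hn hσ hn1 (2 * D.β * θ) h
  rw [pow_add] at k1
  rcases k4 with k4 | k4
  · refine ⟨_, _, _, _, _, e5, k4.weaken ?_, P.drop0' (h.fr x hx) k1 k3 (by omega) (by omega)⟩
    exact (by omega : k ≤ 2 * k + 1).trans ((Nat.le_mul_of_pos_left _ (by omega)).trans
      (Nat.le_mul_of_pos_left _ (by omega)))
  · rw [← e2] at k4
    obtain ⟨y', a, ha, ζ, B₂, l1, l2, P', l3, l4⟩ := one_step hp hC hc (hn.trans e1) le_rfl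
      (hn1.trans e1) (2 * D.β * θ) k4
    rw [e2] at l4
    rw [pow_add] at l1
    have hZ : LinearMap.range (x * η) ≤ Z := by
      rintro _ ⟨v, rfl⟩
      exact (h.fr x hx).1 _
    rcases l4 with l4 | l4
    · exact ⟨_, _, _, _, _, le_rfl, l4, (P'.drop0' (k4.fr a ha) l1 l3 (r' := R) (by omega)
        (by omega)).trans (D.Phi_mono hZ le_rfl)⟩
    · refine ⟨_, _, _, _, _, le_rfl, l4, le_trans ?_ (D.Phi_mono hZ le_rfl)⟩
      have ha' : x * η * a * (η * x) = a := by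
        ext v
        obtain ⟨u, hu⟩ := (k4.fr a ha).1 ((η * x) v)
        have m1 : a (v - (η * x) v) = 0 := (k4.fr a ha).2 _ (by
          rw [LinearMap.mem_ker, map_sub, ← End.mul_apply (η * x) (η * x), P.f_idem, sub_self])
        rw [map_sub, sub_eq_zero] at m1
        rw [End.mul_apply, End.mul_apply, ← hu, ← End.mul_apply (x * η) (x * η), P.e_idem, hu, m1]
      refine P.drop2 hp P' ha' (k4.real a ha) (σ := 2 ^ (3 * C * n) * 2 ^ 2)
        (k1.mono (by omega)) l1 ?_ (by omega) (by omega)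
      by_contra m2
      push Not at m2
      exact l2 (k4.faith a ha fun v hv => m2 v (D.Vb_mono _ (by omega) hv))

theorem iterate (hp : 5 ≤ p) {C n₀ : ℕ} (hC : 1 ≤ C)
    (hc : ∀ n, n₀ ≤ n → ∀ σ ≤ 2 ^ n, ∀ R, 2 ^ (C * n) ≤ R → ∀ y x η, ¬ D.Chain σ R (C * n) y x η)
    (K : ℕ) : ∃ A e E : ℕ, 1 ≤ A ∧ 1 ≤ E ∧ ∀ n σ θ R w Z C' B, n₀ ≤ n → 1 ≤ n → σ ≤ 2 ^ n →
      D.Fam σ (A * n ^ e) w Z C' B → (4 * D.β + 12) * θ + (16 * K + 110) * 2 ^ (E * n) ≤ R →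
      K * θ ≤ D.Phi Z R := by
  induction K with
  | zero => exact ⟨1, 0, 1, le_rfl, le_rfl, by intros; simp⟩
  | succ K ih =>
    obtain ⟨A, e, E, hA, hE, ih⟩ := ih
    set L := 9 * C * C with hL
    have hL1 : 1 ≤ L := Nat.mul_pos (by omega) hC
    refine ⟨3 * C * ((D.β + 1) * (3 * (L * ((D.β + 1) * (3 * (A * L ^ e)))))), e + 2, E * L,
      Nat.succ_le_of_lt (by positivity), Nat.mul_pos hE hL1, ?_⟩
    intro n σ θ R w Z C' B hn hn1 hσ h hR
    have e1 : 2 ^ (L * n) ≤ 2 ^ (E * (L * n)) :=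
      Nat.pow_le_pow_right two_pos (Nat.le_mul_of_pos_left _ hE)
    have e2 : n ≤ L * n := Nat.le_mul_of_pos_left _ hL1
    rw [mul_assoc E] at hR
    have e3 : (16 * (K + 1) + 110) * 2 ^ (E * (L * n)) =
        (16 * K + 110) * 2 ^ (E * (L * n)) + 16 * 2 ^ (E * (L * n)) := by ring
    have e4 : 110 * 2 ^ (E * (L * n)) ≤ (16 * K + 110) * 2 ^ (E * (L * n)) :=
      Nat.mul_le_mul_right _ (by omega)
    have e5 : ∀ t : ℕ, 0 < t → 2 * t + 1 ≤ 3 * t := fun t ht => by omega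
    obtain ⟨σ', w', Z', C'', B', h1, h2, h3⟩ := two_step hp hC hc (k := A * (L * n) ^ e) (θ := θ)
      (R := R) (R' := R - 16 * 2 ^ (E * (L * n))) hn hσ hn1 (h.weaken (by
        calc _ ≤ 3 * C * n * ((D.β + 1) * (3 * (L * n * ((D.β + 1) * (3 * (A * (L * n) ^ e)))))) := by
              refine Nat.mul_le_mul_left _ (Nat.mul_le_mul_left _ ((e5 _ (by positivity)).trans ?_))
              exact Nat.mul_le_mul_left _ (Nat.mul_le_mul_left _ (Nat.mul_le_mul_left _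
                (e5 _ (by positivity))))
          _ = _ := by ring)) (by rw [← hL]; omega) (by rw [← hL]; omega)
    have h4 := ih (L * n) σ' θ (R - 16 * 2 ^ (E * (L * n))) w' Z' C'' B' (hn.trans e2)
      (hn1.trans e2) h1 h2 (by omega)
    rw [add_mul, one_mul]
    omega

theorem exists_large (A e n₀ : ℕ) : ∃ n, n₀ ≤ n ∧ A * (n + 2) ^ e ≤ 2 ^ n := by
  have h := tendsto_pow_const_div_const_pow_of_one_lt e (r := 2) one_lt_two
  have h1 : (0 : ℝ) < 1 / (4 * A + 1) := by positivity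
  obtain ⟨N, hN⟩ := Filter.eventually_atTop.1 (h.eventually (gt_mem_nhds h1))
  refine ⟨max n₀ N, le_max_left _ _, ?_⟩
  have h2 := hN (max n₀ N + 2) (by omega)
  rw [div_lt_div_iff₀ (by positivity) (by positivity), pow_add] at h2
  have h3 : (0 : ℝ) ≤ ((max n₀ N + 2 : ℕ) : ℝ) ^ e := by positivity
  have h4 : (A : ℝ) * ((max n₀ N + 2 : ℕ) : ℝ) ^ e ≤ 2 ^ (max n₀ N) := by nlinarith
  exact_mod_cast h4

variable (D) in
include D in
theorem false (hp : 5 ≤ p) : False := by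
  obtain ⟨C, n₀, hC, hc⟩ := D.no_chain
  obtain ⟨A, e, E, -, -, h⟩ := iterate hp hC hc (D.c * (4 * D.β + 14) + 1)
  obtain ⟨n, hn, h1⟩ := exists_large (p * A) e n₀
  obtain ⟨w, Z, C', B, hF⟩ := D.exists_fam (2 ^ n) (A * (n + 2) ^ e) (by rwa [← mul_assoc])
  have h0 : 1 ≤ 2 ^ n := Nat.one_le_two_pow
  set θ := (16 * (D.c * (4 * D.β + 14) + 1) + 110) * 2 ^ (E * (n + 2)) with hθ
  have h2 : 0 < θ := by positivity
  have h3 := (h (n + 2) _ θ _ w Z C' B (by omega) (by omega) (by rw [pow_add]; omega) hF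
    le_rfl).trans (D.Phi_le _ _)
  rw [← hθ] at h3
  have h4 : D.c * ((4 * D.β + 12) * θ + θ + 1) ≤ D.c * ((4 * D.β + 14) * θ) :=
    Nat.mul_le_mul_left _ (by nlinarith)
  nlinarith

end LD

end Pool.Agent.Lib.MP_bf45aa_co
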