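import Pool.Agent.Lib.MP_bf45aa_co.LID

set_option autoImplicit false
set_option linter.unusedSectionVars false

/-! Linearisation. -/

namespace Pool.Agent.Lib.MP_bf45aa_co

open Subgroup

theorem LU4_grp {p : ℕ} {H : Type} [Group H] (A : Subgroup H)
    (hc : ∀ u ∈ A, ∀ v ∈ A, u * v = v * u) (hp : ∀ u ∈ A, u ^ p = 1) :
    ∃ (M : Type) (_ : AddCommGroup M) (_ : Module (ZMod p) M) (ι : M → H),
      Function.Injective ι ∧ (∀ u v, ι (u + v) = ι u * ι v) ∧ ∀ h, h ∈ A ↔ ∃ v, ι v = h := by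
  let _ : CommGroup A := { (inferInstance : Group A) with
    mul_comm := fun u v => Subtype.ext (hc u u.2 v v.2) }
  refine ⟨Additive A, inferInstance, AddCommGroup.zmodModule fun x => ?_,
    fun v => (v.toMul : A), fun u v e => Subtype.ext e, fun u v => rfl,
    fun h => ⟨fun hh => ⟨Additive.ofMul ⟨h, hh⟩, rfl⟩, fun ⟨v, e⟩ => e ▸ v.toMul.2⟩⟩
  have e : x.toMul ^ p = 1 := Subtype.ext (by
    rw [SubmonoidClass.coe_pow]
    exact hp _ x.toMul.2)
  exact e

theorem LU4_mod {p : ℕ} [Fact p.Prime] {H : Type} [Group H] (A : Subgroup H) (hA : A.Normal)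
    (hc : ∀ u ∈ A, ∀ v ∈ A, u * v = v * u) (hp : ∀ u ∈ A, u ^ p = 1) :
    ∃ (M : Type) (_ : AddCommGroup M) (_ : Module (ZMod p) M) (ι : M → H)
      (ρ : H →* Module.End (ZMod p) M) (Φ : Subgroup H → Submodule (ZMod p) M),
      Function.Injective ι ∧ ι 0 = 1 ∧ (∀ u v, ι (u - v) = ι u * (ι v)⁻¹) ∧
      (∀ h, h ∈ A ↔ ∃ v, ι v = h) ∧ (∀ g v, ι (ρ g v) = g * ι v * g⁻¹) ∧
      (∀ W v, v ∈ Φ W ↔ ι v ∈ W) ∧ ∀ (W : Subgroup H) (n : ℕ), Finite W → Nat.card W ≤ p ^ n →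
        Module.Finite (ZMod p) (Φ W) ∧ Module.finrank (ZMod p) (Φ W) ≤ n := by
  obtain ⟨M, i1, i2, ι, h1, h2, h3⟩ := LU4_grp A hc hp
  have h0 : ι 0 = 1 := by
    have := h2 0 0
    rw [add_zero] at this
    exact mul_eq_left.1 this.symm
  have h4 : ∀ u v, ι (u - v) = ι u * (ι v)⁻¹ := fun u v => by
    rw [eq_mul_inv_iff_mul_eq, ← h2, sub_add_cancel]
  have h5 : ∀ g v, ∃ u, ι u = g * ι v * g⁻¹ := fun g v =>
    (h3 _).1 (hA.conj_mem _ ((h3 _).2 ⟨v, rfl⟩) g)
  choose r hr using h5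
  have h6 : ∀ g u v, r g (u + v) = r g u + r g v := fun g u v => h1 (by
    rw [h2, hr, hr, hr, h2]
    group)
  refine ⟨M, i1, i2, ι,
    { toFun := fun g => (AddMonoidHom.mk' (r g) (h6 g)).toZModLinearMap p
      map_one' := LinearMap.ext fun v => h1 ((hr 1 v).trans (by simp))
      map_mul' := fun a b => LinearMap.ext fun v => h1 ((hr (a * b) v).trans ?_) },
    fun W => AddSubgroup.toZModSubmodule p
      { carrier := {v | ι v ∈ W}
        add_mem' := fun {a b} ha hb => ?_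
        zero_mem' := ?_
        neg_mem' := fun {a} ha => ?_ }, h1, h0, h4, h3, hr, fun W v => Iff.rfl,
    fun W n hW hn => ?_⟩
  · show _ = ι (r a (r b v))
    rw [hr, hr]
    group
  · show ι (a + b) ∈ W
    rw [h2]
    exact mul_mem ha hb
  · show ι 0 ∈ W
    rw [h0]
    exact one_mem W
  · show ι (-a) ∈ W
    rw [← zero_sub, h4, h0, one_mul]
    exact inv_mem ha
  · have key : ∀ S : Submodule (ZMod p) M, (∀ v ∈ S, ι v ∈ W) →
        Module.Finite (ZMod p) S ∧ Module.finrank (ZMod p) S ≤ n := by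
      intro S hS
      have hj : Function.Injective fun v : S => (⟨ι v, hS v v.2⟩ : W) :=
        fun u v e => Subtype.ext (h1 (congrArg Subtype.val e))
      have := Finite.of_injective _ hj
      have h7 := (Nat.card_le_card_of_injective _ hj).trans hn
      rw [Module.natCard_eq_pow_finrank (K := ZMod p), Nat.card_zmod] at h7
      exact ⟨inferInstance, (Nat.pow_le_pow_iff_right (Fact.out : p.Prime).one_lt).1 h7⟩
    exact key _ fun v hv => hv

theorem LU4_mono {p c β : ℕ} {H X : Type} [Group H] [MulAction H X] (D : ID p c β H X) (x : X) :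
    Monotone (D.W x) := monotone_nat_of_le_succ (D.mono x)

theorem LU4_near {p c β : ℕ} {H X : Type} [Group H] [MulAction H X] (D : ID p c β H X) {n : ℕ}
    {x y : X} (h : Near D.Γ n x y) (k : ℕ) : D.W x k ≤ D.W y (k + n) := by
  induction n generalizing x k with
  | zero => rw [near_zero h]; exact le_rfl
  | succ n ih =>
    rcases near_succ h with rfl | ⟨z, h1, h2⟩
    · exact LU4_mono D x (by omega)
    · exact ((D.shift h1 k).trans (ih h2 _)).trans (LU4_mono D y (by omega))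

/-- Let `A = ⨆ k, D.W D.o k` (a directed union, `mem_iSup_of_directed`). If `Near Γ n x y` then
`W x k ≤ W y (k + n)`, so `A = ⨆ k, W x k` for each `x`, and `A` is normal (`equi`), abelian, of
exponent `p`. Put `M = Additive A` with `AddCommGroup.zmodModule`, `ρ g` the additive map given by
`MulAut.conjNormal g` (`AddMonoidHom.toZModLinearMap`), `Vb x k` the additive subgroup
`(W x k).subgroupOf A` (`AddSubgroup.toZModSubmodule`). `rank_le`: `Nat.card (Vb x k) =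
p ^ finrank` (`Module.natCard_eq_pow_finrank`). In `fam`, `(ρ a - 1) ((ρ b - 1) v) = 0` is
`Commute a (b v b⁻¹ v⁻¹)`. It is convenient to state first a definition `LM D` of the type `M`,
its instances, and simp lemmas for `ρ` and membership in `Vb`. -/
theorem ID.linear {p c β : ℕ} [Fact p.Prime] {H X : Type} [Group H] [MulAction H X]
    (D : ID p c β H X) (h : ∀ x, ∃ k, Near D.Γ k D.o x) :
    ∃ (M : Type) (_ : AddCommGroup M) (_ : Module (ZMod p) M), Nonempty (LD p H X M) := by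
  let A : Subgroup H :=
    { carrier := {g | ∃ k, g ∈ D.W D.o k}
      one_mem' := ⟨0, one_mem _⟩
      mul_mem' := fun ⟨k, hk⟩ ⟨l, hl⟩ => ⟨max k l,
        mul_mem (LU4_mono D _ (le_max_left k l) hk) (LU4_mono D _ (le_max_right k l) hl)⟩
      inv_mem' := fun ⟨k, hk⟩ => ⟨k, inv_mem hk⟩ }
  have hA : ∀ x g, g ∈ A ↔ ∃ k, g ∈ D.W x k := by
    intro x g
    obtain ⟨n, hn⟩ := h x
    exact ⟨fun ⟨k, hk⟩ => ⟨_, LU4_near D hn k hk⟩, fun ⟨k, hk⟩ => ⟨_, LU4_near D hn.symm k hk⟩⟩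
  obtain ⟨M, i1, i2, ι, ρ, Φ, h1, h0, h2, h3, h4, h5, h6⟩ := LU4_mod (p := p) A
    ⟨fun v ⟨k, hk⟩ g => (hA _ _).2 ⟨k, D.equi g _ k v hk⟩⟩
    (fun u ⟨k, hk⟩ v ⟨l, hl⟩ => D.comm _ (max k l) u (LU4_mono D _ (le_max_left k l) hk) v
      (LU4_mono D _ (le_max_right k l) hl))
    fun u ⟨k, hk⟩ => D.pow _ k u hk
  have h7 : ∀ x k, ∀ g ∈ D.W x k, ∃ v ∈ Φ (D.W x k), ι v = g := by
    intro x k g hg
    obtain ⟨v, rfl⟩ := (h3 g).1 ((hA x g).2 ⟨k, hg⟩)
    exact ⟨v, (h5 _ _).2 hg, rfl⟩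
  refine ⟨M, i1, i2, ⟨{
    Γ := D.Γ
    ρ := ρ
    Vb := fun x k => Φ (D.W x k)
    Q := D.Q
    o := D.o
    c := c
    β := β
    adj := D.adj
    nbr := D.nbr
    sp := D.sp
    hp := D.hp
    mono := fun x k v hv => (h5 _ _).2 (D.mono x k ((h5 _ _).1 hv))
    shift := fun a k v hv => (h5 _ _).2 (D.shift a k ((h5 _ _).1 hv))
    equi := fun g x k v hv => (h5 _ _).2 (h4 g v ▸ D.equi g x k _ ((h5 _ _).1 hv))
    fd := fun x k => (h6 _ _ (D.fin x k) (D.card x k)).1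
    rank_le := fun x k => (h6 _ _ (D.fin x k) (D.card x k)).2
    exh := fun x v => ((hA x _).1 ((h3 _).2 ⟨v, rfl⟩)).imp fun k hk => (h5 _ _).2 hk
    cent := fun x k g hg v hv => h1 ((h4 g v).trans (D.cent x k g hg _ ((h5 _ _).1 hv)))
    layer := fun x k N a1 a2 => ?_
    Q_le := D.Q_le
    Q_conj := D.Q_conj
    Q_adj := D.Q_adj
    Q_idx := D.Q_idx
    Q_unip := fun x k q hq => (D.Q_unip x k q hq).imp fun n hn v hv =>
      h1 ((h4 _ v).trans (hn _ ((h5 _ _).1 hv)))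
    fam := fun s => ?_
    clo := fun x g a1 a2 => ?_ }⟩⟩
  · obtain ⟨g, hg, v, hv, a3⟩ := D.layer x k N a1 a2
    obtain ⟨v, hv', rfl⟩ := h7 x _ v hv
    refine ⟨g, hg, v, hv', fun a4 => a3 ?_⟩
    rwa [h5, h2, h4] at a4
  · obtain ⟨w, a1, B, a2, a3, v, hv, f, a4, a5⟩ := D.fam s
    obtain ⟨v, hv', rfl⟩ := h7 _ _ v hv
    refine ⟨w, a1, B, a2, fun a ha b hb => LinearMap.ext fun u => h1 ?_, v, hv', f, a4,
      fun i j e => a5 ?_⟩
    · obtain ⟨k, hk⟩ : ι u ∈ A := (h3 _).2 ⟨u, rfl⟩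
      have a6 := (a3 k a ha b hb _ hk).eq
      rw [Module.End.mul_apply, LinearMap.sub_apply, LinearMap.sub_apply, Module.End.one_apply,
        Module.End.one_apply, LinearMap.zero_apply, h0, h2, h4, h2, h4, a6, mul_inv_cancel_right,
        mul_inv_cancel]
    · have a6 := congrArg ι e
      simp only [h4] at a6
      exact a6
  · obtain ⟨b, hb, a3⟩ := D.clo x g a1 fun r r' hr v hv => by
      obtain ⟨v, hv', rfl⟩ := h7 _ _ v hv
      rw [← h4, ← h4, a2 r r' hr v hv']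
    exact ⟨b, hb, fun r v hv => h1 (by rw [h4, h4, a3 r _ ((h5 _ _).1 hv)])⟩

end Pool.Agent.Lib.MP_bf45aa_co
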