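import Pool.Agent.Lib.MP_bf45aa_co.Soluble2

set_option autoImplicit false
set_option linter.unusedSectionVars false

/-! The strands in the `p`-soluble case. -/

namespace Pool.Agent.Lib.MP_bf45aa_co

open Subgroup
open scoped commutatorElement Pointwise

variable {V G : Type*} [Group G] [MulAction G V] {Γ : SimpleGraph V} [Finite G] {p : ℕ}
  {X W : Type*} [Group X] [AddCommGroup W] [Module (ZMod p) W] [DistribMulAction X W]
  [hp : Fact p.Prime] [Finite X] [Finite W] [SMulCommClass X (ZMod p) W]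
  {α : V} {Y₁ Y₀ : Subgroup G} {φ : G → X} {π : G → W} {D F : Subgroup X}

namespace SC

variable (S : SC Γ p α Y₁ Y₀ φ π D F)
include S

/-- Planes of transvections. -/
def IsPl (_ : SC Γ p α Y₁ Y₀ φ π D F) (M : Submodule (ZMod p) W) : Prop :=
  ∃ a, Tv p W D a ∧ Pl p W F a = M

/-- The linking relation between planes. -/
def rel (M M' : Submodule (ZMod p) W) : Prop :=
  ∃ y, Γ.Adj α y ∧ ∃ b ∈ BB G Γ p α y, Tv p W D (φ b) ∧ Pl p W F (φ b) = M ∧ S.IsPl M' ∧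
    b ∉ Cn (S.R.pre M')

/-- Components. -/
def comp (M : Submodule (ZMod p) W) : Set (Submodule (ZMod p) W) :=
  {M' | Relation.ReflTransGen S.rel M M'}

/-- Strands at the base vertex. -/
def kap (M : Submodule (ZMod p) W) : Subgroup G := sSup (S.R.pre '' S.comp M)

/-- Strands. -/
def Str (x : V) : Set (Subgroup G) :=
  {κ | ∃ g : G, g • α = x ∧ ∃ M, S.IsPl M ∧ κ = cj g (S.kap M)}

/-- The data in the `p`-soluble case. -/
def dat : Dat G V where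
  P := PP G Γ p
  B := BB G Γ p
  S := S.Str
  T := fun x y κ => BB G Γ p x y ⊓ Cn (sSup (S.Str x \ {κ}))

theorem dat_equi : S.dat.Equi := by
  have hS : ∀ (g : G) x κ, κ ∈ S.Str x → cj g κ ∈ S.Str (g • x) := by
    rintro g x _ ⟨h, rfl, M, hM, rfl⟩
    exact ⟨g * h, mul_smul g h α, M, hM, cj_cj g h _⟩
  refine ⟨S.c.cj_PP, S.c.cj_BB, hS, fun g x y κ => ?_, BB_symm⟩
  have := cj_eq_of_le (fun (g : G) (e : V × Subgroup G) => (g • e.1, cj g e.2))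
    (fun g e => by simp only [inv_smul_smul, cj_inv_cj]) (fun e => sSup (S.Str e.1 \ {e.2}))
    (fun g e => by
      rw [cj_sSup]
      refine sSup_le_sSup ?_
      rintro _ ⟨κ, ⟨h1, h2⟩, rfl⟩
      exact ⟨hS g _ _ h1, fun h3 => h2 (cj_inj.1 h3)⟩) g (x, κ)
  show cj g (BB G Γ p x y ⊓ _) = BB G Γ p (g • x) (g • y) ⊓ _
  rw [cj_inf, cj_Cn, this, S.c.cj_BB]

theorem isPl_smul {M : Submodule (ZMod p) W} (h : S.IsPl M) (g : X) : S.IsPl (g • M) := by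
  obtain ⟨a, ha, rfl⟩ := h
  exact ⟨_, S.L.tv_conj ha g, (S.L.smul_Pl g a).symm⟩

theorem rel_conj {g : G} (hg : g ∈ St G α) {y : V} {b : G} (hb : b ∈ BB G Γ p α y)
    (hy : Γ.Adj α y) (t : Tv p W D (φ b)) {M' : Submodule (ZMod p) W} (h : b ∉ Cn (S.R.pre M')) :
    g * b * g⁻¹ ∈ BB G Γ p α (g • y) ∧ Tv p W D (φ (g * b * g⁻¹)) ∧
      Pl p W F (φ (g * b * g⁻¹)) = φ g • Pl p W F (φ b) ∧
      g * b * g⁻¹ ∉ Cn (S.R.pre (φ g • M')) := by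
  have e := S.R.φ_conj hg (BB_le_St hy hb)
  refine ⟨?_, by rw [e]; exact S.L.tv_conj t _, by rw [e, S.L.smul_Pl], ?_⟩
  · have := conj_mem_cj (g := g) hb
    rwa [S.c.cj_BB, mem_St.1 hg] at this
  · rwa [← S.R.cj_pre hg, ← cj_Cn, conj_mem_cj_iff]

theorem rel_smul {g : G} (hg : g ∈ St G α) {M M' : Submodule (ZMod p) W} (h : S.rel M M') :
    S.rel (φ g • M) (φ g • M') := by
  obtain ⟨y, hy, b, hb, t, rfl, h1, h2⟩ := h
  obtain ⟨k1, k2, k3, k4⟩ := S.rel_conj hg hb hy t h2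
  exact ⟨g • y, S.c.adj_St hg hy, _, k1, k2, k3, S.isPl_smul h1 _, k4⟩

theorem comp_smul {g : G} (hg : g ∈ St G α) {M M' : Submodule (ZMod p) W} (h : M' ∈ S.comp M) :
    φ g • M' ∈ S.comp (φ g • M) := by
  induction h with
  | refl => exact Relation.ReflTransGen.refl
  | tail _ h2 ih => exact Relation.ReflTransGen.tail ih (S.rel_smul hg h2)

theorem self_mem_comp (M : Submodule (ZMod p) W) : M ∈ S.comp M := Relation.ReflTransGen.refl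

theorem isPl_comp {M M' : Submodule (ZMod p) W} (hM : S.IsPl M) (h : M' ∈ S.comp M) :
    S.IsPl M' := by
  cases h with
  | refl => exact hM
  | tail _ h2 => obtain ⟨_, _, _, _, _, _, h3, _⟩ := h2; exact h3

theorem pre_le_kap {M M' : Submodule (ZMod p) W} (h : M' ∈ S.comp M) : S.R.pre M' ≤ S.kap M :=
  le_sSup ⟨M', h, rfl⟩

theorem kap_le (M : Submodule (ZMod p) W) : S.kap M ≤ Y₁ :=
  sSup_le (by rintro _ ⟨M', -, rfl⟩; exact S.R.pre_le M')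

theorem cj_kap {g : G} (hg : g ∈ St G α) (M : Submodule (ZMod p) W) :
    cj g (S.kap M) = S.kap (φ g • M) := by
  have key : ∀ g ∈ St G α, ∀ M, cj g (S.kap M) ≤ S.kap (φ g • M) := by
    intro g hg M
    rw [kap, cj_sSup]
    refine sSup_le ?_
    rintro _ ⟨_, ⟨M', h, rfl⟩, rfl⟩
    rw [S.R.cj_pre hg]
    exact S.pre_le_kap (S.comp_smul hg h)
  refine le_antisymm (key g hg M) ?_
  have := key g⁻¹ (inv_mem hg) (φ g • M)
  rwa [S.R.φ_inv hg, inv_smul_smul, cj_le_iff, inv_inv] at this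

theorem mem_Str {κ : Subgroup G} : κ ∈ S.Str α ↔ ∃ M, S.IsPl M ∧ κ = S.kap M := by
  constructor
  · rintro ⟨g, hg, M, hM, rfl⟩
    exact ⟨_, S.isPl_smul hM (φ g), S.cj_kap hg M⟩
  · rintro ⟨M, hM, rfl⟩
    exact ⟨1, one_smul _ _, M, hM, (cj_one _).symm⟩

theorem pl_trans {y : V} (hy : Γ.Adj α y) {M M' : Submodule (ZMod p) W} (h : S.IsPl M)
    (h' : S.IsPl M') : ∃ k ∈ St G α, k • y = y ∧ φ k • M = M' := by
  obtain ⟨a, ha, rfl⟩ := h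
  obtain ⟨c, hc, rfl⟩ := h'
  obtain ⟨g, hg⟩ := S.L.pl_trans ha hc
  obtain ⟨g, g1, rfl⟩ := S.R.φ_surj g
  obtain ⟨k, k1, k2, k3⟩ := S.frattini hy g1
  exact ⟨k, k1, k2, by rw [k3 a ha, S.L.smul_Pl, hg]⟩

theorem comp_eq {y : V} (hy : Γ.Adj α y) {M M' : Submodule (ZMod p) W} (hM : S.IsPl M)
    (h : M' ∈ S.comp M) : S.comp M' = S.comp M := by
  obtain ⟨k, k1, -, k3⟩ := S.pl_trans hy hM (S.isPl_comp hM h)
  refine Set.eq_of_subset_of_ncard_le (fun N hN => Relation.ReflTransGen.trans h hN) ?_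
  exact Set.ncard_le_ncard_of_injOn (φ k • ·) (fun N hN => k3 ▸ S.comp_smul k1 hN)
    (MulAction.injective (φ k)).injOn

theorem rel_fix {y : V} (hy : Γ.Adj α y) {M M' : Submodule (ZMod p) W} (h : S.rel M M') :
    ∃ b ∈ BB G Γ p α y, Tv p W D (φ b) ∧ Pl p W F (φ b) = M ∧ b ∉ Cn (S.R.pre M') := by
  obtain ⟨y', hy', b, hb, t, rfl, ⟨a, ha, rfl⟩, h2⟩ := h
  obtain ⟨j, hj, rfl⟩ := S.JN_J_tr _ _ hy' hy
  obtain ⟨k1, k2, k3, k4⟩ := S.rel_conj (S.JN_J_le hj) hb hy' t h2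
  rw [S.JN_J_pl hj t] at k3
  rw [S.JN_J_pl hj ha] at k4
  exact ⟨_, k1, k2, k3, k4⟩

theorem cent_kap {y : V} (hy : Γ.Adj α y) {b : G} (hb : b ∈ BB G Γ p α y) (t : Tv p W D (φ b))
    {M : Submodule (ZMod p) W} (hM : S.IsPl M) (h : Pl p W F (φ b) ∉ S.comp M) :
    b ∈ Cn (S.kap M) := by
  refine mem_Cn_sSup ?_
  rintro _ ⟨M', h1, rfl⟩
  by_contra h2
  have h3 : M' ∈ S.comp (Pl p W F (φ b)) :=
    Relation.ReflTransGen.single ⟨y, hy, b, hb, t, rfl, S.isPl_comp hM h1, h2⟩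
  apply h
  rw [← S.comp_eq hy hM h1, S.comp_eq hy ⟨_, t, rfl⟩ h3]
  exact S.self_mem_comp _

theorem exists_b {y : V} (hy : Γ.Adj α y) {M : Submodule (ZMod p) W} (hM : S.IsPl M) :
    ∃ b ∈ BB G Γ p α y, Tv p W D (φ b) ∧ Pl p W F (φ b) = M := by
  obtain ⟨a, ha, rfl⟩ := hM
  obtain ⟨c, ⟨c1, c2⟩, c3⟩ := S.exists_pl hy ha
  obtain ⟨b, b1, -, rfl⟩ := S.R.mem_bar.1 c1
  exact ⟨b, JJ_le_BB α y b1, c2, c3⟩

theorem fix_of_Cn {b : G} (hb : b ∈ St G α) {M : Submodule (ZMod p) W} (h : b ∈ Cn (S.R.pre M))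
    {v : W} (hv : v ∈ M) : φ b • v = v := by
  obtain ⟨u, hu, rfl⟩ := S.R.π_surj v
  exact S.R.fix_of_comm hb hu (mem_Cn.1 h u ⟨hu, hv⟩)

theorem kap_ne {y : V} (hy : Γ.Adj α y) {M M' : Submodule (ZMod p) W} (hM : S.IsPl M)
    (hM' : S.IsPl M') (h : M' ∉ S.comp M) : S.kap M' ≠ S.kap M := by
  intro e
  obtain ⟨b, hb, t, rfl⟩ := S.exists_b hy hM'
  have h1 := S.cent_kap hy hb t hM h
  rw [← e] at h1
  obtain ⟨w, w1, w2⟩ := S.L.not_fix t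
  exact w2 (S.fix_of_Cn (BB_le_St hy hb) (Cn_anti (S.pre_le_kap (S.self_mem_comp _)) h1) w1)

theorem mem_T {y : V} (hy : Γ.Adj α y) {b : G} (hb : b ∈ BB G Γ p α y) (t : Tv p W D (φ b))
    {M : Submodule (ZMod p) W} (hM : S.IsPl M) (h : Pl p W F (φ b) ∈ S.comp M) :
    b ∈ S.dat.T α y (S.kap M) := by
  refine ⟨hb, mem_Cn_sSup fun κ hκ => ?_⟩
  obtain ⟨M', hM', rfl⟩ := S.mem_Str.1 hκ.1
  refine S.cent_kap hy hb t hM' fun h1 => hκ.2 ?_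
  rw [Set.mem_singleton_iff, kap, kap, ← S.comp_eq hy hM' h1, S.comp_eq hy hM h]

theorem dat_U {y : V} (hy : Γ.Adj α y) : S.dat.U α = Y₁ := by
  have h1 : S.dat.U α ≤ Y₁ := sSup_le fun κ hκ => by
    obtain ⟨M, -, rfl⟩ := S.mem_Str.1 hκ; exact S.kap_le M
  refine le_antisymm h1 fun u hu => ?_
  obtain ⟨c, -, hc⟩ := S.exists_tv hy
  have h2 : ∀ a, Tv p W D a → S.R.pre (Pl p W F a) ≤ S.dat.U α := fun a ha =>
    (S.pre_le_kap (S.self_mem_comp _)).trans (Dat.le_U (S.mem_Str.2 ⟨_, ⟨a, ha, rfl⟩, rfl⟩))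
  have h3 : S.R.img (p := p) (S.dat.U α) = ⊤ := S.L.span_top hc fun g v hv => by
    obtain ⟨u, hu, rfl⟩ := S.R.π_surj v
    exact ⟨u, h2 _ (S.L.tv_conj hc g) ⟨hu, hv⟩, hu, rfl⟩
  obtain ⟨v, v1, v2, e⟩ : π u ∈ S.R.img (p := p) (S.dat.U α) := h3 ▸ Submodule.mem_top
  have h4 : v⁻¹ * u ∈ Y₀ := (S.R.π_zero _ (mul_mem (inv_mem v2) hu)).1 (by
    rw [S.R.π_mul _ (inv_mem v2) _ hu, S.R.π_inv v2, e, neg_add_cancel])
  simpa using mul_mem v1 (h2 c hc (S.R.le_pre _ h4))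

theorem B_le_Nm {y : V} (hy : Γ.Adj α y) {M : Submodule (ZMod p) W} (hM : S.IsPl M) :
    BB G Γ p α y ≤ Nm (S.kap M) := by
  intro b hb
  obtain ⟨a, ha, rfl⟩ := hM
  have : φ b • Pl p W F a = Pl p W F a :=
    (closure_le (MulAction.stabilizer X (Pl p W F a))).2 (fun c hc => S.L.tv_smul_Pl ha hc.2)
      (S.barB_le hy (S.R.φ_mem_bar hb (BB_le_St hy hb)))
  rw [mem_Nm_iff, S.cj_kap (BB_le_St hy hb), this]

theorem P_le_T {y : V} (hy : Γ.Adj α y) (κ : Subgroup G) : PP G Γ p α ≤ S.dat.T α y κ :=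
  le_inf (PP_le_BB hy) (S.PC.trans (Cn_anti (sSup_le fun κ' hκ => by
    obtain ⟨M, -, rfl⟩ := S.mem_Str.1 hκ.1; exact S.kap_le M)))

theorem dat_loc {β : V} (h : Γ.Adj α β) : S.dat.Loc Γ p α β where
  PB := PP_le_BB h
  BS := BB_le_St h
  PK := (PP_le_QQ α).trans (QQ_le_K α)
  BK := fun _ hb => S.BQ_le h ⟨hb.1, S.c.RR_inf_K h ⟨hb.1.1, hb.2⟩⟩
  UP := by rw [S.dat_U h]; exact S.Y_le_P
  PU := by rw [S.dat_U h]; exact S.PC
  ea := by rw [S.dat_U h]; exact S.ea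
  CU := by
    rw [S.dat_U h]
    exact fun _ hb => S.BQ_le h ⟨hb.1, S.ker β h ⟨Cn_le_CQ S.R.le hb.2, hb.1.1⟩⟩
  Une := by
    rw [S.dat_U h]
    intro e
    obtain ⟨A, hA, hAQ⟩ := S.ex β h
    exact hAQ fun a ha => S.ker β h ⟨Cn_le_CQ S.R.le (by rw [e, Cn_bot]; exact mem_top a), hA.1 ha⟩
  Bn := fun κ hκ => by
    obtain ⟨M, hM, rfl⟩ := S.mem_Str.1 hκ
    exact S.B_le_Nm h hM
  PT := fun κ _ => S.P_le_T h κ
  TB := fun _ _ => inf_le_left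
  zeta := fun κ hκ => by
    obtain ⟨M, -, rfl⟩ := S.mem_Str.1 hκ
    refine inf_le_right.trans (Cn_anti ?_)
    rw [commutator_comm]
    refine commutator_le.2 fun t ht u hu => ?_
    have h1 := BB_le_St h ht.1
    refine S.mem_ZJ h (S.R.comm_mem h1 (S.kap_le M hu)) fun s hs => ?_
    rw [S.R.π_comm h1 (S.kap_le M hu)]
    exact S.quad h (S.R.bar_mono (JJ_le_BB α β) hs) (S.R.φ_mem_bar ht.1 h1) _
  oth := fun κ _ κ' hκ' hne => inf_le_right.trans (Cn_anti (le_sSup ⟨hκ', hne⟩))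
  ncent := fun κ hκ => by
    obtain ⟨M, hM, rfl⟩ := S.mem_Str.1 hκ
    obtain ⟨b, hb, t, rfl⟩ := S.exists_b h hM
    obtain ⟨g, hg, w, hw, hne⟩ := S.L.exists_move t
    obtain ⟨g, g1, rfl⟩ := S.R.φ_surj g
    obtain ⟨u, hu, rfl⟩ := S.R.π_surj w
    have hbS := BB_le_St h hb
    have hT := S.mem_T h hb t hM (S.self_mem_comp _)
    have h1 := conj_mem_cj (g := g) hT
    rw [S.dat_equi.T, mem_St.1 g1, S.cj_kap g1, S.L.smul_Pl, S.L.pl_conj_F _ hg] at h1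
    refine ⟨g • β, S.c.adj_St g1 h, fun h2 => hne ?_⟩
    have h3 : ⁅b, u⁆ ∈ ⁅S.kap (Pl p W F (φ b)), S.dat.T α β (S.kap (Pl p W F (φ b)))⁆ := by
      rw [commutator_comm]
      exact commutator_mem_commutator hT (S.pre_le_kap (S.self_mem_comp _) ⟨hu, hw⟩)
    rw [← S.R.π_comm hbS hu, ← S.R.φ_conj g1 hbS]
    exact S.R.fix_of_comm ((St G α).mul_mem ((St G α).mul_mem g1 hbS) (inv_mem g1))
      (S.R.comm_mem hbS hu) (mem_Cn.1 (h2 h1) _ h3)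
  tr := fun κ hκ κ' hκ' => by
    obtain ⟨M, hM, rfl⟩ := S.mem_Str.1 hκ
    obtain ⟨M', hM', rfl⟩ := S.mem_Str.1 hκ'
    obtain ⟨k, k1, k2, k3⟩ := S.pl_trans h hM hM'
    exact ⟨k, k1, k2, by rw [S.cj_kap k1, k3]⟩
  dec := fun A hA _ κ hκ a ha => by
    obtain ⟨M, hM, rfl⟩ := S.mem_Str.1 hκ
    have h1 := S.lift h (T := BB G Γ p α β)
      (U := S.dat.T α β (S.kap M) ⊔ Cn (S.kap M) ⊓ BB G Γ p α β) (sup_le inf_le_left inf_le_right)
      (hA ha) (fun t t1 _ t3 => by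
        by_cases h2 : Pl p W F (φ t) ∈ S.comp M
        · exact mem_sup_left (S.mem_T h t1 t3 hM h2)
        · exact mem_sup_right ⟨S.cent_kap h t1 t3 hM h2, t1⟩)
      (Subgroup.closure_mono
        (h := {a | a ∈ S.R.bar (JJ p (RR G Γ p α β)) ∧ Tv p W D a})
        (fun c hc => And.intro (S.R.bar_mono (JJ_le_BB α β) hc.1) hc.2)
        (S.barB_le h (S.R.φ_mem_bar (hA ha) (BB_le_St h (hA ha)))))
    rw [sup_of_le_left ((S.P_le_T h _).trans le_sup_left)] at h1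
    have h2 : S.dat.T α β (S.kap M) ≤ Nm (Cn (S.kap M) ⊓ BB G Γ p α β) := fun t ht =>
      Nm_inf (Nm_Cn (S.B_le_Nm h hM ht.1)) (le_Nm_self _ ht.1)
    obtain ⟨t, ht, c, hc, rfl⟩ := mem_sup_of_left_Nm h2 h1
    exact ⟨t, ht, by simpa using hc.1⟩
  off1 := fun A hA _ => by rw [S.dat_U h]; exact S.off1 h hA
  off2 := fun A hA hE hi κ hκ hn => by
    obtain ⟨M, hM, rfl⟩ := S.mem_Str.1 hκ
    rw [S.dat_U h] at hi
    obtain ⟨h1, h2⟩ := S.off h (hA.trans (BB_le_RR α β)) (S.R.bar_EA hE)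
      (by rw [S.card_bar' h hA]; exact hi)
    have hout : ∀ M', S.IsPl M' → (¬ ∃ x ∈ A, Tv p W D (φ x) ∧ Pl p W F (φ x) = M') →
        A ≤ Cn (S.R.pre M') := by
      rintro _ ⟨a, ha, rfl⟩ h3
      refine le_Cn_comm.1 ((S.R.pre_mono ?_).trans h1)
      intro v hv s hs
      refine (closure_le (MulAction.stabilizer X v)).2 (fun c hc => ?_) (h2 hs)
      obtain ⟨x, x1, -, rfl⟩ := S.R.mem_bar.1 hc.1
      exact S.L.dich ha hc.2 (fun e => h3 ⟨x, x1, hc.2, e.symm⟩) hv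
    obtain ⟨M₁, m1, m2⟩ : ∃ M₁ ∈ S.comp M, ∃ x ∈ A, Tv p W D (φ x) ∧ Pl p W F (φ x) = M₁ := by
      by_contra hc
      refine hn fun a ha => mem_Cn_sSup ?_
      rintro _ ⟨M', h3, rfl⟩
      exact hout M' (S.isPl_comp hM h3) (fun h4 => hc ⟨M', h3, h4⟩) ha
    have hall : ∀ M' ∈ S.comp M, ∃ x ∈ A, Tv p W D (φ x) ∧ Pl p W F (φ x) = M' := by
      rw [← S.comp_eq h hM m1]
      intro M' h3
      induction h3 with
      | refl => exact m2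
      | tail _ h4 ih =>
        obtain ⟨x, x1, x2, x3⟩ := ih
        obtain ⟨b, b1, b2, b3, b4⟩ := S.rel_fix h h4
        obtain ⟨_, _, _, _, _, _, h5, _⟩ := h4
        by_contra h6
        exact b4 (S.same_plane h (hA x1) b1 x2 b2 (x3.trans b3.symm) (S.R.pre_le _)
          (hout _ h5 h6 x1))
    intro t ht
    have htS := BB_le_St h ht.1
    obtain ⟨b, hb, h3⟩ := S.L.correct (S.barB_pg h)
      (C := {a | (a ∈ S.R.bar A ∧ Tv p W D a) ∧ Pl p W F a ∈ S.comp M})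
      (fun c hc => ⟨hc.1.2, S.R.bar_mono hA hc.1.1,
        fun s hs => S.quad h hs (S.R.bar_mono hA hc.1.1)⟩) (S.R.φ_mem_bar ht.1 htS)
    have h4 : b⁻¹ * φ t = 1 := S.eq_one_of_fix h fun a ha v hv => by
      rw [mul_smul, inv_smul_eq_iff]
      by_cases h5 : Pl p W F a ∈ S.comp M
      · obtain ⟨x, x1, x2, x3⟩ := hall _ h5
        exact h3 (φ x) ⟨⟨S.R.φ_mem_bar x1 (BB_le_St h (hA x1)), x2⟩, x3 ▸ h5⟩ v (x3 ▸ hv)
      · have h7 : S.kap (Pl p W F a) ∈ S.Str α \ {S.kap M} :=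
          ⟨S.mem_Str.2 ⟨_, ⟨a, ha, rfl⟩, rfl⟩, S.kap_ne h hM ⟨a, ha, rfl⟩ h5⟩
        have h6 : t ∈ Cn (S.R.pre (Pl p W F a)) :=
          Cn_anti ((S.pre_le_kap (S.self_mem_comp _)).trans (le_sSup h7)) ht.2
        rw [S.fix_of_Cn htS h6 hv]
        have h8 : closure {a | (a ∈ S.R.bar A ∧ Tv p W D a) ∧ Pl p W F a ∈ S.comp M} ≤
            MulAction.stabilizer X v := (closure_le _).2 fun c hc =>
          S.L.dich (c := c) ha hc.1.2 (fun e => h5 (e ▸ hc.2)) hv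
        exact (h8 hb :).symm
    refine S.lift h (T := A) hA ht.1 (fun _ h5 _ _ => h5) ?_
    rw [← inv_mul_eq_one.1 h4]
    exact Subgroup.closure_mono (fun c hc => hc.1) hb
  nn := fun κ hκ => by
    refine (S.off1 h (T := S.dat.T α β κ) inf_le_left).trans (relIndex_le_of_cover fun u hu => ?_)
    have hk : κ ≤ Y₁ := (Dat.le_U hκ).trans (S.dat_U h).le
    have h1 : sSup (S.Str α \ {κ}) ≤ Y₁ :=
      le_trans (sSup_le_sSup Set.sdiff_subset) (S.dat_U h).le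
    have h2 : Y₁ ≤ κ ⊔ sSup (S.Str α \ {κ}) := by
      refine (S.dat_U h).ge.trans (sSup_le fun κ' hκ' => ?_)
      by_cases e : κ' = κ
      · exact le_sup_of_le_left e.le
      · exact le_sup_of_le_right (le_sSup ⟨hκ', e⟩)
    obtain ⟨k, hk', o, ho, rfl⟩ := mem_sup_of_left_Nm
      (hk.trans (S.ea.2.trans ((Cn_anti h1).trans (Cn_le_Nm _)))) (h2 hu)
    refine ⟨k, hk', ?_⟩
    rw [inv_mul_cancel_left]
    exact le_Cn_comm.1 (inf_le_right : S.dat.T α β κ ≤ _) ho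

end SC

theorem Ctx.soluble (c : Ctx G Γ) {α β : V} (h : Γ.Adj α β)
    (h0 : QQ G Γ p α ⊓ QQ G Γ p β ≠ ⊥) (hA : HypA G Γ p α) :
    ∃ D : Dat G V, D.Equi ∧ D.Loc Γ p α β ∧ D.U α ≤ Cn (QQ G Γ p α) := by
  obtain ⟨Y₁, Y₀, h1, h2, h3, h4, h5, h6⟩ := c.exists_section h h0
  obtain ⟨X, W, _, _, _, _, _, _, _, φ, π, R⟩ := exists_Rep h1 h3 h4 ((YY_EA α).mono h2)
  have h0' : ∀ y, Γ.Adj α y → QQ G Γ p α ⊓ QQ G Γ p y ≠ ⊥ := by
    intro y hy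
    obtain ⟨g, g1, rfl⟩ := c.arc h hy
    rwa [← g1, ← c.cj_QQ, ← c.cj_QQ, ← cj_inf, Ne, cj_eq_bot]
  have S : SC Γ p α Y₁ Y₀ φ π _ _ := ⟨c, R, h2, fun y hy r hr => c.RR_inf_K hy ⟨hr.2,
    c.sp_le inf_le_right (fun g hg => Nm_inf (Nm_CQ (h3 hg) (h4 hg)) (le_Nm_self _ hg)) h5 hy
      ⟨⟨hr.1, RR_le_St hy hr.2⟩, RR_le_St' hy hr.2⟩⟩, fun y hy => c.exists_AA hy (h0' y hy),
    fun y hy r hr => R.φ_mem_bar (le_JN hy hr) (RR_le_St hy hr), c.lc h R h2 h6 hA⟩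
  exact ⟨S.dat, S.dat_equi, S.dat_loc h, by rw [S.dat_U h]; exact le_Cn_comm.1 S.QC⟩

end Pool.Agent.Lib.MP_bf45aa_co
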