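import Pool.Agent.Lib.MP_bf45aa_co.LFin
import Pool.Agent.Lib.MP_bf45aa_co.LUltra
import Pool.Agent.Lib.MP_bf45aa_co.LStage
import Pool.Agent.Lib.MP_bf45aa_co.Soluble3

set_option autoImplicit false
set_option linter.unusedSectionVars false

/-! The bound on the critical distance and on vertex stabilisers. -/

namespace Pool.Agent.Lib.MP_bf45aa_co

open Subgroup
open scoped commutatorElement

/-- A short critical walk. -/
def Short (G : Type*) {V : Type*} [Group G] [MulAction G V] (Γ : SimpleGraph V) (p m : ℕ) : Prop :=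
  ∃ x u u', Near Γ m x u ∧ Γ.Adj u u' ∧ ∃ a ∈ Cn (QQ G Γ p x), a • u = u ∧ a • u' = u' ∧
    a ∉ Kn G Γ 1 u

theorem Short.mono {V G : Type*} [Group G] [MulAction G V] {Γ : SimpleGraph V} {p m m' : ℕ}
    (h : Short G Γ p m) (hm : m ≤ m') : Short G Γ p m' :=
  let ⟨x, u, u', h1, h2⟩ := h; ⟨x, u, u', h1.mono hm, h2⟩

theorem crit_bound (d p : ℕ) [Fact p.Prime] (hp : 5 ≤ p) :
    ∃ m, ∀ (V G : Type) [Group G] [MulAction G V] [Finite G] [Finite V] (Γ : SimpleGraph V),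
      Ctx G Γ → (∀ v, (Γ.neighborSet v).ncard ≤ d) → HP G Γ p → ∀ α β, Γ.Adj α β →
      QQ G Γ p α ⊓ QQ G Γ p β ≠ ⊥ → Short G Γ p m := by
  by_contra hc
  push Not at hc
  choose V G i1 i2 i3 i4 Γ c hd hP α β h h0 hS using fun b => hc (8 * b + 9)
  have hD := fun b => (@Ctx.exists_FD (V b) (G b) (i1 b) (i2 b) (Γ b) (i3 b) (i4 b) p _ (c b) d
    (hd b) (hP b) _ _ (h b) (h0 b) b).resolve_left (hS b)
  obtain ⟨H, X, M, _, _, _, _, ⟨D⟩⟩ := exists_LD G V fun b => (hD b).some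
  exact D.false hp

theorem crit_bound_all (d : ℕ) :
    ∃ m, 2 * cb d 1 ≤ m ∧ ∀ p ≤ cb d 1, p.Prime → 5 ≤ p →
      ∀ (V G : Type) [Group G] [MulAction G V] [Finite G] [Finite V] (Γ : SimpleGraph V),
      Ctx G Γ → (∀ v, (Γ.neighborSet v).ncard ≤ d) → HP G Γ p → ∀ α β, Γ.Adj α β →
      QQ G Γ p α ⊓ QQ G Γ p β ≠ ⊥ → Short G Γ p m := by
  have h : ∀ p : ℕ, ∃ m, p.Prime → 5 ≤ p →
      ∀ (V G : Type) [Group G] [MulAction G V] [Finite G] [Finite V] (Γ : SimpleGraph V),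
      Ctx G Γ → (∀ v, (Γ.neighborSet v).ncard ≤ d) → HP G Γ p → ∀ α β, Γ.Adj α β →
      QQ G Γ p α ⊓ QQ G Γ p β ≠ ⊥ → Short G Γ p m := by
    intro p
    by_cases hp : p.Prime ∧ 5 ≤ p
    · have := Fact.mk hp.1
      exact (crit_bound d p hp.2).imp fun m hm _ _ => hm
    · exact ⟨0, fun h1 h2 => absurd ⟨h1, h2⟩ hp⟩
  choose m hm using h
  refine ⟨max (2 * cb d 1) ((Finset.range (cb d 1 + 1)).sup m), le_max_left _ _, ?_⟩
  intro p hp h1 h2 V G _ _ _ _ Γ c hd hP α β h h0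
  exact (hm p h1 h2 V G Γ c hd hP α β h h0).mono (le_max_of_le_right
    (Finset.le_sup (f := m) (Finset.mem_range.2 (Nat.lt_succ_of_le hp))))

variable {V G : Type*} [Group G] [MulAction G V] {Γ : SimpleGraph V} [Finite G]

theorem Rch.near {n : ℕ} {x y : V} (h : Rch Γ n x y) : Near Γ n x y := by
  obtain ⟨f, hf, rfl, rfl⟩ := h
  have : ∀ i ≤ n, Near Γ i (f 0) (f i) := by
    intro i hi
    induction i with
    | zero => exact Near.refl _ _
    | succ i ih => exact (ih (by omega)).trans (Near.of_adj (hf i hi))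
  exact this n le_rfl

theorem Ctx.SN_near (c : Ctx G Γ) {n : ℕ} {x y : V} (h : Near Γ n x y) :
    SN (Kn G Γ (n + 1) y) (Kn G Γ 1 x) := by
  induction n generalizing y with
  | zero => rw [near_zero h]; exact SN.refl _
  | succ n ih =>
    rcases near_succ' h with rfl | ⟨z, h1, h2⟩
    · rw [add_comm]; exact c.SN_Kn_self 1 _ x
    · exact (c.SN_Kn_adj n h2.symm).trans (ih h1)

theorem Ctx.short_of_dat [Finite V] (c : Ctx G Γ) {d p : ℕ} [Fact p.Prime]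
    (hd : ∀ v, (Γ.neighborSet v).ncard ≤ d) {α β : V} (h : Γ.Adj α β)
    (hD : ∃ D : Dat G V, D.Equi ∧ D.Loc Γ p α β ∧ D.U α ≤ Cn (QQ G Γ p α)) :
    Short G Γ p (2 * cb d 1) := by
  obtain ⟨D, E, L, hU⟩ := hD
  obtain ⟨k, hk, x, u, u', hr, hu, a, ha, a1⟩ := amalgam c hd E h L
  refine ⟨x, u, u', hr.near.mono hk, hu, a, ?_, a1⟩
  obtain ⟨y, hy⟩ := c.has_nbr h x
  obtain ⟨g, rfl, -⟩ := c.arc h hy
  rw [← E.U] at ha
  rw [← c.cj_QQ, ← cj_Cn]
  exact cj_mono g hU ha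

theorem Ctx.prime_le [Finite V] (c : Ctx G Γ) {d p : ℕ} [Fact p.Prime]
    (hd : ∀ v, (Γ.neighborSet v).ncard ≤ d) {α β : V} (h : Γ.Adj α β)
    (h0 : QQ G Γ p α ⊓ QQ G Γ p β ≠ ⊥) : p ≤ cb d 1 := by
  obtain ⟨A, hA, h1⟩ := c.exists_AA h h0
  have h2 : ¬ RR G Γ p α β ≤ Kn G Γ 1 α := fun h2 =>
    h1 ((le_inf hA.1 (hA.1.trans h2)).trans (c.RR_inf_K h))
  exact (le_relIndex_of_not_le (c.RR_pg h) h2).trans
    ((relIndex_le_of_le_right (RR_le_St h) (relIndex_pos _ _).ne').trans (c.relIndex_Kn hd 1 α))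

theorem Ctx.reduction2 (c : Ctx G Γ) {m : ℕ} {α β : V} (h : Γ.Adj α β)
    (hp : ∀ p : ℕ, p.Prime → QQ G Γ p α ⊓ QQ G Γ p β ≠ ⊥ → Short G Γ p m) (v : V) :
    Kn G Γ (m + 2) v = ⊥ := by
  by_contra hne
  obtain ⟨w, hw⟩ := c.has_nbr h v
  obtain ⟨S, ⟨hS, hS0⟩, hmin⟩ := Set.Finite.exists_minimalFor (fun N : Subgroup G => N)
    {S | SN S (Kn G Γ (m + 2) v) ∧ S ≠ ⊥} (Set.toFinite _) ⟨_, SN.refl _, hne⟩
  have hsimp : ∀ N ≤ S, S ≤ Nm N → N = ⊥ ∨ N = S := by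
    intro N h1 h2
    by_cases h3 : N = ⊥
    · exact Or.inl h3
    · exact Or.inr (le_antisymm h1 (hmin ⟨(SN.single h1 h2).trans hS, h3⟩ h1))
  have sv : SN S (Kn G Γ (m + 1) v) := hS.trans (c.SN_Kn_self (m + 1) 1 v)
  have sw : SN S (Kn G Γ (m + 1) w) := hS.trans (c.SN_Kn_adj m hw)
  have sv1 : SN S (Kn G Γ 1 v) := sv.trans (by rw [add_comm]; exact c.SN_Kn_self 1 m v)
  have sw1 : SN S (Kn G Γ 1 w) := sw.trans (by rw [add_comm]; exact c.SN_Kn_self 1 m w)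
  have stv : S ≤ St G v := sv1.le.trans (Kn_le_St 1 v)
  have stw : S ≤ St G w := sw1.le.trans (Kn_le_St 1 w)
  rcases hsimp ⁅S, S⁆ (commutator_le_self S) (normalizer_commutator_ge_left S S) with hab | hperf
  · have hab' : S ≤ Cn S := commutator_eq_bot_iff_le_centralizer.1 hab
    obtain ⟨p, hpp, hpd⟩ := Nat.exists_prime_and_dvd (n := Nat.card S)
      (fun h1 => hS0 (card_eq_one.1 h1))
    have := Fact.mk hpp
    obtain ⟨a, ha⟩ := exists_prime_orderOf_dvd_card' p hpd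
    have ha' : orderOf (a : G) = p := by rw [orderOf_coe, ha]
    have hz : zpowers (a : G) = S := by
      rcases hsimp _ (zpowers_le.2 a.2) (hab'.trans ((Cn_anti (zpowers_le.2 a.2)).trans
        (Cn_le_Nm _))) with h1 | h1
      · rw [zpowers_eq_bot, ← orderOf_eq_one_iff, ha'] at h1
        exact absurd h1 hpp.one_lt.ne'
      · exact h1
    have hpi : IsPi (· = p) S := by
      intro q hq hd
      rw [← hz, Nat.card_zpowers, ha'] at hd
      exact (Nat.prime_dvd_prime_iff_eq hq hpp).1 hd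
    obtain ⟨g, g1, g2⟩ := c.arc hw h
    obtain ⟨x, u, u', hr, hu, a, ha, a1, a2, a3⟩ := hp p hpp (by
      rw [← g1, ← g2, ← c.cj_QQ, ← c.cj_QQ, ← cj_inf, Ne, cj_eq_bot]
      exact fun h1 => hS0 (eq_bot_iff.2 ((le_inf (sv1.le_core hpi) (sw1.le_core hpi)).trans h1.le)))
    refine hS0 (c.kill (X := fun y => core (· = p) (Kn G Γ (m + 1) y))
      (fun g y => by rw [cj_core, c.cj_Kn]) hu (a := a) ?_ a1 a2 a3 hw (sv.le_core hpi)
      (sw.le_core hpi) stv stw)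
    refine Cn_anti ?_ ha
    refine SN.le_core ?_ (isPi_core _ _)
    exact (core_SN _ _).trans (c.SN_near hr)
  · by_cases hall : ∀ x y, Γ.Adj x y → ∀ S', SN S' (Kn G Γ 1 x) → ⁅S', S'⁆ = S' →
        (∀ N ≤ S', S' ≤ Nm N → N = ⊥ ∨ N = S') → S' ≤ Kn G Γ 1 y
    · let E : V → Subgroup G := fun x => sSup {S' | SN S' (Kn G Γ 1 x) ∧ ⁅S', S'⁆ = S' ∧
        ∀ N ≤ S', S' ≤ Nm N → N = ⊥ ∨ N = S'}
      have hE : ∀ (g : G) x, cj g (E x) = E (g • x) := by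
        refine cj_eq_of_le (fun (g : G) (x : V) => g • x) act_inv E ?_
        intro g x
        rw [cj_sSup]
        refine sSup_le_sSup ?_
        rintro _ ⟨S', ⟨h1, h2, h3⟩, rfl⟩
        refine ⟨by rw [← c.cj_Kn]; exact h1.cj g, by rw [← cj_comm, h2], fun N hN1 hN2 => ?_⟩
        obtain ⟨N, rfl⟩ := exists_cj g N
        rw [← cj_Nm, cj_le_cj] at hN2
        rw [cj_eq_bot, cj_inj]
        exact h3 N (cj_le_cj.1 hN1) hN2
      have hle : ∀ x y, Γ.Adj x y → E x ≤ E y := by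
        intro x y hxy
        refine sSup_le_sSup ?_
        rintro S' ⟨h1, h2, h3⟩
        refine ⟨?_, h2, h3⟩
        have h4 : SN S' (St G x ⊓ St G y) := h1.trans (SN.single
          (le_inf (Kn_le_St 1 x) (Kn_le_St_adj 0 hxy)) (inf_le_left.trans (c.St_le_Nm_Kn 1 x)))
        exact h4.of_le (hall x y hxy S' h1 h2 h3) (le_inf (Kn_le_St_adj 0 hxy.symm) (Kn_le_St 1 y))
      have hEK : ∀ x, E x ≤ St G x := fun x => sSup_le fun S' h1 => h1.1.le.trans (Kn_le_St 1 x)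
      have he : E v = E w := le_antisymm (hle _ _ hw) (hle _ _ hw.symm)
      have h0 := c.L0 hw (hEK v) (he.le.trans (hEK w))
        ((c.tr_St v).mono (le_inf (St_le_Nm_of_equi hE v) le_rfl))
        ((c.tr_St w).mono (le_inf (by rw [he]; exact St_le_Nm_of_equi hE w) le_rfl))
      have h1 : S ≤ E v := le_sSup ⟨sv1, hperf, hsimp⟩
      exact hS0 (eq_bot_iff.2 (h1.trans h0.le))
    · push Not at hall
      obtain ⟨x, y, hxy, S', h1, h2, h3, h4⟩ := hall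
      have h5 : SN S' (St G x ⊓ St G y) := h1.trans (SN.single
        (le_inf (Kn_le_St 1 x) (Kn_le_St_adj 0 hxy)) (inf_le_left.trans (c.St_le_Nm_Kn 1 x)))
      have h6 := h5.wielandt h2 h3 (Kn G Γ 1 y)
        (le_inf (Kn_le_St_adj 0 hxy.symm) (Kn_le_St 1 y))
        (inf_le_right.trans (c.St_le_Nm_Kn 1 y)) h4
      obtain ⟨a, ha, h7⟩ := SetLike.not_le_iff_exists.1 h4
      exact hS0 (c.kill (c.cj_Kn 1) hxy.symm (h6 ha) (h5.le ha).2 (h5.le ha).1 h7 hw sv1.le sw1.le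
        stv stw)

theorem Ctx.card_bound2 [Finite V] (c : Ctx G Γ) {d m : ℕ}
    (hd : ∀ v, (Γ.neighborSet v).ncard ≤ d)
    (hp : ∀ α β, Γ.Adj α β → ∀ p : ℕ, p.Prime → QQ G Γ p α ⊓ QQ G Γ p β ≠ ⊥ → Short G Γ p m)
    (v : V) :
    Nat.card (St G v) ≤ cb d (m + 2) := by
  have h0 : Kn G Γ (m + 2) v = ⊥ := by
    by_cases h : ∃ w, Γ.Adj v w
    · obtain ⟨w, hw⟩ := h
      exact c.reduction2 hw (hp v w hw) v
    · rw [eq_bot_iff]
      intro a ha
      refine mem_bot.2 (c.faithful a fun y => ?_)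
      obtain ⟨w⟩ := c.conn v y
      cases w with
      | nil => exact Kn_le_St _ _ ha
      | cons h1 _ => exact absurd ⟨_, h1⟩ h
  have := c.relIndex_Kn hd (m + 2) v
  rwa [h0, relIndex_bot_left] at this

end Pool.Agent.Lib.MP_bf45aa_co
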