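import Pool.Agent.Lib.MP_bf45aa_co.LID

set_option autoImplicit false
set_option linter.unusedSectionVars false

/-! Ultraproducts of groups acting on graphs. -/

namespace Pool.Agent.Lib.MP_bf45aa_co

open Subgroup Filter

/-- The ultrafilter. -/
noncomputable abbrev UU : Filter ℕ := (hyperfilter ℕ : Ultrafilter ℕ)

theorem ev_ge (k : ℕ) : ∀ᶠ n in UU, k ≤ n :=
  hyperfilter_le_cofinite (Nat.cofinite_eq_atTop ▸ eventually_ge_atTop k)

theorem ev_not {P : ℕ → Prop} : (∀ᶠ n in UU, ¬ P n) ↔ ¬ ∀ᶠ n in UU, P n :=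
  Ultrafilter.eventually_not

theorem ev_or {P Q : ℕ → Prop} : (∀ᶠ n in UU, P n ∨ Q n) ↔ (∀ᶠ n in UU, P n) ∨ ∀ᶠ n in UU, Q n :=
  Ultrafilter.eventually_or

theorem ev_choice {T : ℕ → Type} (t : ∀ n, T n) {P : ∀ n, T n → Prop}
    (h : ∀ᶠ n in UU, ∃ x, P n x) : ∃ x : ∀ n, T n, ∀ᶠ n in UU, P n (x n) := by
  classical
  refine ⟨fun n => if h : ∃ x, P n x then h.choose else t n, h.mono fun n hn => ?_⟩
  simp only [dif_pos hn]
  exact hn.choose_spec

theorem ev_pigeon {ι : Type*} {s : Set ι} (hs : s.Finite) {P : ι → ℕ → Prop}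
    (h : ∀ᶠ n in UU, ∃ i ∈ s, P i n) : ∃ i ∈ s, ∀ᶠ n in UU, P i n := by
  by_contra hc
  push Not at hc
  have h1 : ∀ᶠ n in UU, ∀ i ∈ s, ¬ P i n :=
    (eventually_all_finite hs).2 fun i hi => hc i hi
  obtain ⟨n, ⟨i, hi, h2⟩, h3⟩ := (h.and h1).exists
  exact h3 i hi h2

/-- Equality almost everywhere. -/
def us (V : ℕ → Type) : Setoid (∀ n, V n) where
  r a b := ∀ᶠ n in UU, a n = b n
  iseqv := ⟨fun _ => Eventually.of_forall fun _ => rfl, fun h => h.mono fun _ => Eq.symm,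
    fun h h' => (h.and h').mono fun _ e => e.1.trans e.2⟩

/-- The ultraproduct of sets. -/
def UV (V : ℕ → Type) : Type := Quotient (us V)

/-- The class of a sequence. -/
def mkV {V : ℕ → Type} (x : ∀ n, V n) : UV V := Quotient.mk (us V) x

/-- Equality almost everywhere is a congruence. -/
def uc (G : ℕ → Type) [∀ n, Group (G n)] : Con (∀ n, G n) where
  toSetoid := us G
  mul' := fun h h' => (Eventually.and h h').mono fun n e => by
    rw [Pi.mul_apply, Pi.mul_apply, e.1, e.2]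

/-- The ultraproduct of groups. -/
abbrev UG (G : ℕ → Type) [∀ n, Group (G n)] : Type := (uc G).Quotient

/-- The class of a sequence. -/
def mkG {G : ℕ → Type} [∀ n, Group (G n)] : (∀ n, G n) →* UG G := (uc G).mk'

variable {G V : ℕ → Type} [∀ n, Group (G n)] [∀ n, MulAction (G n) (V n)]

theorem mkV_eq {x y : ∀ n, V n} : mkV x = mkV y ↔ ∀ᶠ n in UU, x n = y n := Quotient.eq

theorem mkG_eq {a b : ∀ n, G n} : mkG a = mkG b ↔ ∀ᶠ n in UU, a n = b n := Con.eq _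

theorem mkV_surj (x : UV V) : ∃ a, mkV a = x := Quotient.exists_rep x

theorem mkG_surj (g : UG G) : ∃ a, mkG a = g := Con.mk'_surjective g

/-- A representative. -/
noncomputable def rp (x : UV V) : ∀ n, V n := Quotient.out x

theorem mkV_rp (x : UV V) : mkV (rp x) = x := Quotient.out_eq x

theorem rp_mkV (x : ∀ n, V n) : ∀ᶠ n in UU, rp (mkV x) n = x n := mkV_eq.1 (mkV_rp _)

instance : SMul (UG G) (UV V) where
  smul := Quotient.map₂ (sa := us G) (sb := us V) (sc := us V) (fun g x n => g n • x n)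
    fun _ _ h _ _ h' => (Eventually.and h h').mono fun n e => by
      beta_reduce
      rw [e.1, e.2]

theorem mk_smul (g : ∀ n, G n) (x : ∀ n, V n) : mkG g • mkV x = mkV fun n => g n • x n := rfl

instance : MulAction (UG G) (UV V) where
  one_smul x := by
    obtain ⟨x, rfl⟩ := mkV_surj x
    rw [← map_one (mkG (G := G)), mk_smul]
    simp
  mul_smul a b x := by
    obtain ⟨x, rfl⟩ := mkV_surj x
    obtain ⟨a, rfl⟩ := mkG_surj a
    obtain ⟨b, rfl⟩ := mkG_surj b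
    rw [← map_mul, mk_smul, mk_smul, mk_smul]
    simp [mul_smul]

/-- The ultraproduct of graphs. -/
def UΓ (Γ : ∀ n, SimpleGraph (V n)) : SimpleGraph (UV V) where
  Adj x y := ∀ᶠ n in UU, (Γ n).Adj (rp x n) (rp y n)
  symm := ⟨fun _ _ h => h.mono fun _ => (Γ _).adj_symm⟩
  loopless := ⟨fun _ h => let ⟨_, h⟩ := h.exists; (Γ _).irrefl h⟩

theorem UΓ_adj {Γ : ∀ n, SimpleGraph (V n)} {x y : ∀ n, V n} :
    (UΓ Γ).Adj (mkV x) (mkV y) ↔ ∀ᶠ n in UU, (Γ n).Adj (x n) (y n) :=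
  eventually_congr (((rp_mkV x).and (rp_mkV y)).mono fun n e => by rw [e.1, e.2])

/-- Internal subgroups. -/
def US (S : ∀ n, Subgroup (G n)) : Subgroup (UG G) where
  carrier := {g | ∃ a, mkG a = g ∧ ∀ᶠ n in UU, a n ∈ S n}
  one_mem' := ⟨1, map_one _, Eventually.of_forall fun _ => one_mem _⟩
  mul_mem' := fun ⟨a, e, h⟩ ⟨b, e', h'⟩ => ⟨a * b, by rw [map_mul, e, e'],
    (h.and h').mono fun _ e => mul_mem e.1 e.2⟩
  inv_mem' := fun ⟨a, e, h⟩ => ⟨a⁻¹, by rw [map_inv, e], h.mono fun _ e => inv_mem e⟩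

theorem mem_US {S : ∀ n, Subgroup (G n)} {g : ∀ n, G n} :
    mkG g ∈ US S ↔ ∀ᶠ n in UU, g n ∈ S n :=
  ⟨fun ⟨_, e, h⟩ => ((mkG_eq.1 e).and h).mono fun _ e => e.1 ▸ e.2, fun h => ⟨g, rfl, h⟩⟩

theorem US_mono {S T : ∀ n, Subgroup (G n)} (h : ∀ᶠ n in UU, S n ≤ T n) : US S ≤ US T :=
  fun _ ⟨a, e, h'⟩ => ⟨a, e, (h.and h').mono fun _ e => e.1 e.2⟩

theorem mem_St_iff {g : ∀ n, G n} {x : ∀ n, V n} :
    mkG g ∈ St (UG G) (mkV x) ↔ ∀ᶠ n in UU, g n ∈ St (G n) (x n) := by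
  rw [mem_St, mk_smul, mkV_eq]; rfl

variable {Γ : ∀ n, SimpleGraph (V n)}

theorem near_iff {k : ℕ} {x y : ∀ n, V n} :
    Near (UΓ Γ) k (mkV x) (mkV y) ↔ ∀ᶠ n in UU, Near (Γ n) k (x n) (y n) := by
  induction k generalizing x with
  | zero =>
    exact ⟨fun h => (mkV_eq.1 (near_zero h)).mono fun n e => e ▸ Near.refl _ _,
      fun h => mkV_eq.2 (h.mono fun n => near_zero) ▸ Near.refl _ _⟩
  | succ k ih =>
    constructor
    · intro h
      rcases near_succ h with e | ⟨z, h1, h2⟩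
      · exact (mkV_eq.1 e).mono fun n e => e ▸ Near.refl _ _
      · obtain ⟨z, rfl⟩ := mkV_surj z
        exact ((UΓ_adj.1 h1).and (ih.1 h2)).mono fun n e =>
          ((Near.of_adj e.1).trans e.2).mono (by omega)
    · intro h
      rcases ev_or.1 (h.mono fun n => near_succ) with e | h1
      · exact mkV_eq.2 e ▸ Near.refl _ _
      · obtain ⟨z, hz⟩ := ev_choice x h1
        exact ((Near.of_adj (UΓ_adj.2 (hz.mono fun _ e => e.1))).trans
          (ih.2 (hz.mono fun _ e => e.2))).mono (by omega)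

theorem mem_Kn_ultra {k : ℕ} {g : ∀ n, G n} {x : ∀ n, V n} :
    mkG g ∈ Kn (UG G) (UΓ Γ) k (mkV x) ↔ ∀ᶠ n in UU, g n ∈ Kn (G n) (Γ n) k (x n) := by
  rw [mem_Kn_iff]
  constructor
  · intro h
    by_contra hc
    have h1 : ∀ᶠ n in UU, ∃ y, Near (Γ n) k (x n) y ∧ ¬ g n • y = y :=
      (ev_not.2 hc).mono fun n hn => by
        rw [mem_Kn_iff] at hn
        push Not at hn
        exact hn
    obtain ⟨y, hy⟩ := ev_choice x h1
    have h2 := h (mkV y) (near_iff.2 (hy.mono fun _ e => e.1))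
    rw [mk_smul, mkV_eq] at h2
    obtain ⟨n, h3, h4⟩ := (hy.and h2).exists
    exact h3.2 h4
  · intro h y hy
    obtain ⟨y, rfl⟩ := mkV_surj y
    rw [mk_smul, mkV_eq]
    exact (h.and (near_iff.1 hy)).mono fun n e => mem_Kn_iff.1 e.1 _ e.2

end Pool.Agent.Lib.MP_bf45aa_co
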