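import Pool.Agent.Lib.MP_bf45aa_co.LU0

set_option autoImplicit false
set_option linter.unusedSectionVars false

/-! Transfer of the local hypotheses to the ultraproduct. -/

namespace Pool.Agent.Lib.MP_bf45aa_co

open Subgroup Filter

/-- Internal sets of bounded size. For almost all `n` choose `e n : Fin d → T n` whose range
contains `S n` (`ev_choice`); let `t` consist of the sequences `n ↦ e n i` for those `i` with
`∀ᶠ n in UU, e n i ∈ S n`. For the other `i`, `e n i ∉ S n` for almost all `n` (`ev_not`). -/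
theorem internal_finite {T : ℕ → Type} (t₀ : ∀ n, T n) (S : ∀ n, Set (T n)) {d : ℕ}
    (h : ∀ᶠ n in UU, (S n).Finite ∧ (S n).ncard ≤ d) :
    ∃ t : Finset (∀ n, T n), t.card ≤ d ∧ (∀ a ∈ t, ∀ᶠ n in UU, a n ∈ S n) ∧
      ∀ᶠ n in UU, ∀ x ∈ S n, ∃ a ∈ t, a n = x := by
  classical
  obtain ⟨e, he⟩ := ev_choice (T := fun n => Fin d → T n) (fun n _ => t₀ n)
    (P := fun n e => ∀ x ∈ S n, ∃ i, e i = x) (h.mono fun n hn => by
      have h1 : hn.1.toFinset.card ≤ d := Set.ncard_eq_toFinset_card _ hn.1 ▸ hn.2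
      refine ⟨fun i => if hi : i.1 < hn.1.toFinset.card then
        (hn.1.toFinset.equivFin.symm ⟨i, hi⟩ : T n) else t₀ n, fun x hx => ?_⟩
      refine ⟨⟨hn.1.toFinset.equivFin ⟨x, hn.1.mem_toFinset.2 hx⟩,
        (Fin.is_lt _).trans_le h1⟩, ?_⟩
      simp)
  refine ⟨(Finset.univ.filter fun i => ∀ᶠ n in UU, e n i ∈ S n).image fun i n => e n i,
    Finset.card_image_le.trans ((Finset.card_filter_le _ _).trans (by simp)), fun a ha => ?_, ?_⟩
  · obtain ⟨i, hi, rfl⟩ := Finset.mem_image.1 ha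
    exact (Finset.mem_filter.1 hi).2
  · have h1 : ∀ᶠ n in UU, ∀ i, e n i ∈ S n → ∀ᶠ m in UU, e m i ∈ S m :=
      eventually_all.2 fun i => by
        by_cases hi : ∀ᶠ m in UU, e m i ∈ S m
        · exact Eventually.of_forall fun _ _ => hi
        · exact (ev_not.2 hi).mono fun n hn h => (hn h).elim
    refine (he.and h1).mono fun n hn x hx => ?_
    obtain ⟨i, rfl⟩ := hn.1 x hx
    exact ⟨_, Finset.mem_image.2 ⟨i, Finset.mem_filter.2 ⟨Finset.mem_univ _, hn.2 i hx⟩, rfl⟩, rfl⟩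

/-- Short words. The sets `O i` of points reached from `x` by words of length `i` increase
(`1 ∈ S`), lie in `Ω`, and `O i = O (i + 1)` gives `O (i + 1) = O (i + 2)`; so `O d = O (d + 1)`,
and `O d` is invariant under `closure S` (induction; `S` is closed under inverses). -/
theorem exists_word {G V : Type*} [Group G] [MulAction G V] (S : Set G) (Ω : Set V)
    (hΩ : Ω.Finite) {d : ℕ} (hd : Ω.ncard ≤ d) (hS : ∀ s ∈ S, ∀ z ∈ Ω, s • z ∈ Ω)
    (hS' : ∀ s ∈ S, s⁻¹ ∈ S) (h1 : 1 ∈ S) {x : V} (hx : x ∈ Ω) {g : G} (hg : g ∈ closure S) :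
    ∃ f : Fin d → G, (∀ i, f i ∈ S) ∧ (List.ofFn f).prod • x = g • x := by
  obtain ⟨O, e0, e⟩ : ∃ O : ℕ → Set V, O 0 = {x} ∧
      ∀ i z, z ∈ O (i + 1) ↔ ∃ s ∈ S, ∃ y ∈ O i, s • y = z :=
    ⟨fun i => Nat.rec {x} (fun _ A => {z | ∃ s ∈ S, ∃ y ∈ A, s • y = z}) i, rfl,
      fun _ _ => Iff.rfl⟩
  have h2 : ∀ i, O i ⊆ O (i + 1) := fun i z hz => (e i z).2 ⟨1, h1, z, hz, one_smul _ _⟩
  have h3 : ∀ i, O i ⊆ Ω := fun i => by
    induction i with
    | zero => exact e0 ▸ Set.singleton_subset_iff.2 hx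
    | succ i ih =>
      intro z hz
      obtain ⟨s, hs, y, hy, rfl⟩ := (e i z).1 hz
      exact hS s hs y (ih hy)
  have h4 : ∀ i, O i = O (i + 1) ∨ i + 1 ≤ (O i).ncard := fun i => by
    induction i with
    | zero => exact Or.inr (e0 ▸ (Set.ncard_singleton x).ge)
    | succ i ih =>
      by_cases hi : O i = O (i + 1)
      · exact Or.inl (Set.ext fun z => by rw [e, e (i + 1), ← hi])
      · exact Or.inr ((ih.resolve_left hi).trans_lt
          (Set.ncard_lt_ncard ((h2 i).ssubset_of_ne hi) (hΩ.subset (h3 (i + 1)))))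
  have h5 : O d = O (d + 1) := (h4 d).resolve_right fun h =>
    absurd (h.trans ((Set.ncard_le_ncard (h3 d) hΩ).trans hd)) (by omega)
  have h6 : g • x ∈ O d := by
    induction hg using closure_induction_left with
    | one => exact monotone_nat_of_le_succ h2 (Nat.zero_le d) (e0.ge (one_smul _ _))
    | mul_left s hs y _ ih => exact h5 ▸ (e d _).2 ⟨s, hs, _, ih, (mul_smul _ _ _).symm⟩
    | inv_mul_cancel s hs y _ ih =>
      exact h5 ▸ (e d _).2 ⟨s⁻¹, hS' s hs, _, ih, (mul_smul _ _ _).symm⟩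
  have h7 : ∀ i, ∀ z ∈ O i, ∃ f : Fin i → G, (∀ j, f j ∈ S) ∧ (List.ofFn f).prod • x = z := by
    intro i
    induction i with
    | zero =>
      intro z hz
      exact ⟨Fin.elim0, fun j => j.elim0, by simpa [e0, eq_comm] using hz⟩
    | succ i ih =>
      intro z hz
      obtain ⟨s, hs, y, hy, rfl⟩ := (e i z).1 hz
      obtain ⟨f, hf, rfl⟩ := ih y hy
      exact ⟨Fin.cons s f, fun j => Fin.cases hs hf j, by simp [mul_smul]⟩
  exact h7 d _ h6

/-- The conjugates of `a`, `a⁻¹` and `1` under a vertex stabiliser. -/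
def CS {G V : Type*} [Group G] [MulAction G V] (v : V) (a : G) : Set G :=
  {s | ∃ g ∈ St G v, s = 1 ∨ s = g * a * g⁻¹ ∨ s = g * a⁻¹ * g⁻¹}

theorem LU1_le {G V : Type*} [Group G] [MulAction G V] {v : V} {a : G} (ha : a ∈ St G v) :
    closure (CS v a) ≤ St G v := by
  rw [closure_le]
  rintro _ ⟨g, hg, rfl | rfl | rfl⟩
  · exact one_mem _
  · exact mul_mem (mul_mem hg ha) (inv_mem hg)
  · exact mul_mem (mul_mem hg (inv_mem ha)) (inv_mem hg)

theorem LU1_mem {G V : Type*} [Group G] [MulAction G V] (v : V) (a : G) : a ∈ closure (CS v a) :=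
  subset_closure ⟨1, one_mem _, Or.inr (Or.inl (by group))⟩

theorem LU1_nm {G V : Type*} [Group G] [MulAction G V] (v : V) (a : G) :
    St G v ≤ Nm (closure (CS v a)) := by
  have h : ∀ g ∈ St G v, ∀ s ∈ closure (CS v a), g * s * g⁻¹ ∈ closure (CS v a) := by
    intro g hg s hs
    induction hs using closure_induction with
    | mem s hs =>
      obtain ⟨u, hu, rfl | rfl | rfl⟩ := hs
      · exact subset_closure ⟨u, hu, Or.inl (by group)⟩
      · exact subset_closure ⟨g * u, mul_mem hg hu, Or.inr (Or.inl (by group))⟩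
      · exact subset_closure ⟨g * u, mul_mem hg hu, Or.inr (Or.inr (by group))⟩
    | one => simp
    | mul s t _ _ hs ht => convert mul_mem hs ht using 1; group
    | inv s _ hs => convert inv_mem hs using 1; group
  refine fun g hg => mem_normalizer_iff.2 fun s => ⟨h g hg s, fun hs => ?_⟩
  convert h g⁻¹ (inv_mem hg) _ hs using 1
  group

/-- The elements of the stabiliser that act trivially on `W x (k + 2)` modulo `W x k`. -/
def LU1_sub {p c β d b : ℕ} {G V : Type} [Group G] [MulAction G V] (D : FD p c β d b G V) (x : V)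
    (k : ℕ) : Subgroup G where
  carrier := {g | g ∈ St G x ∧ ∀ v ∈ D.W x (k + 2), g * v * g⁻¹ * v⁻¹ ∈ D.W x k}
  one_mem' := ⟨one_mem _, fun v _ => by simp⟩
  mul_mem' := fun {g h} hg hh => ⟨mul_mem hg.1 hh.1, fun v hv => by
    have h1 := D.equi g x k _ (hh.2 v hv)
    rw [mem_St.1 hg.1] at h1
    convert mul_mem h1 (hg.2 v hv) using 1
    group⟩
  inv_mem' := fun {g} hg => ⟨inv_mem hg.1, fun v hv => by
    have h1 := D.equi g⁻¹ x _ _ hv
    rw [mem_St.1 (inv_mem hg.1)] at h1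
    convert inv_mem (hg.2 _ h1) using 1
    group⟩

variable {p c β d : ℕ} {G V : ℕ → Type} [∀ n, Group (G n)] [∀ n, MulAction (G n) (V n)]
  (D : ∀ n, FD p c β d n (G n) (V n))

/-- The limit graph. -/
abbrev DΓ : SimpleGraph (UV V) := UΓ fun n => (D n).Γ

/-- The limit subgroups `W`. -/
noncomputable def DW (x : UV V) (k : ℕ) : Subgroup (UG G) := US fun n => (D n).W (rp x n) k

/-- The limit subgroups `Q`. -/
noncomputable def DQ (x : UV V) : Subgroup (UG G) := US fun n => (D n).Q (rp x n)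

theorem mem_DW {x : ∀ n, V n} {k : ℕ} {g : ∀ n, G n} :
    mkG g ∈ DW D (mkV x) k ↔ ∀ᶠ n in UU, g n ∈ (D n).W (x n) k :=
  mem_US.trans (eventually_congr ((rp_mkV x).mono fun n e => by rw [e]))

theorem mem_DQ {x : ∀ n, V n} {g : ∀ n, G n} :
    mkG g ∈ DQ D (mkV x) ↔ ∀ᶠ n in UU, g n ∈ (D n).Q (x n) :=
  mem_US.trans (eventually_congr ((rp_mkV x).mono fun n e => by rw [e]))

/-- Otherwise `closure (CS (v n) (a n))` is transitive for almost all `n` (`ev_not`). For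
neighbours `mkV x`, `mkV y` use `exists_word` with `Ω` the neighbour set of `v n`, choose the words
`f n` (`ev_choice`); each `mkG fun n => f n i` lies in `N` (`ev_choice`, `ev_or`), and their product
maps `mkV x` to `mkV y`. -/
theorem U_intr {v : ∀ n, V n} {N : Subgroup (UG G)} (h1 : N ≤ St (UG G) (mkV v))
    (h2 : St (UG G) (mkV v) ≤ Nm N) (h3 : ¬ Tr (DΓ D) N (mkV v)) {a : ∀ n, G n}
    (ha : mkG a ∈ N) : ∀ᶠ n in UU, ¬ Tr (D n).Γ (closure (CS (v n) (a n))) (v n) := by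
  rw [ev_not]
  refine fun hT => h3 fun x y hx hy => ?_
  obtain ⟨x, rfl⟩ := mkV_surj x
  obtain ⟨y, rfl⟩ := mkV_surj y
  obtain ⟨f, hf⟩ := ev_choice (T := fun n => Fin d → G n) (fun _ _ => 1)
    (P := fun n f => (∀ i, f i ∈ CS (v n) (a n)) ∧ (List.ofFn f).prod • x n = y n)
    ((hT.and ((mem_St_iff.1 (h1 ha)).and ((UΓ_adj.1 hx).and (UΓ_adj.1 hy)))).mono fun n hn => by
      obtain ⟨g, hg, e⟩ := hn.1 _ _ hn.2.2.1 hn.2.2.2
      have := (D n).finV
      rw [← e]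
      refine exists_word (CS (v n) (a n)) _ (Set.toFinite _) ((D n).deg (v n))
        (fun s hs z hz => ?_) (fun s hs => ?_) ⟨1, one_mem _, Or.inl rfl⟩ hn.2.2.1 hg
      · have h4 := (D n).adj s hz
        rwa [mem_St.1 (LU1_le hn.2.1 (subset_closure hs))] at h4
      · obtain ⟨g, hg, rfl | rfl | rfl⟩ := hs
        · exact ⟨g, hg, Or.inl inv_one⟩
        · exact ⟨g, hg, Or.inr (Or.inr (by group))⟩
        · exact ⟨g, hg, Or.inr (Or.inl (by group))⟩)
  refine ⟨mkG (List.ofFn fun i n => f n i).prod, ?_, ?_⟩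
  · rw [map_list_prod]
    refine list_prod_mem fun s hs => ?_
    rw [List.map_ofFn, List.mem_ofFn] at hs
    obtain ⟨i, rfl⟩ := hs
    change mkG (fun n => f n i) ∈ N
    obtain ⟨g, hg⟩ := ev_choice (T := G) 1 (hf.mono fun n hn => hn.1 i)
    have h4 := mem_normalizer_iff.1 (h2 (mem_St_iff.2 (hg.mono fun n hn => hn.1)))
    rcases ev_or.1 (hg.mono fun n hn => hn.2) with h5 | h5
    · exact (mkG_eq.2 h5 : mkG _ = mkG 1) ▸ map_one (mkG (G := G)) ▸ one_mem N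
    · rcases ev_or.1 h5 with h5 | h5
      · exact (mkG_eq.2 h5 : mkG _ = mkG (g * a * g⁻¹)) ▸ (h4 _).1 ha
      · exact (mkG_eq.2 h5 : mkG _ = mkG (g * a⁻¹ * g⁻¹)) ▸ (h4 _).1 (inv_mem ha)
  · rw [mk_smul, mkV_eq]
    refine hf.mono fun n hn => ?_
    rw [Pi.list_prod_apply, List.map_ofFn]
    exact hn.2

/-- `U_intr` and `sp` for the normal subgroup `closure (CS (v n) (a n))` of `St (G n) (v n)`. -/
theorem U_sp (v : UV V) (N : Subgroup (UG G)) (h1 : N ≤ St (UG G) v) (h2 : St (UG G) v ≤ Nm N) :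
    Tr (DΓ D) N v ∨ ∀ a ∈ N, ∀ x, (DΓ D).Adj v x → a • x = x →
      ∀ y, (DΓ D).Adj v y → a • y = y := by
  refine or_iff_not_imp_left.2 fun h3 a ha x hx e y hy => ?_
  obtain ⟨v, rfl⟩ := mkV_surj v
  obtain ⟨x, rfl⟩ := mkV_surj x
  obtain ⟨y, rfl⟩ := mkV_surj y
  obtain ⟨a, rfl⟩ := mkG_surj a
  rw [mk_smul, mkV_eq] at e ⊢
  filter_upwards [U_intr D h1 h2 h3 ha, mem_St_iff.1 (h1 ha), UΓ_adj.1 hx, UΓ_adj.1 hy, e]
    with n k1 k2 k3 k4 k5
  exact ((D n).sp _ _ (LU1_le k2) (LU1_nm _ _)).resolve_left k1 _ (LU1_mem _ _) _ k3 k5 _ k4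

/-- `U_intr`, `hp`, and `ev_pigeon` for the exponent `k ≤ β`. -/
theorem U_hp (v : UV V) (N : Subgroup (UG G)) (h1 : N ≤ St (UG G) v) (h2 : St (UG G) v ≤ Nm N)
    (h3 : ¬ Tr (DΓ D) N v) : ∀ a ∈ N, ∃ k, Nat.Coprime k p ∧ a ^ k ∈ Kn (UG G) (DΓ D) 1 v := by
  intro a ha
  obtain ⟨v, rfl⟩ := mkV_surj v
  obtain ⟨a, rfl⟩ := mkG_surj a
  obtain ⟨k, -, hk⟩ := ev_pigeon (Set.finite_Iic β)
    (P := fun k n => Nat.Coprime k p ∧ a n ^ k ∈ Kn (G n) (D n).Γ 1 (v n))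
    (((U_intr D h1 h2 h3 ha).and (mem_St_iff.1 (h1 ha))).mono fun n hn =>
      (D n).hp _ _ (LU1_le hn.2) (LU1_nm _ _) hn.1 _ (LU1_mem _ _))
  refine ⟨k, hk.exists.choose_spec.1, ?_⟩
  rw [← map_pow]
  exact mem_Kn_ultra.2 (hk.mono fun n hn => hn.2)

/-- Let `x = mkV x`, `t` from `internal_finite` for the neighbour sets of the `x n`. For
`(y, z) ∈ t × t` choose `g y z` with `mkG (g y z) ∈ N` mapping `mkV y` to `mkV z`. For almost all
`n` the subgroup `C n` of all `g ∈ St (G n) (x n)` with `g v g⁻¹ v⁻¹ ∈ W (x n) k` for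
`v ∈ W (x n) (k + 2)` (a subgroup by `equi`) is intransitive (`layer`, `k ≤ n`), so does not
contain some `g y z n`. Use `ev_pigeon` and `ev_choice`. -/
theorem U_layer (x : UV V) (k : ℕ) (N : Subgroup (UG G)) (h1 : N ≤ St (UG G) x)
    (h2 : Tr (DΓ D) N x) : ∃ g ∈ N, ∃ v ∈ DW D x (k + 2), g * v * g⁻¹ * v⁻¹ ∉ DW D x k := by
  by_contra hc
  push Not at hc
  obtain ⟨x, rfl⟩ := mkV_surj x
  obtain ⟨t, -, ht, ht'⟩ := internal_finite x (fun n => (D n).Γ.neighborSet (x n)) (d := d)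
    (Eventually.of_forall fun n => ⟨have := (D n).finV; Set.toFinite _, (D n).deg _⟩)
  have h3 : ∀ y ∈ t, ∀ z ∈ t, ∀ᶠ n in UU, ∃ g ∈ LU1_sub (D n) (x n) k, g • y n = z n := by
    intro y hy z hz
    obtain ⟨g, hg, e⟩ := h2 (mkV y) (mkV z) (UΓ_adj.2 (ht y hy)) (UΓ_adj.2 (ht z hz))
    obtain ⟨g, rfl⟩ := mkG_surj g
    rw [mk_smul, mkV_eq] at e
    have h4 : ∀ᶠ n in UU, ∀ v ∈ (D n).W (x n) (k + 2),
        g n * v * (g n)⁻¹ * v⁻¹ ∈ (D n).W (x n) k := by
      by_contra h5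
      obtain ⟨v, hv⟩ := ev_choice (T := G) 1 (P := fun n v => v ∈ (D n).W (x n) (k + 2) ∧
        g n * v * (g n)⁻¹ * v⁻¹ ∉ (D n).W (x n) k) ((ev_not.2 h5).mono fun n hn => by
          push Not at hn
          exact hn)
      have h6 := (mem_DW D (g := g * v * g⁻¹ * v⁻¹)).1
        (hc _ hg _ ((mem_DW D).2 (hv.mono fun n hn => hn.1)))
      obtain ⟨n, h7, h8⟩ := (hv.and h6).exists
      exact h7.2 h8
    filter_upwards [mem_St_iff.1 (h1 hg), h4, e] with n k1 k2 k3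
    exact ⟨g n, ⟨k1, k2⟩, k3⟩
  have h4 : ∀ᶠ n in UU, ∀ y ∈ t, ∀ z ∈ t, ∃ g ∈ LU1_sub (D n) (x n) k, g • y n = z n :=
    (eventually_all_finset t).2 fun y hy => (eventually_all_finset t).2 (h3 y hy)
  obtain ⟨n, k1, k2, k3⟩ := (h4.and (ht'.and (ev_ge k))).exists
  obtain ⟨g, hg, v, hv, e⟩ := (D n).layer (x n) k k3 (LU1_sub (D n) (x n) k) (fun g hg => hg.1)
    fun y z hy hz => by
      obtain ⟨y, hy', rfl⟩ := k2 y hy
      obtain ⟨z, hz', rfl⟩ := k2 z hz
      exact k1 y hy' z hz'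
  exact e (hg.2 v hv)

end Pool.Agent.Lib.MP_bf45aa_co
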