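import Pool.Agent.Lib.MP_bf45aa_co.LU1

set_option autoImplicit false
set_option linter.unusedSectionVars false

/-! The ultraproduct of finite data. -/

namespace Pool.Agent.Lib.MP_bf45aa_co

open Subgroup Filter

variable {p c β d : ℕ} {G V : ℕ → Type} [∀ n, Group (G n)] [∀ n, MulAction (G n) (V n)]
  (D : ∀ n, FD p c β d n (G n) (V n))

theorem LU2_reps {H : Type*} [Group H] [Finite H] (Q S : Subgroup H) : ∃ T : Set H, T.Finite ∧
    T.ncard ≤ Q.relIndex S ∧ (∀ a ∈ T, a ∈ S) ∧ ∀ g ∈ S, ∃ a ∈ T, a⁻¹ * g ∈ Q := by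
  refine ⟨Set.range fun q : S ⧸ Q.subgroupOf S => (q.out : H), Set.toFinite _,
    (Nat.card_coe_set_eq _).symm.trans_le (Finite.card_range_le _), ?_, fun g hg => ?_⟩
  · rintro _ ⟨q, rfl⟩
    exact q.out.2
  · exact ⟨_, ⟨QuotientGroup.mk ⟨g, hg⟩, rfl⟩,
      mem_subgroupOf.1 (QuotientGroup.eq.1 (QuotientGroup.out_eq' _))⟩

theorem LU2_conj (g v : ∀ n, G n) :
    mkG g * mkG v * (mkG g)⁻¹ = mkG fun n => g n * v n * (g n)⁻¹ := by
  rw [← map_inv, ← map_mul, ← map_mul]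
  rfl

/-- `DW D x k` is contained in the image of the set `t` from `internal_finite` (`ev_pigeon`). -/
theorem U_card (x : UV V) (k : ℕ) :
    Finite (DW D x k) ∧ Nat.card (DW D x k) ≤ p ^ (c * (k + 1)) := by
  obtain ⟨x, rfl⟩ := mkV_surj x
  obtain ⟨t, h1, -, h2⟩ := internal_finite (T := G) (fun _ => 1)
    (fun n => ((D n).W (x n) k : Set (G n))) (d := p ^ (c * (k + 1))) ((ev_ge k).mono fun n hn => by
      have := (D n).finG
      exact ⟨Set.toFinite _, (Nat.card_coe_set_eq _).symm.trans_le ((D n).card _ k hn)⟩)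
  have hsub : (DW D (mkV x) k : Set (UG G)) ⊆ mkG '' (t : Set (∀ n, G n)) := fun g hg => by
    obtain ⟨a, rfl⟩ := mkG_surj g
    obtain ⟨b, hb, e⟩ := ev_pigeon t.finite_toSet (P := fun b n => b n = a n)
      ((h2.and ((mem_DW D).1 hg)).mono fun n e => e.1 _ e.2)
    exact ⟨b, hb, mkG_eq.2 e⟩
  have hfin := t.finite_toSet.image (mkG (G := G))
  refine ⟨(hfin.subset hsub).to_subtype, (Nat.card_coe_set_eq _).trans_le ?_⟩
  exact (Set.ncard_le_ncard hsub hfin).trans ((Set.ncard_image_le t.finite_toSet).trans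
    ((Set.ncard_coe_finset t).trans_le h1))

/-- For each `n` choose a set `S n ⊆ St (G n) (x n)` of at most `β` coset representatives, and use
`internal_finite`, `ev_pigeon`. -/
theorem U_idx (x : UV V) : ∃ t : Finset (UG G), t.card ≤ β ∧ (∀ a ∈ t, a ∈ St (UG G) x) ∧
    ∀ g ∈ St (UG G) x, ∃ a ∈ t, a⁻¹ * g ∈ DQ D x := by
  classical
  obtain ⟨x, rfl⟩ := mkV_surj x
  choose S hS h1 h2 h3 using fun n => @LU2_reps _ _ (D n).finG ((D n).Q (x n)) (St (G n) (x n))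
  obtain ⟨t, k1, k2, k3⟩ := internal_finite (T := G) (fun _ => 1) S (d := β)
    (Eventually.of_forall fun n => ⟨hS n, (h1 n).trans ((D n).Q_idx _)⟩)
  refine ⟨t.image mkG, Finset.card_image_le.trans k1, fun a ha => ?_, fun g hg => ?_⟩
  · obtain ⟨a, ha', rfl⟩ := Finset.mem_image.1 ha
    exact mem_St_iff.2 ((k2 a ha').mono fun n => h2 n _)
  · obtain ⟨g, rfl⟩ := mkG_surj g
    obtain ⟨a, ha, e⟩ := ev_pigeon t.finite_toSet (P := fun a n => (a n)⁻¹ * g n ∈ (D n).Q (x n))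
      ((k3.and (mem_St_iff.1 hg)).mono fun n e => by
        obtain ⟨y, hy, h⟩ := h3 n _ e.2
        obtain ⟨a, ha, rfl⟩ := e.1 y hy
        exact ⟨a, ha, h⟩)
    refine ⟨mkG a, Finset.mem_image_of_mem _ ha, ?_⟩
    rw [← map_inv, ← map_mul]
    exact (mem_DQ D).2 e

/-- Choose `w n`, `B n`, `v n`, `f n` for `n ≥ s` (`ev_ge`, `ev_choice`), `B = US B`. -/
theorem U_fam (s : ℕ) : ∃ w, Near (DΓ D) (2 * s + 1) (mkV fun n => (D n).o) w ∧
    ∃ B : Subgroup (UG G), B ≤ DQ D w ∧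
    (∀ k, ∀ a ∈ B, ∀ a' ∈ B, ∀ v ∈ DW D (mkV fun n => (D n).o) k,
      Commute a (a' * v * a'⁻¹ * v⁻¹)) ∧
    ∃ v ∈ DW D (mkV fun n => (D n).o) 0, ∃ f : Fin (2 ^ s) → UG G, (∀ i, f i ∈ B) ∧
      Function.Injective fun i => f i * v * (f i)⁻¹ := by
  obtain ⟨z, hz⟩ := ev_choice
    (T := fun n => V n × Subgroup (G n) × G n × (Fin (2 ^ s) → G n))
    (fun n => ((D n).o, ⊥, 1, 1))
    (P := fun n z => Near (D n).Γ (2 * s + 1) (D n).o z.1 ∧ z.2.1 ≤ (D n).Q z.1 ∧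
      (∀ k ≤ n, ∀ a ∈ z.2.1, ∀ a' ∈ z.2.1, ∀ v ∈ (D n).W (D n).o k,
        Commute a (a' * v * a'⁻¹ * v⁻¹)) ∧ z.2.2.1 ∈ (D n).W (D n).o 0 ∧
      (∀ i, z.2.2.2 i ∈ z.2.1) ∧
        Function.Injective fun i => z.2.2.2 i * z.2.2.1 * (z.2.2.2 i)⁻¹)
    ((ev_ge s).mono fun n hn =>
      let ⟨w, h1, B, h2, h3, v, h4, f, h5, h6⟩ := (D n).fam s hn
      ⟨(w, B, v, f), h1, h2, h3, h4, h5, h6⟩)
  refine ⟨mkV fun n => (z n).1, near_iff.2 (hz.mono fun _ e => e.1), US fun n => (z n).2.1,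
    fun g hg => ?_, fun k a ha a' ha' v hv => ?_, mkG fun n => (z n).2.2.1,
    (mem_DW D).2 (hz.mono fun _ e => e.2.2.2.1), fun i => mkG fun n => (z n).2.2.2 i,
    fun i => mem_US.2 (hz.mono fun _ e => e.2.2.2.2.1 i), fun i j hij => ?_⟩
  · obtain ⟨g, rfl⟩ := mkG_surj g
    exact (mem_DQ D).2 ((hz.and (mem_US.1 hg)).mono fun _ e => e.1.2.1 e.2)
  · obtain ⟨a, rfl⟩ := mkG_surj a
    obtain ⟨a', rfl⟩ := mkG_surj a'
    obtain ⟨v, rfl⟩ := mkG_surj v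
    rw [← map_inv, ← map_inv, ← map_mul, ← map_mul, ← map_mul, commute_iff_eq, ← map_mul,
      ← map_mul, mkG_eq]
    filter_upwards [hz, ev_ge k, mem_US.1 ha, mem_US.1 ha', (mem_DW D).1 hv] with n e e1 e2 e3 e4
    exact (e.2.2.1 k e1 _ e2 _ e3 _ e4).eq
  · beta_reduce at hij
    rw [LU2_conj, LU2_conj, mkG_eq] at hij
    obtain ⟨n, e1, e2⟩ := (hz.and hij).exists
    exact e1.2.2.2.2.2 e2

/-- The diagonal argument. Let `g r = mkG (a r)`, `x = mkV x`. Let `A r n` say: for all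
`r₁ ≤ r₂ ≤ r`, `a r₂ n ∈ St (G n) (x n)` and `a r₂ n`, `a r₁ n` act in the same way on
`W (x n) r₁`. Each `A r` holds for almost all `n` (by contradiction, `ev_not`, `ev_choice`). Let
`ϱ n = Nat.findGreatest (A · n) n`, `h n = a (ϱ n) n`. If `A r n` and `r ≤ n` then `r ≤ ϱ n` and
`A (ϱ n) n`. -/
theorem U_clo (x : UV V) (g : ℕ → UG G) (h1 : ∀ r, g r ∈ St (UG G) x)
    (h2 : ∀ r r', r ≤ r' → ∀ v ∈ DW D x r, g r' * v * (g r')⁻¹ = g r * v * (g r)⁻¹) :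
    ∃ h ∈ St (UG G) x, ∀ r, ∀ v ∈ DW D x r, h * v * h⁻¹ = g r * v * (g r)⁻¹ := by
  classical
  obtain ⟨x, rfl⟩ := mkV_surj x
  choose a ha using fun r => mkG_surj (g r)
  let P : ℕ → ℕ → ℕ → Prop := fun r₁ r₂ n => a r₂ n ∈ St (G n) (x n) ∧
    ∀ v ∈ (D n).W (x n) r₁, a r₂ n * v * (a r₂ n)⁻¹ = a r₁ n * v * (a r₁ n)⁻¹
  have hP : ∀ r₁ r₂, r₁ ≤ r₂ → ∀ᶠ n in UU, P r₁ r₂ n := fun r₁ r₂ h => by
    refine (mem_St_iff.1 (ha r₂ ▸ h1 r₂)).and ?_
    by_contra hc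
    obtain ⟨v, hv⟩ := ev_choice (T := G) (fun _ => 1)
      (P := fun n v => v ∈ (D n).W (x n) r₁ ∧
        ¬ a r₂ n * v * (a r₂ n)⁻¹ = a r₁ n * v * (a r₁ n)⁻¹)
      ((ev_not.2 hc).mono fun n hn => by
        push Not at hn
        exact hn)
    have h3 := h2 r₁ r₂ h (mkG v) ((mem_DW D).2 (hv.mono fun _ e => e.1))
    rw [← ha, ← ha, LU2_conj, LU2_conj, mkG_eq] at h3
    obtain ⟨n, e1, e2⟩ := (hv.and h3).exists
    exact e1.2 e2
  let A : ℕ → ℕ → Prop := fun n r => ∀ r₂ ∈ Set.Iic r, ∀ r₁ ∈ Set.Iic r₂, P r₁ r₂ n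
  have hA : ∀ r, ∀ᶠ n in UU, P r (Nat.findGreatest (A n) n) n := fun r => by
    have h3 : ∀ᶠ n in UU, A n r := (eventually_all_finite (Set.finite_Iic r)).2 fun r₂ _ =>
      (eventually_all_finite (Set.finite_Iic r₂)).2 fun r₁ h => hP r₁ r₂ h
    filter_upwards [h3, ev_ge r] with n e1 e2
    exact Nat.findGreatest_spec (P := A n) e2 e1 _ (Set.mem_Iic.2 le_rfl) r
      (Set.mem_Iic.2 (Nat.le_findGreatest e2 e1))
  refine ⟨mkG fun n => a (Nat.findGreatest (A n) n) n,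
    mem_St_iff.2 ((hA 0).mono fun _ e => e.1), fun r v hv => ?_⟩
  obtain ⟨v, rfl⟩ := mkG_surj v
  rw [← ha, LU2_conj, LU2_conj, mkG_eq]
  exact ((hA r).and ((mem_DW D).1 hv)).mono fun n e => e.1.2 _ e.2

include D in
/-- `Γ = DΓ D`, `W = DW D`, `Q = DQ D`, `o = mkV fun n => (D n).o`. For the remaining fields write
all elements as `mkG _`, `mkV _` and use `UΓ_adj`, `mem_DW`, `mem_DQ`, `mem_St_iff`,
`mem_Kn_ultra`, `mkG_eq`, `mk_smul`, `ev_ge`. -/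
theorem exists_ID : Nonempty (ID p c β (UG G) (UV V)) := by
  refine ⟨{
    Γ := DΓ D
    W := DW D
    Q := DQ D
    o := mkV fun n => (D n).o
    adj := fun g x y h => ?_
    nbr := fun x => ?_
    sp := U_sp D
    hp := U_hp D
    W_le := fun x k g hg => ?_
    mono := fun x k => US_mono (Eventually.of_forall fun n => (D n).mono _ k)
    shift := fun h k => US_mono (Eventually.mono h fun n e => (D n).shift e k)
    equi := fun g x k v hv => ?_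
    comm := fun x k u hu v hv => ?_
    pow := fun x k u hu => ?_
    fin := fun x k => (U_card D x k).1
    card := fun x k => (U_card D x k).2
    cent := fun x k g hg v hv => ?_
    layer := U_layer D
    Q_le := fun x g hg => ?_
    Q_conj := fun g x q hq => ?_
    Q_adj := fun {x y} h q hq hq' => ?_
    Q_idx := U_idx D
    Q_unip := fun x k q hq => ⟨c * (k + 1), fun v hv => ?_⟩
    fam := U_fam D
    clo := U_clo D }⟩
  · obtain ⟨g, rfl⟩ := mkG_surj g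
    obtain ⟨x, rfl⟩ := mkV_surj x
    obtain ⟨y, rfl⟩ := mkV_surj y
    rw [mk_smul, mk_smul]
    exact UΓ_adj.2 ((UΓ_adj.1 h).mono fun n e => (D n).adj _ e)
  · obtain ⟨x, rfl⟩ := mkV_surj x
    choose y hy using fun n => (D n).nbr (x n)
    exact ⟨mkV y, UΓ_adj.2 (Eventually.of_forall hy)⟩
  · obtain ⟨g, rfl⟩ := mkG_surj g
    obtain ⟨x, rfl⟩ := mkV_surj x
    exact mem_St_iff.2 (((ev_ge k).and ((mem_DW D).1 hg)).mono fun n e => (D n).W_le _ k e.1 e.2)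
  · obtain ⟨g, rfl⟩ := mkG_surj g
    obtain ⟨v, rfl⟩ := mkG_surj v
    obtain ⟨x, rfl⟩ := mkV_surj x
    rw [LU2_conj, mk_smul]
    exact (mem_DW D).2 (((mem_DW D).1 hv).mono fun n e => (D n).equi _ _ k _ e)
  · obtain ⟨u, rfl⟩ := mkG_surj u
    obtain ⟨v, rfl⟩ := mkG_surj v
    obtain ⟨x, rfl⟩ := mkV_surj x
    rw [← map_mul, ← map_mul, mkG_eq]
    filter_upwards [ev_ge k, (mem_DW D).1 hu, (mem_DW D).1 hv] with n e1 e2 e3
    exact (D n).comm _ k e1 _ e2 _ e3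
  · obtain ⟨u, rfl⟩ := mkG_surj u
    obtain ⟨x, rfl⟩ := mkV_surj x
    rw [← map_pow, ← map_one (mkG (G := G)), mkG_eq]
    filter_upwards [ev_ge k, (mem_DW D).1 hu] with n e1 e2
    exact (D n).pow _ k e1 _ e2
  · obtain ⟨g, rfl⟩ := mkG_surj g
    obtain ⟨v, rfl⟩ := mkG_surj v
    obtain ⟨x, rfl⟩ := mkV_surj x
    rw [LU2_conj, mkG_eq]
    exact ((mem_Kn_ultra.1 hg).and ((mem_DW D).1 hv)).mono fun n e => (D n).cent _ k _ e.1 _ e.2
  · obtain ⟨g, rfl⟩ := mkG_surj g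
    obtain ⟨x, rfl⟩ := mkV_surj x
    exact mem_Kn_ultra.2 (((mem_DQ D).1 hg).mono fun n e => (D n).Q_le _ e)
  · obtain ⟨g, rfl⟩ := mkG_surj g
    obtain ⟨q, rfl⟩ := mkG_surj q
    obtain ⟨x, rfl⟩ := mkV_surj x
    rw [LU2_conj, mk_smul]
    exact (mem_DQ D).2 (((mem_DQ D).1 hq).mono fun n e => (D n).Q_conj _ _ _ e)
  · obtain ⟨q, rfl⟩ := mkG_surj q
    obtain ⟨x, rfl⟩ := mkV_surj x
    obtain ⟨y, rfl⟩ := mkV_surj y
    refine (mem_DQ D).2 ?_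
    filter_upwards [UΓ_adj.1 h, (mem_DQ D).1 hq, mem_Kn_ultra.1 hq'] with n e1 e2 e3
    exact (D n).Q_adj e1 _ e2 e3
  · obtain ⟨q, rfl⟩ := mkG_surj q
    obtain ⟨v, rfl⟩ := mkG_surj v
    obtain ⟨x, rfl⟩ := mkV_surj x
    rw [← map_pow, LU2_conj, mkG_eq]
    filter_upwards [ev_ge k, (mem_DQ D).1 hq, (mem_DW D).1 hv] with n e1 e2 e3
    exact (D n).Q_unip _ k e1 _ e2 _ e3

end Pool.Agent.Lib.MP_bf45aa_co
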