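import Pool.Agent.Lib.MP_bf45aa_co.Coprime

set_option autoImplicit false
set_option linter.unusedSectionVars false

/-! Modules in characteristic `p`: fixed points and the basic inequality. -/

namespace Pool.Agent.Lib.MP_bf45aa_co

open Subgroup
open scoped commutatorElement Pointwise

/-- Fixed points of a subgroup. -/
def Fx (p : ℕ) {X : Type*} (W : Type*) [Group X] [AddCommGroup W] [Module (ZMod p) W]
    [DistribMulAction X W] [SMulCommClass X (ZMod p) W] (A : Subgroup X) :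
    Submodule (ZMod p) W where
  carrier := {w | ∀ a ∈ A, a • w = w}
  add_mem' := fun {u v} hu hv a ha => by rw [smul_add, hu a ha, hv a ha]
  zero_mem' := fun a _ => smul_zero a
  smul_mem' := fun t v hv a ha => by rw [smul_comm, hv a ha]

/-- The linear situation. -/
structure LC (p : ℕ) {X : Type*} (W : Type*) [Group X] [AddCommGroup W] [Module (ZMod p) W]
    [DistribMulAction X W] (D F : Subgroup X) : Prop where
  faith : ∀ x : X, (∀ w : W, x • w = w) → x = 1
  irr : ∀ M : Submodule (ZMod p) W, (∀ x : X, ∀ w ∈ M, x • w ∈ M) → M = ⊥ ∨ M = ⊤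
  Dn : D.Normal
  Fn : F.Normal
  Fp : ¬ p ∣ Nat.card F
  hh : Cn F ⊓ D ≤ F

variable {p : ℕ} [hp : Fact p.Prime] {X W : Type*} [Group X] [Finite X] [AddCommGroup W]
  [Module (ZMod p) W] [Finite W] [DistribMulAction X W] [SMulCommClass X (ZMod p) W]

theorem mem_Fx {A : Subgroup X} {w : W} : w ∈ Fx p W A ↔ ∀ a ∈ A, a • w = w := Iff.rfl

theorem Fx_anti {A B : Subgroup X} (h : A ≤ B) : Fx p W B ≤ Fx p W A :=
  fun _ hw a ha => hw a (h ha)

theorem pow_smul_of_fix {u : X} {w : W} (h : u • (u • w - w) = u • w - w) (k : ℕ) :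
    u ^ k • w = w + (k : ZMod p) • (u • w - w) := by
  induction k with
  | zero => simp
  | succ k ih =>
    rw [pow_succ', mul_smul, ih, smul_add, smul_comm, h, Nat.cast_succ, add_smul, one_smul]
    abel

theorem stab_fix {F : Subgroup X} (hF : ¬ p ∣ Nat.card F) {u : X} (hu : u ∈ F) {w : W}
    (h : u • (u • w - w) = u • w - w) : u • w = w := by
  have h1 := pow_smul_of_fix (p := p) h (Nat.card F)
  have h2 : u ^ Nat.card F = 1 := congrArg Subtype.val (pow_card_eq_one' (x := (⟨u, hu⟩ : F)))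
  rw [h2, one_smul, left_eq_add, smul_eq_zero] at h1
  rcases h1 with h1 | h1
  · exact absurd ((ZMod.natCast_eq_zero_iff _ _).1 h1) hF
  · exact sub_eq_zero.1 h1

theorem card_submodule (M : Submodule (ZMod p) W) :
    Nat.card M = p ^ Module.finrank (ZMod p) M := by
  rw [Module.natCard_eq_pow_finrank (K := ZMod p), Nat.card_zmod]

theorem card_lt_submodule {M N : Submodule (ZMod p) W} (h : M < N) :
    p * Nat.card M ≤ Nat.card N := by
  rw [card_submodule, card_submodule, ← pow_succ']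
  exact Nat.pow_le_pow_right hp.out.pos (Submodule.finrank_lt_finrank_of_lt h)

theorem exists_fixed_vec {S : Subgroup X} (hS : IsPGroup p S) {M : Submodule (ZMod p) W}
    (hM : ∀ s ∈ S, ∀ v ∈ M, s • v ∈ M) (h0 : M ≠ ⊥) : ∃ v ∈ M, v ≠ 0 ∧ ∀ s ∈ S, s • v = v := by
  let _ : MulAction S M :=
    { smul := fun s v => ⟨(s : X) • (v : W), hM s s.2 v v.2⟩
      one_smul := fun v => Subtype.ext (one_smul X (v : W))
      mul_smul := fun s t v => Subtype.ext (mul_smul (s : X) (t : X) (v : W)) }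
  have hd : p ∣ Nat.card M := by
    rw [card_submodule]
    exact dvd_pow_self p fun e => h0 (Submodule.finrank_eq_zero.1 e)
  obtain ⟨b, hb, hb1⟩ := hS.exists_fixed_point_of_prime_dvd_card_of_fixed_point M hd (a := 0)
    (fun s => Subtype.ext (smul_zero (s : X)))
  exact ⟨b, b.2, fun e => hb1 (Subtype.ext e.symm),
    fun s hs => congrArg Subtype.val (hb ⟨s, hs⟩)⟩

/-- The commutator space of an element. -/
def Cm (p : ℕ) {X : Type*} (W : Type*) [Group X] [AddCommGroup W] [Module (ZMod p) W]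
    [DistribMulAction X W] [SMulCommClass X (ZMod p) W] (k : X) : Submodule (ZMod p) W where
  carrier := {v | ∃ w, v = k • w - w}
  add_mem' := by
    rintro _ _ ⟨u, rfl⟩ ⟨v, rfl⟩
    exact ⟨u + v, by rw [smul_add]; abel⟩
  zero_mem' := ⟨0, by simp⟩
  smul_mem' := by
    rintro t _ ⟨v, rfl⟩
    exact ⟨t • v, by rw [smul_comm, smul_sub]⟩

theorem core_eq_bot (faith : ∀ x : X, (∀ w : W, x • w = w) → x = 1)
    (irr : ∀ M : Submodule (ZMod p) W, (∀ x : X, ∀ w ∈ M, x • w ∈ M) → M = ⊥ ∨ M = ⊤)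
    {D : Subgroup X} (hD : D.Normal) : core (· = p) D = ⊥ := by
  have hn : ∀ g : X, g ∈ Nm (core (· = p) D) := fun g =>
    Nm_core (by rw [Nm, normalizer_eq_top]; exact mem_top g)
  have hfix : Fx p W (core (· = p) D) = ⊤ := by
    rcases irr (Fx p W (core (· = p) D)) (fun x w hw a ha => by
      have := hw _ (conj_mem_of_Nm' (hn x) ha)
      rwa [mul_smul, mul_smul, inv_smul_eq_iff] at this) with h | h
    · by_cases h0 : (⊤ : Submodule (ZMod p) W) = ⊥
      · rw [h, h0]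
      · obtain ⟨v, -, h1, h2⟩ := exists_fixed_vec (isPi_iff_isPGroup.1 (isPi_core (· = p) D))
          (M := (⊤ : Submodule (ZMod p) W)) (fun _ _ _ _ => Submodule.mem_top) h0
        have h3 : v ∈ Fx p W (core (· = p) D) := h2
        rw [h] at h3
        exact absurd h3 h1
    · exact h
  rw [eq_bot_iff]
  intro a ha
  exact faith a fun w => (hfix ▸ Submodule.mem_top : w ∈ Fx p W (core (· = p) D)) a ha

variable {D F : Subgroup X}

theorem LC.axb (L : LC p W D F) {B : Subgroup X} (hB : IsPGroup p B) {x a : X} (hx : x ∈ F)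
    (hxB : x ∈ Cn B) (haB : a ∈ Cn B) (ha : ∀ w ∈ Fx p W B, a • w = w) : x * a = a * x := by
  have hk : ⁅x, a⁆ ∈ F := by
    have := mul_mem hx (L.Fn.conj_mem _ (inv_mem hx) a)
    simpa [commutatorElement_def, mul_assoc] using this
  have hkB : ⁅x, a⁆ ∈ Cn B :=
    (Cn B).mul_mem ((Cn B).mul_mem ((Cn B).mul_mem hxB haB) (inv_mem hxB)) (inv_mem haB)
  have hfix : ∀ w ∈ Fx p W B, ⁅x, a⁆ • w = w := by
    intro w hw
    have h1 : a⁻¹ • w = w := by rw [inv_smul_eq_iff, ha w hw]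
    have h2 : x⁻¹ • w ∈ Fx p W B := fun b hb => by
      rw [← mul_smul, mem_Cn.1 (inv_mem hxB) b hb, mul_smul, hw b hb]
    rw [commutatorElement_def, mul_smul, h1, mul_smul, mul_smul, ha _ h2, smul_inv_smul]
  rw [← commutatorElement_eq_one_iff_mul_comm]
  refine L.faith _ fun w => ?_
  by_cases h0 : Cm p W ⁅x, a⁆ = ⊥
  · have : ⁅x, a⁆ • w - w ∈ Cm p W ⁅x, a⁆ := ⟨w, rfl⟩
    rw [h0] at this
    exact sub_eq_zero.1 this
  · obtain ⟨_, ⟨u, rfl⟩, h1, h2⟩ := exists_fixed_vec hB (M := Cm p W ⁅x, a⁆) (by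
      rintro b hb _ ⟨u, rfl⟩
      exact ⟨b • u, by rw [smul_sub, ← mul_smul, mem_Cn.1 hkB b hb, mul_smul]⟩) h0
    exact absurd (sub_eq_zero.2 (stab_fix L.Fp hk (hfix _ h2))) h1

theorem LC.hyper (L : LC p W D F) {A : Subgroup X} (hA : EA p A) (hD : A ≤ D) (h0 : A ≠ ⊥) :
    ∃ B ≤ A, ∃ b ∈ A, b ∉ B ∧ (∀ c ∈ A, ∃ k : ℕ, c * b ^ k ∈ B) ∧ Fx p W A < Fx p W B ∧
      Nat.card A ≤ p * Nat.card B := by
  have hc : ¬ A ≤ Cn F := fun h => h0 (eq_bot_iff.2 fun a ha =>
    mem_bot.2 (eq_one_of_pow_prime' L.Fp (L.hh ⟨h ha, hD ha⟩) (hA.1 a ha)))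
  have := L.Fn
  obtain ⟨x, hx, b, hb, h1, h2⟩ := coprime_hyper hA L.Fp (by
    rw [Nm, normalizer_eq_top]; exact le_top) hc
  have h3 : ∀ c ∈ A, ∃ k : ℕ, c * b ^ k ∈ A ⊓ Cn (zpowers x) := fun c hc =>
    let ⟨k, hk⟩ := h2 c hc; ⟨k, A.mul_mem hc (pow_mem hb k), hk⟩
  refine ⟨A ⊓ Cn (zpowers x), inf_le_left, b, hb, fun h => h1 h.2, h3, ?_, ?_⟩
  · refine lt_of_le_of_ne (Fx_anti inf_le_left) fun e => h1 ?_
    have h4 := L.axb (hA.isPGroup.to_inf_left (K := Cn (zpowers x))) hx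
      (zpowers_le.1 (le_Cn_comm.1 inf_le_right)) (Cn_anti inf_le_left (hA.2 hb))
      (fun w hw => (e ▸ hw : w ∈ Fx p W A) b hb)
    exact le_Cn_comm.1 (zpowers_le.2 (le_Cn_comm.1 (zpowers_le.2 (mem_Cn.2 fun y hy => by
      obtain ⟨k, rfl⟩ := hy
      exact (Commute.zpow_left h4 k))) (mem_zpowers x))) (mem_zpowers b)
  · have h4 : A ≤ zpowers b ⊔ A ⊓ Cn (zpowers x) := fun c hc => by
      obtain ⟨k, hk⟩ := h3 c hc
      simpa using mul_mem (mem_sup_right hk) (inv_mem (mem_sup_left (pow_mem (mem_zpowers b) k)))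
    have h5 := card_sup_mul_card_inf (H := zpowers b) (N := A ⊓ Cn (zpowers x))
      (zpowers_le.2 (Cn_le_Nm _ (Cn_anti inf_le_left (hA.2 hb))))
    refine (card_le_of_le h4).trans ((Nat.le_mul_of_pos_right _ Nat.card_pos).trans
      (h5.le.trans (Nat.mul_le_mul_right _ ?_)))
    rw [Nat.card_zpowers]
    exact orderOf_le_of_pow_eq_one hp.out.pos (hA.1 b hb)

theorem card_lt_of_lt' {A B : Subgroup X} (h : B < A) : Nat.card B < Nat.card A :=
  lt_of_le_of_ne (card_le_of_le h.le) fun e => h.ne (eq_of_le_of_card_ge h.le e.ge)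

theorem LC.l1a (L : LC p W D F) (A : Subgroup X) (hA : EA p A) (hD : A ≤ D) :
    Nat.card A * Nat.card (Fx p W A) ≤ Nat.card W := by
  induction h : Nat.card A using Nat.strong_induction_on generalizing A with
  | _ n ih =>
    subst h
    by_cases h0 : A = ⊥
    · rw [h0, card_bot, one_mul]
      exact Nat.card_le_card_of_injective _ Subtype.val_injective
    · obtain ⟨B, h1, b, hb, h2, -, h4, h5⟩ := L.hyper hA hD h0
      have h6 := ih _ (card_lt_of_lt' (lt_of_le_of_ne h1 fun e => h2 (e ▸ hb))) B (hA.mono h1)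
        (h1.trans hD) rfl
      calc _ ≤ p * Nat.card B * Nat.card (Fx p W A) := Nat.mul_le_mul_right _ h5
        _ = Nat.card B * (p * Nat.card (Fx p W A)) := by ring
        _ ≤ Nat.card B * Nat.card (Fx p W B) := Nat.mul_le_mul_left _ (card_lt_submodule h4)
        _ ≤ _ := h6

end Pool.Agent.Lib.MP_bf45aa_co
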