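import Pool.Agent.Lib.MP_bf45aa_co.Linear1

set_option autoImplicit false
set_option linter.unusedSectionVars false

/-! Transvections and their planes. -/

namespace Pool.Agent.Lib.MP_bf45aa_co

open Subgroup
open scoped commutatorElement Pointwise

/-- Data of a transvection. -/
def TvD {p : ℕ} {X W : Type*} [Group X] [AddCommGroup W] [Module (ZMod p) W]
    [DistribMulAction X W] (a : X) (f : W →ₗ[ZMod p] ZMod p) (z : W) : Prop :=
  f z = 0 ∧ ∀ w, a • w = w + f w • z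

/-- Transvections in `D`. -/
def Tv (p : ℕ) {X : Type*} (W : Type*) [Group X] [AddCommGroup W] [Module (ZMod p) W]
    [DistribMulAction X W] (D : Subgroup X) (a : X) : Prop :=
  a ∈ D ∧ a ≠ 1 ∧ ∃ (f : W →ₗ[ZMod p] ZMod p) (z : W), TvD a f z

/-- The plane of a transvection. -/
def Pl (p : ℕ) {X : Type*} (W : Type*) [Group X] [AddCommGroup W] [Module (ZMod p) W]
    [DistribMulAction X W] (F : Subgroup X) (a : X) : Submodule (ZMod p) W :=
  Submodule.span (ZMod p) {v | ∃ x ∈ F, ∃ w : W, v = x • (a • w - w)}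

variable {p : ℕ} [hp : Fact p.Prime] {X W : Type*} [Group X] [Finite X] [AddCommGroup W]
  [Module (ZMod p) W] [Finite W] [DistribMulAction X W] [SMulCommClass X (ZMod p) W]
  {D F : Subgroup X}

theorem TvD.fix {a : X} {f : W →ₗ[ZMod p] ZMod p} {z : W} (h : TvD a f z) : a • z = z := by
  rw [h.2, h.1, zero_smul, add_zero]

theorem TvD.sub {a : X} {f : W →ₗ[ZMod p] ZMod p} {z : W} (h : TvD a f z) (w : W) :
    a • w - w = f w • z := by rw [h.2, add_sub_cancel_left]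

theorem TvD.pow {a : X} {f : W →ₗ[ZMod p] ZMod p} {z : W} (h : TvD a f z) (k : ℕ) (w : W) :
    a ^ k • w = w + ((k : ZMod p) * f w) • z := by
  rw [pow_smul_of_fix (p := p) (by rw [h.sub, smul_comm, h.fix]), h.sub, mul_smul]

theorem TvD.inv {a : X} {f : W →ₗ[ZMod p] ZMod p} {z : W} (h : TvD a f z) (w : W) :
    a⁻¹ • w = w - f w • z := by
  rw [inv_smul_eq_iff, smul_sub, smul_comm, h.fix, h.2, add_sub_cancel_right]

theorem TvD.conj {a : X} {f : W →ₗ[ZMod p] ZMod p} {z : W} (h : TvD a f z) (g : X) :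
    TvD (g * a * g⁻¹) (f.comp (DistribSMul.toLinearMap (ZMod p) W g⁻¹)) (g • z) := by
  refine ⟨by simp [h.1], fun w => ?_⟩
  rw [mul_smul, mul_smul, h.2, smul_add, smul_inv_smul, smul_comm]
  rfl

theorem TvD.same {a : X} {f f' : W →ₗ[ZMod p] ZMod p} {z z' : W} (h : TvD a f z) (h' : TvD a f' z')
    {w : W} (hw : f w ≠ 0) : ∃ s : ZMod p, z = s • z' := by
  refine ⟨(f w)⁻¹ * f' w, ?_⟩
  rw [mul_smul, ← h'.sub, h.sub, inv_smul_smul₀ hw]

theorem LC.tvd_ne (L : LC p W D F) {a : X} {f : W →ₗ[ZMod p] ZMod p} {z : W} (h : TvD a f z)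
    (h1 : a ≠ 1) : z ≠ 0 ∧ ∃ w, f w ≠ 0 := by
  by_contra hc
  refine h1 (L.faith a fun w => ?_)
  rw [h.2]
  by_cases hz : z = 0
  · rw [hz, smul_zero, add_zero]
  · have : f w = 0 := by
      by_contra h2
      exact hc ⟨hz, w, h2⟩
    rw [this, zero_smul, add_zero]

theorem LC.tv_pow (L : LC p W D F) {a : X} (h : Tv p W D a) : a ^ p = 1 := by
  obtain ⟨-, -, f, z, h⟩ := h
  exact L.faith _ fun w => by rw [h.pow]; simp

theorem LC.tv_conj (L : LC p W D F) {a : X} (h : Tv p W D a) (g : X) : Tv p W D (g * a * g⁻¹) := by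
  obtain ⟨h1, h2, f, z, h⟩ := h
  exact ⟨L.Dn.conj_mem a h1 g, fun e => h2 (conj_eq_one_iff.1 e), _, _, h.conj g⟩

theorem LC.mutual (L : LC p W D F) {a₁ a₂ : X} {f₁ f₂ : W →ₗ[ZMod p] ZMod p} {z₁ z₂ : W}
    (h₁ : TvD a₁ f₁ z₁) (h₂ : TvD a₂ f₂ z₂) (hF : a₁ * a₂⁻¹ ∈ F) (h : f₁ z₂ = 0) : a₁ = a₂ := by
  have e2 : a₁ • z₂ = z₂ := by rw [h₁.2, h, zero_smul, add_zero]
  have e : ∀ w, (a₁ * a₂⁻¹) • w - w = f₁ w • z₁ - f₂ w • z₂ := by
    intro w
    rw [mul_smul, h₂.inv, smul_sub, smul_comm, e2, h₁.2]; abel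
  have k2 : (a₁ * a₂⁻¹) • z₂ = z₂ := by
    rw [← sub_eq_zero, e, h, h₂.1]; simp
  have k1 : (a₁ * a₂⁻¹) • z₁ = z₁ := by
    refine stab_fix L.Fp hF ?_
    rw [e, h₁.1, zero_smul, smul_sub, smul_zero, smul_comm, k2]
  rw [← mul_inv_eq_one]
  refine L.faith _ fun w => stab_fix L.Fp hF ?_
  rw [e, smul_sub, smul_comm, smul_comm _ (f₂ w), k1, k2]

theorem sub_mem_Pl (a : X) (w : W) : a • w - w ∈ Pl p W F a :=
  Submodule.subset_span ⟨1, one_mem _, w, (one_smul _ _).symm⟩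

theorem LC.smul_mem_Pl (L : LC p W D F) {a : X} {v : W} (hv : v ∈ Pl p W F a) (g : X) :
    g • v ∈ Pl p W F (g * a * g⁻¹) := by
  induction hv using Submodule.span_induction with
  | mem v hv =>
    obtain ⟨x, hx, w, rfl⟩ := hv
    refine Submodule.subset_span ⟨g * x * g⁻¹, L.Fn.conj_mem x hx g, g • w, ?_⟩
    simp [mul_smul, smul_sub]
  | zero => rw [smul_zero]; exact zero_mem _
  | add u v _ _ hu hv => rw [smul_add]; exact add_mem hu hv
  | smul t v _ hv => rw [smul_comm]; exact Submodule.smul_mem _ t hv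

theorem F_smul_mem_Pl {a x : X} (hx : x ∈ F) {v : W} (hv : v ∈ Pl p W F a) :
    x • v ∈ Pl p W F a := by
  induction hv using Submodule.span_induction with
  | mem v hv =>
    obtain ⟨y, hy, w, rfl⟩ := hv
    exact Submodule.subset_span ⟨x * y, mul_mem hx hy, w, by rw [mul_smul]⟩
  | zero => rw [smul_zero]; exact zero_mem _
  | add u v _ _ hu hv => rw [smul_add]; exact add_mem hu hv
  | smul t v _ hv => rw [smul_comm]; exact Submodule.smul_mem _ t hv

theorem LC.smul_Pl (L : LC p W D F) (g a : X) : g • Pl p W F a = Pl p W F (g * a * g⁻¹) := by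
  ext v
  rw [Submodule.mem_smul_pointwise_iff_exists]
  constructor
  · rintro ⟨u, hu, rfl⟩; exact L.smul_mem_Pl hu g
  · intro hv
    refine ⟨g⁻¹ • v, ?_, smul_inv_smul g v⟩
    simpa [mul_assoc] using L.smul_mem_Pl hv g⁻¹

theorem smul_eq_of_le {g : X} {M : Submodule (ZMod p) W} (h : ∀ v ∈ M, g • v ∈ M) : g • M = M := by
  have h1 : ∀ n : ℕ, ∀ v ∈ M, g ^ n • v ∈ M := by
    intro n
    induction n with
    | zero => simp
    | succ n ih => intro v hv; rw [pow_succ', mul_smul]; exact h _ (ih v hv)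
  ext v
  rw [Submodule.mem_smul_pointwise_iff_exists]
  constructor
  · rintro ⟨u, hu, rfl⟩; exact h u hu
  · intro hv
    refine ⟨_, h1 (orderOf g - 1) v hv, ?_⟩
    rw [← mul_smul, ← pow_succ', Nat.sub_add_cancel (orderOf_pos g), pow_orderOf_eq_one, one_smul]

/-- Plane data. -/
structure PD (F : Subgroup X) (a : X) (f : W →ₗ[ZMod p] ZMod p) (z : W) (x : X) : Prop where
  tv : TvD a f z
  ne : z ≠ 0
  xF : x ∈ F
  f1 : f (x • z) ≠ 0
  f2 : f (x⁻¹ • z) ≠ 0
  line : ∀ t : ZMod p, ∃ y ∈ F, x • z + t • z = y • z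
  mem : ∀ v, v ∈ Pl p W F a ↔ ∃ s t : ZMod p, v = s • z + t • x • z

theorem LC.exists_PD (L : LC p W D F) {a : X} (h : Tv p W D a) :
    ∃ (f : W →ₗ[ZMod p] ZMod p) (z : W) (x : X), PD F a f z x := by
  have hap := L.tv_pow h
  obtain ⟨hD, h1, f, z, h⟩ := h
  obtain ⟨hz, w₀, hw₀⟩ := L.tvd_ne h h1
  have hF : ∀ x ∈ F, ∀ y ∈ F, (x * a * x⁻¹) * (y * a * y⁻¹)⁻¹ ∈ F := by
    intro x hx y hy
    have := mul_mem (mul_mem hx (L.Fn.conj_mem _ (mul_mem (inv_mem hx) hy) a)) (inv_mem hy)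
    simpa [mul_assoc] using this
  obtain ⟨x, hx, hxa⟩ : ∃ x ∈ F, x * a ≠ a * x := by
    by_contra hc
    push Not at hc
    exact h1 (eq_one_of_pow_prime' L.Fp (L.hh ⟨mem_Cn.2 hc, hD⟩) hap)
  have hne : x * a * x⁻¹ ≠ a := fun e => hxa (by rw [← mul_inv_eq_iff_eq_mul, e])
  have f1 : f (x • z) ≠ 0 := fun e => hne
    (L.mutual h (h.conj x) (by simpa using hF 1 (one_mem _) x hx) e).symm
  have f2 : f (x⁻¹ • z) ≠ 0 := fun e => hne
    (L.mutual (h.conj x) h (by simpa using hF x hx 1 (one_mem _)) e)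
  have line : ∀ t : ZMod p, ∃ y ∈ F, x • z + t • z = y • z := by
    intro t
    refine ⟨_, L.Fn.conj_mem x hx (a ^ (t / f (x • z)).val), ?_⟩
    have : (a ^ (t / f (x • z)).val)⁻¹ • z = z := by
      rw [inv_smul_eq_iff, h.pow, h.1]; simp
    rw [mul_smul, this, mul_smul, h.pow, ZMod.natCast_zmod_val, div_mul_cancel₀ _ f1]
  have key : ∀ y ∈ F, ∃ s t : ZMod p, y • z = s • z + t • x • z := by
    intro y hy
    have hw : (f.comp (DistribSMul.toLinearMap (ZMod p) W y⁻¹)) (y • w₀) ≠ 0 := by simpa using hw₀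
    by_cases h2 : f (y⁻¹ • z) = 0
    · have h3 := L.mutual (h.conj y) h (by simpa using hF y hy 1 (one_mem _)) h2
      obtain ⟨s, hs⟩ := (h.conj y).same (h3 ▸ h) hw
      exact ⟨s, 0, by rw [hs, zero_smul, add_zero]⟩
    · obtain ⟨u, hu, e⟩ := line (-(f (y⁻¹ • x • z) / f (y⁻¹ • z)))
      have h3 := L.mutual (h.conj y) (h.conj u) (hF y hy u hu) (by
        rw [← e]
        show f (y⁻¹ • _) = 0
        rw [smul_add, smul_comm y⁻¹ (-(f (y⁻¹ • x • z) / f (y⁻¹ • z))), map_add, f.map_smul,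
          smul_eq_mul, neg_mul, div_mul_cancel₀ _ h2, add_neg_cancel])
      obtain ⟨s, hs⟩ := (h.conj y).same (h3 ▸ h.conj u) hw
      exact ⟨s * (-(f (y⁻¹ • x • z) / f (y⁻¹ • z))), s, by
        rw [hs, ← e, smul_add, mul_smul, add_comm]⟩
  have hzP : z ∈ Pl p W F a := by
    have := Submodule.smul_mem _ (f w₀)⁻¹ (sub_mem_Pl (p := p) (F := F) a w₀)
    rwa [h.sub, inv_smul_smul₀ hw₀] at this
  refine ⟨f, z, x, h, hz, hx, f1, f2, line, fun v => ⟨fun hv => ?_, ?_⟩⟩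
  · induction hv using Submodule.span_induction with
    | mem v hv =>
      obtain ⟨y, hy, w, rfl⟩ := hv
      obtain ⟨s, t, e⟩ := key y hy
      exact ⟨f w * s, f w * t, by rw [h.sub, smul_comm, e, smul_add, mul_smul, mul_smul]⟩
    | zero => exact ⟨0, 0, by simp⟩
    | add u v _ _ hu hv =>
      obtain ⟨s, t, rfl⟩ := hu
      obtain ⟨s', t', rfl⟩ := hv
      exact ⟨s + s', t + t', by rw [add_smul, add_smul]; abel⟩
    | smul r v _ hv =>
      obtain ⟨s, t, rfl⟩ := hv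
      exact ⟨r * s, r * t, by rw [smul_add, mul_smul, mul_smul]⟩
  · rintro ⟨s, t, rfl⟩
    exact add_mem (Submodule.smul_mem _ s hzP) (Submodule.smul_mem _ t (F_smul_mem_Pl hx hzP))

theorem PD.z_mem {a x : X} {f : W →ₗ[ZMod p] ZMod p} {z : W} (h : PD F a f z x) :
    z ∈ Pl p W F a := (h.mem z).2 ⟨1, 0, by simp⟩

theorem PD.xz_mem {a x : X} {f : W →ₗ[ZMod p] ZMod p} {z : W} (h : PD F a f z x) :
    x • z ∈ Pl p W F a := (h.mem _).2 ⟨0, 1, by simp⟩

theorem LC.pl_irr (L : LC p W D F) {a : X} (h : Tv p W D a) {M : Submodule (ZMod p) W}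
    (hM : ∀ x ∈ F, ∀ v ∈ M, x • v ∈ M) {v : W} (h1 : v ∈ Pl p W F a) (h2 : v ∈ M) (h0 : v ≠ 0) :
    Pl p W F a ≤ M := by
  obtain ⟨f, z, x, P⟩ := L.exists_PD h
  have hz : z ∈ M := by
    obtain ⟨s, t, rfl⟩ := (P.mem v).1 h1
    by_cases ht : t = 0
    · rw [ht, zero_smul, add_zero] at h2 h0
      have hs : s ≠ 0 := fun e => h0 (by rw [e, zero_smul])
      simpa [hs] using M.smul_mem s⁻¹ h2
    · obtain ⟨y, hy, e⟩ := P.line (t⁻¹ * s)
      have h3 := hM _ (inv_mem hy) _ (M.smul_mem t⁻¹ h2)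
      rwa [smul_add, inv_smul_smul₀ ht, ← mul_smul, add_comm, e, inv_smul_smul] at h3
  intro u hu
  obtain ⟨s, t, rfl⟩ := (P.mem u).1 hu
  exact add_mem (M.smul_mem s hz) (M.smul_mem t (hM x P.xF z hz))

theorem LC.dich (L : LC p W D F) {a c : X} (ha : Tv p W D a) (hc : Tv p W D c)
    (hne : Pl p W F a ≠ Pl p W F c) {v : W} (hv : v ∈ Pl p W F a) : c • v = v := by
  have h0 : ∀ u ∈ Pl p W F a, u ∈ Pl p W F c → u = 0 := by
    intro u h1 h2
    by_contra h3
    exact hne (le_antisymm (L.pl_irr ha (fun _ hx _ => F_smul_mem_Pl hx) h1 h2 h3)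
      (L.pl_irr hc (fun _ hx _ => F_smul_mem_Pl hx) h2 h1 h3))
  obtain ⟨f, z, x, P⟩ := L.exists_PD ha
  obtain ⟨-, -, f', z', hc'⟩ := hc
  obtain ⟨u, h1, h2, h3⟩ : ∃ u ∈ Pl p W F a, u ≠ 0 ∧ f' u = 0 := by
    by_cases h4 : f' z = 0
    · exact ⟨z, P.z_mem, P.ne, h4⟩
    · refine ⟨(-(f' (x • z) / f' z)) • z + (1 : ZMod p) • x • z, (P.mem _).2 ⟨_, _, rfl⟩,
        fun e => P.f1 ?_, ?_⟩
      · simpa [P.tv.1] using congrArg f e
      · simp [h4]
  have h4 : c • u = u := by rw [hc'.2, h3, zero_smul, add_zero]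
  have h5 := L.pl_irr (L.tv_conj ha c) (M := Pl p W F a) (fun _ hx _ => F_smul_mem_Pl hx)
    (h4 ▸ L.smul_mem_Pl h1 c) h1 h2
  exact sub_eq_zero.1 (h0 _ (sub_mem (h5 (L.smul_mem_Pl hv c)) hv) (sub_mem_Pl c v))

theorem LC.tv_smul_Pl (L : LC p W D F) {a c : X} (ha : Tv p W D a) (hc : Tv p W D c) :
    c • Pl p W F a = Pl p W F a := by
  refine smul_eq_of_le fun v hv => ?_
  by_cases h : Pl p W F a = Pl p W F c
  · have := add_mem hv (h ▸ sub_mem_Pl c v)
    rwa [add_sub_cancel] at this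
  · rw [L.dich ha hc h hv]; exact hv

/-- Some `F`-conjugate moves the centre. -/
theorem LC.exists_move (L : LC p W D F) {c : X} (hc : Tv p W D c) :
    ∃ g ∈ F, ∃ w ∈ Pl p W F c, (g * c * g⁻¹) • (c • w - w) ≠ c • w - w := by
  obtain ⟨f, z, x, P⟩ := L.exists_PD hc
  refine ⟨x, P.xF, x • z, P.xz_mem, fun e => ?_⟩
  rw [← sub_eq_zero, (P.tv.conj x).sub, P.tv.sub, smul_eq_zero, smul_eq_zero_iff_eq] at e
  rcases e with e | e
  · have : f (x • z) * f (x⁻¹ • z) = 0 := by simpa [smul_comm x⁻¹] using e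
    exact (mul_ne_zero P.f1 P.f2) this
  · exact P.ne e

theorem LC.not_fix (L : LC p W D F) {c : X} (hc : Tv p W D c) : ∃ w ∈ Pl p W F c, c • w ≠ w := by
  obtain ⟨g, -, w, h1, h2⟩ := L.exists_move hc
  exact ⟨w, h1, fun e => h2 (by rw [e, sub_self, smul_zero])⟩

theorem LC.pl_conj_F (L : LC p W D F) (c : X) {g : X} (hg : g ∈ F) :
    Pl p W F (g * c * g⁻¹) = Pl p W F c := by
  rw [← L.smul_Pl]; exact smul_eq_of_le fun _ => F_smul_mem_Pl hg

theorem LC.acts_pow (L : LC p W D F) {c s : X} (hc : Tv p W D c) {k : ℕ} (hs : s ^ p ^ k = 1)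
    (hf : ∀ w : W, s • (c • w - w) = c • w - w) : ∃ e : ℕ, ∀ v ∈ Pl p W F c, s • v = c ^ e • v := by
  have hP : Pl p W F (s * c * s⁻¹) = Pl p W F c := by
    by_contra hne
    obtain ⟨g, hg, w, -, h2⟩ := L.exists_move hc
    refine h2 (L.dich (L.tv_conj hc s) (L.tv_conj hc g) (by rwa [L.pl_conj_F c hg]) ?_)
    rw [← hf w]
    exact L.smul_mem_Pl (sub_mem_Pl c w) s
  obtain ⟨f, z, x, P⟩ := L.exists_PD hc
  have hz : s • z = z := by
    have := hf (x • z)
    rw [P.tv.sub, smul_comm] at this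
    exact smul_right_injective W P.f1 this
  obtain ⟨u, t, e⟩ := (P.mem _).1 (hP ▸ L.smul_mem_Pl P.xz_mem s)
  have h1 : ∀ n : ℕ, ∃ r : ZMod p, s ^ n • x • z = r • z + t ^ n • x • z := by
    intro n
    induction n with
    | zero => exact ⟨0, by simp⟩
    | succ n ih =>
      obtain ⟨r, hr⟩ := ih
      refine ⟨r + t ^ n * u, ?_⟩
      rw [pow_succ', mul_smul, hr, smul_add, smul_comm s r, smul_comm s (t ^ n), hz, e, smul_add,
        add_smul, mul_smul, pow_succ, mul_smul, add_assoc]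
  have ht : t = 1 := by
    obtain ⟨r, hr⟩ := h1 (p ^ k)
    rw [hs, one_smul, ZMod.pow_card_pow] at hr
    have := congrArg f hr
    rw [map_add, f.map_smul, f.map_smul, P.tv.1, smul_zero, zero_add, smul_eq_mul] at this
    exact (mul_left_eq_self₀.1 this.symm).resolve_right P.f1
  refine ⟨(u / f (x • z)).val, fun v hv => ?_⟩
  obtain ⟨a, b, rfl⟩ := (P.mem v).1 hv
  rw [smul_add, smul_add, smul_comm s a, smul_comm s b, smul_comm _ a, smul_comm _ b, hz, e,
    P.tv.pow, P.tv.pow, P.tv.1, ZMod.natCast_zmod_val, div_mul_cancel₀ _ P.f1, ht]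
  simp [add_comm]

theorem LC.span_top (L : LC p W D F) {a : X} (ha : Tv p W D a) {M : Submodule (ZMod p) W}
    (hM : ∀ g : X, Pl p W F (g * a * g⁻¹) ≤ M) : M = ⊤ := by
  rcases L.irr (⨆ g : X, Pl p W F (g * a * g⁻¹)) (fun x w hw => by
    have h1 : (⨆ g : X, Pl p W F (g * a * g⁻¹)) ≤ (⨆ g : X, Pl p W F (g * a * g⁻¹)).comap
        (DistribSMul.toLinearMap (ZMod p) W x) := iSup_le fun g v hv => by
      refine Submodule.mem_iSup_of_mem (x * g) ?_
      simpa [mul_assoc] using L.smul_mem_Pl hv x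
    exact h1 hw) with h | h
  · obtain ⟨w, h1, h2⟩ := L.not_fix ha
    have h3 : w ∈ ⨆ g : X, Pl p W F (g * a * g⁻¹) := Submodule.mem_iSup_of_mem 1 (by simpa using h1)
    rw [h, Submodule.mem_bot] at h3
    exact absurd (by rw [h3, smul_zero]) h2
  · exact eq_top_iff.2 (h ▸ iSup_le hM)

theorem LC.eq_one_of_fix (L : LC p W D F) {a s : X} (ha : Tv p W D a)
    (hs : ∀ g : X, ∀ v ∈ Pl p W F (g * a * g⁻¹), s • v = v) : s = 1 := by
  have := L.span_top ha (M := Fx p W (zpowers s)) fun g v hv b hb => by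
    exact (zpowers_le.2 (MulAction.mem_stabilizer_iff.2 (hs g v hv)) hb :)
  exact L.faith s fun w => (this ▸ Submodule.mem_top : w ∈ Fx p W (zpowers s)) s (mem_zpowers s)

theorem LC.pl_trans (L : LC p W D F) {a c : X} (ha : Tv p W D a) (hc : Tv p W D c) :
    ∃ g : X, Pl p W F (g * a * g⁻¹) = Pl p W F c := by
  by_contra h
  push Not at h
  exact hc.2.1 (L.eq_one_of_fix ha fun g v hv => L.dich (L.tv_conj ha g) hc (h g) hv)

theorem LC.fix_of_pgroup (L : LC p W D F) {S : Subgroup X} (hS : IsPGroup p S) {c c' : X}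
    (hc : Tv p W D c) (hc' : Tv p W D c') (h1 : c ∈ S) (h2 : c' ∈ S) (w : W) :
    c' • (c • w - w) = c • w - w := by
  by_cases h : Pl p W F c = Pl p W F c'
  · obtain ⟨v, v1, v2, v3⟩ := exists_fixed_vec
      (hS.to_inf_left (K := MulAction.stabilizer X (Pl p W F c))) (M := Pl p W F c)
      (fun s hs v hv => by
        rw [← MulAction.mem_stabilizer_iff.1 hs.2]; exact Submodule.smul_mem_pointwise_smul v s _ hv)
      (fun e => by
        obtain ⟨w, h1, h2⟩ := L.not_fix hc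
        rw [e, Submodule.mem_bot] at h1
        exact h2 (by rw [h1, smul_zero]))
    obtain ⟨f, z, x, P⟩ := L.exists_PD hc
    have k1 := v3 c ⟨h1, L.tv_smul_Pl hc hc⟩
    have k2 := v3 c' ⟨h2, L.tv_smul_Pl hc hc'⟩
    obtain ⟨s, t, rfl⟩ := (P.mem v).1 v1
    rw [← sub_eq_zero, P.tv.sub, smul_eq_zero, map_add, map_smul, map_smul, P.tv.1, smul_zero,
      zero_add, smul_eq_mul, mul_eq_zero] at k1
    have ht : t = 0 := (k1.resolve_right P.ne).resolve_right P.f1
    rw [ht, zero_smul, add_zero] at k2 v2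
    rw [smul_comm] at k2
    have hz := smul_right_injective W (fun e => v2 (by rw [e, zero_smul])) k2
    rw [P.tv.sub, smul_comm]
    exact congrArg _ hz
  · exact L.dich hc hc' h (sub_mem_Pl c w)

/-- The correction lemma. -/
theorem LC.correct (L : LC p W D F) {S : Subgroup X} (hS : IsPGroup p S) {C : Set X}
    (hC : ∀ c ∈ C, Tv p W D c ∧ c ∈ S ∧ ∀ s ∈ S, ∀ w : W, s • (c • w - w) = c • w - w)
    {s : X} (hs : s ∈ S) : ∃ b ∈ closure C, ∀ c ∈ C, ∀ v ∈ Pl p W F c, s • v = b • v := by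
  have key : ∀ T : Set (Submodule (ZMod p) W), T.Finite → ∃ b ∈ closure C,
      ∀ c ∈ C, Pl p W F c ∈ T → ∀ v ∈ Pl p W F c, s • v = b • v := by
    intro T hT
    induction T, hT using Set.Finite.induction_on with
    | empty => exact ⟨1, one_mem _, fun _ _ h => absurd h (Set.notMem_empty _)⟩
    | @insert M T _ _ ih =>
      obtain ⟨b, hb, h1⟩ := ih
      by_cases h2 : ∃ c₀ ∈ C, Pl p W F c₀ = M
      · obtain ⟨c₀, hc₀, rfl⟩ := h2
        have hbS : b ∈ S := (closure_le S).2 (fun c hc => (hC c hc).2.1) hb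
        have h3 := mul_mem (inv_mem hbS) hs
        obtain ⟨k, hk⟩ := hS ⟨_, h3⟩
        obtain ⟨e, he⟩ := L.acts_pow (hC c₀ hc₀).1 (k := k) (congrArg Subtype.val hk)
          ((hC c₀ hc₀).2.2 _ h3)
        refine ⟨b * c₀ ^ e, mul_mem hb (pow_mem (subset_closure hc₀) e), fun c hc h4 v hv => ?_⟩
        by_cases h5 : Pl p W F c = Pl p W F c₀
        · rw [mul_smul, ← he v (h5 ▸ hv), mul_smul, smul_inv_smul]
        · have h6 : c₀ ^ e • v = v :=
            pow_mem (MulAction.mem_stabilizer_iff.2 (L.dich (hC c hc).1 (hC c₀ hc₀).1 h5 hv)) e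
          rw [mul_smul, h6]
          exact h1 c hc (h4.resolve_left h5) v hv
      · exact ⟨b, hb, fun c hc h4 => h1 c hc (h4.resolve_left fun e => h2 ⟨c, hc, e⟩)⟩
  obtain ⟨b, hb, h⟩ := key Set.univ Set.finite_univ
  exact ⟨b, hb, fun c hc => h c hc (Set.mem_univ _)⟩

theorem LC.l1b (L : LC p W D F) (A : Subgroup X) (hA : EA p A) (hD : A ≤ D)
    (hoff : Nat.card W ≤ Nat.card A * Nat.card (Fx p W A)) :
    A ≤ closure {a | a ∈ A ∧ Tv p W D a} := by
  induction h : Nat.card A using Nat.strong_induction_on generalizing A with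
  | _ n ih =>
    subst h
    by_cases h0 : A = ⊥
    · rw [h0]; exact bot_le
    obtain ⟨B, h1, b, hb, h2, h3, h4, h5⟩ := L.hyper hA hD h0
    have h6 := L.l1a B (hA.mono h1) (h1.trans hD)
    have h7 := card_lt_submodule h4
    have h8 : Nat.card W ≤ Nat.card B * (p * Nat.card (Fx p W A)) :=
      hoff.trans ((Nat.mul_le_mul_right _ h5).trans (le_of_eq (by ring)))
    have h9 := ih _ (card_lt_of_lt' (lt_of_le_of_ne h1 fun e => h2 (e ▸ hb))) B (hA.mono h1)
      (h1.trans hD) (h8.trans (Nat.mul_le_mul_left _ h7)) rfl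
    have h10 : Nat.card (Fx p W B) ≤ p * Nat.card (Fx p W A) :=
      Nat.le_of_mul_le_mul_left (h6.trans h8) Nat.card_pos
    have hcom : ∀ s ∈ A, ∀ c ∈ A, Tv p W D c → ∀ w : W, s • (c • w - w) = c • w - w := by
      intro s hs c hc ht w
      obtain ⟨-, -, f, z, hz⟩ := ht
      have e1 : s * c * s⁻¹ = c := by rw [mem_Cn.1 (hA.2 hc) s hs, mul_inv_cancel_right]
      by_cases hw : f w = 0
      · rw [hz.sub, hw, zero_smul, smul_zero]
      · obtain ⟨t, ht⟩ := (hz.conj s).same (e1.symm ▸ hz) (w := s • w) (by simpa using hw)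
        have e2 : ∀ n : ℕ, s ^ n • z = t ^ n • z := by
          intro n
          induction n with
          | zero => simp
          | succ n ih => rw [pow_succ', mul_smul, ih, smul_comm, ht, ← mul_smul, pow_succ]
        have e3 := e2 p
        rw [hA.1 s hs, one_smul, ZMod.pow_card] at e3
        rw [hz.sub, smul_comm, ht, ← e3]
    obtain ⟨b', hb', h11⟩ := L.correct hA.isPGroup (C := {a | a ∈ B ∧ Tv p W D a})
      (fun c hc => ⟨hc.2, h1 hc.1, fun s hs => hcom s hs c (h1 hc.1) hc.2⟩) hb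
    have hb'B : b' ∈ B := (closure_le B).2 (fun c hc => hc.1) hb'
    have haA : b'⁻¹ * b ∈ A := mul_mem (inv_mem (h1 hb'B)) hb
    have ha1 : b'⁻¹ * b ≠ 1 := fun e => h2 (inv_mul_eq_one.1 e ▸ hb'B)
    set a := b'⁻¹ * b with ha
    have htop : Fx p W (zpowers a) ⊔ Fx p W B = ⊤ := by
      by_cases hex : ∃ c, c ∈ B ∧ Tv p W D c
      · obtain ⟨c, -, hc⟩ := hex
        refine L.span_top hc fun g => ?_
        by_cases h12 : ∃ c', (c' ∈ B ∧ Tv p W D c') ∧ Pl p W F c' = Pl p W F (g * c * g⁻¹)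
        · obtain ⟨c', k1, k2⟩ := h12
          refine le_sup_of_le_left fun v hv s hs => ?_
          have k3 : a • v = v := by rw [ha, mul_smul, h11 c' k1 v (k2 ▸ hv), inv_smul_smul]
          exact (zpowers_le.2 (MulAction.mem_stabilizer_iff.2 k3) hs :)
        · refine le_sup_of_le_right fun v hv s hs => ?_
          have : closure {a | a ∈ B ∧ Tv p W D a} ≤ MulAction.stabilizer X v :=
            (closure_le _).2 fun c' k1 => L.dich (L.tv_conj hc g) k1.2 (fun e => h12 ⟨c', k1, e.symm⟩) hv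
          exact this (h9 hs)
      · refine eq_top_iff.2 (le_sup_of_le_right fun v _ s hs => ?_)
        have : closure {a | a ∈ B ∧ Tv p W D a} ≤ MulAction.stabilizer X v :=
          (closure_le _).2 fun c' k1 => absurd ⟨c', k1⟩ hex
        exact this (h9 hs)
    obtain ⟨w₀, k1, k2⟩ := SetLike.exists_of_lt h4
    have hsp : Fx p W A ⊔ Submodule.span (ZMod p) {w₀} = Fx p W B := by
      have k3 : Fx p W A ⊔ Submodule.span (ZMod p) {w₀} ≤ Fx p W B :=
        sup_le h4.le ((Submodule.span_singleton_le_iff_mem _ _).2 k1)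
      by_contra hne
      have k4 := card_lt_submodule (lt_of_le_of_ne k3 hne)
      have k5 := card_lt_submodule (M := Fx p W A) (N := Fx p W A ⊔ Submodule.span (ZMod p) {w₀})
        (lt_of_le_of_ne le_sup_left fun e => k2
          (e ▸ Submodule.mem_sup_right (Submodule.mem_span_singleton_self w₀)))
      have k6 := (k4.trans h10).trans k5
      have k7 : 0 < Nat.card (Fx p W A ⊔ Submodule.span (ZMod p) {w₀} : Submodule (ZMod p) W) :=
        Nat.card_pos
      have := hp.out.one_lt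
      nlinarith
    have hdec : ∀ w : W, ∃ m ∈ Fx p W (zpowers a), ∃ t : ZMod p, w = m + t • w₀ := by
      intro w
      have k3 : w ∈ Fx p W (zpowers a) ⊔ Submodule.span (ZMod p) {w₀} := by
        have : Fx p W A ≤ Fx p W (zpowers a) := Fx_anti (zpowers_le.2 haA)
        rw [← sup_of_le_left this, sup_assoc, hsp, htop]; exact Submodule.mem_top
      obtain ⟨m, hm, u, hu, rfl⟩ := Submodule.mem_sup.1 k3
      obtain ⟨t, rfl⟩ := Submodule.mem_span_singleton.1 hu
      exact ⟨m, hm, t, rfl⟩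
    have hw₀ : w₀ ∉ Fx p W (zpowers a) := fun k3 => ha1 (L.faith a fun w => by
      obtain ⟨m, hm, t, rfl⟩ := hdec w
      exact add_mem hm (Submodule.smul_mem _ t k3) a (mem_zpowers a))
    obtain ⟨f, f1, f2⟩ := Submodule.exists_le_ker_of_notMem hw₀
    have hform : ∀ w, a • w = w + f w • ((f w₀)⁻¹ • (a • w₀ - w₀)) := by
      intro w
      obtain ⟨m, hm, t, rfl⟩ := hdec w
      have k3 : f m = 0 := f2 hm
      rw [map_add, k3, zero_add, f.map_smul, smul_eq_mul, mul_smul t, smul_inv_smul₀ f1, smul_add,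
        hm a (mem_zpowers a), smul_comm, smul_sub]
      abel
    set z := (f w₀)⁻¹ • (a • w₀ - w₀)
    have hfz : f z = 0 := by
      have k3 : ∀ n : ℕ, f (a ^ n • w₀) = (1 + f z) ^ n * f w₀ := by
        intro n
        induction n with
        | zero => simp
        | succ n ih =>
          rw [pow_succ', mul_smul, hform, map_add, f.map_smul, ih, smul_eq_mul]; ring
      have k4 := k3 p
      rw [hA.1 a haA, one_smul, ZMod.pow_card] at k4
      have k5 := (mul_left_eq_self₀.1 k4.symm).resolve_right f1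
      simpa using k5
    have hat : Tv p W D a := ⟨hD haA, ha1, f, z, hfz, hform⟩
    have hBA : closure {a | a ∈ B ∧ Tv p W D a} ≤ closure {a | a ∈ A ∧ Tv p W D a} :=
      closure_mono fun c hc => ⟨h1 hc.1, hc.2⟩
    have hbc : b ∈ closure {a | a ∈ A ∧ Tv p W D a} := by
      have := mul_mem (hBA hb') (subset_closure (show a ∈ {a | a ∈ A ∧ Tv p W D a} from ⟨haA, hat⟩))
      simpa [ha] using this
    intro c hc
    obtain ⟨k, hk⟩ := h3 c hc
    simpa using mul_mem (hBA (h9 hk)) (inv_mem (pow_mem hbc k))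

end Pool.Agent.Lib.MP_bf45aa_co
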