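import Pool.Agent.Lib.MP_bf45aa_co.PS1

set_option autoImplicit false
set_option linter.unusedSectionVars false

/-! A bound for the number of independent shallow locally normal subgroups. -/

namespace Pool.Agent.Lib.MP_bf45aa_co

open Subgroup Filter
open scoped commutatorElement

variable {H X : Type} [Group H] [MulAction H X] {Γ : SimpleGraph X}

theorem PA7_sum {ι : Type} [DecidableEq ι] {S K N : Subgroup H} (J : ι → Subgroup H)
    (hK : K ≤ S) (hS : S ≤ Nm K) (hN : N ≤ S) (hJ : ∀ a, J a ≤ N) (hn : ∀ a, N ≤ Nm (J a))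
    (hf : K.relIndex S ≠ 0) (hc : ∀ a b, a ≠ b → ∀ g ∈ J a, ∀ h ∈ J b, ⁅g, h⁆ ∈ K) {δ : ℝ}
    (hδ : ∀ a, ∀ P : Subgroup H, K ≤ P → N ≤ Nm P → (∀ g ∈ P, ∀ h ∈ J a, ⁅g, h⁆ ∈ K) →
      δ ≤ lx P (J a)) (s : Finset ι) : s.card * δ ≤ lx K S := by
  have hP : ∀ s : Finset ι, (⨆ r ∈ s, J r) ⊔ K ≤ S := fun s =>
    sup_le (iSup₂_le fun r _ => (hJ r).trans hN) hK
  have hPN : ∀ s : Finset ι, N ≤ Nm ((⨆ r ∈ s, J r) ⊔ K) := fun s => by
    induction s using Finset.induction_on with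
    | empty => simpa using hN.trans hS
    | insert a s _ ih =>
      rw [Finset.iSup_insert, sup_assoc]
      exact fun g hg => Nm_sup (hn a hg) (ih hg)
  have key : s.card * δ ≤ lx K ((⨆ r ∈ s, J r) ⊔ K) := by
    induction s using Finset.induction_on with
    | empty => simpa using lx_nonneg _ _
    | insert a s ha ih =>
      have h1 := ((LI_lx hf).right (hP (insert a s))).1
      rw [Finset.iSup_insert, sup_assoc] at h1 ⊢
      rw [lx_chain (le_sup_right : K ≤ (⨆ r ∈ s, J r) ⊔ K) le_sup_right h1,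
        lx_sup ((hJ a).trans (hPN s)), Finset.card_insert_of_notMem ha]
      have h2 : (⨆ r ∈ s, J r) ⊔ K ≤ CM S K hS (J a) := by
        refine sup_le (iSup₂_le fun r hr g hg => ⟨hN (hJ r hg), fun h hh => ?_⟩)
          fun g hg => ⟨hK hg, fun h hh => comm_mem_left hg (hS (hN (hJ a hh)))⟩
        exact hc r a (fun e => ha (e ▸ hr)) g hg h hh
      have h3 := hδ a _ le_sup_right (hPN s) fun g hg h hh => (h2 hg).2 h hh
      push_cast
      linarith
  exact key.trans ((LI_lx hf).right (hP s)).2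

/-- At most `t₀` shallow locally normal subgroups have pairwise deep intersections. -/
theorem GD.a7Q {C : ℕ} (G : GD H Γ C)
    (hQ : ∃ K : ℕ, ∀ (x : X) (n M : ℕ) (J : Subgroup H), LN Γ x n J → ¬ J ≤ Kn H Γ n x →
      (∀ a ∈ J, ∀ b ∈ J, ⁅a, b⁆ ∈ Kn H Γ M x) → M ≤ K * (n + 1)) :
    ∃ t₀ K : ℕ, ∀ (x : X) (n M : ℕ) (J : Fin (t₀ + 1) → Subgroup H), (∀ a, LN Γ x n (J a)) →
      (∀ a, ¬ J a ≤ Kn H Γ n x) → (∀ a b, a ≠ b → J a ⊓ J b ≤ Kn H Γ M x) → M ≤ K * (n + 1) := by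
  obtain ⟨K₀, hK⟩ := hQ
  obtain ⟨Kd, hd⟩ := G.dens
  set t := Kd * C * (K₀ + 1) with ht
  refine ⟨t, (K₀ + 1) * (2 * t + 2 + ((t + 1) * Kd + 1) * (t + 2 + 2 * C)),
    fun x n M J h1 h2 h3 => ?_⟩
  choose y N hy hJ hN hL using h1
  set n₁ := (t + 1) * n + 2 * C with hn₁
  let N' : Subgroup H := (⨅ a, N a) ⊓ Kn H Γ 1 x
  have hN' : LI N' (St H x) n₁ := by
    refine ((LI.iInf hL).inf (G.L2 x 1)).mono (le_of_eq ?_)
    rw [hn₁]; push_cast; ring
  have hn : ∀ a, N' ≤ Nm (J a ⊓ N') := fun a g hg =>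
    Nm_inf (hN a (mem_iInf.1 hg.1 a)) (le_Nm_self _ hg)
  have h4 : M < (K₀ + 1) * (M / (K₀ + 1) + 1) := Nat.lt_mul_div_succ M (Nat.succ_pos _)
  have h5 : (K₀ + 1) * (M / (K₀ + 1)) ≤ M := Nat.mul_div_le M _
  have h6 : M / (K₀ + 1) ≤ 2 * t + 1 + ((t + 1) * Kd + 1) * (n + n₁ + 1) := by
    generalize M / (K₀ + 1) = i at h4 h5
    obtain _ | i := i
    · omega
    by_cases hi : i < n₁
    · nlinarith [Nat.zero_le ((t + 1) * Kd * (n + n₁ + 1))]
    rcases Nat.eq_zero_or_pos Kd with rfl | hKd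
    · have h7 := hd x n (i + 1) (J 0) _ ⟨y 0, N 0, hy 0, hJ 0, hN 0, hL 0⟩ (h2 0)
        (LI_lx (G.fin_K x _ inf_le_right))
      have : (0 : ℝ) ≤ i := by positivity
      push_cast at h7
      linarith
    have hKd' : (0 : ℝ) < Kd := by exact_mod_cast hKd
    have h7 := PA7_sum (S := St H x) (K := Kn H Γ M x) (N := N') (fun a => J a ⊓ N')
      (Kn_le_St _ _) (G.c.St_le_Nm_Kn _ x) (inf_le_right.trans (Kn_le_St _ _))
      (fun _ => inf_le_right) hn (G.L2 x M).1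
      (fun a b hab g hg h hh => h3 a b hab ⟨comm_mem_left hg.1 (hN a (mem_iInf.1 hh.2.1 a)),
        comm_mem_right hh.1 (hN b (mem_iInf.1 hg.2.1 b))⟩)
      (δ := i / Kd - (n + n₁ + 1)) (fun a P p1 p2 p3 => by
        have k1 : J a ⊓ N' ≤ St H x := inf_le_right.trans (inf_le_right.trans (Kn_le_St _ _))
        have k2 : P ⊓ (J a ⊓ N') ≤ Kn H Γ i x := by
          by_contra hc
          have := hK x i M _ (LN.mono ⟨x, N', Near.refl _ _,
            inf_le_right.trans (inf_le_right.trans inf_le_right),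
            fun g hg => Nm_inf (p2 hg) (hn a hg), hN'⟩ (not_lt.1 hi)) hc
            fun g hg h hh => p3 g hg.1 h hh.2
          nlinarith
        have k3 : LI P (J a ⊓ N') (lx P (J a ⊓ N')) :=
          LI_lx ((LI_lx (G.fin_K x M k1)).left p1).1
        have k4 : LI (J a ⊓ N') (J a ⊓ St H x) n₁ :=
          (hN'.right inf_le_right).left' fun g hg => ⟨hg.2.1, hg.1⟩
        have k5 := hd x n i (J a) _ ⟨y a, N a, hy a, hJ a, hN a, hL a⟩ (h2 a)
          ((k3.left' k2).trans k4)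
        rw [sub_le_iff_le_add, div_le_iff₀ hKd']
        linarith) Finset.univ
    have h8 := h7.trans (G.L2 x M).2
    rw [Finset.card_univ, Fintype.card_fin] at h8
    have h9 : ((t + 1 : ℕ) : ℝ) * i ≤ Kd * (C * (M + 1)) + (t + 1 : ℕ) * Kd * (n + n₁ + 1) := by
      have e : (i : ℝ) = Kd * (i / Kd) := by field_simp
      have := mul_le_mul_of_nonneg_left h8 hKd'.le
      nth_rewrite 1 [e]
      nlinarith
    have h10 : (t + 1) * i ≤ Kd * (C * (M + 1)) + (t + 1) * Kd * (n + n₁ + 1) := by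
      exact_mod_cast h9
    have h11 : Kd * (C * (M + 1)) ≤ t * (i + 2) := by
      rw [ht, mul_assoc, mul_assoc]
      exact Nat.mul_le_mul_left _ (Nat.mul_le_mul_left _ (by nlinarith))
    nlinarith
  have h7 : n + n₁ + 1 ≤ (t + 2 + 2 * C) * (n + 1) := by rw [hn₁]; nlinarith
  have h8 := Nat.mul_le_mul_left ((t + 1) * Kd + 1) h7
  refine h4.le.trans ?_
  rw [mul_assoc]
  refine Nat.mul_le_mul_left _ ?_
  nlinarith

end Pool.Agent.Lib.MP_bf45aa_co
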