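import Pool.Agent.Lib.MP_bf45aa_co.PS4
import Pool.Agent.Lib.MP_bf45aa_co.PA7

set_option autoImplicit false
set_option linter.unusedSectionVars false

/-! The exact classes. -/

namespace Pool.Agent.Lib.MP_bf45aa_co

open Subgroup Filter
open scoped commutatorElement

variable {H X : Type} [Group H] [MulAction H X] {Γ : SimpleGraph X} {C : ℕ}

theorem PCls_Nm_bot (g : H) : g ∈ Nm (⊥ : Subgroup H) := mem_Nm_iff.2 (cj_bot g)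

theorem Ctx.shallow (c : Ctx H Γ) (x : X) {A : Subgroup H} (h : ¬ A ≤ ⊥) (n : ℕ) :
    ∃ u, n ≤ u ∧ ¬ A ≤ Kn H Γ u x := by
  by_contra hc
  push Not at hc
  exact h fun g hg => c.eq_one (x := x) fun m =>
    Kn_anti (Nat.le_add_left m n) x (hc (n + m) (Nat.le_add_right _ _) hg)

theorem GD.LN_move (G : GD H Γ C) {y : X} {n : ℕ} {A : Subgroup H} (h : LN Γ y n A) (x : X) :
    ∃ m, LN Γ x m A :=
  let ⟨_, hs⟩ := G.c.near_of x y; ⟨_, G.LN_shift h hs⟩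

theorem GD.LI_move (G : GD H Γ C) {y : X} {n : ℕ} {N : Subgroup H} (h : LI N (St H y) n) (x : X) :
    ∃ m : ℕ, LI N (St H x) m :=
  let ⟨s, hs⟩ := G.c.near_of x y
  ⟨n + 2 * C * s, by push_cast; exact h.trans (G.near_LI hs)⟩

/-- The axioms of the class theory hold exactly. -/
def GD.act (G : GD H Γ C) (o : X)
    (hQ : ∃ K : ℕ, ∀ (x : X) (n M : ℕ) (J : Subgroup H), LN Γ x n J → ¬ J ≤ Kn H Γ n x →
      (∀ a ∈ J, ∀ b ∈ J, ⁅a, b⁆ ∈ Kn H Γ M x) → M ≤ K * (n + 1)) : ACT H where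
  D := ⊥
  L A := ∃ n, LN Γ o n A
  Lg N := ∃ n : ℕ, LI N (St H o) n
  B E := ∃ y, E = Kn H Γ 1 y
  D_nm := PCls_Nm_bot
  L_inf := fun ⟨_, h⟩ ⟨_, h'⟩ => ⟨_, h.inf h'⟩
  L_infN := fun ⟨_, h⟩ ⟨_, h'⟩ => ⟨_, h.infN h'⟩
  L_cj := fun g ⟨_, h⟩ => G.LN_move (h.conj G.c g) o
  L_nm := fun ⟨n, _, N, _, _, h1, h2⟩ => ⟨N, ⟨n, h2⟩, h1⟩
  Lg_inf := fun ⟨m, h⟩ ⟨n, h'⟩ => ⟨m + n, by push_cast; exact h.inf h'⟩
  Lg_cj := fun g ⟨_, h⟩ => G.LI_move (by rw [← cj_St]; exact h.cj g) o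
  A4 := fun {A N} ⟨n, h⟩ ⟨r, h'⟩ e => by
    by_contra hc
    obtain ⟨K, hK⟩ := G.dens
    obtain ⟨u, u1, u2⟩ := G.c.shallow o hc n
    have := hK o u (K * (u + r + 1) + 1) A r (h.mono u1) u2
      ((h'.right inf_le_right).left' fun g hg => (e.trans bot_le) ⟨hg.2.1, hg.1⟩)
    push_cast at this
    linarith
  A5 := fun {A} ⟨n, h⟩ e => by
    by_contra hc
    obtain ⟨K, hK⟩ := hQ
    obtain ⟨u, u1, u2⟩ := G.c.shallow o hc n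
    have := hK o u (K * (u + 1) + 1) A (h.mono u1) u2 fun a ha b hb => by
      rw [mem_bot.1 (e a ha b hb)]; exact one_mem _
    omega
  A6 := by
    rintro _ J c ⟨y, rfl⟩ hc ⟨n, hJ⟩ h
    obtain ⟨m, _, N, -, -, h1, h2⟩ := G.LN_move hJ y
    exact ⟨CM (Kn H Γ 1 y) ⊥ (fun g _ => PCls_Nm_bot g) J, ⊤, G.LN_move (n := m)
      ⟨y, N ⊓ St H y, Near.refl _ _, fun g hg => (mem_CM.1 hg).1, Nm_CM (inf_le_right.trans
        (G.c.St_le_Nm_Kn _ _)) (fun g _ => PCls_Nm_bot g) (inf_le_left.trans h1), h2.inf_right⟩ o,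
      ⟨0, by simpa using LI_of_le le_top⟩, ⟨hc, h⟩, fun a ha j hj _ => ha.2 j hj⟩
  A7 := by
    obtain ⟨t₀, K, hK⟩ := G.a7Q hQ
    refine ⟨t₀, fun t P h1 h2 => ?_⟩
    by_contra hc
    have h4 : t₀ + 1 ≤ t := by omega
    choose n hn using fun a => (h1 a).1
    choose u u1 u2 using fun a => G.c.shallow o (h1 a).2 (n a)
    have h5 : ∀ a, u a ≤ ∑ b, u b := fun a =>
      Finset.single_le_sum (f := u) (fun _ _ => Nat.zero_le _) (Finset.mem_univ a)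
    have := hK o (∑ b, u b) (K * (∑ b, u b + 1) + 1) (fun a => P (Fin.castLE h4 a))
      (fun a => (hn _).mono ((u1 _).trans (h5 _))) (fun a e => u2 _ (e.trans (Kn_anti (h5 _) o)))
      fun a b e => (h2 _ _ fun e' => e (Fin.castLE_injective h4 e')).trans bot_le
    omega
  A8 := ⟨_, ⟨0, G.LN_K o 0⟩, fun e => G.strict o 1 (e.trans bot_le)⟩

theorem GD.exists_cls_of (G : GD H Γ C)
    (hQ : ∃ K : ℕ, ∀ (x : X) (n M : ℕ) (J : Subgroup H), LN Γ x n J → ¬ J ≤ Kn H Γ n x →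
      (∀ a ∈ J, ∀ b ∈ J, ⁅a, b⁆ ∈ Kn H Γ M x) → M ≤ K * (n + 1)) : Nonempty (Cls H Γ) := by
  obtain ⟨o, -, -⟩ := G.edge
  obtain ⟨K⟩ := (G.act o hQ).exists_cl
  refine ⟨⟨K.t, K.σ, K.Cen, K.pos, K.conj, K.fix, fun y c h1 h2 => K.QZ _ c ⟨y, rfl⟩ h1 h2,
    fun a n y => ?_, fun x u R h1 h2 => K.max u R ⟨fun a => ?_, fun a b e => ?_⟩⟩⟩
  · have h1 := (K.fam.1 a).infN (N := Kn H Γ n y)
      (G.LI_move (n := C * (n + 1)) (by push_cast; exact G.L2 y n) o)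
    obtain ⟨g, g1, g2⟩ := SetLike.not_le_iff_exists.1 h1.2
    exact ⟨g, g2, g1.2, fun b hb => K.PC a b (Ne.symm hb) g1.1⟩
  · obtain ⟨k1, n, k2⟩ := h1 a
    exact ⟨G.LN_move k2 o, fun e => k1 (le_bot_iff.1 e)⟩
  · obtain ⟨-, n, k1⟩ := h1 a
    obtain ⟨-, m, k2⟩ := h1 b
    exact (G.act o hQ).A5 (G.LN_move (k1.inf k2) o) fun g hg h hh => h2 a b e g hg.1 h hh.2

end Pool.Agent.Lib.MP_bf45aa_co
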