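import Pool.Agent.Lib.MP_bf45aa_co.PS1

set_option autoImplicit false
set_option linter.unusedSectionVars false

/-! Classes at a scale give commuting locally normal subgroups. -/

namespace Pool.Agent.Lib.MP_bf45aa_co

open Subgroup Filter
open scoped commutatorElement

variable {H X : Type} [Group H] [MulAction H X] {Γ : SimpleGraph X} {E : Type*} [Group E]

theorem Ctx.ev_conj (c : Ctx H Γ) {x : X} {z : ℕ → H} (h : ∀ n, ∀ᶠ i in UU, z i ∈ Kn H Γ n x) (g : H)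
    (n : ℕ) : ∀ᶠ i in UU, g * z i * g⁻¹ ∈ Kn H Γ n x := by
  obtain ⟨m, hm⟩ := c.near_of (g • x) x
  exact (h (n + m)).mono fun i hi => Kn_near hm (c.Kn_conj g hi)

/-- Pairs of a sequence and its limit. -/
def Ctx.Ap (c : Ctx H Γ) (x : X) (ev : E →* (ℕ → H)) : Subgroup (H × E) where
  carrier := {p | ∀ n, ∀ᶠ i in UU, p.1⁻¹ * ev p.2 i ∈ Kn H Γ n x}
  one_mem' := fun n => Eventually.of_forall fun i => by simp
  mul_mem' := fun {a b} ha hb n => ((c.ev_conj ha b.1⁻¹ n).and (hb n)).mono fun i hi => by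
    have := mul_mem hi.1 hi.2
    simpa [mul_assoc] using this
  inv_mem' := fun {a} ha n => (c.ev_conj ha a.1 n).mono fun i hi => by
    have := inv_mem hi
    simpa [mul_assoc] using this

theorem GD.thmS {C : ℕ} (G : GD H Γ C) (K : Cls H Γ) (ι : H →* E) (ev : E →* (ℕ → H))
    (hι : ∀ h i, ev (ι h) i = h) {x x' : X} {u : ℕ} (σ : E →* Equiv.Perm (Fin u))
    (Cen : Fin u → Subgroup E) (conj : ∀ h g a, g ∈ Cen a → h * g * h⁻¹ ∈ Cen (σ h a))
    (fix : ∀ g a, g ∈ Cen a → σ g a = a)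
    (QZ : ∀ c, (∀ᶠ i in UU, ev c i ∈ Kn H Γ 1 x) → (∀ a, c ∈ Cen a) →
      ∀ r, ∀ᶠ i in UU, ev c i ∈ Kn H Γ r x)
    {z : E} {a₀ : Fin u} (hz : ∀ b, b ≠ a₀ → z ∈ Cen b) (hw : ∀ᶠ i in UU, Wall Γ x x' (ev z i))
    {B : ℕ} {g : Fin B → H} (hg : Moves Γ x x' g) (hb : ∀ b, ∃ l, ι (g l) * z * (ι (g l))⁻¹ ∉ Cen b) :
    u ≤ K.t := by
  classical
  let M : Fin u → Subgroup E := fun a => ⨅ b : {b // b ≠ a}, Cen b
  have hM : ∀ {a c}, c ∈ M a ↔ ∀ b, b ≠ a → c ∈ Cen b := fun {a c} => by simp [M]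
  have Mc : ∀ h {c a}, c ∈ M a → h * c * h⁻¹ ∈ M (σ h a) := fun h {c a} hc => hM.2 fun b hb => by
    have := conj h c ((σ h)⁻¹ b) (hM.1 hc _ fun e => hb (by rw [← e]; simp))
    simpa using this
  have Mk : ∀ {c a}, c ∈ M a → σ c a = a := fun {c a} hc => by
    by_contra h
    exact h ((σ c).injective (fix c _ (hM.1 hc _ h)))
  have Mcomm : ∀ {m c a}, m ∈ M a → c ∈ Cen a → ∀ b, ⁅m, c⁆ ∈ Cen b := fun {m c a} hm hc b => by
    by_cases h : b = a
    · subst h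
      have := conj m c b hc
      rw [Mk hm] at this
      exact mul_mem this (inv_mem hc)
    · have := Mc c (inv_mem hm)
      rw [fix c a hc] at this
      have := mul_mem hm this
      rw [← mul_assoc, ← mul_assoc] at this
      exact hM.1 this b h
  obtain ⟨ζ, ζ1, ζ2⟩ := G.lim x (fun i => if ev z i ∈ St H x then ev z i else 1) fun i => by
    split_ifs with h
    exacts [h, one_mem _]
  have ζ3 : (ζ, z) ∈ G.c.Ap x ev := fun n => ((ζ2 n).and hw).mono fun i hi => by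
    have := hi.1
    rwa [if_pos (mem_St.2 hi.2.2.1)] at this
  have ζ4 : Wall Γ x x' ζ := by
    obtain ⟨i, h1, h2⟩ := ((ζ3 1).and hw).exists
    refine ⟨h2.1, ζ1, ?_, fun h => h2.2.2.2 ?_⟩
    · have := (mem_K1.1 h1).2 x' h2.1
      rwa [mul_smul, h2.2.2.1, inv_smul_eq_iff, eq_comm] at this
    · simpa using mul_mem h h1
  have hc : ∀ h : H, (h, ι h) ∈ G.c.Ap x ev := fun h n => Eventually.of_forall fun i => by
    simp [hι]
  choose l hl using hb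
  have hl' : ∀ b, ι (g (l b)) * z * (ι (g (l b)))⁻¹ ∈ M b := fun b => by
    have h1 := Mc (ι (g (l b))) (hM.2 hz)
    by_cases h : b = σ (ι (g (l b))) a₀
    · rwa [← h] at h1
    · exact absurd (hM.1 h1 b h) (hl b)
  let O : Subgroup H := (σ.comp ι).ker ⊓ Kn H Γ 1 x
  obtain ⟨n, hn⟩ : ∃ n : ℕ, LI O (St H x) n := by
    have h1 := relIndex_le_of_fun (A := (σ.comp ι).ker) (B := St H x) (fun a => σ (ι a))
      fun a a' e => by
        rw [MonoidHom.mem_ker, map_mul, map_inv]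
        exact inv_mul_eq_one.2 e
    refine ⟨Nat.card (Equiv.Perm (Fin u)) + C * 2, ((LI_iff.2 ⟨h1.1,
      h1.2.trans Nat.lt_two_pow_self.le⟩).inf (G.L2 x 1)).mono (le_of_eq ?_)⟩
    push_cast
    ring
  let R : Fin u → Subgroup H := fun b =>
    closure {r | ∃ t ∈ O, t * (g (l b) * ζ * (g (l b))⁻¹) * t⁻¹ = r}
  have R1 : ∀ b, O ≤ Nm (R b) := fun b => le_Nm_of_cj_le fun s hs => by
    rw [cj_le_iff]
    refine (closure_le _).2 ?_
    rintro _ ⟨t, ht, rfl⟩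
    show _ ∈ cj s⁻¹ (R b)
    rw [mem_cj, inv_inv]
    exact subset_closure ⟨s * t, mul_mem hs ht, by group⟩
  have R2 : ∀ b, ∀ r ∈ R b, ∃ c ∈ M b, (r, c) ∈ G.c.Ap x ev := fun b r hr => by
    induction hr using closure_induction with
    | mem r hr =>
      obtain ⟨t, ht, rfl⟩ := hr
      have h1 := Mc (ι t) (hl' b)
      rw [show σ (ι t) = 1 from ht.1] at h1
      exact ⟨_, h1, mul_mem (mul_mem (hc t) (mul_mem (mul_mem (hc _) ζ3) (inv_mem (hc _))))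
        (inv_mem (hc t))⟩
    | one => exact ⟨1, one_mem _, one_mem _⟩
    | mul r r' _ _ h h' =>
      obtain ⟨c, c1, c2⟩ := h
      obtain ⟨c', c1', c2'⟩ := h'
      exact ⟨c * c', mul_mem c1 c1', mul_mem c2 c2'⟩
    | inv r _ h =>
      obtain ⟨c, c1, c2⟩ := h
      exact ⟨c⁻¹, inv_mem c1, inv_mem c2⟩
  refine K.max x u (fun b => R b ⊓ Kn H Γ 1 x) (fun b => ⟨fun h => ?_, n, x, O, Near.refl _ _,
    inf_le_right, fun t ht => Nm_inf (R1 b ht) (G.c.St_le_Nm_Kn 1 x (Kn_le_St 1 x ht.2)), hn⟩)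
    fun a b hab r hr r' hr' => ?_
  · obtain ⟨k, hk⟩ := G.dens0
    have h1 := hg.near ζ4.1 (l b)
    obtain ⟨i, hi⟩ := exists_nat_gt ((k : ℝ) * (n + 2 * C * (1 : ℕ) + C * ((2 : ℕ) + 1) + 1))
    refine absurd (hk _ _ _ (R b) O i _ _ (ζ4.conj G.c (g (l b)))
      (subset_closure ⟨1, one_mem _, by simp⟩) (R1 b) (hn.trans (G.near_LI h1.symm))
      (((G.L2 _ 2).right inf_le_right).left' fun y hy => ?_)) (not_le.2 hi)
    have h2 : y ∈ R b ⊓ Kn H Γ 1 x := ⟨hy.2.1, Kn_near h1.symm hy.1⟩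
    rw [h, Subgroup.mem_bot] at h2
    rw [h2]
    exact one_mem _
  · obtain ⟨c, c1, c2⟩ := R2 a r hr.1
    obtain ⟨c', c1', c2'⟩ := R2 b r' hr'.1
    have h1 : (⁅r, r'⁆, ⁅c, c'⁆) ∈ G.c.Ap x ev :=
      mul_mem (mul_mem (mul_mem c2 c2') (inv_mem c2)) (inv_mem c2')
    have h2 : ⁅r, r'⁆ ∈ Kn H Γ 1 x :=
      mul_mem (mul_mem (mul_mem hr.2 hr'.2) (inv_mem hr.2)) (inv_mem hr'.2)
    have h3 := QZ ⁅c, c'⁆ ((h1 1).mono fun i hi => by
      have := mul_mem h2 hi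
      rwa [mul_inv_cancel_left] at this)
      (Mcomm c1 (hM.1 c1' a hab))
    refine G.c.eq_one (x := x) fun m => ?_
    obtain ⟨i, h4, h5⟩ := ((h1 m).and (h3 m)).exists
    simpa using mul_mem h5 (inv_mem h4)

end Pool.Agent.Lib.MP_bf45aa_co
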