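import Pool.Agent.Lib.MP_bf45aa_co.PFin13
import Pool.Agent.Lib.MP_bf45aa_co.PCls13
import Pool.Agent.Lib.MP_bf45aa_co.PThmS

set_option autoImplicit false
set_option linter.unusedSectionVars false

/-! The class theory at a scale, and the comparison with the exact classes. -/

namespace Pool.Agent.Lib.MP_bf45aa_co

open Subgroup Filter
open scoped commutatorElement

variable {H X : Type} [Group H] [MulAction H X] {Γ : SimpleGraph X} {C : ℕ}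

/-- The group of sequences with small displacement. -/
def SqG (T : Cut) (c : Ctx H Γ) (o : X) : Subgroup (ℕ → H) where
  carrier := {g | NS T Γ o g}
  one_mem' := ⟨_, T.const 0, Eventually.of_forall fun _ => by simpa using Near.refl 0 o⟩
  mul_mem' := fun {g h} ⟨_, h1, h2⟩ ⟨_, k1, k2⟩ => ⟨_, T.add h1 k1, (h2.and k2).mono fun i e => by
    rw [Pi.mul_apply, mul_smul]
    exact e.1.trans (e.2.smul c.adj (g i))⟩
  inv_mem' := fun h => NS.inv c h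

variable {T : Cut} {c : Ctx H Γ} {o : X}

/-- The sequences that lie almost everywhere in given subgroups. -/
def SqP (T : Cut) (c : Ctx H Γ) (o : X) (J : ℕ → Subgroup H) : Subgroup (SqG T c o) where
  carrier := {g | ∀ᶠ i in UU, g.1 i ∈ J i}
  one_mem' := Eventually.of_forall fun _ => one_mem _
  mul_mem' := fun h h' => (h.and h').mono fun _ e => mul_mem e.1 e.2
  inv_mem' := fun h => h.mono fun _ e => inv_mem e

/-- The deep sequences. -/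
def SqD (T : Cut) (c : Ctx H Γ) (o : X) : Subgroup (SqG T c o) where
  carrier := {g | ∀ s, T.Sm s → ∀ᶠ i in UU, g.1 i ∈ Kn H Γ (s i) o}
  one_mem' := fun _ _ => Eventually.of_forall fun _ => one_mem _
  mul_mem' := fun h h' s hs => ((h s hs).and (h' s hs)).mono fun _ e => mul_mem e.1 e.2
  inv_mem' := fun h s hs => (h s hs).mono fun _ e => inv_mem e

theorem mem_SqP {J : ℕ → Subgroup H} {g : SqG T c o} :
    g ∈ SqP T c o J ↔ ∀ᶠ i in UU, g.1 i ∈ J i := Iff.rfl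

theorem mem_SqD {g : SqG T c o} :
    g ∈ SqD T c o ↔ ∀ s, T.Sm s → ∀ᶠ i in UU, g.1 i ∈ Kn H Γ (s i) o := Iff.rfl

theorem mem_SqD_of {g : SqG T c o} {a : ℕ → ℕ} (ha : ¬ T.Sm a)
    (h : ∀ᶠ i in UU, g.1 i ∈ Kn H Γ (a i) o) : g ∈ SqD T c o := fun _ hs =>
  (h.and (Cut.lt_of hs ha)).mono fun _ e => Kn_anti e.2.le o e.1

theorem SqP_inf (J J' : ℕ → Subgroup H) :
    SqP T c o J ⊓ SqP T c o J' = SqP T c o fun i => J i ⊓ J' i := by
  ext g
  simp only [mem_inf, mem_SqP, eventually_and]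

theorem SqP_cj (g : SqG T c o) (J : ℕ → Subgroup H) :
    cj g (SqP T c o J) = SqP T c o fun i => cj (g.1 i) (J i) := by
  ext a
  simp only [mem_cj, mem_SqP]
  rfl

theorem LS.lift {J : ℕ → Subgroup H} (h : LS T Γ o J) {P : ℕ → H → Prop}
    (h1 : ∀ᶠ i in UU, ∃ z ∈ J i, P i z) : ∃ g ∈ SqP T c o J, ∀ᶠ i in UU, P i (g.1 i) := by
  obtain ⟨z, hz⟩ := ev_choice (T := fun _ => H) (fun _ => 1) h1
  obtain ⟨s, s1, s2⟩ := h
  refine ⟨⟨z, _, T.add s1 s1, (s2.and hz).mono fun i ⟨⟨y, _, k1, k2, _⟩, k3, _⟩ => ?_⟩,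
    hz.mono fun _ e => e.1, hz.mono fun _ e => e.2⟩
  have := (k1.smul c.adj (z i)).symm
  rw [(mem_K1.1 (k2 k3)).1] at this
  exact k1.trans this

theorem LS.le_D {J : ℕ → Subgroup H} (h : LS T Γ o J) : SqP T c o J ≤ SqD T c o ↔ DP T Γ o J := by
  refine ⟨fun e => by_contra fun hc => ?_, fun e g hg s hs =>
    ((e s hs).and hg).mono fun _ k => k.1 k.2⟩
  obtain ⟨s, s1, s2⟩ := not_DP.1 hc
  obtain ⟨g, g1, g2⟩ := h.lift (c := c) (P := fun i z => z ∉ Kn H Γ (s i) o)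
    (s2.mono fun _ k => SetLike.not_le_iff_exists.1 k)
  obtain ⟨i, k1, k2⟩ := (g2.and (e g1 s s1)).exists
  exact k1 k2

theorem LS.comm_level {J : ℕ → Subgroup H} (h : LS T Γ o J) {g : SqG T c o}
    (h1 : ∀ j ∈ SqP T c o J, ⁅g, j⁆ ∈ SqD T c o) (s : ℕ → ℕ) (hs : T.Sm s) :
    ∀ᶠ i in UU, ∀ j ∈ J i, ⁅g.1 i, j⁆ ∈ Kn H Γ (s i) o := by
  by_contra hc
  obtain ⟨j, j1, j2⟩ := h.lift (c := c) (P := fun i z => ⁅g.1 i, z⁆ ∉ Kn H Γ (s i) o)
    ((ev_not.2 hc).mono fun _ k => by simpa using k)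
  obtain ⟨i, k1, k2⟩ := (j2.and (h1 j j1 s hs)).exists
  exact k1 k2

/-- The axioms of the class theory hold at every scale. -/
def GD.actS (G : GD H Γ C) (hQ : NoAbQ H Γ) (T : Cut) (o : X) : ACT (SqG T G.c o) where
  D := SqD T G.c o
  L A := ∃ J, LS T Γ o J ∧ A = SqP T G.c o J
  Lg N := ∃ M, LgS T o M ∧ N = SqP T G.c o M
  B E := ∃ (y : ℕ → X) (s : ℕ → ℕ), T.Sm s ∧ (∀ i, Near Γ (s i) o (y i)) ∧
    E = SqP T G.c o fun i => Kn H Γ 1 (y i)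
  D_nm := fun g => le_Nm_of_conj (H := ⊤) (fun g _ a ha s hs => by
    obtain ⟨r, r1, r2⟩ := g.2
    exact ((ha _ (T.add hs r1)).and r2).mono fun i e =>
      Kn_near e.2.symm (G.c.Kn_conj (g.1 i) e.1)) (mem_top g)
  L_inf := by
    rintro _ _ ⟨J, h, rfl⟩ ⟨J', h', rfl⟩
    exact ⟨_, h.inf h', SqP_inf _ _⟩
  L_infN := by
    rintro _ _ ⟨J, h, rfl⟩ ⟨J', h', rfl⟩
    exact ⟨_, h.infN h', SqP_inf _ _⟩
  L_cj := by
    rintro _ g ⟨J, h, rfl⟩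
    exact ⟨_, G.LS_cj h g.2, SqP_cj _ _⟩
  L_nm := by
    rintro _ ⟨J, h, rfl⟩
    obtain ⟨N, h1, h2⟩ := h.nm
    exact ⟨_, ⟨N, h1, rfl⟩, le_Nm_of_conj fun g hg a ha => ((h2.and (mem_SqP.1 hg)).and
      (mem_SqP.1 ha)).mono fun i e => conj_mem_of_Nm (e.1.1 e.1.2) e.2⟩
  Lg_inf := by
    rintro _ _ ⟨J, h, rfl⟩ ⟨J', h', rfl⟩
    exact ⟨_, h.inf h', SqP_inf _ _⟩
  Lg_cj := by
    rintro _ g ⟨J, h, rfl⟩
    exact ⟨_, G.LgS_cj h g.2, SqP_cj _ _⟩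
  A4 := by
    rintro _ _ ⟨J, h, rfl⟩ ⟨N, h', rfl⟩ e
    rw [SqP_inf, (h.infN h').le_D] at e
    exact h.le_D.2 (G.A4S h h' e)
  A5 := by
    rintro _ ⟨J, h, rfl⟩ e
    obtain ⟨a, a1, a2⟩ := Cut.spill (T := T)
      (P := fun i n => ∀ u ∈ J i, ∀ v ∈ J i, ⁅u, v⁆ ∈ Kn H Γ n o) fun s hs => by
        by_contra hc
        obtain ⟨u, u1, u2⟩ := h.lift (c := G.c)
          (P := fun i u => ¬ ∀ v ∈ J i, ⁅u, v⁆ ∈ Kn H Γ (s i) o)
          ((ev_not.2 hc).mono fun _ k => by simpa using k)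
        obtain ⟨i, k1, k2⟩ := (u2.and (h.comm_level (e u u1) s hs)).exists
        exact k1 k2
    exact h.le_D.2 (hQ.seq h a1 a2)
  A6 := by
    rintro _ _ g ⟨y, s, s1, s2, rfl⟩ hg ⟨J, h, rfl⟩ e
    obtain ⟨a, a1, a2⟩ := Cut.spill (T := T)
      (P := fun i n => ∀ v ∈ J i, ⁅g.1 i, v⁆ ∈ Kn H Γ n o) (h.comm_level e)
    have a3 := Cut.not_sub a1 s1
    refine ⟨_, SqP T G.c o fun _ => ⊤, ⟨_, G.LS_CM h s1 s2 fun i => a i - s i, rfl⟩,
      ⟨_, ⟨_, T.const 0, Eventually.of_forall fun _ => by simpa using LI_of_le le_top⟩, rfl⟩,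
      (((mem_SqP.1 hg).and a2).and (Cut.lt_of s1 a1)).mono fun i k =>
        ⟨k.1.1, fun v hv => Kn_near_le (s2 i) (by omega) (k.1.2 v hv)⟩,
      fun u hu v hv _ => mem_SqD_of (Cut.not_sub a3 s1)
        ((((mem_SqP.1 hu).and (mem_SqP.1 hv)).and (Cut.lt_of s1 a3)).mono fun i k =>
          Kn_near_le (s2 i).symm (by omega) (k.1.1.2 _ k.1.2))⟩
  A7 := by
    obtain ⟨t₀, K, hK⟩ := G.a7Q hQ
    refine ⟨t₀, fun t P h1 h2 => ?_⟩
    by_contra hc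
    have h4 : t₀ + 1 ≤ t := by omega
    choose J j1 j2 using fun a => (h1 a).1
    have h5 : ∀ a, ¬ DP T Γ o (J a) := fun a e => (h1 a).2 (j2 a ▸ (j1 a).le_D.2 e)
    have h6 : ∀ p : {p : Fin t × Fin t // p.1 ≠ p.2}, ∃ a, ¬ T.Sm a ∧
        ∀ᶠ i in UU, J p.1.1 i ⊓ J p.1.2 i ≤ Kn H Γ (a i) o := fun p => by
      have := h2 _ _ p.2
      rw [j2, j2, SqP_inf, ((j1 _).inf (j1 _)).le_D] at this
      exact DP_iff.1 this
    choose s s1 s2 using j1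
    choose u u1 u2 using fun a => not_DP.1 (h5 a)
    choose m m1 m2 using h6
    obtain ⟨n, n1, n2⟩ := Cut.sm_all fun a => T.add (s1 a) (u1 a)
    obtain ⟨M, M1, M2⟩ := Cut.big_all m1
    obtain ⟨i, ⟨e1, e2⟩, e3, e4⟩ := (((eventually_all.2 s2).and (eventually_all.2 u2)).and
      ((eventually_all.2 m2).and (Cut.lt_of (Cut.aff n1 K) M1))).exists
    have := hK o (n i) (M i) (fun a => J (Fin.castLE h4 a) i)
      (fun a => (e1 _).mono ((Nat.le_add_right _ _).trans (n2 _ i)))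
      (fun a e => e2 _ (e.trans (Kn_anti ((Nat.le_add_left _ _).trans (n2 _ i)) o)))
      fun a b e => (e3 ⟨(_, _), fun e' => e (Fin.castLE_injective h4 e')⟩).trans
        (Kn_anti (M2 _ i) o)
    omega
  A8 := by
    have h : LS T Γ o fun _ => Kn H Γ 1 o := ⟨_, T.const 0, Eventually.of_forall fun _ => G.LN_K o 0⟩
    exact ⟨_, ⟨_, h, rfl⟩, fun e => (h.le_D.1 e _ (T.const 2)).exists.elim fun _ => G.strict o 1⟩

/-- Constant sequences. -/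
def SqC (T : Cut) (c : Ctx H Γ) (o : X) : H →* SqG T c o where
  toFun h := ⟨fun _ => h, let ⟨n, hn⟩ := c.near_of o (h • o)
    ⟨_, T.const n, Eventually.of_forall fun _ => hn⟩⟩
  map_one' := rfl
  map_mul' := fun _ _ => rfl

theorem GD.thmS_of (G : GD H Γ C) (hQ : NoAbQ H Γ) (K : Cls H Γ) : ThmS K := by
  intro T o u R h1 h2
  obtain ⟨L⟩ := (G.actS hQ T o).exists_cl
  refine (L.max u (fun a => SqP T G.c o (R a)) ⟨fun a => ⟨⟨_, (h1 a).1, rfl⟩, fun e =>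
    (h1 a).2 ((h1 a).1.le_D.1 e)⟩, fun a b e => ?_⟩).trans ?_
  · rw [SqP_inf]
    exact ((h1 a).1.inf (h1 b).1).le_D.2 (h2 a b e)
  obtain ⟨o', ho⟩ := G.nbr o
  obtain ⟨g, hg⟩ := G.moves ho
  obtain ⟨⟨J, j1, j2⟩, j3⟩ := L.fam.1 ⟨0, L.pos⟩
  obtain ⟨v, v1, v2⟩ := not_DP.1 fun e => j3 (j2 ▸ j1.le_D.2 e)
  obtain ⟨s, s1, s2⟩ := id j1
  obtain ⟨z, z1, z2⟩ := j1.lift (c := G.c) (P := fun i z => ∃ h : H,
      Near Γ (3 * (s i + v i)) o (h • o) ∧ Wall Γ o o' (h * z * h⁻¹))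
    ((s2.and v2).mono fun i ⟨⟨y, _, k1, k2, _⟩, k3⟩ => by
      obtain ⟨z, z1, z2⟩ := SetLike.not_le_iff_exists.1 k3
      obtain ⟨w, w', k4, k5⟩ := G.wall_of (n := s i + v i) (k1.mono (by omega)) (k2 z1)
        fun e => z2 (Kn_anti (by omega) o e)
      obtain ⟨h, e1, e2⟩ := G.c.arc k5.1 ho
      have k6 := (k4.smul G.c.adj h).symm
      have k7 := k5.conj G.c h
      rw [e1] at k6
      rw [e1, e2] at k7
      exact ⟨z, z1, h, k6, k7⟩)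
  obtain ⟨h, hh⟩ := ev_choice (T := fun _ => H) (fun _ => 1) z2
  let h' : SqG T G.c o := ⟨h, _, Cut.mul (T.add s1 v1) 3, hh.mono fun _ e => e.1⟩
  have hK : LgS T o fun _ => Kn H Γ 1 o := G.LgS_K (y := fun _ => o) (T.const 0) (T.const 1)
    (Eventually.of_forall fun _ => Near.refl _ _)
  refine G.thmS K (SqC T G.c o) (SqG T G.c o).subtype (fun _ _ => rfl) (x := o) (x' := o') L.σ L.Cen
    L.conj L.fix (fun e e1 e2 r => L.QZ _ e ⟨fun _ => o, _, T.const 0, fun _ => Near.refl _ _, rfl⟩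
      e1 e2 _ (T.const r)) (z := h' * z * h'⁻¹) (a₀ := L.σ h' ⟨0, L.pos⟩) (fun b hb => ?_)
    (hh.mono fun _ e => e.2) hg fun b => ?_
  · have := L.conj h' z ((L.σ h')⁻¹ b) (L.PC ⟨0, L.pos⟩ _ (fun e => hb (by rw [e]; simp)) (j2 ▸ z1))
    simpa using this
  · by_contra hc
    push Not at hc
    obtain ⟨A, a1, -, a3⟩ := L.common hc
    obtain ⟨y, y1, y2⟩ := SetLike.not_le_iff_exists.1 (a1.infN ⟨_, hK, rfl⟩).2
    refine y2 fun r hr => ?_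
    filter_upwards [eventually_all.2 fun l => a3 l y y1.1 _ (T.add (T.add hr (T.const 1)) (T.const 1)),
      mem_SqP.1 y1.2, hh] with i e1 e2 e3
    exact G.c.rigid hg e3.2 (mem_K1.1 e2).1 ((mem_K1.1 e2).2 o' ho) fun l =>
      Kn_near (hg.near ho l) (comm_symm (e1 l))

end Pool.Agent.Lib.MP_bf45aa_co
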