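import Pool.Agent.Lib.MP_bf45aa_co.PZBase

set_option autoImplicit false
set_option linter.unusedSectionVars false

/-! Linear growth of the vertex stabilisers. -/

namespace Pool.Agent.Lib.MP_bf45aa_co

open Subgroup Filter

variable {H X V : Type} [Group H] [MulAction H X] [AddCommGroup V] [DistribMulAction H V]
  {Γ : SimpleGraph X} {d C : ℕ}

theorem Fx_sup_zmultiples (A : AddSubgroup V) (s : V) :
    Fx H (A ⊔ AddSubgroup.zmultiples s) = St H s ⊓ Fx H A := by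
  refine le_antisymm (le_inf (fun g hg => ?_) (Fx_anti le_sup_left)) ?_
  · exact hg s (AddSubgroup.mem_sup_right (AddSubgroup.mem_zmultiples s))
  · rw [le_Fx_iff]
    refine sup_le (le_Fx_iff.1 inf_le_right) (AddSubgroup.zmultiples_le.2 fun g hg => hg.1)

/-- Generators with small orbits give a small index. -/
theorem PZ_gen {P : Subgroup H} {S : Set V} {γ : ℕ} [Finite (AddSubgroup.closure S)]
    (hS : ∀ s ∈ S, (St H s).relIndex P ≠ 0 ∧ (St H s).relIndex P ≤ γ) (c : ℕ) :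
    ∀ A ≤ AddSubgroup.closure S, Nat.card (AddSubgroup.closure S) < 2 ^ (c + 1) * Nat.card A →
      (Fx H (AddSubgroup.closure S)).relIndex (P ⊓ Fx H A) ≠ 0 ∧
      (Fx H (AddSubgroup.closure S)).relIndex (P ⊓ Fx H A) ≤ (γ + 1) ^ c := by
  have base : ∀ A : AddSubgroup V, S ⊆ A → ∀ c : ℕ,
      (Fx H (AddSubgroup.closure S)).relIndex (P ⊓ Fx H A) ≠ 0 ∧
      (Fx H (AddSubgroup.closure S)).relIndex (P ⊓ Fx H A) ≤ (γ + 1) ^ c := by
    intro A h c
    rw [relIndex_eq_one.2 (inf_le_right.trans (Fx_anti ((AddSubgroup.closure_le A).2 h)))]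
    exact ⟨one_ne_zero, Nat.pow_pos (Nat.succ_pos _)⟩
  induction c with
  | zero =>
    intro A hA h
    refine base A (fun s hs => ?_) 0
    by_contra hn
    have := PZ_two_mul_card hA (AddSubgroup.subset_closure hs) hn
    omega
  | succ c ih =>
    intro A hA h
    by_cases hn : S ⊆ A
    · exact base A hn _
    obtain ⟨s, hs, hn⟩ := Set.not_subset.1 hn
    have h1 : A ⊔ AddSubgroup.zmultiples s ≤ AddSubgroup.closure S :=
      sup_le hA (AddSubgroup.zmultiples_le.2 (AddSubgroup.subset_closure hs))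
    have : Finite (A ⊔ AddSubgroup.zmultiples s : AddSubgroup V) :=
      Finite.of_injective _ (AddSubgroup.inclusion_injective h1)
    have h2 := PZ_two_mul_card (le_sup_left : A ≤ A ⊔ AddSubgroup.zmultiples s)
      (AddSubgroup.mem_sup_right (AddSubgroup.mem_zmultiples s)) hn
    obtain ⟨h3, h4⟩ := ih _ h1 (h.trans_le (by
      rw [pow_succ, mul_assoc]
      exact Nat.mul_le_mul_left _ h2))
    rw [Fx_sup_zmultiples, inf_left_comm] at h3 h4
    have h5 : Fx H (AddSubgroup.closure S) ≤ St H s :=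
      fun g hg => hg s (AddSubgroup.subset_closure hs)
    have h6 := relIndex_inf_mul_relIndex (Fx H (AddSubgroup.closure S)) (St H s) (P ⊓ Fx H A)
    rw [inf_of_le_left h5] at h6
    have h7 : (St H s).relIndex (P ⊓ Fx H A) ≠ 0 :=
      fun e => (hS s hs).1 (relIndex_eq_zero_of_le_right inf_le_left e)
    have h8 : (St H s).relIndex (P ⊓ Fx H A) ≤ γ + 1 :=
      ((relIndex_le_of_le_right inf_le_left (hS s hs).1).trans (hS s hs).2).trans (Nat.le_succ _)
    rw [← h6, pow_succ]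
    exact ⟨mul_ne_zero h3 h7, Nat.mul_le_mul h4 h8⟩

/-- The generators of the ball spaces. -/
def WS (H : Type) {X : Type} (V : Type) [Group H] [MulAction H X] [AddCommGroup V]
    [DistribMulAction H V] (Γ : SimpleGraph X) (m : ℕ) (x : X) (j : ℕ) : Set V :=
  {v | ∃ w, Near Γ j x w ∧ v ∈ FV H V Γ w m}

/-- The ball spaces. -/
def WB (H : Type) {X : Type} (V : Type) [Group H] [MulAction H X] [AddCommGroup V]
    [DistribMulAction H V] (Γ : SimpleGraph X) (m : ℕ) (x : X) (j : ℕ) : AddSubgroup V :=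
  AddSubgroup.closure (WS H V Γ m x j)

theorem WB_near {m n : ℕ} {x y : X} (h : Near Γ n x y) {i j : ℕ} (hij : i + n ≤ j) :
    WB H V Γ m x i ≤ WB H V Γ m y j :=
  AddSubgroup.closure_mono fun _ ⟨w, h1, h2⟩ => ⟨w, (h.symm.trans h1).mono (by omega), h2⟩

theorem WB_le_FF (m : ℕ) (x : X) (j : ℕ) : WB H V Γ m x j ≤ FV H V Γ x (m + j) :=
  (AddSubgroup.closure_le _).2 fun _ ⟨_, h1, h2⟩ => FF_near h1.symm le_rfl h2

theorem FF_le_WB (m : ℕ) (x : X) (j : ℕ) : FV H V Γ x m ≤ WB H V Γ m x j :=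
  fun _ hv => AddSubgroup.subset_closure ⟨x, Near.refl _ _, hv⟩

theorem Ctx.WB_smul (c : Ctx H Γ) (g : H) {m : ℕ} {x : X} {j : ℕ} {v : V}
    (h : v ∈ WB H V Γ m x j) : g • v ∈ WB H V Γ m (g • x) j := by
  induction h using AddSubgroup.closure_induction with
  | mem v hv =>
    obtain ⟨w, h1, h2⟩ := hv
    exact AddSubgroup.subset_closure ⟨g • w, h1.smul c.adj g, c.FF_smul g h2⟩
  | zero => rw [smul_zero]; exact zero_mem _
  | add u v _ _ hu hv => rw [smul_add]; exact add_mem hu hv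
  | neg v _ hv => rw [smul_neg]; exact neg_mem hv

theorem Ctx.WB_St (c : Ctx H Γ) {g : H} {m : ℕ} {x : X} (hg : g ∈ St H x) {j : ℕ} {v : V}
    (h : v ∈ WB H V Γ m x j) : g • v ∈ WB H V Γ m x j := by
  have := c.WB_smul g h
  rwa [mem_St.1 hg] at this

namespace PD

variable (D : PD H V Γ d C)
include D

theorem WB_finite (m : ℕ) (x : X) (j : ℕ) : Finite (WB H V Γ m x j) :=
  have := D.FF_finite x (m + j)
  Finite.of_injective _ (AddSubgroup.inclusion_injective (WB_le_FF m x j))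

theorem WB_card (m : ℕ) : ∃ C₁, ∀ (x : X) j, Nat.card (WB H V Γ m x j) ≤ 2 ^ (C₁ * (j + 1)) := by
  obtain ⟨o, -⟩ := D.edge
  set n := (Kn H Γ m o).relIndex (St H o) with hn
  refine ⟨C * (n + d + 1), fun x j => ?_⟩
  have h1 : WB H V Γ m x j ≤ OO H V x (n + d * j) :=
    (AddSubgroup.closure_le _).2 fun _ ⟨w, h1, h2⟩ => D.OO_near h1 (D.FF_le_OO
      (by rw [D.Kn_idx_eq m w o]; exact Nat.lt_two_pow_self.le) h2)
  obtain ⟨h2, h3⟩ := D.L1 x (n + d * j)
  refine (AddSubgroup.card_le_of_le h1).trans (h3.trans (Nat.pow_le_pow_right two_pos ?_))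
  rw [mul_assoc]
  exact Nat.mul_le_mul_left _ (by nlinarith)

theorem deep_WB {m : ℕ} (hm : ∀ x, FV H V Γ x m ≠ ⊥) {x x' : X} (h : Γ.Adj x x') {g : H}
    (g1 : g • x = x) (g2 : g • x' = x') {i : ℕ} (g3 : g ∈ Fx H (WB H V Γ m x (i + 2))) :
    g ∈ Kn H Γ (i + 1) x := by
  by_contra h4
  obtain ⟨y, y', hy, h5, h6, h7, h8⟩ := PZ_boundary h g1 g2 h4
  obtain ⟨v, hv, h9⟩ := D.thick_gen h5 (A := WB H V Γ m y 0) (B := WB H V Γ m y' 1)
    (A' := WB H V Γ m y 2) (WB_near (Near.of_adj h5) le_rfl) (WB_near (Near.of_adj h5.symm) le_rfl)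
    (D.WB_finite _ _ _) (fun e => hm y' (eq_bot_iff.2 ((FF_le_WB m y' 1).trans e.le)))
    (fun _ ha _ hv => D.c.WB_St ha hv) (fun _ ha _ hv => D.c.WB_St ha hv)
    (fun _ ha _ hv => D.c.WB_St ha hv) h6 h7 h8
  rw [g3 v (WB_near hy.symm (by omega) hv), sub_self] at h9
  exact h9 (zero_mem _)

theorem orbit_WS {m j : ℕ} {x o : X} {P : Subgroup H} (hP : P ≤ Kn H Γ (j - 1) x) {s : V}
    (hs : s ∈ WS H V Γ m x (j + 1)) : (St H s).relIndex P ≠ 0 ∧
      (St H s).relIndex P ≤ (Kn H Γ m o).relIndex (St H o) * (d + 1) ^ 2 := by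
  obtain ⟨w, h1, h2⟩ := hs
  obtain ⟨z, h3, h4⟩ := PZ_split (h1.mono (by omega : j + 1 ≤ (j - 1) + 2))
  obtain ⟨h5, h6⟩ := D.St_idx h4 (P := P) fun g hg => mem_Kn_iff.1 (hP hg) z h3
  have h7 := relIndex_inf_mul_relIndex (Kn H Γ m w) (St H w) P
  rw [inf_of_le_left (Kn_le_St m w)] at h7
  have h8 : (Kn H Γ m w).relIndex P ≠ 0 := by
    rw [← h7]
    exact mul_ne_zero (D.Kn_idx' m w inf_le_left) h5
  refine ⟨fun e => h8 (relIndex_eq_zero_of_le_left h2 e), (relIndex_le_of_le_left h2 h8).trans ?_⟩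
  rw [← h7, D.Kn_idx_eq m o w]
  exact Nat.mul_le_mul (relIndex_le_of_le_right inf_le_left (D.Kn_idx m w)) h6

/-- Linear growth of the vertex stabiliser. -/
theorem L2 : ∃ C₂, ∀ (x : X) i, (Kn H Γ i x).relIndex (St H x) ≤ 2 ^ (C₂ * (i + 1)) := by
  obtain ⟨m, hm⟩ := D.exists_FF_ne
  have hm' : ∀ x, FV H V Γ x m ≠ ⊥ := fun x => hm x m le_rfl
  obtain ⟨C₁, hC⟩ := D.WB_card m
  obtain ⟨x, y, h⟩ := D.edge
  set γ := (Kn H Γ m x).relIndex (St H x) * (d + 1) ^ 2 with hγ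
  let T : ℕ → Subgroup H := fun j => (St H x ⊓ St H y) ⊓ Fx H (WB H V Γ m x j)
  let l : ℕ → ℕ := fun j => Nat.log 2 (Nat.card (WB H V Γ m x j))
  have hK : ∀ j, T j ≤ Kn H Γ (j - 1) x := by
    intro j g hg
    obtain _ | _ | j := j
    · exact hg.1.1
    · exact hg.1.1
    · exact D.deep_WB hm' h hg.1.1 hg.1.2 hg.2
  have hle : ∀ j, WB H V Γ m x j ≤ WB H V Γ m x (j + 1) := fun j =>
    WB_near (Near.refl 0 x) (by omega)
  have hT : ∀ j, (T j).relIndex (T 0) ≠ 0 ∧ (T j).relIndex (T 0) ≤ (γ + 1) ^ (l j + j) := by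
    intro j
    induction j with
    | zero => exact ⟨by simp, by simp [Nat.one_le_iff_ne_zero]⟩
    | succ j ih =>
      have := D.WB_finite m x j
      have i1 := D.WB_finite m x (j + 1)
      have h1 : l j ≤ l (j + 1) := Nat.log_mono_right (AddSubgroup.card_le_of_le (hle j))
      have h2 : Nat.card (WB H V Γ m x (j + 1)) <
          2 ^ (l (j + 1) - l j + 1) * Nat.card (WB H V Γ m x j) := by
        refine (Nat.lt_pow_succ_log_self one_lt_two _).trans_le ?_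
        refine le_trans ?_ (Nat.mul_le_mul_left _ (Nat.pow_log_le_self 2 Nat.card_pos.ne'))
        rw [← pow_add]
        exact Nat.pow_le_pow_right two_pos (by simp only [l] at h1 ⊢; omega)
      obtain ⟨h3, h4⟩ := @PZ_gen H V _ _ _ (T j) (WS H V Γ m x (j + 1)) γ i1
        (fun s hs => D.orbit_WS (hK j) hs) _ _ (hle j) h2
      have h5 : T j ⊓ Fx H (WB H V Γ m x j) = T j := inf_of_le_left inf_le_right
      have h6 : Fx H (WB H V Γ m x (j + 1)) ⊓ T j = T (j + 1) :=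
        le_antisymm (fun g hg => ⟨hg.2.1, hg.1⟩) fun g hg => ⟨hg.2, hg.1, Fx_anti (hle j) hg.2⟩
      have h7 : T j ≤ T 0 := fun g hg => ⟨hg.1, Fx_anti (WB_near (Near.refl 0 x) (by omega)) hg.2⟩
      have h8 := relIndex_inf_mul_relIndex (Fx H (WB H V Γ m x (j + 1))) (T j) (T 0)
      rw [h6, inf_of_le_left h7] at h8
      rw [h5] at h3 h4
      rw [← h8]
      refine ⟨mul_ne_zero h3 ih.1, (Nat.mul_le_mul h4 ih.2).trans ?_⟩
      rw [← pow_add]
      exact Nat.pow_le_pow_right (Nat.succ_pos _) (by omega)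
  have h0 : Kn H Γ (m + 1) x ≤ T 0 := fun g hg =>
    ⟨⟨Kn_le_St _ _ hg, Kn_le_St_adj m h hg⟩,
      fun v hv => WB_le_FF m x 0 hv g (Kn_succ_le m x hg)⟩
  set n := (Kn H Γ (m + 1) x).relIndex (St H x) with hn
  refine ⟨n + γ * (2 * C₁ + 1), fun z i => ?_⟩
  rw [D.Kn_idx_eq i z x]
  have h1 : (T 0).relIndex (St H x) ≠ 0 :=
    fun e => D.Kn_idx _ x (relIndex_eq_zero_of_le_left h0 e)
  have h2 : (T 0).relIndex (St H x) ≤ 2 ^ n :=
    (relIndex_le_of_le_left h0 (D.Kn_idx _ x)).trans Nat.lt_two_pow_self.le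
  have h3 : T (i + 1) ≤ T 0 :=
    fun g hg => ⟨hg.1, Fx_anti (WB_near (Near.refl 0 x) (by omega)) hg.2⟩
  have h4 := relIndex_mul_relIndex (T (i + 1)) (T 0) (St H x) h3 fun g hg => hg.1.1
  have h5 : l (i + 1) ≤ C₁ * (i + 1 + 1) := by
    have := Nat.log_mono_right (b := 2) (hC x (i + 1))
    rwa [Nat.log_pow one_lt_two] at this
  refine (relIndex_le_of_le_left (hK (i + 1)) (h4 ▸ mul_ne_zero (hT _).1 h1)).trans ?_
  rw [← h4]
  refine (Nat.mul_le_mul ((hT _).2.trans (Nat.pow_le_pow_left Nat.lt_two_pow_self _)) h2).trans ?_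
  rw [← pow_mul, ← pow_add]
  refine Nat.pow_le_pow_right two_pos ?_
  have h6 : γ * (l (i + 1) + (i + 1)) ≤ γ * ((2 * C₁ + 1) * (i + 1)) :=
    Nat.mul_le_mul_left _ (by nlinarith)
  nlinarith

/-- One constant for the growth of the stabiliser, of the fixed spaces and of the spaces `OO`. -/
theorem growth : ∃ C₂, 0 < C₂ ∧ (∀ (x : X) i, (Kn H Γ i x).relIndex (St H x) ≤ 2 ^ (C₂ * (i + 1))) ∧
    (∀ (x : X) i, Nat.card (FV H V Γ x i) ≤ 2 ^ (C₂ * (i + 1))) ∧
    ∀ (x : X) n, Nat.card (OO H V x n) ≤ 2 ^ (C₂ * (n + 1)) := by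
  obtain ⟨C₂, h⟩ := D.L2
  refine ⟨C₂ + C * (C₂ + 1) + 1, by omega, fun x i => (h x i).trans ?_, fun x i => ?_,
    fun x n => (D.L1 x n).2.trans ?_⟩
  · exact Nat.pow_le_pow_right two_pos (Nat.mul_le_mul_right _ (by omega))
  · obtain ⟨h1, h2⟩ := D.L1 x (C₂ * (i + 1))
    refine (AddSubgroup.card_le_of_le (D.FF_le_OO (h x i))).trans (h2.trans ?_)
    refine Nat.pow_le_pow_right two_pos ?_
    have : C * (C₂ * (i + 1) + 1) ≤ C * ((C₂ + 1) * (i + 1)) := Nat.mul_le_mul_left _ (by nlinarith)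
    nlinarith
  · exact Nat.pow_le_pow_right two_pos (Nat.mul_le_mul_right _ (by nlinarith))

end PD

end Pool.Agent.Lib.MP_bf45aa_co
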