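import Pool.Agent.Lib.MP_bf45aa_co.PS2c
import Pool.Agent.Lib.MP_bf45aa_co.PSeq13
import Pool.Agent.Lib.MP_bf45aa_co.PZL2

set_option autoImplicit false
set_option linter.unusedSectionVars false

/-! The exported facts of the scale calculus. -/

namespace Pool.Agent.Lib.MP_bf45aa_co

open Subgroup Filter
open scoped commutatorElement

variable {H X V : Type} [Group H] [MulAction H X] [AddCommGroup V] [DistribMulAction H V]
  {Γ : SimpleGraph X}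

theorem PD.gd {d C : ℕ} (D : PD H V Γ d C) : ∃ C₂, GD H Γ C₂ := by
  obtain ⟨C₂, h⟩ := D.L2
  refine ⟨C₂, D.c, D.edge, fun x i => ?_, fun x i => D.strict i x, fun x z hz => D.ulim _ x z hz⟩
  have := LI_iff.2 ⟨D.Kn_idx i x, h x i⟩
  push_cast at this
  exact this

theorem GD.exists_cls {C : ℕ} (G : GD H Γ C) : Nonempty (Cls H Γ) :=
  G.exists_cls_of G.noAbQ

/-- The final contradiction. -/
theorem PD.final {d C : ℕ} (D : PD H V Γ d C) (K : Cls H Γ) (ρ : ℕ) : ∃ κ : ℕ,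
    ∀ (n k : ℕ) (x y : X) (J N : Subgroup H) (s : Fin K.t) (g τ : H) (Y : AddSubgroup V),
      κ * (n + 1) ≤ k → J ≤ Kn H Γ 1 x → N ≤ Nm J → LI N (St H x) n →
      (∀ b, b ≠ s → K.M b ⊓ Kn H Γ n x ≤ J) → g ∈ J → K.σ g = 1 → Near Γ n x y →
      g ∈ Kn H Γ 1 y → τ ∈ K.M s → τ • y = y → ⁅g, τ⁆ ∉ Kn H Γ n y →
      Y ≤ OO H V x (ρ * k) → 2 ^ k ≤ Nat.card Y → (∀ j ∈ J, ∀ v ∈ Y, j • v = v) → False := by
  obtain ⟨C₂, G⟩ := D.gd
  exact D.final_of G G.noAbQ K (G.thmS_of G.noAbQ K) ρ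

end Pool.Agent.Lib.MP_bf45aa_co
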