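import Pool.Agent.Lib.MP_bf45aa_co.PKey
import Pool.Agent.Lib.MP_bf45aa_co.PSFin

set_option autoImplicit false
set_option linter.unusedSectionVars false

/-! Activity: the fixator of a path from a point to a wall has large index. -/

namespace Pool.Agent.Lib.MP_bf45aa_co

open Subgroup
open scoped commutatorElement

variable {H X V : Type} [Group H] [MulAction H X] [AddCommGroup V] [DistribMulAction H V]
  {Γ : SimpleGraph X} {d C : ℕ}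

theorem PD.activity (D : PD H V Γ d C) : ∃ A, ∀ Z, ∃ Y, Z ≤ Y ∧ Y ≤ 2 * Z ∧
    ∀ (x w w' : X) (a : H) (N : Subgroup H) (n : ℕ), Near Γ Y x w → a ∈ Kn H Γ Y x →
      Wall Γ w w' a → N ≤ St H x → LI N (St H w) n → Y ≤ A * (n + 1) := by
  obtain ⟨A, hA⟩ := D.S1lin
  obtain ⟨C₂, G⟩ := D.gd
  obtain ⟨K₀, h0⟩ := G.noAbQ
  obtain ⟨K₁, h1⟩ := G.dens0
  refine ⟨2 * A * (K₀ * (K₁ * (2 * C₂ + 1) + 2) + 1), fun Z => ?_⟩
  obtain ⟨Y, M, y1, y2, y3, y4⟩ := hA Z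
  refine ⟨Y, y1, y2, fun x w w' a N n hw ha hz hN hn => ?_⟩
  have h2 : N ≤ Nm (Kn H Γ Y x) := hN.trans (D.c.St_le_Nm_Kn Y x)
  have h3 := h0 w (K₁ * (n + 2 * C₂ + 1) + 1 + n) M (Kn H Γ Y x ⊓ Kn H Γ 1 w)
    ⟨w, N ⊓ St H w, Near.refl _ _, inf_le_right,
      fun g hg => Nm_inf (h2 hg.1) (D.c.St_le_Nm_Kn 1 w hg.2),
      hn.inf_right.mono (by exact_mod_cast Nat.le_add_left _ _)⟩
    (fun h => by
      have h4 := h1 w w' a (Kn H Γ Y x) N (K₁ * (n + 2 * C₂ + 1) + 1) n _ hz ha h2 hn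
        (((G.L2 w 1).right inf_le_right).left' fun g hg =>
          Kn_anti (Nat.le_add_right _ n) w (h ⟨hg.2.1, hg.1⟩))
      push_cast at h4
      linarith)
    fun g hg g' hg' => Kn_near_le hw (by omega) (y4 x g hg.1 g' hg'.1)
  have h5 : K₁ * (n + 2 * C₂ + 1) + 1 + n + 1 ≤ (K₁ * (2 * C₂ + 1) + 2) * (n + 1) := by
    nlinarith [Nat.zero_le (K₁ * C₂ * n)]
  have h6 := h3.trans (Nat.mul_le_mul_left K₀ h5)
  have h7 : M + 1 ≤ (K₀ * (K₁ * (2 * C₂ + 1) + 2) + 1) * (n + 1) := by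
    rw [add_mul, mul_assoc]
    omega
  have h8 := y3.trans (Nat.mul_le_mul_left A h7)
  rw [mul_assoc, mul_assoc]
  omega

end Pool.Agent.Lib.MP_bf45aa_co
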