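import Pool.Agent.Lib.MP_bf45aa_co.PS1
import Pool.Agent.Lib.MP_bf45aa_co.PZL2

set_option autoImplicit false
set_option linter.unusedSectionVars false

/-! The purified path and the big subspace: section 2 (b) of the proof. -/

namespace Pool.Agent.Lib.MP_bf45aa_co

open Subgroup Filter
open scoped commutatorElement

variable {H X V : Type} [Group H] [MulAction H X] [AddCommGroup V] [DistribMulAction H V]
  {Γ : SimpleGraph X}

/-- An infinite path all of whose turns are made by `M s`. -/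
structure PurP (K : Cls H Γ) (s : Fin K.t) (α : ℕ → X) : Prop where
  adj : ∀ i, Γ.Adj (α i) (α (i + 1))
  tau : ∀ c, ∃ τ ∈ K.M s, τ • α (c + 1) = α (c + 1) ∧ τ • α c = α (c + 2)

/-- The purified path `α`, the element `a` of depth `j` at `α j` for `j ≤ L` with a wall at `α 0`,
the group `E` and the rank of `a` on the fixed vectors of `E`. -/
structure Pur (V : Type) [AddCommGroup V] [DistribMulAction H V] (K : Cls H Γ) (s : Fin K.t)
    (n₀ L : ℕ) (α : ℕ → X) (a : H) (E : Subgroup H) : Prop where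
  adj : ∀ i, Γ.Adj (α i) (α (i + 1))
  tau : ∀ c, ∃ τ ∈ K.M s, τ • α (c + 1) = α (c + 1) ∧ τ • α c = α (c + 2)
  aM : a ∈ K.M s
  aK : ∀ j ≤ L, a ∈ Kn H Γ j (α j)
  wall : Wall Γ (α 0) (α 1) a
  eq : ∀ j, E = K.Cen s ⊓ Kn H Γ n₀ (α j) ⊓ Kn H Γ n₀ (α (j + 1))
  inv : ∀ (j : ℕ) (g : H), K.σ g s = s → g • α j = α j → g • α (j + 1) = α (j + 1) →
    ∀ v ∈ Cv V E, g • v ∈ Cv V E
  le : ∀ (j : ℕ) (b : Fin K.t), b ≠ s → K.M b ⊓ Kn H Γ (n₀ + 1) (α j) ≤ E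
  big : ∀ k, 2 ^ k ≤ Nat.card ((FV H V Γ (α 0) (n₀ + 2 * k) ⊓ Cv V E).map (dl V a))

theorem path_near {α : ℕ → X} (h : ∀ i, Γ.Adj (α i) (α (i + 1))) (i k : ℕ) :
    Near Γ k (α i) (α (i + k)) := by
  induction k with
  | zero => exact Near.refl _ _
  | succ k ih => exact ih.trans (Near.of_adj (h (i + k)))

theorem path_near' {α : ℕ → X} (h : ∀ i, Γ.Adj (α i) (α (i + 1))) {i j k : ℕ} (h1 : i ≤ j + k)
    (h2 : j ≤ i + k) : Near Γ k (α i) (α j) := by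
  rcases le_total i j with e | e
  · obtain ⟨l, rfl⟩ := Nat.exists_eq_add_of_le e
    exact (path_near h i l).mono (by omega)
  · obtain ⟨l, rfl⟩ := Nat.exists_eq_add_of_le e
    exact (path_near h j l).symm.mono (by omega)

/-- A non-trivial element of depth at least `L` has depth exactly `L` somewhere. -/
theorem Ctx.exact_depth (c : Ctx H Γ) {a : H} (h1 : a ≠ 1) {L : ℕ} {y : X} (h : a ∈ Kn H Γ L y) :
    ∃ x, a ∈ Kn H Γ L x ∧ a ∉ Kn H Γ (L + 1) x := by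
  by_contra hc
  push Not at hc
  have key : ∀ k x, a ∈ Kn H Γ L x → a ∈ Kn H Γ (L + k) x := by
    intro k
    induction k with
    | zero => exact fun _ hx => hx
    | succ k ih =>
      exact fun x hx => mem_Kn_succ.2 ⟨ih x hx, fun w hw => ih w (Kn_succ_le_adj L hw (hc x hx))⟩
  exact h1 (c.eq_one (x := y) fun n => Kn_anti (by omega) y (key n y h))

theorem exists_nbr_depth {a : H} {n : ℕ} {y : X} (h1 : a ∈ Kn H Γ (n + 1) y)
    (h2 : a ∉ Kn H Γ (n + 2) y) : ∃ w, Γ.Adj y w ∧ a ∉ Kn H Γ (n + 1) w := by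
  by_contra hc
  push Not at hc
  exact h2 (mem_Kn_succ.2 ⟨h1, hc⟩)

namespace Cls

variable (K : Cls H Γ)

theorem exists_depth (c : Ctx H Γ) (s : Fin K.t) (L : ℕ) (y : X) :
    ∃ a ∈ K.M s, ∃ x, a ∈ Kn H Γ L x ∧ a ∉ Kn H Γ (L + 1) x :=
  let ⟨a, h1, h2, h3⟩ := K.ne s L y; ⟨a, K.mem_M.2 h3, c.exact_depth h1 h2⟩

/-- An element of `M s` fixing `y` commutes with the elements of `Cen s` fixing the ball at `y`. -/
theorem comm1 (c : Ctx H Γ) {s : Fin K.t} {m g : H} (hm : m ∈ K.M s) (hg : g ∈ K.Cen s) {y : X}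
    (h1 : m • y = y) (h2 : g ∈ Kn H Γ 1 y) : m * g = g * m :=
  commutatorElement_eq_one_iff_mul_comm.1
    (K.comm_eq_one hm hg (comm_mem_right h2 (c.St_le_Nm_Kn 1 y h1)))

theorem comm2 (c : Ctx H Γ) {s : Fin K.t} {m g : H} (hm : m ∈ K.M s) (hg : g ∈ K.Cen s) {y : X}
    (h1 : m ∈ Kn H Γ 1 y) (h2 : g • y = y) : m * g = g * m :=
  commutatorElement_eq_one_iff_mul_comm.1
    (K.comm_eq_one hm hg (comm_mem_left h1 (c.St_le_Nm_Kn 1 y h2)))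

/-- Transitivity of `Cen s * M s` on the neighbours. -/
theorem trans (c : Ctx H Γ) (s : Fin K.t) {y x w : X} (hx : Γ.Adj y x) (hw : Γ.Adj y w) :
    ∃ τ₂ ∈ K.Cen s, ∃ τ₁ ∈ K.M s, τ₂ • y = y ∧ τ₁ • y = y ∧ τ₂ • τ₁ • x = w := by
  obtain ⟨a, a1, u, a2, a3⟩ := K.exists_depth c s 1 y
  obtain ⟨u', hu, a4⟩ := exists_nbr_depth a2 a3
  obtain ⟨h, e1, e2⟩ := c.arc hu.symm hx
  have hW : Wall Γ y x (h * a * h⁻¹) := by
    have := Wall.conj c (w := u') (w' := u) (z := a)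
      ⟨hu.symm, (mem_K1.1 a2).2 _ hu, (mem_K1.1 a2).1, a4⟩ h
    rwa [e1, e2] at this
  let N : Subgroup H := closure {g | g • y = y ∧ ∃ b, g ∈ K.M b}
  have n1 : N ≤ St H y := (closure_le _).2 fun _ hg => hg.1
  have n2 : St H y ≤ Nm N := by
    refine le_Nm_of_conj fun g hg z hz => ?_
    induction hz using closure_induction with
    | mem z hz =>
      obtain ⟨z1, b, z2⟩ := hz
      exact subset_closure ⟨mem_St.1 (mul_mem (mul_mem hg (mem_St.2 z1)) (inv_mem hg)), _,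
        K.M_conj g z2⟩
    | one => simp
    | mul u v _ _ hu hv => simpa [mul_assoc] using mul_mem hu hv
    | inv u _ hu => simpa [mul_assoc] using inv_mem hu
  have n3 : Tr Γ N y :=
    c.sp_tr n1 n2 hx (subset_closure ⟨hW.2.1, _, K.M_conj h a1⟩) hW.2.2.1 hW.2.2.2
  have n4 : N ≤ (K.Cen s ⊓ St H y) ⊔ (K.M s ⊓ St H y) := by
    refine (closure_le _).2 ?_
    rintro g ⟨g1, b, g2⟩
    by_cases e : s = b
    · subst e
      exact mem_sup_right ⟨g2, g1⟩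
    · exact mem_sup_left ⟨K.M_le_Cen e g2, g1⟩
  obtain ⟨g, g1, g2⟩ := n3 x w hx hw
  have n5 : K.Cen s ⊓ St H y ≤ Nm (K.M s ⊓ St H y) :=
    fun z hz => Nm_inf (K.Nm_M (K.fix z s hz.1)) (le_Nm_self _ hz.2)
  obtain ⟨τ₂, t2, τ₁, t1, rfl⟩ := mem_sup_of_left_Nm n5 (n4 g1)
  exact ⟨τ₂, t2.1, τ₁, t1.1, t2.2, t1.2, by rw [← mul_smul, g2]⟩

/-- Purification of the path. -/
theorem purify (c : Ctx H Γ) {s : Fin K.t} {a : H} (ha : a ∈ K.M s) (n : ℕ) :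
    ∀ (m : ℕ) (γ : ℕ → X), PurP K s γ → (∀ j ≤ m, a ∈ Kn H Γ (n + j) (γ j)) →
      a ∉ Kn H Γ (n + 1) (γ 0) → ∃ α : ℕ → X, PurP K s α ∧
        (∀ j ≤ n + m, a ∈ Kn H Γ j (α j)) ∧ a ∉ Kn H Γ 1 (α 0) := by
  induction n with
  | zero =>
    intro m γ h1 h2 h3
    exact ⟨γ, h1, fun j hj => by simpa using h2 j (by omega), h3⟩
  | succ n ih =>
    intro m γ h1 h2 h3
    have h0 : a ∈ Kn H Γ (n + 1) (γ 0) := h2 0 (Nat.zero_le _)
    obtain ⟨w, w1, w2⟩ := exists_nbr_depth h0 h3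
    obtain ⟨τ₂, t2, τ₁, t1, e2, e1, e⟩ := K.trans c s (h1.adj 0) w1
    have h4 : a * τ₂ = τ₂ * a := K.comm2 c ha t2 (Kn_anti (by omega) _ h0) e2
    have h5 : Γ.Adj (γ 0) (τ₁ • γ 1) := c.adj_St e1 (h1.adj 0)
    have h6 : a ∉ Kn H Γ (n + 1) (τ₁ • γ 1) := fun h => w2 (by
      have := c.Kn_conj τ₂ h
      rwa [e, ← h4, mul_inv_cancel_right] at this)
    obtain ⟨α, q1, q2, q3⟩ := ih (m + 1) (fun i => Nat.casesOn i (τ₁ • γ 1) γ)
      ⟨fun i => by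
        cases i with
        | zero => exact h5.symm
        | succ i => exact h1.adj i, fun i => by
        cases i with
        | zero => exact ⟨τ₁⁻¹, inv_mem t1, inv_smul_eq_iff.2 e1.symm, inv_smul_smul _ _⟩
        | succ i => exact h1.tau i⟩
      (fun j hj => by
        cases j with
        | zero => exact Kn_succ_le_adj n h5 h0
        | succ j =>
          rw [show n + (j + 1) = n + 1 + j by omega]
          exact h2 j (by omega)) h6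
    exact ⟨α, q1, fun j hj => q2 j (by omega), q3⟩

theorem exists_path (c : Ctx H Γ) (s : Fin K.t) {x₀ y₀ : X} (h : Γ.Adj x₀ y₀) (L : ℕ) :
    ∃ (α : ℕ → X) (a : H), PurP K s α ∧ a ∈ K.M s ∧ (∀ j ≤ L, a ∈ Kn H Γ j (α j)) ∧
      a ∉ Kn H Γ 1 (α 0) := by
  obtain ⟨a, a1, x, a2, a3⟩ := K.exists_depth c s L x₀
  obtain ⟨y, hy⟩ : ∃ y, Γ.Adj x y := by
    obtain ⟨w⟩ := c.conn x x₀
    cases w with
    | nil => exact ⟨y₀, h⟩
    | cons h1 _ => exact ⟨_, h1⟩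
  obtain ⟨α, q1, q2, q3⟩ := K.purify c a1 L 0 (fun i => if Even i then x else y)
    ⟨fun i => by
      by_cases e : Even i
      · simpa [e, Nat.even_add_one] using hy
      · simpa [e, Nat.even_add_one] using hy.symm,
     fun i => ⟨1, one_mem _, one_smul _ _, by simp [Nat.even_add]⟩⟩
    (fun j hj => by
      obtain rfl : j = 0 := by omega
      simpa using a2) (by simpa using a3)
  exact ⟨α, a, q1, a1, q2, q3⟩

/-- The centraliser group at an edge. -/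
def CE (s : Fin K.t) (n : ℕ) (x y : X) : Subgroup H := K.Cen s ⊓ Kn H Γ n x ⊓ Kn H Γ n y

theorem CE_symm (s : Fin K.t) (n : ℕ) (x y : X) : K.CE s n x y = K.CE s n y x :=
  inf_right_comm _ _ _

theorem CE_le (c : Ctx H Γ) {s : Fin K.t} {n : ℕ} (hn : 1 ≤ n) {x y : X} {τ : H} (h1 : τ ∈ K.M s)
    (h2 : τ • y = y) : K.CE s n x y ≤ K.CE s n (τ • x) y := fun g hg => by
  refine ⟨⟨hg.1.1, ?_⟩, hg.2⟩
  have := c.Kn_conj τ hg.1.2
  rwa [K.comm1 c h1 hg.1.1 h2 (Kn_anti hn y hg.2), mul_inv_cancel_right] at this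

theorem CE_eq (c : Ctx H Γ) {s : Fin K.t} {n : ℕ} (hn : 1 ≤ n) {x y : X} {τ : H} (h1 : τ ∈ K.M s)
    (h2 : τ • y = y) : K.CE s n x y = K.CE s n (τ • x) y := by
  refine le_antisymm (K.CE_le c hn h1 h2) ?_
  have := K.CE_le c hn (x := τ • x) (inv_mem h1) (inv_smul_eq_iff.2 h2.symm)
  rwa [inv_smul_smul] at this

theorem CE_path (c : Ctx H Γ) {s : Fin K.t} {n : ℕ} (hn : 1 ≤ n) {α : ℕ → X} (h : PurP K s α)
    (j : ℕ) : K.CE s n (α 0) (α 1) = K.CE s n (α j) (α (j + 1)) := by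
  induction j with
  | zero => rfl
  | succ j ih =>
    obtain ⟨τ, t1, t2, t3⟩ := h.tau j
    rw [ih, K.CE_eq c hn t1 t2, t3, CE_symm]

theorem CE_inv (c : Ctx H Γ) {s : Fin K.t} {n : ℕ} {x y : X} {g : H} (h0 : K.σ g s = s)
    (h1 : g • x = x) (h2 : g • y = y) {v : V} (hv : v ∈ Cv V (K.CE s n x y)) :
    g • v ∈ Cv V (K.CE s n x y) := by
  have h3 : g ∈ Nm (K.CE s n x y) :=
    Nm_inf (Nm_inf (K.Nm_Cen h0) (c.St_le_Nm_Kn n x h1)) (c.St_le_Nm_Kn n y h2)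
  have := smul_mem_Cv g hv
  rwa [mem_Nm_iff.1 h3] at this

theorem CE_invM (c : Ctx H Γ) {s : Fin K.t} {n : ℕ} (hn : 1 ≤ n) {x y : X} {g : H}
    (h0 : g ∈ K.M s) (h1 : g • y = y) {v : V} (hv : v ∈ Cv V (K.CE s n x y)) :
    g • v ∈ Cv V (K.CE s n x y) := fun z hz => by
  rw [← mul_smul, ← K.comm1 c h0 hz.1.1 h1 (Kn_anti hn y hz.2), mul_smul, hv z hz]

end Cls

/-- Thickness on the fixed vectors of the centraliser group. -/
theorem PD.thickV {d C : ℕ} (D : PD H V Γ d C) (K : Cls H Γ) {s : Fin K.t} {m₀ n m : ℕ}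
    (h0 : ∀ x, FV H V Γ x m₀ ≠ ⊥) (hn : m₀ + 2 ≤ n) (hm : n ≤ m) {x y : X} {a : H}
    (ha : a ∈ K.M s) (hW : Wall Γ x y a) :
    ∃ v ∈ FV H V Γ x (m + 2) ⊓ Cv V (K.CE s n x y), a • v - v ∉ FV H V Γ x m := by
  by_contra hc
  push Not at hc
  have c := D.c
  have h := hW.1
  have n1 : 1 ≤ n := by omega
  set V' := Cv V (K.CE s n x y) with hV
  have iy : ∀ g ∈ K.M s, g • y = y → ∀ v ∈ V', g • v ∈ V' := fun g g1 g2 v hv =>
    K.CE_invM c n1 g1 g2 hv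
  have ix : ∀ g ∈ K.M s, g • x = x → ∀ v ∈ V', g • v ∈ V' := fun g g1 g2 v hv => by
    rw [hV, K.CE_symm] at hv ⊢
    exact K.CE_invM c n1 g1 g2 hv
  set E := FV H V Γ y (m + 1) ⊓ V' with hE
  let T : Subgroup H := K.M s ⊓ (St H x ⊓ St H y) ⊓ Fx H E
  have Tx : T ≤ Kn H Γ 1 x := fun t ht =>
    D.deep h0 h ht.1.2.1 ht.1.2.2 (i := 0) fun v hv => ht.2 v
      ⟨FF_near (Near.of_adj h) (by omega) hv,
        Cv_anti (inf_le_left.trans inf_le_right) (FF_mono x (by omega) hv)⟩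
  have Ty : T ≤ Kn H Γ 1 y := fun t ht =>
    D.deep h0 h.symm ht.1.2.2 ht.1.2.1 (i := 0) fun v hv => ht.2 v
      ⟨FF_mono y (by omega) hv, Cv_anti inf_le_right (FF_mono y (by omega) hv)⟩
  have NC : ∀ z, T ≤ Kn H Γ 1 z → K.Cen s ⊓ St H z ≤ Nm T := fun z hz =>
    le_Nm_of_conj fun g hg t ht => by
      rwa [← K.comm2 c ht.1.1 hg.1 (hz ht) hg.2, mul_inv_cancel_right]
  have NM : ∀ z, T ≤ Kn H Γ 1 z → Kn H Γ 1 z ≤ St H x ⊓ St H y → ∀ U : Subgroup H,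
      U ≤ K.M s ⊓ St H z → (∀ g ∈ U, ∀ v ∈ E, g • v ∈ E) → U ≤ Nm T := fun z hz hz' U hU hU' =>
    le_Nm_of_conj fun g hg t ht => by
      refine ⟨⟨(K.M s).mul_mem ((K.M s).mul_mem (hU hg).1 ht.1.1) ((K.M s).inv_mem (hU hg).1),
        hz' (conj_mem_of_Nm (c.St_le_Nm_Kn 1 z (hU hg).2) (hz ht))⟩, fun v hv => ?_⟩
      rw [mul_smul, mul_smul, ht.2 _ (hU' _ (inv_mem hg) v hv), smul_inv_smul]
  have ty : Tr Γ (Nm T ⊓ St H y) y := fun u w hu hw => by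
    obtain ⟨τ₂, t2, τ₁, t1, e2, e1, e⟩ := K.trans c s hu hw
    refine ⟨τ₂ * τ₁, ⟨mul_mem (NC y Ty ⟨t2, e2⟩) (NM y Ty
      (le_inf (Kn_le_St_adj 0 h.symm) (Kn_le_St 1 y)) _ le_rfl ?_ ⟨t1, e1⟩),
      mul_mem (mem_St.2 e2) (mem_St.2 e1)⟩, by rw [mul_smul, e]⟩
    exact fun g hg v hv => ⟨c.FF_St hg.2 hv.1, iy g hg.1 hg.2 v hv.2⟩
  let S : Subgroup H :=
    { carrier := {g | g ∈ K.M s ⊓ St H x ∧
        ∀ v ∈ FV H V Γ x (m + 2) ⊓ V', g • v - v ∈ FV H V Γ x m}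
      one_mem' := ⟨one_mem _, fun v _ => by simp⟩
      mul_mem' := fun {a b} ha hb => ⟨mul_mem ha.1 hb.1, fun v hv => by
        have h3 := add_mem (c.FF_St ha.1.2 (hb.2 v hv)) (ha.2 v hv)
        rwa [smul_sub, sub_add_sub_cancel, ← mul_smul] at h3⟩
      inv_mem' := fun {a} ha => ⟨inv_mem ha.1, fun v hv => by
        have h3 := neg_mem (ha.2 _ ⟨c.FF_St ((St H x).inv_mem ha.1.2) hv.1,
          ix _ ((K.M s).inv_mem ha.1.1) ((St H x).inv_mem ha.1.2) v hv.2⟩)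
        rwa [smul_inv_smul, neg_sub] at h3⟩ }
  have SN : S ≤ Nm T := by
    refine NM x Tx (le_inf (Kn_le_St 1 x) (Kn_le_St_adj 0 h)) S (fun _ hg => hg.1)
      fun g hg v hv => ⟨?_, ix g hg.1.1 hg.1.2 v hv.2⟩
    have := add_mem (FF_adj h m (hg.2 v ⟨FF_adj h.symm (m + 1) hv.1, hv.2⟩)) hv.1
    rwa [sub_add_cancel] at this
  have Sc : ∀ u : H, K.σ u s = s → u • x = x → (∀ v ∈ V', u⁻¹ • v ∈ V') → ∀ g ∈ S,
      u * g * u⁻¹ ∈ S := fun u u1 u2 u3 g hg => by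
    have u4 : u ∈ St H x := u2
    refine ⟨⟨u1 ▸ K.M_conj u hg.1.1,
      (St H x).mul_mem ((St H x).mul_mem u4 hg.1.2) (inv_mem u4)⟩, fun v hv => ?_⟩
    have h3 := c.FF_St u4 (hg.2 _ ⟨c.FF_St (inv_mem u4) hv.1, u3 v hv.2⟩)
    rwa [smul_sub, smul_inv_smul, ← mul_smul, ← mul_smul] at h3
  have aS : a ∈ S := ⟨⟨ha, hW.2.1⟩, hc⟩
  have conjA : ∀ g ∈ St H x, g * a * g⁻¹ ∈ Nm T := fun g hg => by
    by_cases e : K.σ g s = s
    · obtain ⟨τ₂, t2, τ₁, t1, e2, e1, e0⟩ := K.trans c s h (c.adj_St hg h)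
      have s1 : K.σ τ₁ s = s := by rw [K.M_ker t1]; rfl
      have s2 : K.σ τ₂ s = s := K.fix _ _ t2
      have k1 : K.σ (g⁻¹ * (τ₂ * τ₁)) s = s := by
        rw [map_mul, map_mul, map_inv, Equiv.Perm.mul_apply, Equiv.Perm.mul_apply, s1, s2,
          Equiv.Perm.inv_eq_iff_eq, e]
      have k2 : (g⁻¹ * (τ₂ * τ₁)) • x = x := by
        rw [mul_smul, mul_smul, e1, e2, inv_smul_eq_iff, mem_St.1 hg]
      have k3 : (g⁻¹ * (τ₂ * τ₁)) • y = y := by rw [mul_smul, mul_smul, e0, inv_smul_smul]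
      have k4 := Sc (g⁻¹ * (τ₂ * τ₁))⁻¹ (by rw [map_inv, Equiv.Perm.inv_eq_iff_eq, k1])
        (inv_smul_eq_iff.2 k2.symm) (fun v hv => by rw [inv_inv]; exact K.CE_inv c k1 k2 k3 hv) a aS
      have k5 := Sc τ₁ s1 e1 (ix _ (inv_mem t1) (inv_smul_eq_iff.2 e1.symm)) _ k4
      have k6 : τ₂ ∈ Nm T := NC x Tx ⟨t2, e2⟩
      have k7 := mul_mem (mul_mem k6 (SN k5)) (inv_mem k6)
      convert k7 using 1
      group
    · exact NC x Tx ⟨K.M_le_Cen (Ne.symm e) (K.M_conj g ha),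
        (St H x).mul_mem (mul_mem hg (mem_St.2 hW.2.1)) (inv_mem hg)⟩
  have tx : Tr Γ (Nm T ⊓ St H x) x := by
    let N : Subgroup H := closure {z | ∃ g ∈ St H x, g * a * g⁻¹ = z}
    have n0 : N ≤ Nm T ⊓ St H x := by
      refine (closure_le _).2 ?_
      rintro _ ⟨g, hg, rfl⟩
      exact ⟨conjA g hg, (St H x).mul_mem (mul_mem hg (mem_St.2 hW.2.1)) (inv_mem hg)⟩
    have n2 : St H x ≤ Nm N := by
      refine le_Nm_of_conj fun g hg z hz => ?_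
      induction hz using closure_induction with
      | mem z hz =>
        obtain ⟨u, hu, rfl⟩ := hz
        exact subset_closure ⟨g * u, mul_mem hg hu, by group⟩
      | one => simp
      | mul u v _ _ hu hv => simpa [mul_assoc] using mul_mem hu hv
      | inv u _ hu => simpa [mul_assoc] using inv_mem hu
    exact (c.sp_tr (n0.trans inf_le_right) n2 h (subset_closure ⟨1, one_mem _, by simp⟩)
      hW.2.2.1 hW.2.2.2).mono n0
  have hT := c.L0 h (Tx.trans (Kn_le_St 1 x)) (Ty.trans (Kn_le_St 1 y)) tx ty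
  obtain ⟨g, g1, g2, g3⟩ := K.ne s (m + 1) y
  refine g1 (mem_bot.1 (hT ▸ (?_ : g ∈ T)))
  exact ⟨⟨K.mem_M.2 g3, Kn_le_St_adj m h.symm g2, Kn_le_St _ y g2⟩, fun v hv => hv.1 g g2⟩

theorem PD.exists_pur {d C : ℕ} (D : PD H V Γ d C) (K : Cls H Γ) (s : Fin K.t) :
    ∃ n₁, 1 ≤ n₁ ∧ ∀ n₀, n₁ ≤ n₀ → ∀ L, 1 ≤ L →
      ∃ (α : ℕ → X) (a : H) (E : Subgroup H), Pur V K s n₀ L α a E := by
  obtain ⟨m₀, hm⟩ := D.exists_FF_ne
  refine ⟨m₀ + 2, by omega, fun n₀ hn L hL => ?_⟩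
  obtain ⟨x₀, y₀, h⟩ := D.edge
  obtain ⟨α, a, q1, q2, q3, q4⟩ := K.exists_path D.c s h L
  have n1 : 1 ≤ n₀ := by omega
  have hW : Wall Γ (α 0) (α 1) a := ⟨q1.adj 0, q3 0 (by omega), Kn_le_St 1 _ (q3 1 hL), q4⟩
  have e := K.CE_path D.c n1 q1
  refine ⟨α, a, K.CE s n₀ (α 0) (α 1), q1.adj, q1.tau, q2, q3, hW, e, fun j g g0 g1 g2 v hv => ?_,
    fun j b hb g hg => ?_, fun k => ?_⟩
  · rw [e j] at hv ⊢
    exact K.CE_inv D.c g0 g1 g2 hv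
  · rw [e j]
    exact ⟨⟨K.M_le_Cen hb.symm hg.1, Kn_succ_le _ _ hg.2⟩, Kn_succ_le_adj _ (q1.adj j) hg.2⟩
  · have iv : ∀ v ∈ Cv V (K.CE s n₀ (α 0) (α 1)), a • v - v ∈ Cv V (K.CE s n₀ (α 0) (α 1)) :=
      fun v hv => sub_mem (K.CE_invM D.c n1 q2 hW.2.2.1 hv) hv
    refine PZ_chain (dl V a) (fun i => FV H V Γ (α 0) (n₀ + 2 * i) ⊓ Cv V (K.CE s n₀ (α 0) (α 1)))
      (fun i => ?_) (fun _ => inf_le_inf_right _ (FF_mono _ (by omega)))
      (fun _ v hv => ⟨AddSubgroup.sub_mem _ (D.c.FF_St hW.2.1 hv.1) hv.1, iv v hv.2⟩) k fun i _ => ?_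
    · have := D.FF_finite (α 0) (n₀ + 2 * i)
      exact Finite.of_injective _ (AddSubgroup.inclusion_injective inf_le_left)
    · obtain ⟨v, v1, v2⟩ := D.thickV K (fun x => hm x m₀ le_rfl) hn
        (m := n₀ + 2 * i) (by omega) q2 hW
      exact ⟨v, v1, fun e => v2 e.1⟩

end Pool.Agent.Lib.MP_bf45aa_co
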