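import Mathlib

set_option autoImplicit false

/-! Logarithmic sizes of commensurable subgroups. -/

namespace Pool.Agent.Lib.MP_bf45aa_co

open Subgroup

variable {H : Type*} [Group H] {Ω A A' B N : Subgroup H}

/-- The logarithmic size of `A` relative to `Ω`. -/
noncomputable def PWsz (Ω A : Subgroup H) : ℝ :=
  Real.logb 2 (Ω.relIndex A) - Real.logb 2 (A.relIndex Ω)

theorem PWin2_rel (hA : Commensurable A Ω) (hB : Commensurable B Ω) : A.relIndex B ≠ 0 :=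
  (hA.trans hB.symm).1

theorem PWin2_inf (hA : Commensurable A Ω) (h : B.relIndex A ≠ 0) : Commensurable (A ⊓ B) Ω := by
  refine Commensurable.trans ⟨?_, ?_⟩ hA
  · rwa [inf_relIndex_left]
  · rw [relIndex_eq_one.2 inf_le_left]
    exact one_ne_zero

theorem PWin2_mid (hA : Commensurable A Ω) (hB : Commensurable B Ω) (h1 : A ≤ N) :
    Commensurable (N ⊓ B) Ω := by
  rw [inf_comm]
  exact PWin2_inf hB fun h => PWin2_rel hA hB (relIndex_eq_zero_of_le_left h1 h)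

theorem PWin2_log {a b c : ℕ} (h : a * b = c) (hc : c ≠ 0) :
    Real.logb 2 (a : ℝ) + Real.logb 2 (b : ℝ) = Real.logb 2 (c : ℝ) := by
  subst h
  rw [Nat.cast_mul, Real.logb_mul (by exact_mod_cast left_ne_zero_of_mul hc)
    (by exact_mod_cast right_ne_zero_of_mul hc)]

theorem PWin2_sub (hA : Commensurable A Ω) (hB : Commensurable B Ω) (h : A ≤ B) :
    PWsz Ω B - PWsz Ω A = Real.logb 2 (A.relIndex B) := by
  have h0 : (A ⊓ Ω).relIndex B ≠ 0 := relIndex_inf_ne_zero (PWin2_rel hA hB) hB.2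
  have h1 := relIndex_inf_mul_relIndex Ω A B
  have h2 := PWin2_log (relIndex_inf_mul_relIndex A Ω B) h0
  have h3 := relIndex_inf_mul_relIndex A B Ω
  rw [inf_of_le_left h] at h1 h3
  rw [inf_comm Ω A] at h1
  rw [inf_comm B Ω] at h3
  have h4 := PWin2_log h1 h0
  have h5 := PWin2_log h3 hA.1
  rw [PWsz, PWsz]
  linarith

theorem PWin2_log_le {a n : ℕ} (ha : a ≠ 0) : Real.logb 2 (a : ℝ) ≤ n ↔ a ≤ 2 ^ n := by
  rw [Real.logb_le_iff_le_rpow one_lt_two (by exact_mod_cast Nat.pos_of_ne_zero ha),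
    Real.rpow_natCast]
  exact_mod_cast Iff.rfl

theorem PWin2_log_mono {a b : ℕ} (ha : a ≠ 0) (h : a ≤ b) :
    Real.logb 2 (a : ℝ) ≤ Real.logb 2 (b : ℝ) :=
  Real.logb_le_logb_of_le one_lt_two (by exact_mod_cast Nat.pos_of_ne_zero ha) (by exact_mod_cast h)

theorem PWin2_log_nonneg {a : ℕ} (ha : a ≠ 0) : 0 ≤ Real.logb 2 (a : ℝ) :=
  Real.logb_nonneg one_lt_two (by exact_mod_cast Nat.pos_of_ne_zero ha)

theorem PWin2_mono (hA : Commensurable A Ω) (hB : Commensurable B Ω) (h : A ≤ B) :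
    PWsz Ω A ≤ PWsz Ω B := by
  have h1 := PWin2_sub hA hB h
  have h2 := PWin2_log_nonneg (PWin2_rel hA hB)
  linarith

theorem PWin2_cut (hA : Commensurable A Ω) (h : B.relIndex A ≠ 0) :
    PWsz Ω A - PWsz Ω (A ⊓ B) = Real.logb 2 (B.relIndex A) := by
  rw [PWin2_sub (PWin2_inf hA h) hA inf_le_left, inf_relIndex_left]

theorem PWin2_ne (h : A ≤ A') (hB : B.relIndex A' ≠ 0) : B.relIndex A ≠ 0 :=
  fun e => hB (relIndex_eq_zero_of_le_right h e)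

theorem PWin2_cut_le (hA : Commensurable A Ω) (h : A ≤ A') {n : ℕ}
    (hB : B.relIndex A' ≠ 0 ∧ B.relIndex A' ≤ 2 ^ n) : PWsz Ω A - PWsz Ω (A ⊓ B) ≤ n := by
  rw [PWin2_cut hA (PWin2_ne h hB.1), PWin2_log_le (PWin2_ne h hB.1)]
  exact (relIndex_le_of_le_right h hB.1).trans hB.2

theorem PWin2_anti (hA : Commensurable A Ω) (hA' : Commensurable A' Ω) (h : A ≤ A')
    (hB : B.relIndex A' ≠ 0) : PWsz Ω A - PWsz Ω (A ⊓ B) ≤ PWsz Ω A' - PWsz Ω (A' ⊓ B) := by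
  rw [PWin2_cut hA (PWin2_ne h hB), PWin2_cut hA' hB]
  exact PWin2_log_mono (PWin2_ne h hB) (relIndex_le_of_le_right h hB)

theorem PWin2_super (hA : Commensurable A Ω) (hB : Commensurable B Ω) (hN : Commensurable N Ω)
    (h1 : A ≤ N) (h2 : B ≤ N) : PWsz Ω A + PWsz Ω B ≤ PWsz Ω (A ⊓ B) + PWsz Ω N := by
  have h3 := PWin2_anti hA hN h1 (PWin2_rel hB hN)
  rw [inf_of_le_right h2] at h3
  linarith

/-- Tidiness: a group containing `O = A ⊓ A'`, `A ⊓ B` and `A' ⊓ B'` is large in `W ≥ A, A'`. -/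
theorem PWin2_tidy {W B' : Subgroup H} (hA : Commensurable A Ω) (hA' : Commensurable A' Ω)
    (hW : Commensurable W Ω) (h1 : A ≤ W) (h2 : A' ≤ W) (hB : B.relIndex A ≠ 0)
    (hB' : B'.relIndex A' ≠ 0) (n0 : A ⊓ A' ≤ N) (n1 : A ⊓ B ≤ N) (n2 : A' ⊓ B' ≤ N) :
    PWsz Ω W - PWsz Ω (N ⊓ W) ≤ (PWsz Ω W - PWsz Ω A' - PWsz Ω A + PWsz Ω (A ⊓ A')) +
      ((PWsz Ω A - PWsz Ω (A ⊓ B)) - (PWsz Ω (A ⊓ A') - PWsz Ω (A ⊓ A' ⊓ B))) +
      ((PWsz Ω A' - PWsz Ω (A' ⊓ B')) - (PWsz Ω (A ⊓ A') - PWsz Ω (A ⊓ A' ⊓ B'))) := by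
  have hO := PWin2_inf hA (PWin2_rel hA' hA)
  have e1 := PWin2_super hO (PWin2_inf hA hB) (PWin2_mid hO hA n0) (le_inf n0 inf_le_left)
    (le_inf n1 inf_le_left)
  have e2 := PWin2_super hO (PWin2_inf hA' hB') (PWin2_mid hO hA' n0) (le_inf n0 inf_le_right)
    (le_inf n2 inf_le_left)
  have e3 := PWin2_super (PWin2_mid hO hA n0) (PWin2_mid hO hA' n0) (PWin2_mid hO hW n0)
    (inf_le_inf_left _ h1) (inf_le_inf_left _ h2)
  rw [← inf_assoc, inf_of_le_left (inf_le_left : A ⊓ A' ≤ A)] at e1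
  rw [← inf_assoc, inf_of_le_left (inf_le_right : A ⊓ A' ≤ A')] at e2
  rw [← inf_inf_distrib_left, inf_of_le_right n0] at e3
  linarith

end Pool.Agent.Lib.MP_bf45aa_co
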