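import Pool.Agent.Lib.MP_bf45aa_co.PWin1
import Pool.Agent.Lib.MP_bf45aa_co.PWin2

set_option autoImplicit false

/-! Window selection along a path: section 2 (d), (e) of the proof, definition free. -/

namespace Pool.Agent.Lib.MP_bf45aa_co

open Subgroup

variable {H : Type*} [Group H]

/-- The intersection of the groups `Q i`, `a ≤ i ≤ c`. -/
def PW (Q : ℕ → Subgroup H) (a c : ℕ) : Subgroup H := ⨅ i, ⨅ (_ : a ≤ i ∧ i ≤ c), Q i

theorem mem_PW {Q : ℕ → Subgroup H} {a c : ℕ} {g : H} :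
    g ∈ PW Q a c ↔ ∀ i, a ≤ i → i ≤ c → g ∈ Q i := by
  simp [PW, mem_iInf]

/-- Cells `Q i` (think `H⁰ ⊓ K_{n₀}(α i)`) and balls `B r i` (think `K_r(α i)`) along an active
path of length `X`. -/
structure Win (C A X : ℕ) (Q : ℕ → Subgroup H) (B : ℕ → ℕ → Subgroup H) : Prop where
  up : ∀ i < X, (Q (i + 1)).relIndex (Q i) ≠ 0 ∧ (Q (i + 1)).relIndex (Q i) ≤ 2 ^ C
  down : ∀ i < X, (Q i).relIndex (Q (i + 1)) ≠ 0 ∧ (Q i).relIndex (Q (i + 1)) ≤ 2 ^ C
  ball : ∀ r, ∀ i ≤ X, (B r i).relIndex (Q i) ≠ 0 ∧ (B r i).relIndex (Q i) ≤ 2 ^ (C * (r + 1))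
  act : ∀ n, (PW Q 0 X).relIndex (Q 0) ≤ 2 ^ n → X ≤ A * (n + 1)

/-- The output of the selection. `τ i` is `|H_x : K_i| * |F^i|`, `D n i` is `|O^n ⊓ F^i|`. -/
def WinOut (C C1 w q k0 X : ℕ) (τ : ℕ → ℕ) (D : ℕ → ℕ → ℕ) (Q : ℕ → Subgroup H)
    (B : ℕ → ℕ → Subgroup H) : Prop :=
  ∃ m k j t r : ℕ, k0 ≤ m ∧ 1 ≤ m ∧ q * m ≤ k ∧ 2 * m ≤ t ∧ t ≤ j ∧ j + t ≤ X ∧
    (∀ i, i = j - t ∨ i = j ∨ i = j + t → τ (i + w * k) ≤ 2 ^ (C1 * k) * τ i) ∧
    D (C1 * k) (X + w * k) ≤ 2 ^ k * D (C1 * k) r ∧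
    (∀ N : Subgroup H, PW Q (j - t) (j + t) ≤ N → PW Q (j - t) (j + m) ⊓ B r (j - t) ≤ N →
      PW Q (j - m) (j + t) ⊓ B r (j + t) ≤ N →
      (N ⊓ PW Q (j - m) (j + m)).relIndex (Q j) ≠ 0 ∧
      (N ⊓ PW Q (j - m) (j + m)).relIndex (Q j) ≤ 2 ^ ((2 * C + 1) * m)) ∧
    ∃ c, j + m ≤ c ∧ c < j + 2 * m ∧ ∃ g ∈ PW Q (j - t) c ⊓ B r (j - t), g ∉ Q (c + 1)

theorem PW_anti (Q : ℕ → Subgroup H) {a a' c c' : ℕ} (ha : a' ≤ a) (hc : c ≤ c') :
    PW Q a' c' ≤ PW Q a c := fun _ hg =>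
  mem_PW.2 fun i h1 h2 => mem_PW.1 hg i (ha.trans h1) (h2.trans hc)

theorem PW_le (Q : ℕ → Subgroup H) {a c i : ℕ} (ha : a ≤ i) (hc : i ≤ c) : PW Q a c ≤ Q i :=
  fun _ hg => mem_PW.1 hg i ha hc

theorem PW_self (Q : ℕ → Subgroup H) (a : ℕ) : PW Q a a = Q a :=
  le_antisymm (PW_le Q le_rfl le_rfl) fun _ hg =>
    mem_PW.2 fun _ h1 h2 => le_antisymm h1 h2 ▸ hg

theorem PW_inf (Q : ℕ → Subgroup H) {a a' c c' : ℕ} (ha : a ≤ a') (h : a' ≤ c + 1) (hc : c ≤ c') :
    PW Q a c ⊓ PW Q a' c' = PW Q a c' := by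
  refine le_antisymm (fun g hg => mem_PW.2 fun i h1 h2 => ?_)
    (le_inf (PW_anti Q le_rfl hc) (PW_anti Q ha le_rfl))
  by_cases hi : i ≤ c
  · exact mem_PW.1 hg.1 i h1 hi
  · exact mem_PW.1 hg.2 i (by omega) h2

theorem PW_succ (Q : ℕ → Subgroup H) {a c : ℕ} (h : a ≤ c + 1) :
    PW Q a (c + 1) = PW Q a c ⊓ Q (c + 1) := by
  rw [← PW_inf Q h le_rfl (Nat.le_succ c), PW_self]

theorem PW_pred (Q : ℕ → Subgroup H) {a c : ℕ} (h : a ≤ c) :
    PW Q a c = PW Q (a + 1) c ⊓ Q a := by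
  rw [← PW_inf Q (Nat.le_succ a) le_rfl h, PW_self, inf_comm]

theorem PW_congr {Q Q' : ℕ → Subgroup H} {X : ℕ} (h : ∀ i ≤ X, Q' i = Q i) (a : ℕ) {c : ℕ}
    (hc : c ≤ X) : PW Q' a c = PW Q a c := by
  ext g
  rw [mem_PW, mem_PW]
  exact forall_congr' fun i => forall_congr' fun _ => forall_congr' fun hi => by
    rw [h i (hi.trans hc)]

/-- The selection for given scales. -/
theorem win_core {C D X N U T K : ℕ} (Q : ℕ → Subgroup H) (B : ℕ → ℕ → Subgroup H) (τ m : ℕ → ℕ)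
    (up : ∀ i, (Q (i + 1)).relIndex (Q i) ≠ 0 ∧ (Q (i + 1)).relIndex (Q i) ≤ 2 ^ C)
    (down : ∀ i, (Q i).relIndex (Q (i + 1)) ≠ 0 ∧ (Q i).relIndex (Q (i + 1)) ≤ 2 ^ C)
    (ball : ∀ r i, (B r i).relIndex (Q i) ≠ 0 ∧ (B r i).relIndex (Q i) ≤ 2 ^ (C * (r + 1)))
    (τ0 : ∀ i, 0 < τ i) (τm : Monotone τ) (τle : ∀ i, τ i ≤ 2 ^ (C * (i + 1)))
    (act : (X : ℝ) ≤ D * Real.logb 2 ((PW Q 0 X).relIndex (Q 0))) (hD : 0 < D) (hT : 2 ≤ T)
    (hK : 0 < K) (hU : 16 * C * D * (C + 1) * (T + 1) < U) (hN : 8 * D * (C + 1) * C * (2 ^ U * T) < N)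
    (m0 : ∀ n, 0 < m n) (m1 : ∀ n < N, 2 ^ U * T * m n ≤ m (n + 1))
    (m2 : ∀ n ≤ N, (6 * D * C + 3 + K) * m n ≤ X) :
    ∃ n < N, ∃ t j, 2 * m n ≤ t ∧ t ≤ j ∧ j + t < X ∧
      (∀ i, i = j - t ∨ i = j ∨ i = j + t →
        τ (i + K * m n) ≤ 2 ^ ((24 * C * C * D + 1) * K * m n) * τ i) ∧
      (∀ M : Subgroup H, PW Q (j - t) (j + t) ≤ M → PW Q (j - t) (j + m n) ⊓ B (T * m n) (j - t) ≤ M →
        PW Q (j - m n) (j + t) ⊓ B (T * m n) (j + t) ≤ M →
        (M ⊓ PW Q (j - m n) (j + m n)).relIndex (Q j) ≠ 0 ∧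
        (M ⊓ PW Q (j - m n) (j + m n)).relIndex (Q j) ≤ 2 ^ ((2 * C + 1) * m n)) ∧
      ∃ c, j + m n ≤ c ∧ c < j + 2 * m n ∧
        ∃ g ∈ PW Q (j - t) c ⊓ B (T * m n) (j - t), g ∉ Q (c + 1) := by
  have cQ : ∀ i, Commensurable (Q i) (Q 0) := fun i => by
    induction i with
    | zero => exact Commensurable.refl _
    | succ i ih => exact Commensurable.trans ⟨(up i).1, (down i).1⟩ ih
  have cP : ∀ a c, a ≤ c → Commensurable (PW Q a c) (Q 0) := fun a c h => by
    induction c, h using Nat.le_induction with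
    | base => rw [PW_self]; exact cQ a
    | succ c hc ih => rw [PW_succ Q (by omega)]; exact PWin2_inf ih (PWin2_rel (cQ _) ih)
  have hB : ∀ r i a c, a ≤ i → i ≤ c → (B r i).relIndex (PW Q a c) ≠ 0 :=
    fun r i a c h1 h2 => PWin2_ne (PW_le Q h1 h2) (ball r i).1
  have hp : PWinP (fun a c => PWsz (Q 0) (PW Q a c)) C := by
    refine ⟨fun a c h => PWin2_mono (cP _ _ (by omega)) (cP _ _ h) (PW_anti Q le_rfl (by omega)),
      fun a c h => ?_, fun a a' c h h' => ?_⟩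
    · rw [PW_succ Q (by omega)]
      exact PWin2_cut_le (cP _ _ h) (PW_le Q h le_rfl) (up c)
    · rw [PW_succ Q (show a ≤ c + 1 by omega), PW_succ Q (show a' ≤ c + 1 by omega)]
      exact PWin2_anti (cP _ _ (by omega)) (cP _ _ h') (PW_anti Q h le_rfl)
        (PWin2_rel (cQ _) (cP _ _ h'))
  have l1 : ∀ i, Real.logb 2 (τ i : ℝ) ≤ C * ((i : ℝ) + 1) := fun i => by
    have := (PWin2_log_le (τ0 i).ne').2 (τle i)
    push_cast at this
    exact this
  have l2 : Monotone fun i => Real.logb 2 (τ i : ℝ) := fun i j h => PWin2_log_mono (τ0 i).ne' (τm h)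
  obtain ⟨n, hn, t, j, h1, h2, h3, h4, I, hI, h5, h6⟩ := PWin1_num (C := C) (D := D) hp
    (Nat.cast_nonneg C) (by exact_mod_cast hD)
    (fun r b l => PWsz (Q 0) (PW Q b (b + l)) - PWsz (Q 0) (PW Q b (b + l) ⊓ B r b))
    (fun r b l => PWsz (Q 0) (PW Q (b - l) b) - PWsz (Q 0) (PW Q (b - l) b ⊓ B r b))
    (fun i => Real.logb 2 (τ i : ℝ)) (X := X) (N := N) (U := U) (T := T) (K := K) m
    (fun r b l => sub_nonneg.2 (PWin2_mono (PWin2_inf (cP _ _ (by omega)) (hB _ _ _ _ le_rfl (by omega)))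
      (cP _ _ (by omega)) inf_le_left))
    (fun r b l => by
      have := PWin2_cut_le (cP b (b + l) (by omega)) (PW_le Q le_rfl (by omega)) (ball r b)
      push_cast at this
      exact this)
    (fun r b l l' h => PWin2_anti (cP _ _ (by omega)) (cP _ _ (by omega)) (PW_anti Q le_rfl (by omega))
      (hB _ _ _ _ le_rfl (by omega)))
    (fun r b l => sub_nonneg.2 (PWin2_mono (PWin2_inf (cP _ _ (by omega)) (hB _ _ _ _ (by omega) le_rfl))
      (cP _ _ (by omega)) inf_le_left))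
    (fun r b l => by
      have := PWin2_cut_le (cP (b - l) b (by omega)) (PW_le Q (by omega) le_rfl) (ball r b)
      push_cast at this
      exact this)
    (fun r b l l' h => PWin2_anti (cP _ _ (by omega)) (cP _ _ (by omega)) (PW_anti Q (by omega) le_rfl)
      (hB _ _ _ _ (by omega) le_rfl))
    (fun i => PWin2_log_nonneg (τ0 i).ne') l1 l2
    (by
      rw [PWin2_sub (cP 0 X (Nat.zero_le _)) (cP 0 0 le_rfl) (PW_anti Q le_rfl (Nat.zero_le _)), PW_self]
      exact act)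
    hT hK (by omega) (by omega) (by exact_mod_cast hU.le) (by exact_mod_cast hN.le) m0 m1
    (fun n hn => by
      exact_mod_cast (Nat.mul_le_mul_right _ (by omega)).trans (m2 n hn))
    (fun n hn => by
      have := (Nat.mul_le_mul_right _ (show 3 ≤ 6 * D * C + 3 + K by omega)).trans (m2 n hn)
      have := m0 n
      omega)
    fun n hn => (Nat.mul_le_mul_right _ (by omega)).trans (m2 n hn)
  refine ⟨n, hn, t, j, h1, h2, h3, ?_⟩
  generalize m n = a at h1 h4 hI h5 h6 ⊢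
  generalize T * a = r at hI ⊢
  rw [show j - t + t = j by omega, show j - t + 2 * t = j + t by omega, show j + t - t = j by omega,
    show j + t - 2 * t = j - t by omega] at hI
  have cA := cP (j - t) (j + a) (by omega)
  have cA' := cP (j - a) (j + t) (by omega)
  have cW := cP (j - a) (j + a) (by omega)
  have cO := cP (j - t) (j + t) (by omega)
  have i2 := PWin2_anti cA (cP (j - t) j (by omega)) (PW_anti Q le_rfl (by omega))
    (hB r (j - t) _ _ le_rfl (by omega))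
  have i3 := PWin2_anti cA' (cP j (j + t) (by omega)) (PW_anti Q (by omega) le_rfl)
    (hB r (j + t) _ _ (by omega) le_rfl)
  have eO := PW_inf Q (show j - t ≤ j - a by omega) (show j - a ≤ j + a + 1 by omega)
    (show j + a ≤ j + t by omega)
  refine ⟨fun i hi => ?_, fun M n0 n1 n2 => ?_, ?_⟩
  · have e0 := l2 (Nat.le_add_right j (K * a))
    have e1 := l2 (Nat.le_add_right (j - t) (K * a))
    have e2 := l2 (Nat.le_add_right (j + t) (K * a))
    have e3 : Real.logb 2 (τ (i + K * a) : ℝ) - Real.logb 2 (τ i : ℝ) ≤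
        (24 * C * C * D + 1) * K * a := by
      beta_reduce at e0 e1 e2
      rcases hi with rfl | rfl | rfl <;> linarith
    have e4 := PWin2_log (a := 2 ^ ((24 * C * C * D + 1) * K * a)) (b := τ i) rfl
      (Nat.mul_pos (Nat.pow_pos two_pos) (τ0 i)).ne'
    rw [Nat.cast_pow, Real.logb_pow, Nat.cast_ofNat, Real.logb_self_eq_one one_lt_two] at e4
    have e5 : Real.logb 2 (τ (i + K * a) : ℝ) ≤
        Real.logb 2 ((2 ^ ((24 * C * C * D + 1) * K * a) * τ i : ℕ) : ℝ) := by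
      rw [← e4]
      push_cast
      linarith
    rw [Real.logb_le_logb one_lt_two (by exact_mod_cast τ0 _)
      (by exact_mod_cast Nat.mul_pos (Nat.pow_pos two_pos) (τ0 i))] at e5
    exact_mod_cast e5
  · have e0 := PWin2_tidy cA cA' cW (PW_anti Q (by omega) le_rfl) (PW_anti Q le_rfl (by omega))
      (hB r (j - t) _ _ le_rfl (by omega)) (hB r (j + t) _ _ (by omega) le_rfl) (eO ▸ n0) n1 n2
    rw [eO] at e0
    have e1 : ∀ i ≤ a, PWsz (Q 0) (Q j) - PWsz (Q 0) (PW Q (j - i) (j + i)) ≤ 2 * C * i := by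
      intro i hi
      induction i with
      | zero => simp [PW_self]
      | succ i ih =>
        have f0 := ih (by omega)
        have f1 := hp.step (j - i) (j + i) (by omega)
        have f2 := PWin2_cut_le (cP (j - (i + 1) + 1) (j + (i + 1)) (by omega))
          (PW_le Q le_rfl (by omega)) (down (j - (i + 1)))
        rw [← PW_pred Q (by omega), show j - (i + 1) + 1 = j - i by omega] at f2
        rw [add_assoc] at f1
        push_cast
        linarith
    have cM := PWin2_mid cO cW n0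
    have e2 := PWin2_sub cM (cQ j) (inf_le_right.trans (PW_le Q (by omega) (by omega)))
    have e3 := e1 a le_rfl
    refine ⟨PWin2_rel cM (cQ j), (PWin2_log_le (PWin2_rel cM (cQ j))).1 ?_⟩
    push_cast
    linarith
  · by_contra hc
    push Not at hc
    have e0 : ∀ i ≤ a, PW Q (j - t) (j + a) ⊓ B r (j - t) ≤ PW Q (j - t) (j + a + i) := by
      intro i hi
      induction i with
      | zero => exact inf_le_left
      | succ i ih =>
        rw [← add_assoc, PW_succ Q (by omega)]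
        exact fun g hg => ⟨ih (by omega) hg, hc _ (by omega) (by omega) g ⟨ih (by omega) hg, hg.2⟩⟩
    have e1 : PW Q (j - t) (j + 2 * a) ⊓ B r (j - t) = PW Q (j - t) (j + a) ⊓ B r (j - t) :=
      le_antisymm (inf_le_inf_right _ (PW_anti Q le_rfl (by omega)))
        (le_inf (show j + a + a = j + 2 * a by omega ▸ e0 a le_rfl) inf_le_right)
    have e2 := PWin2_anti cO (cP (j - t) (j + 2 * a) (by omega)) (PW_anti Q le_rfl (by omega))
      (hB r (j - t) _ _ le_rfl (by omega))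
    rw [e1] at e2
    have e3 := PWin2_super (cP 0 (j + a) (by omega)) (cP (j - t) (j + 2 * a) (by omega)) cA
      (PW_anti Q (by omega) le_rfl) (PW_anti Q le_rfl (by omega))
    rw [PW_inf Q (by omega) (by omega) (by omega)] at e3
    have e4 := PWin2_super cA cA' cW (PW_anti Q (by omega) le_rfl) (PW_anti Q le_rfl (by omega))
    rw [eO] at e4
    have e5 := PWin2_anti cO (cP j (j + t) (by omega)) (PW_anti Q (by omega) le_rfl)
      (hB r (j + t) _ _ (by omega) le_rfl)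
    linarith

theorem win_main (C A w : ℕ) (τ : ℕ → ℕ) (D : ℕ → ℕ → ℕ) (τ0 : ∀ i, 0 < τ i) (τm : Monotone τ)
    (τle : ∀ i, τ i ≤ 2 ^ (C * (i + 1))) (D0 : ∀ n i, 0 < D n i) (Dm : ∀ n, Monotone (D n))
    (Dle : ∀ n i, D n i ≤ 2 ^ (C * (n + 1))) :
    ∃ C1 : ℕ, ∀ q k0 : ℕ, ∃ Z, k0 ≤ Z ∧ ∀ X, Z ≤ X → X ≤ 2 * Z →
      ∀ (Q : ℕ → Subgroup H) (B : ℕ → ℕ → Subgroup H), Win C A X Q B →
        WinOut C C1 w q k0 X τ D Q B := by
  refine ⟨(24 * C * C * (2 * A + 1) + 1) * (w + 1), fun q k0 => ?_⟩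
  generalize hC1 : (24 * C * C * (2 * A + 1) + 1) * (w + 1) = C1
  obtain ⟨T, hT, m, h0, h1, h2⟩ := PWin0_colour (C * (C1 + 1) + 1) 2 (k0 + 1)
    (fun T => 8 * (2 * A + 1) * (C + 1) * C *
      (2 ^ (16 * C * (2 * A + 1) * (C + 1) * (T + 1) + 1) * T) + 1)
    (fun T => 2 ^ (16 * C * (2 * A + 1) * (C + 1) * (T + 1) + 1) * T + 1)
    (fun _ => 2 * (6 * (2 * A + 1) * C + 3 + (w + 1) * (q + 1) + 4 * A) + (w + 1) * (q + 1))
    (fun m => 2 ^ ((q + 1) * m)) (fun m i => D (C1 * ((q + 1) * m)) i) (fun _ => Nat.succ_pos _)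
    (fun _ _ => D0 _ _) (fun _ => Dm _) (fun m hm i => by
      refine (Dle _ i).trans_lt ?_
      rw [← pow_mul]
      refine Nat.pow_lt_pow_right one_lt_two ?_
      have e : 1 ≤ (q + 1) * m := Nat.mul_pos (Nat.succ_pos q) (by omega)
      generalize (q + 1) * m = k at e
      nlinarith [Nat.mul_le_mul_left C e])
  generalize hU : 16 * C * (2 * A + 1) * (C + 1) * (T + 1) + 1 = U at h1 h2
  generalize hN : 8 * (2 * A + 1) * (C + 1) * C * (2 ^ U * T) + 1 = N at h1 h2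
  generalize hK : (w + 1) * (q + 1) = K at h2
  have K0 : 0 < K := hK ▸ Nat.mul_pos (Nat.succ_pos w) (Nat.succ_pos q)
  generalize hL : 6 * (2 * A + 1) * C + 3 + K + 4 * A = L at h2
  have h3 : ∀ i n, n + i = N → m n ≤ m N := by
    intro i
    induction i with
    | zero => rintro n rfl; exact le_rfl
    | succ i ih =>
      intro n hn
      exact ((Nat.le_mul_of_pos_left _ (Nat.succ_pos _)).trans (h1 n (by omega))).trans
        (ih (n + 1) (by omega))
  have h4 : ∀ n ≤ N, m n ≤ m N := fun n hn => h3 (N - n) n (by omega)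
  have h5 : L ≤ L * m N := Nat.le_mul_of_pos_right _ (by have := h0 N; omega)
  refine ⟨L * m N, ((Nat.le_succ k0).trans (h0 N)).trans (Nat.le_mul_of_pos_left _ (by omega)),
    fun X hX hX' Q B hW => ?_⟩
  have eQ : ∀ i ≤ X, Q (min i X) = Q i := fun i hi => by rw [min_eq_left hi]
  have one : ∀ G : Subgroup H, G.relIndex G ≠ 0 ∧ G.relIndex G ≤ 2 ^ C := fun G => by
    rw [relIndex_self]
    exact ⟨one_ne_zero, Nat.pow_pos two_pos⟩
  obtain ⟨n, hn, t, j, a1, a2, a3, a4, a5, c, a6, a7, a8⟩ := win_core (C := C) (D := 2 * A + 1)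
    (X := X) (N := N) (U := U) (T := T) (K := K) (fun i => Q (min i X)) (fun r i => B r (min i X)) τ m
    (fun i => by
      by_cases hi : i < X
      · rw [min_eq_left hi.le, min_eq_left (show i + 1 ≤ X from hi)]
        exact hW.up i hi
      · rw [min_eq_right (show X ≤ i by omega), min_eq_right (show X ≤ i + 1 by omega)]
        exact one _)
    (fun i => by
      by_cases hi : i < X
      · rw [min_eq_left hi.le, min_eq_left (show i + 1 ≤ X from hi)]
        exact hW.down i hi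
      · rw [min_eq_right (show X ≤ i by omega), min_eq_right (show X ≤ i + 1 by omega)]
        exact one _)
    (fun r i => hW.ball r _ (min_le_right _ _)) τ0 τm τle
    (by
      rw [PW_congr eQ 0 le_rfl, eQ 0 (Nat.zero_le _)]
      by_cases hz : (PW Q 0 X).relIndex (Q 0) = 0
      · have := hW.act 0 (hz.le.trans (Nat.zero_le _))
        omega
      · have e0 := hW.act _ ((PWin2_log_le hz).1 (Nat.le_ceil _))
        have e1 := Nat.ceil_lt_add_one (PWin2_log_nonneg hz)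
        have e2 := PWin2_log_nonneg hz
        generalize ⌈Real.logb 2 ((PW Q 0 X).relIndex (Q 0) : ℝ)⌉₊ = n at e0 e1
        have e3 : (X : ℝ) ≤ A * (n + 1) := by exact_mod_cast e0
        have e4 : 4 * (A : ℝ) ≤ X := by exact_mod_cast (show 4 * A ≤ X by omega)
        have e5 := mul_le_mul_of_nonneg_left e1.le (Nat.cast_nonneg (α := ℝ) A)
        push_cast
        linarith)
    (Nat.succ_pos _) hT K0 (by omega) (by omega) (fun n => by have := h0 n; omega)
    (fun n hn => (Nat.mul_le_mul_right _ (Nat.le_succ _)).trans (h1 n hn))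
    fun n hn => (Nat.mul_le_mul (by omega) (h4 n hn)).trans hX
  have hw : w * ((q + 1) * m n) ≤ K * m n := by
    rw [← hK, mul_assoc]
    exact Nat.mul_le_mul_right _ (Nat.le_succ w)
  refine ⟨m n, (q + 1) * m n, j, t, T * m n, (Nat.le_succ k0).trans (h0 n), by have := h0 n; omega,
    Nat.mul_le_mul_right _ (Nat.le_succ q), a1, a2, a3.le, fun i hi => ?_, ?_, ?_, c, a6, a7, ?_⟩
  · refine (τm (Nat.add_le_add_left hw i)).trans ((a4 i hi).trans (le_of_eq ?_))
    rw [← hC1, ← hK]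
    congr 2
    ring
  · refine (Dm _ ?_).trans (h2 n hn.le)
    have := Nat.mul_le_mul_left K (h4 n hn.le)
    rw [add_mul (2 * L), mul_assoc 2]
    omega
  · simp only [PW_congr eQ _ (show j + t ≤ X by omega), PW_congr eQ _ (show j + m n ≤ X by omega),
      min_eq_left (show j - t ≤ X by omega), min_eq_left (show j + t ≤ X by omega),
      min_eq_left (show j ≤ X by omega)] at a5
    exact a5
  · simp only [PW_congr eQ _ (show c ≤ X by omega), min_eq_left (show j - t ≤ X by omega),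
      min_eq_left (show c + 1 ≤ X by omega)] at a8
    exact a8

end Pool.Agent.Lib.MP_bf45aa_co
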