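import Pool.Agent.Lib.MP_bf45aa_co.PAct
import Pool.Agent.Lib.MP_bf45aa_co.PPur
import Pool.Agent.Lib.MP_bf45aa_co.PWin

set_option autoImplicit false
set_option linter.unusedSectionVars false

/-! The assembly: limit data do not exist. -/

namespace Pool.Agent.Lib.MP_bf45aa_co

open Subgroup
open scoped commutatorElement

variable {H X V : Type} [Group H] [MulAction H X] [AddCommGroup V] [DistribMulAction H V]
  {Γ : SimpleGraph X} {d C : ℕ}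

/-- The setwise stabiliser of a subgroup of the module. -/
def SA (H : Type) [Group H] [DistribMulAction H V] (A : AddSubgroup V) : Subgroup H where
  carrier := {g | ∀ v, g • v ∈ A ↔ v ∈ A}
  one_mem' := fun v => by rw [one_smul]
  mul_mem' := fun {a b} ha hb v => by rw [mul_smul, ha, hb]
  inv_mem' := fun {a} ha v => by rw [← ha, smul_inv_smul]

theorem le_SA {A : AddSubgroup V} {P : Subgroup H} (h : ∀ g ∈ P, ∀ v ∈ A, g • v ∈ A) :
    P ≤ SA H A := fun g hg v =>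
  ⟨fun hv => by simpa using h g⁻¹ (inv_mem hg) _ hv, h g hg v⟩

theorem SA_le_Nm (A : AddSubgroup V) : SA H A ≤ Nm (Fx H A) :=
  le_Nm_of_conj fun g hg a ha v hv => by
    rw [mul_smul, mul_smul, ha _ ((inv_mem hg v).2 hv), smul_inv_smul]

theorem PD.card_OF (D : PD H V Γ d C) (x y : X) (n i : ℕ) :
    Nat.card (OO H V x n ⊓ FV H V Γ x i : AddSubgroup V) =
      Nat.card (OO H V y n ⊓ FV H V Γ y i : AddSubgroup V) := by
  obtain ⟨g, rfl⟩ := D.vt y x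
  exact PZ_card_equi (W := fun x => OO H V x n ⊓ FV H V Γ x i)
    (fun g _ _ hv => ⟨OO_smul g hv.1, D.c.FF_smul g hv.2⟩) g y

theorem PD.loss (D : PD H V Γ d C) {x o : X} {n i r k : ℕ} {Y : AddSubgroup V}
    (hY : Y ≤ OO H V x n ⊓ FV H V Γ x i)
    (h : Nat.card (OO H V o n ⊓ FV H V Γ o i : AddSubgroup V) ≤
      2 ^ k * Nat.card (OO H V o n ⊓ FV H V Γ o r : AddSubgroup V)) :
    (FV H V Γ x r).relIndex Y ≤ 2 ^ k := by
  have := D.FF_finite x i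
  have : Finite (OO H V x n ⊓ FV H V Γ x i : AddSubgroup V) :=
    Finite.of_injective _ (AddSubgroup.inclusion_injective inf_le_right)
  refine PKey_loss hY ?_
  rw [D.card_OF o x, D.card_OF o x] at h
  rcases le_total r i with e | e
  · rwa [inf_assoc, inf_of_le_right (FF_mono x e)]
  · rw [inf_assoc, inf_of_le_left (FF_mono x e)]
    exact Nat.le_mul_of_pos_left _ (by positivity)

theorem Pur.win {K : Cls H Γ} {s : Fin K.t} {n₀ L C₂ C₃ A e : ℕ} {α : ℕ → X} {a : H}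
    {E : Subgroup H} (P : Pur V K s n₀ L α a E) (G : GD H Γ C₂) (he : LI K.σ.ker ⊤ e)
    (hA : ∀ (x w w' : X) (a : H) (N : Subgroup H) (n : ℕ), Near Γ L x w → a ∈ Kn H Γ L x →
      Wall Γ w w' a → N ≤ St H x → LI N (St H w) n → L ≤ A * (n + 1)) :
    Win (C₃ + C₂ * (n₀ + 2)) (A * (e + C₂ * (n₀ + 1) + 1)) L
      (fun i => K.σ.ker ⊓ Kn H Γ n₀ (α i)) fun r i => Kn H Γ r (α i) := by
  have h1 : ∀ x y, Γ.Adj x y → LI (K.σ.ker ⊓ Kn H Γ n₀ y) (K.σ.ker ⊓ Kn H Γ n₀ x)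
      (C₃ + C₂ * (n₀ + 2) : ℕ) := fun x y h =>
    ((((G.L2 x (n₀ + 1)).right (inf_le_right.trans (Kn_le_St n₀ x))).left'
      fun g hg => mem_inf.2 ⟨hg.2.1, Kn_succ_le_adj n₀ h hg.1⟩)).mono (by
        push_cast; nlinarith [Nat.cast_nonneg (α := ℝ) C₃])
  refine ⟨fun i _ => LI_iff.1 (h1 _ _ (P.adj i)), fun i _ => LI_iff.1 (h1 _ _ (P.adj i).symm),
    fun r i _ => LI_iff.1 (((G.L2 (α i) r).right (inf_le_right.trans (Kn_le_St n₀ _))).mono ?_),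
    fun n hn => ?_⟩
  · have h2 : C₂ * (r + 1) ≤ (C₃ + C₂ * (n₀ + 2)) * (r + 1) :=
      Nat.mul_le_mul_right _ (by nlinarith)
    exact_mod_cast h2
  · have h2 : (PW (fun i => K.σ.ker ⊓ Kn H Γ n₀ (α i)) 0 L).relIndex
        (K.σ.ker ⊓ Kn H Γ n₀ (α 0)) ≠ 0 :=
      (((G.L2 (α 0) (n₀ + L)).right (inf_le_right.trans (Kn_le_St n₀ _))).left'
        fun g hg => mem_PW.2 fun i _ hi => mem_inf.2
          ⟨hg.2.1, Kn_near_le (path_near' P.adj (k := L) (by omega) (by omega)) le_rfl hg.1⟩).1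
    have h3 := (LI_iff.2 ⟨h2, hn⟩).trans ((he.right le_top).inf (G.L2 (α 0) n₀))
    have h4 := hA (α L) (α 0) (α 1) a _ (n + (e + C₂ * (n₀ + 1)))
      (path_near' P.adj (by omega) (by omega)) (P.aK L le_rfl) P.wall
      ((PW_le _ (Nat.zero_le L) le_rfl).trans (inf_le_right.trans (Kn_le_St n₀ _)))
      (h3.mono (by push_cast; exact le_rfl))
    refine h4.trans ?_
    rw [mul_assoc]
    exact Nat.mul_le_mul_left _ (by nlinarith [Nat.zero_le ((e + C₂ * (n₀ + 1)) * n)])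

/-- Limit data do not exist. -/
theorem PD.false (D : PD H V Γ d C) : False := by
  obtain ⟨C₂, G⟩ := D.gd
  obtain ⟨K⟩ := G.exists_cls
  obtain ⟨n₀, hn₀, hP⟩ := D.exists_pur K ⟨0, K.pos⟩
  generalize (⟨0, K.pos⟩ : Fin K.t) = s at hP
  obtain ⟨A, hA⟩ := D.activity
  obtain ⟨C₃, hτ, hO⟩ := D.tauK_le
  obtain ⟨e, he⟩ := K.ker_fin ⊤
  obtain ⟨o, -, -⟩ := D.edge
  have fin : ∀ x n i, Finite (OO H V x n ⊓ FV H V Γ x i : AddSubgroup V) := fun x n i =>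
    have := D.FF_finite x i
    Finite.of_injective _ (AddSubgroup.inclusion_injective inf_le_right)
  have pw : ∀ i, 2 ^ (C₃ * (i + 1)) ≤ 2 ^ ((C₃ + C₂ * (n₀ + 2)) * (i + 1)) := fun i =>
    Nat.pow_le_pow_right two_pos (Nat.mul_le_mul_right _ (Nat.le_add_right _ _))
  obtain ⟨C₁, h1⟩ := win_main (H := H) (C₃ + C₂ * (n₀ + 2)) (A * (e + C₂ * (n₀ + 1) + 1)) 7
    (tauK H V Γ o) (fun n i => Nat.card (OO H V o n ⊓ FV H V Γ o i : AddSubgroup V))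
    (D.tauK_pos o) (D.tauK_mono o) (fun i => (hτ o i).trans (pw i))
    (fun n i => have := fin o n i; Nat.card_pos)
    (fun n i j h => have := fin o n j
      AddSubgroup.card_le_of_le (inf_le_inf_left _ (FF_mono o h)))
    fun n i => have := (D.L1 o n).1
      ((AddSubgroup.card_le_of_le inf_le_left).trans (hO o n)).trans (pw n)
  obtain ⟨κ, hκ⟩ := D.final K C₁
  set C' := C₃ + C₂ * (n₀ + 2) with hC'
  set e' := e + C₂ * (n₀ + 1) with he'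
  obtain ⟨Z, hZ, h2⟩ := h1 (κ * (2 * C' + 3 + e' + n₀ + 2) + 1) n₀
  obtain ⟨L, l1, l2, hL⟩ := hA Z
  obtain ⟨α, a, E, P⟩ := hP n₀ le_rfl L (by omega)
  obtain ⟨m, k, j, t, r, g1, g2, g3, g4, g5, g6, g7, g8, g9, c, c1, c2, g, hg, hg'⟩ :=
    h2 L l1 l2 _ _ (P.win G he hL)
  have mk : m ≤ k := le_trans (by rw [add_mul]; omega) g3
  obtain ⟨c, rfl⟩ : ∃ c', c = c' + 1 := ⟨c - 1, by omega⟩
  obtain ⟨τ, t1, t2, t3⟩ := P.tau c
  have hQ := mem_PW.1 hg.1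
  set Y₀ := (FV H V Γ (α 0) (n₀ + 2 * (3 * k)) ⊓ Cv V E).map (dl V a) with hY₀
  have y1 : ∀ i, i = j - t ∨ i = j ∨ i = j + t →
      Y₀ ≤ OO H V (α i) (C₁ * k) ⊓ FV H V Γ (α i) (L + 7 * k) := by
    rintro i hi _ ⟨v, hv, rfl⟩
    have hi' : i ≤ L := by omega
    have v1 : v ∈ FV H V Γ (α i) (i + 7 * k) :=
      FF_near (path_near' P.adj (k := i) (by omega) (by omega)) (by omega) hv.1
    have v2 := g7 i hi
    rw [D.tauK_eq o (α i), D.tauK_eq o (α i)] at v2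
    exact ⟨mem_OO (D.key (Nat.le_add_right _ _) v2 (P.aK i hi') v1),
      FF_mono _ (by omega) (sub_mem (D.c.FF_St (Kn_le_St _ _ (P.aK i hi')) v1) v1)⟩
  have y2 : Y₀ ≤ Cv V E := by
    rintro _ ⟨v, hv, rfl⟩
    exact sub_mem (P.inv 0 a (by rw [K.M_ker P.aM]; rfl) P.wall.2.1 P.wall.2.2.1 v hv.2) hv.2
  set Y' := FV H V Γ (α (j - t)) r ⊓ FV H V Γ (α (j + t)) r with hY'
  have y3 : 2 ^ k ≤ Nat.card (Y' ⊓ Y₀ : AddSubgroup V) := by
    have b1 := D.loss (y1 _ (Or.inl rfl)) g8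
    have b2 := D.loss (y1 _ (Or.inr (Or.inr rfl))) g8
    have b3 : Y'.relIndex Y₀ ≤ 2 ^ k * 2 ^ k :=
      AddSubgroup.relIndex_inf_le.trans (Nat.mul_le_mul b1 b2)
    have b4 := PKey_card (inf_le_right : Y' ⊓ Y₀ ≤ Y₀)
    rw [AddSubgroup.inf_relIndex_right] at b4
    have b5 := P.big (3 * k)
    rw [← hY₀, ← b4, show 3 * k = k + (k + k) by omega, pow_add, pow_add] at b5
    exact Nat.le_of_mul_le_mul_right (b5.trans (Nat.mul_le_mul_left _ b3)) (by positivity)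
  obtain ⟨n1, n2⟩ := g9 (SA H Y')
    (le_SA fun u hu v hv =>
      ⟨D.c.FF_St (Kn_le_St _ _ (mem_PW.1 hu _ le_rfl (by omega)).2) hv.1,
        D.c.FF_St (Kn_le_St _ _ (mem_PW.1 hu _ (by omega) le_rfl).2) hv.2⟩)
    (le_SA fun u hu v hv => by rw [hv.1 u hu.2]; exact hv)
    (le_SA fun u hu v hv => by rw [hv.2 u hu.2]; exact hv)
  have n3 := (LI_iff.2 ⟨n1, n2⟩).trans ((he.right le_top).inf (G.L2 (α j) n₀))
  refine hκ ((2 * C' + 1) * m + e' + 2 * m + n₀ + 1) k (α j) (α (c + 1))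
    (Kn H Γ 1 (α j) ⊓ Fx H (Y' ⊓ Cv V E)) _ s g τ (Y' ⊓ Y₀) ?_ inf_le_left ?_ (n3.mono ?_) ?_ ?_
    (hQ j (by omega) (by omega)).1 (path_near' P.adj (by omega) (by omega))
    (Kn_anti hn₀ _ (hQ _ (by omega) le_rfl).2) t1 t2 ?_
    (inf_le_right.trans ((y1 j (Or.inr (Or.inl rfl))).trans inf_le_left)) y3
    fun u hu v hv => hu.2 v ⟨hv.1, y2 hv.2⟩
  · refine le_trans ?_ g3
    rw [add_mul (κ * _) 1, mul_assoc κ]
    refine le_trans (Nat.mul_le_mul_left κ ?_) (Nat.le_add_right _ _)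
    have := Nat.mul_le_mul_left (e' + n₀ + 2) g2
    nlinarith
  · intro u hu
    have u1 := mem_PW.1 hu.2 j (by omega) (by omega)
    refine Nm_inf (D.c.St_le_Nm_Kn 1 _ (Kn_le_St _ _ u1.2)) (SA_le_Nm _ (le_SA ?_ hu))
    intro u hu v hv
    have u1 := mem_PW.1 hu.2 j (by omega) (by omega)
    have u2 := mem_PW.1 hu.2 (j + 1) (by omega) (by omega)
    exact ⟨(hu.1 v).2 hv.1, P.inv j u (by rw [u1.1]; rfl) (Kn_le_St _ _ u1.2) (Kn_le_St _ _ u2.2)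
      v hv.2⟩
  · rw [he']
    push_cast
    nlinarith [Nat.cast_nonneg (α := ℝ) m, Nat.cast_nonneg (α := ℝ) n₀]
  · intro b hb u hu
    exact ⟨Kn_anti (by omega) _ hu.2, fun v hv =>
      hv.2 u (P.le j b hb ⟨hu.1, Kn_anti (by omega) _ hu.2⟩)⟩
  · exact ⟨Kn_anti hn₀ _ (hQ j (by omega) (by omega)).2, fun v hv => hv.1.1 g hg.2⟩
  · intro h
    have b1 : ⁅g, τ⁆ ∈ Kn H Γ n₀ (α (c + 2)) :=
      Kn_succ_le_adj n₀ (P.adj (c + 1)) (Kn_anti (by omega) _ h)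
    have b2 := D.c.Kn_conj τ (hQ c (by omega) (by omega)).2
    rw [t3] at b2
    refine hg' ⟨(hQ c (by omega) (by omega)).1, ?_⟩
    have b3 := mul_mem b1 b2
    rwa [commutatorElement_def, show g * τ * g⁻¹ * τ⁻¹ * (τ * g * τ⁻¹) = g * (τ * g⁻¹ * g * τ⁻¹) by
      group, show g * (τ * g⁻¹ * g * τ⁻¹) = g by group] at b3

end Pool.Agent.Lib.MP_bf45aa_co
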