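import Pool.Agent.Lib.MP_bf45aa_co.PS1
import Pool.Agent.Lib.MP_bf45aa_co.PZL2

set_option autoImplicit false
set_option linter.unusedSectionVars false

/-! Essential subgroups centralise few vectors of small norm. -/

namespace Pool.Agent.Lib.MP_bf45aa_co

open Subgroup Filter
open scoped commutatorElement

variable {H X V : Type} [Group H] [MulAction H X] [AddCommGroup V] [DistribMulAction H V]
  {Γ : SimpleGraph X} {d C : ℕ}

theorem PTwo_card {B : ℕ} {Y : AddSubgroup V} {A : Fin B → AddSubgroup V} {c : ℕ}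
    (h1 : ∀ l, A l ≤ Y) (h2 : ∀ l, Nat.card (A l) = c) (h3 : (⨅ l, A l) ⊓ Y = ⊥) :
    Nat.card Y * c ^ B ≤ Nat.card Y ^ B := by
  have h4 := AddSubgroup.relIndex_iInf_le (L := Y) A
  rw [← AddSubgroup.inf_relIndex_right, h3, AddSubgroup.relIndex_bot_left] at h4
  have h5 : ∀ l, (A l).relIndex Y * c = Nat.card Y := fun l => by
    have := AddSubgroup.relIndex_mul_relIndex ⊥ (A l) Y bot_le (h1 l)
    rwa [AddSubgroup.relIndex_bot_left, AddSubgroup.relIndex_bot_left, h2, mul_comm] at this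
  calc Nat.card Y * c ^ B ≤ (∏ l, (A l).relIndex Y) * c ^ B := Nat.mul_le_mul_right _ h4
    _ = ∏ l : Fin B, ((A l).relIndex Y * c) := by
        rw [Finset.prod_mul_distrib, Finset.prod_const, Finset.card_univ, Fintype.card_fin]
    _ = _ := by simp [h5]

/-- The translate of a subgroup of the module. -/
def smY (g : H) (Y : AddSubgroup V) : AddSubgroup V := Y.map (DistribSMul.toAddMonoidHom V g)

theorem mem_smY {g : H} {Y : AddSubgroup V} {v : V} : v ∈ smY g Y ↔ ∃ u ∈ Y, g • u = v := Iff.rfl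

theorem card_smY (g : H) (Y : AddSubgroup V) : Nat.card (smY g Y) = Nat.card Y :=
  AddSubgroup.card_map_of_injective (MulAction.injective g)

/-- The conjugates of a wall element under moves fix no finite subgroup. -/
theorem PD.moves_bot (D : PD H V Γ d C) {w w' : X} {B : ℕ} {g : Fin B → H} (hg : Moves Γ w w' g)
    {z : H} (hz : Wall Γ w w' z) (A : AddSubgroup V) [Finite A]
    (h : ∀ l, ∀ v ∈ A, (g l * z * (g l)⁻¹) • v = v) : A = ⊥ := by
  obtain ⟨N, N', n1, n2, n3, n4, n5, n6⟩ := hg.2 z hz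
  refine D.L0 hz.1 A inferInstance N N' n1 n2 n3 n4 (fun a ha v hv => ?_) fun a ha v hv => ?_
  · have : a ∈ Fx H A := ((closure_le _).2 (by rintro _ ⟨l, -, rfl⟩; exact h l)) (n5 ha)
    rwa [this v hv]
  · have : a ∈ Fx H A := ((closure_le _).2 (by rintro _ ⟨l, -, rfl⟩; exact h l)) (n6 ha)
    rwa [this v hv]

/-- One round of the growth argument. -/
theorem PD.two_step (D : PD H V Γ d C) {C₂ : ℕ} (G : GD H Γ C₂) : ∃ B : ℕ, ∀ (x : X) (n m : ℕ)
    (J : Subgroup H) (Y : AddSubgroup V), ∃ (g : Fin B → H) (Y' : AddSubgroup V),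
      (∀ l, Near Γ (2 * n + 1) x (g l • x)) ∧
      ((∃ z ∈ J, ∃ w w', Near Γ n x w ∧ Wall Γ w w' z) → Y ≤ OO H V x m →
        (∀ j ∈ J, ∀ v ∈ Y, j • v = v) → Y' ≤ OO H V x (m + d * (2 * n + 1)) ∧
        Nat.card Y ≤ Nat.card Y' ∧ Nat.card Y * Nat.card Y ^ B ≤ Nat.card Y' ^ B ∧
        ∀ j ∈ J ⊓ ⨅ l, cj (g l) J, ∀ v ∈ Y', j • v = v) := by
  refine ⟨2 ^ (2 * C₂) + 2 ^ (2 * C₂), fun x n m J Y => ?_⟩
  by_cases h0 : ∃ z ∈ J, ∃ w w', Near Γ n x w ∧ Wall Γ w w' z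
  swap
  · exact ⟨fun _ => 1, ⊥, fun l => by rw [one_smul]; exact Near.refl _ _, fun h => absurd h h0⟩
  obtain ⟨z, z1, w, w', h1, hz⟩ := h0
  obtain ⟨g, hg⟩ := G.moves hz.1
  have h2 : ∀ l, Near Γ (2 * n + 1) x (g l • x) := fun l =>
    ((h1.trans (hg.near hz.1 l)).trans (h1.smul D.c.adj (g l)).symm).mono (by omega)
  refine ⟨g, Y ⊔ ⨆ l, smY (g l) Y, h2, fun _ h3 h4 => ?_⟩
  have h5 : Y ⊔ ⨆ l, smY (g l) Y ≤ OO H V x (m + d * (2 * n + 1)) := by
    refine sup_le (h3.trans (OO_mono x (by omega))) (iSup_le fun l => ?_)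
    rintro _ ⟨u, hu, rfl⟩
    exact D.OO_near (h2 l) (OO_smul (g l) (h3 hu))
  have h6 := (D.L1 x (m + d * (2 * n + 1))).1
  have h7 : Finite (Y ⊔ ⨆ l, smY (g l) Y : AddSubgroup V) :=
    Finite.of_injective _ (AddSubgroup.inclusion_injective h5)
  have h8 : ∀ l, ∀ j ∈ cj (g l) J, ∀ v ∈ smY (g l) Y, j • v = v := by
    rintro l _ ⟨j, hj, rfl⟩ _ ⟨u, hu, rfl⟩
    change (g l * j * (g l)⁻¹) • g l • u = g l • u
    rw [mul_smul, mul_smul, inv_smul_smul, h4 j hj u hu]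
  have h9 : Nat.card Y ≤ Nat.card (Y ⊔ ⨆ l, smY (g l) Y : AddSubgroup V) :=
    AddSubgroup.card_le_of_le le_sup_left
  refine ⟨h5, h9, (Nat.mul_le_mul_right _ h9).trans (PTwo_card (A := fun l => smY (g l) Y)
    (fun l => (le_iSup (fun l => smY (g l) Y) l).trans le_sup_right) (fun l => card_smY _ _) ?_),
    fun j hj => ?_⟩
  · have : Finite ((⨅ l, smY (g l) Y) ⊓ (Y ⊔ ⨆ l, smY (g l) Y) : AddSubgroup V) :=
      Finite.of_injective _ (AddSubgroup.inclusion_injective inf_le_right)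
    exact D.moves_bot hg hz _ fun l v hv =>
      h8 l _ (conj_mem_cj z1) v (AddSubgroup.mem_iInf.1 hv.1 l)
  · have : Y ⊔ ⨆ l, smY (g l) Y ≤ Cv V (J ⊓ ⨅ l, cj (g l) J) :=
      sup_le (fun v hv j hj => h4 j hj.1 v hv)
        (iSup_le fun l v hv j hj => h8 l j (mem_iInf.1 hj.2 l) v hv)
    exact fun v hv => this hv j hj

/-- A family of sequences of shallow subgroups which is closed under intersection and under
conjugation by elements of small displacement centralises few vectors of norm `O(k)`. -/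
theorem PD.two (D : PD H V Γ d C) {C₂ : ℕ} (G : GD H Γ C₂) (ρ : ℕ) (x : X) (k : ℕ → ℕ)
    (E : (ℕ → Subgroup H) → Prop)
    (Einf : ∀ J J', E J → E J' → E fun i => J i ⊓ J' i)
    (Ecj : ∀ (J : ℕ → Subgroup H) (g : ℕ → H) (n : ℕ → ℕ),
      (∀ m, ∀ᶠ i in (UU : Filter ℕ), m * (n i + 1) ≤ k i) →
      (∀ i, Near Γ (n i) x (g i • x)) → E J → E fun i => cj (g i) (J i))
    (Esh : ∀ J, E J → ∃ n : ℕ → ℕ, (∀ m, ∀ᶠ i in (UU : Filter ℕ), m * (n i + 1) ≤ k i) ∧
      ∀ᶠ i in (UU : Filter ℕ), ∃ z ∈ J i, ∃ w w', Near Γ (n i) x w ∧ Wall Γ w w' z)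
    {J : ℕ → Subgroup H} (hJ : E J) (Y : ℕ → AddSubgroup V)
    (hY : ∀ᶠ i in (UU : Filter ℕ), Y i ≤ OO H V x (ρ * k i) ∧ 2 ^ k i ≤ Nat.card (Y i) ∧
      ∀ j ∈ J i, ∀ v ∈ Y i, j • v = v) : False := by
  obtain ⟨B, hB⟩ := D.two_step G
  have Efin : ∀ (J : ℕ → Subgroup H) (A : Fin B → ℕ → Subgroup H), E J → (∀ l, E (A l)) →
      E fun i => J i ⊓ ⨅ l, A l i := fun J A h1 h2 => by
    have : ∀ s : Finset (Fin B), E fun i => J i ⊓ ⨅ l ∈ s, A l i := fun s => by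
      induction s using Finset.induction_on with
      | empty => simpa using h1
      | insert a s ha ih =>
        have h3 := Einf _ _ (h2 a) ih
        simp only [Finset.iInf_insert]
        convert h3 using 2 with i
        exact inf_left_comm _ _ _
    simpa using this Finset.univ
  have main : ∀ r : ℕ, ∃ (J : ℕ → Subgroup H) (Y : ℕ → AddSubgroup V) (s : ℕ → ℕ), E J ∧
      (∀ m, ∀ᶠ i in (UU : Filter ℕ), m * (s i + 1) ≤ k i) ∧ ∀ᶠ i in (UU : Filter ℕ),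
        Y i ≤ OO H V x (ρ * k i + s i) ∧ 2 ^ k i ≤ Nat.card (Y i) ∧
        2 ^ (r * k i) ≤ Nat.card (Y i) ^ B ∧ ∀ j ∈ J i, ∀ v ∈ Y i, j • v = v := by
    intro r
    induction r with
    | zero =>
      obtain ⟨n, h1, -⟩ := Esh J hJ
      refine ⟨J, Y, fun _ => 0, hJ, fun m => (h1 m).mono fun i hi =>
        (Nat.mul_le_mul_left _ (Nat.succ_le_succ (Nat.zero_le _))).trans hi, hY.mono fun i hi => ⟨hi.1, hi.2.1, ?_, hi.2.2⟩⟩
      rw [zero_mul, pow_zero]
      exact Nat.one_le_pow _ _ (Nat.two_pow_pos _ |>.trans_le hi.2.1)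
    | succ r ih =>
      obtain ⟨J, Y, s, h1, h2, h3⟩ := ih
      obtain ⟨n, h4, h5⟩ := Esh J h1
      choose g Y' g1 g2 using fun i => hB x (n i) (ρ * k i + s i) (J i) (Y i)
      refine ⟨fun i => J i ⊓ ⨅ l, cj (g i l) (J i), Y', fun i => s i + d * (2 * n i + 1),
        Efin J (fun l i => cj (g i l) (J i)) h1 fun l =>
          Ecj J (fun i => g i l) (fun i => 2 * n i + 1) (fun m => ?_) (fun i => g1 i l) h1,
        fun m => ?_, ?_⟩
      · filter_upwards [h4 (m * 2)] with i hi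
        nlinarith
      · filter_upwards [h4 (2 * (m * (2 * d))), h2 (2 * m)] with i hi hi'
        nlinarith [Nat.zero_le (m * d)]
      · filter_upwards [h3, h5] with i hi hi'
        obtain ⟨k1, k2, k3, k4⟩ := g2 i hi' hi.1 hi.2.2.2
        refine ⟨by rwa [← add_assoc], hi.2.1.trans k2, le_trans ?_ k3, k4⟩
        rw [add_mul, one_mul, pow_add, mul_comm]
        exact Nat.mul_le_mul hi.2.1 hi.2.2.1
  obtain ⟨J, Y, s, -, h2, h3⟩ := main (C * (ρ + 1) * B + 1)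
  obtain ⟨i, k1, k2, -, k3, -⟩ := ((h2 1).and h3).exists
  have h4 := D.L1 x (ρ * k i + s i)
  have := h4.1
  have h5 : Nat.card (Y i) ≤ 2 ^ (C * (ρ * k i + s i + 1)) :=
    (AddSubgroup.card_le_of_le k2).trans h4.2
  have h6 := k3.trans (Nat.pow_le_pow_left h5 B)
  rw [← pow_mul, Nat.pow_le_pow_iff_right (by norm_num)] at h6
  have h7 : C * (ρ * k i + s i + 1) * B ≤ C * ((ρ + 1) * k i) * B := by
    refine Nat.mul_le_mul_right _ (Nat.mul_le_mul_left _ ?_)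
    nlinarith
  nlinarith

end Pool.Agent.Lib.MP_bf45aa_co
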