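import Pool.Agent.Lib.MP_bf45aa_co.PS2
import Pool.Agent.Lib.MP_bf45aa_co.PTwo

set_option autoImplicit false
set_option linter.unusedSectionVars false

/-! The final contradiction from the comparison of the number of classes at all scales. -/

namespace Pool.Agent.Lib.MP_bf45aa_co

open Subgroup Filter
open scoped commutatorElement

variable {H X V : Type} [Group H] [MulAction H X] [AddCommGroup V] [DistribMulAction H V]
  {Γ : SimpleGraph X} {d C C₂ : ℕ} {T : Cut} {o : X}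

/-- The quantitative absence of abelian locally normal subgroups. -/
def NoAbQ (H : Type) {X : Type} [Group H] [MulAction H X] (Γ : SimpleGraph X) : Prop :=
  ∃ K : ℕ, ∀ (x : X) (n M : ℕ) (J : Subgroup H), LN Γ x n J → ¬ J ≤ Kn H Γ n x →
    (∀ a ∈ J, ∀ b ∈ J, ⁅a, b⁆ ∈ Kn H Γ M x) → M ≤ K * (n + 1)

/-- At no scale are there more classes than the exact classes. -/
def ThmS (K : Cls H Γ) : Prop :=
  ∀ (T : Cut) (o : X) (u : ℕ) (R : Fin u → ℕ → Subgroup H),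
    (∀ a, LS T Γ o (R a) ∧ ¬ DP T Γ o (R a)) →
    (∀ a b, a ≠ b → DP T Γ o fun i => R a i ⊓ R b i) → u ≤ K.t

theorem NoAbQ.seq (hQ : NoAbQ H Γ) {J : ℕ → Subgroup H} (h : LS T Γ o J) {a : ℕ → ℕ}
    (ha : ¬ T.Sm a) (h1 : ∀ᶠ i in UU, ∀ g ∈ J i, ∀ g' ∈ J i, ⁅g, g'⁆ ∈ Kn H Γ (a i) o) :
    DP T Γ o J := by
  by_contra hc
  obtain ⟨K, hK⟩ := hQ
  obtain ⟨s, s1, s2⟩ := h
  obtain ⟨u, u1, u2⟩ := not_DP.1 hc
  obtain ⟨i, ⟨e1, e2⟩, e3, e4⟩ :=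
    ((s2.and u2).and (h1.and (Cut.lt_of (Cut.aff (T.add s1 u1) K) ha))).exists
  have := hK o (s i + u i) _ (J i) (e1.mono (by omega))
    (fun e => e2 (e.trans (Kn_anti (by omega) o))) e3
  omega

theorem Cls.LS_infM (K : Cls H Γ) {J : ℕ → Subgroup H} (h : LS T Γ o J) (a : Fin K.t) :
    LS T Γ o fun i => J i ⊓ K.M a := by
  obtain ⟨c, hc⟩ := K.ker_fin (St H o)
  obtain ⟨s, s1, s2⟩ := h
  refine ⟨_, T.add s1 (T.const c), s2.mono fun i ⟨y, N, h1, h2, h3, h4⟩ =>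
    ⟨y, N ⊓ K.σ.ker, h1.mono (by omega), inf_le_left.trans h2, fun g hg => Nm_inf (h3 hg.1)
      (K.Nm_M (by rw [MonoidHom.mem_ker.1 hg.2]; rfl)), by push_cast; exact h4.inf hc⟩⟩

theorem GD.LS_P (G : GD H Γ C₂) (K : Cls H Γ) (a : Fin K.t) :
    LS T Γ o fun _ => Kn H Γ 1 o ⊓ K.M a :=
  K.LS_infM (J := fun _ => Kn H Γ 1 o) ⟨_, T.const 0, Eventually.of_forall fun _ => G.LN_K o 0⟩ a

theorem GD.not_DP_P (G : GD H Γ C₂) (K : Cls H Γ) (a : Fin K.t) :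
    ¬ DP T Γ o fun _ => Kn H Γ 1 o ⊓ K.M a := fun h => by
  obtain ⟨g, g1, g2, g3⟩ := K.ne a 1 o
  exact g1 (G.c.eq_one (x := o) fun n =>
    (h _ (T.const n)).exists.elim fun _ e => e ⟨g2, K.mem_M.2 g3⟩)

theorem Cls.DP_MM (K : Cls H Γ) {a b : Fin K.t} (hab : a ≠ b) {A B : ℕ → Subgroup H}
    (hA : ∀ᶠ i in UU, A i ≤ K.M a) (hB : ∀ᶠ i in UU, B i ≤ Kn H Γ 1 o ⊓ K.M b) :
    DP T Γ o fun i => A i ⊓ B i := fun s _ => (hA.and hB).mono fun i e g hg => by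
  have : g = 1 := K.QZ o g (e.2 hg.2).1 fun c => by
    by_cases hc : c = a
    · exact K.M_le_Cen (hc ▸ hab) (e.2 hg.2).2
    · exact K.M_le_Cen hc (e.1 hg.1)
  rw [this]; exact one_mem _

/-- The exact classes are uniform at every scale. -/
theorem GD.unif (G : GD H Γ C₂) {K : Cls H Γ} (hS : ThmS K) (a : Fin K.t)
    {A B : ℕ → Subgroup H} (h1 : LS T Γ o A) (h2 : LS T Γ o B) (h3 : ∀ᶠ i in UU, A i ≤ K.M a)
    (h4 : ∀ᶠ i in UU, B i ≤ K.M a) (h5 : ¬ DP T Γ o A) (h6 : ¬ DP T Γ o B) :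
    ¬ DP T Γ o fun i => A i ⊓ B i := fun h7 => by
  classical
  have sy : ∀ {A B : ℕ → Subgroup H}, (DP T Γ o fun i => A i ⊓ B i) →
      DP T Γ o fun i => B i ⊓ A i := fun h => h.anti (Eventually.of_forall fun i => (inf_comm _ _).le)
  let P : Fin K.t → ℕ → Subgroup H := fun b => if b = a then B else fun _ => Kn H Γ 1 o ⊓ K.M b
  have p1 : ∀ b, LS T Γ o (P b) ∧ ¬ DP T Γ o (P b) := fun b => by
    by_cases hb : b = a
    · simp only [P, if_pos hb]; exact ⟨h2, h6⟩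
    · simp only [P, if_neg hb]; exact ⟨G.LS_P K b, G.not_DP_P K b⟩
  have p2 : ∀ b, ∀ᶠ i in UU, P b i ≤ K.M b := fun b => by
    by_cases hb : b = a
    · simp only [P, if_pos hb]; exact hb ▸ h4
    · simp only [P, if_neg hb]; exact Eventually.of_forall fun _ => inf_le_right
  have p3 : ∀ b, b ≠ a → ∀ᶠ i in UU, P b i ≤ Kn H Γ 1 o ⊓ K.M b := fun b hb => by
    simp only [P, if_neg hb]; exact Eventually.of_forall fun _ => le_rfl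
  have p4 : ∀ b, DP T Γ o fun i => A i ⊓ P b i := fun b => by
    by_cases hb : b = a
    · simp only [P, if_pos hb]; exact h7
    · exact K.DP_MM (Ne.symm hb) h3 (p3 b hb)
  have := hS T o (K.t + 1) (Fin.cons A P) (fun b => Fin.cases ⟨h1, h5⟩ p1 b) fun b c => by
    refine Fin.cases ?_ (fun b => ?_) b <;> refine Fin.cases ?_ (fun c => ?_) c <;> intro hbc
    · exact absurd rfl hbc
    · exact p4 c
    · exact sy (p4 b)
    · have h8 : b ≠ c := fun e => hbc (by rw [e])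
      by_cases hc : c = a
      · exact sy (K.DP_MM h8.symm (p2 c) (p3 b (hc ▸ h8)))
      · exact K.DP_MM h8 (p2 b) (p3 c hc)
  omega

theorem GD.LS_CM (G : GD H Γ C₂) {Q : ℕ → Subgroup H} (h : LS T Γ o Q) {y : ℕ → X} {n : ℕ → ℕ}
    (hn : T.Sm n) (hy : ∀ i, Near Γ (n i) o (y i)) (a : ℕ → ℕ) :
    LS T Γ o fun i => CM (Kn H Γ 1 (y i)) (Kn H Γ (a i) (y i))
      ((Kn_le_St 1 _).trans (G.c.St_le_Nm_Kn _ _)) (Q i) := by
  obtain ⟨N, ⟨s, s1, s2⟩, h2⟩ := h.nm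
  refine ⟨_, T.add (T.add s1 (Cut.mul hn (2 * C₂))) hn, (s2.and h2).mono fun i e =>
    ⟨y i, N i ⊓ St H (y i), (hy i).mono (by omega), fun g hg => hg.1,
      Nm_CM (inf_le_right.trans (G.c.St_le_Nm_Kn _ _)) (inf_le_right.trans (G.c.St_le_Nm_Kn _ _))
        (inf_le_left.trans e.2), (e.1.inf (G.near_LI (hy i))).mono ?_⟩⟩
  push_cast
  linarith [(Nat.cast_nonneg (n i) : (0 : ℝ) ≤ n i)]

/-- Step (f): the subgroup meets the remaining class in a shallow subgroup. -/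
theorem GD.stepF (G : GD H Γ C₂) (hQ : NoAbQ H Γ) {K : Cls H Γ} (hS : ThmS K) (s : Fin K.t)
    {n : ℕ → ℕ} (hn : T.Sm n) {y : ℕ → X} {J N : ℕ → Subgroup H} {g τ : ℕ → H}
    (hy : ∀ i, Near Γ (n i) o (y i)) (hN : LgS T o N)
    (h : ∀ᶠ i in UU, J i ≤ Kn H Γ 1 o ∧ N i ≤ Nm (J i) ∧ g i ∈ J i ∧ K.σ (g i) = 1 ∧
      g i ∈ Kn H Γ 1 (y i) ∧ τ i ∈ K.M s ∧ ⁅g i, τ i⁆ ∉ Kn H Γ (n i) (y i))
    (hτ : ∀ i, τ i • y i = y i) : ¬ DP T Γ o fun i => J i ⊓ K.M s := fun h0 => by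
  have p1 : LS T Γ o fun i => Kn H Γ 1 o ⊓ K.M s ⊓ N i := (G.LS_P K s).infN hN
  have p2 : ¬ DP T Γ o fun i => Kn H Γ 1 o ⊓ K.M s ⊓ N i := fun e =>
    G.not_DP_P K s (G.A4S (G.LS_P K s) hN e)
  have t1 : NS T Γ o τ := ⟨_, T.add hn hn, Eventually.of_forall fun i => by
    have := ((hy i).smul G.c.adj (τ i)).symm
    rw [hτ i] at this
    exact (hy i).trans this⟩
  have p3 := G.LS_cj p1 t1
  have p4 : ∀ᶠ i in UU, cj (τ i) (Kn H Γ 1 o ⊓ K.M s ⊓ N i) ≤ K.M s := h.mono fun i e => by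
    rintro _ ⟨q, hq, rfl⟩
    exact conj_mem_of_Nm (le_Nm_self _ e.2.2.2.2.2.1) hq.1.2
  have q1 := p1.inf p3
  have q2 := G.unif hS s p1 p3 (Eventually.of_forall fun i => inf_le_left.trans inf_le_right) p4 p2
    fun e => p2 (e.of_conj G.c t1)
  obtain ⟨a, a1, a2⟩ := DP_iff.1 h0
  have a3 := Cut.not_sub a1 hn
  have z1 := K.LS_infM (G.LS_CM q1 hn hy fun i => a i - n i) s
  have z2 := hQ.seq (z1.inf q1) (Cut.not_sub a3 hn) ((Cut.lt_of hn a3).mono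
    fun i e c hc c' hc' => Kn_near_le (hy i).symm (by omega) (hc.1.1.2 c' hc'.2))
  refine G.unif hS s z1 q1 (Eventually.of_forall fun i => inf_le_right)
    (Eventually.of_forall fun i => inf_le_left.trans (inf_le_left.trans inf_le_right))
    (fun z3 => ?_) q2 z2
  obtain ⟨i, ⟨e1, e2⟩, e3, k1, k2, k3, k4, k5, k6, k7⟩ :=
    (((z3 _ (T.add hn hn)).and a2).and ((Cut.lt_of hn a1).and h)).exists
  have k8 : ∀ c ∈ J i, K.σ c = 1 → ∀ q ∈ Kn H Γ 1 o ⊓ K.M s ⊓ N i,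
      ⁅c, q⁆ ∈ Kn H Γ (a i - n i) (y i) := fun c hc hc' q hq =>
    Kn_near_le (hy i) (by omega) (e2 ⟨comm_mem_left hc (k2 hq.2),
      comm_mem_right hq.1.2 (K.Nm_M (by rw [hc']; rfl))⟩)
  have k9 : τ i ∈ St H (y i) := hτ i
  refine k7 (Kn_near_le (hy i) le_rfl (e1 ⟨?_, comm_mem_right k6 (K.Nm_M (by rw [k4]; rfl))⟩))
  have k10 : ⁅g i, τ i⁆ = g i * (τ i * (g i)⁻¹ * (τ i)⁻¹) := by
    simp only [commutatorElement_def]; group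
  rw [k10]
  refine mul_mem (mem_CM.2 ⟨k5, fun q hq => k8 _ k3 k4 q hq.1⟩)
    (mem_CM.2 ⟨conj_mem_of_Nm (G.c.St_le_Nm_Kn _ _ k9) (inv_mem k5), fun q hq => ?_⟩)
  obtain ⟨q', hq', rfl⟩ := mem_cj'.1 hq.2
  rw [conj_comm]
  exact conj_mem_of_Nm (G.c.St_le_Nm_Kn _ _ k9)
    (k8 _ (inv_mem k3) (by rw [map_inv, k4, inv_one]) q' hq')

/-- Subgroups meeting every class in a shallow subgroup centralise few vectors. -/
theorem PD.ess (D : PD H V Γ d C) (G : GD H Γ C₂) {K : Cls H Γ} (hS : ThmS K) (ρ : ℕ)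
    {k : ℕ → ℕ} (hk : ∀ i, i ≤ k i) {J : ℕ → Subgroup H} (h1 : LS (Cut.lin k hk) Γ o J)
    (h2 : ∀ a, ¬ DP (Cut.lin k hk) Γ o fun i => J i ⊓ K.M a) (Y : ℕ → AddSubgroup V)
    (hY : ∀ᶠ i in UU, Y i ≤ OO H V o (ρ * k i) ∧ 2 ^ k i ≤ Nat.card (Y i) ∧
      ∀ j ∈ J i, ∀ v ∈ Y i, j • v = v) : False := by
  refine D.two G ρ o k (fun J => LS (Cut.lin k hk) Γ o J ∧
    ∀ a, ¬ DP (Cut.lin k hk) Γ o fun i => J i ⊓ K.M a) (fun J J' e e' => ⟨e.1.inf e'.1, fun a h => ?_⟩)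
    (fun J g n hn hg e => ?_) (fun J e => ?_) ⟨h1, h2⟩ Y hY
  · refine G.unif hS a (K.LS_infM e.1 a) (K.LS_infM e'.1 a)
      (Eventually.of_forall fun i => inf_le_right) (Eventually.of_forall fun i => inf_le_right)
      (e.2 a) (e'.2 a) (h.anti (Eventually.of_forall fun i g hg => ⟨⟨hg.1.1, hg.2.1⟩, hg.1.2⟩))
  · have t1 : NS (Cut.lin k hk) Γ o g :=
      ⟨fun i => n i + 1, hn, Eventually.of_forall fun i => (hg i).mono (Nat.le_succ _)⟩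
    refine ⟨G.LS_cj e.1 t1, fun a h => ?_⟩
    obtain ⟨b, -, hb⟩ := ev_pigeon (s := Set.univ) Set.finite_univ
      (P := fun b i => K.σ (g i) b = a)
      (Eventually.of_forall fun i => ⟨(K.σ (g i))⁻¹ a, trivial, by simp⟩)
    refine e.2 b (DP.of_conj G.c (h.anti (hb.mono fun i e => ?_)) t1)
    rintro _ ⟨q, hq, rfl⟩
    exact ⟨conj_mem_cj hq.1, e ▸ K.M_conj (g i) hq.2⟩
  · obtain ⟨s, s1, s2⟩ := e.1
    obtain ⟨u, u1, u2⟩ := not_DP.1 (e.2 ⟨0, K.pos⟩)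
    refine ⟨fun i => 3 * (s i + u i), (Cut.lin k hk).add (Cut.mul ((Cut.lin k hk).add s1 u1) 3)
      ((Cut.lin k hk).const 1), (s2.and u2).mono fun i ⟨⟨y, _, k1, k2, _⟩, k3⟩ => ?_⟩
    obtain ⟨z, z1, z2⟩ := SetLike.not_le_iff_exists.1 k3
    exact ⟨z, z1.1, G.wall_of (k1.mono (by omega)) (k2 z1.1) fun e => z2 (Kn_anti (by omega) o e)⟩

/-- The data of the final contradiction. -/
def FDat (V : Type) [AddCommGroup V] [DistribMulAction H V] (K : Cls H Γ) (ρ n k : ℕ) (x : X) :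
    Prop :=
  ∃ (y : X) (J N : Subgroup H) (s : Fin K.t) (g τ : H) (Y : AddSubgroup V),
    J ≤ Kn H Γ 1 x ∧ N ≤ Nm J ∧ LI N (St H x) n ∧
    (∀ b, b ≠ s → K.M b ⊓ Kn H Γ n x ≤ J) ∧ g ∈ J ∧ K.σ g = 1 ∧ Near Γ n x y ∧
    g ∈ Kn H Γ 1 y ∧ τ ∈ K.M s ∧ τ • y = y ∧ ⁅g, τ⁆ ∉ Kn H Γ n y ∧
    Y ≤ OO H V x (ρ * k) ∧ 2 ^ k ≤ Nat.card Y ∧ ∀ j ∈ J, ∀ v ∈ Y, j • v = v

theorem FDat.smul (c : Ctx H Γ) {K : Cls H Γ} {ρ n k : ℕ} {x : X} (h : FDat V K ρ n k x) (a : H) :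
    FDat V K ρ n k (a • x) := by
  obtain ⟨y, J, N, s, g, τ, Y, h1, h2, h3, h4, h5, h6, h7, h8, h9, h10, h11, h12, h13, h14⟩ := h
  refine ⟨a • y, cj a J, cj a N, K.σ a s, a * g * a⁻¹, a * τ * a⁻¹, smY a Y,
    by rw [← c.cj_Kn]; exact cj_mono a h1, by rw [← cj_Nm]; exact cj_mono a h2,
    by rw [← cj_St]; exact h3.cj a, fun b hb q hq => ?_, conj_mem_cj h5,
    by rw [map_mul, map_mul, h6, map_inv, mul_one, mul_inv_cancel], h7.smul c.adj a,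
    c.Kn_conj a h8, K.M_conj a h9, by rw [mul_smul, mul_smul, inv_smul_smul, h10],
    by rw [conj_comm, ← c.cj_Kn, conj_mem_cj_iff]; exact h11, ?_, by rw [card_smY]; exact h13, ?_⟩
  · refine mem_cj.2 (h4 (K.σ a⁻¹ b) (fun e => hb (by rw [← e, map_inv]; simp)) ⟨?_, ?_⟩)
    · simpa using K.M_conj a⁻¹ hq.1
    · have := (mem_inf.1 hq).2
      rw [← c.cj_Kn] at this
      exact mem_cj.1 this
  · rintro _ ⟨u, hu, rfl⟩
    exact OO_smul a (h12 hu)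
  · rintro _ ⟨j, hj, rfl⟩ _ ⟨u, hu, rfl⟩
    change (a * j * a⁻¹) • a • u = a • u
    rw [mul_smul, mul_smul, inv_smul_smul, h14 j hj u hu]

/-- The final contradiction. -/
theorem PD.final_of (D : PD H V Γ d C) (G : GD H Γ C₂) (hQ : NoAbQ H Γ) (K : Cls H Γ)
    (hS : ThmS K) (ρ : ℕ) : ∃ κ : ℕ,
    ∀ (n k : ℕ) (x y : X) (J N : Subgroup H) (s : Fin K.t) (g τ : H) (Y : AddSubgroup V),
      κ * (n + 1) ≤ k → J ≤ Kn H Γ 1 x → N ≤ Nm J → LI N (St H x) n →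
      (∀ b, b ≠ s → K.M b ⊓ Kn H Γ n x ≤ J) → g ∈ J → K.σ g = 1 → Near Γ n x y →
      g ∈ Kn H Γ 1 y → τ ∈ K.M s → τ • y = y → ⁅g, τ⁆ ∉ Kn H Γ n y →
      Y ≤ OO H V x (ρ * k) → 2 ^ k ≤ Nat.card Y → (∀ j ∈ J, ∀ v ∈ Y, j • v = v) → False := by
  suffices h : ∃ κ : ℕ, ∀ (n k : ℕ) (x : X), κ * (n + 1) ≤ k → ¬ FDat V K ρ n k x by
    obtain ⟨κ, h⟩ := h
    exact ⟨κ, fun n k x y J N s g τ Y h0 h1 h2 h3 h4 h5 h6 h7 h8 h9 h10 h11 h12 h13 h14 =>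
      h n k x h0 ⟨y, J, N, s, g, τ, Y, h1, h2, h3, h4, h5, h6, h7, h8, h9, h10, h11, h12, h13, h14⟩⟩
  by_contra hc
  push Not at hc
  obtain ⟨o, -, -⟩ := G.edge
  have h0 : ∀ κ : ℕ, ∃ n k : ℕ, κ * (n + 1) ≤ k ∧ FDat V K ρ n k o := fun κ => by
    obtain ⟨n, k, x, h1, h2⟩ := hc κ
    obtain ⟨a, ha⟩ := G.vtx x o
    exact ⟨n, k, h1, ha ▸ h2.smul G.c a⟩
  choose n k h0 y J N s g τ Y h1 h2 h3 h4 h5 h6 h7 h8 h9 h10 h11 h12 h13 h14 using h0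
  have hk : ∀ i, i ≤ k i := fun i => le_trans (by nlinarith) (h0 i)
  have hn : (Cut.lin k hk).Sm n := Cut.lin_sm hk fun i => le_trans (by nlinarith) (h0 i)
  obtain ⟨s₀, -, hs⟩ := ev_pigeon (s := Set.univ) Set.finite_univ (P := fun b i => s i = b)
    (Eventually.of_forall fun i => ⟨s i, trivial, rfl⟩)
  refine D.ess (o := o) G hS ρ hk ⟨n, hn, Eventually.of_forall fun i =>
    ⟨o, N i, Near.refl _ _, h1 i, h2 i, h3 i⟩⟩ (fun a => ?_) Y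
    (Eventually.of_forall fun i => ⟨h12 i, h13 i, h14 i⟩)
  by_cases ha : a = s₀
  · subst ha
    exact G.stepF hQ hS a hn h7 ⟨n, hn, Eventually.of_forall h3⟩
      (hs.mono fun i e => ⟨h1 i, h2 i, h5 i, h6 i, h8 i, e ▸ h9 i, h11 i⟩) h10
  · intro h
    refine G.not_DP_P K a (G.A4S (G.LS_P K a) (G.LgS_K (y := fun _ => o) hn hn
      (Eventually.of_forall fun i => Near.refl _ _)) (h.anti (hs.mono fun i e q hq => ?_)))
    exact ⟨h4 i a (e ▸ ha) ⟨hq.1.2, hq.2⟩, hq.1.2⟩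

end Pool.Agent.Lib.MP_bf45aa_co
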