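import Mathlib

set_option autoImplicit false

/-! Counting lemmas for the window argument. -/

namespace Pool.Agent.Lib.MP_bf45aa_co

open Finset

/-- Some step of a bounded sequence drops little. -/
theorem PWin0_drop (z : ℕ → ℝ) {M : ℝ} {N : ℕ} (hN : 0 < N) (h0 : z 0 ≤ M) (h1 : 0 ≤ z N) :
    ∃ n < N, N * (z n - z (n + 1)) ≤ M := by
  by_contra hc
  push Not at hc
  have h2 : ∑ _n ∈ range N, M < ∑ n ∈ range N, (N : ℝ) * (z n - z (n + 1)) :=
    sum_lt_sum_of_nonempty ⟨0, mem_range.2 hN⟩ fun n hn => hc n (mem_range.1 hn)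
  rw [← mul_sum, sum_range_sub', sum_const, card_range, nsmul_eq_mul] at h2
  have h3 : (0 : ℝ) < N := by exact_mod_cast hN
  have h4 := lt_of_mul_lt_mul_left h2 h3.le
  linarith

/-- Shifting a sum of increments. -/
theorem PWin0_shift (σ : ℕ → ℝ) (m : ℕ) {p q : ℕ} (h : p ≤ q) :
    ∑ j ∈ Ico p q, (σ (j + m) - σ j) = ∑ i ∈ range m, (σ (q + i) - σ (p + i)) := by
  induction q, h using Nat.le_induction with
  | base => simp
  | succ q hq ih =>
    rw [sum_Ico_succ_top hq, ih]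
    have h1 := sum_range_sub (fun i => σ (q + i)) m
    have h2 : ∑ i ∈ range m, (σ (q + 1 + i) - σ (p + i)) =
        ∑ i ∈ range m, (σ (q + i) - σ (p + i)) + ∑ i ∈ range m, (σ (q + (i + 1)) - σ (q + i)) := by
      rw [← sum_add_distrib]
      refine sum_congr rfl fun i _ => ?_
      rw [show q + 1 + i = q + (i + 1) by omega]
      ring
    rw [h2, h1, add_zero]

/-- A reindexed sum of non-negative terms. -/
theorem PWin0_sub (θ : ℕ → ℝ) (h0 : ∀ c, 0 ≤ θ c) (J : Finset ℕ) (X : ℕ) (e : ℕ → ℕ)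
    (he : Set.InjOn e J) (hX : ∀ j ∈ J, e j < X) : ∑ j ∈ J, θ (e j) ≤ ∑ c ∈ range X, θ c := by
  rw [← sum_image he]
  refine sum_le_sum_of_subset_of_nonneg (fun c hc => ?_) fun c _ _ => h0 c
  obtain ⟨j, hj, rfl⟩ := mem_image.1 hc
  exact mem_range.2 (hX j hj)

/-- Increments of a sequence with bounded steps. -/
theorem PWin0_lip (σ : ℕ → ℝ) {E : ℝ} (h : ∀ c, σ (c + 1) - σ c ≤ E) (c i : ℕ) :
    σ (c + i) - σ c ≤ E * i := by
  induction i with
  | zero => simp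
  | succ i ih =>
    have := h (c + i)
    rw [← add_assoc]
    push_cast
    linarith

/-- Many separated scales share a window without jump. -/
theorem PWin0_colour (S T₀ m₀ : ℕ) (Nf Rf Lf : ℕ → ℕ) (W : ℕ → ℕ) (Dc : ℕ → ℕ → ℕ)
    (hR : ∀ T, 0 < Rf T) (hpos : ∀ m i, 0 < Dc m i) (hmono : ∀ m, Monotone (Dc m))
    (hbd : ∀ m, m₀ ≤ m → ∀ i, Dc m i < W m ^ S) :
    ∃ T, T₀ ≤ T ∧ ∃ m : ℕ → ℕ, (∀ n, m₀ ≤ m n) ∧ (∀ n < Nf T, Rf T * m n ≤ m (n + 1)) ∧
      ∀ n ≤ Nf T, Dc (m n) (Lf T * m (Nf T)) ≤ W (m n) * Dc (m n) (T * m n) := by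
  by_contra hc
  have key : ∀ s, ∃ T R, T₀ ≤ T ∧ 0 < R ∧ ∀ a, m₀ ≤ a →
      ∃ m, a ≤ m ∧ m ≤ R * a ∧ W m ^ s ≤ Dc m (T * m) := by
    intro s
    induction s with
    | zero => exact ⟨T₀, 1, le_rfl, one_pos, fun a _ => ⟨a, le_rfl, by omega, hpos _ _⟩⟩
    | succ s ih =>
      obtain ⟨T, R, h1, h2, h3⟩ := ih
      have hρ : 0 < R * Rf T := Nat.mul_pos h2 (hR T)
      refine ⟨T + Lf T * (R * (R * Rf T) ^ Nf T), R * (R * Rf T) ^ Nf T, by omega,
        Nat.mul_pos h2 (Nat.pow_pos hρ), fun a ha => ?_⟩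
      by_contra hd
      push Not at hd
      have h4 : ∀ n, m₀ ≤ (R * Rf T) ^ n * a := fun n =>
        ha.trans (Nat.le_mul_of_pos_left _ (Nat.pow_pos hρ))
      choose m hm1 hm2 hm3 using fun n => h3 _ (h4 n)
      have h5 : ∀ n, a ≤ m n := fun n => (Nat.le_mul_of_pos_left _ (Nat.pow_pos hρ)).trans (hm1 n)
      have h6 : ∀ n ≤ Nf T, m n ≤ R * (R * Rf T) ^ Nf T * a := fun n hn => by
        refine (hm2 n).trans ?_
        rw [mul_assoc R _ a]
        exact Nat.mul_le_mul_left _ (Nat.mul_le_mul_right _ (Nat.pow_le_pow_right hρ hn))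
      refine hc ⟨T, h1, m, fun n => (h4 n).trans (hm1 n), fun n _ => ?_, fun n hn => ?_⟩
      · refine le_trans (Nat.mul_le_mul_left _ (hm2 n)) (le_trans (le_of_eq ?_) (hm1 (n + 1)))
        ring
      · have h7 := hd (m n) (h5 n) (h6 n hn)
        have h8 : Lf T * m (Nf T) ≤ (T + Lf T * (R * (R * Rf T) ^ Nf T)) * m n := by
          refine (Nat.mul_le_mul_left _ (h6 _ le_rfl)).trans ?_
          rw [← mul_assoc]
          exact Nat.mul_le_mul (Nat.le_add_left _ _) (h5 n)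
        refine ((hmono _ h8).trans h7.le).trans ?_
        rw [pow_succ']
        exact Nat.mul_le_mul_left _ (hm3 n)
  obtain ⟨T, R, -, -, h⟩ := key S
  obtain ⟨m, h1, -, h2⟩ := h m₀ le_rfl
  exact absurd (hbd m h1 _) (not_lt.2 h2)

end Pool.Agent.Lib.MP_bf45aa_co
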