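import Pool.Agent.Lib.MP_bf45aa_co.PZL2
import Pool.Agent.Lib.MP_bf45aa_co.PWin0
import Pool.Agent.Lib.MP_bf45aa_co.PWin2

set_option autoImplicit false
set_option linter.unusedSectionVars false

/-! Small orbits of commutator vectors, and almost abelian ball fixators. -/

namespace Pool.Agent.Lib.MP_bf45aa_co

open Subgroup
open scoped commutatorElement

variable {H X V : Type} [Group H] [MulAction H X] [AddCommGroup V] [DistribMulAction H V]
  {Γ : SimpleGraph X} {d C : ℕ}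

/-- The product of the index of the ball fixator and the order of its fixed space. -/
noncomputable def tauK (H : Type) {X : Type} (V : Type) [Group H] [MulAction H X] [AddCommGroup V]
    [DistribMulAction H V] (Γ : SimpleGraph X) (x : X) (i : ℕ) : ℕ :=
  (Kn H Γ i x).relIndex (St H x) * Nat.card (FV H V Γ x i)

theorem PKey_card {A B : AddSubgroup V} (h : A ≤ B) :
    Nat.card A * A.relIndex B = Nat.card B := by
  rw [← AddSubgroup.relIndex_bot_left, ← AddSubgroup.relIndex_bot_left]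
  exact AddSubgroup.relIndex_mul_relIndex _ _ _ bot_le h

theorem PKey_fun {A B : Subgroup H} {Ω : Type*} [Finite Ω] (φ : B → Ω)
    (h : ∀ g g' : B, φ g = φ g' → (g : H)⁻¹ * g' ∈ A) :
    A.relIndex B ≠ 0 ∧ A.relIndex B ≤ Nat.card Ω := by
  have hi : Function.Injective fun q : B ⧸ A.subgroupOf B => φ q.out := by
    intro q r e
    rw [← q.out_eq, ← r.out_eq]
    exact QuotientGroup.eq.2 (h _ _ e)
  have := Finite.of_injective _ hi
  exact ⟨index_ne_zero_of_finite, Nat.card_le_card_of_injective _ hi⟩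

/-- Loss of order under intersection. -/
theorem PKey_loss {Y O F : AddSubgroup V} [Finite O] (h : Y ≤ O) {n : ℕ}
    (hn : Nat.card O ≤ n * Nat.card (O ⊓ F : AddSubgroup V)) : F.relIndex Y ≤ n := by
  have h1 := PKey_card (inf_le_left : O ⊓ F ≤ O)
  rw [AddSubgroup.inf_relIndex_left] at h1
  have h0 : F.relIndex O ≠ 0 := AddSubgroup.index_ne_zero_of_finite
  refine (AddSubgroup.relIndex_le_of_le_right h h0).trans ?_
  have : Finite (O ⊓ F : AddSubgroup V) :=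
    Finite.of_injective _ (AddSubgroup.inclusion_injective inf_le_left)
  rw [← h1, mul_comm n] at hn
  exact Nat.le_of_mul_le_mul_left hn Nat.card_pos

namespace PD

variable (D : PD H V Γ d C)
include D

theorem tauK_pos (x : X) (i : ℕ) : 0 < tauK H V Γ x i :=
  have := D.FF_finite x i
  Nat.mul_pos (Nat.pos_of_ne_zero (D.Kn_idx i x)) Nat.card_pos

theorem tauK_mono (x : X) : Monotone (tauK H V Γ x) := fun _ j h =>
  have := D.FF_finite x j
  Nat.mul_le_mul (relIndex_le_of_le_left (Kn_anti h x) (D.Kn_idx j x))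
    (AddSubgroup.card_le_of_le (FF_mono x h))

theorem tauK_eq (x y : X) (i : ℕ) : tauK H V Γ x i = tauK H V Γ y i := by
  rw [tauK, tauK, D.Kn_idx_eq i x y, D.FF_card_eq x y i]

theorem tauK_le : ∃ C₃, (∀ (x : X) i, tauK H V Γ x i ≤ 2 ^ (C₃ * (i + 1))) ∧
    ∀ (x : X) n, Nat.card (OO H V x n) ≤ 2 ^ (C₃ * (n + 1)) := by
  obtain ⟨C₂, -, h1, h2, h3⟩ := D.growth
  refine ⟨2 * C₂, fun x i => (Nat.mul_le_mul (h1 x i) (h2 x i)).trans (le_of_eq ?_),
    fun x n => (h3 x n).trans (Nat.pow_le_pow_right two_pos (Nat.mul_le_mul_right _ (by omega)))⟩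
  rw [← pow_add]
  congr 1
  ring

/-- The key estimate: commutator vectors have small orbits at typical radii. -/
theorem key {x : X} {i j n : ℕ} (hij : i ≤ j) (h : tauK H V Γ x j ≤ 2 ^ n * tauK H V Γ x i) {g : H}
    (hg : g ∈ Kn H Γ i x) {v : V} (hv : v ∈ FV H V Γ x j) : g • v - v ∈ OS H V x n := by
  have h0 : (Kn H Γ j x).relIndex (Kn H Γ i x) ≠ 0 := D.Kn_idx' j x (Kn_le_St i x)
  have : Finite (Kn H Γ i x ⧸ (Kn H Γ j x).subgroupOf (Kn H Γ i x)) := Nat.finite_of_card_ne_zero h0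
  have := D.FF_finite x j
  have h1 := PKey_fun (A := St H (g • v - v)) (B := St H x)
    (Ω := (Kn H Γ i x ⧸ (Kn H Γ j x).subgroupOf (Kn H Γ i x)) ×
      (FV H V Γ x j ⧸ (FV H V Γ x i).addSubgroupOf (FV H V Γ x j)))
    (fun a => (QuotientGroup.mk ⟨a * g * a⁻¹, conj_mem_of_Nm (D.c.St_le_Nm_Kn i x a.2) hg⟩,
      QuotientAddGroup.mk ⟨(a : H) • v, D.c.FF_St a.2 hv⟩)) fun a b e => by
      have e1 : ((a : H) * g * (a : H)⁻¹)⁻¹ * (b * g * (b : H)⁻¹) ∈ Kn H Γ j x :=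
        mem_subgroupOf.1 (QuotientGroup.eq.1 (congrArg Prod.fst e))
      have e2 : -((a : H) • v) + (b : H) • v ∈ FV H V Γ x i :=
        AddSubgroup.mem_addSubgroupOf.1 (QuotientAddGroup.eq.1 (congrArg Prod.snd e))
      have e3 := e1 |> mem_FF.1 (D.c.FF_St b.2 hv) _
      have e4 := mem_FF.1 e2 _ (conj_mem_of_Nm (D.c.St_le_Nm_Kn i x a.2) hg)
      rw [mul_smul, inv_smul_eq_iff, mul_smul _ (b : H)⁻¹, inv_smul_smul, mul_smul] at e3
      rw [smul_add, smul_neg, mul_smul _ (a : H)⁻¹, inv_smul_smul, ← e3, mul_smul] at e4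
      rw [mem_St, mul_smul, inv_smul_eq_iff, smul_sub, smul_sub]
      rw [sub_eq_sub_iff_sub_eq_sub, sub_eq_neg_add, sub_eq_neg_add, e4]
  refine mem_OS_iff.2 ⟨h1.1, h1.2.trans ?_⟩
  rw [Nat.card_prod]
  refine Nat.le_of_mul_le_mul_right (le_trans (le_of_eq ?_) h) (D.tauK_pos x i)
  rw [tauK, tauK, ← relIndex_mul_relIndex _ _ _ (Kn_anti hij x) (Kn_le_St i x),
    ← PKey_card (FF_mono (H := H) (V := V) (Γ := Γ) x hij), mul_mul_mul_comm, mul_comm (Nat.card (FV H V Γ x i))]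
  rfl

/-- The rank of a commutator of two elements of a ball fixator. -/
theorem comm_rank {x : X} {i j n μ : ℕ} (hij : i ≤ j) (h : tauK H V Γ x j ≤ 2 ^ n * tauK H V Γ x i)
    (h' : Nat.card (OO H V x n ⊓ FV H V Γ x j : AddSubgroup V) ≤
      2 ^ μ * Nat.card (OO H V x n ⊓ FV H V Γ x i : AddSubgroup V)) {g g' : H}
    (hg : g ∈ Kn H Γ i x) (hg' : g' ∈ Kn H Γ i x) :
    Nat.card ((FV H V Γ x j).map (dl V ⁅g, g'⁆)) ≤ 2 ^ (2 * μ) := by
  have := D.FF_finite x j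
  have : Finite (OO H V x n ⊓ FV H V Γ x j : AddSubgroup V) :=
    Finite.of_injective _ (AddSubgroup.inclusion_injective inf_le_right)
  have h1 : ∀ a ∈ Kn H Γ i x, ((FV H V Γ x i).comap (dl V a)).relIndex (FV H V Γ x j) ≤ 2 ^ μ := by
    intro a ha
    rw [AddSubgroup.relIndex_comap]
    refine PKey_loss (O := OO H V x n ⊓ FV H V Γ x j) ?_ ?_
    · rintro _ ⟨v, hv, rfl⟩
      exact AddSubgroup.mem_inf.2
        ⟨mem_OO (D.key hij h ha hv), sub_mem (D.c.FF_St (Kn_le_St i x ha) hv) hv⟩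
    · rwa [inf_assoc, inf_of_le_right (FF_mono x hij)]
  rw [← AddSubgroup.relIndex_ker, two_mul, pow_add]
  refine le_trans (AddSubgroup.relIndex_le_of_le_left ?_ AddSubgroup.index_ne_zero_of_finite)
    (AddSubgroup.relIndex_inf_le.trans (Nat.mul_le_mul (h1 _ (inv_mem hg)) (h1 _ (inv_mem hg'))))
  intro v hv
  have e1 := mem_FF.1 hv.1 _ (inv_mem hg')
  have e2 := mem_FF.1 hv.2 _ (inv_mem hg)
  rw [dl_apply, smul_sub] at e1 e2
  have e3 : g⁻¹ • g'⁻¹ • v = g'⁻¹ • g⁻¹ • v := by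
    rw [sub_eq_iff_eq_add] at e1 e2
    rw [e1, e2]
    abel
  rw [AddMonoidHom.mem_ker, dl_apply, commutatorElement_def, mul_smul, mul_smul, mul_smul, e3,
    smul_inv_smul, smul_inv_smul, sub_self]

/-- Ball fixators are abelian modulo a proportionally deeper ball fixator. -/
theorem S1lin : ∃ A, ∀ Z, ∃ Y M, Z ≤ Y ∧ Y ≤ 2 * Z ∧ Z ≤ A * (M + 1) ∧
    ∀ x : X, ∀ g ∈ Kn H Γ Y x, ∀ g' ∈ Kn H Γ Y x, ⁅g, g'⁆ ∈ Kn H Γ (Y + M) x := by
  obtain ⟨m₀, hm⟩ := D.exists_FF_ne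
  obtain ⟨C₃, h1, h2⟩ := D.tauK_le
  obtain ⟨o, -⟩ := D.edge
  have hK : ∀ Y (x : X), ∀ g ∈ Kn H Γ Y x, ∀ g' ∈ Kn H Γ Y x, ⁅g, g'⁆ ∈ Kn H Γ Y x :=
    fun Y x g hg g' hg' => mul_mem (mul_mem (mul_mem hg hg') (inv_mem hg)) (inv_mem hg')
  generalize hc : 5 * C₃ + 1 = c
  generalize hA : 8 * c * C₃ * (c + 1) + 1 = A
  have A0 : 0 < A := by omega
  refine ⟨8 * A * (m₀ + 3), fun Z => ?_⟩
  have hZ1 := Nat.div_add_mod Z (8 * A)
  have hZ2 := Nat.mod_lt Z (show 0 < 8 * A by omega)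
  generalize Z / (8 * A) = μ at hZ1
  generalize Z % (8 * A) = ρ at hZ1 hZ2
  by_cases hμ : μ < m₀ + 2
  · refine ⟨Z, 0, le_rfl, by omega, ?_, fun x => hK Z x⟩
    have := Nat.mul_le_mul_left (8 * A) (show μ + 1 ≤ m₀ + 3 by omega)
    rw [mul_add, mul_one] at this
    omega
  generalize hn : c * (8 * μ) = n
  let Dc : ℕ → ℕ := fun i => Nat.card (OO H V o n ⊓ FV H V Γ o i : AddSubgroup V)
  have hf : ∀ i, Finite (OO H V o n ⊓ FV H V Γ o i : AddSubgroup V) := fun i =>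
    have := D.FF_finite o i
    Finite.of_injective _ (AddSubgroup.inclusion_injective inf_le_right)
  have D0 : ∀ i, Dc i ≠ 0 := fun i => have := hf i; Nat.card_pos.ne'
  have D1 : ∀ i, Dc i ≤ 2 ^ (C₃ * (n + 1)) := fun i =>
    have := (D.L1 o n).1
    (AddSubgroup.card_le_of_le inf_le_left).trans (h2 o n)
  have D2 : Monotone Dc := fun i j h =>
    have := hf j
    AddSubgroup.card_le_of_le (inf_le_inf_left _ (FF_mono o h))
  have T0 : ∀ i, tauK H V Γ o i ≠ 0 := fun i => (D.tauK_pos o i).ne'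
  have hμ1 : A * 8 ≤ A * (8 * μ) := Nat.mul_le_mul_left _ (by omega)
  have hZ3 : 8 * A * μ = A * (8 * μ) := by ring
  obtain ⟨i, hi, h3⟩ := PWin0_drop (fun i => C₃ * ((2 * Z : ℕ) + 1) + 8 * c * (C₃ * (n + 1)) -
      (Real.logb 2 (tauK H V Γ o (Z + i * (8 * μ)) : ℝ) +
        8 * c * Real.logb 2 (Dc (Z + i * (8 * μ)) : ℝ)))
    (M := C₃ * ((2 * Z : ℕ) + 1) + 8 * c * (C₃ * (n + 1))) A0
    (by
      have e1 := PWin2_log_nonneg (T0 (Z + 0 * (8 * μ)))
      have e2 := PWin2_log_nonneg (D0 (Z + 0 * (8 * μ)))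
      have e3 : (0 : ℝ) ≤ 8 * c * Real.logb 2 (Dc (Z + 0 * (8 * μ)) : ℝ) := by positivity
      linarith)
    (by
      have e0 : Z + A * (8 * μ) ≤ 2 * Z := by omega
      have e1 := (PWin2_log_le (T0 _)).2 ((D.tauK_mono o e0).trans (h1 o _))
      have e2 := mul_le_mul_of_nonneg_left ((PWin2_log_le (D0 (Z + A * (8 * μ)))).2 (D1 _))
        (show (0 : ℝ) ≤ 8 * c by positivity)
      push_cast at e1 e2 ⊢
      linarith)
  rw [show Z + (i + 1) * (8 * μ) = Z + i * (8 * μ) + 8 * μ by ring] at h3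
  have hY : Z + i * (8 * μ) ≤ 2 * Z := by
    have := Nat.mul_le_mul_right (8 * μ) hi.le
    omega
  have hY' : Z ≤ Z + i * (8 * μ) := Nat.le_add_right _ _
  generalize Z + i * (8 * μ) = Y at h3 hY hY'
  have e1 := PWin2_log_mono (T0 Y) (D.tauK_mono o (Nat.le_add_right Y (8 * μ)))
  have e2 := PWin2_log_mono (D0 Y) (D2 (Nat.le_add_right Y (8 * μ)))
  have hb : (C₃ : ℝ) * ((2 * Z : ℕ) + 1) + 8 * c * (C₃ * (n + 1)) ≤ A * n := by
    have f1 := Nat.mul_le_mul_left C₃ (show 2 * Z + 1 ≤ 5 * (A * (8 * μ)) by omega)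
    have g1 : n + 1 ≤ (c + 1) * (8 * μ) := by
      rw [add_mul, hn]
      omega
    have f2 := Nat.mul_le_mul_left (8 * c * C₃) g1
    have f3 := Nat.mul_le_mul_right (8 * μ) (show 8 * c * C₃ * (c + 1) ≤ A by omega)
    have f4 : A * n = C₃ * (5 * (A * (8 * μ))) + A * (8 * μ) := by
      rw [← hn, ← hc]
      ring
    have f5 : C₃ * (2 * Z + 1) + 8 * c * (C₃ * (n + 1)) ≤ A * n := by linarith
    exact_mod_cast f5
  have h4 := le_of_mul_le_mul_left (h3.trans hb) (show (0 : ℝ) < A by exact_mod_cast A0)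
  have c0 : (0 : ℝ) < 8 * c := by exact_mod_cast (show 0 < 8 * c by omega)
  have hl : ∀ {a b k : ℕ}, a ≠ 0 → b ≠ 0 → Real.logb 2 (a : ℝ) - Real.logb 2 (b : ℝ) ≤ k →
      a ≤ 2 ^ k * b := by
    intro a b k ha hb h
    have f0 : 2 ^ k * b ≠ 0 := mul_ne_zero (Nat.pow_pos two_pos).ne' hb
    have f1 := PWin2_log (a := 2 ^ k) (b := b) rfl f0
    rw [Nat.cast_pow, Real.logb_pow, Nat.cast_ofNat, Real.logb_self_eq_one one_lt_two] at f1
    have f2 : Real.logb 2 (a : ℝ) ≤ Real.logb 2 ((2 ^ k * b : ℕ) : ℝ) := by linarith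
    rw [Real.logb_le_logb one_lt_two (by exact_mod_cast Nat.pos_of_ne_zero ha)
      (by exact_mod_cast Nat.pos_of_ne_zero f0)] at f2
    exact_mod_cast f2
  have h5 : tauK H V Γ o (Y + 8 * μ) ≤ 2 ^ n * tauK H V Γ o Y := hl (T0 _) (T0 _) (by
    have := mul_le_mul_of_nonneg_left e2 c0.le
    linarith)
  have h6 : Dc (Y + 8 * μ) ≤ 2 ^ μ * Dc Y := hl (D0 _) (D0 _) (by
    refine le_of_mul_le_mul_left ?_ c0
    have : (n : ℝ) = c * (8 * μ) := by exact_mod_cast hn.symm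
    linarith)
  have h7 : ∀ g ∈ Kn H Γ Y o, ∀ g' ∈ Kn H Γ Y o, ⁅g, g'⁆ ∈ Kn H Γ (Y + μ + 1) o := by
    intro g hg g' hg'
    by_contra h8
    obtain ⟨o', ho⟩ := D.nbr o
    have h9 := mem_K1.1 (Kn_anti (show 1 ≤ Y by omega) o (hK Y o g hg g' hg'))
    obtain ⟨y, y', k1, k2, k3, k4, k5⟩ := PZ_boundary ho h9.1 (h9.2 _ ho) h8
    have k6 := D.thick_card (fun x => hm x m₀ le_rfl) k2 k3 k4 k5 (2 * μ + 1)
    have k7 := D.comm_rank (Nat.le_add_right Y (8 * μ)) h5 h6 hg hg'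
    have := D.FF_finite o (Y + 8 * μ)
    have : Finite ((FV H V Γ o (Y + 8 * μ)).map (dl V ⁅g, g'⁆)) :=
      Finite.of_surjective _ ((dl V ⁅g, g'⁆).addSubgroupMap_surjective _)
    have k8 := (k6.trans (AddSubgroup.card_le_of_le (AddSubgroup.map_mono
      (FF_near k1.symm (j := Y + 8 * μ) (by omega))))).trans k7
    have := (Nat.pow_le_pow_iff_right one_lt_two).1 k8
    omega
  refine ⟨Y, μ + 1, hY', hY, ?_, fun x g hg g' hg' => ?_⟩
  · have f1 := Nat.mul_le_mul (Nat.le_mul_of_pos_right (8 * A) (show 0 < m₀ + 3 by omega))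
      (show μ + 1 ≤ μ + 1 + 1 by omega)
    rw [mul_add (8 * A)] at f1
    omega
  · obtain ⟨a, rfl⟩ := D.vt o x
    rw [← D.c.cj_Kn, mem_cj] at hg hg' ⊢
    have e : a⁻¹ * ⁅g, g'⁆ * a = ⁅a⁻¹ * g * a, a⁻¹ * g' * a⁆ := by
      simp only [commutatorElement_def]
      group
    rw [e]
    exact h7 _ hg _ hg'

end PD

end Pool.Agent.Lib.MP_bf45aa_co
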