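import Pool.Agent.Lib.MP_bf45aa_co.PNoAb0

set_option autoImplicit false
set_option linter.unusedSectionVars false

/-! No abelian locally normal subgroups. -/

namespace Pool.Agent.Lib.MP_bf45aa_co

open Subgroup Filter
open scoped commutatorElement

variable {H X : Type} [Group H] [MulAction H X] {T : Cut} {Γ : SimpleGraph X} {o : X} {C : ℕ}

/-- Every shallow sequence contains a shallow one which almost centralises `P`. -/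
def Psi (c : Ctx H Γ) (T : Cut) (o : X) (P : ℕ → Subgroup H) : Prop :=
  ∀ Z₀ : ℕ → Subgroup H, LS T Γ o Z₀ → ¬ DP T Γ o Z₀ → ∃ (Z : ℕ → Subgroup H) (a s : ℕ → ℕ),
    LS T Γ o Z ∧ ¬ DP T Γ o Z ∧ ¬ T.Sm a ∧ T.Sm s ∧
    ∀ᶠ i in UU, Z i ≤ Z₀ i ∧ LI (CK c o (a i) (Z i)) (P i) (s i : ℕ)

theorem Psi.anti {c : Ctx H Γ} {P Q : ℕ → Subgroup H} (h : Psi c T o P)
    (hQ : ∀ᶠ i in UU, Q i ≤ P i) : Psi c T o Q := fun Z₀ h1 h2 =>
  let ⟨Z, a, s, k1, k2, k3, k4, k5⟩ := h Z₀ h1 h2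
  ⟨Z, a, s, k1, k2, k3, k4, (k5.and hQ).mono fun _ e => ⟨e.1.1, e.1.2.right e.2⟩⟩

theorem Psi.bot {c : Ctx H Γ} : Psi c T o fun _ => ⊥ := fun Z₀ h1 h2 =>
  ⟨Z₀, T.k, _, h1, h2, T.big, T.const 0, Eventually.of_forall fun _ =>
    ⟨le_rfl, by simpa using LI_of_le bot_le⟩⟩

theorem Psi.sup {c : Ctx H Γ} {P Q : ℕ → Subgroup H} (h : Psi c T o P) (h' : Psi c T o Q)
    (hPQ : ∀ᶠ i in UU, P i ≤ Nm (Q i)) : Psi c T o fun i => P i ⊔ Q i := by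
  intro Z₀ h1 h2
  obtain ⟨Z, a, s, k1, k2, k3, k4, k5⟩ := h Z₀ h1 h2
  obtain ⟨Z', a', s', l1, l2, l3, l4, l5⟩ := h' Z k1 k2
  refine ⟨Z', _, _, l1, l2, Cut.not_min k3 l3, T.add l4 k4, ?_⟩
  filter_upwards [k5, l5, hPQ] with i e1 e2 e3
  refine ⟨e2.1.trans e1.1, ?_⟩
  push_cast
  exact LI.sup e3 (e1.2.left (CK_anti c o (min_le_left _ _) e2.1))
    (e2.2.left (CK_anti c o (min_le_right _ _) le_rfl))

theorem GD.Psi_cj (G : GD H Γ C) {P : ℕ → Subgroup H} {g : ℕ → H} (h : Psi G.c T o P)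
    (hg : NS T Γ o g) : Psi G.c T o fun i => cj (g i) (P i) ⊓ St H o := by
  intro Z₀ h1 h2
  obtain ⟨Z, a, s, k1, k2, k3, k4, k5⟩ := h _ (G.LS_cj h1 (hg.inv G.c))
    fun e => h2 (e.of_conj G.c (hg.inv G.c))
  obtain ⟨r, r1, r2⟩ := id hg
  refine ⟨_, _, s, G.LS_cj k1 hg, fun e => k2 (e.of_conj G.c hg), Cut.not_sub k3 r1, k4, ?_⟩
  filter_upwards [k5, r2, Cut.lt_of r1 k3] with i e1 e2 e3
  refine ⟨cj_le_iff.2 e1.1, ((e1.2.cj (g i)).right inf_le_left).left' ?_⟩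
  rintro _ ⟨⟨u, hu, rfl⟩, y2⟩
  refine ⟨y2.2, ?_⟩
  rintro _ ⟨v, hv, rfl⟩
  exact Kn_near_le (k := a i - r i) (l := a i) e2.symm (by omega) (conj_comm (g i) u v ▸ G.c.Kn_conj (g i) (hu.2 v hv))

theorem Psi.iSup {c : Ctx H Γ} {B : ℕ} {P : Fin B → ℕ → Subgroup H} {N : ℕ → Subgroup H}
    (h : ∀ l, Psi c T o (P l)) (h1 : ∀ᶠ i in UU, ∀ l, P l i ≤ N i ∧ N i ≤ Nm (P l i)) :
    Psi c T o fun i => ⨆ l, P l i := by
  classical
  have key : ∀ s : Finset (Fin B), Psi c T o fun i => ⨆ l ∈ s, P l i := by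
    intro s
    induction s using Finset.induction_on with
    | empty => simpa using Psi.bot
    | insert a s _ ih =>
      refine (ih.sup (h a) (h1.mono fun i e => ?_)).anti (Eventually.of_forall fun i => ?_)
      · exact iSup₂_le fun l _ => (e l).1.trans (e a).2
      · rw [Finset.iSup_insert, sup_comm]
  simpa using key Finset.univ

/-- The invariants of the rounds. -/
def Good (c : Ctx H Γ) (T : Cut) (o : X) (P : ℕ → Subgroup H) : Prop :=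
  LS T Γ o P ∧ ¬ DP T Γ o P ∧ Psi c T o P ∧ ∀ᶠ i in UU, P i ≤ Kn H Γ 1 o

theorem GD.rounds (G : GD H Γ C) : ∃ K : ℕ, 0 < K ∧ ∀ P : ℕ → Subgroup H, Good G.c T o P →
    ∃ (Q : ℕ → Subgroup H) (b s : ℕ → ℕ), Good G.c T o Q ∧ ¬ T.Sm b ∧ T.Sm s ∧ ∀ᶠ i in UU,
      ∀ a, a + s i ≤ b i →
        lx (Kn H Γ a o) (P i) + a / K ≤ lx (Kn H Γ (a + s i) o) (Q i) + (s i : ℕ) := by
  obtain ⟨B, K, hB, hK, h⟩ := G.round
  refine ⟨K, hK, fun P ⟨p1, p2, p3, p4⟩ => ?_⟩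
  obtain ⟨Z, b, s, ⟨s₁, z1, z2⟩, z3, z4, z5, z6⟩ := p3 P p1 p2
  obtain ⟨s₂, z7, z8⟩ := not_DP.1 z3
  obtain ⟨s₃, q1, q2⟩ := not_DP.1 p2
  obtain ⟨N, ⟨s₄, q3, q4⟩, q5⟩ := p1.nm
  have hn := T.add (T.add (T.add (Cut.mul (T.add z1 z7) 3) q1) q3) z5
  have hs := Cut.aff hn K
  obtain ⟨y, hy⟩ := ev_choice (T := fun _ => (Fin B → H) × Subgroup H) (fun _ => (1, ⊥))
    (P := fun i y => LI y.2 (St H o) (K * (3 * (s₁ i + s₂ i) + s₃ i + s₄ i + s i + 1) : ℕ) ∧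
      y.2 ≤ Kn H Γ 1 o ∧ (∀ l, y.2 ≤ Nm (cj (y.1 l) (P i))) ∧
      (∀ l, Near Γ (K * (3 * (s₁ i + s₂ i) + s₃ i + s₄ i + s i + 1)) o (y.1 l • o)) ∧
      ∀ a, a + K * (3 * (s₁ i + s₂ i) + s₃ i + s₄ i + s i + 1) ≤ b i →
        lx (Kn H Γ a o) (P i) + a / K ≤
          lx (Kn H Γ (a + K * (3 * (s₁ i + s₂ i) + s₃ i + s₄ i + s i + 1)) o)
            (⨆ l, cj (y.1 l) (P i) ⊓ y.2) +
          (K * (3 * (s₁ i + s₂ i) + s₃ i + s₄ i + s i + 1) : ℕ)) (by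
      filter_upwards [p4, z2, z6, z8, q2, q4, q5] with i e1 e2 e3 e4 e5 e6 e7
      obtain ⟨u, M, u1, u2, -⟩ := e2
      obtain ⟨z, hz1, hz2⟩ := SetLike.not_le_iff_exists.1 e4
      obtain ⟨w, w', u3, u4⟩ := G.wall_of (n := s₁ i + s₂ i) (u1.mono (by omega)) (u2 hz1)
        fun e => hz2 (Kn_anti (by omega) o e)
      obtain ⟨g, N', k⟩ := h o (3 * (s₁ i + s₂ i) + s₃ i + s₄ i + s i) (b i) (P i) (N i) z w w' e1
        e7 (e6.mono (Nat.cast_le.2 (by omega))) (fun e => e5 (e.trans (Kn_anti (by omega) o)))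
        (u3.mono (by omega)) u4 ((e3.2.left (CK_anti G.c o le_rfl
          (Set.singleton_subset_iff.2 hz1))).mono (Nat.cast_le.2 (by omega)))
      exact ⟨(g, N'), k⟩)
  have hg : ∀ l, NS T Γ o fun i => (y i).1 l := fun l => ⟨_, hs, hy.mono fun _ e => e.2.2.2.1 l⟩
  have hN : LgS T o fun i => (y i).2 := ⟨_, hs, hy.mono fun _ e => e.1⟩
  have hQ : ∀ᶠ i in UU, ∀ l, cj ((y i).1 l) (P i) ⊓ (y i).2 ≤ (y i).2 ∧
      (y i).2 ≤ Nm (cj ((y i).1 l) (P i) ⊓ (y i).2) := hy.mono fun i e l =>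
    ⟨inf_le_right, fun g hg => Nm_inf (e.2.2.1 l hg) (le_Nm_self _ hg)⟩
  refine ⟨fun i => ⨆ l, cj ((y i).1 l) (P i) ⊓ (y i).2, b, _, ⟨⟨_, hs, ?_⟩, fun e => ?_, ?_, ?_⟩,
    z4, hs, hy.mono fun _ e => e.2.2.2.2⟩
  · filter_upwards [hy, hQ] with i e1 e2
    refine ⟨o, (y i).2, Near.refl _ _, (iSup_le fun _ => inf_le_right).trans e1.2.1, ?_, e1.1⟩
    refine le_Nm_of_cj_le fun g hg => cj_le_iff.2 (iSup_le fun l => cj_le_iff.1 ?_)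
    rw [mem_Nm_iff.1 ((e2 l).2 hg)]
    exact le_iSup (fun l => cj ((y i).1 l) (P i) ⊓ (y i).2) l
  · refine p2 ((G.A4S (G.LS_cj p1 (hg ⟨0, hB⟩)) hN (e.anti ?_)).of_conj G.c (hg ⟨0, hB⟩))
    exact Eventually.of_forall fun i => le_iSup (fun l => cj ((y i).1 l) (P i) ⊓ (y i).2) _
  · refine Psi.iSup (P := fun l i => cj ((y i).1 l) (P i) ⊓ (y i).2) (fun l => ?_) hQ
    exact (G.Psi_cj p3 (hg l)).anti
      (hy.mono fun i e => inf_le_inf_left _ (e.2.1.trans (Kn_le_St _ _)))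
  · exact hy.mono fun i e => (iSup_le fun _ => inf_le_right).trans e.2.1

theorem GD.not_good (G : GD H Γ C) {P : ℕ → Subgroup H} (hP : Good G.c T o P) : False := by
  obtain ⟨K, hK, h⟩ := G.rounds (T := T) (o := o)
  have hK' : (0 : ℝ) < K := by exact_mod_cast hK
  have key : ∀ m : ℕ, ∃ (Q : ℕ → Subgroup H) (b s : ℕ → ℕ), Good G.c T o Q ∧ ¬ T.Sm b ∧ T.Sm s ∧
      ∀ᶠ i in UU, ∀ a, a + s i ≤ b i →
        m * ((a : ℝ) / K) ≤ lx (Kn H Γ (a + s i) o) (Q i) + (s i : ℕ) := by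
    intro m
    induction m with
    | zero =>
      exact ⟨P, T.k, _, hP, T.big, T.const 0, Eventually.of_forall fun _ _ _ => by
        simpa using lx_nonneg _ _⟩
    | succ m ih =>
      obtain ⟨Q, b, s, q1, q2, q3, q4⟩ := ih
      obtain ⟨Q', b', s', r1, r2, r3, r4⟩ := h Q q1
      refine ⟨Q', _, _, r1, Cut.not_min q2 r2, T.add q3 r3, ?_⟩
      filter_upwards [q4, r4] with i e1 e2 a ha
      have k1 := e1 a (by omega)
      have k2 := e2 (a + s i) (by omega)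
      have k3 : (a : ℝ) / K ≤ ((a + s i : ℕ) : ℝ) / K :=
        div_le_div_of_nonneg_right (Nat.cast_le.2 (by omega)) hK'.le
      rw [← add_assoc]
      push_cast at k1 k2 k3 ⊢
      linarith
  obtain ⟨Q, b, s, q1, q2, q3, q4⟩ := key (K * (C + 1))
  refine Cut.not_sub q2 q3 (T.mono (Cut.aff q3 (C + 1)) ?_)
  filter_upwards [q4, q1.2.2.2, Cut.lt_of q3 q2] with i e1 e2 e3
  have k1 := e1 (b i - s i) (by omega)
  have k2 := ((G.L2 o (b i - s i + s i)).right (e2.trans (Kn_le_St _ _))).2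
  generalize b i - s i = a at k1 k2
  have k3 : ((K * (C + 1) : ℕ) : ℝ) * (a / K) = (C + 1) * a := by
    push_cast
    field_simp
  have k4 : (a : ℝ) ≤ (C + 1) * (s i + 1) := by
    push_cast at k2
    nlinarith
  exact_mod_cast k4

theorem GD.A5S' (G : GD H Γ C) {J : ℕ → Subgroup H} {a : ℕ → ℕ} (h : LS T Γ o J) (ha : ¬ T.Sm a)
    (h1 : ∀ᶠ i in UU, ∀ u ∈ J i, ∀ v ∈ J i, ⁅u, v⁆ ∈ Kn H Γ (a i) o) : DP T Γ o J := by
  by_contra hc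
  have hK : LgS T o fun _ => Kn H Γ 1 o :=
    G.LgS_K (T.const 0) (T.const 1) (Eventually.of_forall fun _ => Near.refl _ _)
  have h2 := h.infN hK
  refine G.not_good (T := T) (o := o) (P := fun i => J i ⊓ Kn H Γ 1 o)
    ⟨h2, fun e => hc (G.A4S h hK e), fun Z₀ z1 z2 => ?_, Eventually.of_forall fun _ => inf_le_right⟩
  by_cases z3 : DP T Γ o fun i => Z₀ i ⊓ J i
  · obtain ⟨b, b1, b2⟩ := DP_iff.1 z3
    obtain ⟨N, n1, n2⟩ := h.nm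
    obtain ⟨M, ⟨s, m1, m2⟩, m3⟩ := z1.nm
    refine ⟨_, b, s, z1.infN n1, fun e => z2 (G.A4S z1 n1 e), b1, m1, ?_⟩
    filter_upwards [b2, n2, m2, m3] with i e1 e2 e3 e4
    refine ⟨inf_le_left, (e3.right (inf_le_right.trans (Kn_le_St _ _))).left' fun u hu => ?_⟩
    exact ⟨Kn_le_St _ _ hu.2.2, fun v hv =>
      e1 ⟨comm_mem_right hv.1 (e4 hu.1), comm_mem_left hu.2.1 (e2 hv.2)⟩⟩
  · refine ⟨_, a, _, z1.inf h, z3, ha, T.const 0, h1.mono fun i e => ⟨inf_le_left, ?_⟩⟩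
    simpa using LI_of_le (A := CK G.c o (a i) (Z₀ i ⊓ J i : Subgroup H))
      (B := J i ⊓ Kn H Γ 1 o) fun u hu => ⟨Kn_le_St _ _ hu.2, fun v hv => e u hu.1 v hv.2⟩

end Pool.Agent.Lib.MP_bf45aa_co
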