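import Pool.Agent.Lib.MP_bf45aa_co.PS2

set_option autoImplicit false
set_option linter.unusedSectionVars false

/-! One round of the growth argument. -/

namespace Pool.Agent.Lib.MP_bf45aa_co

open Subgroup Filter
open scoped commutatorElement

variable {H X : Type} [Group H] [MulAction H X] {Γ : SimpleGraph X} {C : ℕ}

/-- The centraliser modulo the ball stabiliser. -/
def CK (c : Ctx H Γ) (o : X) (a : ℕ) (S : Set H) : Subgroup H :=
  CM (St H o) (Kn H Γ a o) (c.St_le_Nm_Kn a o) S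

theorem CK_anti (c : Ctx H Γ) (o : X) {a b : ℕ} (h : a ≤ b) {S T : Set H} (hS : S ⊆ T) :
    CK c o b T ≤ CK c o a S := fun _ hg => ⟨hg.1, fun s hs => Kn_anti h o (hg.2 s (hS hs))⟩

theorem GD.round (G : GD H Γ C) : ∃ B K : ℕ, 0 < B ∧ 0 < K ∧
    ∀ (o : X) (n b : ℕ) (P N : Subgroup H) (z : H) (w w' : X), P ≤ Kn H Γ 1 o → N ≤ Nm P →
      LI N (St H o) n → ¬ P ≤ Kn H Γ n o → Near Γ n o w → Wall Γ w w' z →
      LI (CK G.c o b {z}) P n → ∃ (g : Fin B → H) (N' : Subgroup H),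
        LI N' (St H o) (K * (n + 1) : ℕ) ∧ N' ≤ Kn H Γ 1 o ∧ (∀ l, N' ≤ Nm (cj (g l) P)) ∧
        (∀ l, Near Γ (K * (n + 1)) o (g l • o)) ∧ ∀ a, a + K * (n + 1) ≤ b →
          lx (Kn H Γ a o) P + a / K ≤
            lx (Kn H Γ (a + K * (n + 1)) o) (⨆ l, cj (g l) P ⊓ N') + (K * (n + 1) : ℕ) := by
  obtain ⟨Kd, hd⟩ := G.dens
  set B := 2 ^ (2 * C) + 2 ^ (2 * C) with hB
  have hB0 : 0 < B := by positivity
  set c₂ := B * (1 + 4 * C) + 10 * C with hc₂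
  set K := Kd * B + Kd * (1 + c₂) + c₂ + 4 with hK
  refine ⟨B, K, hB0, by omega, fun o n b P N z w w' h1 h2 h3 h4 h5 hz h6 => ?_⟩
  obtain ⟨g, hg⟩ := G.moves hz.1
  have hK2 : 2 * (n + 1) ≤ K * (n + 1) := Nat.mul_le_mul_right _ (by omega)
  have n1 : ∀ l, Near Γ (n + 1) o (g l • w) := fun l => h5.trans (hg.near hz.1 l)
  have n2 : ∀ l, Near Γ (1 + n) w (g l • o) := fun l =>
    (hg.near hz.1 l).trans (h5.smul G.c.adj (g l)).symm
  have n3 : ∀ l, Near Γ (n + (1 + n)) o (g l • o) := fun l => h5.trans (n2 l)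
  have k0 : (0 : ℝ) ≤ C := by positivity
  have k1 : (0 : ℝ) ≤ n := by positivity
  have k2 : (0 : ℝ) ≤ B := by positivity
  have k3 : (0 : ℝ) ≤ Kd := by positivity
  let N' : Subgroup H := (((⨅ l, cj (g l) N) ⊓ Kn H Γ 1 o) ⊓ St H w) ⊓ St H w'
  have hN : LI N' (St H o) ((B * (1 + 4 * C) + 6 * C) * (n + 1)) := by
    have i1 : ∀ l, LI (cj (g l) N) (St H o) (n + 2 * C * (n + (1 + n) : ℕ)) := fun l => by
      have := h3.cj (g l)
      rw [cj_St] at this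
      exact this.trans (G.near_LI (n3 l))
    refine ((((LI.iInf i1).inf (G.L2 o 1)).inf (G.near_LI h5)).inf
      (G.near_LI (h5.trans (Near.of_adj hz.1)))).mono ?_
    rw [← hB]
    push_cast
    nlinarith [mul_nonneg k0 k1, mul_nonneg k2 k0]
  have hN2 : ∀ l, LI N' (cj (g l) P) (c₂ * (n + 1)) := fun l => by
    refine ((hN.trans (G.near_LI (n3 l).symm)).right ?_).mono ?_
    · rw [← cj_St]
      exact cj_mono _ (h1.trans (Kn_le_St _ _))
    · rw [hc₂]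
      push_cast
      nlinarith [mul_nonneg k0 k1]
  have hc0 : (0 : ℝ) ≤ c₂ := by positivity
  have hKr : (K : ℝ) = Kd * B + Kd * (1 + c₂) + c₂ + 4 := by rw [hK]; push_cast; ring
  refine ⟨g, N', hN.mono ?_, fun _ h => h.1.1.2, fun l y hy => ?_,
    fun l => (n3 l).mono (by omega), fun a ha => ?_⟩
  · have : (B * (1 + 4 * C) + 6 * C) * (n + 1) ≤ K * (n + 1) := Nat.mul_le_mul_right _ (by omega)
    exact_mod_cast this
  · rw [← cj_Nm]
    exact cj_mono _ h2 (mem_iInf.1 hy.1.1.1 l)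
  set e := a + K * (n + 1) with he
  set Q : Subgroup H := ⨆ l, cj (g l) P ⊓ N' with hQ
  have q1 : Q ≤ N' := iSup_le fun _ => inf_le_right
  have q2 : Q ≤ St H o := q1.trans fun _ h => Kn_le_St _ _ h.1.1.2
  have q3 : ∀ l, ∀ y ∈ N', y ∈ St H (g l • w) := fun l y hy => by
    rcases hg.1 l with e | e <;> rw [e]
    · exact hy.1.2
    · exact hy.2
  have i2 : ∀ l, LI (CK G.c (g l • w) (a + 1) {g l * z * (g l)⁻¹}) Q
      (lx (Kn H Γ e o) Q - lx (Kn H Γ a o) P + (n + c₂ * (n + 1))) := by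
    intro l
    set D := CK G.c (g l • w) (a + 1) {g l * z * (g l)⁻¹} with hD
    have j1 : Kn H Γ e o ≤ D := fun y hy => by
      have j2 : y ∈ Kn H Γ (a + 1) (g l • w) := Kn_near_le (n1 l) (by omega) hy
      refine ⟨Kn_le_St _ _ j2, fun s hs => comm_mem_left j2 (G.c.St_le_Nm_Kn _ _ ?_)⟩
      rw [Set.mem_singleton_iff.1 hs]
      exact (hz.conj G.c (g l)).2.1
    have j2 : cj (g l) (CK G.c o b {z}) ⊓ N' ⊓ cj (g l) P ≤ D ⊓ Q := by
      rintro y ⟨⟨y1, y2⟩, y3⟩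
      refine ⟨⟨q3 l y y2, fun s hs => ?_⟩, mem_iSup_of_mem l ⟨y3, y2⟩⟩
      obtain ⟨u, hu, rfl⟩ := mem_cj'.1 y1
      rw [Set.mem_singleton_iff.1 hs, conj_comm]
      exact G.c.Kn_conj _ (Kn_near_le h5 (by omega) (hu.2 z rfl))
    have j3 := G.fin_K o e q2
    have j4 := lx_add (A := Kn H Γ e o) (B := D) (C := Q) (by rwa [inf_of_le_left j1])
    rw [inf_of_le_left j1] at j4
    have j5 := ((LI_lx (G.fin_K o e (inf_le_right.trans q2 : D ⊓ Q ≤ _))).right j2).trans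
      ((h6.cj (g l)).inf (hN2 l)).inf_right
    have j6 := (j5.left (Kn_near_le (k := a) (n3 l) (by omega))).2
    rw [← G.c.cj_Kn, lx_cj] at j6
    exact ⟨((LI_lx j3).left j1).1, by linarith⟩
  have i3 := (LI.iInf i2).left' (A' := Kn H Γ a w) fun y hy =>
    G.c.rigid hg hz (q1 hy.2).1.2 (q1 hy.2).2 fun l => (mem_iInf.1 hy.1 l).2 _ rfl
  have i4 := (i2 ⟨0, hB0⟩).nonneg
  set τ := lx (Kn H Γ e o) Q - lx (Kn H Γ a o) P + (n + c₂ * (n + 1)) with hτ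
  have i5 : (a : ℝ) ≤ n + 1 + Kd * (n + (B * τ + c₂ * (n + 1)) + 1) := by
    by_cases h7 : a ≤ n + 1
    · have : (a : ℝ) ≤ n + 1 := by exact_mod_cast h7
      have : 0 ≤ Kd * (n + (B * τ + c₂ * (n + 1)) + 1) := by positivity
      linarith
    obtain ⟨j, rfl⟩ : ∃ j, a = j + (1 + n) := ⟨a - (1 + n), by omega⟩
    have j1 := (i3.right (le_iSup (fun l => cj (g l) P ⊓ N') ⟨0, hB0⟩)).trans
      ((hN2 ⟨0, hB0⟩).left' (A' := cj (g ⟨0, hB0⟩) P ⊓ N') fun y hy => ⟨hy.2, hy.1⟩)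
    have j2 := (j1.left (Kn_near_le (k := j) (n2 ⟨0, hB0⟩) le_rfl)).cj (g ⟨0, hB0⟩)⁻¹
    rw [G.c.cj_Kn, inv_smul_smul, cj_inv_cj] at j2
    have j3 := hd o n j P _ ⟨o, N, Near.refl _ _, h1, h2, h3⟩ h4 (j2.right inf_le_left)
    push_cast
    linarith
  have hKp : (0 : ℝ) < K := by rw [hKr]; positivity
  have i6 : (a : ℝ) / K ≤ τ + (1 + Kd * (1 + c₂)) * (n + 1) := by
    rw [div_le_iff₀ hKp]
    have j1 : Kd * B * τ ≤ τ * K := by
      rw [mul_comm τ]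
      refine mul_le_mul_of_nonneg_right ?_ i4
      rw [hKr]
      nlinarith [mul_nonneg k3 hc0]
    have j2 : (1 + Kd * (1 + c₂)) * (n + 1) * (1 : ℝ) ≤ (1 + Kd * (1 + c₂)) * (n + 1) * K := by
      refine mul_le_mul_of_nonneg_left ?_ (by positivity)
      rw [hKr]
      nlinarith [mul_nonneg k3 hc0, mul_nonneg k3 k2]
    nlinarith
  push_cast
  have j3 : (c₂ + 2 + Kd * (1 + c₂)) * (n + 1 : ℝ) ≤ K * (n + 1) := by
    refine mul_le_mul_of_nonneg_right ?_ (by positivity)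
    rw [hKr]
    nlinarith [mul_nonneg k3 k2]
  nlinarith

end Pool.Agent.Lib.MP_bf45aa_co
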