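import Pool.Agent.Lib.MP_bf45aa_co.PZDef

set_option autoImplicit false
set_option linter.unusedSectionVars false

/-! Logarithms of indices. -/

namespace Pool.Agent.Lib.MP_bf45aa_co

open Subgroup Filter
open scoped commutatorElement

variable {H : Type*} [Group H]

/-- The binary logarithm of the index of `A ⊓ B` in `B`. -/
noncomputable def lx (A B : Subgroup H) : ℝ := Real.logb 2 (A.relIndex B)

/-- `A ⊓ B` has finite index at most `2 ^ r` in `B`. -/
def LI (A B : Subgroup H) (r : ℝ) : Prop := A.relIndex B ≠ 0 ∧ lx A B ≤ r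

theorem lg_le {m n : ℕ} (hm : m ≠ 0) (h : m ≤ n) : Real.logb 2 (m : ℝ) ≤ Real.logb 2 (n : ℝ) :=
  Real.logb_le_logb_of_le (by norm_num) (by exact_mod_cast Nat.pos_of_ne_zero hm) (by exact_mod_cast h)

theorem lg_mul {m n : ℕ} (hm : m ≠ 0) (hn : n ≠ 0) :
    Real.logb 2 ((m * n : ℕ) : ℝ) = Real.logb 2 (m : ℝ) + Real.logb 2 (n : ℝ) := by
  rw [Nat.cast_mul, Real.logb_mul (by exact_mod_cast hm) (by exact_mod_cast hn)]

theorem lg_two_pow (n : ℕ) : Real.logb 2 ((2 ^ n : ℕ) : ℝ) = n := by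
  rw [Nat.cast_pow, Real.logb_pow]; simp

theorem lg_nonneg (m : ℕ) : 0 ≤ Real.logb 2 (m : ℝ) := by
  rcases Nat.eq_zero_or_pos m with rfl | h
  · simp
  · exact Real.logb_nonneg (by norm_num) (by exact_mod_cast h)

theorem lg_le_iff {m n : ℕ} (hm : m ≠ 0) : Real.logb 2 (m : ℝ) ≤ n ↔ m ≤ 2 ^ n := by
  rw [Real.logb_le_iff_le_rpow (by norm_num) (by exact_mod_cast Nat.pos_of_ne_zero hm),
    Real.rpow_natCast]
  exact_mod_cast Iff.rfl

theorem le_lg_iff {m n : ℕ} (hm : m ≠ 0) : (n : ℝ) ≤ Real.logb 2 (m : ℝ) ↔ 2 ^ n ≤ m := by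
  rw [Real.le_logb_iff_rpow_le (by norm_num) (by exact_mod_cast Nat.pos_of_ne_zero hm),
    Real.rpow_natCast]
  exact_mod_cast Iff.rfl

theorem lx_nonneg (A B : Subgroup H) : 0 ≤ lx A B := lg_nonneg _

theorem LI_iff {A B : Subgroup H} {n : ℕ} :
    LI A B n ↔ A.relIndex B ≠ 0 ∧ A.relIndex B ≤ 2 ^ n :=
  and_congr_right fun h => lg_le_iff h

theorem LI.nonneg {A B : Subgroup H} {r : ℝ} (h : LI A B r) : 0 ≤ r := (lx_nonneg A B).trans h.2

theorem LI.mono {A B : Subgroup H} {r s : ℝ} (h : LI A B r) (hr : r ≤ s) : LI A B s :=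
  ⟨h.1, h.2.trans hr⟩

theorem LI_lx {A B : Subgroup H} (h : A.relIndex B ≠ 0) : LI A B (lx A B) := ⟨h, le_rfl⟩

theorem LI.left {A A' B : Subgroup H} {r : ℝ} (h : LI A B r) (hA : A ≤ A') : LI A' B r := by
  have h1 : A'.relIndex B ≠ 0 := fun e => h.1 (relIndex_eq_zero_of_le_left hA e)
  exact ⟨h1, (lg_le h1 (relIndex_le_of_le_left hA h.1)).trans h.2⟩

theorem LI.right {A B B' : Subgroup H} {r : ℝ} (h : LI A B r) (hB : B' ≤ B) : LI A B' r := by
  have h1 : A.relIndex B' ≠ 0 := fun e => h.1 (relIndex_eq_zero_of_le_right hB e)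
  exact ⟨h1, (lg_le h1 (relIndex_le_of_le_right hB h.1)).trans h.2⟩

theorem LI.inf_right {A B : Subgroup H} {r : ℝ} (h : LI A B r) : LI (A ⊓ B) B r := by
  unfold LI lx at *; rwa [inf_relIndex_right]

theorem LI.left' {A A' B : Subgroup H} {r : ℝ} (h : LI A B r) (hA : A ⊓ B ≤ A') : LI A' B r :=
  h.inf_right.left hA

theorem LI_of_le {A B : Subgroup H} (h : B ≤ A) : LI A B 0 := by
  unfold LI lx; rw [relIndex_eq_one.2 h]; simp

theorem lx_add {A B C : Subgroup H} (h : (A ⊓ B).relIndex C ≠ 0) :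
    lx (A ⊓ B) C = lx A (B ⊓ C) + lx B C := by
  rw [← relIndex_inf_mul_relIndex] at h
  unfold lx
  rw [← relIndex_inf_mul_relIndex, lg_mul (left_ne_zero_of_mul h) (right_ne_zero_of_mul h)]

theorem lx_chain {A B C : Subgroup H} (h1 : A ≤ B) (h2 : B ≤ C) (h : A.relIndex C ≠ 0) :
    lx A C = lx A B + lx B C := by
  have := lx_add (A := A) (B := B) (C := C) (by rwa [inf_of_le_left h1])
  rwa [inf_of_le_left h1, inf_of_le_left h2] at this

theorem LI.inf' {A B C : Subgroup H} {r s : ℝ} (h1 : LI A (B ⊓ C) r) (h2 : LI B C s) :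
    LI (A ⊓ B) C (r + s) := by
  have h3 : (A ⊓ B).relIndex C ≠ 0 := by
    rw [← relIndex_inf_mul_relIndex]; exact mul_ne_zero h1.1 h2.1
  exact ⟨h3, by rw [lx_add h3]; exact add_le_add h1.2 h2.2⟩

theorem LI.inf {A B C : Subgroup H} {r s : ℝ} (h1 : LI A C r) (h2 : LI B C s) :
    LI (A ⊓ B) C (r + s) := (h1.right inf_le_right).inf' h2

theorem LI.trans {A B C : Subgroup H} {r s : ℝ} (h1 : LI A B r) (h2 : LI B C s) :
    LI A C (r + s) := ((h1.right inf_le_left).inf' h2).left inf_le_left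

theorem lx_cj (g : H) (A B : Subgroup H) : lx (cj g A) (cj g B) = lx A B := by
  unfold lx; rw [relIndex_cj]

theorem LI.cj {A B : Subgroup H} {r : ℝ} (h : LI A B r) (g : H) : LI (cj g A) (cj g B) r :=
  ⟨by rw [relIndex_cj]; exact h.1, by rw [lx_cj]; exact h.2⟩

theorem LI.biInf {ι : Type*} (s : Finset ι) {A : ι → Subgroup H} {C : Subgroup H} {r : ι → ℝ}
    (h : ∀ i ∈ s, LI (A i) C (r i)) : LI (⨅ i ∈ s, A i) C (∑ i ∈ s, r i) := by
  classical
  induction s using Finset.induction_on with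
  | empty => simpa using LI_of_le le_top
  | insert a s ha ih =>
    rw [Finset.iInf_insert, Finset.sum_insert ha]
    exact (h a (Finset.mem_insert_self _ _)).inf (ih fun i hi => h i (Finset.mem_insert_of_mem hi))

theorem LI.iInf {n : ℕ} {A : Fin n → Subgroup H} {C : Subgroup H} {r : ℝ}
    (h : ∀ i, LI (A i) C r) : LI (⨅ i, A i) C (n * r) := by
  have := LI.biInf Finset.univ (A := A) (C := C) (r := fun _ => r) fun i _ => h i
  simpa using this

theorem relIndex_le_of_fun {A B : Subgroup H} {Ω : Type*} [Finite Ω] (φ : B → Ω)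
    (h : ∀ g g' : B, φ g = φ g' → (g : H)⁻¹ * g' ∈ A) :
    A.relIndex B ≠ 0 ∧ A.relIndex B ≤ Nat.card Ω := by
  have hi : Function.Injective fun q : B ⧸ A.subgroupOf B => φ q.out := by
    intro q r e
    rw [← q.out_eq, ← r.out_eq]
    exact QuotientGroup.eq.2 (h _ _ e)
  have := Finite.of_injective _ hi
  exact ⟨index_ne_zero_of_finite, Nat.card_le_card_of_injective _ hi⟩

theorem LI_of_fun {A B A' B' : Subgroup H} {r : ℝ} (h0 : LI A' B' r) (φ : B → B')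
    (h : ∀ g g' : B, (φ g : H)⁻¹ * φ g' ∈ A' → (g : H)⁻¹ * g' ∈ A) : LI A B r := by
  have : Finite (B' ⧸ A'.subgroupOf B') := Nat.finite_of_card_ne_zero h0.1
  have h1 := relIndex_le_of_fun (A := A) (fun g => (QuotientGroup.mk (φ g) : B' ⧸ A'.subgroupOf B'))
    fun g g' e => h g g' (mem_subgroupOf.1 (QuotientGroup.eq.1 e))
  exact ⟨h1.1, (lg_le h1.1 h1.2).trans h0.2⟩

/-- Covering by cosets. -/
theorem LI.cover {C U T : Subgroup H} {r : ℝ} (h0 : LI C T r)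
    (h : ∀ u ∈ U, ∃ t ∈ T, t⁻¹ * u ∈ C) : LI C U r := by
  choose t ht htc using h
  refine LI_of_fun h0 (fun u => ⟨t u u.2, ht _ _⟩) fun g g' e => ?_
  have := C.mul_mem (C.mul_mem (C.inv_mem (htc _ g.2)) e) (htc _ g'.2)
  simpa [mul_assoc] using this

theorem LI.sup {C P Q : Subgroup H} {r s : ℝ} (hPQ : P ≤ Nm Q) (h1 : LI C P r) (h2 : LI C Q s) :
    LI C (P ⊔ Q) (s + r) := by
  have h3 : P ⊔ Q ≤ Nm Q := sup_le hPQ (le_Nm_self Q)
  have h4 : LI (C ⊓ (P ⊔ Q) ⊔ Q) (P ⊔ Q) r := by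
    refine (h1.left' (A' := C ⊓ (P ⊔ Q) ⊔ Q) ((inf_le_inf_left _ le_sup_left).trans le_sup_left)).cover
      fun u hu => ?_
    obtain ⟨a, ha, b, hb, rfl⟩ := mem_sup_of_left_Nm hPQ hu
    exact ⟨a, ha, by rw [inv_mul_cancel_left]; exact mem_sup_right hb⟩
  have h5 : LI C (C ⊓ (P ⊔ Q) ⊔ Q) s := by
    refine h2.cover fun u hu => ?_
    obtain ⟨a, ha, b, hb, rfl⟩ := mem_sup_of_left_Nm (inf_le_right.trans h3) hu
    exact ⟨a * b * a⁻¹, conj_mem_of_Nm (h3 ha.2) hb, by simpa [mul_assoc] using ha.1⟩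
  exact h5.trans h4

theorem lx_sup {A N : Subgroup H} (h : A ≤ Nm N) : lx N (A ⊔ N) = lx N A := by
  unfold lx; rw [relIndex_sup_of_Nm h]

theorem one_le_lx {A B : Subgroup H} (h : A.relIndex B ≠ 0) (h1 : ¬ B ≤ A) : 1 ≤ lx A B := by
  have h2 : A.relIndex B ≠ 1 := fun e => h1 (relIndex_eq_one.1 e)
  have := (le_lg_iff (n := 1) h).2 (by omega)
  rwa [Nat.cast_one] at this

/-- The centraliser modulo `K` of a set `S` inside `E`, where `E` normalises `K`. -/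
def CM (E K : Subgroup H) (hE : E ≤ Nm K) (S : Set H) : Subgroup H where
  carrier := {g | g ∈ E ∧ ∀ s ∈ S, ⁅g, s⁆ ∈ K}
  one_mem' := ⟨one_mem _, fun s _ => by simp⟩
  mul_mem' := fun {a b} ha hb => ⟨mul_mem ha.1 hb.1, fun s hs => by
    have := mul_mem (conj_mem_of_Nm (hE ha.1) (hb.2 s hs)) (ha.2 s hs)
    convert this using 1
    simp only [commutatorElement_def]; group⟩
  inv_mem' := fun {a} ha => ⟨inv_mem ha.1, fun s hs => by
    have := conj_mem_of_Nm' (hE ha.1) (inv_mem (ha.2 s hs))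
    convert this using 1
    simp only [commutatorElement_def]; group⟩

theorem mem_CM {E K : Subgroup H} {hE : E ≤ Nm K} {S : Set H} {g : H} :
    g ∈ CM E K hE S ↔ g ∈ E ∧ ∀ s ∈ S, ⁅g, s⁆ ∈ K := Iff.rfl

theorem conj_comm (h g s : H) : ⁅h * g * h⁻¹, h * s * h⁻¹⁆ = h * ⁅g, s⁆ * h⁻¹ := by
  simp only [commutatorElement_def]; group

theorem Nm_CM {E K J : Subgroup H} {hE : E ≤ Nm K} {N : Subgroup H} (h1 : N ≤ Nm E)
    (h2 : N ≤ Nm K) (h3 : N ≤ Nm J) : N ≤ Nm (CM E K hE J) := by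
  refine le_Nm_of_conj fun n hn g hg => ⟨conj_mem_of_Nm (h1 hn) hg.1, fun s hs => ?_⟩
  have := conj_mem_of_Nm (h2 hn) (hg.2 _ (conj_mem_of_Nm' (h3 hn) hs))
  convert this using 1
  simp only [commutatorElement_def]; group

theorem comm_mem_left {J : Subgroup H} {g n : H} (hg : g ∈ J) (hn : n ∈ Nm J) : ⁅g, n⁆ ∈ J := by
  have := mul_mem hg (conj_mem_of_Nm hn (inv_mem hg))
  convert this using 1
  simp only [commutatorElement_def]; group

theorem comm_mem_right {J : Subgroup H} {g n : H} (hg : g ∈ J) (hn : n ∈ Nm J) : ⁅n, g⁆ ∈ J := by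
  rw [← commutatorElement_inv]; exact inv_mem (comm_mem_left hg hn)

theorem comm_symm {J : Subgroup H} {g n : H} (h : ⁅g, n⁆ ∈ J) : ⁅n, g⁆ ∈ J := by
  rw [← commutatorElement_inv]; exact inv_mem h

end Pool.Agent.Lib.MP_bf45aa_co
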