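import Pool.Agent.Lib.MP_bf45aa_co.PS0

set_option autoImplicit false
set_option linter.unusedSectionVars false

/-! Graph data, walls, moves, rigidity and density. -/

namespace Pool.Agent.Lib.MP_bf45aa_co

open Subgroup Filter
open scoped commutatorElement

/-- The graph part of the limit data. -/
structure GD (H : Type) {X : Type} [Group H] [MulAction H X] (Γ : SimpleGraph X) (C : ℕ) :
    Prop where
  c : Ctx H Γ
  edge : ∃ x y, Γ.Adj x y
  L2 : ∀ (x : X) (i : ℕ), LI (Kn H Γ i x) (St H x) (C * (i + 1))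
  strict : ∀ (x : X) (i : ℕ), ¬ Kn H Γ i x ≤ Kn H Γ (i + 1) x
  lim : ∀ (x : X) (z : ℕ → H), (∀ i, z i ∈ St H x) →
    ∃ ζ ∈ St H x, ∀ r, ∀ᶠ i in UU, ζ⁻¹ * z i ∈ Kn H Γ r x

variable {H X : Type} [Group H] [MulAction H X]

/-- `J` is locally normal near `x` with parameter `n`. -/
def LN (Γ : SimpleGraph X) (x : X) (n : ℕ) (J : Subgroup H) : Prop :=
  ∃ (y : X) (N : Subgroup H), Near Γ n x y ∧ J ≤ Kn H Γ 1 y ∧ N ≤ Nm J ∧ LI N (St H x) n

/-- `z` fixes the arc `w w'` and moves a neighbour of `w`. -/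
def Wall (Γ : SimpleGraph X) (w w' : X) (z : H) : Prop :=
  Γ.Adj w w' ∧ z • w = w ∧ z • w' = w' ∧ z ∉ Kn H Γ 1 w

/-- The exact classes of locally normal subgroups. -/
structure Cls (H : Type) {X : Type} [Group H] [MulAction H X] (Γ : SimpleGraph X) where
  t : ℕ
  σ : H →* Equiv.Perm (Fin t)
  Cen : Fin t → Subgroup H
  pos : 0 < t
  conj : ∀ h g a, g ∈ Cen a → h * g * h⁻¹ ∈ Cen (σ h a)
  fix : ∀ g a, g ∈ Cen a → σ g a = a
  QZ : ∀ y c, c ∈ Kn H Γ 1 y → (∀ a, c ∈ Cen a) → c = 1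
  ne : ∀ a n y, ∃ g, g ≠ 1 ∧ g ∈ Kn H Γ n y ∧ ∀ b, b ≠ a → g ∈ Cen b
  max : ∀ (x : X) (u : ℕ) (R : Fin u → Subgroup H), (∀ a, R a ≠ ⊥ ∧ ∃ n, LN Γ x n (R a)) →
    (∀ a b, a ≠ b → ∀ g ∈ R a, ∀ h ∈ R b, ⁅g, h⁆ = 1) → u ≤ t

variable {Γ : SimpleGraph X}

namespace Cls

variable (K : Cls H Γ)

/-- The elements centralising all classes but one. -/
def M (a : Fin K.t) : Subgroup H := ⨅ b : {b // b ≠ a}, K.Cen b

theorem mem_M {a : Fin K.t} {g : H} : g ∈ K.M a ↔ ∀ b, b ≠ a → g ∈ K.Cen b := by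
  simp [M]

theorem M_le_Cen {a b : Fin K.t} (h : b ≠ a) : K.M a ≤ K.Cen b := fun _ hg => K.mem_M.1 hg b h

theorem M_conj (h : H) {g : H} {a : Fin K.t} (hg : g ∈ K.M a) : h * g * h⁻¹ ∈ K.M (K.σ h a) := by
  refine K.mem_M.2 fun b hb => ?_
  have := K.conj h g ((K.σ h)⁻¹ b) (K.mem_M.1 hg _ fun e => hb (by rw [← e]; simp))
  simpa using this

theorem M_ker {g : H} {a : Fin K.t} (hg : g ∈ K.M a) : K.σ g = 1 := by
  have h1 : ∀ b, b ≠ a → K.σ g b = b := fun b hb => K.fix g b (K.mem_M.1 hg b hb)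
  refine Equiv.ext fun b => ?_
  by_cases hb : b = a
  · subst hb
    by_contra hc
    exact hc ((K.σ g).injective (h1 _ hc))
  · exact h1 b hb

theorem Nm_M {h : H} {a : Fin K.t} (hh : K.σ h a = a) : h ∈ Nm (K.M a) := by
  have h1 : K.σ h⁻¹ a = a := by rw [map_inv, Equiv.Perm.inv_eq_iff_eq, hh]
  refine mem_normalizer_iff.2 fun g => ⟨fun hg => hh ▸ K.M_conj h hg, fun hg => ?_⟩
  have := K.M_conj h⁻¹ hg
  rw [h1] at this
  simpa [mul_assoc] using this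

theorem Nm_Cen {h : H} {a : Fin K.t} (hh : K.σ h a = a) : h ∈ Nm (K.Cen a) := by
  have h1 : K.σ h⁻¹ a = a := by rw [map_inv, Equiv.Perm.inv_eq_iff_eq, hh]
  refine mem_normalizer_iff.2 fun g => ⟨fun hg => hh ▸ K.conj h g a hg, fun hg => ?_⟩
  have := K.conj h⁻¹ _ a hg
  rw [h1] at this
  simpa [mul_assoc] using this

theorem comm_all {a : Fin K.t} {m c : H} (hm : m ∈ K.M a) (hc : c ∈ K.Cen a) (b : Fin K.t) :
    ⁅m, c⁆ ∈ K.Cen b := by
  by_cases hb : b = a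
  · subst hb
    exact comm_mem_right hc (K.Nm_Cen (by rw [K.M_ker hm]; rfl))
  · exact K.M_le_Cen hb (comm_mem_left hm (K.Nm_M (K.fix c a hc)))

/-- `M a` and `Cen a` commute as soon as the commutator fixes a ball of radius one. -/
theorem comm_eq_one {a : Fin K.t} {m c : H} (hm : m ∈ K.M a) (hc : c ∈ K.Cen a) {y : X}
    (h : ⁅m, c⁆ ∈ Kn H Γ 1 y) : ⁅m, c⁆ = 1 := K.QZ y _ h (K.comm_all hm hc)

theorem ker_fin (E : Subgroup H) : ∃ n : ℕ, LI K.σ.ker E n := by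
  have h1 := relIndex_le_of_fun (A := K.σ.ker) (B := E) (fun g => K.σ g) fun g g' e => by
    rw [MonoidHom.mem_ker, map_mul, map_inv, e, inv_mul_cancel]
  exact ⟨Nat.card (Equiv.Perm (Fin K.t)), LI_iff.2 ⟨h1.1, h1.2.trans Nat.lt_two_pow_self.le⟩⟩

end Cls

theorem Ctx.Kn_conj (c : Ctx H Γ) {k : ℕ} {x : X} {a : H} (g : H) (ha : a ∈ Kn H Γ k x) :
    g * a * g⁻¹ ∈ Kn H Γ k (g • x) := by
  rw [← c.cj_Kn]; exact conj_mem_cj ha

theorem Kn_near_le {k l n : ℕ} {x y : X} (h : Near Γ n x y) (hl : k + n ≤ l) :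
    Kn H Γ l x ≤ Kn H Γ k y := fun _ hg => Kn_near h (Kn_anti hl x hg)

theorem Ctx.near_of (c : Ctx H Γ) (x y : X) : ∃ n, Near Γ n x y :=
  let ⟨w⟩ := c.conn x y; ⟨w.length, w, le_rfl⟩

theorem Ctx.eq_one (c : Ctx H Γ) {x : X} {g : H} (h : ∀ n, g ∈ Kn H Γ n x) : g = 1 :=
  c.faithful g fun y => let ⟨n, hn⟩ := c.near_of x y; mem_Kn_iff.1 (h n) y hn

theorem exists_wall {x x' : X} (h : Γ.Adj x x') {g : H} (h1 : g • x = x) (h2 : g • x' = x')
    {k : ℕ} (h3 : g ∉ Kn H Γ (k + 1) x) : ∃ y y', Near Γ k x y ∧ Wall Γ y y' g := by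
  induction k with
  | zero => exact ⟨x, x', Near.refl _ _, h, h1, h2, h3⟩
  | succ k ih =>
    by_cases h4 : g ∈ Kn H Γ (k + 1) x
    · rw [mem_Kn_iff] at h3 h4
      push Not at h3
      obtain ⟨z, hz, h5⟩ := h3
      rcases near_succ' hz with rfl | ⟨y, hy, hyz⟩
      · exact absurd h1 h5
      · have h6 : g ∉ Kn H Γ 1 y := fun h6 => h5 ((mem_K1.1 h6).2 z hyz)
        rcases near_succ' hy with rfl | ⟨y', hy', hyy⟩
        · exact ⟨x, x', Near.refl _ _, h, h1, h2, h6⟩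
        · exact ⟨y, y', hy, hyy.symm, h4 y hy, h4 y' (hy'.mono (by omega)), h6⟩
    · obtain ⟨y, y', hy, h5⟩ := ih h4
      exact ⟨y, y', hy.mono (by omega), h5⟩

theorem Wall.conj (c : Ctx H Γ) {w w' : X} {z : H} (h : Wall Γ w w' z) (g : H) :
    Wall Γ (g • w) (g • w') (g * z * g⁻¹) := by
  refine ⟨c.adj g h.1, by rw [mul_smul, mul_smul, inv_smul_smul, h.2.1],
    by rw [mul_smul, mul_smul, inv_smul_smul, h.2.2.1], fun e => h.2.2.2 ?_⟩
  rwa [← c.cj_Kn, conj_mem_cj_iff] at e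

theorem LN.mono {x : X} {m n : ℕ} {J : Subgroup H} (h : LN Γ x m J) (hm : m ≤ n) : LN Γ x n J :=
  let ⟨y, N, h1, h2, h3, h4⟩ := h
  ⟨y, N, h1.mono hm, h2, h3, h4.mono (by exact_mod_cast hm)⟩

theorem LN.conj (c : Ctx H Γ) {x : X} {n : ℕ} {J : Subgroup H} (h : LN Γ x n J) (g : H) :
    LN Γ (g • x) n (cj g J) := by
  obtain ⟨y, N, h1, h2, h3, h4⟩ := h
  refine ⟨g • y, cj g N, h1.smul c.adj g, by rw [← c.cj_Kn]; exact cj_mono g h2,
    by rw [← cj_Nm]; exact cj_mono g h3, by rw [← cj_St]; exact h4.cj g⟩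

theorem LN.inf {x : X} {m n : ℕ} {J J' : Subgroup H} (h : LN Γ x m J) (h' : LN Γ x n J') :
    LN Γ x (m + n) (J ⊓ J') := by
  obtain ⟨y, N, h1, h2, h3, h4⟩ := h
  obtain ⟨_, N', -, -, h3', h4'⟩ := h'
  exact ⟨y, N ⊓ N', h1.mono (by omega), inf_le_left.trans h2,
    fun g hg => Nm_inf (h3 hg.1) (h3' hg.2), by push_cast; exact h4.inf h4'⟩

theorem LN.infN {x : X} {m n : ℕ} {J N' : Subgroup H} (h : LN Γ x m J) (h' : LI N' (St H x) n) :
    LN Γ x (m + n) (J ⊓ N') := by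
  obtain ⟨y, N, h1, h2, h3, h4⟩ := h
  exact ⟨y, N ⊓ N', h1.mono (by omega), inf_le_left.trans h2,
    fun g hg => Nm_inf (h3 hg.1) (le_Nm_self _ hg.2), by push_cast; exact h4.inf h'⟩

/-- Moves at an arc: conjugating elements which turn any wall element into generators of an
edge-transitive group. -/
def Moves (Γ : SimpleGraph X) (w w' : X) {B : ℕ} (g : Fin B → H) : Prop :=
  (∀ l, g l • w = w ∨ g l • w = w') ∧ ∀ z, Wall Γ w w' z → ∃ N N' : Subgroup H,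
    N ≤ St H w ∧ Tr Γ N w ∧ N' ≤ St H w' ∧ Tr Γ N' w' ∧
    N ≤ closure {a | ∃ l, g l • w = w ∧ g l * z * (g l)⁻¹ = a} ∧
    N' ≤ closure {a | ∃ l, g l • w = w' ∧ g l * z * (g l)⁻¹ = a}

theorem Moves.near {w w' : X} {B : ℕ} {g : Fin B → H} (h : Moves Γ w w' g) (hw : Γ.Adj w w')
    (l : Fin B) : Near Γ 1 w (g l • w) := by
  rcases h.1 l with e | e <;> rw [e]
  · exact Near.refl _ _
  · exact Near.of_adj hw

theorem Ctx.tr_closure (c : Ctx H Γ) {w w' : X} {u : H} (h : Wall Γ w w' u) {ι : Type} (t : ι → H)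
    (ht : ∀ i, t i ∈ St H w) (hc : ∀ g ∈ St H w, ∃ i, (t i)⁻¹ * g ∈ Kn H Γ 1 w) (E : Subgroup H)
    (hE : E ≤ St H w) (hu : ∀ i, t i * u * (t i)⁻¹ ∈ E) : Tr Γ E w := by
  let M : Subgroup H := closure {a | ∃ g ∈ St H w, g * u * g⁻¹ = a}
  have hu0 : u ∈ St H w := h.2.1
  have hM : M ≤ St H w := by
    refine (closure_le _).2 ?_
    rintro _ ⟨g, hg, rfl⟩
    exact mul_mem (mul_mem hg hu0) (inv_mem hg)
  have hN : St H w ≤ Nm M := by
    refine le_Nm_of_cj_le fun g hg => cj_le_iff.2 ((closure_le _).2 ?_)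
    rintro _ ⟨g', hg', rfl⟩
    refine mem_cj.2 (subset_closure ⟨g * g', mul_mem hg hg', ?_⟩)
    group
  have hT : Tr Γ M w := c.sp_tr hM hN h.1 (subset_closure ⟨1, one_mem _, by group⟩) h.2.2.1 h.2.2.2
  have hle : M ≤ E ⊔ Kn H Γ 1 w := by
    refine (closure_le _).2 ?_
    rintro _ ⟨g, hg, rfl⟩
    obtain ⟨i, hi⟩ := hc g hg
    have k1 := conj_mem_of_Nm' (c.St_le_Nm_Kn 1 w hu0) hi
    have k2 := conj_mem_of_Nm (c.St_le_Nm_Kn 1 w (ht i)) (mul_mem k1 (inv_mem hi))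
    have k3 := mul_mem_sup (hu i) k2
    have k4 : g * u * g⁻¹ = t i * u * (t i)⁻¹ *
        (t i * (u⁻¹ * ((t i)⁻¹ * g) * u * ((t i)⁻¹ * g)⁻¹) * (t i)⁻¹) := by group
    rw [k4]
    exact k3
  intro x y hx hy
  obtain ⟨m, hm, e⟩ := hT x y hx hy
  obtain ⟨a, ha, b, hb, rfl⟩ := mem_sup_of_left_Nm (hE.trans (c.St_le_Nm_Kn 1 w)) (hle hm)
  refine ⟨a, ha, ?_⟩
  rwa [mul_smul, (mem_K1.1 hb).2 x hx] at e

theorem exists_reps {A E : Subgroup H} {n : ℕ} (h : LI A E n) :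
    ∃ t : Fin (2 ^ n) → H, (∀ i, t i ∈ E) ∧ ∀ g ∈ E, ∃ i, (t i)⁻¹ * g ∈ A := by
  obtain ⟨h1, h2⟩ := LI_iff.1 h
  have : Finite (E ⧸ A.subgroupOf E) := Nat.finite_of_card_ne_zero h1
  obtain ⟨f, hf⟩ : ∃ f : Fin (2 ^ n) → E ⧸ A.subgroupOf E, Function.Surjective f := by
    have := Fintype.ofFinite (E ⧸ A.subgroupOf E)
    obtain ⟨e⟩ := Function.Embedding.nonempty_of_card_le (α := E ⧸ A.subgroupOf E)
      (β := Fin (2 ^ n)) (by rw [Fintype.card_fin, ← Nat.card_eq_fintype_card]; exact h2)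
    exact ⟨_, Function.invFun_surjective e.injective⟩
  refine ⟨fun i => ((f i).out : E), fun i => Subtype.prop _, fun g hg => ?_⟩
  obtain ⟨i, hi⟩ := hf (QuotientGroup.mk ⟨g, hg⟩)
  have h3 : (f i).out⁻¹ * ⟨g, hg⟩ ∈ A.subgroupOf E :=
    QuotientGroup.eq.1 ((QuotientGroup.out_eq' _).trans hi)
  exact ⟨i, mem_subgroupOf.1 h3⟩

/-- Rigidity. -/
theorem Ctx.rigid (c : Ctx H Γ) {w w' : X} {B : ℕ} {g : Fin B → H} (hg : Moves Γ w w' g) {z : H}
    (hz : Wall Γ w w' z) {y : H} (h1 : y • w = w) (h2 : y • w' = w') {i : ℕ}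
    (h3 : ∀ l, ⁅y, g l * z * (g l)⁻¹⁆ ∈ Kn H Γ (i + 1) (g l • w)) : y ∈ Kn H Γ i w := by
  obtain ⟨N, N', n1, n2, n3, n4, n5, n6⟩ := hg.2 z hz
  have key : ∀ (v : X) (S : Set H), (∀ a ∈ S, a • v = v ∧ ⁅y, a⁆ ∈ Kn H Γ (i + 1) v) →
      ∀ a ∈ closure S, a • v = v ∧ ∀ u, Near Γ (i + 1) v u → (y • u = u ↔ y • a • u = a • u) := by
    intro v S hS a ha
    induction ha using closure_induction with
    | mem a ha =>
      refine ⟨(hS a ha).1, fun u hu => ?_⟩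
      have h4 := hu.smul c.adj a
      rw [(hS a ha).1] at h4
      have h5 := mem_Kn_iff.1 (inv_mem (hS a ha).2) _ h4
      rw [commutatorElement_inv, commutatorElement_def, mul_smul, mul_smul, mul_smul] at h5
      constructor
      · intro e
        have h6 := mem_Kn_iff.1 (hS a ha).2 _ h4
        rw [commutatorElement_def, mul_smul, mul_smul, mul_smul, inv_smul_smul,
          inv_smul_eq_iff.2 e.symm] at h6
        exact h6
      · intro e
        rw [inv_smul_eq_iff.2 e.symm, inv_smul_smul] at h5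
        exact MulAction.injective a h5
    | one => exact ⟨one_smul _ _, fun u _ => by rw [one_smul]⟩
    | mul a b _ _ iha ihb =>
      refine ⟨by rw [mul_smul, ihb.1, iha.1], fun u hu => ?_⟩
      have h4 := hu.smul c.adj b
      rw [ihb.1] at h4
      rw [mul_smul]
      exact (ihb.2 u hu).trans (iha.2 _ h4)
    | inv a _ iha =>
      have h0 : a⁻¹ • v = v := inv_smul_eq_iff.2 iha.1.symm
      refine ⟨h0, fun u hu => ?_⟩
      have h4 := hu.smul c.adj a⁻¹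
      rw [h0] at h4
      have := iha.2 _ h4
      rw [smul_inv_smul] at this
      exact this.symm
  have hs : ∀ l, (g l * z * (g l)⁻¹) • g l • w = g l • w := fun l => (hz.conj c (g l)).2.1
  have k1 := fun a ha => key w _ (by
    rintro _ ⟨l, e, rfl⟩
    exact ⟨by have := hs l; rwa [e] at this, by have := h3 l; rwa [e] at this⟩) a (n5 ha)
  have k2 := fun a ha => key w' _ (by
    rintro _ ⟨l, e, rfl⟩
    exact ⟨by have := hs l; rwa [e] at this, by have := h3 l; rwa [e] at this⟩) a (n6 ha)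
  have main : ∀ j ≤ i, (∀ u, Near Γ j w u → y • u = u) ∧ ∀ u, Near Γ j w' u → y • u = u := by
    intro j hj
    induction j with
    | zero => exact ⟨fun u hu => near_zero hu ▸ h1, fun u hu => near_zero hu ▸ h2⟩
    | succ j ih =>
      obtain ⟨i1, i2⟩ := ih (by omega)
      constructor
      · intro u hu
        rcases near_succ hu with rfl | ⟨v, hv, hu'⟩
        · exact h1
        · obtain ⟨n, hn, e⟩ := n2 v w' hv hz.1
          have h4 := hu'.smul c.adj n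
          rw [e] at h4
          exact ((k1 n hn).2 u (hu.mono (by omega))).2 (i2 _ h4)
      · intro u hu
        rcases near_succ hu with rfl | ⟨v, hv, hu'⟩
        · exact h2
        · obtain ⟨n, hn, e⟩ := n4 v w hv hz.1.symm
          have h4 := hu'.smul c.adj n
          rw [e] at h4
          exact ((k2 n hn).2 u (hu.mono (by omega))).2 (i1 _ h4)
  exact mem_Kn_iff.2 (main i le_rfl).1

namespace GD

variable {C : ℕ} (G : GD H Γ C)
include G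

theorem nbr (x : X) : ∃ y, Γ.Adj x y := by
  obtain ⟨u, v, h⟩ := G.edge
  obtain ⟨w⟩ := G.c.conn x u
  cases w with
  | nil => exact ⟨v, h⟩
  | cons h1 _ => exact ⟨_, h1⟩

theorem vtx (x y : X) : ∃ g : H, g • x = y :=
  let ⟨_, h1⟩ := G.nbr x; let ⟨_, h2⟩ := G.nbr y
  let ⟨g, e, _⟩ := G.c.arc h1 h2; ⟨g, e⟩

theorem fin_K (x : X) (i : ℕ) {E : Subgroup H} (h : E ≤ St H x) : (Kn H Γ i x).relIndex E ≠ 0 :=
  ((G.L2 x i).right h).1

theorem near_LI {n : ℕ} {x y : X} (h : Near Γ n x y) : LI (St H y) (St H x) (2 * C * n) := by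
  induction n generalizing x with
  | zero => rw [near_zero h]; simpa using LI_of_le le_rfl
  | succ n ih =>
    rcases near_succ h with rfl | ⟨z, h1, h2⟩
    · exact (LI_of_le le_rfl).mono (by positivity)
    · refine ((ih h2).trans ((G.L2 x 1).left (Kn_le_St_adj 0 h1))).mono (le_of_eq ?_)
      push_cast; ring

theorem low (x : X) (i : ℕ) : (i : ℝ) ≤ lx (Kn H Γ i x) (St H x) := by
  induction i with
  | zero => simpa using lx_nonneg _ _
  | succ i ih =>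
    rw [lx_chain (Kn_succ_le i x) (Kn_le_St i x) (G.L2 x _).1]
    have := one_le_lx (G.fin_K x (i + 1) (Kn_le_St i x)) (G.strict x i)
    push_cast; linarith

theorem LN_shift {x y : X} {n s : ℕ} {J : Subgroup H} (h : LN Γ y n J) (hs : Near Γ s x y) :
    LN Γ x (n + s + 2 * C * s) J := by
  obtain ⟨u, N, h1, h2, h3, h4⟩ := h
  refine ⟨u, N, (hs.trans h1).mono (by omega), h2, h3, (h4.trans (G.near_LI hs)).mono ?_⟩
  push_cast
  have : (0 : ℝ) ≤ s := by positivity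
  linarith

theorem LN_K (x : X) (i : ℕ) : LN Γ x 0 (Kn H Γ (i + 1) x) :=
  ⟨x, St H x, Near.refl _ _, Kn_anti (by omega) x, G.c.St_le_Nm_Kn _ x, by simpa using LI_of_le le_rfl⟩

theorem wall_of {x y : X} {n : ℕ} {z : H} (h : Near Γ n x y) (h1 : z ∈ Kn H Γ 1 y)
    (h2 : z ∉ Kn H Γ n x) : ∃ w w', Near Γ (3 * n) x w ∧ Wall Γ w w' z := by
  obtain ⟨y', hy⟩ := G.nbr y
  obtain ⟨w, w', h3, h4⟩ := exists_wall hy (mem_K1.1 h1).1 ((mem_K1.1 h1).2 y' hy) (k := 2 * n)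
    fun e => h2 (Kn_near_le h.symm (by omega) e)
  exact ⟨w, w', (h.trans h3).mono (by omega), h4⟩

theorem moves {w w' : X} (h : Γ.Adj w w') : ∃ g : Fin (2 ^ (2 * C) + 2 ^ (2 * C)) → H,
    Moves Γ w w' g := by
  obtain ⟨t, t1, t2⟩ := exists_reps (n := 2 * C) ((G.L2 w 1).mono (by push_cast; linarith))
  obtain ⟨g0, e1, e2⟩ := G.c.arc h h.symm
  refine ⟨Fin.append t fun i => g0 * t i, fun l => ?_, fun z hz => ?_⟩
  · refine Fin.addCases (fun i => ?_) (fun i => ?_) l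
    · rw [Fin.append_left]; exact Or.inl (t1 i)
    · rw [Fin.append_right, mul_smul, mem_St.1 (t1 i)]; exact Or.inr e1
  · let N : Subgroup H := closure {a | ∃ i, t i * z * (t i)⁻¹ = a}
    have n1 : N ≤ St H w := by
      refine (closure_le _).2 ?_
      rintro _ ⟨i, rfl⟩
      exact mul_mem (mul_mem (t1 i) hz.2.1) (inv_mem (t1 i))
    have n2 : Tr Γ N w := G.c.tr_closure hz t t1 t2 N n1 fun i => subset_closure ⟨i, rfl⟩
    refine ⟨N, cj g0 N, n1, n2, by rw [← e1, ← cj_St]; exact cj_mono _ n1,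
      by rw [← e1]; exact G.c.tr_cj n2 g0, closure_mono ?_, cj_le_iff.2 ((closure_le _).2 ?_)⟩
    · rintro _ ⟨i, rfl⟩
      exact ⟨Fin.castAdd _ i, by rw [Fin.append_left]; exact t1 i, by rw [Fin.append_left]⟩
    · rintro _ ⟨i, rfl⟩
      refine mem_cj.2 (subset_closure ⟨Fin.natAdd _ i, ?_, ?_⟩)
      · rw [Fin.append_right, mul_smul, mem_St.1 (t1 i)]; exact e1
      · rw [Fin.append_right]; group

/-- An approximate centraliser of a wall element has large index. -/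
theorem bigF : ∃ K : ℕ, ∀ (w w' : X) (z : H) (A : Subgroup H) (i : ℕ) (r : ℝ), Wall Γ w w' z →
    (∀ g ∈ A, g • w = w → ⁅g, z⁆ ∈ Kn H Γ (i + 1) w) → LI A (St H w) r → i ≤ K * (r + 1) := by
  refine ⟨(2 ^ (2 * C) + 2 ^ (2 * C)) * (2 * C + 1) + 2 * C, fun w w' z A i r hz hA hr => ?_⟩
  obtain ⟨g, hg⟩ := G.moves hz.1
  have h1 : ∀ l, LI (cj (g l) (A ⊓ St H w)) (St H w) (r + 2 * C) := fun l => by
    have := hr.inf_right.cj (g l)
    rw [cj_St] at this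
    simpa using this.trans (G.near_LI (hg.near hz.1 l))
  have h2 := ((LI.iInf h1).inf (G.near_LI (Near.of_adj hz.1))).left' (A' := Kn H Γ i w) (by
    rintro y ⟨⟨y1, y2⟩, y3⟩
    refine G.c.rigid hg hz y3 y2 fun l => ?_
    obtain ⟨a, ha, e⟩ := mem_cj'.1 (mem_iInf.1 y1 l)
    rw [← e, conj_comm]
    exact G.c.Kn_conj _ (hA a ha.1 ha.2))
  have h3 := (G.low w i).trans h2.2
  have h4 := hr.nonneg
  have h5 : (0 : ℝ) ≤ C := by positivity
  have h6 : (0 : ℝ) ≤ 2 ^ (2 * C) := by positivity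
  push_cast at h3 ⊢
  nlinarith [mul_nonneg h6 h4, mul_nonneg h5 h4, mul_nonneg (mul_nonneg h6 h5) h4]

/-- Density at a wall. -/
theorem dens0 : ∃ K : ℕ, ∀ (w w' : X) (z : H) (J N : Subgroup H) (i : ℕ) (r m : ℝ), Wall Γ w w' z →
    z ∈ J → N ≤ Nm J → LI N (St H w) r → LI (Kn H Γ i w) (J ⊓ St H w) m →
    i ≤ K * (r + m + 1) := by
  obtain ⟨K, hK⟩ := G.bigF
  refine ⟨K + 1, fun w w' z J N i r m hz h1 h2 h3 h4 => ?_⟩
  have h5 := h3.nonneg
  have h6 := h4.nonneg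
  have h7 : (0 : ℝ) ≤ K := by positivity
  rcases i with _ | i
  · push_cast; positivity
  have hz0 : z ∈ St H w := hz.2.1
  have h8 : LI (CM (St H w) (Kn H Γ (i + 1) w) (G.c.St_le_Nm_Kn _ w) {z}) (N ⊓ St H w) m := by
    have hφ : ∀ g : (N ⊓ St H w : Subgroup H), (g : H) * z⁻¹ * (g : H)⁻¹ ∈ J ⊓ St H w := fun g =>
      have g1 : (g : H) ∈ St H w := (mem_inf.1 g.2).2
      mem_inf.2 ⟨conj_mem_of_Nm (h2 (mem_inf.1 g.2).1) (inv_mem h1),
        mul_mem (mul_mem g1 (inv_mem hz0)) (inv_mem g1)⟩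
    refine LI_of_fun h4 (fun g => ⟨_, hφ g⟩) fun g g' e => ?_
    have g1 : (g : H) ∈ St H w := (mem_inf.1 g.2).2
    have g2 : (g' : H) ∈ St H w := (mem_inf.1 g'.2).2
    refine inv_mem_iff.1 (mem_CM.2 ⟨inv_mem (mul_mem (inv_mem g1) g2), fun s hs => ?_⟩)
    rw [Set.mem_singleton_iff.1 hs]
    have e' : ((g : H) * z⁻¹ * (g : H)⁻¹)⁻¹ * ((g' : H) * z⁻¹ * (g' : H)⁻¹) ∈ Kn H Γ (i + 1) w := e
    have := conj_mem_of_Nm' (G.c.St_le_Nm_Kn _ w g2) e'
    generalize (g : H) = a at this ⊢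
    generalize (g' : H) = b at this ⊢
    have e2 : ⁅(a⁻¹ * b)⁻¹, z⁆ = b⁻¹ * ((a * z⁻¹ * a⁻¹)⁻¹ * (b * z⁻¹ * b⁻¹)) * b := by
      simp only [commutatorElement_def]; group
    rw [e2]; exact this
  have h10 : LI (N ⊓ St H w) (St H w) r := h3.inf_right
  have h9 := hK w w' z _ i (m + r) hz (fun g hg _ => (mem_CM.1 hg).2 z (Set.mem_singleton z))
    (h8.trans h10)
  push_cast
  linarith

/-- Density of shallow locally normal subgroups. -/
theorem dens : ∃ K : ℕ, ∀ (x : X) (n i : ℕ) (J : Subgroup H) (m : ℝ), LN Γ x n J →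
    ¬ J ≤ Kn H Γ n x → LI (Kn H Γ i x) (J ⊓ St H x) m → i ≤ K * (n + m + 1) := by
  obtain ⟨K, hK⟩ := G.dens0
  refine ⟨K * (12 * C + 1) + 3, fun x n i J m ⟨y, N, h1, h2, h3, h4⟩ h5 h6 => ?_⟩
  obtain ⟨z, z1, z2⟩ := SetLike.not_le_iff_exists.1 h5
  obtain ⟨w, w', h7, hz⟩ := G.wall_of h1 (h2 z1) z2
  have k0 := h6.nonneg
  have k1 : (0 : ℝ) ≤ K := by positivity
  have k2 : (0 : ℝ) ≤ C := by positivity
  have k3 : (0 : ℝ) ≤ n := by positivity
  by_cases hi : i ≤ 3 * n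
  · have : (i : ℝ) ≤ 3 * n := by exact_mod_cast hi
    push_cast
    nlinarith [mul_nonneg k1 k2, mul_nonneg (mul_nonneg k1 k2) k3, mul_nonneg (mul_nonneg k1 k2) k0,
      mul_nonneg k1 k0, mul_nonneg k1 k3]
  obtain ⟨j, rfl⟩ : ∃ j, i = j + 3 * n := ⟨i - 3 * n, by omega⟩
  have h8 : LI (Kn H Γ j w) (J ⊓ St H w) (m + 2 * C * (3 * n : ℕ)) :=
    (h6.left (Kn_near_le h7 le_rfl)).trans
      (((G.near_LI h7.symm).right inf_le_right).left' fun a ha => ⟨ha.2.1, ha.1⟩)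
  have h9 := hK w w' z J N j _ _ hz z1 h3 (h4.trans (G.near_LI h7.symm)) h8
  push_cast at h9 ⊢
  nlinarith [mul_nonneg k1 k2, mul_nonneg (mul_nonneg k1 k2) k3, mul_nonneg (mul_nonneg k1 k2) k0,
      mul_nonneg k1 k0, mul_nonneg k1 k3]

end GD

end Pool.Agent.Lib.MP_bf45aa_co
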