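import Pool.Agent.Lib.MP_bf45aa_co.PS1

set_option autoImplicit false
set_option linter.unusedSectionVars false

/-! Scales and sequences of subgroups. -/

namespace Pool.Agent.Lib.MP_bf45aa_co

open Subgroup Filter
open scoped commutatorElement

/-- A scale: an ideal of small sequences of natural numbers. -/
structure Cut where
  Sm : (ℕ → ℕ) → Prop
  k : ℕ → ℕ
  add : ∀ {s t}, Sm s → Sm t → Sm fun i => s i + t i
  mono : ∀ {s t}, Sm t → (∀ᶠ i in UU, s i ≤ t i) → Sm s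
  const : ∀ c, Sm fun _ => c
  big : ¬ Sm k

namespace Cut

/-- The bounded sequences. -/
def bdd : Cut where
  Sm s := ∃ c, ∀ᶠ i in UU, s i ≤ c
  k := id
  add := fun ⟨c, h⟩ ⟨c', h'⟩ => ⟨c + c', (h.and h').mono fun _ e => add_le_add e.1 e.2⟩
  mono := fun ⟨c, h⟩ h' => ⟨c, (h.and h').mono fun _ e => e.2.trans e.1⟩
  const := fun c => ⟨c, Eventually.of_forall fun _ => le_rfl⟩
  big := fun ⟨c, h⟩ => by
    obtain ⟨i, h1, h2⟩ := (h.and (ev_ge (c + 1))).exists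
    simp only [id] at h1
    omega

/-- The sequences that are `o(k)`. -/
def lin (k : ℕ → ℕ) (hk : ∀ i, i ≤ k i) : Cut where
  Sm s := ∀ M, ∀ᶠ i in UU, M * s i ≤ k i
  k := k
  add := fun h h' M => ((h (2 * M)).and (h' (2 * M))).mono fun _ e => by nlinarith [e.1, e.2]
  mono := fun h h' M => ((h M).and h').mono fun _ e => (Nat.mul_le_mul_left M e.2).trans e.1
  const := fun c M => (ev_ge (M * c)).mono fun i e => e.trans (hk i)
  big := fun h => by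
    obtain ⟨i, h1, h2⟩ := ((h 2).and (ev_ge 1)).exists
    have := hk i
    omega

theorem lin_sm {k n : ℕ → ℕ} (hk : ∀ i, i ≤ k i) (h : ∀ i, i * n i ≤ k i) : (lin k hk).Sm n :=
  fun M => (ev_ge M).mono fun i e => (Nat.mul_le_mul_right _ e).trans (h i)

variable {T : Cut}

theorem mul {s : ℕ → ℕ} (h : T.Sm s) (c : ℕ) : T.Sm fun i => c * s i := by
  induction c with
  | zero => simpa using T.const 0
  | succ c ih => simpa [add_mul] using T.add ih h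

theorem aff {s : ℕ → ℕ} (h : T.Sm s) (c : ℕ) : T.Sm fun i => c * (s i + 1) :=
  mul (T.add h (T.const 1)) c

theorem lt_of {s a : ℕ → ℕ} (h : T.Sm s) (ha : ¬ T.Sm a) : ∀ᶠ i in UU, s i < a i := by
  by_contra hc
  exact ha (T.mono h ((ev_not.2 hc).mono fun _ => not_lt.1))

theorem not_min {a b : ℕ → ℕ} (ha : ¬ T.Sm a) (hb : ¬ T.Sm b) : ¬ T.Sm fun i => min (a i) (b i) := by
  intro h
  obtain ⟨i, h1, h2⟩ := ((lt_of h ha).and (lt_of h hb)).exists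
  omega

theorem not_sub {a s : ℕ → ℕ} (ha : ¬ T.Sm a) (h : T.Sm s) : ¬ T.Sm fun i => a i - s i :=
  fun e => ha (T.mono (T.add e h) (Eventually.of_forall fun i => by omega))

theorem sm_all {n : ℕ} {s : Fin n → ℕ → ℕ} (h : ∀ l, T.Sm (s l)) :
    ∃ t, T.Sm t ∧ ∀ l i, s l i ≤ t i := by
  induction n with
  | zero => exact ⟨_, T.const 0, fun l => l.elim0⟩
  | succ n ih =>
    obtain ⟨t, h1, h2⟩ := ih fun l => h l.succ
    exact ⟨_, T.add (h 0) h1, fun l i => Fin.cases (Nat.le_add_right _ _)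
      (fun l => (h2 l i).trans (Nat.le_add_left _ _)) l⟩

theorem big_all {ι : Type*} [Finite ι] {a : ι → ℕ → ℕ} (h : ∀ l, ¬ T.Sm (a l)) :
    ∃ b, ¬ T.Sm b ∧ ∀ l i, b i ≤ a l i := by
  induction ι using Finite.induction_empty_option with
  | of_equiv e ih =>
    obtain ⟨b, h1, h2⟩ := ih (a := fun l => a (e l)) fun l => h _
    exact ⟨b, h1, fun l i => by simpa using h2 (e.symm l) i⟩
  | h_empty => exact ⟨T.k, T.big, fun l => l.elim⟩
  | h_option ih =>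
    obtain ⟨b, h1, h2⟩ := ih (a := fun l => a (some l)) fun l => h _
    exact ⟨_, not_min h1 (h none), fun l i => by
      cases l with
      | none => exact min_le_right _ _
      | some l => exact (min_le_left _ _).trans (h2 l i)⟩

/-- A property that holds at all small levels holds at some big level. -/
theorem spill {P : ℕ → ℕ → Prop} (h : ∀ s, T.Sm s → ∀ᶠ i in UU, P i (s i)) :
    ∃ a, ¬ T.Sm a ∧ ∀ᶠ i in UU, P i (a i) := by
  classical
  refine ⟨fun i => Nat.findGreatest (P i) (T.k i), fun e => ?_, (h _ (T.const 0)).mono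
    fun i hi => Nat.findGreatest_spec (Nat.zero_le _) hi⟩
  obtain ⟨i, h1, h2⟩ := ((h _ (T.add e (T.const 1))).and (lt_of e T.big)).exists
  have := Nat.le_findGreatest h2 h1
  omega

end Cut

variable {H X : Type} [Group H] [MulAction H X]

/-- Locally normal sequences. -/
def LS (T : Cut) (Γ : SimpleGraph X) (o : X) (J : ℕ → Subgroup H) : Prop :=
  ∃ s, T.Sm s ∧ ∀ᶠ i in UU, LN Γ o (s i) (J i)

/-- Large sequences. -/
def LgS (T : Cut) (o : X) (N : ℕ → Subgroup H) : Prop :=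
  ∃ s, T.Sm s ∧ ∀ᶠ i in UU, LI (N i) (St H o) (s i : ℕ)

/-- Deep sequences. -/
def DP (T : Cut) (Γ : SimpleGraph X) (o : X) (J : ℕ → Subgroup H) : Prop :=
  ∀ s, T.Sm s → ∀ᶠ i in UU, J i ≤ Kn H Γ (s i) o

/-- Sequences with small displacement. -/
def NS (T : Cut) (Γ : SimpleGraph X) (o : X) (g : ℕ → H) : Prop :=
  ∃ s, T.Sm s ∧ ∀ᶠ i in UU, Near Γ (s i) o (g i • o)

variable {T : Cut} {Γ : SimpleGraph X} {o : X} {C : ℕ}

theorem DP_iff {J : ℕ → Subgroup H} :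
    DP T Γ o J ↔ ∃ a, ¬ T.Sm a ∧ ∀ᶠ i in UU, J i ≤ Kn H Γ (a i) o :=
  ⟨fun h => Cut.spill (P := fun i n => J i ≤ Kn H Γ n o) h, fun ⟨_, h1, h2⟩ _ hs =>
    (h2.and (Cut.lt_of hs h1)).mono fun _ e => e.1.trans (Kn_anti e.2.le o)⟩

theorem not_DP {J : ℕ → Subgroup H} :
    ¬ DP T Γ o J ↔ ∃ s, T.Sm s ∧ ∀ᶠ i in UU, ¬ J i ≤ Kn H Γ (s i) o := by
  simp only [DP, not_forall, ev_not, exists_prop]

theorem DP.anti {J J' : ℕ → Subgroup H} (h : DP T Γ o J) (h1 : ∀ᶠ i in UU, J' i ≤ J i) :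
    DP T Γ o J' := fun s hs => ((h s hs).and h1).mono fun _ e => e.2.trans e.1

theorem LS.inf {J J' : ℕ → Subgroup H} (h : LS T Γ o J) (h' : LS T Γ o J') :
    LS T Γ o fun i => J i ⊓ J' i :=
  let ⟨_, h1, h2⟩ := h; let ⟨_, k1, k2⟩ := h'
  ⟨_, T.add h1 k1, (h2.and k2).mono fun _ e => e.1.inf e.2⟩

theorem LS.infN {J N : ℕ → Subgroup H} (h : LS T Γ o J) (h' : LgS T o N) :
    LS T Γ o fun i => J i ⊓ N i :=
  let ⟨_, h1, h2⟩ := h; let ⟨_, k1, k2⟩ := h'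
  ⟨_, T.add h1 k1, (h2.and k2).mono fun _ e => e.1.infN e.2⟩

theorem LgS.inf {M N : ℕ → Subgroup H} (h : LgS T o M) (h' : LgS T o N) :
    LgS T o fun i => M i ⊓ N i :=
  let ⟨_, h1, h2⟩ := h; let ⟨_, k1, k2⟩ := h'
  ⟨_, T.add h1 k1, (h2.and k2).mono fun _ e => by push_cast; exact e.1.inf e.2⟩

theorem LS.nm {J : ℕ → Subgroup H} (h : LS T Γ o J) :
    ∃ N, LgS T o N ∧ ∀ᶠ i in UU, N i ≤ Nm (J i) := by
  obtain ⟨s, h1, h2⟩ := h
  obtain ⟨N, hN⟩ := ev_choice (T := fun _ => Subgroup H) (fun _ => ⊤)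
    (P := fun i N => N ≤ Nm (J i) ∧ LI N (St H o) (s i : ℕ))
    (h2.mono fun i ⟨_, N, _, _, k1, k2⟩ => ⟨N, k1, k2⟩)
  exact ⟨N, ⟨s, h1, hN.mono fun _ e => e.2⟩, hN.mono fun _ e => e.1⟩

theorem GD.LS_cj (G : GD H Γ C) {J : ℕ → Subgroup H} {g : ℕ → H} (h : LS T Γ o J)
    (hg : NS T Γ o g) : LS T Γ o fun i => cj (g i) (J i) :=
  let ⟨_, h1, h2⟩ := h; let ⟨_, k1, k2⟩ := hg
  ⟨_, T.add (T.add h1 k1) (Cut.mul k1 (2 * C)), (h2.and k2).mono fun i e =>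
    G.LN_shift (e.1.conj G.c (g i)) e.2⟩

theorem GD.LgS_cj (G : GD H Γ C) {N : ℕ → Subgroup H} {g : ℕ → H} (h : LgS T o N)
    (hg : NS T Γ o g) : LgS T o fun i => cj (g i) (N i) :=
  let ⟨_, h1, h2⟩ := h; let ⟨_, k1, k2⟩ := hg
  ⟨_, T.add h1 (Cut.mul k1 (2 * C)), (h2.and k2).mono fun i e => by
    have := e.1.cj (g i)
    rw [cj_St] at this
    push_cast
    exact this.trans (G.near_LI e.2)⟩

theorem GD.LgS_K (G : GD H Γ C) {s r : ℕ → ℕ} {y : ℕ → X} (hs : T.Sm s) (hr : T.Sm r)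
    (h : ∀ᶠ i in UU, Near Γ (s i) o (y i)) : LgS T o fun i => Kn H Γ (r i) (y i) :=
  ⟨_, T.add (Cut.aff hr C) (Cut.mul hs (2 * C)), h.mono fun i e => by
    push_cast
    exact (G.L2 (y i) (r i)).trans (G.near_LI e)⟩

theorem NS.inv (c : Ctx H Γ) {g : ℕ → H} (h : NS T Γ o g) : NS T Γ o fun i => (g i)⁻¹ :=
  let ⟨s, h1, h2⟩ := h
  ⟨s, h1, h2.mono fun i e => by simpa using (e.smul c.adj (g i)⁻¹).symm⟩

theorem DP.conj (c : Ctx H Γ) {J : ℕ → Subgroup H} {g : ℕ → H} (h : DP T Γ o J) (hg : NS T Γ o g) :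
    DP T Γ o fun i => cj (g i) (J i) := by
  obtain ⟨r, k1, k2⟩ := hg
  refine fun s hs => ((h _ (T.add hs k1)).and k2).mono fun i e => ?_
  refine (cj_mono _ e.1).trans ?_
  rw [c.cj_Kn]
  exact Kn_near_le e.2.symm le_rfl

theorem DP.of_conj (c : Ctx H Γ) {J : ℕ → Subgroup H} {g : ℕ → H}
    (h : DP T Γ o fun i => cj (g i) (J i)) (hg : NS T Γ o g) : DP T Γ o J := by
  simpa only [cj_inv_cj] using h.conj c (hg.inv c)

theorem GD.A4S (G : GD H Γ C) {J N : ℕ → Subgroup H} (h : LS T Γ o J) (hN : LgS T o N)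
    (h1 : DP T Γ o fun i => J i ⊓ N i) : DP T Γ o J := by
  by_contra hc
  obtain ⟨K, hK⟩ := G.dens
  obtain ⟨s, s1, s2⟩ := h
  obtain ⟨r, r1, r2⟩ := hN
  obtain ⟨u, u1, u2⟩ := not_DP.1 hc
  have h2 := h1 _ (T.add (Cut.aff (T.add (T.add s1 u1) r1) K) (T.const 1))
  obtain ⟨i, ⟨e1, e2⟩, e3, e4⟩ := ((s2.and r2).and (u2.and h2)).exists
  have := hK o (s i + u i) _ (J i) (r i : ℕ) (e1.mono (by omega))
    (fun e => e3 (e.trans (Kn_anti (by omega) o)))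
    ((e2.right inf_le_right).left' fun g hg => e4 ⟨hg.2.1, hg.1⟩)
  push_cast at this
  linarith

end Pool.Agent.Lib.MP_bf45aa_co
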