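import Pool.Agent.Lib.MP_bf45aa_co.PNoAb

set_option autoImplicit false
set_option linter.unusedSectionVars false

/-! No abelian locally normal subgroups. -/

namespace Pool.Agent.Lib.MP_bf45aa_co

open Subgroup Filter
open scoped commutatorElement

variable {H X : Type} [Group H] [MulAction H X] {T : Cut} {Γ : SimpleGraph X} {o : X} {C : ℕ}

theorem GD.A5S (G : GD H Γ C) {J : ℕ → Subgroup H} {a : ℕ → ℕ} (h : LS T Γ o J) (ha : ¬ T.Sm a)
    (h1 : ∀ᶠ i in UU, ∀ u ∈ J i, ∀ v ∈ J i, ⁅u, v⁆ ∈ Kn H Γ (a i) o) : DP T Γ o J :=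
  G.A5S' h ha h1

end Pool.Agent.Lib.MP_bf45aa_co
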