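import Pool.Agent.Lib.MP_bf45aa_co.PS2b

set_option autoImplicit false
set_option linter.unusedSectionVars false

/-! Quantitative absence of abelian locally normal subgroups. -/

namespace Pool.Agent.Lib.MP_bf45aa_co

open Subgroup Filter
open scoped commutatorElement

variable {H X : Type} [Group H] [MulAction H X] {Γ : SimpleGraph X} {C : ℕ}

/-- Quantitative absence of abelian locally normal subgroups. -/
theorem GD.noAbQ (G : GD H Γ C) : ∃ K : ℕ, ∀ (x : X) (n M : ℕ) (J : Subgroup H),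
    LN Γ x n J → ¬ J ≤ Kn H Γ n x → (∀ a ∈ J, ∀ b ∈ J, ⁅a, b⁆ ∈ Kn H Γ M x) → M ≤ K * (n + 1) := by
  obtain ⟨o, -⟩ := G.edge
  have key : ∃ K : ℕ, ∀ (n M : ℕ) (J : Subgroup H), LN Γ o n J → ¬ J ≤ Kn H Γ n o →
      (∀ a ∈ J, ∀ b ∈ J, ⁅a, b⁆ ∈ Kn H Γ M o) → M ≤ K * (n + 1) := by
    by_contra hc
    push Not at hc
    choose n M J h1 h2 h3 h4 using hc
    have hk : ∀ i, i ≤ M i := fun i => (Nat.le_mul_of_pos_right i (Nat.succ_pos _)).trans (h4 i).le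
    have hn : (Cut.lin M hk).Sm n :=
      Cut.lin_sm hk fun i => (Nat.mul_le_mul_left i (Nat.le_succ _)).trans (h4 i).le
    obtain ⟨i, hi⟩ := (G.A5S (T := Cut.lin M hk) (a := M) ⟨n, hn, Eventually.of_forall h1⟩
      (Cut.lin M hk).big (Eventually.of_forall h3) n hn).exists
    exact h2 i hi
  obtain ⟨K, hK⟩ := key
  refine ⟨K, fun x n M J h1 h2 h3 => ?_⟩
  obtain ⟨g, rfl⟩ := G.vtx x o
  refine hK n M (cj g J) (h1.conj G.c g) (fun e => h2 ?_) ?_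
  · rwa [← G.c.cj_Kn, cj_le_cj] at e
  · rintro _ ⟨a, ha, rfl⟩ _ ⟨b, hb, rfl⟩
    exact conj_comm g a b ▸ G.c.Kn_conj g (h3 a ha b hb)

end Pool.Agent.Lib.MP_bf45aa_co
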