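import Pool.Agent.Lib.MP_bf45aa_co.PS0

set_option autoImplicit false
set_option linter.unusedSectionVars false

/-! Abstract theory of classes of locally normal subgroups. -/

namespace Pool.Agent.Lib.MP_bf45aa_co

open Subgroup
open scoped commutatorElement

/-- The axioms: `D` are the negligible elements, `L` the locally normal subgroups, `Lg` the large
subgroups and `B` the ball kernels. -/
structure ACT (G : Type) [Group G] where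
  D : Subgroup G
  L : Subgroup G → Prop
  Lg : Subgroup G → Prop
  B : Subgroup G → Prop
  D_nm : ∀ g, g ∈ Nm D
  L_inf : ∀ {A A'}, L A → L A' → L (A ⊓ A')
  L_infN : ∀ {A N}, L A → Lg N → L (A ⊓ N)
  L_cj : ∀ {A} g, L A → L (cj g A)
  L_nm : ∀ {A}, L A → ∃ N, Lg N ∧ N ≤ Nm A
  Lg_inf : ∀ {M N}, Lg M → Lg N → Lg (M ⊓ N)
  Lg_cj : ∀ {N} g, Lg N → Lg (cj g N)
  A4 : ∀ {A N}, L A → Lg N → A ⊓ N ≤ D → A ≤ D
  A5 : ∀ {A}, L A → (∀ a ∈ A, ∀ b ∈ A, ⁅a, b⁆ ∈ D) → A ≤ D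
  A6 : ∀ {E J c}, B E → c ∈ E → L J → (∀ j ∈ J, ⁅c, j⁆ ∈ D) →
    ∃ C N, L C ∧ Lg N ∧ c ∈ C ∧ ∀ a ∈ C, ∀ j ∈ J, j ∈ N → ⁅a, j⁆ ∈ D
  A7 : ∃ t0, ∀ (t : ℕ) (P : Fin t → Subgroup G), (∀ a, L (P a) ∧ ¬ P a ≤ D) →
    (∀ a b, a ≠ b → P a ⊓ P b ≤ D) → t ≤ t0
  A8 : ∃ A, L A ∧ ¬ A ≤ D

namespace ACT

variable {G : Type} [Group G] (T : ACT G)

/-- Shallow locally normal subgroups. -/
def Sh (A : Subgroup G) : Prop := T.L A ∧ ¬ A ≤ T.D

/-- A family of pairwise perpendicular shallow subgroups. -/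
def Fam {t : ℕ} (P : Fin t → Subgroup G) : Prop :=
  (∀ a, T.Sh (P a)) ∧ ∀ a b, a ≠ b → P a ⊓ P b ≤ T.D

/-- `t` bounds the size of all families. -/
def Mx (t : ℕ) : Prop := ∀ (u : ℕ) (P : Fin u → Subgroup G), T.Fam P → u ≤ t

/-- Essential subgroups. -/
def Ess (J : Subgroup G) : Prop := T.L J ∧ ∀ Z, T.Sh Z → ¬ J ⊓ Z ≤ T.D

variable {T}

theorem cj_D (g : G) : cj g T.D = T.D := mem_Nm_iff.1 (T.D_nm g)

theorem cj_le_D {g : G} {A : Subgroup G} : cj g A ≤ T.D ↔ A ≤ T.D := by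
  conv_lhs => rw [← cj_D g, cj_le_cj]

theorem Sh.conj {A : Subgroup G} (h : T.Sh A) (g : G) : T.Sh (cj g A) :=
  ⟨T.L_cj g h.1, fun e => h.2 (cj_le_D.1 e)⟩

theorem Sh.infN {A N : Subgroup G} (h : T.Sh A) (hN : T.Lg N) : T.Sh (A ⊓ N) :=
  ⟨T.L_infN h.1 hN, fun e => h.2 (T.A4 h.1 hN e)⟩

theorem Ess.inf {J J' : Subgroup G} (h : T.Ess J) (h' : T.Ess J') : T.Ess (J ⊓ J') :=
  ⟨T.L_inf h.1 h'.1, fun Z hZ => by
    rw [inf_assoc]; exact h.2 _ ⟨T.L_inf h'.1 hZ.1, h'.2 Z hZ⟩⟩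

theorem Ess.conj {J : Subgroup G} (h : T.Ess J) (g : G) : T.Ess (cj g J) :=
  ⟨T.L_cj g h.1, fun Z hZ e => h.2 _ (hZ.conj g⁻¹) (by
    rw [← cj_le_D (g := g), cj_inf, cj_cj_inv]; exact e)⟩

theorem Ess.sh {J : Subgroup G} (h : T.Ess J) : T.Sh J :=
  let ⟨A, hA⟩ := T.A8; ⟨h.1, fun e => h.2 A hA (inf_le_left.trans e)⟩

theorem Fam.meets {t : ℕ} {P : Fin t → Subgroup G} (h : T.Fam P) (hm : T.Mx t) {Z : Subgroup G}
    (hZ : T.Sh Z) : ∃ a, ¬ Z ⊓ P a ≤ T.D := by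
  by_contra hc
  push Not at hc
  have := hm (t + 1) (Fin.cons Z P) ⟨fun a => Fin.cases hZ (fun a => h.1 a) a, fun a b => by
    refine Fin.cases ?_ (fun a => ?_) a <;> refine Fin.cases ?_ (fun b => ?_) b
    · exact fun e => absurd rfl e
    · exact fun _ => hc b
    · exact fun _ => by rw [inf_comm]; exact hc a
    · exact fun e => h.2 a b fun e' => e (by rw [e'])⟩
  omega

theorem Fam.unif {t : ℕ} {P : Fin t → Subgroup G} (h : T.Fam P) (hm : T.Mx t) {a : Fin t}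
    {Z Z' : Subgroup G} (hZ : T.Sh Z) (hZ' : T.Sh Z') (h1 : Z ≤ P a) (h2 : Z' ≤ P a) :
    T.Sh (Z ⊓ Z') := by
  classical
  refine ⟨T.L_inf hZ.1 hZ'.1, fun e => ?_⟩
  have hle : ∀ b, Function.update P a Z b ≤ P b := fun b => by
    by_cases hb : b = a
    · subst hb; rw [Function.update_self]; exact h1
    · rw [Function.update_of_ne hb]
  have hF : T.Fam (Function.update P a Z) := ⟨fun b => by
    by_cases hb : b = a
    · subst hb; rw [Function.update_self]; exact hZ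
    · rw [Function.update_of_ne hb]; exact h.1 b,
    fun b c hbc => (inf_le_inf (hle b) (hle c)).trans (h.2 b c hbc)⟩
  obtain ⟨b, hb⟩ := hF.meets hm hZ'
  by_cases hba : b = a
  · subst hba; rw [Function.update_self, inf_comm] at hb; exact hb e
  · exact hb ((inf_le_inf h2 (hle b)).trans (h.2 a b (Ne.symm hba)))

theorem Fam.ess {t : ℕ} {P : Fin t → Subgroup G} (h : T.Fam P) (hm : T.Mx t) {J : Subgroup G}
    (hJ : T.L J) (h1 : ∀ a, ¬ J ⊓ P a ≤ T.D) : T.Ess J := by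
  refine ⟨hJ, fun Z hZ e => ?_⟩
  obtain ⟨a, ha⟩ := h.meets hm hZ
  exact (h.unif hm ⟨T.L_inf hJ (h.1 a).1, h1 a⟩ ⟨T.L_inf hZ.1 (h.1 a).1, ha⟩ inf_le_right
    inf_le_right).2 ((inf_le_inf inf_le_left inf_le_left).trans e)

theorem exists_Lg : ∃ N, T.Lg N :=
  let ⟨_, hA⟩ := T.A8; let ⟨N, h, _⟩ := T.L_nm hA.1; ⟨N, h⟩

theorem Lg_all {t : ℕ} {N : Fin t → Subgroup G} (h : ∀ a, T.Lg (N a)) :
    ∃ M, T.Lg M ∧ ∀ a, M ≤ N a := by
  induction t with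
  | zero => exact exists_Lg.imp fun M hM => ⟨hM, fun a => a.elim0⟩
  | succ t ih =>
    obtain ⟨M, h1, h2⟩ := ih fun a => h a.succ
    exact ⟨N 0 ⊓ M, T.Lg_inf (h 0) h1, fun a => Fin.cases inf_le_left
      (fun a => inf_le_right.trans (h2 a)) a⟩

theorem exists_fam (T : ACT G) : ∃ (t : ℕ) (P : Fin t → Subgroup G), 0 < t ∧ T.Fam P ∧ T.Mx t ∧
    ∀ a b, P a ≤ Nm (P b) := by
  classical
  obtain ⟨t0, h0⟩ := T.A7
  obtain ⟨A, hA⟩ := T.A8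
  let p : ℕ → Prop := fun u => ∃ P : Fin u → Subgroup G, T.Fam P
  have p1 : p 1 := ⟨fun _ => A, fun _ => hA, fun a b e => absurd (Subsingleton.elim a b) e⟩
  have hb : ∀ u, p u → u ≤ t0 := fun u ⟨P, hP⟩ => h0 u P hP.1 hP.2
  obtain ⟨P, hP⟩ : p (Nat.findGreatest p t0) := Nat.findGreatest_spec (hb 1 p1) p1
  have hm : T.Mx (Nat.findGreatest p t0) := fun u Q hQ =>
    Nat.le_findGreatest (hb u ⟨Q, hQ⟩) ⟨Q, hQ⟩
  choose N n1 n2 using fun a => T.L_nm (hP.1 a).1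
  obtain ⟨M, m1, m2⟩ := Lg_all n1
  refine ⟨_, fun a => P a ⊓ M, Nat.le_findGreatest (hb 1 p1) p1, ⟨fun a => (hP.1 a).infN m1,
    fun a b e => (inf_le_inf inf_le_left inf_le_left).trans (hP.2 a b e)⟩, hm,
    fun a b g hg => Nm_inf (n2 b (m2 b hg.2)) (le_Nm_self M hg.2)⟩

theorem perp_comm {A A' N : Subgroup G} (e : A ⊓ A' ≤ T.D) (h1 : N ≤ Nm A) (h2 : N ≤ Nm A') {a b : G}
    (ha : a ∈ A ⊓ N) (hb : b ∈ A' ⊓ N) : ⁅a, b⁆ ∈ T.D :=
  e ⟨comm_mem_left ha.1 (h1 hb.2), comm_mem_right hb.1 (h2 ha.2)⟩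

/-- A shallow subgroup meets its conjugate by an element centralising it. -/
theorem Sh.meets_cj {J : Subgroup G} (h : T.Sh J) {g : G} (hg : ∀ j ∈ J, ⁅g, j⁆ ∈ T.D) :
    ¬ cj g J ⊓ J ≤ T.D := by
  intro e
  obtain ⟨N, n1, n2⟩ := T.L_nm h.1
  have m1 := T.Lg_inf n1 (T.Lg_cj g n1)
  have h1 := h.infN (T.Lg_inf m1 (T.Lg_cj g⁻¹ m1))
  refine h1.2 (T.A5 h1.1 fun a ha b hb => ?_)
  have h2 : g * a * g⁻¹ ∈ cj g J ⊓ (N ⊓ cj g N) := ⟨conj_mem_cj ha.1, by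
    have := mem_cj.1 ha.2.2; rwa [inv_inv] at this⟩
  have h3 := perp_comm e (N := N ⊓ cj g N) (inf_le_right.trans (by
    rw [← cj_Nm]; exact cj_mono g n2)) (inf_le_left.trans n2) h2 ⟨hb.1, hb.2.1⟩
  have h4 := hg a ha.1
  have h5 : ⁅a, b⁆ = ⁅g, a⁆⁻¹ * (⁅g * a * g⁻¹, b⁆ * (b * ⁅g, a⁆ * b⁻¹)) := by
    simp only [commutatorElement_def]; group
  rw [h5]
  exact mul_mem (inv_mem h4) (mul_mem h3 (conj_mem_of_Nm (T.D_nm b) h4))

/-- The classes. -/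
structure Cl (T : ACT G) where
  t : ℕ
  P : Fin t → Subgroup G
  σ : G →* Equiv.Perm (Fin t)
  Cen : Fin t → Subgroup G
  pos : 0 < t
  fam : T.Fam P
  max : T.Mx t
  cen : ∀ g a, g ∈ Cen a ↔ ∃ J, T.Sh J ∧ J ≤ P a ∧ ∀ j ∈ J, ⁅g, j⁆ ∈ T.D
  conj : ∀ h g a, g ∈ Cen a → h * g * h⁻¹ ∈ Cen (σ h a)
  fix : ∀ g a, g ∈ Cen a → σ g a = a
  PC : ∀ a b, a ≠ b → P a ≤ Cen b
  QZ : ∀ E c, T.B E → c ∈ E → (∀ a, c ∈ Cen a) → c ∈ T.D

section Build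

variable {t : ℕ} {P : Fin t → Subgroup G} (h : T.Fam P) (hm : T.Mx t)
include h hm

theorem Fam.conj (g : G) : T.Fam fun a => cj g (P a) :=
  ⟨fun a => (h.1 a).conj g, fun a b e => by rw [← cj_inf, cj_le_D]; exact h.2 a b e⟩

theorem Fam.uniq {g : G} {a b c : Fin t} (h1 : ¬ cj g (P a) ⊓ P b ≤ T.D)
    (h2 : ¬ cj g (P a) ⊓ P c ≤ T.D) : b = c := by
  by_contra e
  have k := (h.conj hm g).1 a
  exact ((h.conj hm g).unif hm (a := a) ⟨T.L_inf k.1 (h.1 b).1, h1⟩ ⟨T.L_inf k.1 (h.1 c).1, h2⟩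
    inf_le_left inf_le_left).2 ((inf_le_inf inf_le_right inf_le_right).trans (h.2 b c e))

/-- The class of the conjugate. -/
noncomputable def Fam.s (g : G) (a : Fin t) : Fin t := (h.meets hm ((h.1 a).conj g)).choose

theorem Fam.s_spec (g : G) (a : Fin t) : ¬ cj g (P a) ⊓ P (h.s hm g a) ≤ T.D :=
  (h.meets hm ((h.1 a).conj g)).choose_spec

theorem Fam.s_sub (g : G) {a : Fin t} {J : Subgroup G} (hJ : T.Sh J) (h1 : J ≤ P a) :
    T.Sh (cj g J ⊓ P (h.s hm g a)) := by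
  have k := (h.conj hm g).1 a
  have := (h.conj hm g).unif hm (a := a) (hJ.conj g) ⟨T.L_inf k.1 (h.1 _).1, h.s_spec hm g a⟩
    (cj_mono g h1) inf_le_left
  exact ⟨T.L_inf (hJ.conj g).1 (h.1 _).1, fun e => this.2 ((inf_le_inf_left _ inf_le_right).trans e)⟩

theorem Fam.s_one (a : Fin t) : h.s hm 1 a = a :=
  h.uniq hm (h.s_spec hm 1 a) (by rw [cj_one, inf_idem]; exact (h.1 a).2)

theorem Fam.s_mul (g g' : G) (a : Fin t) : h.s hm (g * g') a = h.s hm g (h.s hm g' a) := by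
  refine h.uniq hm (h.s_spec hm _ a) fun e => ?_
  refine (h.s_sub hm g (h.s_sub hm g' (h.1 a) le_rfl) inf_le_right).2 (le_trans ?_ e)
  refine inf_le_inf_right _ ?_
  rw [← cj_cj]
  exact cj_mono g inf_le_left

/-- The action on classes. -/
noncomputable def Fam.σ : G →* Equiv.Perm (Fin t) where
  toFun g :=
    { toFun := h.s hm g
      invFun := h.s hm g⁻¹
      left_inv := fun a => by rw [← h.s_mul, inv_mul_cancel, h.s_one]
      right_inv := fun a => by rw [← h.s_mul, mul_inv_cancel, h.s_one] }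
  map_one' := Equiv.ext fun a => h.s_one hm a
  map_mul' := fun g g' => Equiv.ext fun a => h.s_mul hm g g' a

/-- The centraliser of a class. -/
def Fam.Cen (a : Fin t) : Subgroup G where
  carrier := {g | ∃ J, T.Sh J ∧ J ≤ P a ∧ ∀ j ∈ J, ⁅g, j⁆ ∈ T.D}
  one_mem' := ⟨P a, h.1 a, le_rfl, fun j _ => by simp⟩
  mul_mem' := by
    rintro g g' ⟨J, h1, h2, h3⟩ ⟨J', k1, k2, k3⟩
    refine ⟨J ⊓ J', h.unif hm h1 k1 h2 k2, inf_le_left.trans h2, fun j hj => ?_⟩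
    have := mul_mem (conj_mem_of_Nm (T.D_nm g) (k3 j hj.2)) (h3 j hj.1)
    convert this using 1
    simp only [commutatorElement_def]; group
  inv_mem' := by
    rintro g ⟨J, h1, h2, h3⟩
    refine ⟨J, h1, h2, fun j hj => ?_⟩
    have := conj_mem_of_Nm' (T.D_nm g) (inv_mem (h3 j hj))
    convert this using 1
    simp only [commutatorElement_def]; group

theorem Fam.common {a : Fin t} {u : ℕ} {g : Fin u → G} (hg : ∀ l, ∃ J, T.Sh J ∧ J ≤ P a ∧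
    ∀ j ∈ J, ⁅g l, j⁆ ∈ T.D) : ∃ J, T.Sh J ∧ J ≤ P a ∧ ∀ l, ∀ j ∈ J, ⁅g l, j⁆ ∈ T.D := by
  induction u with
  | zero => exact ⟨P a, h.1 a, le_rfl, fun l => l.elim0⟩
  | succ u ih =>
    obtain ⟨J, h1, h2, h3⟩ := ih fun l => hg l.succ
    obtain ⟨J', k1, k2, k3⟩ := hg 0
    exact ⟨J ⊓ J', h.unif hm h1 k1 h2 k2, inf_le_left.trans h2, fun l => Fin.cases
      (fun j hj => k3 j hj.2) (fun l j hj => h3 l j hj.1) l⟩

end Build

theorem L_all {u : ℕ} {A : Fin (u + 1) → Subgroup G} (h : ∀ a, T.L (A a)) : T.L (⨅ a, A a) := by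
  induction u with
  | zero => simpa using h 0
  | succ u ih =>
    have e : ⨅ a, A a = A 0 ⊓ ⨅ a : Fin (u + 1), A a.succ :=
      le_antisymm (le_inf (iInf_le _ _) (le_iInf fun a => iInf_le _ _))
        (le_iInf fun a => Fin.cases inf_le_left (fun a => inf_le_right.trans (iInf_le _ a)) a)
    rw [e]; exact T.L_inf (h 0) (ih fun a => h a.succ)

theorem exists_cl (T : ACT G) : Nonempty T.Cl := by
  obtain ⟨t, P, h0, h, hm, hn⟩ := T.exists_fam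
  refine ⟨⟨t, P, h.σ hm, h.Cen hm, h0, h, hm, fun _ _ => Iff.rfl, ?_, ?_, ?_, ?_⟩⟩
  · rintro g c a ⟨J, h1, h2, h3⟩
    refine ⟨_, h.s_sub hm g h1 h2, inf_le_right, fun j hj => ?_⟩
    obtain ⟨b, hb, rfl⟩ := mem_cj'.1 hj.1
    rw [conj_comm]
    exact conj_mem_of_Nm (T.D_nm g) (h3 b hb)
  · rintro g a ⟨J, h1, h2, h3⟩
    exact h.uniq hm (h.s_spec hm g a) fun e =>
      h1.meets_cj h3 ((inf_le_inf (cj_mono g h2) h2).trans e)
  · intro a b e g hg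
    exact ⟨P b, h.1 b, le_rfl, fun j hj =>
      h.2 a b e ⟨comm_mem_left hg (hn b a hj), comm_mem_right hj (hn a b hg)⟩⟩
  · intro E c hE hc h1
    by_contra h2
    choose J j1 j2 j3 using h1
    choose C N c1 c2 c3 c4 using fun a => T.A6 hE hc (j1 a).1 (j3 a)
    obtain ⟨u, rfl⟩ : ∃ u, t = u + 1 := ⟨t - 1, by omega⟩
    have h3 : T.Sh (⨅ a, C a) := ⟨L_all c1, fun e => h2 (e (mem_iInf.2 c3))⟩
    obtain ⟨a, ha⟩ := h.meets hm h3
    have h4 := h.unif hm ⟨T.L_inf h3.1 (h.1 a).1, ha⟩ ((j1 a).infN (c2 a)) inf_le_right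
      (inf_le_left.trans (j2 a))
    exact h4.2 (T.A5 h4.1 fun x hx y hy => c4 a x (mem_iInf.1 hx.1.1 a) y hy.2.1 hy.2.2)

theorem Cl.D_le (K : T.Cl) (a : Fin K.t) : T.D ≤ K.Cen a := fun g hg =>
  (K.cen g a).2 ⟨_, K.fam.1 a, le_rfl, fun j _ => comm_mem_left hg (T.D_nm j)⟩

theorem Cl.common (K : T.Cl) {a : Fin K.t} {u : ℕ} {g : Fin u → G} (hg : ∀ l, g l ∈ K.Cen a) :
    ∃ J, T.Sh J ∧ J ≤ K.P a ∧ ∀ l, ∀ j ∈ J, ⁅g l, j⁆ ∈ T.D :=
  K.fam.common K.max fun l => (K.cen _ a).1 (hg l)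

end ACT

end Pool.Agent.Lib.MP_bf45aa_co
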