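import Pool.Agent.Lib.MP_bf45aa_co.PWin0

set_option autoImplicit false

/-! The averaging argument for the window lemma. -/

namespace Pool.Agent.Lib.MP_bf45aa_co

open Finset

/-- Log-sizes of the fixators of segments. -/
structure PWinP (p : ℕ → ℕ → ℝ) (E : ℝ) : Prop where
  anti : ∀ a c, a ≤ c → p a (c + 1) ≤ p a c
  step : ∀ a c, a ≤ c → p a c - p a (c + 1) ≤ E
  sub : ∀ a a' c, a ≤ a' → a' ≤ c → p a c - p a (c + 1) ≤ p a' c - p a' (c + 1)

/-- The mutual information of the two extensions of a segment. -/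
theorem PWin1_I1 {p : ℕ → ℕ → ℝ} {E : ℝ} (h : PWinP p E) {m t R X : ℕ} (hmt : m ≤ t) (hR : t ≤ R) :
    ∑ j ∈ Ico t (X - t), (p (j - m) (j + m) - p (j - m) (j + t) - p (j - t) (j + m) + p (j - t) (j + t))
      ≤ t * (∑ c ∈ range X, (p (c - 2 * m) c - p (c - 2 * m) (c + 1)) -
        ∑ c ∈ range X, (p (c - 2 * R) c - p (c - 2 * R) (c + 1))) := by
  let θ : ℕ → ℝ := fun c => (p (c - 2 * m) c - p (c - 2 * m) (c + 1)) -
    (p (c - 2 * R) c - p (c - 2 * R) (c + 1))
  have h0 : ∀ c, 0 ≤ θ c := fun c => sub_nonneg.2 (h.sub _ _ _ (by omega) (by omega))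
  have h1 : ∀ j ∈ Ico t (X - t), p (j - m) (j + m) - p (j - m) (j + t) - p (j - t) (j + m) +
      p (j - t) (j + t) ≤ ∑ i ∈ range (t - m), θ (j + m + i) := by
    intro j hj
    have hj' := mem_Ico.1 hj
    have e1 := sum_range_sub' (fun i => p (j - m) (j + m + i)) (t - m)
    have e2 := sum_range_sub' (fun i => p (j - t) (j + m + i)) (t - m)
    rw [show j + m + (t - m) = j + t by omega, add_zero] at e1 e2
    have h2 : ∑ i ∈ range (t - m), ((p (j - m) (j + m + i) - p (j - m) (j + m + (i + 1))) -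
        (p (j - t) (j + m + i) - p (j - t) (j + m + (i + 1)))) ≤
        ∑ i ∈ range (t - m), θ (j + m + i) := by
      refine sum_le_sum fun i hi => ?_
      have hi' := mem_range.1 hi
      have h3 := h.sub (j - m) (j + m + i - 2 * m) (j + m + i) (by omega) (by omega)
      have h4 := h.sub (j + m + i - 2 * R) (j - t) (j + m + i) (by omega) (by omega)
      simp only [θ, ← add_assoc]
      linarith
    rw [sum_sub_distrib, e1, e2] at h2
    linarith
  refine (sum_le_sum h1).trans ?_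
  rw [sum_comm, ← sum_sub_distrib]
  have h5 : ∀ i ∈ range (t - m), ∑ j ∈ Ico t (X - t), θ (j + m + i) ≤ ∑ c ∈ range X, θ c := by
    intro i hi
    have hi' := mem_range.1 hi
    refine PWin0_sub θ h0 _ X (fun j => j + m + i) (fun a _ b _ e => by simpa using e) fun j hj => ?_
    have := mem_Ico.1 hj
    omega
  refine (sum_le_sum h5).trans ?_
  rw [sum_const, card_range, nsmul_eq_mul]
  exact mul_le_mul_of_nonneg_right (by exact_mod_cast Nat.sub_le t m) (sum_nonneg fun c _ => h0 c)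

/-- The activity of the path. -/
theorem PWin1_S {p : ℕ → ℕ → ℝ} {E : ℝ} (h : PWinP p E) {m t X : ℕ} (hmt : 2 * m ≤ t)
    (hX : 2 * t ≤ X) :
    m * (p 0 0 - p 0 X - 3 * E * t) ≤ ∑ j ∈ Ico t (X - t), (p 0 (j + m) - p 0 (j + 2 * m)) := by
  let σ : ℕ → ℝ := fun c => - p 0 c
  have hE : 0 ≤ E := (sub_nonneg.2 (h.anti 0 0 le_rfl)).trans (h.step 0 0 le_rfl)
  have h1 : ∀ c, σ (c + 1) - σ c ≤ E := fun c => by
    have := h.step 0 c (Nat.zero_le _)
    simp only [σ]
    linarith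
  have h2 : Monotone σ := monotone_nat_of_le_succ fun c => neg_le_neg (h.anti 0 c (Nat.zero_le _))
  have h3 := PWin0_shift (fun c => σ (c + m)) m (p := t) (q := X - t) (by omega)
  have h4 : ∑ j ∈ Ico t (X - t), (p 0 (j + m) - p 0 (j + 2 * m)) =
      ∑ j ∈ Ico t (X - t), (σ (j + m + m) - σ (j + m)) := by
    refine sum_congr rfl fun j _ => ?_
    simp only [σ]
    rw [show j + m + m = j + 2 * m by omega]
    ring
  rw [h4, h3]
  have h5 : ∀ i ∈ range m, p 0 0 - p 0 X - 3 * E * t ≤ σ (X - t + i + m) - σ (t + i + m) := by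
    intro i hi
    have hi' := mem_range.1 hi
    have h6 := h2 (show X - t ≤ X - t + i + m by omega)
    have h7 := h2 (show t + i + m ≤ 0 + 2 * t by omega)
    have h8 := PWin0_lip σ h1 0 (2 * t)
    have h9 := PWin0_lip σ h1 (X - t) t
    rw [show X - t + t = X by omega] at h9
    have e0 : σ 0 = - p 0 0 := rfl
    have e1 : σ X = - p 0 X := rfl
    push_cast at h8
    linarith
  have h6 := sum_le_sum h5
  rwa [sum_const, card_range, nsmul_eq_mul] at h6

/-- Increments of a function of linear growth. -/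
theorem PWin1_lam {lam : ℕ → ℝ} {C : ℝ} (hC : 0 ≤ C) (h0 : ∀ i, 0 ≤ lam i)
    (h1 : ∀ i, lam i ≤ C * (i + 1)) {k X : ℕ} (hk : k ≤ X) :
    ∑ i ∈ range X, (lam (i + k) - lam i) ≤ 2 * C * k * X := by
  have h2 := PWin0_shift lam k (Nat.zero_le X)
  rw [← range_eq_Ico] at h2
  rw [h2]
  have h3 : ∀ i ∈ range k, lam (X + i) - lam (0 + i) ≤ 2 * C * X := by
    intro i hi
    have hi' : ((X + i : ℕ) : ℝ) + 1 ≤ 2 * X := by
      have := mem_range.1 hi
      exact_mod_cast (show X + i + 1 ≤ 2 * X by omega)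
    have h4 := h0 (0 + i)
    have h5 := (h1 (X + i)).trans (mul_le_mul_of_nonneg_left hi' hC)
    linarith
  refine (sum_le_sum h3).trans (le_of_eq ?_)
  rw [sum_const, card_range, nsmul_eq_mul]
  ring

/-- The averaging argument. -/
theorem PWin1_num {p : ℕ → ℕ → ℝ} {E C D : ℝ} (h : PWinP p E) (hC : 0 ≤ C) (hD : 0 < D)
    (ψ ψ' : ℕ → ℕ → ℕ → ℝ) (lam : ℕ → ℝ) {X N U T K : ℕ} (m : ℕ → ℕ)
    (ψ0 : ∀ r b l, 0 ≤ ψ r b l) (ψ1 : ∀ r b l, ψ r b l ≤ C * (r + 1)) (ψ2 : ∀ r b, Antitone (ψ r b))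
    (ψ0' : ∀ r b l, 0 ≤ ψ' r b l) (ψ1' : ∀ r b l, ψ' r b l ≤ C * (r + 1))
    (ψ2' : ∀ r b, Antitone (ψ' r b))
    (l0 : ∀ i, 0 ≤ lam i) (l1 : ∀ i, lam i ≤ C * (i + 1)) (l2 : Monotone lam)
    (act : X ≤ D * (p 0 0 - p 0 X)) (hT : 2 ≤ T) (hK : 0 < K) (hN0 : 0 < N) (hU0 : 0 < U)
    (hU : 16 * C * D * (E + 1) * (T + 1) ≤ U) (hN : 8 * D * (E + 1) * E * (2 ^ U * T) ≤ N)
    (m0 : ∀ n, 0 < m n) (m1 : ∀ n < N, 2 ^ U * T * m n ≤ m (n + 1))
    (m2 : ∀ n ≤ N, 6 * D * E * m n ≤ X) (m3 : ∀ n ≤ N, 2 * m n < X) (m4 : ∀ n ≤ N, K * m n ≤ X) :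
    ∃ n < N, ∃ t j, 2 * m n ≤ t ∧ t ≤ j ∧ j + t < X ∧
      (lam (j + K * m n) - lam j) + (lam (j - t + K * m n) - lam (j - t)) +
        (lam (j + t + K * m n) - lam (j + t)) ≤ (24 * E * C * D + 1) * K * m n ∧
      ∃ I, I = (p (j - m n) (j + m n) - p (j - m n) (j + t) - p (j - t) (j + m n) + p (j - t) (j + t))
        + (ψ (T * m n) (j - t) t - ψ (T * m n) (j - t) (2 * t))
        + (ψ' (T * m n) (j + t) t - ψ' (T * m n) (j + t) (2 * t)) ∧
        I ≤ m n ∧ I < p 0 (j + m n) - p 0 (j + 2 * m n) := by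
  have hE : 0 ≤ E := (sub_nonneg.2 (h.anti 0 0 le_rfl)).trans (h.step 0 0 le_rfl)
  obtain ⟨n, hn, h1⟩ := PWin0_drop
    (fun n => ∑ c ∈ range X, (p (c - 2 * m n) c - p (c - 2 * m n) (c + 1))) (M := E * X) hN0
    (by
      have := sum_le_sum fun c (_ : c ∈ range X) => h.step (c - 2 * m 0) c (by omega)
      rwa [sum_const, card_range, nsmul_eq_mul, mul_comm (X : ℝ)] at this)
    (sum_nonneg fun c _ => sub_nonneg.2 (h.anti _ _ (by omega)))
  have hm0 := m0 n
  have hm1 := m1 n hn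
  have hm2 := m2 (n + 1) hn
  have hm3 := m3 (n + 1) hn
  have hm4 := m4 n hn.le
  refine ⟨n, hn, ?_⟩
  generalize m (n + 1) = R at h1 hm1 hm2 hm3
  generalize m n = a at h1 hm0 hm1 hm4 ⊢
  obtain ⟨u, hu, h2⟩ := PWin0_drop
    (fun u => ∑ b ∈ range X, ψ (T * a) b (2 ^ u * (T * a)) + ∑ b ∈ range X, ψ' (T * a) b (2 ^ u * (T * a)))
    (M := 2 * (C * ((T * a : ℕ) + 1)) * X) hU0
    (by
      have e1 := sum_le_sum fun b (_ : b ∈ range X) => ψ1 (T * a) b (2 ^ 0 * (T * a))
      have e2 := sum_le_sum fun b (_ : b ∈ range X) => ψ1' (T * a) b (2 ^ 0 * (T * a))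
      rw [sum_const, card_range, nsmul_eq_mul] at e1 e2
      linarith)
    (add_nonneg (sum_nonneg fun b _ => ψ0 _ _ _) (sum_nonneg fun b _ => ψ0' _ _ _))
  rw [show 2 ^ (u + 1) * (T * a) = 2 * (2 ^ u * (T * a)) by ring] at h2
  have ht1 : T * a ≤ 2 ^ u * (T * a) := Nat.le_mul_of_pos_left _ (Nat.pow_pos two_pos)
  have ht2 : 2 ^ u * (T * a) ≤ 2 ^ U * T * a := by
    rw [mul_assoc]
    exact Nat.mul_le_mul_right _ (Nat.pow_le_pow_right two_pos hu.le)
  generalize 2 ^ u * (T * a) = t at h2 ht1 ht2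
  have ht3 : 2 * a ≤ t := (Nat.mul_le_mul_right _ hT).trans ht1
  have ht4 : t ≤ R := ht2.trans hm1
  refine ⟨t, ?_⟩
  let I : ℕ → ℝ := fun j =>
    (p (j - a) (j + a) - p (j - a) (j + t) - p (j - t) (j + a) + p (j - t) (j + t))
      + (ψ (T * a) (j - t) t - ψ (T * a) (j - t) (2 * t))
      + (ψ' (T * a) (j + t) t - ψ' (T * a) (j + t) (2 * t))
  let ν : ℕ → ℝ := fun i => lam (i + K * a) - lam i
  let s : ℕ → ℝ := fun j => p 0 (j + a) - p 0 (j + 2 * a)
  have ν0 : ∀ i, 0 ≤ ν i := fun i => sub_nonneg.2 (l2 (Nat.le_add_right _ _))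
  have hJ : ∀ j ∈ Ico t (X - t), t ≤ j ∧ j + t < X := fun j hj => by
    have := mem_Ico.1 hj
    omega
  have a0 : (0 : ℝ) < a := by exact_mod_cast hm0
  have X0 : (0 : ℝ) < X := by exact_mod_cast (show 0 < X by omega)
  have K0 : (0 : ℝ) < K := by exact_mod_cast hK
  have N0 : (0 : ℝ) < N := by exact_mod_cast hN0
  have U0 : (0 : ℝ) < U := by exact_mod_cast hU0
  have sν : ∑ j ∈ Ico t (X - t), (ν j + ν (j - t) + ν (j + t)) ≤ 6 * C * K * a * X := by
    have e0 : ∑ i ∈ range X, ν i ≤ _ := PWin1_lam hC l0 l1 hm4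
    have e1 := PWin0_sub ν ν0 (Ico t (X - t)) X (fun j => j) (fun _ _ _ _ e => e)
      fun j hj => by have := hJ j hj; omega
    have e2 := PWin0_sub ν ν0 (Ico t (X - t)) X (fun j => j - t)
      (fun x hx y hy e => by
        have := hJ x hx; have := hJ y hy; have : x - t = y - t := e; omega)
      fun j hj => by have := hJ j hj; omega
    have e3 := PWin0_sub ν ν0 (Ico t (X - t)) X (fun j => j + t) (fun _ _ _ _ e => by simpa using e)
      fun j hj => (hJ j hj).2
    rw [sum_add_distrib, sum_add_distrib]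
    push_cast at e0
    linarith
  have ss : a * X ≤ 2 * D * ∑ j ∈ Ico t (X - t), s j := by
    have e0 : _ ≤ ∑ j ∈ Ico t (X - t), s j := PWin1_S h ht3 (X := X) (by omega)
    have e1 : (t : ℝ) ≤ R := by exact_mod_cast ht4
    have e2 : 6 * D * E * t ≤ X := (mul_le_mul_of_nonneg_left e1 (by positivity)).trans hm2
    have e3 := mul_le_mul_of_nonneg_left e0 (show 0 ≤ 2 * D by positivity)
    have e4 : (X : ℝ) ≤ 2 * D * (p 0 0 - p 0 X - 3 * E * t) := by linarith
    have e5 := mul_le_mul_of_nonneg_left e4 a0.le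
    linarith
  have sI : 4 * D * (E + 1) * ∑ j ∈ Ico t (X - t), I j ≤ a * X := by
    have e0 := PWin1_I1 h (m := a) (t := t) (R := R) (X := X) (by omega) ht4
    have e1 := PWin0_sub (fun b => ψ (T * a) b t - ψ (T * a) b (2 * t))
      (fun b => sub_nonneg.2 (ψ2 _ _ (by omega))) (Ico t (X - t)) X (fun j => j - t)
      (fun x hx y hy e => by
        have := hJ x hx; have := hJ y hy; have : x - t = y - t := e; omega)
      fun j hj => by have := hJ j hj; omega
    have e2 := PWin0_sub (fun b => ψ' (T * a) b t - ψ' (T * a) b (2 * t))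
      (fun b => sub_nonneg.2 (ψ2' _ _ (by omega))) (Ico t (X - t)) X (fun j => j + t)
      (fun _ _ _ _ e => by simpa using e) fun j hj => (hJ j hj).2
    rw [sum_sub_distrib (s := range X)] at e1 e2
    have e3 := (rfl : ∑ j ∈ Ico t (X - t), I j = ∑ j ∈ Ico t (X - t), I j)
    conv_rhs at e3 => rw [sum_add_distrib, sum_add_distrib]
    generalize ∑ c ∈ range X, (p (c - 2 * a) c - p (c - 2 * a) (c + 1)) -
      ∑ c ∈ range X, (p (c - 2 * R) c - p (c - 2 * R) (c + 1)) = A at h1 e0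
    have e4 : 8 * D * (E + 1) * (t * A) ≤ a * X := by
      have f0 : (t : ℝ) ≤ 2 ^ U * T * a := by exact_mod_cast ht2
      have f1 := mul_le_mul_of_nonneg_left h1 (show 0 ≤ 8 * D * (E + 1) * t by positivity)
      have f2 := mul_le_mul_of_nonneg_left f0 (show 0 ≤ 8 * D * (E + 1) * (E * X) by positivity)
      have f3 := mul_le_mul_of_nonneg_right hN (show 0 ≤ (a : ℝ) * X by positivity)
      refine le_of_mul_le_mul_left ?_ N0
      linarith
    generalize hB : ∑ b ∈ range X, ψ (T * a) b t + ∑ b ∈ range X, ψ' (T * a) b t -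
      (∑ b ∈ range X, ψ (T * a) b (2 * t) + ∑ b ∈ range X, ψ' (T * a) b (2 * t)) = B at h2
    have e5 : 8 * D * (E + 1) * B ≤ a * X := by
      have f0 : ((T * a : ℕ) : ℝ) + 1 ≤ (T + 1) * a := by
        have : (1 : ℝ) ≤ a := by exact_mod_cast hm0
        push_cast
        linarith
      have f1 := mul_le_mul_of_nonneg_left h2 (show 0 ≤ 8 * D * (E + 1) by positivity)
      have f2 := mul_le_mul_of_nonneg_left f0 (show 0 ≤ 16 * D * (E + 1) * C * X by positivity)
      have f3 := mul_le_mul_of_nonneg_right hU (show 0 ≤ (a : ℝ) * X by positivity)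
      refine le_of_mul_le_mul_left ?_ U0
      linarith
    have e6 : ∑ j ∈ Ico t (X - t), I j ≤ t * A + B := by linarith
    have e7 := mul_le_mul_of_nonneg_left e6 (show 0 ≤ 4 * D * (E + 1) by positivity)
    linarith
  have main : ∃ j ∈ Ico t (X - t), (24 * E * C * D + 1) * K * (E + 1) * I j +
      E * (ν j + ν (j - t) + ν (j + t)) < (24 * E * C * D + 1) * K * s j := by
    refine exists_lt_of_sum_lt ?_
    rw [sum_add_distrib, ← mul_sum, ← mul_sum, ← mul_sum]
    have f0 : 0 < (24 * E * C * D + 1) * K := by positivity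
    have f1 := mul_le_mul_of_nonneg_left sI f0.le
    have f2 := mul_le_mul_of_nonneg_left ss (show 0 ≤ 2 * ((24 * E * C * D + 1) * K) by positivity)
    have f3 := mul_le_mul_of_nonneg_left sν (show 0 ≤ 4 * D * E by positivity)
    have f4 : (0 : ℝ) < K * a * X := by positivity
    refine lt_of_mul_lt_mul_left ?_ (show 0 ≤ 4 * D by positivity)
    linarith
  obtain ⟨j, hj, h3⟩ := main
  obtain ⟨j1, j2⟩ := hJ j hj
  have I0 : 0 ≤ I j := by
    have e0 := PWin1_I1 h (m := a) (t := t) (R := t) (X := X) (by omega) le_rfl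
    have e1 := sum_range_sub' (fun i => p (j - a) (j + a + i)) (t - a)
    have e2 := sum_range_sub' (fun i => p (j - t) (j + a + i)) (t - a)
    rw [show j + a + (t - a) = j + t by omega, add_zero] at e1 e2
    have e3 := sum_le_sum fun i (_ : i ∈ range (t - a)) =>
      h.sub (j - t) (j - a) (j + a + i) (by omega) (by omega)
    have e4 := ψ2 (T * a) (j - t) (show t ≤ 2 * t by omega)
    have e5 := ψ2' (T * a) (j + t) (show t ≤ 2 * t by omega)
    simp only [← add_assoc] at e1 e2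
    simp only [I]
    linarith
  have s1 : s j ≤ E * a := by
    have := PWin0_lip (fun c => - p 0 c) (E := E)
      (fun c => by have := h.step 0 c (Nat.zero_le _); linarith) (j + a) a
    rw [show j + a + a = j + 2 * a by omega] at this
    simp only [s]
    linarith
  have f0 : 0 < (24 * E * C * D + 1) * K := by positivity
  have f1 : 0 ≤ ν j + ν (j - t) + ν (j + t) := add_nonneg (add_nonneg (ν0 _) (ν0 _)) (ν0 _)
  have f2 : (E + 1) * I j < s j := by
    refine lt_of_mul_lt_mul_left ?_ f0.le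
    have := mul_nonneg hE f1
    linarith
  have f3 := mul_nonneg hE I0
  refine ⟨j, ht3, j1, j2, ?_, I j, rfl, ?_, ?_⟩
  · have g0 : 0 ≤ (24 * E * C * D + 1) * K * (E + 1) * I j := by positivity
    have g1 := mul_le_mul_of_nonneg_left s1 f0.le
    have g2 : E * (ν j + ν (j - t) + ν (j + t)) < E * ((24 * E * C * D + 1) * K * a) := by linarith
    exact (lt_of_mul_lt_mul_left g2 hE).le
  · refine le_of_mul_le_mul_left ?_ (show 0 < E + 1 by positivity)
    linarith
  · show I j < s j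
    linarith

end Pool.Agent.Lib.MP_bf45aa_co
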