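import Pool.Agent.Lib.MP_bf45aa_co.PZDef

set_option autoImplicit false
set_option linter.unusedSectionVars false

/-! First consequences of the limit data. -/

namespace Pool.Agent.Lib.MP_bf45aa_co

open Subgroup Filter

/-- The index of a stabiliser is the size of the orbit. -/
theorem PZ_relIndex_St {H α : Type*} [Group H] [MulAction H α] (P : Subgroup H) (v : α) :
    (St H v).relIndex P = {w | ∃ g ∈ P, g • v = w}.ncard := by
  have e : (St H v).subgroupOf P = MulAction.stabilizer P v := by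
    ext g; rw [mem_subgroupOf, MulAction.mem_stabilizer_iff]; rfl
  rw [relIndex, e, MulAction.index_stabilizer]
  congr 1
  ext w
  exact ⟨fun ⟨g, hg⟩ => ⟨g, g.2, hg⟩, fun ⟨g, hg, e⟩ => ⟨⟨g, hg⟩, e⟩⟩

theorem PZ_relIndex_St_le {H α : Type*} [Group H] [MulAction H α] {P : Subgroup H} {v : α}
    {S : Set α} (hS : S.Finite) (h : ∀ g ∈ P, g • v ∈ S) :
    (St H v).relIndex P ≠ 0 ∧ (St H v).relIndex P ≤ S.ncard := by
  have h1 : {w | ∃ g ∈ P, g • v = w} ⊆ S := by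
    rintro _ ⟨g, hg, rfl⟩
    exact h g hg
  rw [PZ_relIndex_St]
  exact ⟨((Set.ncard_pos (hS.subset h1)).2 ⟨v, 1, one_mem _, one_smul _ _⟩).ne',
    Set.ncard_le_ncard h1 hS⟩

/-- An element fixing an edge at `x` and moving the ball of radius `k + 1` has a wall. -/
theorem PZ_boundary {H X : Type*} [Group H] [MulAction H X] {Γ : SimpleGraph X} {x x' : X}
    (h : Γ.Adj x x') {g : H} (h1 : g • x = x) (h2 : g • x' = x') {k : ℕ}
    (h3 : g ∉ Kn H Γ (k + 1) x) :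
    ∃ y y', Near Γ k x y ∧ Γ.Adj y y' ∧ g • y = y ∧ g • y' = y' ∧ g ∉ Kn H Γ 1 y := by
  induction k with
  | zero => exact ⟨x, x', Near.refl _ _, h, h1, h2, h3⟩
  | succ k ih =>
    by_cases h4 : g ∈ Kn H Γ (k + 1) x
    · rw [mem_Kn_iff] at h3 h4
      push Not at h3
      obtain ⟨z, hz, h5⟩ := h3
      rcases near_succ' hz with rfl | ⟨y, hy, hyz⟩
      · exact absurd h1 h5
      · have h6 : g ∉ Kn H Γ 1 y := fun h6 => h5 ((mem_K1.1 h6).2 z hyz)
        rcases near_succ' hy with rfl | ⟨y', hy', hyy⟩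
        · exact ⟨x, x', Near.refl _ _, h, h1, h2, h6⟩
        · exact ⟨y, y', hy, hyy.symm, h4 y hy, h4 y' (hy'.mono (by omega)), h6⟩
    · obtain ⟨y, y', hy, h5⟩ := ih h4
      exact ⟨y, y', hy.mono (by omega), h5⟩

theorem PZ_split {X : Type*} {Γ : SimpleGraph X} {a b : ℕ} {x y : X} (h : Near Γ (a + b) x y) :
    ∃ z, Near Γ a x z ∧ Near Γ b z y := by
  induction a generalizing x with
  | zero => exact ⟨x, Near.refl _ _, by rwa [zero_add] at h⟩
  | succ a ih =>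
    rw [show a + 1 + b = a + b + 1 by omega] at h
    rcases near_succ h with rfl | ⟨z, h1, h2⟩
    · exact ⟨x, Near.refl _ _, Near.refl _ _⟩
    · obtain ⟨w, h3, h4⟩ := ih h2
      exact ⟨w, ((Near.of_adj h1).trans h3).mono (by omega), h4⟩

/-- A proper subgroup has at most half of the elements. -/
theorem PZ_two_mul_card {V : Type*} [AddCommGroup V] {A B : AddSubgroup V} [Finite B] (h : A ≤ B)
    {v : V} (hv : v ∈ B) (hv' : v ∉ A) : 2 * Nat.card A ≤ Nat.card B := by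
  obtain ⟨k, hk⟩ := AddSubgroup.card_dvd_of_le h
  have h0 : 0 < Nat.card B := Nat.card_pos
  have : Finite A := Finite.of_injective _ (AddSubgroup.inclusion_injective h)
  have h1 : k ≠ 1 := by
    rintro rfl
    exact hv' ((AddSubgroup.eq_of_le_of_card_ge h (by omega)).ge hv)
  have h2 : k ≠ 0 := by
    rintro rfl
    omega
  rw [hk, mul_comm]
  exact Nat.mul_le_mul_left _ (by omega)

/-- A map that is non-trivial on `j` layers of an invariant chain has at least `2 ^ j` values. -/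
theorem PZ_chain {V : Type*} [AddCommGroup V] (φ : V →+ V) (A : ℕ → AddSubgroup V)
    (hf : ∀ i, Finite (A i)) (hm : ∀ i, A i ≤ A (i + 1)) (hi : ∀ i, ∀ v ∈ A i, φ v ∈ A i) (j : ℕ)
    (h : ∀ i < j, ∃ v ∈ A (i + 1), φ v ∉ A i) : 2 ^ j ≤ Nat.card ((A j).map φ) := by
  have hfin : ∀ i, Finite ((A i).map φ) := fun i =>
    Finite.of_surjective _ (φ.addSubgroupMap_surjective (A i))
  induction j with
  | zero => exact Nat.card_pos
  | succ j ih =>
    obtain ⟨v, h1, h2⟩ := h j (Nat.lt_succ_self j)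
    have h3 := PZ_two_mul_card (AddSubgroup.map_mono (f := φ) (hm j)) (v := φ v) ⟨v, h1, rfl⟩
      (fun ⟨w, hw, e⟩ => h2 (e ▸ hi j w hw))
    have h4 := ih fun i hi => h i (by omega)
    rw [pow_succ']
    omega

variable {H X V : Type} [Group H] [MulAction H X] [AddCommGroup V] [DistribMulAction H V]
  {Γ : SimpleGraph X} {d C : ℕ}

/-- The map `v ↦ g • v - v`. -/
def dl (V : Type) [AddCommGroup V] [DistribMulAction H V] (g : H) : V →+ V where
  toFun v := g • v - v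
  map_zero' := by simp
  map_add' u v := by rw [smul_add]; abel

theorem dl_apply (g : H) (v : V) : dl V g v = g • v - v := rfl

/-- The pointwise stabiliser of a subgroup of the module. -/
def Fx (H : Type) [Group H] [DistribMulAction H V] (A : AddSubgroup V) : Subgroup H where
  carrier := {g | ∀ v ∈ A, g • v = v}
  one_mem' := fun v _ => one_smul _ _
  mul_mem' := fun {a b} ha hb v hv => by rw [mul_smul, hb v hv, ha v hv]
  inv_mem' := fun {a} ha v hv => by rw [inv_smul_eq_iff, ha v hv]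

theorem mem_Fx {A : AddSubgroup V} {g : H} : g ∈ Fx H A ↔ ∀ v ∈ A, g • v = v := Iff.rfl

/-- The vectors fixed by a subgroup. -/
def Cv (V : Type) [AddCommGroup V] [DistribMulAction H V] (P : Subgroup H) : AddSubgroup V where
  carrier := {v | ∀ g ∈ P, g • v = v}
  zero_mem' := fun g _ => smul_zero g
  add_mem' := fun {a b} ha hb g hg => by rw [smul_add, ha g hg, hb g hg]
  neg_mem' := fun {a} ha g hg => by rw [smul_neg, ha g hg]

theorem mem_Cv {P : Subgroup H} {v : V} : v ∈ Cv V P ↔ ∀ g ∈ P, g • v = v := Iff.rfl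

theorem Cv_anti {P Q : Subgroup H} (h : P ≤ Q) : Cv V Q ≤ Cv V P := fun _ hv g hg => hv g (h hg)

theorem Fx_anti {A B : AddSubgroup V} (h : A ≤ B) : Fx H B ≤ Fx H A := fun _ hg v hv => hg v (h hv)

theorem le_Fx_iff {P : Subgroup H} {A : AddSubgroup V} : P ≤ Fx H A ↔ A ≤ Cv V P :=
  ⟨fun h _ hv _ hg => h hg _ hv, fun h _ hg _ hv => h hv _ hg⟩

theorem smul_mem_Cv {P : Subgroup H} {v : V} (g : H) (hv : v ∈ Cv V P) : g • v ∈ Cv V (cj g P) :=
  fun a ha => by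
    have := hv _ (mem_cj.1 ha)
    rwa [mul_smul, mul_smul, inv_smul_eq_iff] at this

/-- The vectors fixed by the pointwise stabiliser of the ball of radius `i`. -/
def FV (H : Type) {X : Type} (V : Type) [Group H] [MulAction H X] [AddCommGroup V]
    [DistribMulAction H V] (Γ : SimpleGraph X) (x : X) (i : ℕ) : AddSubgroup V :=
  Cv V (Kn H Γ i x)

theorem mem_FF {x : X} {i : ℕ} {v : V} : v ∈ FV H V Γ x i ↔ ∀ g ∈ Kn H Γ i x, g • v = v := Iff.rfl

theorem FF_near {n : ℕ} {x y : X} (h : Near Γ n x y) {i j : ℕ} (hij : i + n ≤ j) :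
    FV H V Γ x i ≤ FV H V Γ y j :=
  Cv_anti fun _ hg => Kn_near h.symm (Kn_anti hij y hg)

theorem FF_mono (x : X) {i j : ℕ} (hij : i ≤ j) : FV H V Γ x i ≤ FV H V Γ x j :=
  FF_near (Near.refl 0 x) hij

theorem FF_adj {x y : X} (h : Γ.Adj x y) (i : ℕ) : FV H V Γ x i ≤ FV H V Γ y (i + 1) :=
  FF_near (Near.of_adj h) le_rfl

theorem Ctx.FF_smul (c : Ctx H Γ) (g : H) {x : X} {i : ℕ} {v : V} (hv : v ∈ FV H V Γ x i) :
    g • v ∈ FV H V Γ (g • x) i := by
  rw [FV, ← c.cj_Kn]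
  exact smul_mem_Cv g hv

theorem Ctx.FF_St (c : Ctx H Γ) {g : H} {x : X} (hg : g ∈ St H x) {i : ℕ} {v : V}
    (hv : v ∈ FV H V Γ x i) : g • v ∈ FV H V Γ x i := by
  have := c.FF_smul g hv
  rwa [mem_St.1 hg] at this

/-- The cardinality of an equivariant family is invariant. -/
theorem PZ_card_equi {W : X → AddSubgroup V} (h : ∀ (g : H) x, ∀ v ∈ W x, g • v ∈ W (g • x))
    (g : H) (x : X) : Nat.card (W (g • x)) = Nat.card (W x) := by
  refine Nat.card_congr ⟨fun v => ⟨g⁻¹ • v.1, ?_⟩, fun v => ⟨g • v.1, h g x _ v.2⟩,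
    fun v => Subtype.ext (smul_inv_smul _ _), fun v => Subtype.ext (inv_smul_smul _ _)⟩
  have := h g⁻¹ _ _ v.2
  rwa [inv_smul_smul] at this

theorem mem_OS_iff {x : X} {n : ℕ} {v : V} :
    v ∈ OS H V x n ↔ (St H v).relIndex (St H x) ≠ 0 ∧ (St H v).relIndex (St H x) ≤ 2 ^ n := by
  rw [PZ_relIndex_St]
  refine and_congr_left fun _ => ⟨fun h => ?_, Set.finite_of_ncard_ne_zero⟩
  exact ((Set.ncard_pos h).2 ⟨v, 1, one_mem _, one_smul _ _⟩).ne'

theorem mem_OS_of_subset {x : X} {n : ℕ} {v : V} {S : Set V} (hS : S.Finite) (hn : S.ncard ≤ 2 ^ n)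
    (h : ∀ g ∈ St H x, g • v ∈ S) : v ∈ OS H V x n :=
  let ⟨h1, h2⟩ := PZ_relIndex_St_le hS h; mem_OS_iff.2 ⟨h1, h2.trans hn⟩

theorem mem_OS_of_fix {x : X} {n : ℕ} {v : V} {P : Subgroup H} (h0 : P.relIndex (St H x) ≠ 0)
    (hn : P.relIndex (St H x) ≤ 2 ^ n) (h : ∀ g ∈ P, g • v = v) : v ∈ OS H V x n :=
  mem_OS_iff.2 ⟨fun e => h0 (relIndex_eq_zero_of_le_left h e),
    (relIndex_le_of_le_left h h0).trans hn⟩

theorem OS_mono (x : X) {m n : ℕ} (h : m ≤ n) : OS H V x m ⊆ OS H V x n :=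
  fun _ hv => ⟨hv.1, hv.2.trans (Nat.pow_le_pow_right two_pos h)⟩

theorem OO_mono (x : X) {m n : ℕ} (h : m ≤ n) : OO H V x m ≤ OO H V x n :=
  AddSubgroup.closure_mono (OS_mono x h)

theorem mem_OO {x : X} {n : ℕ} {v : V} (h : v ∈ OS H V x n) : v ∈ OO H V x n :=
  AddSubgroup.subset_closure h

theorem OS_smul (g : H) {x : X} {n : ℕ} {v : V} (h : v ∈ OS H V x n) :
    g • v ∈ OS H V (g • x) n := by
  rw [mem_OS_iff, ← cj_St, ← cj_St, relIndex_cj]
  exact mem_OS_iff.1 h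

theorem OO_smul (g : H) {x : X} {n : ℕ} {v : V} (h : v ∈ OO H V x n) :
    g • v ∈ OO H V (g • x) n := by
  induction h using AddSubgroup.closure_induction with
  | mem v hv => exact mem_OO (OS_smul g hv)
  | zero => rw [smul_zero]; exact zero_mem _
  | add u v _ _ hu hv => rw [smul_add]; exact add_mem hu hv
  | neg v _ hv => rw [smul_neg]; exact neg_mem hv

namespace PD

variable (D : PD H V Γ d C)
include D

theorem near (x y : X) : ∃ k, Near Γ k x y :=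
  let ⟨w⟩ := D.c.conn x y; ⟨w.length, w, le_rfl⟩

theorem nbr (x : X) : ∃ y, Γ.Adj x y := by
  obtain ⟨α, β, h⟩ := D.edge
  obtain ⟨w⟩ := D.c.conn x α
  cases w with
  | nil => exact ⟨β, h⟩
  | cons h1 _ => exact ⟨_, h1⟩

/-- Vertex-transitivity. -/
theorem vt (x y : X) : ∃ g : H, g • x = y := by
  obtain ⟨x', hx⟩ := D.nbr x
  obtain ⟨y', hy⟩ := D.nbr y
  exact (D.c.arc hx hy).imp fun _ h => h.1

theorem ball (z : X) (m : ℕ) :
    {y | Near Γ m z y}.Finite ∧ {y | Near Γ m z y}.ncard ≤ (d + 1) ^ m := by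
  classical
  have key : ∃ B : Finset X, B.card ≤ (d + 1) ^ m ∧ ∀ y, Near Γ m z y → y ∈ B := by
    induction m with
    | zero => exact ⟨{z}, by simp, fun y hy => by simp [near_zero hy]⟩
    | succ m ih =>
      obtain ⟨B, h1, h2⟩ := ih
      refine ⟨B.biUnion fun y => insert y (D.fin y).toFinset, ?_, ?_⟩
      · refine (Finset.card_biUnion_le_card_mul _ _ (d + 1) fun y _ => ?_).trans ?_
        · refine (Finset.card_insert_le _ _).trans (Nat.succ_le_succ ?_)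
          rw [← Set.ncard_eq_toFinset_card _ (D.fin y)]
          exact D.deg y
        · rw [pow_succ]
          exact Nat.mul_le_mul_right _ h1
      · intro y hy
        rcases near_succ' hy with rfl | ⟨w, h3, h4⟩
        · exact Finset.mem_biUnion.2 ⟨z, h2 z (Near.refl _ _), Finset.mem_insert_self _ _⟩
        · exact Finset.mem_biUnion.2 ⟨w, h2 w h3, Finset.mem_insert_of_mem (by simpa using h4)⟩
  obtain ⟨B, h1, h2⟩ := key
  exact ⟨B.finite_toSet.subset h2,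
    (Set.ncard_le_ncard h2 B.finite_toSet).trans ((Set.ncard_coe_finset B).trans_le h1)⟩

/-- The index of a vertex stabiliser in a group fixing a near vertex. -/
theorem St_idx {m : ℕ} {x y : X} (h : Near Γ m x y) {P : Subgroup H} (hP : P ≤ St H x) :
    (St H y).relIndex P ≠ 0 ∧ (St H y).relIndex P ≤ (d + 1) ^ m := by
  obtain ⟨h1, h2⟩ := D.ball x m
  obtain ⟨h3, h4⟩ := PZ_relIndex_St_le (P := P) (v := y) h1 fun g hg => by
    have := h.smul D.c.adj g
    rwa [mem_St.1 (hP hg)] at this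
  exact ⟨h3, h4.trans h2⟩

theorem Kn_idx (k : ℕ) (x : X) : (Kn H Γ k x).relIndex (St H x) ≠ 0 := by
  have : Finite {y // Near Γ k x y} := (D.ball x k).1
  have e : Kn H Γ k x = ⨅ y : {y // Near Γ k x y}, St H y.1 := by
    ext g
    rw [mem_Kn_iff, Subgroup.mem_iInf]
    exact ⟨fun h y => h y.1 y.2, fun h y hy => h ⟨y, hy⟩⟩
  rw [e]
  exact relIndex_iInf_ne_zero fun y => (D.St_idx y.2 le_rfl).1

theorem Kn_idx' (k : ℕ) (x : X) {y : X} {P : Subgroup H} (hP : P ≤ St H y) :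
    (Kn H Γ k x).relIndex P ≠ 0 := by
  obtain ⟨m, hm⟩ := D.near y x
  have h1 : Kn H Γ (k + m) y ≤ Kn H Γ k x := fun _ hg => Kn_near hm hg
  exact fun e => D.Kn_idx (k + m) y
    (relIndex_eq_zero_of_le_left h1 (relIndex_eq_zero_of_le_right hP e))

theorem Kn_idx_eq (k : ℕ) (x y : X) :
    (Kn H Γ k x).relIndex (St H x) = (Kn H Γ k y).relIndex (St H y) := by
  obtain ⟨g, rfl⟩ := D.vt x y
  rw [← D.c.cj_Kn, ← cj_St, relIndex_cj]

theorem eq_one {x : X} {g : H} (h : ∀ k, g ∈ Kn H Γ k x) : g = 1 :=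
  D.c.faithful g fun y => let ⟨k, hk⟩ := D.near x y; mem_Kn_iff.1 (h k) y hk

theorem OS_near {m n : ℕ} {x y : X} (h : Near Γ m x y) {v : V} (hv : v ∈ OS H V y n) :
    v ∈ OS H V x (n + d * m) := by
  obtain ⟨h1, h2⟩ := mem_OS_iff.1 hv
  obtain ⟨h3, h4⟩ := D.St_idx h (le_refl (St H x))
  have h5 := relIndex_inf_mul_relIndex (St H v) (St H y) (St H x)
  have h6 : (St H v).relIndex (St H y ⊓ St H x) ≠ 0 :=
    fun e => h1 (relIndex_eq_zero_of_le_right inf_le_left e)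
  have h7 : (St H v).relIndex (St H y ⊓ St H x) ≤ 2 ^ n :=
    (relIndex_le_of_le_right inf_le_left h1).trans h2
  refine mem_OS_of_fix (P := St H v ⊓ St H y) (h5 ▸ mul_ne_zero h6 h3) ?_ fun g hg => hg.1
  rw [← h5, pow_add, pow_mul]
  exact Nat.mul_le_mul h7 (h4.trans (Nat.pow_le_pow_left Nat.lt_two_pow_self m))

theorem OO_near {m n : ℕ} {x y : X} (h : Near Γ m x y) :
    OO H V y n ≤ OO H V x (n + d * m) :=
  AddSubgroup.closure_mono fun _ hv => D.OS_near h hv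

theorem FF_le_OO {x : X} {i n : ℕ} (h : (Kn H Γ i x).relIndex (St H x) ≤ 2 ^ n) :
    FV H V Γ x i ≤ OO H V x n := fun _ hv => mem_OO (mem_OS_of_fix (D.Kn_idx i x) h hv)

theorem FF_finite (x : X) (i : ℕ) : Finite (FV H V Γ x i) :=
  have := (D.L1 x ((Kn H Γ i x).relIndex (St H x))).1
  Finite.of_injective _ (AddSubgroup.inclusion_injective (D.FF_le_OO Nat.lt_two_pow_self.le))

theorem FF_card_eq (x y : X) (i : ℕ) : Nat.card (FV H V Γ x i) = Nat.card (FV H V Γ y i) := by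
  obtain ⟨g, rfl⟩ := D.vt x y
  exact (PZ_card_equi (W := fun x => FV H V Γ x i) (fun g _ _ hv => D.c.FF_smul g hv) g x).symm

theorem exists_FF_ne : ∃ m₀, ∀ x, ∀ m, m₀ ≤ m → FV H V Γ x m ≠ ⊥ := by
  obtain ⟨v, hv⟩ := D.ne
  obtain ⟨o, -⟩ := D.edge
  obtain ⟨m₀, hm⟩ := D.smooth o v
  refine ⟨m₀, fun x m h e => hv ?_⟩
  obtain ⟨g, rfl⟩ := D.vt o x
  have h1 := FF_mono _ h (D.c.FF_smul g hm)
  rw [e, AddSubgroup.mem_bot] at h1
  rw [← inv_smul_smul g v, h1, smul_zero]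

/-- Every finite subgroup lies in some `FV`. -/
theorem exists_le_FF (x : X) (A : AddSubgroup V) [Finite A] : ∃ n, A ≤ FV H V Γ x n := by
  choose f hf using fun v : A => D.smooth x v.1
  obtain ⟨n, hn⟩ := (Set.finite_range f).bddAbove
  exact ⟨n, fun v hv => FF_mono x (hn ⟨⟨v, hv⟩, rfl⟩) (hf ⟨v, hv⟩)⟩

/-- Thickness for three members `A ≤ B ≤ A'` of equivariant families. -/
theorem thick_gen {y y' : X} (h : Γ.Adj y y') {A B A' : AddSubgroup V} (h1 : A ≤ B) (h2 : B ≤ A')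
    (hf : Finite B) (h0 : B ≠ ⊥) (hA : ∀ g ∈ St H y, ∀ v ∈ A, g • v ∈ A)
    (hB : ∀ g ∈ St H y', ∀ v ∈ B, g • v ∈ B) (hA' : ∀ g ∈ St H y, ∀ v ∈ A', g • v ∈ A')
    {g : H} (g1 : g • y = y) (g2 : g • y' = y') (g3 : g ∉ Kn H Γ 1 y) :
    ∃ v ∈ A', g • v - v ∉ A := by
  by_contra hc
  push Not at hc
  let N : Subgroup H :=
    { carrier := {g | g ∈ St H y ∧ ∀ v ∈ A', g • v - v ∈ A}
      one_mem' := ⟨one_mem _, fun v _ => by simp⟩
      mul_mem' := fun {a b} ha hb => ⟨mul_mem ha.1 hb.1, fun v hv => by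
        have h3 := add_mem (hA a ha.1 _ (hb.2 v hv)) (ha.2 v hv)
        rwa [smul_sub, sub_add_sub_cancel, ← mul_smul] at h3⟩
      inv_mem' := fun {a} ha => ⟨inv_mem ha.1, fun v hv => by
        have h3 := neg_mem (ha.2 _ (hA' _ (inv_mem ha.1) v hv))
        rwa [smul_inv_smul, neg_sub] at h3⟩ }
  have hN : St H y ≤ Nm N := by
    refine le_Nm_of_conj fun a ha b hb => ⟨mul_mem (mul_mem ha hb.1) (inv_mem ha), fun v hv => ?_⟩
    have h3 := hA a ha _ (hb.2 _ (hA' _ (inv_mem ha) v hv))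
    rwa [smul_sub, smul_inv_smul, ← mul_smul, ← mul_smul] at h3
  have t : Tr Γ N y := D.c.sp_tr (fun _ hg => hg.1) hN h (a := g) ⟨g1, hc⟩ g2 g3
  refine h0 (D.L0 h B hf N (St H y') (fun _ hg => hg.1) t le_rfl (D.c.tr_St y') ?_ hB)
  intro a ha v hv
  have := add_mem (h1 (ha.2 v (h2 hv))) hv
  rwa [sub_add_cancel] at this

/-- An element with a wall at `y` is non-trivial on each layer. -/
theorem thick {m : ℕ} (hm : ∀ x, FV H V Γ x m ≠ ⊥) {y y' : X} (h : Γ.Adj y y') {g : H}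
    (g1 : g • y = y) (g2 : g • y' = y') (g3 : g ∉ Kn H Γ 1 y) :
    ∃ v ∈ FV H V Γ y (m + 2), g • v - v ∉ FV H V Γ y m :=
  D.thick_gen h (FF_adj h m) (FF_adj h.symm (m + 1)) (D.FF_finite _ _)
    (fun e => hm y (eq_bot_iff.2 ((FF_adj h m).trans e.le))) (fun _ ha _ hv => D.c.FF_St ha hv)
    (fun _ ha _ hv => D.c.FF_St ha hv) (fun _ ha _ hv => D.c.FF_St ha hv) g1 g2 g3

/-- The rank of an element with a wall at `y`. -/
theorem thick_card {m : ℕ} (hm : ∀ x, FV H V Γ x m ≠ ⊥) {y y' : X} (h : Γ.Adj y y') {g : H}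
    (g1 : g • y = y) (g2 : g • y' = y') (g3 : g ∉ Kn H Γ 1 y) (j : ℕ) :
    2 ^ j ≤ Nat.card ((FV H V Γ y (m + 2 * j)).map (dl V g)) :=
  PZ_chain (dl V g) (fun i => FV H V Γ y (m + 2 * i)) (fun _ => D.FF_finite _ _)
    (fun _ => FF_mono _ (by omega)) (fun _ _ hv => sub_mem (D.c.FF_St g1 hv) hv) j fun i _ =>
      D.thick (m := m + 2 * i)
        (fun x e => hm x (eq_bot_iff.2 ((FF_mono x (by omega)).trans e.le))) h g1 g2 g3

/-- An element fixing an edge and centralising `FV` fixes a ball. -/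
theorem deep {m : ℕ} (hm : ∀ x, FV H V Γ x m ≠ ⊥) {x x' : X} (h : Γ.Adj x x') {g : H}
    (g1 : g • x = x) (g2 : g • x' = x') {i : ℕ} (g3 : ∀ v ∈ FV H V Γ x (i + m + 2), g • v = v) :
    g ∈ Kn H Γ (i + 1) x := by
  by_contra h4
  obtain ⟨y, y', hy, h5, h6, h7, h8⟩ := PZ_boundary h g1 g2 h4
  obtain ⟨v, hv, h9⟩ := D.thick hm h5 h6 h7 h8
  rw [g3 v (FF_near hy.symm (by omega) hv), sub_self] at h9
  exact h9 (zero_mem _)

/-- The ball stabilisers decrease strictly. -/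
theorem strict (j : ℕ) (x : X) : ¬ Kn H Γ j x ≤ Kn H Γ (j + 1) x := by
  intro h
  have h1 : ∀ y, Kn H Γ j y ≤ Kn H Γ (j + 1) y := fun y => by
    obtain ⟨g, rfl⟩ := D.vt x y
    rw [← D.c.cj_Kn, ← D.c.cj_Kn]
    exact cj_mono g h
  have h2 : ∀ k y, Kn H Γ j y ≤ Kn H Γ (j + k) y := fun k => by
    induction k with
    | zero => exact fun _ => le_rfl
    | succ k ih =>
      exact fun y g hg => mem_Kn_succ.2 ⟨ih y hg, fun z hz => ih z (Kn_succ_le_adj j hz (h1 y hg))⟩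
  have h3 : ∀ v : V, v ∈ FV H V Γ x j := fun v g hg => by
    rw [D.eq_one fun k => Kn_anti (Nat.le_add_left k j) x (h2 k x hg), one_smul]
  obtain ⟨y, hy⟩ := D.nbr x
  obtain ⟨v, hv⟩ := D.ne
  have h4 := D.L0 hy _ (D.FF_finite x j) _ _ le_rfl (D.c.tr_St x) le_rfl (D.c.tr_St y)
    (fun _ _ _ _ => h3 _) fun _ _ _ _ => h3 _
  exact hv (AddSubgroup.mem_bot.1 (h4 ▸ h3 v))

/-- Limits along an ultrafilter. -/
theorem ulim (U : Ultrafilter ℕ) (x : X) (z : ℕ → H) (hz : ∀ i, z i ∈ St H x) :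
    ∃ ζ ∈ St H x, ∀ r, ∀ᶠ i in (U : Filter ℕ), ζ⁻¹ * z i ∈ Kn H Γ r x := by
  have h1 : ∀ r, ∃ g ∈ St H x, ∀ᶠ i in (U : Filter ℕ), g⁻¹ * z i ∈ Kn H Γ r x := by
    intro r
    have : Finite (St H x ⧸ (Kn H Γ r x).subgroupOf (St H x)) :=
      Nat.finite_of_card_ne_zero (D.Kn_idx r x)
    obtain ⟨q, hq⟩ := (Ultrafilter.eventually_exists_iff (f := U)
      (P := fun (q : St H x ⧸ (Kn H Γ r x).subgroupOf (St H x)) i =>
        QuotientGroup.mk ⟨z i, hz i⟩ = q)).1 (Eventually.of_forall fun i => ⟨_, rfl⟩)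
    obtain ⟨g, rfl⟩ := QuotientGroup.mk_surjective q
    exact ⟨g, g.2, hq.mono fun i hi => mem_subgroupOf.1 (QuotientGroup.eq.1 hi.symm)⟩
  choose g h2 h3 using h1
  obtain ⟨ζ, h4, h5⟩ := D.clo x g h2 fun r => by
    obtain ⟨i, h6, h7⟩ := ((h3 r).and (h3 (r + 1))).exists
    have := mul_mem h6 (inv_mem (Kn_succ_le r x h7))
    rwa [mul_inv_rev, inv_inv, mul_assoc, mul_inv_cancel_left] at this
  refine ⟨ζ, h4, fun r => (h3 r).mono fun i hi => ?_⟩
  have := mul_mem (h5 r) hi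
  rwa [mul_assoc, mul_inv_cancel_left] at this

end PD

end Pool.Agent.Lib.MP_bf45aa_co
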