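import Pool.Agent.Lib.MP_bf45aa_co.LU1
import Pool.Agent.Lib.MP_bf45aa_co.LFin2

set_option autoImplicit false
set_option linter.unusedSectionVars false

/-! Limit data: a complete group acting on a locally finite graph and on a smooth module. -/

namespace Pool.Agent.Lib.MP_bf45aa_co

open Subgroup Filter

/-- The vectors whose orbit under the stabiliser of `x` has at most `2 ^ n` elements. -/
def OS (H : Type) {X : Type} (V : Type) [Group H] [MulAction H X] [MulAction H V] (x : X) (n : ℕ) :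
    Set V :=
  {v | {w | ∃ g ∈ St H x, g • v = w}.Finite ∧ {w | ∃ g ∈ St H x, g • v = w}.ncard ≤ 2 ^ n}

/-- The subgroup generated by the vectors with small orbit. -/
def OO (H : Type) {X : Type} (V : Type) [Group H] [MulAction H X] [AddCommGroup V]
    [DistribMulAction H V] (x : X) (n : ℕ) : AddSubgroup V := AddSubgroup.closure (OS H V x n)

/-- Limit data. -/
structure PD (H : Type) {X : Type} (V : Type) [Group H] [MulAction H X] [AddCommGroup V]
    [DistribMulAction H V] (Γ : SimpleGraph X) (d C : ℕ) : Prop where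
  c : Ctx H Γ
  edge : ∃ x y, Γ.Adj x y
  fin : ∀ x, (Γ.neighborSet x).Finite
  deg : ∀ x, (Γ.neighborSet x).ncard ≤ d
  clo : ∀ (x : X) (g : ℕ → H), (∀ r, g r ∈ St H x) → (∀ r, (g r)⁻¹ * g (r + 1) ∈ Kn H Γ r x) →
    ∃ h ∈ St H x, ∀ r, h⁻¹ * g r ∈ Kn H Γ r x
  ne : ∃ v : V, v ≠ 0
  smooth : ∀ (x : X) (v : V), ∃ n, ∀ g ∈ Kn H Γ n x, g • v = v
  L0 : ∀ {w w' : X}, Γ.Adj w w' → ∀ A : AddSubgroup V, Finite A → ∀ N N' : Subgroup H,
    N ≤ St H w → Tr Γ N w → N' ≤ St H w' → Tr Γ N' w' → (∀ g ∈ N, ∀ v ∈ A, g • v ∈ A) →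
    (∀ g ∈ N', ∀ v ∈ A, g • v ∈ A) → A = ⊥
  L1 : ∀ (x : X) (n : ℕ), Finite (OO H V x n) ∧ Nat.card (OO H V x n) ≤ 2 ^ (C * (n + 1))

end Pool.Agent.Lib.MP_bf45aa_co
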