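import Pool.Agent.Lib.MP_bf45aa_co.PZLim

set_option autoImplicit false
set_option linter.unusedSectionVars false

/-! If there are no limit data then vertex stabilisers are bounded. -/

namespace Pool.Agent.Lib.MP_bf45aa_co

open Subgroup
open scoped commutatorElement

/-- There are no limit data. -/
def NoPD : Prop :=
  ∀ (H X V : Type) [Group H] [MulAction H X] [AddCommGroup V] [DistribMulAction H V]
    (Γ : SimpleGraph X) (d C : ℕ), ¬ PD H V Γ d C

theorem PZ_crit (hno : NoPD) (d : ℕ) :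
    ∃ m, ∀ (V G : Type) [Group G] [MulAction G V] [Finite G] [Finite V] (Γ : SimpleGraph V),
      Ctx G Γ → (∀ v, (Γ.neighborSet v).ncard ≤ d) → ∀ α β, Γ.Adj α β → ∀ p : ℕ, p.Prime →
      QQ G Γ p α ⊓ QQ G Γ p β ≠ ⊥ → PShort G Γ p m := by
  by_contra hc
  push Not at hc
  choose V G i1 i2 i3 i4 Γ c hd α β h p hp h0 hS using fun b => hc (4 * b + 5)
  have hD := fun b => (@Ctx.exists_FP (V b) (G b) (i1 b) (i2 b) (Γ b) (i3 b) (i4 b) (p b) ⟨hp b⟩
    (c b) d (hd b) _ _ (h b) (h0 b) b).resolve_left (hS b)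
  obtain ⟨D⟩ := exists_PI fun b => (hD b).some
  exact hno _ _ _ _ _ _ D.pd

variable {V G : Type*} [Group G] [MulAction G V] {Γ : SimpleGraph V} [Finite G]

theorem Ctx.PZ_SN (c : Ctx G Γ) {n : ℕ} {x y : V} (h : Near Γ n x y) :
    SN (Kn G Γ (n + 1) y) (Kn G Γ 1 x) := by
  induction n generalizing y with
  | zero => rw [near_zero h]; exact SN.refl _
  | succ n ih =>
    rcases near_succ' h with rfl | ⟨z, h1, h2⟩
    · rw [add_comm]; exact c.SN_Kn_self 1 _ x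
    · exact (c.SN_Kn_adj n h2.symm).trans (ih h1)

theorem Ctx.PZ_reduction (c : Ctx G Γ) {m : ℕ} {α β : V} (h : Γ.Adj α β)
    (hp : ∀ p : ℕ, p.Prime → QQ G Γ p α ⊓ QQ G Γ p β ≠ ⊥ → PShort G Γ p m) (v : V) :
    Kn G Γ (m + 2) v = ⊥ := by
  by_contra hne
  obtain ⟨w, hw⟩ := c.has_nbr h v
  obtain ⟨S, ⟨hS, hS0⟩, hmin⟩ := Set.Finite.exists_minimalFor (fun N : Subgroup G => N)
    {S | SN S (Kn G Γ (m + 2) v) ∧ S ≠ ⊥} (Set.toFinite _) ⟨_, SN.refl _, hne⟩
  have hsimp : ∀ N ≤ S, S ≤ Nm N → N = ⊥ ∨ N = S := by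
    intro N h1 h2
    by_cases h3 : N = ⊥
    · exact Or.inl h3
    · exact Or.inr (le_antisymm h1 (hmin ⟨(SN.single h1 h2).trans hS, h3⟩ h1))
  have sv : SN S (Kn G Γ (m + 1) v) := hS.trans (c.SN_Kn_self (m + 1) 1 v)
  have sw : SN S (Kn G Γ (m + 1) w) := hS.trans (c.SN_Kn_adj m hw)
  have sv1 : SN S (Kn G Γ 1 v) := sv.trans (by rw [add_comm]; exact c.SN_Kn_self 1 m v)
  have sw1 : SN S (Kn G Γ 1 w) := sw.trans (by rw [add_comm]; exact c.SN_Kn_self 1 m w)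
  have stv : S ≤ St G v := sv1.le.trans (Kn_le_St 1 v)
  have stw : S ≤ St G w := sw1.le.trans (Kn_le_St 1 w)
  rcases hsimp ⁅S, S⁆ (commutator_le_self S) (normalizer_commutator_ge_left S S) with hab | hperf
  · have hab' : S ≤ Cn S := commutator_eq_bot_iff_le_centralizer.1 hab
    obtain ⟨p, hpp, hpd⟩ := Nat.exists_prime_and_dvd (n := Nat.card S)
      (fun h1 => hS0 (card_eq_one.1 h1))
    have := Fact.mk hpp
    obtain ⟨a, ha⟩ := exists_prime_orderOf_dvd_card' p hpd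
    have ha' : orderOf (a : G) = p := by rw [orderOf_coe, ha]
    have hz : zpowers (a : G) = S := by
      rcases hsimp _ (zpowers_le.2 a.2) (hab'.trans ((Cn_anti (zpowers_le.2 a.2)).trans
        (Cn_le_Nm _))) with h1 | h1
      · rw [zpowers_eq_bot, ← orderOf_eq_one_iff, ha'] at h1
        exact absurd h1 hpp.one_lt.ne'
      · exact h1
    have hpi : IsPi (· = p) S := by
      intro q hq hd
      rw [← hz, Nat.card_zpowers, ha'] at hd
      exact (Nat.prime_dvd_prime_iff_eq hq hpp).1 hd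
    obtain ⟨g, g1, g2⟩ := c.arc hw h
    obtain ⟨x, u, u', hr, hu, a, ha, a1, a2, a3⟩ := hp p hpp (by
      rw [← g1, ← g2, ← c.cj_QQ, ← c.cj_QQ, ← cj_inf, Ne, cj_eq_bot]
      exact fun h1 => hS0 (eq_bot_iff.2 ((le_inf (sv1.le_core hpi) (sw1.le_core hpi)).trans h1.le)))
    refine hS0 (c.kill (X := fun y => core (· = p) (Kn G Γ (m + 1) y))
      (fun g y => by rw [cj_core, c.cj_Kn]) hu (a := a) ?_ a1 a2 a3 hw (sv.le_core hpi)
      (sw.le_core hpi) stv stw)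
    refine Cn_anti ?_ ha
    refine SN.le_core ?_ (isPi_core _ _)
    exact (core_SN _ _).trans (c.PZ_SN hr)
  · by_cases hall : ∀ x y, Γ.Adj x y → ∀ S', SN S' (Kn G Γ 1 x) → ⁅S', S'⁆ = S' →
        (∀ N ≤ S', S' ≤ Nm N → N = ⊥ ∨ N = S') → S' ≤ Kn G Γ 1 y
    · let E : V → Subgroup G := fun x => sSup {S' | SN S' (Kn G Γ 1 x) ∧ ⁅S', S'⁆ = S' ∧
        ∀ N ≤ S', S' ≤ Nm N → N = ⊥ ∨ N = S'}
      have hE : ∀ (g : G) x, cj g (E x) = E (g • x) := by
        refine cj_eq_of_le (fun (g : G) (x : V) => g • x) act_inv E ?_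
        intro g x
        rw [cj_sSup]
        refine sSup_le_sSup ?_
        rintro _ ⟨S', ⟨h1, h2, h3⟩, rfl⟩
        refine ⟨by rw [← c.cj_Kn]; exact h1.cj g, by rw [← cj_comm, h2], fun N hN1 hN2 => ?_⟩
        obtain ⟨N, rfl⟩ := exists_cj g N
        rw [← cj_Nm, cj_le_cj] at hN2
        rw [cj_eq_bot, cj_inj]
        exact h3 N (cj_le_cj.1 hN1) hN2
      have hle : ∀ x y, Γ.Adj x y → E x ≤ E y := by
        intro x y hxy
        refine sSup_le_sSup ?_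
        rintro S' ⟨h1, h2, h3⟩
        refine ⟨?_, h2, h3⟩
        have h4 : SN S' (St G x ⊓ St G y) := h1.trans (SN.single
          (le_inf (Kn_le_St 1 x) (Kn_le_St_adj 0 hxy)) (inf_le_left.trans (c.St_le_Nm_Kn 1 x)))
        exact h4.of_le (hall x y hxy S' h1 h2 h3) (le_inf (Kn_le_St_adj 0 hxy.symm) (Kn_le_St 1 y))
      have hEK : ∀ x, E x ≤ St G x := fun x => sSup_le fun S' h1 => h1.1.le.trans (Kn_le_St 1 x)
      have he : E v = E w := le_antisymm (hle _ _ hw) (hle _ _ hw.symm)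
      have h0 := c.L0 hw (hEK v) (he.le.trans (hEK w))
        ((c.tr_St v).mono (le_inf (St_le_Nm_of_equi hE v) le_rfl))
        ((c.tr_St w).mono (le_inf (by rw [he]; exact St_le_Nm_of_equi hE w) le_rfl))
      have h1 : S ≤ E v := le_sSup ⟨sv1, hperf, hsimp⟩
      exact hS0 (eq_bot_iff.2 (h1.trans h0.le))
    · push Not at hall
      obtain ⟨x, y, hxy, S', h1, h2, h3, h4⟩ := hall
      have h5 : SN S' (St G x ⊓ St G y) := h1.trans (SN.single
        (le_inf (Kn_le_St 1 x) (Kn_le_St_adj 0 hxy)) (inf_le_left.trans (c.St_le_Nm_Kn 1 x)))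
      have h6 := h5.wielandt h2 h3 (Kn G Γ 1 y)
        (le_inf (Kn_le_St_adj 0 hxy.symm) (Kn_le_St 1 y))
        (inf_le_right.trans (c.St_le_Nm_Kn 1 y)) h4
      obtain ⟨a, ha, h7⟩ := SetLike.not_le_iff_exists.1 h4
      exact hS0 (c.kill (c.cj_Kn 1) hxy.symm (h6 ha) (h5.le ha).2 (h5.le ha).1 h7 hw sv1.le sw1.le
        stv stw)

theorem Ctx.PZ_card_bound [Finite V] (c : Ctx G Γ) {d m : ℕ}
    (hd : ∀ v, (Γ.neighborSet v).ncard ≤ d)
    (hp : ∀ α β, Γ.Adj α β → ∀ p : ℕ, p.Prime → QQ G Γ p α ⊓ QQ G Γ p β ≠ ⊥ → PShort G Γ p m)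
    (v : V) :
    Nat.card (St G v) ≤ cb d (m + 2) := by
  have h0 : Kn G Γ (m + 2) v = ⊥ := by
    by_cases h : ∃ w, Γ.Adj v w
    · obtain ⟨w, hw⟩ := h
      exact c.PZ_reduction hw (hp v w hw) v
    · rw [eq_bot_iff]
      intro a ha
      refine mem_bot.2 (c.faithful a fun y => ?_)
      obtain ⟨w⟩ := c.conn v y
      cases w with
      | nil => exact Kn_le_St _ _ ha
      | cons h1 _ => exact absurd ⟨_, h1⟩ h
  have := c.relIndex_Kn hd (m + 2) v
  rwa [h0, relIndex_bot_left] at this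

/-- The conjecture follows if there are no limit data. -/
theorem psv_of_noPD (hno : NoPD) :
  ∃ f : ℕ → ℕ, ∀ (V : Type) [Fintype V] (Γ : SimpleGraph V) (G : Subgroup (Γ ≃g Γ)) (d : ℕ),
    Γ.Connected →
    (∀ v : V, (Γ.neighborSet v).ncard = d) →
    (∀ u v x y : V, Γ.Adj u v → Γ.Adj x y → ∃ g ∈ G, g u = x ∧ g v = y) →
    (∀ v : V, ∀ N : Subgroup (Γ ≃g Γ),
        (∀ n ∈ N, n ∈ G ∧ n v = v) →
        (∀ h ∈ G, h v = v → ∀ n ∈ N, h * n * h⁻¹ ∈ N) →
        ((∀ x y : V, Γ.Adj v x → Γ.Adj v y → ∃ n ∈ N, n x = y) ∨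
         (∀ n ∈ N, ∀ x : V, Γ.Adj v x → n x = x → ∀ y : V, Γ.Adj v y → n y = y))) →
    ∀ v : V, Nat.card {g : Γ ≃g Γ // g ∈ G ∧ g v = v} ≤ f d := by
  choose m hm using PZ_crit hno
  refine ⟨fun d => cb d (m d + 2), fun V _ Γ G d hconn hd harc hsp v => ?_⟩
  have : Finite (Γ ≃g Γ) := Finite.of_injective _ (DFunLike.coe_injective (F := Γ ≃g Γ))
  have c : Ctx G Γ :=
    { adj := fun g _ _ h => g.1.map_rel_iff.2 h
      faithful := fun g h => Subtype.ext (RelIso.ext h)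
      conn := hconn.preconnected
      arc := fun {u v x y} h1 h2 => by
        obtain ⟨g, hg, e⟩ := harc u v x y h1 h2
        exact ⟨⟨g, hg⟩, e⟩
      sp := fun v N h1 h2 => by
        rcases hsp v (N.map G.subtype) (by
          rintro _ ⟨n, hn, rfl⟩; exact ⟨n.2, h1 hn⟩) (by
          rintro h hh hv _ ⟨n, hn, rfl⟩
          exact ⟨_, conj_mem_of_Nm (h2 (show (⟨h, hh⟩ : G) ∈ St G v from hv)) hn, rfl⟩) with t | t
        · refine Or.inl fun x y hx hy => ?_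
          obtain ⟨_, ⟨n, hn, rfl⟩, e⟩ := t x y hx hy
          exact ⟨n, hn, e⟩
        · exact Or.inr fun n hn => t n ⟨n, hn, rfl⟩ }
  have hd' := fun v => (hd v).le
  have h := c.PZ_card_bound (m := m d) hd' (hm d V G Γ c hd') v
  refine le_trans (le_of_eq (Nat.card_congr ?_)) h
  exact
    { toFun := fun g => ⟨⟨g.1, g.2.1⟩, g.2.2⟩
      invFun := fun g => ⟨g.1.1, g.1.2, g.2⟩
      left_inv := fun _ => rfl
      right_inv := fun _ => rfl }

end Pool.Agent.Lib.MP_bf45aa_co
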