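import Pool.Agent.Lib.MP_bf45aa_co.PZBase
import Pool.Agent.Lib.MP_bf45aa_co.LFin2

set_option autoImplicit false
set_option linter.unusedSectionVars false

/-! Finite data with large critical distance: small orbits lie in a small subgroup. -/

namespace Pool.Agent.Lib.MP_bf45aa_co

open Subgroup

/-- Finite data, valid up to radius `b`. -/
structure FP (d c b : ℕ) (G V : Type) [Group G] [MulAction G V] where
  Γ : SimpleGraph V
  W : V → ℕ → Subgroup G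
  S : V → ℕ → Subgroup G
  o : V
  o' : V
  finG : Finite G
  finV : Finite V
  ctx : Ctx G Γ
  adj : Γ.Adj o o'
  deg : ∀ x, (Γ.neighborSet x).ncard ≤ d
  W_le : ∀ x k, k ≤ b → W x k ≤ Kn G Γ 1 x
  shift : ∀ {n : ℕ} {x y : V}, Near Γ n x y → ∀ k, W x k ≤ W y (n + k)
  equi : ∀ (g : G) x k, ∀ v ∈ W x k, g * v * g⁻¹ ∈ W (g • x) k
  comm : ∀ x k, k ≤ b → ∀ u ∈ W x k, ∀ v ∈ W x k, u * v = v * u
  cent : ∀ x k, ∀ g ∈ Kn G Γ (k + 3) x, ∀ v ∈ W x k, g * v * g⁻¹ = v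
  ne : W o 0 ≠ ⊥
  cardW : ∀ x k, k ≤ b → Nat.card (W x k) ≤ 2 ^ (c * (k + 1))
  card : ∀ x n, n ≤ b → Nat.card (S x n) ≤ 2 ^ (c * (n + 1))
  small : ∀ x n k, n ≤ b → k ≤ b → ∀ v ∈ W x k,
    {w | ∃ g ∈ St G x, g * v * g⁻¹ = w}.ncard ≤ 2 ^ n → v ∈ S x n

variable {V G : Type} [Group G] [MulAction G V] {Γ : SimpleGraph V} [Finite G] [Finite V]
  {p : ℕ} [hp : Fact p.Prime]

theorem PZFin_two_mul {A B : Subgroup G} (h : A ≤ B) {v : G} (hv : v ∈ B) (hv' : v ∉ A) :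
    2 * Nat.card A ≤ Nat.card B := by
  obtain ⟨k, hk⟩ := Subgroup.card_dvd_of_le h
  have h0 : 0 < Nat.card B := Nat.card_pos
  have h1 : k ≠ 1 := by
    rintro rfl
    exact hv' ((Subgroup.eq_of_le_of_card_ge h (by omega)).ge hv)
  have h2 : k ≠ 0 := by
    rintro rfl
    omega
  rw [hk, mul_comm]
  exact Nat.mul_le_mul_left _ (by omega)

theorem PZFin_chain {T : Subgroup G} (hT : ∀ u ∈ T, ∀ v ∈ T, u * v = v * u) {g : G}
    (A : ℕ → Subgroup G) (m : ℕ) (hle : ∀ i ≤ m, A i ≤ T) (hm : ∀ i, A i ≤ A (i + 1))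
    (hg : ∀ v ∈ T, g * v * g⁻¹ ∈ T) (hi : ∀ i, ∀ v ∈ A i, g * v * g⁻¹ ∈ A i)
    (h : ∀ i < m, ∃ v ∈ A (i + 1), g * v * g⁻¹ * v⁻¹ ∉ A i) :
    2 ^ m ≤ {w | ∃ s ∈ T, s * g * s⁻¹ = w}.ncard := by
  let φ : T →* G := MonoidHom.mk' (fun v => g * v * g⁻¹ * (v : G)⁻¹) fun u v => by
    have h1 := hT _ (mul_mem (hg _ v.2) (inv_mem v.2)) _ (inv_mem u.2)
    calc g * ((u * v : T) : G) * g⁻¹ * ((u * v : T) : G)⁻¹
        = g * u * g⁻¹ * (g * v * g⁻¹ * (v : G)⁻¹ * (u : G)⁻¹) := by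
          rw [Subgroup.coe_mul]; group
      _ = _ := by rw [h1]; group
  have key : ∀ j ≤ m, 2 ^ j ≤ Nat.card (((A j).subgroupOf T).map φ) := by
    intro j hj
    induction j with
    | zero => exact Nat.card_pos
    | succ j ih =>
      obtain ⟨v, h1, h2⟩ := h j (by omega)
      have h3 := PZFin_two_mul (A := ((A j).subgroupOf T).map φ)
        (B := ((A (j + 1)).subgroupOf T).map φ) (map_mono (comap_mono (hm j)))
        (v := g * v * g⁻¹ * v⁻¹) ⟨⟨v, hle _ hj h1⟩, h1, rfl⟩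
        fun ⟨w, hw, e⟩ => h2 (e ▸ mul_mem (hi j _ hw) (inv_mem hw))
      have h4 := ih (by omega)
      rw [pow_succ']
      omega
  refine (key m le_rfl).trans ?_
  rw [← SetLike.coe_sort_coe, Nat.card_coe_set_eq]
  refine le_trans (Set.ncard_le_ncard ?_ (Set.toFinite _))
    (Set.ncard_image_le (f := fun w => g * w⁻¹) (Set.toFinite _))
  rintro _ ⟨v, -, rfl⟩
  refine ⟨_, ⟨v, v.2, rfl⟩, ?_⟩
  show g * (v * g * (v : G)⁻¹)⁻¹ = g * v * g⁻¹ * (v : G)⁻¹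
  group

namespace CP

variable {d n : ℕ} {U : V → Subgroup G} {α α₁ α' : V} {u : G} (P : CP G Γ p d U n α α₁ α' u)
include P

theorem PZ_conj (g : G) (x : V) (k : ℕ) {v : G} (hv : v ∈ WW Γ U x k) :
    g * v * g⁻¹ ∈ WW Γ U (g • x) k := by
  rw [← P.W_equi]; exact conj_mem_cj hv

theorem PZ_conj_St {g : G} {x : V} (hg : g ∈ St G x) (k : ℕ) {v : G} (hv : v ∈ WW Γ U x k) :
    g * v * g⁻¹ ∈ WW Γ U x k := by
  have := P.PZ_conj g x k hv
  rwa [mem_St.1 hg] at this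

theorem PZ_layer {y y' : V} (h : Γ.Adj y y') {g : G} (g1 : g • y = y) (g2 : g • y' = y')
    (g3 : g ∉ Kn G Γ 1 y) {k : ℕ} (hn : k + 2 ≤ n) :
    ∃ v ∈ WW Γ U y (k + 2), g * v * g⁻¹ * v⁻¹ ∉ WW Γ U y k := by
  by_contra hc
  push Not at hc
  let N : Subgroup G :=
    { carrier := {g | g ∈ St G y ∧ ∀ v ∈ WW Γ U y (k + 2), g * v * g⁻¹ * v⁻¹ ∈ WW Γ U y k}
      one_mem' := ⟨one_mem _, fun v _ => by simp⟩
      mul_mem' := fun {a b} ha hb => ⟨mul_mem ha.1 hb.1, fun v hv => by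
        convert mul_mem (P.PZ_conj_St ha.1 _ (hb.2 v hv)) (ha.2 v hv) using 1
        group⟩
      inv_mem' := fun {a} ha => ⟨inv_mem ha.1, fun v hv => by
        convert inv_mem (ha.2 _ (P.PZ_conj_St (inv_mem ha.1) _ hv)) using 1
        group⟩ }
  have hN : St G y ≤ Nm N := by
    refine le_Nm_of_conj fun a ha b hb => ⟨mul_mem (mul_mem ha hb.1) (inv_mem ha), fun v hv => ?_⟩
    convert P.PZ_conj_St ha _ (hb.2 _ (P.PZ_conj_St (inv_mem ha) _ hv)) using 1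
    group
  obtain ⟨a, ha, v, hv, e⟩ := P.W_layer y hn N (fun _ hg => hg.1)
    (P.c.sp_tr (fun _ hg => hg.1) hN h (a := g) ⟨g1, hc⟩ g2 g3)
  exact e (ha.2 v hv)

/-- Elements with a small orbit are deep. -/
theorem PZ_depth {x : V} {g : G} (hg : g ∈ Kn G Γ 1 x) {j m : ℕ} (h1 : j + 2 * (m + 1) ≤ n)
    (h2 : 4 * (m + 1) ≤ n) (h : {w | ∃ s ∈ St G x, s * g * s⁻¹ = w}.ncard ≤ 2 ^ m) :
    g ∈ Kn G Γ (j + 1) x := by
  by_contra hc
  obtain ⟨x', hx⟩ := P.c.has_nbr P.adj x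
  obtain ⟨y, y', hy, h3, g1, g2, g3⟩ :=
    PZ_boundary hx (mem_K1.1 hg).1 ((mem_K1.1 hg).2 x' hx) hc
  have h4 := PZFin_chain (T := WW Γ U y (2 * (m + 1)))
    (fun a ha v hv => mem_Cn.1 ((P.W_EA y (by omega)).2 hv) a ha) (g := g)
    (fun i => WW Γ U y (2 * i)) (m + 1) (fun i hi => LFin1_W_mono (Near.refl 0 y) (by omega))
    (fun i => LFin1_W_mono (Near.refl 0 y) (by omega)) (fun v hv => P.PZ_conj_St g1 _ hv)
    (fun i v hv => P.PZ_conj_St g1 _ hv) fun i hi => P.PZ_layer h3 g1 g2 g3 (k := 2 * i) (by omega)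
  have h5 : WW Γ U y (2 * (m + 1)) ≤ St G x :=
    (P.W_le_Q hy.symm (by omega)).trans ((QQ_le_K x).trans (Kn_le_St 1 x))
  have h6 : {w | ∃ s ∈ WW Γ U y (2 * (m + 1)), s * g * s⁻¹ = w}.ncard ≤
      {w | ∃ s ∈ St G x, s * g * s⁻¹ = w}.ncard :=
    Set.ncard_le_ncard (fun _ ⟨s, hs, e⟩ => ⟨s, h5 hs, e⟩) (Set.toFinite _)
  have h7 : 2 ^ m < 2 ^ (m + 1) := Nat.pow_lt_pow_right one_lt_two (Nat.lt_succ_self m)
  omega

theorem PZ_conjs {j k : ℕ} (hn : n + 1 ≤ j + k) : ∃ S : Finset G,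
    S.card ≤ (d + 1) ^ k * p ^ (2 * cb d 3) ∧ ∀ v ∈ Kn G Γ j α, v * u * v⁻¹ ∈ S := by
  classical
  have h1 : Near Γ (j + k) α α' := ((Near.of_adj P.adj).trans P.near).mono (by omega)
  obtain ⟨z, h2, h3⟩ := LFin2_split h1
  obtain ⟨B, h4, h5⟩ := LFin2_ball P.deg z k
  refine ⟨B.biUnion fun y => (Set.toFinite (U y : Set G)).toFinset, ?_, fun v hv => ?_⟩
  · refine (Finset.card_biUnion_le_card_mul _ _ (p ^ (2 * cb d 3)) fun y _ => ?_).trans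
      (Nat.mul_le_mul_right _ h4)
    rw [← Set.ncard_eq_toFinset_card, ← Nat.card_coe_set_eq]
    exact P.card y
  · have h7 := h3.smul P.c.adj v
    rw [mem_Kn_iff.1 hv z h2] at h7
    refine Finset.mem_biUnion.2 ⟨v • α', h5 _ h7, ?_⟩
    rw [Set.Finite.mem_toFinset, SetLike.mem_coe, ← P.equi]
    exact conj_mem_cj P.mem

theorem PZ_base {j k : ℕ} (hn : n + 1 ≤ j + k) :
    Nat.card (Kn G Γ (j + 1) α) ≤ ((d + 1) ^ k * p ^ (2 * cb d 3)) ^ (2 * cb d 1) := by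
  classical
  obtain ⟨S, hS, hS'⟩ := P.PZ_conjs hn
  obtain ⟨m, t, hm, ht, hc⟩ := LFin2_reps P.c P.deg α
  obtain ⟨g₀, g1, g2⟩ := P.c.arc P.adj P.adj.symm
  have hu := mem_K1.1 (QQ_le_K _ (P.short α' α₁ P.near.symm P.mem))
  have hu1 : u • α = α := hu.2 α P.adj.symm
  have htr := LFin2_tr P.c P.adj hu1 hu.1 P.notK t ht hc
  let h : Fin m ⊕ Fin m → G := Sum.elim t fun i => g₀ * t i
  have hh : ∀ i, Near Γ 1 α ((h i)⁻¹ • α) := by
    rintro (i | i)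
    · have : (t i)⁻¹ • α = α := inv_mem (ht i)
      simp only [h, Sum.elim_inl, this]
      exact Near.refl _ _
    · have h1 : g₀⁻¹ • α = α₁ := inv_smul_eq_iff.2 g2.symm
      simp only [h, Sum.elim_inr, mul_inv_rev, mul_smul, h1]
      exact Near.of_adj (P.c.adj_St (inv_mem (ht i)) P.adj)
  have hW : ∀ i, ∀ v ∈ Kn G Γ (j + 1) α, (h i)⁻¹ * v * (h i)⁻¹⁻¹ ∈ Kn G Γ j α := by
    intro i v hv
    refine Kn_near (hh i).symm ?_
    rw [← P.c.cj_Kn]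
    exact conj_mem_cj hv
  let Φ : Kn G Γ (j + 1) α → Fin m ⊕ Fin m → S := fun v i => ⟨_, hS' _ (hW i v v.2)⟩
  have hΦ : Function.Injective Φ := by
    intro v v' e
    have hw : (v'⁻¹ * v : Kn G Γ (j + 1) α).1 ∈ Kn G Γ 1 α :=
      Kn_anti (by omega) α (v'⁻¹ * v).2
    set w : G := (v'⁻¹ * v : Kn G Γ (j + 1) α).1 with hw'
    have hw1 : w = (v' : G)⁻¹ * v := rfl
    have hN : ∀ i, h i * u * (h i)⁻¹ ∈ Nm (zpowers w) := by
      intro i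
      have e1 : (h i)⁻¹ * v * (h i)⁻¹⁻¹ * u * ((h i)⁻¹ * v * (h i)⁻¹⁻¹)⁻¹ =
          (h i)⁻¹ * v' * (h i)⁻¹⁻¹ * u * ((h i)⁻¹ * v' * (h i)⁻¹⁻¹)⁻¹ :=
        congrArg Subtype.val (congrFun e i)
      have e2 : w * (h i * u * (h i)⁻¹) * w⁻¹ = h i * u * (h i)⁻¹ := by
        have e3 : w * (h i * u * (h i)⁻¹) * w⁻¹ = (v' : G)⁻¹ * h i *
            ((h i)⁻¹ * v * (h i)⁻¹⁻¹ * u * ((h i)⁻¹ * v * (h i)⁻¹⁻¹)⁻¹) * (h i)⁻¹ * v' := by
          rw [hw1]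
          group
        rw [e3, e1]
        group
      rw [mem_Nm_iff, cj_zpowers]
      congr 1
      rw [mul_inv_eq_iff_eq_mul] at e2 ⊢
      exact e2.symm
    have hx : zpowers w ≤ St G α := zpowers_le.2 (mem_K1.1 hw).1
    have hy : zpowers w ≤ St G α₁ := zpowers_le.2 ((mem_K1.1 hw).2 _ P.adj)
    have hc1 : ∀ i, t i * u * (t i)⁻¹ ∈ St G α := fun i =>
      mul_mem (mul_mem (ht i) hu1) (inv_mem (ht i))
    have tx : Tr Γ (Nm (zpowers w) ⊓ St G α) α :=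
      htr _ inf_le_right fun i => ⟨hN (Sum.inl i), hc1 i⟩
    have ty : Tr Γ (Nm (zpowers w) ⊓ St G α₁) α₁ := by
      have h1 : g₀⁻¹ • α₁ = α := inv_smul_eq_iff.2 g1.symm
      have h2 := P.c.tr_cj (htr (cj g₀⁻¹ (Nm (zpowers w) ⊓ St G α₁)) ?_ fun i => ?_) g₀
      · rwa [cj_cj_inv, g1] at h2
      · rw [cj_inf, cj_St, h1]
        exact inf_le_right
      · rw [cj_inf, cj_St, h1]
        refine ⟨mem_cj.2 ?_, hc1 i⟩
        convert hN (Sum.inr i) using 1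
        simp only [h, Sum.elim_inr]
        group
    have h0 := P.c.L0 P.adj hx hy tx ty
    rw [zpowers_eq_bot, hw1, inv_mul_eq_one] at h0
    exact (Subtype.ext h0).symm
  refine (Nat.card_le_card_of_injective Φ hΦ).trans ?_
  rw [Nat.card_fun, Nat.card_sum, Nat.card_eq_finsetCard, Nat.card_fin]
  refine (Nat.pow_le_pow_left hS _).trans (Nat.pow_le_pow_right ?_ (by omega))
  exact Nat.mul_pos (Nat.pow_pos (Nat.succ_pos d)) (Nat.pow_pos hp.out.pos)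

/-- Deep ball stabilisers are small. -/
theorem PZ_card (hp' : p ≤ cb d 1) (x : V) {j m : ℕ} (hn : n + 1 ≤ j + (2 * m + 3)) :
    Nat.card (Kn G Γ (j + 1) x) ≤
      2 ^ ((3 * d + cb d 1 * (2 * cb d 3)) * (2 * cb d 1) * (m + 1)) := by
  obtain ⟨y, hy⟩ := P.c.has_nbr P.adj x
  obtain ⟨g, rfl, -⟩ := P.c.arc P.adj hy
  rw [← P.c.cj_Kn, card_cj]
  refine (P.PZ_base hn).trans ?_
  have h2 : d + 1 ≤ 2 ^ d := Nat.lt_two_pow_self
  have h3 : p ≤ 2 ^ cb d 1 := hp'.trans Nat.lt_two_pow_self.le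
  refine (Nat.pow_le_pow_left (Nat.mul_le_mul (Nat.pow_le_pow_left h2 _)
    (Nat.pow_le_pow_left h3 _)) _).trans ?_
  rw [← pow_mul, ← pow_mul, ← pow_add, ← pow_mul]
  refine Nat.pow_le_pow_right two_pos ?_
  rw [mul_right_comm]
  refine Nat.mul_le_mul_right _ ?_
  nlinarith [Nat.zero_le (d * m), Nat.zero_le (cb d 1 * (2 * cb d 3) * m)]

theorem PZ_FP (hp' : p ≤ cb d 1) (h3 : ∀ x, Kn G Γ 3 x ≤ QQ G Γ p x) {b : ℕ}
    (hb : 4 * b + 4 ≤ n) : Nonempty (FP d ((3 * d + cb d 1 * (2 * cb d 3)) * (2 * cb d 1) +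
      cb d 1 * (2 * cb d 1 * (2 * d + 2 * cb d 3))) b G V) := by
  refine ⟨{ Γ := Γ, W := WW Γ U, S := fun x m => Kn G Γ (n - 2 * (m + 1) + 1) x, o := α, o' := α₁
            finG := inferInstance, finV := inferInstance, ctx := P.c, adj := P.adj, deg := P.deg
            W_le := fun x k hk => (P.W_le_Q (Near.refl 0 x) (by omega)).trans (QQ_le_K x)
            shift := fun h k => LFin1_W_mono h.symm le_rfl
            equi := fun g x k v hv => P.PZ_conj g x k hv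
            comm := fun x k hk a ha v hv => mem_Cn.1 ((P.W_EA x (k := k) (by omega)).2 hv) a ha
            cent := ?_, ne := ?_, cardW := ?_, card := ?_, small := ?_ }⟩
  · intro x k g hg v hv
    have h1 : WW Γ U x k ≤ Cn (zpowers g) := by
      refine iSup_le fun y => le_Cn_comm.1 (zpowers_le.2 ?_)
      exact Cn_anti (P.le y) (QQ_le_Cn_YY _ (h3 _ (Kn_near y.2 (by rwa [add_comm]))))
    rw [mem_Cn.1 (h1 hv) g (mem_zpowers g), mul_inv_cancel_right]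
  · exact fun e => P.ne α (eq_bot_iff.2 ((LFin1_le_W (Near.refl 0 α)).trans e.le))
  · intro x k hk
    have h4 : p ≤ 2 ^ cb d 1 := hp'.trans Nat.lt_two_pow_self.le
    refine (P.W_card x (by omega)).trans ((Nat.pow_le_pow_left h4 _).trans ?_)
    rw [← pow_mul, ← mul_assoc]
    exact Nat.pow_le_pow_right two_pos (Nat.mul_le_mul_right _ (Nat.le_add_left _ _))
  · intro x m hm
    exact (P.PZ_card hp' x (m := m) (by omega)).trans
      (Nat.pow_le_pow_right two_pos (Nat.mul_le_mul_right _ (Nat.le_add_right _ _)))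
  · intro x m k hm hk v hv h
    exact P.PZ_depth (QQ_le_K x (P.W_le_Q (Near.refl 0 x) (by omega) hv)) (by omega) (by omega) h

end CP

/-- A short critical walk. -/
def PShort (G : Type*) {V : Type*} [Group G] [MulAction G V] (Γ : SimpleGraph V) (p m : ℕ) : Prop :=
  ∃ x u u', Near Γ m x u ∧ Γ.Adj u u' ∧ ∃ a ∈ Cn (QQ G Γ p x), a • u = u ∧ a • u' = u' ∧
    a ∉ Kn G Γ 1 u

theorem Ctx.PZ_prime_le (c : Ctx G Γ) {d : ℕ} (hd : ∀ v, (Γ.neighborSet v).ncard ≤ d) {α β : V}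
    (h : Γ.Adj α β) (h0 : QQ G Γ p α ⊓ QQ G Γ p β ≠ ⊥) : p ≤ cb d 1 := by
  obtain ⟨A, hA, h1⟩ := c.exists_AA h h0
  have h2 : ¬ RR G Γ p α β ≤ Kn G Γ 1 α := fun h2 =>
    h1 ((le_inf hA.1 (hA.1.trans h2)).trans (c.RR_inf_K h))
  exact (le_relIndex_of_not_le (c.RR_pg h) h2).trans
    ((relIndex_le_of_le_right (RR_le_St h) (relIndex_pos _ _).ne').trans (c.relIndex_Kn hd 1 α))

/-- Either a short critical walk exists or there are finite data. -/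
theorem Ctx.exists_FP (c : Ctx G Γ) {d : ℕ} (hd : ∀ v, (Γ.neighborSet v).ncard ≤ d) {α β : V}
    (h : Γ.Adj α β) (h0 : QQ G Γ p α ⊓ QQ G Γ p β ≠ ⊥) (b : ℕ) :
    PShort G Γ p (4 * b + 5) ∨ Nonempty (FP d ((3 * d + cb d 1 * (2 * cb d 3)) * (2 * cb d 1) +
      cb d 1 * (2 * cb d 1 * (2 * d + 2 * cb d 3))) b G V) := by
  classical
  obtain ⟨U, h1, h2, h3, h4, h5⟩ := c.exists_U hd h h0
  have hz : ∀ x, U x ≤ QQ G Γ p x := fun x => (h2 x).trans (YY_le_QQ x)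
  have hex : ∃ n, ¬ ∀ x y, Near Γ n x y → U x ≤ QQ G Γ p y := by
    by_contra hc
    push Not at hc
    refine h4 α (eq_bot_iff.2 fun a ha => mem_bot.2 (c.faithful a fun y => ?_))
    obtain ⟨w⟩ := c.conn α y
    exact mem_St.1 (Kn_le_St 1 y (QQ_le_K y (hc w.length α y ⟨w, le_rfl⟩ ha)))
  have h6 := Nat.find_spec hex
  have h7 : ∀ m < Nat.find hex, ∀ x y, Near Γ m x y → U x ≤ QQ G Γ p y := fun m hm =>
    not_not.1 (Nat.find_min hex hm)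
  generalize Nat.find hex = m at h6 h7
  obtain _ | n := m
  · exact absurd (fun x y hxy => near_zero hxy ▸ hz x) h6
  have h8 := h7 n (Nat.lt_succ_self n)
  push Not at h6
  obtain ⟨α', α₀, hn, hU⟩ := h6
  obtain ⟨u, hu, huQ⟩ := SetLike.not_le_iff_exists.1 hU
  rcases near_succ' hn with rfl | ⟨α₁, hn1, hadj⟩
  · exact absurd (hz _ hu) huQ
  have hu1 : u ∈ QQ G Γ p α₁ := h8 _ _ hn1 hu
  have huK : u ∉ Kn G Γ 1 α₀ := fun hK =>
    huQ (c.RR_inf_K hadj.symm ⟨(le_sup_right : QQ G Γ p α₁ ≤ RR G Γ p α₀ α₁) hu1, hK⟩)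
  by_cases hb : 4 * b + 4 ≤ n
  · exact Or.inr (CP.PZ_FP ⟨c, hd, h1, h2, h3, h4, h5, h8, hadj.symm, hn1.symm, hu, huK⟩
      (c.PZ_prime_le hd h h0) (c.Kn3_le h h0) hb)
  · have hK := mem_K1.1 (QQ_le_K α₁ hu1)
    exact Or.inl ⟨α', α₀, α₁, hn.mono (by omega), hadj.symm, u, OZ_le_Cn _ (h2 α' hu),
      hK.2 _ hadj, hK.1, huK⟩

end Pool.Agent.Lib.MP_bf45aa_co
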