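import Pool.Agent.Lib.MP_bf45aa_co.PZUlt

set_option autoImplicit false
set_option linter.unusedSectionVars false

/-! Limit data from infinite data: one component, faithful action, additive module. -/

namespace Pool.Agent.Lib.MP_bf45aa_co

open Subgroup Filter

namespace PI

variable {d c : ℕ} {G V : Type} [Group G] [MulAction G V] (D : PI d c G V)

/-- The component of the base vertex. -/
def X : Type := {x : V // ∃ k, Near D.Γ k D.o x}

/-- The induced graph. -/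
def Γ' : SimpleGraph D.X := D.Γ.comap Subtype.val

/-- The permutation `σ` of the component is induced by `g`. -/
def R (σ : Equiv.Perm D.X) (g : G) : Prop := ∀ x : D.X, (σ x).1 = g • x.1

theorem R_one : D.R 1 1 := fun _ => (one_smul _ _).symm

variable {D} in
theorem R.mul {σ τ : Equiv.Perm D.X} {g h : G} (h1 : D.R σ g) (h2 : D.R τ h) :
    D.R (σ * τ) (g * h) := fun x => by rw [Equiv.Perm.mul_apply, h1, h2, mul_smul]

variable {D} in
theorem R.inv {σ : Equiv.Perm D.X} {g : G} (h : D.R σ g) : D.R σ⁻¹ g⁻¹ := fun x => by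
  rw [eq_inv_smul_iff, ← h, ← Equiv.Perm.mul_apply, mul_inv_cancel, Equiv.Perm.one_apply]

/-- The induced group of permutations. -/
def H : Subgroup (Equiv.Perm D.X) where
  carrier := {σ | ∃ g, D.R σ g}
  one_mem' := ⟨1, D.R_one⟩
  mul_mem' := fun ⟨_, h1⟩ ⟨_, h2⟩ => ⟨_, h1.mul h2⟩
  inv_mem' := fun ⟨_, h⟩ => ⟨_, h.inv⟩

theorem near_mem (x : D.X) {k : ℕ} {y : V} (h : Near D.Γ k x.1 y) : ∃ l, Near D.Γ l D.o y :=
  let ⟨l, hl⟩ := x.2; ⟨l + k, hl.trans h⟩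

theorem near_X (x y : D.X) : ∃ k, Near D.Γ k x.1 y.1 :=
  let ⟨_, hk⟩ := x.2; let ⟨_, hl⟩ := y.2; ⟨_, hk.symm.trans hl⟩

theorem smul_mem {g : G} {x y : D.X} (h : g • x.1 = y.1) (z : D.X) :
    ∃ l, Near D.Γ l D.o (g • z.1) := by
  obtain ⟨k, hk⟩ := D.near_X x z
  have := hk.smul D.adj g
  rw [h] at this
  exact D.near_mem y this

theorem exists_R {g : G} {x y : D.X} (h : g • x.1 = y.1) : ∃ σ : D.H, D.R σ.1 g :=
  ⟨⟨⟨fun z => ⟨g • z.1, D.smul_mem h z⟩,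
    fun z => ⟨g⁻¹ • z.1, D.smul_mem (inv_smul_eq_iff.2 h.symm) z⟩,
    fun _ => Subtype.ext (inv_smul_smul _ _), fun _ => Subtype.ext (smul_inv_smul _ _)⟩,
    g, fun _ => rfl⟩, fun _ => rfl⟩

variable {D} in
theorem R.smul_eq {σ : D.H} {g : G} (h : D.R σ.1 g) {x y : D.X} : σ • x = y ↔ g • x.1 = y.1 := by
  rw [← h x]
  exact Subtype.ext_iff

theorem near' {k : ℕ} {x y : D.X} (h : Near D.Γ k x.1 y.1) : Near D.Γ' k x y := by
  induction k generalizing x with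
  | zero => rw [show x = y from Subtype.ext (near_zero h)]; exact Near.refl _ _
  | succ k ih =>
    rcases near_succ h with h1 | ⟨z, h1, h2⟩
    · rw [show x = y from Subtype.ext h1]; exact Near.refl _ _
    · have h3 : D.Γ'.Adj x ⟨z, D.near_mem x (Near.of_adj h1)⟩ := h1
      exact ((Near.of_adj h3).trans (ih h2)).mono (by omega)

variable {D} in
theorem R.mem_Kn {σ : D.H} {g : G} (h : D.R σ.1 g) {k : ℕ} {x : D.X} :
    σ ∈ Kn D.H D.Γ' k x ↔ g ∈ Kn G D.Γ k x.1 := by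
  induction k generalizing x with
  | zero => exact h.smul_eq
  | succ k ih =>
    rw [mem_Kn_succ, mem_Kn_succ, ih]
    refine and_congr_right fun _ => ⟨fun h y hy => ?_, fun h y hy => ih.2 (h y.1 hy)⟩
    exact (ih (x := ⟨y, D.near_mem x (Near.of_adj hy)⟩)).1 (h _ hy)

/-- The elements inducing a member of `N`. -/
def pull (N : Subgroup D.H) : Subgroup G where
  carrier := {g | ∃ σ ∈ N, D.R σ.1 g}
  one_mem' := ⟨1, one_mem _, D.R_one⟩
  mul_mem' := fun ⟨_, h1, h2⟩ ⟨_, h3, h4⟩ => ⟨_, mul_mem h1 h3, h2.mul h4⟩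
  inv_mem' := fun ⟨_, h1, h2⟩ => ⟨_, inv_mem h1, h2.inv⟩

theorem ctx : Ctx D.H D.Γ' where
  adj := fun σ x y h => by
    obtain ⟨g, hg⟩ := σ.2
    show D.Γ.Adj (σ.1 x).1 (σ.1 y).1
    rw [hg, hg]
    exact D.adj g h
  faithful := fun σ h => Subtype.ext (Equiv.ext h)
  conn := fun x y => let ⟨_, hk⟩ := D.near_X x y; let ⟨w, _⟩ := D.near' hk; ⟨w⟩
  arc := fun {u v x y} h h' => by
    obtain ⟨g, h1, h2⟩ := D.arc h h'
    obtain ⟨σ, hσ⟩ := D.exists_R h1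
    exact ⟨σ, hσ.smul_eq.2 h1, hσ.smul_eq.2 h2⟩
  sp := fun v N h1 h2 => by
    refine (D.sp v.1 (D.pull N) (fun g ⟨σ, h3, h4⟩ => h4.smul_eq.1 (h1 h3)) ?_).imp ?_ ?_
    · refine le_Nm_of_conj fun g hg a ⟨σ, h3, h4⟩ => ?_
      obtain ⟨τ, hτ⟩ := D.exists_R (x := v) (y := v) hg
      exact ⟨_, conj_mem_of_Nm (h2 (hτ.smul_eq.2 hg)) h3, (hτ.mul h4).mul hτ.inv⟩
    · intro t x y hx hy
      obtain ⟨g, ⟨σ, h3, h4⟩, e⟩ := t x.1 y.1 hx hy
      exact ⟨σ, h3, h4.smul_eq.2 e⟩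
    · intro t σ hσ x hx e y hy
      obtain ⟨g, hg⟩ := σ.2
      exact hg.smul_eq.2 (t g ⟨σ, hσ, hg⟩ x.1 hx (hg.smul_eq.1 e) y.1 hy)

theorem W_mono (x : V) {k l : ℕ} (h : k ≤ l) : D.W x k ≤ D.W x l := by
  have := D.shift (Near.refl (l - k) x) k
  rwa [Nat.sub_add_cancel h] at this

/-- The union of the ball groups. -/
def M : Subgroup G where
  carrier := {v | ∃ k, v ∈ D.W D.o k}
  one_mem' := ⟨0, one_mem _⟩
  mul_mem' := fun ⟨k, h1⟩ ⟨l, h2⟩ => ⟨k + l, mul_mem (D.W_mono _ (Nat.le_add_right k l) h1)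
    (D.W_mono _ (Nat.le_add_left l k) h2)⟩
  inv_mem' := fun ⟨k, h⟩ => ⟨k, inv_mem h⟩

theorem W_le_M (x : D.X) (k : ℕ) : D.W x.1 k ≤ D.M := fun _ hv =>
  let ⟨_, hl⟩ := x.2; ⟨_, D.shift hl.symm k hv⟩

theorem mem_W (x : D.X) {v : G} (hv : v ∈ D.M) : ∃ k, v ∈ D.W x.1 k :=
  let ⟨_, hl⟩ := x.2; let ⟨k, hk⟩ := hv; ⟨_, D.shift hl k hk⟩

/-- The base vertex. -/
def oX : D.X := ⟨D.o, 0, Near.refl _ _⟩

variable {D} in
theorem R.conj_mem {σ : D.H} {g : G} (h : D.R σ.1 g) {v : G} (hv : v ∈ D.M) :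
    g * v * g⁻¹ ∈ D.M := by
  obtain ⟨k, hk⟩ := hv
  have := D.equi g _ k v hk
  rw [show g • D.o = (σ.1 D.oX).1 from (h D.oX).symm] at this
  exact D.W_le_M _ k this

variable {D} in
theorem R.conj_eq {σ : D.H} {g g' : G} (h : D.R σ.1 g) (h' : D.R σ.1 g') {v : G} (hv : v ∈ D.M) :
    g * v * g⁻¹ = g' * v * g'⁻¹ := by
  obtain ⟨k, hk⟩ := hv
  have h1 : D.R (1 : D.H).1 (g'⁻¹ * g) := by
    have := h'.inv.mul h
    rwa [inv_mul_cancel] at this
  have h2 := D.cent _ k _ ((h1.mem_Kn (x := D.oX)).1 (one_mem _)) v hk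
  rw [← h2]
  nth_rewrite 1 [h2]
  group

/-- The module. -/
def A : Type := D.M

instance : AddCommGroup D.A :=
  letI : CommGroup D.M := { (inferInstance : Group D.M) with
    mul_comm := fun u v => Subtype.ext (by
      obtain ⟨k, hk⟩ := u.2
      obtain ⟨l, hl⟩ := v.2
      exact D.comm _ (k + l) _ (D.W_mono _ (Nat.le_add_right k l) hk) _
        (D.W_mono _ (Nat.le_add_left l k) hl)) }
  inferInstanceAs (AddCommGroup (Additive D.M))

/-- The underlying group element. -/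
def val (v : D.A) : G := Subtype.val v

theorem val_mem (v : D.A) : D.val v ∈ D.M := Subtype.prop v

theorem val_inj : Function.Injective D.val := Subtype.val_injective

theorem val_add (u v : D.A) : D.val (u + v) = D.val u * D.val v := rfl

theorem val_zero : D.val 0 = 1 := rfl

theorem val_neg (v : D.A) : D.val (-v) = (D.val v)⁻¹ := rfl

noncomputable instance : SMul D.H D.A where
  smul σ v := (⟨σ.2.choose * D.val v * σ.2.choose⁻¹,
    R.conj_mem (σ := σ) σ.2.choose_spec (D.val_mem v)⟩ : D.M)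

variable {D} in
theorem R.val_smul {σ : D.H} {g : G} (h : D.R σ.1 g) (v : D.A) :
    D.val (σ • v) = g * D.val v * g⁻¹ :=
  R.conj_eq (σ := σ) σ.2.choose_spec h (D.val_mem v)

noncomputable instance : DistribMulAction D.H D.A where
  one_smul v := D.val_inj (by rw [R.val_smul (σ := 1) D.R_one]; group)
  mul_smul σ τ v := D.val_inj (by
    obtain ⟨g, hg⟩ := σ.2
    obtain ⟨h, hh⟩ := τ.2
    rw [R.val_smul (σ := σ * τ) (hg.mul hh), hg.val_smul, hh.val_smul]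
    group)
  smul_zero σ := D.val_inj (by
    obtain ⟨g, hg⟩ := σ.2
    rw [hg.val_smul, val_zero]
    group)
  smul_add σ u v := D.val_inj (by
    obtain ⟨g, hg⟩ := σ.2
    rw [val_add, hg.val_smul, hg.val_smul, hg.val_smul, val_add]
    group)

/-- The image of an additive subgroup. -/
def img (B : AddSubgroup D.A) : Subgroup G where
  carrier := D.val '' B
  one_mem' := ⟨0, zero_mem _, rfl⟩
  mul_mem' := fun ⟨u, h1, e1⟩ ⟨v, h2, e2⟩ => ⟨u + v, add_mem h1 h2, by rw [val_add, e1, e2]⟩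
  inv_mem' := fun ⟨u, h1, e1⟩ => ⟨-u, neg_mem h1, by rw [val_neg, e1]⟩

/-- The preimage of a subgroup. -/
def pre (S : Subgroup G) : AddSubgroup D.A where
  carrier := D.val ⁻¹' S
  zero_mem' := one_mem S
  add_mem' := fun h1 h2 => S.mul_mem h1 h2
  neg_mem' := fun h => S.inv_mem h

theorem tr_img {w : D.X} {B : AddSubgroup D.A} {N : Subgroup D.H} (h1 : N ≤ St D.H w)
    (h2 : Tr D.Γ' N w) (h3 : ∀ g ∈ N, ∀ v ∈ B, g • v ∈ B) (x y : V) (hx : D.Γ.Adj w.1 x)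
    (hy : D.Γ.Adj w.1 y) : ∃ g ∈ St G w.1, g • x = y ∧ ∀ v ∈ D.img B, g * v * g⁻¹ ∈ D.img B := by
  obtain ⟨σ, hσ, e⟩ := h2 ⟨x, D.near_mem w (Near.of_adj hx)⟩ ⟨y, D.near_mem w (Near.of_adj hy)⟩
    hx hy
  obtain ⟨g, hg⟩ := σ.2
  refine ⟨g, hg.smul_eq.1 (h1 hσ), hg.smul_eq.1 e, ?_⟩
  rintro _ ⟨v, hv, rfl⟩
  exact ⟨_, h3 σ hσ v hv, hg.val_smul v⟩

theorem orbit_img (x : D.X) (v : D.A) : D.val '' {w | ∃ σ ∈ St D.H x, σ • v = w} =
    {w | ∃ g ∈ St G x.1, g * D.val v * g⁻¹ = w} := by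
  ext w
  constructor
  · rintro ⟨_, ⟨σ, hσ, rfl⟩, rfl⟩
    obtain ⟨g, hg⟩ := σ.2
    exact ⟨g, hg.smul_eq.1 hσ, (hg.val_smul v).symm⟩
  · rintro ⟨g, hg, rfl⟩
    obtain ⟨σ, hσ⟩ := D.exists_R (x := x) (y := x) hg
    exact ⟨_, ⟨σ, hσ.smul_eq.2 hg, rfl⟩, hσ.val_smul v⟩

theorem pd : PD D.H D.A D.Γ' d c where
  c := D.ctx
  edge := ⟨D.oX, ⟨D.o', 1, Near.of_adj D.edge⟩, D.edge⟩
  fin := fun x => (D.fin x.1).preimage Subtype.val_injective.injOn
  deg := fun x => (Set.ncard_le_ncard_of_injOn Subtype.val (fun _ h => h)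
    Subtype.val_injective.injOn (D.fin x.1)).trans (D.deg x.1)
  clo := fun x σ h1 h2 => by
    choose g hg using fun r => (σ r).2
    have hg' : ∀ r, D.R (σ r).1 (g r) := hg
    obtain ⟨h, h3, h4⟩ := D.clo x.1 g (fun r => (hg' r).smul_eq.1 (h1 r)) fun r =>
      (R.mem_Kn (σ := (σ r)⁻¹ * σ (r + 1)) ((hg' r).inv.mul (hg' (r + 1)))).1 (h2 r)
    obtain ⟨τ, hτ⟩ := D.exists_R (x := x) (y := x) h3
    exact ⟨τ, hτ.smul_eq.2 h3, fun r =>
      (R.mem_Kn (σ := τ⁻¹ * σ r) (hτ.inv.mul (hg' r))).2 (h4 r)⟩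
  ne := by
    by_contra hc
    push Not at hc
    refine D.ne (eq_bot_iff.2 fun v hv => Subgroup.mem_bot.2 ?_)
    exact congrArg D.val (hc (⟨v, 0, hv⟩ : D.M))
  smooth := fun x v => by
    obtain ⟨k, hk⟩ := D.mem_W x (D.val_mem v)
    refine ⟨k + 3, fun σ hσ => D.val_inj ?_⟩
    obtain ⟨g, hg⟩ := σ.2
    rw [hg.val_smul]
    exact D.cent _ k g (hg.mem_Kn.1 hσ) _ hk
  L0 := fun {w w'} h B hf N N' h1 h2 h3 h4 h5 h6 => by
    choose f hf' using fun v : B => D.mem_W w (D.val_mem v.1)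
    obtain ⟨n, hn⟩ := (Set.finite_range f).bddAbove
    have h7 := D.L0 h n (D.img B) (by
      rintro _ ⟨v, hv, rfl⟩
      exact D.W_mono _ (hn ⟨⟨v, hv⟩, rfl⟩) (hf' ⟨v, hv⟩))
      ((Set.toFinite (B : Set D.A)).image D.val).to_subtype (D.tr_img h1 h2 h5) (D.tr_img h3 h4 h6)
    refine eq_bot_iff.2 fun v hv => AddSubgroup.mem_bot.2 (D.val_inj ?_)
    exact Subgroup.mem_bot.1 (h7.le ⟨v, hv, rfl⟩)
  L1 := fun x n => by
    obtain ⟨S, h1, h2, h3⟩ := D.L1 x.1 n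
    have h4 : OO D.H D.A x n ≤ D.pre S := by
      refine (AddSubgroup.closure_le _).2 fun v hv => ?_
      obtain ⟨k, hk⟩ := D.mem_W x (D.val_mem v)
      refine h3 k _ hk ?_ ?_
      · rw [← orbit_img]
        exact hv.1.image _
      · rw [← orbit_img, Set.ncard_image_of_injective _ D.val_inj]
        exact hv.2
    have h5 : Function.Injective fun v : OO D.H D.A x n => (⟨D.val v.1, h4 v.2⟩ : S) :=
      fun u v e => Subtype.ext (D.val_inj (congrArg (fun z : S => (z : G)) e))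
    exact ⟨Finite.of_injective _ h5, (Nat.card_le_card_of_injective _ h5).trans h2⟩

end PI

end Pool.Agent.Lib.MP_bf45aa_co
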