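import Pool.Agent.Lib.MP_bf45aa_co.PZFin

set_option autoImplicit false
set_option linter.unusedSectionVars false

/-! The ultraproduct of finite data. -/

namespace Pool.Agent.Lib.MP_bf45aa_co

open Subgroup Filter

/-- Infinite data in multiplicative form. -/
structure PI (d c : ℕ) (G V : Type) [Group G] [MulAction G V] where
  Γ : SimpleGraph V
  W : V → ℕ → Subgroup G
  o : V
  o' : V
  adj : ∀ (g : G) {x y : V}, Γ.Adj x y → Γ.Adj (g • x) (g • y)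
  arc : ∀ {u v x y : V}, Γ.Adj u v → Γ.Adj x y → ∃ g : G, g • u = x ∧ g • v = y
  sp : ∀ (v : V) (N : Subgroup G), N ≤ St G v → St G v ≤ Nm N →
    Tr Γ N v ∨ ∀ n ∈ N, ∀ x, Γ.Adj v x → n • x = x → ∀ y, Γ.Adj v y → n • y = y
  edge : Γ.Adj o o'
  fin : ∀ x, (Γ.neighborSet x).Finite
  deg : ∀ x, (Γ.neighborSet x).ncard ≤ d
  shift : ∀ {n : ℕ} {x y : V}, Near Γ n x y → ∀ k, W x k ≤ W y (n + k)
  equi : ∀ (g : G) x k, ∀ v ∈ W x k, g * v * g⁻¹ ∈ W (g • x) k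
  comm : ∀ x k, ∀ u ∈ W x k, ∀ v ∈ W x k, u * v = v * u
  cent : ∀ x k, ∀ g ∈ Kn G Γ (k + 3) x, ∀ v ∈ W x k, g * v * g⁻¹ = v
  ne : W o 0 ≠ ⊥
  L0 : ∀ {w w' : V}, Γ.Adj w w' → ∀ k, ∀ A ≤ W w k, Finite A →
    (∀ x y, Γ.Adj w x → Γ.Adj w y → ∃ g ∈ St G w, g • x = y ∧ ∀ v ∈ A, g * v * g⁻¹ ∈ A) →
    (∀ x y, Γ.Adj w' x → Γ.Adj w' y → ∃ g ∈ St G w', g • x = y ∧ ∀ v ∈ A, g * v * g⁻¹ ∈ A) →
    A = ⊥
  L1 : ∀ x n, ∃ S : Subgroup G, Finite S ∧ Nat.card S ≤ 2 ^ (c * (n + 1)) ∧ ∀ k, ∀ v ∈ W x k,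
    {w | ∃ g ∈ St G x, g * v * g⁻¹ = w}.Finite → {w | ∃ g ∈ St G x, g * v * g⁻¹ = w}.ncard ≤ 2 ^ n →
    v ∈ S
  clo : ∀ (x : V) (g : ℕ → G), (∀ r, g r ∈ St G x) → (∀ r, (g r)⁻¹ * g (r + 1) ∈ Kn G Γ r x) →
    ∃ h ∈ St G x, ∀ r, h⁻¹ * g r ∈ Kn G Γ r x

variable {c d : ℕ} {G V : ℕ → Type} [∀ n, Group (G n)] [∀ n, MulAction (G n) (V n)]
  (D : ∀ n, FP d c n (G n) (V n))

/-- The limit graph. -/
abbrev PΓ : SimpleGraph (UV V) := UΓ fun n => (D n).Γ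

/-- The limit subgroups `W`. -/
noncomputable def PW' (x : UV V) (k : ℕ) : Subgroup (UG G) := US fun n => (D n).W (rp x n) k

theorem mem_PW' {x : ∀ n, V n} {k : ℕ} {g : ∀ n, G n} :
    mkG g ∈ PW' D (mkV x) k ↔ ∀ᶠ n in UU, g n ∈ (D n).W (x n) k :=
  mem_US.trans (eventually_congr ((rp_mkV x).mono fun n e => by rw [e]))

theorem PZUlt_conj (g v : ∀ n, G n) :
    mkG g * mkG v * (mkG g)⁻¹ = mkG fun n => g n * v n * (g n)⁻¹ := by
  rw [← map_inv, ← map_mul, ← map_mul]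
  rfl

theorem PZUlt_intr {v : ∀ n, V n} {N : Subgroup (UG G)} (h1 : N ≤ St (UG G) (mkV v))
    (h2 : St (UG G) (mkV v) ≤ Nm N) (h3 : ¬ Tr (PΓ D) N (mkV v)) {a : ∀ n, G n}
    (ha : mkG a ∈ N) : ∀ᶠ n in UU, ¬ Tr (D n).Γ (closure (CS (v n) (a n))) (v n) := by
  rw [ev_not]
  refine fun hT => h3 fun x y hx hy => ?_
  obtain ⟨x, rfl⟩ := mkV_surj x
  obtain ⟨y, rfl⟩ := mkV_surj y
  obtain ⟨f, hf⟩ := ev_choice (T := fun n => Fin d → G n) (fun _ _ => 1)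
    (P := fun n f => (∀ i, f i ∈ CS (v n) (a n)) ∧ (List.ofFn f).prod • x n = y n)
    ((hT.and ((mem_St_iff.1 (h1 ha)).and ((UΓ_adj.1 hx).and (UΓ_adj.1 hy)))).mono fun n hn => by
      obtain ⟨g, hg, e⟩ := hn.1 _ _ hn.2.2.1 hn.2.2.2
      have := (D n).finV
      rw [← e]
      refine exists_word (CS (v n) (a n)) _ (Set.toFinite _) ((D n).deg (v n))
        (fun s hs z hz => ?_) (fun s hs => ?_) ⟨1, one_mem _, Or.inl rfl⟩ hn.2.2.1 hg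
      · have h4 := (D n).ctx.adj s hz
        rwa [mem_St.1 (LU1_le hn.2.1 (subset_closure hs))] at h4
      · obtain ⟨g, hg, rfl | rfl | rfl⟩ := hs
        · exact ⟨g, hg, Or.inl inv_one⟩
        · exact ⟨g, hg, Or.inr (Or.inr (by group))⟩
        · exact ⟨g, hg, Or.inr (Or.inl (by group))⟩)
  refine ⟨mkG (List.ofFn fun i n => f n i).prod, ?_, ?_⟩
  · rw [map_list_prod]
    refine list_prod_mem fun s hs => ?_
    rw [List.map_ofFn, List.mem_ofFn] at hs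
    obtain ⟨i, rfl⟩ := hs
    change mkG (fun n => f n i) ∈ N
    obtain ⟨g, hg⟩ := ev_choice (T := G) 1 (hf.mono fun n hn => hn.1 i)
    have h4 := mem_normalizer_iff.1 (h2 (mem_St_iff.2 (hg.mono fun n hn => hn.1)))
    rcases ev_or.1 (hg.mono fun n hn => hn.2) with h5 | h5
    · exact (mkG_eq.2 h5 : mkG _ = mkG 1) ▸ map_one (mkG (G := G)) ▸ one_mem N
    · rcases ev_or.1 h5 with h5 | h5
      · exact (mkG_eq.2 h5 : mkG _ = mkG (g * a * g⁻¹)) ▸ (h4 _).1 ha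
      · exact (mkG_eq.2 h5 : mkG _ = mkG (g * a⁻¹ * g⁻¹)) ▸ (h4 _).1 (inv_mem ha)
  · rw [mk_smul, mkV_eq]
    refine hf.mono fun n hn => ?_
    rw [Pi.list_prod_apply, List.map_ofFn]
    exact hn.2

theorem PZUlt_sp (v : UV V) (N : Subgroup (UG G)) (h1 : N ≤ St (UG G) v)
    (h2 : St (UG G) v ≤ Nm N) :
    Tr (PΓ D) N v ∨ ∀ a ∈ N, ∀ x, (PΓ D).Adj v x → a • x = x →
      ∀ y, (PΓ D).Adj v y → a • y = y := by
  refine or_iff_not_imp_left.2 fun h3 a ha x hx e y hy => ?_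
  obtain ⟨v, rfl⟩ := mkV_surj v
  obtain ⟨x, rfl⟩ := mkV_surj x
  obtain ⟨y, rfl⟩ := mkV_surj y
  obtain ⟨a, rfl⟩ := mkG_surj a
  rw [mk_smul, mkV_eq] at e ⊢
  filter_upwards [PZUlt_intr D h1 h2 h3 ha, mem_St_iff.1 (h1 ha), UΓ_adj.1 hx, UΓ_adj.1 hy, e]
    with n k1 k2 k3 k4 k5
  exact ((D n).ctx.sp _ _ (LU1_le k2) (LU1_nm _ _)).resolve_left k1 _ (LU1_mem _ _) _ k3 k5 _ k4

theorem PZUlt_nbrs (x : ∀ n, V n) : ∃ t : Finset (∀ n, V n), t.card ≤ d ∧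
    (∀ a ∈ t, ∀ᶠ n in UU, (D n).Γ.Adj (x n) (a n)) ∧
    ∀ᶠ n in UU, ∀ y, (D n).Γ.Adj (x n) y → ∃ a ∈ t, a n = y :=
  internal_finite x (fun n => (D n).Γ.neighborSet (x n)) (d := d)
    (Eventually.of_forall fun n => ⟨have := (D n).finV; Set.toFinite _, (D n).deg _⟩)

theorem PZUlt_deg (x : UV V) :
    ((PΓ D).neighborSet x).Finite ∧ ((PΓ D).neighborSet x).ncard ≤ d := by
  obtain ⟨x, rfl⟩ := mkV_surj x
  obtain ⟨t, h1, -, h2⟩ := PZUlt_nbrs D x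
  have hsub : (PΓ D).neighborSet (mkV x) ⊆ mkV '' (t : Set (∀ n, V n)) := fun y hy => by
    obtain ⟨y, rfl⟩ := mkV_surj y
    obtain ⟨b, hb, e⟩ := ev_pigeon t.finite_toSet (P := fun b n => b n = y n)
      ((h2.and (UΓ_adj.1 hy)).mono fun n e => e.1 _ e.2)
    exact ⟨b, hb, mkV_eq.2 e⟩
  have hfin := t.finite_toSet.image (mkV (V := V))
  exact ⟨hfin.subset hsub, (Set.ncard_le_ncard hsub hfin).trans
    ((Set.ncard_image_le t.finite_toSet).trans ((Set.ncard_coe_finset t).trans_le h1))⟩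

theorem PZUlt_tr {A : Subgroup (UG G)} [Finite A] (r : A → ∀ n, G n) (hr : ∀ a, mkG (r a) = a)
    {w : ∀ n, V n} (h : ∀ x y, (PΓ D).Adj (mkV w) x → (PΓ D).Adj (mkV w) y →
      ∃ g ∈ St (UG G) (mkV w), g • x = y ∧ ∀ v ∈ A, g * v * g⁻¹ ∈ A) :
    ∀ᶠ n in UU, Tr (D n).Γ (Nm (closure (Set.range fun a => r a n)) ⊓ St (G n) (w n)) (w n) := by
  obtain ⟨t, -, ht, ht'⟩ := PZUlt_nbrs D w
  have h3 : ∀ y ∈ t, ∀ z ∈ t, ∀ᶠ n in UU,
      ∃ g ∈ Nm (closure (Set.range fun a => r a n)) ⊓ St (G n) (w n), g • y n = z n := by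
    intro y hy z hz
    obtain ⟨g, hg, e, hA⟩ := h (mkV y) (mkV z) (UΓ_adj.2 (ht y hy)) (UΓ_adj.2 (ht z hz))
    obtain ⟨g, rfl⟩ := mkG_surj g
    rw [mk_smul, mkV_eq] at e
    have h4 : ∀ᶠ n in UU, ∀ a : A, g n * r a n * (g n)⁻¹ = r ⟨_, hA a a.2⟩ n :=
      eventually_all.2 fun a => mkG_eq.1 (by rw [← PZUlt_conj, hr, hr])
    filter_upwards [mem_St_iff.1 hg, h4, e] with n k1 k2 k3
    have := (D n).finG
    refine ⟨g n, ⟨mem_Nm_of_cj_le ?_, k1⟩, k3⟩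
    rw [cj_le_iff]
    refine (closure_le _).2 ?_
    rintro _ ⟨a, rfl⟩
    refine mem_cj.2 ?_
    rw [inv_inv, k2]
    exact subset_closure ⟨_, rfl⟩
  have h4 : ∀ᶠ n in UU, ∀ y ∈ t, ∀ z ∈ t,
      ∃ g ∈ Nm (closure (Set.range fun a => r a n)) ⊓ St (G n) (w n), g • y n = z n :=
    (eventually_all_finset t).2 fun y hy => (eventually_all_finset t).2 (h3 y hy)
  filter_upwards [h4, ht'] with n k1 k2 y z hy hz
  obtain ⟨y, hy', rfl⟩ := k2 y hy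
  obtain ⟨z, hz', rfl⟩ := k2 z hz
  exact k1 y hy' z hz'

theorem PZUlt_L0 {w w' : UV V} (h : (PΓ D).Adj w w') (k : ℕ) (A : Subgroup (UG G))
    (hA : A ≤ PW' D w k) (hf : Finite A)
    (h1 : ∀ x y, (PΓ D).Adj w x → (PΓ D).Adj w y →
      ∃ g ∈ St (UG G) w, g • x = y ∧ ∀ v ∈ A, g * v * g⁻¹ ∈ A)
    (h2 : ∀ x y, (PΓ D).Adj w' x → (PΓ D).Adj w' y →
      ∃ g ∈ St (UG G) w', g • x = y ∧ ∀ v ∈ A, g * v * g⁻¹ ∈ A) : A = ⊥ := by
  obtain ⟨w, rfl⟩ := mkV_surj w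
  obtain ⟨w', rfl⟩ := mkV_surj w'
  choose r hr using fun a : A => mkG_surj (a : UG G)
  have h3 : ∀ᶠ n in UU, ∀ a : A, r a n ∈ (D n).W (w n) k :=
    eventually_all.2 fun a => (mem_PW' D).1 (hr a ▸ hA a.2)
  refine eq_bot_iff.2 fun a ha => mem_bot.2 ?_
  rw [show a = mkG (r ⟨a, ha⟩) from (hr ⟨a, ha⟩).symm, ← map_one (mkG (G := G)), mkG_eq]
  filter_upwards [h3, PZUlt_tr D r hr h1, PZUlt_tr D r hr h2, UΓ_adj.1 h, ev_ge k]
    with n k1 k2 k3 k4 k5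
  have h4 : closure (Set.range fun a => r a n) ≤ Kn (G n) (D n).Γ 1 (w n) := by
    refine (closure_le _).2 ?_
    rintro _ ⟨a, rfl⟩
    exact (D n).W_le _ k k5 (k1 a)
  have h5 := (D n).ctx.L0 k4 (h4.trans (Kn_le_St 1 _)) (h4.trans (Kn_le_St_adj 0 k4)) k2 k3
  exact mem_bot.1 (h5.le (subset_closure ⟨⟨a, ha⟩, rfl⟩))

theorem PZUlt_card {S : ∀ n, Subgroup (G n)} {N : ℕ}
    (h : ∀ᶠ n in UU, (S n : Set (G n)).Finite ∧ (S n : Set (G n)).ncard ≤ N) :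
    Finite (US S) ∧ Nat.card (US S) ≤ N := by
  obtain ⟨t, h1, -, h2⟩ := internal_finite (T := G) (fun _ => 1) (fun n => (S n : Set (G n))) h
  have hsub : (US S : Set (UG G)) ⊆ mkG '' (t : Set (∀ n, G n)) := fun g hg => by
    obtain ⟨a, rfl⟩ := mkG_surj g
    obtain ⟨b, hb, e⟩ := ev_pigeon t.finite_toSet (P := fun b n => b n = a n)
      ((h2.and (mem_US.1 hg)).mono fun n e => e.1 _ e.2)
    exact ⟨b, hb, mkG_eq.2 e⟩
  have hfin := t.finite_toSet.image (mkG (G := G))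
  refine ⟨(hfin.subset hsub).to_subtype, (Nat.card_coe_set_eq _).trans_le ?_⟩
  exact (Set.ncard_le_ncard hsub hfin).trans ((Set.ncard_image_le t.finite_toSet).trans
    ((Set.ncard_coe_finset t).trans_le h1))

theorem PZUlt_L1 (x : UV V) (m : ℕ) : ∃ S : Subgroup (UG G), Finite S ∧
    Nat.card S ≤ 2 ^ (c * (m + 1)) ∧ ∀ k, ∀ v ∈ PW' D x k,
    {w | ∃ g ∈ St (UG G) x, g * v * g⁻¹ = w}.Finite →
    {w | ∃ g ∈ St (UG G) x, g * v * g⁻¹ = w}.ncard ≤ 2 ^ m → v ∈ S := by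
  classical
  obtain ⟨x, rfl⟩ := mkV_surj x
  obtain ⟨h1, h2⟩ := PZUlt_card (S := fun n => (D n).S (x n) m) (N := 2 ^ (c * (m + 1)))
    ((ev_ge m).mono fun n hn => by
      have := (D n).finG
      exact ⟨Set.toFinite _, (Nat.card_coe_set_eq _).symm.trans_le ((D n).card _ m hn)⟩)
  refine ⟨_, h1, h2, fun k v hv h3 h4 => ?_⟩
  obtain ⟨v, rfl⟩ := mkG_surj v
  have h5 : ∀ᶠ n in UU, {w | ∃ g ∈ St (G n) (x n), g * v n * g⁻¹ = w}.ncard ≤ 2 ^ m := by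
    by_contra hc
    obtain ⟨f, hf⟩ := ev_choice (T := fun n => Fin (2 ^ m + 1) → G n) (fun _ _ => 1)
      (P := fun n f => (∀ i, f i ∈ St (G n) (x n)) ∧
        Function.Injective fun i => f i * v n * (f i)⁻¹) ((ev_not.2 hc).mono fun n hn => by
          have := (D n).finG
          let _ := Fintype.ofFinite {w | ∃ g ∈ St (G n) (x n), g * v n * g⁻¹ = w}
          obtain ⟨e⟩ := Function.Embedding.nonempty_of_card_le (α := Fin (2 ^ m + 1))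
            (β := {w | ∃ g ∈ St (G n) (x n), g * v n * g⁻¹ = w}) (by
              rw [Fintype.card_fin, ← Nat.card_eq_fintype_card, Nat.card_coe_set_eq]
              omega)
          choose f h6 h7 using fun i => (e i).2
          refine ⟨f, h6, fun i j hij => e.injective (Subtype.ext ?_)⟩
          rw [← h7, ← h7]
          exact hij)
    have h6 : Function.Injective fun i : Fin (2 ^ m + 1) =>
        (⟨_, mkG fun n => f n i, mem_St_iff.2 (hf.mono fun _ e => e.1 i), rfl⟩ :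
          {w | ∃ g ∈ St (UG G) (mkV x), g * mkG v * g⁻¹ = w}) := fun i j hij => by
      have h7 := congrArg Subtype.val hij
      simp only [PZUlt_conj] at h7
      obtain ⟨n, e1, e2⟩ := (hf.and (mkG_eq.1 h7)).exists
      exact e1.2 e2
    have := h3.to_subtype
    have h7 := Nat.card_le_card_of_injective _ h6
    rw [Nat.card_fin, Nat.card_coe_set_eq] at h7
    omega
  refine mem_US.2 ?_
  filter_upwards [h5, (mem_PW' D).1 hv, ev_ge m, ev_ge k] with n k1 k2 k3 k4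
  exact (D n).small _ m k k3 k4 _ k2 k1

theorem PZUlt_clo (x : UV V) (g : ℕ → UG G) (h1 : ∀ r, g r ∈ St (UG G) x)
    (h2 : ∀ r, (g r)⁻¹ * g (r + 1) ∈ Kn (UG G) (PΓ D) r x) :
    ∃ h ∈ St (UG G) x, ∀ r, h⁻¹ * g r ∈ Kn (UG G) (PΓ D) r x := by
  classical
  have h3 : ∀ r₁ r₂, r₁ ≤ r₂ → (g r₂)⁻¹ * g r₁ ∈ Kn (UG G) (PΓ D) r₁ x := by
    intro r₁ r₂ h
    induction r₂, h using Nat.le_induction with
    | base => simp
    | succ r hr ih =>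
      have := mul_mem (inv_mem (Kn_anti hr x (h2 r))) ih
      rwa [mul_inv_rev, inv_inv, mul_assoc, mul_inv_cancel_left] at this
  obtain ⟨x, rfl⟩ := mkV_surj x
  choose a ha using fun r => mkG_surj (g r)
  let P : ℕ → ℕ → ℕ → Prop := fun r₁ r₂ n => a r₂ n ∈ St (G n) (x n) ∧
    (a r₂ n)⁻¹ * a r₁ n ∈ Kn (G n) (D n).Γ r₁ (x n)
  have hP : ∀ r₁ r₂, r₁ ≤ r₂ → ∀ᶠ n in UU, P r₁ r₂ n := fun r₁ r₂ h => by
    refine (mem_St_iff.1 (ha r₂ ▸ h1 r₂)).and ?_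
    have h4 := h3 r₁ r₂ h
    rw [← ha, ← ha, ← map_inv, ← map_mul] at h4
    exact mem_Kn_ultra.1 h4
  let A : ℕ → ℕ → Prop := fun n r => ∀ r₂ ∈ Set.Iic r, ∀ r₁ ∈ Set.Iic r₂, P r₁ r₂ n
  have hA : ∀ r, ∀ᶠ n in UU, P r (Nat.findGreatest (A n) n) n := fun r => by
    have h3 : ∀ᶠ n in UU, A n r := (eventually_all_finite (Set.finite_Iic r)).2 fun r₂ _ =>
      (eventually_all_finite (Set.finite_Iic r₂)).2 fun r₁ h => hP r₁ r₂ h
    filter_upwards [h3, ev_ge r] with n e1 e2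
    exact Nat.findGreatest_spec (P := A n) e2 e1 _ (Set.mem_Iic.2 le_rfl) r
      (Set.mem_Iic.2 (Nat.le_findGreatest e2 e1))
  refine ⟨mkG fun n => a (Nat.findGreatest (A n) n) n,
    mem_St_iff.2 ((hA 0).mono fun _ e => e.1), fun r => ?_⟩
  rw [← ha, ← map_inv, ← map_mul]
  exact mem_Kn_ultra.2 ((hA r).mono fun n e => e.2)

include D in
theorem exists_PI : Nonempty (PI d c (UG G) (UV V)) := by
  refine ⟨{
    Γ := PΓ D
    W := PW' D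
    o := mkV fun n => (D n).o
    o' := mkV fun n => (D n).o'
    adj := fun g x y h => ?_
    arc := fun {u v x y} h h' => ?_
    sp := PZUlt_sp D
    edge := UΓ_adj.2 (Eventually.of_forall fun n => (D n).adj)
    fin := fun x => (PZUlt_deg D x).1
    deg := fun x => (PZUlt_deg D x).2
    shift := fun {n x y} h k g hg => ?_
    equi := fun g x k v hv => ?_
    comm := fun x k u hu v hv => ?_
    cent := fun x k g hg v hv => ?_
    ne := fun e => ?_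
    L0 := PZUlt_L0 D
    L1 := PZUlt_L1 D
    clo := PZUlt_clo D }⟩
  · obtain ⟨g, rfl⟩ := mkG_surj g
    obtain ⟨x, rfl⟩ := mkV_surj x
    obtain ⟨y, rfl⟩ := mkV_surj y
    rw [mk_smul, mk_smul]
    exact UΓ_adj.2 ((UΓ_adj.1 h).mono fun n e => (D n).ctx.adj _ e)
  · obtain ⟨u, rfl⟩ := mkV_surj u
    obtain ⟨v, rfl⟩ := mkV_surj v
    obtain ⟨x, rfl⟩ := mkV_surj x
    obtain ⟨y, rfl⟩ := mkV_surj y
    obtain ⟨g, hg⟩ := ev_choice (T := G) 1 (P := fun n g => g • u n = x n ∧ g • v n = y n)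
      (((UΓ_adj.1 h).and (UΓ_adj.1 h')).mono fun n e => (D n).ctx.arc e.1 e.2)
    exact ⟨mkG g, mkV_eq.2 (hg.mono fun _ e => e.1), mkV_eq.2 (hg.mono fun _ e => e.2)⟩
  · obtain ⟨g, rfl⟩ := mkG_surj g
    obtain ⟨x, rfl⟩ := mkV_surj x
    obtain ⟨y, rfl⟩ := mkV_surj y
    exact (mem_PW' D).2 (((near_iff.1 h).and ((mem_PW' D).1 hg)).mono
      fun n e => (D n).shift e.1 k e.2)
  · obtain ⟨g, rfl⟩ := mkG_surj g
    obtain ⟨v, rfl⟩ := mkG_surj v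
    obtain ⟨x, rfl⟩ := mkV_surj x
    rw [PZUlt_conj, mk_smul]
    exact (mem_PW' D).2 (((mem_PW' D).1 hv).mono fun n e => (D n).equi _ _ k _ e)
  · obtain ⟨u, rfl⟩ := mkG_surj u
    obtain ⟨v, rfl⟩ := mkG_surj v
    obtain ⟨x, rfl⟩ := mkV_surj x
    rw [← map_mul, ← map_mul, mkG_eq]
    filter_upwards [ev_ge k, (mem_PW' D).1 hu, (mem_PW' D).1 hv] with n e1 e2 e3
    exact (D n).comm _ k e1 _ e2 _ e3
  · obtain ⟨g, rfl⟩ := mkG_surj g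
    obtain ⟨v, rfl⟩ := mkG_surj v
    obtain ⟨x, rfl⟩ := mkV_surj x
    rw [PZUlt_conj, mkG_eq]
    exact ((mem_Kn_ultra.1 hg).and ((mem_PW' D).1 hv)).mono fun n e => (D n).cent _ k _ e.1 _ e.2
  · have h1 : ∀ n, ∃ v ∈ (D n).W (D n).o 0, v ≠ 1 := fun n => by
      by_contra hc
      push Not at hc
      exact (D n).ne (eq_bot_iff.2 fun v hv => mem_bot.2 (hc v hv))
    choose v h2 h3 using h1
    have h4 := (mem_PW' D (x := fun n => (D n).o)).2 (Eventually.of_forall h2)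
    rw [e, Subgroup.mem_bot, ← map_one (mkG (G := G)), mkG_eq] at h4
    obtain ⟨n, hn⟩ := h4.exists
    exact h3 n hn

end Pool.Agent.Lib.MP_bf45aa_co
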