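import Pool.Agent.Lib.MP_bf45aa_co.PSetup

set_option autoImplicit false
set_option linter.unusedSectionVars false

/-! The rank one instance of the amalgam theorem. -/

namespace Pool.Agent.Lib.MP_bf45aa_co

open Subgroup
open scoped commutatorElement

section GroupPart

variable {G : Type*} [Group G]

/-- Elements normalising `Y₀` and acting trivially on `Y₁ / Y₀`. -/
def CQ (Y₁ Y₀ : Subgroup G) : Subgroup G where
  carrier := {g | g ∈ Nm Y₀ ∧ ∀ y ∈ Y₁, ⁅g, y⁆ ∈ Y₀}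
  one_mem' := ⟨one_mem _, fun y _ => by rw [commutatorElement_one_left]; exact one_mem _⟩
  mul_mem' := fun {a b} ha hb => ⟨mul_mem ha.1 hb.1, fun y hy => by
    rw [commutatorElement_mul_left_eq_conj_mul]
    exact mul_mem (conj_mem_of_Nm ha.1 (hb.2 y hy)) (ha.2 y hy)⟩
  inv_mem' := fun {a} ha => ⟨inv_mem ha.1, fun y hy => by
    rw [commutatorElement_inv_left, ← commutatorElement_inv]
    exact conj_mem_of_Nm' ha.1 (inv_mem (ha.2 y hy))⟩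

theorem mem_CQ {Y₁ Y₀ : Subgroup G} {g : G} :
    g ∈ CQ Y₁ Y₀ ↔ g ∈ Nm Y₀ ∧ ∀ y ∈ Y₁, ⁅g, y⁆ ∈ Y₀ := Iff.rfl

theorem Cn_le_CQ {Y₁ Y₀ : Subgroup G} (h : Y₀ ≤ Y₁) : Cn Y₁ ≤ CQ Y₁ Y₀ := fun g hg =>
  ⟨Cn_le_Nm _ (Cn_anti h hg), fun y hy => by
    rw [commutatorElement_eq_one_iff_mul_comm.2 (mem_Cn.1 hg y hy).symm]; exact one_mem _⟩

theorem CQ_bot (Y₁ : Subgroup G) : CQ Y₁ ⊥ ≤ Cn Y₁ := fun _ hg =>
  mem_Cn.2 fun y hy => (commutatorElement_eq_one_iff_mul_comm.1 (mem_bot.1 (hg.2 y hy))).symm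

theorem cj_CQ (g : G) (Y₁ Y₀ : Subgroup G) : cj g (CQ Y₁ Y₀) = CQ (cj g Y₁) (cj g Y₀) := by
  refine cj_eq_of_le (fun g (Y : Subgroup G × Subgroup G) => (cj g Y.1, cj g Y.2))
    (fun g Y => by simp only [cj_inv_cj]) (fun Y => CQ Y.1 Y.2) ?_ g (Y₁, Y₀)
  intro g Y a ha
  obtain ⟨b, hb, rfl⟩ := mem_cj'.1 ha
  refine ⟨by rw [← cj_Nm]; exact conj_mem_cj hb.1, fun y hy0 => ?_⟩
  obtain ⟨y, hy, rfl⟩ := mem_cj'.1 hy0
  rw [← conjugate_commutatorElement]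
  exact conj_mem_cj (hb.2 y hy)

theorem comm_pow_left {d y : G} (h : Commute d ⁅d, y⁆) (n : ℕ) : ⁅d ^ n, y⁆ = ⁅d, y⁆ ^ n := by
  induction n with
  | zero => simp
  | succ n ih =>
    rw [pow_succ, commutatorElement_mul_left_eq_conj_mul, ih, (h.pow_left n).eq,
      mul_inv_cancel_right, pow_succ']

end GroupPart

variable {V : Type*}

/-- The preimage of `Ω₁ (R / Q)`. -/
def TT (G : Type*) [Group G] [MulAction G V] (Γ : SimpleGraph V) (p : ℕ) (x y : V) : Subgroup G :=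
  closure {r | r ∈ RR G Γ p x y ∧ r ^ p ∈ QQ G Γ p x}

/-- The data in the rank one case. -/
def datR (G : Type*) [Group G] [MulAction G V] (Γ : SimpleGraph V) (p : ℕ) : Dat G V where
  P := QQ G Γ p
  B := RR G Γ p
  S := fun x => {YY G Γ p x}
  T := fun x y _ => TT G Γ p x y

variable {G : Type*} [Group G] [MulAction G V] {Γ : SimpleGraph V} [Finite G] {p : ℕ}

theorem Ctx.cj_TT (c : Ctx G Γ) (g : G) (x y : V) :
    cj g (TT G Γ p x y) = TT G Γ p (g • x) (g • y) := by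
  refine cj_eq_of_le (fun (g : G) (e : V × V) => (g • e.1, g • e.2))
    (fun g e => by simp only [inv_smul_smul]) (fun e => TT G Γ p e.1 e.2) ?_ g (x, y)
  intro g e
  rw [cj_le_iff, TT, closure_le]
  intro r hr
  rw [SetLike.mem_coe, mem_cj, inv_inv]
  refine subset_closure ⟨?_, ?_⟩
  · rw [← c.cj_RR]; exact conj_mem_cj hr.1
  · rw [← c.cj_QQ, conj_pow]; exact conj_mem_cj hr.2

theorem datR_U (x : V) : (datR G Γ p).U x = YY G Γ p x := sSup_singleton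

theorem Ctx.datR_equi (c : Ctx G Γ) : (datR G Γ p).Equi where
  P := c.cj_QQ p
  B := c.cj_RR
  S := fun g x κ h => by rw [Set.mem_singleton_iff.1 h]; exact c.cj_YY g x
  T := fun g x y _ => c.cj_TT g x y
  symm := RR_symm

theorem TT_le_RR (x y : V) : TT G Γ p x y ≤ RR G Γ p x y := (closure_le _).2 fun _ h => h.1

theorem QQ_le_TT (x y : V) : QQ G Γ p x ≤ TT G Γ p x y := fun _ h =>
  subset_closure ⟨QQ_le_RR x y h, pow_mem h p⟩

theorem EA_le_TT {x y : V} {X : Subgroup G} (h : X ≤ RR G Γ p x y) (hE : EA p X) :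
    X ≤ TT G Γ p x y := fun a ha => subset_closure ⟨h ha, by rw [hE.1 a ha]; exact one_mem _⟩

variable [hp : Fact p.Prime]

theorem Ctx.RR_inf_CY (c : Ctx G Γ) {α β : V} (h : Γ.Adj α β)
    (h0 : QQ G Γ p α ⊓ QQ G Γ p β ≠ ⊥) : RR G Γ p α β ⊓ Cn (YY G Γ p α) ≤ QQ G Γ p α :=
  fun _ hr => c.RR_inf_K h ⟨hr.1, c.sp_le inf_le_right
    (fun _ hg => Nm_inf (Nm_Cn (c.St_le_Nm_YY α hg)) (le_Nm_self _ hg)) (c.CY_intr h h0) h
    ⟨⟨hr.2, RR_le_St h hr.1⟩, RR_le_St' h hr.1⟩⟩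

theorem Ctx.datR_loc (c : Ctx G Γ) {α β : V} (h : Γ.Adj α β)
    (h0 : QQ G Γ p α ⊓ QQ G Γ p β ≠ ⊥)
    (hrk : ∀ a ∈ RR G Γ p α β, ∀ b ∈ RR G Γ p α β, a ^ p ∈ Kn G Γ 1 α → b ^ p ∈ Kn G Γ 1 α →
      a ∉ Kn G Γ 1 α → ∃ k : ℕ, (a ^ k)⁻¹ * b ∈ Kn G Γ 1 α) : (datR G Γ p).Loc Γ p α β := by
  have hT : ∀ a ∈ RR G Γ p α β, a ^ p = 1 → a ∉ QQ G Γ p α →
      TT G Γ p α β ≤ zpowers a ⊔ QQ G Γ p α := by
    intro a ha h1 h2
    rw [TT, closure_le]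
    intro r hr
    obtain ⟨k, hk⟩ := hrk a ha r hr.1 (by rw [h1]; exact one_mem _) (QQ_le_K α hr.2)
      fun h3 => h2 (c.RR_inf_K h ⟨ha, h3⟩)
    have h4 := c.RR_inf_K h ⟨(RR G Γ p α β).mul_mem (inv_mem (pow_mem ha k)) hr.1, hk⟩
    simpa using mul_mem (mem_sup_left (pow_mem (mem_zpowers a) k)) (mem_sup_right h4)
  obtain ⟨A, hA, hAQ⟩ := c.exists_AA h h0
  obtain ⟨a, haA, haQ⟩ := SetLike.not_le_iff_exists.1 hAQ
  have haR := hA.1 haA
  have hap := hA.2.1.1 a haA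
  have haT := EA_le_TT hA.1 hA.2.1 haA
  have hTa := hT a haR hap haQ
  have hidx : (QQ G Γ p α).relIndex (TT G Γ p α β) ≤ p := by
    refine (relIndex_le_of_le_right hTa (relIndex_pos _ _).ne').trans ?_
    rw [relIndex_sup_of_Nm (zpowers_le.2 (c.St_le_Nm_QQ α (RR_le_St h haR)))]
    refine (Nat.le_of_dvd Nat.card_pos (relIndex_dvd_card _ _)).trans ?_
    rw [Nat.card_zpowers]
    exact orderOf_le_of_pow_eq_one hp.out.pos hap
  have hYp : IsPGroup p (YY G Γ p α) := (YY_EA α).isPGroup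
  have hnc : ∀ X ≤ RR G Γ p α β, ¬ X ≤ QQ G Γ p α → p ≤ (Cn X).relIndex (YY G Γ p α) :=
    fun X h1 h2 => le_relIndex_of_not_le hYp fun h3 =>
      h2 fun x hx => c.RR_inf_CY h h0 ⟨h1 hx, le_Cn_comm.1 h3 hx⟩
  have hYn : ∀ {g : G}, g • α = α → ∀ y ∈ YY G Γ p α, ⁅g, y⁆ ∈ YY G Γ p α := fun hg y hy =>
    mul_mem (conj_mem_of_Nm (c.St_le_Nm_YY α hg) hy) (inv_mem hy)
  have hzY : ⁅YY G Γ p α, TT G Γ p α β⁆ ≤ YY G Γ p α :=
    le_normalizer_iff_commutator_le_left.1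
      ((TT_le_RR α β).trans ((RR_le_St h).trans (c.St_le_Nm_YY α)))
  have hzeta : RR G Γ p α β ≤ Cn ⁅YY G Γ p α, TT G Γ p α β⁆ := by
    have haα : a • α = α := RR_le_St h haR
    let φ : YY G Γ p α →* G := MonoidHom.mk' (fun y => ⁅a, (y : G)⁆) fun y y' => by
      rw [coe_mul, commutatorElement_mul_right_eq_mul_conj, mul_assoc, mul_assoc,
        ← mul_assoc (y : G), mem_Cn.1 ((YY_EA α).2 (hYn haα _ y'.2)) y y.2]
      simp
    have hcard : Nat.card φ.range ≤ p := by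
      rw [← index_ker]
      have h1 : (Cn A).subgroupOf (YY G Γ p α) ≤ φ.ker := fun y hy =>
        commutatorElement_eq_one_iff_mul_comm.2 (mem_Cn.1 (mem_subgroupOf.1 hy) a haA)
      refine (index_antitone h1).trans ?_
      refine (thompson_count hA ((YY_le_QQ α).trans (QQ_le_RR α β)) (YY_EA α)
        ((OZ_le_Cn _).trans (Cn_anti inf_le_right))).1.trans ?_
      exact (relIndex_le_of_le_right (EA_le_TT hA.1 hA.2.1) (relIndex_pos _ _).ne').trans hidx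
    have hrY : φ.range ≤ YY G Γ p α := by
      rintro _ ⟨y, rfl⟩; exact hYn haα _ y.2
    have hle : ⁅YY G Γ p α, TT G Γ p α β⁆ ≤ φ.range := by
      have h1 : TT G Γ p α β ≤ CQ (YY G Γ p α) φ.range := by
        refine hTa.trans (sup_le (zpowers_le.2 ⟨mem_Nm_of_cj_le ?_, fun y hy => ⟨⟨y, hy⟩, rfl⟩⟩)
          ((QQ_le_Cn_YY α).trans (Cn_le_CQ hrY)))
        intro z hz
        obtain ⟨_, ⟨y, rfl⟩, rfl⟩ := mem_cj'.1 hz
        refine ⟨⟨_, conj_mem_of_Nm (c.St_le_Nm_YY α haα) y.2⟩, ?_⟩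
        show ⁅a, a * (y : G) * a⁻¹⁆ = a * ⁅a, (y : G)⁆ * a⁻¹
        rw [conjugate_commutatorElement, mul_inv_cancel_right]
      rw [commutator_comm]
      exact commutator_le.2 fun t ht y hy => (h1 ht).2 y hy
    by_cases hb : ⁅YY G Γ p α, TT G Γ p α β⁆ = ⊥
    · rw [hb, Cn_bot]; exact le_top
    · obtain ⟨z, hz, z1, z2, z3⟩ := exists_central (c.RR_pg h) (hYp.to_le hzY)
        (fun g hg => Nm_comm (c.St_le_Nm_YY α (RR_le_St h hg)) (by
          rw [mem_Nm_iff, c.cj_TT, mem_St.1 (RR_le_St h hg), mem_St.1 (RR_le_St' h hg)])) hb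
      have h1 : zpowers z = ⁅YY G Γ p α, TT G Γ p α β⁆ := by
        refine eq_of_le_of_card_ge (zpowers_le.2 hz) ?_
        rw [Nat.card_zpowers, orderOf_eq_prime z3 z1]
        exact (card_le_of_le hle).trans hcard
      rw [← h1]
      exact le_Cn_comm.1 (zpowers_le.2 z2)
  have mem : ∀ {κ}, κ ∈ (datR G Γ p).S α → κ = YY G Γ p α := fun h => h
  refine
    { PB := QQ_le_RR α β
      BS := RR_le_St h
      PK := QQ_le_K α
      BK := c.RR_inf_K h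
      UP := by rw [datR_U]; exact YY_le_QQ α
      PU := by rw [datR_U]; exact QQ_le_Cn_YY α
      ea := by rw [datR_U]; exact YY_EA α
      CU := by rw [datR_U]; exact c.RR_inf_CY h h0
      Une := ?_
      Bn := fun κ hκ => by rw [mem hκ]; exact (RR_le_St h).trans (c.St_le_Nm_YY α)
      PT := fun _ _ => QQ_le_TT α β
      TB := fun _ _ => TT_le_RR α β
      zeta := fun κ hκ => by rw [mem hκ]; exact hzeta
      oth := fun κ hκ κ' hκ' hne => absurd ((mem hκ').trans (mem hκ).symm) hne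
      ncent := ?_
      tr := fun κ hκ κ' hκ' => ⟨1, one_smul _ _, one_smul _ _, by rw [cj_one, mem hκ, mem hκ']⟩
      dec := fun X h1 h2 κ _ x hx => ⟨x, EA_le_TT h1 h2 hx, by simp⟩
      off1 := ?_
      off2 := ?_
      nn := ?_ }
  · rw [datR_U]
    obtain ⟨z, h1, h2, -⟩ := c.exists_z h h0
    exact fun e => h1 (mem_bot.1 (e ▸ h2))
  · intro κ hκ
    rw [mem hκ]
    by_contra hc
    push Not at hc
    have hS : ∀ g ∈ St G α, ∀ y, cj g (TT G Γ p α y) = TT G Γ p α (g • y) := fun g hg y => by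
      rw [c.cj_TT, mem_St.1 hg]
    have hD : JN Γ (TT G Γ p α) α ≤ St G α := JN_le fun y hy => (TT_le_RR α y).trans (RR_le_St hy)
    have hDc : JN Γ (TT G Γ p α) α ≤ Cn ⁅YY G Γ p α, TT G Γ p α β⁆ := JN_le hc
    have t : Tr Γ (JN Γ (TT G Γ p α) α) α := c.sp_tr hD (c.Nm_JN hS) h (le_JN h haT)
      (RR_le_St' h haR) fun h3 => haQ (c.RR_inf_K h ⟨haR, h3⟩)
    have hq : JN Γ (TT G Γ p α) α ≤ CQ (YY G Γ p α) ⁅YY G Γ p α, TT G Γ p α β⁆ := by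
      refine JN_le fun y hy s hs => ⟨Cn_le_Nm _ (hc y hy hs), fun u hu => ?_⟩
      obtain ⟨d, hd, rfl⟩ := t _ _ h hy
      rw [← mem_Nm_iff.1 (Cn_le_Nm _ (hDc hd)), cj_comm, hS d (hD hd), c.cj_YY, mem_St.1 (hD hd),
        commutator_comm]
      exact commutator_mem_commutator hs hu
    refine c.CY_intr h h0 (PF (p := p) h hS hD ((TT_le_RR α β).trans (RR_le_St' h)) t
      (fun _ hg => Nm_inf (Nm_Cn (c.St_le_Nm_YY α hg)) (le_Nm_self _ hg)) fun d hd =>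
        ⟨1, mem_Cn.2 fun y hy => ?_, pow_mem (hD hd) _⟩)
    have h1 := (hq hd).2 y hy
    rw [eq_comm, ← commutatorElement_eq_one_iff_mul_comm, pow_one,
      comm_pow_left (mem_Cn.1 (hDc hd) _ h1).symm]
    exact (YY_EA α).1 _ (hzY h1)
  · intro X h1 h2
    rw [datR_U]
    by_cases h3 : X ≤ QQ G Γ p α
    · exact (relIndex_eq_one.2 h3).le.trans (relIndex_pos _ _)
    · exact ((relIndex_le_of_le_right (EA_le_TT h1 h2) (relIndex_pos _ _).ne').trans hidx).trans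
        (hnc X h1 h3)
  · intro X h1 h2 _ κ hκ h3
    rw [mem hκ] at h3
    obtain ⟨x, hx, h4⟩ := SetLike.not_le_iff_exists.1 fun h4 : X ≤ QQ G Γ p α =>
      h3 (h4.trans (QQ_le_Cn_YY α))
    exact (hT x (h1 hx) (h2.1 x hx) h4).trans (sup_le_sup_right (zpowers_le.2 hx) _)
  · intro κ hκ
    rw [mem hκ]
    exact hidx.trans (hnc _ (TT_le_RR α β) fun h3 => haQ (h3 haT))

theorem Ctx.rankOne (c : Ctx G Γ) {α β : V} (h : Γ.Adj α β)
    (h0 : QQ G Γ p α ⊓ QQ G Γ p β ≠ ⊥)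
    (hrk : ∀ a ∈ RR G Γ p α β, ∀ b ∈ RR G Γ p α β, a ^ p ∈ Kn G Γ 1 α → b ^ p ∈ Kn G Γ 1 α →
      a ∉ Kn G Γ 1 α → ∃ k : ℕ, (a ^ k)⁻¹ * b ∈ Kn G Γ 1 α) :
    ∃ D : Dat G V, D.Equi ∧ D.Loc Γ p α β ∧ D.U α ≤ Cn (QQ G Γ p α) :=
  ⟨datR G Γ p, c.datR_equi, c.datR_loc h h0 hrk, by rw [datR_U]; exact OZ_le_Cn _⟩

end Pool.Agent.Lib.MP_bf45aa_co
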