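import Pool.Agent.Lib.MP_bf45aa_co.Linear2

set_option autoImplicit false
set_option linter.unusedSectionVars false

/-! An elementary abelian section viewed as a module. -/

namespace Pool.Agent.Lib.MP_bf45aa_co

open Subgroup
open scoped commutatorElement Pointwise

/-- The section `Y₁ / Y₀` as a faithful module `W` for the quotient `X` of `H`. -/
structure Rep {G X W : Type*} [Group G] [Group X] [AddCommGroup W] [DistribMulAction X W]
    (H Y₁ Y₀ : Subgroup G) (φ : G → X) (π : G → W) : Prop where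
  le : Y₀ ≤ Y₁
  n1 : H ≤ Nm Y₁
  n0 : H ≤ Nm Y₀
  φ_mul : ∀ a ∈ H, ∀ b ∈ H, φ (a * b) = φ a * φ b
  φ_surj : ∀ x, ∃ a ∈ H, φ a = x
  π_mul : ∀ a ∈ Y₁, ∀ b ∈ Y₁, π (a * b) = π a + π b
  π_surj : ∀ w, ∃ y ∈ Y₁, π y = w
  π_zero : ∀ y ∈ Y₁, π y = 0 ↔ y ∈ Y₀
  π_conj : ∀ h ∈ H, ∀ y ∈ Y₁, π (h * y * h⁻¹) = φ h • π y
  faith : ∀ x : X, (∀ w : W, x • w = w) → x = 1

universe u

theorem exists_Rep {G : Type u} [Group G] [Finite G] {p : ℕ} {H Y₁ Y₀ : Subgroup G}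
    (hle : Y₀ ≤ Y₁) (n1 : H ≤ Nm Y₁) (n0 : H ≤ Nm Y₀) (hE : EA p Y₁) :
    ∃ (X W : Type u) (_ : Group X) (_ : Finite X) (_ : AddCommGroup W) (_ : Module (ZMod p) W)
      (_ : Finite W) (_ : DistribMulAction X W) (_ : SMulCommClass X (ZMod p) W)
      (φ : G → X) (π : G → W), Rep H Y₁ Y₀ φ π := by
  classical
  let _ : CommGroup Y₁ :=
    { (inferInstance : Group Y₁) with
      mul_comm := fun a b => Subtype.ext (mem_Cn.1 (hE.2 b.2) a a.2) }
  let N := Y₀.subgroupOf Y₁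
  let W := Additive (Y₁ ⧸ N)
  let _ : Module (ZMod p) W := AddCommGroup.zmodModule fun w => by
    obtain ⟨y, hy⟩ := QuotientGroup.mk_surjective w.toMul
    apply Additive.toMul.injective
    rw [toMul_nsmul, ← hy, ← QuotientGroup.mk_pow, toMul_zero]
    exact congrArg _ (Subtype.ext (hE.1 y y.2))
  let _ : MulDistribMulAction H Y₁ := MulDistribMulAction.compHom Y₁ (inclusion n1)
  let ψ : H → (Y₁ ⧸ N) →* (Y₁ ⧸ N) := fun h =>
    QuotientGroup.map N N (MulDistribMulAction.toMonoidHom Y₁ h)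
      fun y hy => conj_mem_of_Nm (n0 h.2) hy
  let _ : MulAction H W :=
    { smul := fun h w => Additive.ofMul (ψ h w.toMul)
      one_smul := fun w => by
        obtain ⟨y, hy⟩ := QuotientGroup.mk_surjective w.toMul
        apply Additive.toMul.injective
        show ψ 1 w.toMul = w.toMul
        rw [← hy]
        exact congrArg _ (one_smul H y)
      mul_smul := fun a b w => by
        obtain ⟨y, hy⟩ := QuotientGroup.mk_surjective w.toMul
        apply Additive.toMul.injective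
        show ψ (a * b) w.toMul = ψ a (ψ b w.toMul)
        rw [← hy]
        exact congrArg _ (mul_smul a b y) }
  let X := (MulAction.toPermHom H W).range
  let _ : DistribMulAction X W :=
    { smul := fun x w => (x : Equiv.Perm W) w
      one_smul := fun _ => rfl
      mul_smul := fun _ _ _ => rfl
      smul_zero := by
        rintro ⟨_, h, rfl⟩
        exact congrArg Additive.ofMul (map_one (ψ h))
      smul_add := by
        rintro ⟨_, h, rfl⟩ v w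
        exact congrArg Additive.ofMul (map_mul (ψ h) v.toMul w.toMul) }
  have : SMulCommClass X (ZMod p) W :=
    ⟨fun x t w => ZMod.map_smul (DistribSMul.toAddMonoidHom W x) t w⟩
  refine ⟨X, W, inferInstance, inferInstance, inferInstance, inferInstance, inferInstance,
    inferInstance, this,
    fun g => if h : g ∈ H then (MulAction.toPermHom H W).rangeRestrict ⟨g, h⟩ else 1,
    fun g => if h : g ∈ Y₁ then Additive.ofMul (QuotientGroup.mk ⟨g, h⟩) else 0,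
    hle, n1, n0, ?_, ?_, ?_, ?_, ?_, ?_, ?_⟩
  · intro a ha b hb
    rw [dif_pos ha, dif_pos hb, dif_pos (mul_mem ha hb), ← map_mul]; rfl
  · rintro ⟨_, h, rfl⟩
    exact ⟨h, h.2, by rw [dif_pos h.2]; rfl⟩
  · intro a ha b hb
    rw [dif_pos ha, dif_pos hb, dif_pos (mul_mem ha hb)]; rfl
  · intro w
    obtain ⟨y, hy⟩ := QuotientGroup.mk_surjective w.toMul
    exact ⟨y, y.2, by rw [dif_pos y.2]; exact congrArg Additive.ofMul hy⟩
  · intro y hy
    rw [dif_pos hy]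
    exact QuotientGroup.eq_one_iff (N := N) (⟨y, hy⟩ : Y₁)
  · intro h hh y hy
    rw [dif_pos hh, dif_pos hy, dif_pos (conj_mem_of_Nm (n1 hh) hy)]; rfl
  · intro x hx
    exact Subtype.ext (Equiv.ext hx)

variable {G X W : Type*} [Group G] [Group X] [AddCommGroup W] [DistribMulAction X W]
  {H Y₁ Y₀ : Subgroup G} {φ : G → X} {π : G → W}

namespace Rep

variable (R : Rep H Y₁ Y₀ φ π)
include R

/-- The bundled homomorphism on `H`. -/
def hom : H →* X := MonoidHom.mk' (fun h => φ h) fun a b => R.φ_mul a a.2 b b.2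

/-- The bundled homomorphism on `Y₁`. -/
def homY : Y₁ →* Multiplicative W :=
  MonoidHom.mk' (fun y => Multiplicative.ofAdd (π y)) fun a b => congrArg _ (R.π_mul a a.2 b b.2)

theorem φ_one : φ 1 = 1 := map_one R.hom

theorem φ_inv {a : G} (ha : a ∈ H) : φ a⁻¹ = (φ a)⁻¹ := map_inv R.hom ⟨a, ha⟩

theorem φ_pow {a : G} (ha : a ∈ H) (n : ℕ) : φ (a ^ n) = φ a ^ n := map_pow R.hom ⟨a, ha⟩ n

theorem φ_conj {g a : G} (hg : g ∈ H) (ha : a ∈ H) : φ (g * a * g⁻¹) = φ g * φ a * (φ g)⁻¹ := by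
  rw [R.φ_mul _ (mul_mem hg ha) _ (inv_mem hg), R.φ_mul _ hg _ ha, R.φ_inv hg]

theorem π_one : π 1 = 0 := (R.π_zero 1 (one_mem _)).2 (one_mem _)

theorem π_inv {a : G} (ha : a ∈ Y₁) : π a⁻¹ = -π a :=
  congrArg Multiplicative.toAdd (map_inv R.homY ⟨a, ha⟩)

theorem π_pow {a : G} (ha : a ∈ Y₁) (n : ℕ) : π (a ^ n) = n • π a :=
  congrArg Multiplicative.toAdd (map_pow R.homY ⟨a, ha⟩ n)

theorem comm_mem {h y : G} (hh : h ∈ H) (hy : y ∈ Y₁) : ⁅h, y⁆ ∈ Y₁ :=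
  mul_mem (conj_mem_of_Nm (R.n1 hh) hy) (inv_mem hy)

theorem π_comm {h y : G} (hh : h ∈ H) (hy : y ∈ Y₁) : π ⁅h, y⁆ = φ h • π y - π y := by
  rw [commutatorElement_def, R.π_mul _ (conj_mem_of_Nm (R.n1 hh) hy) _ (inv_mem hy), R.π_inv hy,
    R.π_conj h hh y hy, sub_eq_add_neg]

theorem fix_of_comm {h y : G} (hh : h ∈ H) (hy : y ∈ Y₁) (e : y * h = h * y) :
    φ h • π y = π y := by
  rw [← R.π_conj h hh y hy, ← e, mul_inv_cancel_right]

theorem φ_eq_one {h : G} (hh : h ∈ H) : φ h = 1 ↔ h ∈ CQ Y₁ Y₀ := by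
  constructor
  · intro e
    refine ⟨R.n0 hh, fun y hy => (R.π_zero _ (R.comm_mem hh hy)).1 ?_⟩
    rw [R.π_comm hh hy, e, one_smul, sub_self]
  · intro e
    refine R.faith _ fun w => ?_
    obtain ⟨y, hy, rfl⟩ := R.π_surj w
    rw [← sub_eq_zero, ← R.π_comm hh hy]
    exact (R.π_zero _ (R.comm_mem hh hy)).2 (e.2 y hy)

/-- Image of a subgroup. -/
def bar (S : Subgroup G) : Subgroup X := (S.subgroupOf H).map R.hom

theorem mem_bar {S : Subgroup G} {x : X} : x ∈ R.bar S ↔ ∃ s ∈ S, s ∈ H ∧ φ s = x :=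
  ⟨fun ⟨s, h1, h2⟩ => ⟨s, h1, s.2, h2⟩, fun ⟨s, h1, h2, h3⟩ => ⟨⟨s, h2⟩, h1, h3⟩⟩

theorem φ_mem_bar {S : Subgroup G} {s : G} (h1 : s ∈ S) (h2 : s ∈ H) : φ s ∈ R.bar S :=
  R.mem_bar.2 ⟨s, h1, h2, rfl⟩

theorem bar_mono {S T : Subgroup G} (h : S ≤ T) : R.bar S ≤ R.bar T := map_mono (comap_mono h)

theorem card_bar {S : Subgroup G} (h : S ≤ H) : Nat.card (R.bar S) = (CQ Y₁ Y₀).relIndex S := by
  have e : R.hom.ker = (CQ Y₁ Y₀).subgroupOf H := by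
    ext g; exact R.φ_eq_one g.2
  rw [bar, ← relIndex_ker, e, relIndex_subgroupOf h]

theorem Nm_bar {S : Subgroup G} {g : G} (hg : g ∈ H) (h : g ∈ Nm S) {x : X} (hx : x ∈ R.bar S) :
    φ g * x * (φ g)⁻¹ ∈ R.bar S := by
  obtain ⟨s, h1, h2, rfl⟩ := R.mem_bar.1 hx
  rw [← R.φ_conj hg h2]
  exact R.φ_mem_bar (conj_mem_of_Nm h h1) (H.mul_mem (H.mul_mem hg h2) (inv_mem hg))

theorem bar_normal {S : Subgroup G} (h : H ≤ Nm S) : (R.bar S).Normal :=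
  ⟨fun x hx g => by
    obtain ⟨g, hg, rfl⟩ := R.φ_surj g
    exact R.Nm_bar hg (h hg) hx⟩

theorem bar_pg {p : ℕ} {S : Subgroup G} (h : IsPGroup p S) : IsPGroup p (R.bar S) :=
  h.comap_subtype.map _

theorem bar_EA {p : ℕ} {S : Subgroup G} (h : EA p S) : EA p (R.bar S) := by
  refine ⟨fun x hx => ?_, fun x hx => mem_Cn.2 fun y hy => ?_⟩
  · obtain ⟨s, h1, h2, rfl⟩ := R.mem_bar.1 hx
    rw [← R.φ_pow h2, h.1 s h1, R.φ_one]
  · obtain ⟨s, h1, h2, rfl⟩ := R.mem_bar.1 hx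
    obtain ⟨t, k1, k2, rfl⟩ := R.mem_bar.1 hy
    rw [← R.φ_mul _ k2 _ h2, ← R.φ_mul _ h2 _ k2, mem_Cn.1 (h.2 h1) t k1]

variable {p : ℕ} [Module (ZMod p) W]

/-- Preimage of a submodule. -/
def pre (M : Submodule (ZMod p) W) : Subgroup G where
  carrier := {y | y ∈ Y₁ ∧ π y ∈ M}
  one_mem' := ⟨one_mem _, by rw [R.π_one]; exact zero_mem _⟩
  mul_mem' := fun {a b} ha hb =>
    ⟨mul_mem ha.1 hb.1, by rw [R.π_mul _ ha.1 _ hb.1]; exact add_mem ha.2 hb.2⟩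
  inv_mem' := fun {a} ha => ⟨inv_mem ha.1, by rw [R.π_inv ha.1]; exact neg_mem ha.2⟩

theorem mem_pre {M : Submodule (ZMod p) W} {y : G} : y ∈ R.pre M ↔ y ∈ Y₁ ∧ π y ∈ M := Iff.rfl

theorem pre_le (M : Submodule (ZMod p) W) : R.pre M ≤ Y₁ := fun _ h => h.1

theorem le_pre (M : Submodule (ZMod p) W) : Y₀ ≤ R.pre M := fun y h =>
  ⟨R.le h, by rw [(R.π_zero y (R.le h)).2 h]; exact zero_mem _⟩

theorem pre_mono {M N : Submodule (ZMod p) W} (h : M ≤ N) : R.pre M ≤ R.pre N :=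
  fun _ hy => ⟨hy.1, h hy.2⟩

theorem pre_index (M : Submodule (ZMod p) W) :
    (R.pre M).relIndex Y₁ * Nat.card M = Nat.card W := by
  have e : (R.pre M).subgroupOf Y₁ = (AddSubgroup.toSubgroup M.toAddSubgroup).comap R.homY := by
    ext y; exact ⟨fun h => h.2, fun h => ⟨y.2, h⟩⟩
  rw [relIndex, e, index_comap_of_surjective _ (fun w => by
    obtain ⟨y, hy, h⟩ := R.π_surj w.toAdd
    exact ⟨⟨y, hy⟩, congrArg Multiplicative.ofAdd h⟩), AddSubgroup.index_toSubgroup]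
  exact AddSubgroup.index_mul_card M.toAddSubgroup

/-- Image of a subgroup of `Y₁`. -/
def img [NeZero p] (U : Subgroup G) : Submodule (ZMod p) W where
  carrier := {w | ∃ y ∈ U, y ∈ Y₁ ∧ π y = w}
  add_mem' := by
    rintro _ _ ⟨a, a1, a2, rfl⟩ ⟨b, b1, b2, rfl⟩
    exact ⟨a * b, mul_mem a1 b1, mul_mem a2 b2, R.π_mul a a2 b b2⟩
  zero_mem' := ⟨1, one_mem _, one_mem _, R.π_one⟩
  smul_mem' := by
    rintro t _ ⟨a, a1, a2, rfl⟩
    exact ⟨a ^ t.val, pow_mem a1 _, pow_mem a2 _, by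
      rw [R.π_pow a2, ← Nat.cast_smul_eq_nsmul (ZMod p), ZMod.natCast_zmod_val]⟩

theorem irr (h : ∀ M : Subgroup G, Y₀ ≤ M → M ≤ Y₁ → H ≤ Nm M → M = Y₀ ∨ M = Y₁)
    (M : Submodule (ZMod p) W) (hM : ∀ x : X, ∀ w ∈ M, x • w ∈ M) : M = ⊥ ∨ M = ⊤ := by
  rcases h (R.pre M) (R.le_pre M) (R.pre_le M) (le_Nm_of_conj fun g hg y hy =>
    ⟨conj_mem_of_Nm (R.n1 hg) hy.1, by rw [R.π_conj g hg y hy.1]; exact hM _ _ hy.2⟩) with e | e
  · refine Or.inl (eq_bot_iff.2 fun w hw => ?_)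
    obtain ⟨y, hy, rfl⟩ := R.π_surj w
    exact (R.π_zero y hy).2 (e ▸ (⟨hy, hw⟩ : y ∈ R.pre M))
  · refine Or.inr (eq_top_iff.2 fun w _ => ?_)
    obtain ⟨y, hy, rfl⟩ := R.π_surj w
    exact (e.symm ▸ hy : y ∈ R.pre M).2

variable [SMulCommClass X (ZMod p) W]

theorem cj_pre {g : G} (hg : g ∈ H) (M : Submodule (ZMod p) W) :
    cj g (R.pre M) = R.pre (φ g • M) := by
  ext y
  constructor
  · intro hy
    obtain ⟨u, hu, rfl⟩ := mem_cj'.1 hy
    exact ⟨conj_mem_of_Nm (R.n1 hg) hu.1, by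
      rw [R.π_conj g hg u hu.1]; exact Submodule.smul_mem_pointwise_smul _ _ _ hu.2⟩
  · rintro ⟨h1, h2⟩
    obtain ⟨v, hv, e⟩ := (Submodule.mem_smul_pointwise_iff_exists _ _ _).1 h2
    refine mem_cj.2 ⟨conj_mem_of_Nm' (R.n1 hg) h1, ?_⟩
    have := R.π_conj g⁻¹ (inv_mem hg) y h1
    rw [inv_inv] at this
    rwa [this, ← e, R.φ_inv hg, inv_smul_smul]

theorem Cn_le_pre {S : Subgroup G} : Cn S ⊓ Y₁ ≤ R.pre (Fx p W (R.bar S)) := fun y hy =>
  ⟨hy.2, fun x hx => by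
    obtain ⟨s, h1, h2, rfl⟩ := R.mem_bar.1 hx
    exact R.fix_of_comm h2 hy.2 (mem_Cn.1 hy.1 s h1).symm⟩

end Rep

end Pool.Agent.Lib.MP_bf45aa_co
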