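import Pool.Agent.Lib.MP_bf45aa_co.Rep

set_option autoImplicit false
set_option linter.unusedSectionVars false

/-! Choice of the irreducible section and the linear situation. -/

namespace Pool.Agent.Lib.MP_bf45aa_co

open Subgroup
open scoped commutatorElement Pointwise

section GroupPart

variable {G : Type*} [Group G]

theorem pow_mul_inv_mem {C : Subgroup G} {c r : G} (hc : c ∈ C) (hr : r ∈ Nm C) (m : ℕ) :
    (c * r) ^ m * (r ^ m)⁻¹ ∈ C := by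
  induction m with
  | zero => simp
  | succ m ih =>
    have := mul_mem ih (conj_mem_of_Nm (pow_mem hr m) hc)
    have e : (c * r) ^ (m + 1) * (r ^ (m + 1))⁻¹ =
        (c * r) ^ m * (r ^ m)⁻¹ * (r ^ m * c * (r ^ m)⁻¹) := by
      rw [pow_succ, pow_succ]; group
    rwa [e]

theorem stab2 {p : ℕ} {Y₀ M Y₁ : Subgroup G} (hM : M ≤ Y₁) (hE : EA p Y₁) {g : G}
    (h1 : g ∈ CQ Y₁ M) (h2 : g ∈ CQ M Y₀) : g ^ p ∈ CQ Y₁ Y₀ := by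
  refine ⟨pow_mem h2.1 p, fun y hy => ?_⟩
  have hc := h1.2 y hy
  have key : ∀ n : ℕ, ⁅g ^ n, y⁆ * (⁅g, y⁆ ^ n)⁻¹ ∈ Y₀ := by
    intro n
    induction n with
    | zero => simp
    | succ n ih =>
      have := mul_mem (conj_mem_of_Nm h2.1 ih) (h2.2 _ (pow_mem hc n))
      have e : ⁅g ^ (n + 1), y⁆ * (⁅g, y⁆ ^ (n + 1))⁻¹ =
          g * (⁅g ^ n, y⁆ * (⁅g, y⁆ ^ n)⁻¹) * g⁻¹ * ⁅g, ⁅g, y⁆ ^ n⁆ := by
        rw [pow_succ', commutatorElement_mul_left_eq_conj_mul, pow_succ,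
          commutatorElement_def g (⁅g, y⁆ ^ n)]
        group
      rwa [e]
  simpa [hE.1 _ (hM hc)] using key p

theorem le_of_relIndex_le [Finite G] {A B Y : Subgroup G} (h1 : A ≤ B) (h2 : B ≤ Y)
    (h : A.relIndex Y ≤ B.relIndex Y) : B ≤ A := by
  have h3 := relIndex_mul_relIndex A B Y h1 h2
  have h4 := relIndex_pos B Y
  have h5 := relIndex_pos A B
  rw [← relIndex_eq_one]
  nlinarith

theorem cover_of_relIndex_le [Finite G] {C Y Y' : Subgroup G} (h1 : Y ≤ Y')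
    (h : C.relIndex Y' ≤ C.relIndex Y) {u : G} (hu : u ∈ Y') : ∃ y ∈ Y, y⁻¹ * u ∈ C := by
  have h2 := ((quotientSubgroupOfEmbeddingOfLE C h1).injective.bijective_of_nat_card_le h).2
  obtain ⟨q, hq⟩ := h2 (QuotientGroup.mk ⟨u, hu⟩)
  obtain ⟨y, rfl⟩ := QuotientGroup.mk_surjective q
  rw [quotientSubgroupOfEmbeddingOfLE_apply_mk] at hq
  have h3 := QuotientGroup.eq.1 hq
  exact ⟨y, y.2, mem_subgroupOf.1 h3⟩

end GroupPart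

variable {V G : Type*} [Group G] [MulAction G V] {Γ : SimpleGraph V} [Finite G] {p : ℕ}
  [hp : Fact p.Prime]

theorem Ctx.RR_fam (c : Ctx G Γ) (α : V) :
    ∀ g ∈ St G α, ∀ y, cj g (RR G Γ p α y) = RR G Γ p α (g • y) := fun g hg y => by
  rw [c.cj_RR, mem_St.1 hg]

theorem JN_RR_le (α : V) : JN Γ (RR G Γ p α) α ≤ St G α := JN_le fun _ hy => RR_le_St hy

theorem Ctx.JN_RR_tr (c : Ctx G Γ) {α β : V} (h : Γ.Adj α β)
    (h0 : QQ G Γ p α ⊓ QQ G Γ p β ≠ ⊥) : Tr Γ (JN Γ (RR G Γ p α) α) α := by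
  obtain ⟨A, hA, hAQ⟩ := c.exists_AA h h0
  obtain ⟨a, ha, haQ⟩ := SetLike.not_le_iff_exists.1 hAQ
  exact c.sp_tr (JN_RR_le α) (c.Nm_JN (c.RR_fam α)) h (le_JN h (hA.1 ha)) (RR_le_St' h (hA.1 ha))
    fun h1 => haQ (c.RR_inf_K h ⟨hA.1 ha, h1⟩)

theorem Ctx.JN_RR_pow (c : Ctx G Γ) {α β : V} (h : Γ.Adj α β) {C : Subgroup G} (h1 : C ≤ St G α)
    (h2 : St G α ≤ Nm C) (t : Tr Γ C α) {d : G} (hd : d ∈ JN Γ (RR G Γ p α) α) :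
    ∃ k, d ^ p ^ k ∈ C := by
  have h3 : JN Γ (RR G Γ p α) α ≤ C ⊔ RR G Γ p α β := by
    refine JN_le fun y hy => ?_
    obtain ⟨n, hn, rfl⟩ := t _ _ h hy
    rw [← c.RR_fam α n (h1 hn)]
    intro a ha
    obtain ⟨r, hr, rfl⟩ := mem_cj'.1 ha
    exact mul_mem (mul_mem (mem_sup_left hn) (mem_sup_right hr)) (mem_sup_left (inv_mem hn))
  obtain ⟨n, hn, r, hr, rfl⟩ := mem_sup_of_right_Nm ((RR_le_St h).trans h2) (h3 hd)
  obtain ⟨k, hk⟩ := c.RR_pg h ⟨r, hr⟩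
  have h4 := pow_mul_inv_mem hn (h2 (RR_le_St h hr)) (p ^ k)
  have h5 : r ^ p ^ k = 1 := congrArg Subtype.val hk
  exact ⟨k, by simpa [h5] using h4⟩

theorem Nm_CQ {Y₁ Y₀ : Subgroup G} {g : G} (h1 : g ∈ Nm Y₁) (h0 : g ∈ Nm Y₀) :
    g ∈ Nm (CQ Y₁ Y₀) := by
  rw [mem_Nm_iff] at *; rw [cj_CQ, h1, h0]

theorem Ctx.exists_section (c : Ctx G Γ) {α β : V} (h : Γ.Adj α β)
    (h0 : QQ G Γ p α ⊓ QQ G Γ p β ≠ ⊥) : ∃ Y₁ Y₀ : Subgroup G, Y₀ ≤ Y₁ ∧ Y₁ ≤ YY G Γ p α ∧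
      St G α ≤ Nm Y₁ ∧ St G α ≤ Nm Y₀ ∧ ¬ Tr Γ (CQ Y₁ Y₀ ⊓ St G α) α ∧
      ∀ M : Subgroup G, Y₀ ≤ M → M ≤ Y₁ → St G α ≤ Nm M → M = Y₀ ∨ M = Y₁ := by
  obtain ⟨Y₁, ⟨a1, a2, a3⟩, hmin⟩ := Set.Finite.exists_minimalFor (fun N : Subgroup G => N)
    {Y₁ | Y₁ ≤ YY G Γ p α ∧ St G α ≤ Nm Y₁ ∧
      ∃ Y₀, Y₀ ≤ Y₁ ∧ St G α ≤ Nm Y₀ ∧ ¬ Tr Γ (CQ Y₁ Y₀ ⊓ St G α) α} (Set.toFinite _)
    ⟨YY G Γ p α, le_rfl, c.St_le_Nm_YY α, ⊥, bot_le, fun g _ => mem_Nm_iff.2 (cj_bot g),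
      fun t => c.CY_intr h h0 (t.mono (inf_le_inf_right _ (CQ_bot _)))⟩
  obtain ⟨Y₀, ⟨b1, b2, b3⟩, hmax⟩ := Set.Finite.exists_maximalFor (fun N : Subgroup G => N)
    {Y₀ | Y₀ ≤ Y₁ ∧ St G α ≤ Nm Y₀ ∧ ¬ Tr Γ (CQ Y₁ Y₀ ⊓ St G α) α} (Set.toFinite _) a3
  refine ⟨Y₁, Y₀, b1, a1, a2, b2, b3, fun M m1 m2 m3 => ?_⟩
  by_contra hc
  push Not at hc
  have t1 : Tr Γ (CQ Y₁ M ⊓ St G α) α := by
    by_contra t
    exact hc.1 (le_antisymm (hmax ⟨m2, m3, t⟩ m1) m1)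
  have t2 : Tr Γ (CQ M Y₀ ⊓ St G α) α := by
    by_contra t
    exact hc.2 (le_antisymm m2 (hmin ⟨m2.trans a1, m3, Y₀, m1, b2, t⟩ m2))
  refine b3 (PF (p := p) h (c.RR_fam α) (JN_RR_le α) (RR_le_St' h) (c.JN_RR_tr h h0)
    (fun g hg => Nm_inf (Nm_CQ (a2 hg) (b2 hg)) (le_Nm_self _ hg)) fun d hd => ?_)
  obtain ⟨k, hk⟩ := c.JN_RR_pow h inf_le_right
    (fun g hg => Nm_inf (Nm_CQ (a2 hg) (m3 hg)) (le_Nm_self _ hg)) t1 hd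
  obtain ⟨l, hl⟩ := c.JN_RR_pow h inf_le_right
    (fun g hg => Nm_inf (Nm_CQ (m3 hg) (b2 hg)) (le_Nm_self _ hg)) t2 hd
  refine ⟨k + l + 1, ?_, pow_mem (JN_RR_le α hd) _⟩
  rw [pow_succ, pow_mul]
  refine stab2 m2 ((YY_EA α).mono a1) ?_ ?_
  · rw [pow_add, pow_mul]; exact pow_mem hk.1 _
  · rw [pow_add, mul_comm, pow_mul]; exact pow_mem hl.1 _

/-- A transitive normal subgroup of the vertex stabiliser is `p`-soluble on the neighbours. -/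
def HypA (G : Type*) [Group G] [MulAction G V] (Γ : SimpleGraph V) (p : ℕ) (α : V) : Prop :=
  ∃ (N : ℕ → Subgroup G) (n : ℕ), N 0 ≤ St G α ∧ St G α ≤ Nm (N 0) ∧ Tr Γ (N 0) α ∧
    (∀ i < n, N (i + 1) ≤ N i ∧ N i ≤ Nm (N (i + 1)) ∧ Step p (N i) (N (i + 1))) ∧
    N n ≤ Kn G Γ 1 α

theorem Ctx.JN_RR_CQ (c : Ctx G Γ) (α : V) :
    JN Γ (RR G Γ p α) α ≤ CQ (Kn G Γ 1 α) (QQ G Γ p α) := by
  refine JN_le fun y hy => sup_le (fun q hq => ⟨le_Nm_self _ hq, fun k hk => ?_⟩)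
    fun q hq => ⟨c.St_le_Nm_QQ α (Kn_le_St_adj 0 hy.symm (QQ_le_K y hq)), fun k hk => ?_⟩
  · have := mul_mem hq (conj_mem_of_Nm (c.St_le_Nm_QQ α (Kn_le_St 1 α hk)) (inv_mem hq))
    simpa [commutatorElement_def, mul_assoc] using this
  · refine c.RR_inf_K hy ⟨mem_sup_right ?_, ?_⟩
    · have := mul_mem hq (conj_mem_of_Nm (c.St_le_Nm_QQ y (Kn_le_St_adj 0 hy hk)) (inv_mem hq))
      simpa [commutatorElement_def, mul_assoc] using this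
    · exact (Kn G Γ 1 α).mul_mem
        (conj_mem_of_Nm (c.St_le_Nm_Kn 1 α (Kn_le_St_adj 0 hy.symm (QQ_le_K y hq))) hk) (inv_mem hk)

variable {X W : Type*} [Group X] [Finite X] [AddCommGroup W]
  [Module (ZMod p) W] [Finite W] [DistribMulAction X W] [SMulCommClass X (ZMod p) W]
  {Y₁ Y₀ : Subgroup G} {φ : G → X} {π : G → W}

theorem Ctx.lc (c : Ctx G Γ) {α β : V} (h : Γ.Adj α β) (R : Rep (St G α) Y₁ Y₀ φ π)
    (hY : Y₁ ≤ YY G Γ p α)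
    (hirr : ∀ M : Subgroup G, Y₀ ≤ M → M ≤ Y₁ → St G α ≤ Nm M → M = Y₀ ∨ M = Y₁)
    (hA : HypA G Γ p α) :
    LC p W (R.bar (JN Γ (RR G Γ p α) α)) (core (· ≠ p) (R.bar (JN Γ (RR G Γ p α) α))) := by
  obtain ⟨N, n, n1, n2, n3, n4, n5⟩ := hA
  have hD := R.bar_normal (c.Nm_JN (c.RR_fam (p := p) α))
  set D := R.bar (JN Γ (RR G Γ p α) α) with hDdef
  have hDn : ∀ g : X, g ∈ Nm D := fun g => by rw [Nm, normalizer_eq_top]; exact mem_top g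
  refine ⟨R.faith, R.irr hirr, hD, ⟨fun x hx g => conj_mem_of_Nm (Nm_core (hDn g)) hx⟩,
    isPi_ne_iff.1 (isPi_core _ _), ?_⟩
  refine HH (core_eq_bot R.faith (R.irr hirr) hD) (cons D fun i => D ⊓ R.bar (N i)) (n + 1) rfl
    ?_ ?_
  · intro i hi
    cases i with
    | zero =>
      have := R.bar_normal n2
      refine ⟨inf_le_left, fun g _ => Nm_inf (hDn g) (by
        rw [Nm, normalizer_eq_top]; exact mem_top g), Or.inl fun g hg => ?_⟩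
      obtain ⟨d, d1, d2, rfl⟩ := R.mem_bar.1 hg
      obtain ⟨k, hk⟩ := c.JN_RR_pow h n1 n2 n3 d1
      exact ⟨k, pow_mem hg _, by rw [← R.φ_pow d2]; exact R.φ_mem_bar hk (pow_mem d2 _)⟩
    | succ i =>
      obtain ⟨k1, k2, k3⟩ := n4 i (by omega)
      simp only [cons_succ]
      refine ⟨inf_le_inf_left _ (R.bar_mono k1), le_Nm_of_conj fun g hg a ha =>
        ⟨hD.conj_mem a ha.1 g, ?_⟩, ?_⟩
      · obtain ⟨s, s1, s2, rfl⟩ := R.mem_bar.1 hg.2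
        exact R.Nm_bar s2 (k2 s1) ha.2
      · rcases k3 with k3 | k3 | k3
        · refine Or.inl fun g hg => ?_
          obtain ⟨s, s1, s2, rfl⟩ := R.mem_bar.1 hg.2
          obtain ⟨k, hk⟩ := k3 s s1
          exact ⟨k, pow_mem hg.1 _, by rw [← R.φ_pow s2]; exact R.φ_mem_bar hk (pow_mem s2 _)⟩
        · refine Or.inr (Or.inl fun g hg => ?_)
          obtain ⟨s, s1, s2, rfl⟩ := R.mem_bar.1 hg.2
          obtain ⟨k, hk', hk⟩ := k3 s s1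
          exact ⟨k, hk', pow_mem hg.1 _, by rw [← R.φ_pow s2]; exact R.φ_mem_bar hk (pow_mem s2 _)⟩
        · refine Or.inr (Or.inr fun g hg g' hg' => ⟨D.mul_mem (hD.conj_mem _ hg'.1 _)
            (inv_mem hg'.1), ?_⟩)
          obtain ⟨s, s1, s2, rfl⟩ := R.mem_bar.1 hg.2
          obtain ⟨t, t1, t2, rfl⟩ := R.mem_bar.1 hg'.2
          have k4 : s * t * s⁻¹ ∈ St G α := (St G α).mul_mem ((St G α).mul_mem s2 t2) (inv_mem s2)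
          rw [commutatorElement_def, ← R.φ_conj s2 t2, ← R.φ_inv t2, ← R.φ_mul _ k4 _ (inv_mem t2)]
          exact R.φ_mem_bar (k3 s s1 t t1) (mul_mem k4 (inv_mem t2))
  · simp only [cons_succ]
    intro x hx
    refine mem_Cn.2 fun y hy => ?_
    obtain ⟨s, s1, s2, rfl⟩ := R.mem_bar.1 hx.2
    obtain ⟨t, t1, t2, rfl⟩ := R.mem_bar.1 hy.1
    have k1 := (c.JN_RR_CQ α t1).2 s (n5 s1)
    have k4 : t * s * t⁻¹ ∈ St G α := (St G α).mul_mem ((St G α).mul_mem t2 s2) (inv_mem t2)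
    have k2 := (R.φ_eq_one (mul_mem k4 (inv_mem s2))).2
      (Cn_le_CQ R.le (Cn_anti hY (QQ_le_Cn_YY α k1)))
    rwa [R.φ_mul _ k4 _ (inv_mem s2), R.φ_conj t2 s2, R.φ_inv s2, mul_inv_eq_one,
      mul_inv_eq_iff_eq_mul] at k2

end Pool.Agent.Lib.MP_bf45aa_co
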