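import Pool.Agent.Lib.MP_bf45aa_co.Soluble1

set_option autoImplicit false
set_option linter.unusedSectionVars false

/-! The Baumann subgroup and its action on the section. -/

namespace Pool.Agent.Lib.MP_bf45aa_co

open Subgroup
open scoped commutatorElement Pointwise

variable {V : Type*}

/-- `Ω₁ Z (J R)`. -/
def ZJ (G : Type*) [Group G] [MulAction G V] (Γ : SimpleGraph V) (p : ℕ) (x y : V) : Subgroup G :=
  OZ p (JJ p (RR G Γ p x y))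

/-- The Baumann subgroup. -/
def BB (G : Type*) [Group G] [MulAction G V] (Γ : SimpleGraph V) (p : ℕ) (x y : V) : Subgroup G :=
  RR G Γ p x y ⊓ Cn (ZJ G Γ p x y)

/-- The part of the Baumann subgroups acting trivially on the neighbours. -/
def PP (G : Type*) [Group G] [MulAction G V] (Γ : SimpleGraph V) (p : ℕ) (x : V) : Subgroup G :=
  QQ G Γ p x ⊓ Cn (JN Γ (ZJ G Γ p x) x)

variable {G : Type*} [Group G] [MulAction G V] {Γ : SimpleGraph V} [Finite G] {p : ℕ}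

theorem Ctx.cj_ZJ (c : Ctx G Γ) (g : G) (x y : V) :
    cj g (ZJ G Γ p x y) = ZJ G Γ p (g • x) (g • y) := by
  rw [ZJ, cj_OZ, cj_JJ, c.cj_RR]; rfl

theorem Ctx.cj_BB (c : Ctx G Γ) (g : G) (x y : V) :
    cj g (BB G Γ p x y) = BB G Γ p (g • x) (g • y) := by
  rw [BB, cj_inf, cj_Cn, c.cj_ZJ, c.cj_RR]; rfl

theorem BB_symm (x y : V) : BB G Γ p x y = BB G Γ p y x := by
  rw [BB, BB, ZJ, ZJ, RR_symm]

theorem Ctx.cj_PP (c : Ctx G Γ) (g : G) (x : V) : cj g (PP G Γ p x) = PP G Γ p (g • x) := by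
  have : ∀ (g : G) x, cj g (JN Γ (ZJ G Γ p x) x) = JN Γ (ZJ G Γ p (g • x)) (g • x) := by
    refine cj_eq_of_le (fun (g : G) (x : V) => g • x) act_inv (fun x => JN Γ (ZJ G Γ p x) x) ?_
    intro g x
    rw [cj_le_iff]
    refine JN_le fun y hy => ?_
    rw [← cj_le_iff, c.cj_ZJ]
    exact le_JN (c.adj g hy)
  rw [PP, cj_inf, cj_Cn, this, c.cj_QQ]; rfl

theorem BB_le_RR (x y : V) : BB G Γ p x y ≤ RR G Γ p x y := inf_le_left

theorem JJ_le_BB (x y : V) : JJ p (RR G Γ p x y) ≤ BB G Γ p x y :=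
  le_inf (JJ_le _) (le_Cn_comm.1 (OZ_le_Cn _))

theorem PP_le_QQ (x : V) : PP G Γ p x ≤ QQ G Γ p x := inf_le_left

theorem PP_le_BB {x y : V} (h : Γ.Adj x y) : PP G Γ p x ≤ BB G Γ p x y :=
  inf_le_inf (QQ_le_RR x y) (Cn_anti (le_JN h))

theorem BB_le_St {x y : V} (h : Γ.Adj x y) : BB G Γ p x y ≤ St G x :=
  (BB_le_RR x y).trans (RR_le_St h)

variable {X W : Type*} [Group X] [AddCommGroup W] [Module (ZMod p) W] [DistribMulAction X W]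

/-- Preimage of a subgroup of `X`. -/
def Rep.cmp {H Y₁ Y₀ : Subgroup G} {φ : G → X} {π : G → W} (R : Rep H Y₁ Y₀ φ π)
    (T : Subgroup X) : Subgroup G := (T.comap R.hom).map H.subtype

theorem Rep.mem_cmp {H Y₁ Y₀ : Subgroup G} {φ : G → X} {π : G → W} (R : Rep H Y₁ Y₀ φ π)
    {T : Subgroup X} {g : G} : g ∈ R.cmp T ↔ g ∈ H ∧ φ g ∈ T :=
  ⟨by rintro ⟨h, h1, rfl⟩; exact ⟨h.2, h1⟩, fun h => ⟨⟨g, h.1⟩, h.2, rfl⟩⟩

/-- The situation in the `p`-soluble case. -/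
structure SC (Γ : SimpleGraph V) (p : ℕ) (α : V) [Module (ZMod p) W] (Y₁ Y₀ : Subgroup G)
    (φ : G → X) (π : G → W) (D F : Subgroup X) : Prop where
  c : Ctx G Γ
  R : Rep (St G α) Y₁ Y₀ φ π
  Y : Y₁ ≤ YY G Γ p α
  ker : ∀ y, Γ.Adj α y → CQ Y₁ Y₀ ⊓ RR G Γ p α y ≤ QQ G Γ p α
  ex : ∀ y, Γ.Adj α y → ∃ A ∈ AA p (RR G Γ p α y), ¬ A ≤ QQ G Γ p α
  hD : ∀ y, Γ.Adj α y → ∀ r ∈ RR G Γ p α y, φ r ∈ D
  L : LC p W D F

variable [hp : Fact p.Prime] [Finite X] [Finite W] [SMulCommClass X (ZMod p) W]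
  {α : V} {Y₁ Y₀ : Subgroup G} {φ : G → X} {π : G → W} {D F : Subgroup X}

namespace SC

variable (S : SC Γ p α Y₁ Y₀ φ π D F)
include S

theorem QC : QQ G Γ p α ≤ Cn Y₁ := (QQ_le_Cn_YY α).trans (Cn_anti S.Y)

theorem YQ : Y₁ ≤ QQ G Γ p α := S.Y.trans (YY_le_QQ α)

theorem ea : EA p Y₁ := (YY_EA α).mono S.Y

theorem bar_le_D {y : V} (hy : Γ.Adj α y) {T : Subgroup G} (hT : T ≤ RR G Γ p α y) :
    S.R.bar T ≤ D := fun x hx => by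
  obtain ⟨s, h1, -, rfl⟩ := S.R.mem_bar.1 hx
  exact S.hD y hy s (hT h1)

theorem card_bar {y : V} (hy : Γ.Adj α y) {T : Subgroup G} (hT : T ≤ RR G Γ p α y) :
    Nat.card (S.R.bar T) = (QQ G Γ p α).relIndex T := by
  rw [S.R.card_bar (hT.trans (RR_le_St hy))]
  exact relIndex_congr (le_antisymm (fun a ha => ⟨S.ker y hy ⟨ha.1, hT ha.2⟩, ha.2⟩)
    (inf_le_inf_right _ (S.QC.trans (Cn_le_CQ S.R.le))))

theorem mem_Q {y : V} (hy : Γ.Adj α y) {r : G} (hr : r ∈ RR G Γ p α y) (h1 : φ r = 1) :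
    r ∈ QQ G Γ p α := S.ker y hy ⟨(S.R.φ_eq_one (RR_le_St hy hr)).1 h1, hr⟩

theorem idx1 {y : V} (hy : Γ.Adj α y) {T : Subgroup G} (hT : T ≤ RR G Γ p α y)
    (hE : EA p (S.R.bar T)) :
    Nat.card (S.R.bar T) ≤ (S.R.pre (Fx p W (S.R.bar T))).relIndex Y₁ := by
  have h1 := S.L.l1a _ hE (S.bar_le_D hy hT)
  rw [← S.R.pre_index (Fx p W (S.R.bar T))] at h1
  exact Nat.le_of_mul_le_mul_right h1 Nat.card_pos

theorem idx2 (T : Subgroup G) :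
    (S.R.pre (Fx p W (S.R.bar T))).relIndex Y₁ ≤ (Cn T).relIndex Y₁ := by
  rw [← inf_relIndex_right (Cn T)]
  exact relIndex_le_of_le_left S.R.Cn_le_pre (relIndex_pos _ _).ne'

theorem off {y : V} (hy : Γ.Adj α y) {T : Subgroup G} (hT : T ≤ RR G Γ p α y)
    (hE : EA p (S.R.bar T)) (h : (Cn T).relIndex Y₁ ≤ Nat.card (S.R.bar T)) :
    S.R.pre (Fx p W (S.R.bar T)) ≤ Cn T ∧
      S.R.bar T ≤ closure {a | a ∈ S.R.bar T ∧ Tv p W D a} := by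
  refine ⟨(le_of_relIndex_le S.R.Cn_le_pre (S.R.pre_le _) ?_).trans inf_le_left,
    S.L.l1b _ hE (S.bar_le_D hy hT) ?_⟩
  · rw [inf_relIndex_right]; exact h.trans (S.idx1 hy hT hE)
  · rw [← S.R.pre_index (Fx p W (S.R.bar T))]
    exact Nat.mul_le_mul_right _ ((S.idx2 T).trans h)

theorem AA_facts {y : V} (hy : Γ.Adj α y) {A : Subgroup G} (hA : A ∈ AA p (RR G Γ p α y)) :
    S.R.pre (Fx p W (S.R.bar A)) ≤ Cn A ∧ S.R.bar A ≤ closure {a | a ∈ S.R.bar A ∧ Tv p W D a} ∧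
      (QQ G Γ p α).relIndex A ≤ (Cn A).relIndex Y₁ ∧
      (A ⊓ QQ G Γ p α) ⊔ Y₁ ∈ AA p (RR G Γ p α y) := by
  obtain ⟨h1, h2⟩ := thompson_count hA (S.YQ.trans (QQ_le_RR α y)) S.ea
    ((le_Cn_comm.1 S.QC).trans (Cn_anti inf_le_right))
  have h3 := S.off hy hA.1 (S.R.bar_EA hA.2.1) (by rw [S.card_bar hy hA.1]; exact h1)
  have h4 : (QQ G Γ p α).relIndex A ≤ (Cn A).relIndex Y₁ := by
    rw [← S.card_bar hy hA.1]
    exact (S.idx1 hy hA.1 (S.R.bar_EA hA.2.1)).trans (S.idx2 A)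
  exact ⟨h3.1, h3.2, h4, h2 h4⟩

theorem barJ_le {y : V} (hy : Γ.Adj α y) : S.R.bar (JJ p (RR G Γ p α y)) ≤
    closure {a | a ∈ S.R.bar (JJ p (RR G Γ p α y)) ∧ Tv p W D a} := by
  have : JJ p (RR G Γ p α y) ≤
      S.R.cmp (closure {a | a ∈ S.R.bar (JJ p (RR G Γ p α y)) ∧ Tv p W D a}) :=
    sSup_le fun A hA a ha => S.R.mem_cmp.2 ⟨RR_le_St hy (hA.1 ha),
      Subgroup.closure_mono (h := {a | a ∈ S.R.bar A ∧ Tv p W D a})
        (fun b hb => And.intro (S.R.bar_mono (le_JJ hA) hb.1) hb.2)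
        ((S.AA_facts hy hA).2.1 (S.R.φ_mem_bar ha (RR_le_St hy (hA.1 ha))))⟩
  intro x hx
  obtain ⟨s, h1, -, rfl⟩ := S.R.mem_bar.1 hx
  exact (S.R.mem_cmp.1 (this h1)).2

theorem barJ_fix {y : V} (hy : Γ.Adj α y) {c s : X} (hc : c ∈ S.R.bar (RR G Γ p α y))
    (ht : Tv p W D c) (hs : s ∈ S.R.bar (JJ p (RR G Γ p α y))) (w : W) :
    s • (c • w - w) = c • w - w := by
  have : closure {a | a ∈ S.R.bar (JJ p (RR G Γ p α y)) ∧ Tv p W D a} ≤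
      MulAction.stabilizer X (c • w - w) := (closure_le _).2 fun c' h1 =>
    S.L.fix_of_pgroup (S.R.bar_pg (S.c.RR_pg hy)) ht h1.2 hc (S.R.bar_mono (JJ_le _) h1.1) w
  exact this (S.barJ_le hy hs)

theorem mem_ZJ {y : V} (hy : Γ.Adj α y) {u : G} (hu : u ∈ Y₁)
    (h : ∀ s ∈ S.R.bar (JJ p (RR G Γ p α y)), s • π u = π u) : u ∈ ZJ G Γ p α y := by
  obtain ⟨A, hA, -⟩ := S.ex y hy
  refine ⟨le_JJ (S.AA_facts hy hA).2.2.2 (mem_sup_right hu), mem_Cn_sSup fun A' hA' => ?_,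
    S.ea.1 u hu⟩
  exact (S.AA_facts hy hA').1 ⟨hu, fun s hs => h s (S.R.bar_mono (le_JJ hA') hs)⟩

theorem barB_fix {y : V} (hy : Γ.Adj α y) {c s : X} (hc : c ∈ S.R.bar (RR G Γ p α y))
    (ht : Tv p W D c) (hs : s ∈ S.R.bar (BB G Γ p α y)) (w : W) :
    s • (c • w - w) = c • w - w := by
  have h1 := fun s' hs' => S.barJ_fix hy hc ht (s := s') hs' w
  obtain ⟨r, -, r2, rfl⟩ := S.R.mem_bar.1 hc
  obtain ⟨b, b1, b2, rfl⟩ := S.R.mem_bar.1 hs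
  obtain ⟨u, hu, rfl⟩ := S.R.π_surj w
  rw [← S.R.π_comm r2 hu] at h1 ⊢
  exact S.R.fix_of_comm b2 (S.R.comm_mem r2 hu)
    (mem_Cn.1 b1.2 _ (S.mem_ZJ hy (S.R.comm_mem r2 hu) h1))

theorem J_fam : ∀ g ∈ St G α, ∀ y,
    cj g (JJ p (RR G Γ p α y)) = JJ p (RR G Γ p α (g • y)) := fun g hg y => by
  rw [cj_JJ, S.c.RR_fam α g hg]

theorem JN_J_le : JN Γ (fun y => JJ p (RR G Γ p α y)) α ≤ St G α :=
  JN_le fun _ hy => (JJ_le _).trans (RR_le_St hy)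

theorem JN_J_tr : Tr Γ (JN Γ (fun y => JJ p (RR G Γ p α y)) α) α := by
  intro x y hx
  obtain ⟨A, hA, hAQ⟩ := S.ex x hx
  obtain ⟨a, ha, haQ⟩ := SetLike.not_le_iff_exists.1 hAQ
  exact S.c.sp_tr S.JN_J_le (S.c.Nm_JN S.J_fam) hx (le_JN hx (le_JJ hA ha))
    (RR_le_St' hx (hA.1 ha)) (fun h1 => haQ (S.c.RR_inf_K hx ⟨hA.1 ha, h1⟩)) x y hx

theorem JN_J_pl {j : G} (hj : j ∈ JN Γ (fun y => JJ p (RR G Γ p α y)) α) {a : X}
    (ha : Tv p W D a) : φ j • Pl p W F a = Pl p W F a := by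
  have : JN Γ (fun y => JJ p (RR G Γ p α y)) α ≤ S.R.cmp (MulAction.stabilizer X (Pl p W F a)) := by
    refine JN_le fun y hy s hs => S.R.mem_cmp.2 ⟨RR_le_St hy (JJ_le _ hs), ?_⟩
    exact (closure_le _).2 (fun c hc => S.L.tv_smul_Pl ha hc.2)
      (S.barJ_le hy (S.R.φ_mem_bar hs (RR_le_St hy (JJ_le _ hs))))
  exact (S.R.mem_cmp.1 (this hj)).2

theorem frattini {y : V} (hy : Γ.Adj α y) {g : G} (hg : g ∈ St G α) :
    ∃ k ∈ St G α, k • y = y ∧ ∀ a, Tv p W D a → φ k • Pl p W F a = φ g • Pl p W F a := by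
  obtain ⟨j, hj, e⟩ := S.JN_J_tr _ _ (S.c.adj_St hg hy) hy
  refine ⟨j * g, mul_mem (S.JN_J_le hj) hg, by rw [mul_smul, e], fun a ha => ?_⟩
  rw [S.R.φ_mul _ (S.JN_J_le hj) _ hg, mul_smul, S.L.smul_Pl (φ g), S.JN_J_pl hj (S.L.tv_conj ha _)]

theorem exists_tv {y : V} (hy : Γ.Adj α y) :
    ∃ c, c ∈ S.R.bar (JJ p (RR G Γ p α y)) ∧ Tv p W D c := by
  by_contra hc
  obtain ⟨A, hA, hAQ⟩ := S.ex y hy
  refine hAQ fun a ha => S.mem_Q hy (hA.1 ha) ?_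
  have h1 := S.barJ_le hy (S.R.φ_mem_bar (le_JJ hA ha) (RR_le_St hy (hA.1 ha)))
  exact mem_bot.1 ((closure_le ⊥).2 (fun c h => absurd ⟨c, h⟩ hc) h1)

theorem exists_pl {y : V} (hy : Γ.Adj α y) {a : X} (ha : Tv p W D a) :
    ∃ c, (c ∈ S.R.bar (JJ p (RR G Γ p α y)) ∧ Tv p W D c) ∧ Pl p W F c = Pl p W F a := by
  obtain ⟨c, h1, h2⟩ := S.exists_tv hy
  obtain ⟨g, hg⟩ := S.L.pl_trans h2 ha
  obtain ⟨g, g1, rfl⟩ := S.R.φ_surj g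
  obtain ⟨k, k1, k2, k3⟩ := S.frattini hy g1
  refine ⟨_, ⟨S.R.Nm_bar k1 (by rw [mem_Nm_iff, S.J_fam k k1, k2]) h1, S.L.tv_conj h2 _⟩, ?_⟩
  rw [← S.L.smul_Pl, k3 c h2, S.L.smul_Pl, hg]

theorem eq_one_of_fix {y : V} (hy : Γ.Adj α y) {s : X}
    (h : ∀ a, Tv p W D a → ∀ v ∈ Pl p W F a, s • v = v) : s = 1 := by
  obtain ⟨c, -, h2⟩ := S.exists_tv hy
  exact S.L.eq_one_of_fix h2 fun g => h _ (S.L.tv_conj h2 g)

theorem barB_pg {y : V} (hy : Γ.Adj α y) : IsPGroup p (S.R.bar (BB G Γ p α y)) :=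
  S.R.bar_pg ((S.c.RR_pg hy).to_le (BB_le_RR α y))

theorem barB_le {y : V} (hy : Γ.Adj α y) : S.R.bar (BB G Γ p α y) ≤
    closure {a | a ∈ S.R.bar (JJ p (RR G Γ p α y)) ∧ Tv p W D a} := by
  intro s hs
  obtain ⟨b, hb, h1⟩ := S.L.correct (S.barB_pg hy)
    (C := {a | a ∈ S.R.bar (JJ p (RR G Γ p α y)) ∧ Tv p W D a})
    (fun c hc => ⟨hc.2, S.R.bar_mono (JJ_le_BB α y) hc.1,
      fun s hs => S.barB_fix hy (S.R.bar_mono (JJ_le _) hc.1) hc.2 hs⟩) hs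
  have : b⁻¹ * s = 1 := S.eq_one_of_fix hy fun a ha v hv => by
    obtain ⟨c, c1, c2⟩ := S.exists_pl hy ha
    rw [mul_smul, h1 c c1 v (c2 ▸ hv), inv_smul_smul]
  rwa [← inv_mul_eq_one.1 this]

theorem quad {y : V} (hy : Γ.Adj α y) {s t : X} (hs : s ∈ S.R.bar (BB G Γ p α y))
    (ht : t ∈ S.R.bar (BB G Γ p α y)) (w : W) : s • (t • w - w) = t • w - w := by
  have h1 := S.barB_le hy ht
  clear ht
  induction h1 using closure_induction generalizing w with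
  | mem c hc => exact S.barB_fix hy (S.R.bar_mono (JJ_le _) hc.1) hc.2 hs w
  | one => simp
  | mul a b _ _ ha hb =>
    have : (a * b) • w - w = (a • b • w - b • w) + (b • w - w) := by rw [mul_smul]; abel
    rw [this, smul_add, ha, hb]
  | inv a _ ha =>
    have : a⁻¹ • w - w = -(a • a⁻¹ • w - a⁻¹ • w) := by rw [smul_inv_smul]; abel
    rw [this, smul_neg, ha]

theorem barB_EA {y : V} (hy : Γ.Adj α y) : EA p (S.R.bar (BB G Γ p α y)) := by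
  refine ⟨fun t ht => S.L.faith _ fun w => ?_, fun s hs => mem_Cn.2 fun t ht => ?_⟩
  · rw [pow_smul_of_fix (p := p) (S.quad hy ht ht w)]; simp
  · rw [← inv_mul_eq_one]
    refine S.L.faith _ fun w => ?_
    have h1 := S.quad hy hs ht w
    have h2 := S.quad hy ht hs w
    rw [smul_sub, sub_eq_iff_eq_add] at h1 h2
    rw [mul_smul, inv_smul_eq_iff, mul_smul, mul_smul, h1, h2]
    abel

theorem AQ_mem {y : V} (hy : Γ.Adj α y) {A : Subgroup G} (hA : A ∈ AA p (RR G Γ p α y)) :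
    (A ⊓ QQ G Γ p α) ⊔ Y₁ ≤ JJ p (QQ G Γ p α) := by
  have h := (S.AA_facts hy hA).2.2.2
  exact le_JJ ⟨sup_le inf_le_right S.YQ, h.2.1,
    fun A' h1 h2 => h.2.2 A' (h1.trans (QQ_le_RR α y)) h2⟩

theorem ZJ_le {y : V} (hy : Γ.Adj α y) : ZJ G Γ p α y ≤ OZ p (JJ p (QQ G Γ p α)) := by
  obtain ⟨A, hA, -⟩ := S.ex y hy
  have h := (S.AA_facts hy hA).2.2.2
  have h1 : JJ p (QQ G Γ p α) ≤ JJ p (RR G Γ p α y) :=
    sSup_le_sSup (AA_sub (QQ_le_RR α y) h (sup_le inf_le_right S.YQ))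
  intro z hz
  exact ⟨S.AQ_mem hy hA (AA_absorb h ((OZ_le _).trans (JJ_le _)) (OZ_EA _)
    ((OZ_le_Cn _).trans (Cn_anti (le_JJ h))) hz), Cn_anti h1 hz.2.1, hz.2.2⟩

theorem JN_J_CQ : JN Γ (fun y => JJ p (RR G Γ p α y)) α ≤ CQ (OZ p (JJ p (QQ G Γ p α))) Y₁ := by
  refine JN_le fun y hy => sSup_le fun A hA a ha =>
    ⟨S.R.n1 (RR_le_St hy (hA.1 ha)), fun u hu => ?_⟩
  have h1 := S.AQ_mem hy hA
  have h2 : Y₁ ≤ OZ p (JJ p (QQ G Γ p α)) := fun v hv =>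
    ⟨h1 (mem_sup_right hv), Cn_anti (JJ_le _) (le_Cn_comm.1 S.QC hv), S.ea.1 v hv⟩
  have h3 := (thompson_count hA ((OZ_le _).trans ((JJ_le _).trans (QQ_le_RR α y))) (OZ_EA _)
    ((OZ_le_Cn _).trans (Cn_anti (le_sup_left.trans h1)))).1
  obtain ⟨v, hv, h4⟩ := cover_of_relIndex_le h2 (h3.trans (S.AA_facts hy hA).2.2.1) hu
  have e : ⁅a, u⁆ = ⁅a, v⁆ := by
    rw [← mul_inv_cancel_left v u, commutatorElement_mul_right_eq_mul_conj,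
      commutatorElement_eq_one_iff_mul_comm.2 (mem_Cn.1 h4 a ha)]
    simp
  rw [e]
  exact S.R.comm_mem (RR_le_St hy (hA.1 ha)) hv

theorem BQ_le {y : V} (hy : Γ.Adj α y) : BB G Γ p α y ⊓ QQ G Γ p α ≤ PP G Γ p α := by
  intro q hq
  refine ⟨hq.2, le_Cn_comm.1 (JN_le fun y' hy' => ?_) (mem_zpowers q)⟩
  obtain ⟨j, hj, rfl⟩ := S.JN_J_tr _ _ hy hy'
  have e : ZJ G Γ p α (j • y) = cj j (ZJ G Γ p α y) := by
    rw [S.c.cj_ZJ, mem_St.1 (S.JN_J_le hj)]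
  rw [e]
  intro a ha
  obtain ⟨z, hz, rfl⟩ := mem_cj'.1 ha
  have h1 := (S.JN_J_CQ hj).2 z (S.ZJ_le hy hz)
  have h2 := mul_mem (le_Cn_comm.1 (zpowers_le.2 (S.QC hq.2)) h1)
    (le_Cn_comm.1 (zpowers_le.2 hq.1.2) hz)
  simpa [commutatorElement_def] using h2

theorem mem_P {y : V} (hy : Γ.Adj α y) {b : G} (hb : b ∈ BB G Γ p α y) (h1 : φ b = 1) :
    b ∈ PP G Γ p α := S.BQ_le hy ⟨hb, S.mem_Q hy hb.1 h1⟩

theorem Y_le_P : Y₁ ≤ PP G Γ p α :=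
  le_inf S.YQ (le_Cn_comm.1 (JN_le fun _ hy =>
    (S.ZJ_le hy).trans ((OZ_le _).trans ((JJ_le _).trans S.QC))))

theorem PC : PP G Γ p α ≤ Cn Y₁ := (PP_le_QQ α).trans S.QC

theorem card_bar' {y : V} (hy : Γ.Adj α y) {T : Subgroup G} (hT : T ≤ BB G Γ p α y) :
    Nat.card (S.R.bar T) = (PP G Γ p α).relIndex T := by
  rw [S.card_bar hy (hT.trans (BB_le_RR α y))]
  exact relIndex_congr (le_antisymm (fun a ha => ⟨S.BQ_le hy ⟨hT ha.2, ha.1⟩, ha.2⟩)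
    (inf_le_inf_right _ (PP_le_QQ α)))

theorem off1 {y : V} (hy : Γ.Adj α y) {T : Subgroup G} (hT : T ≤ BB G Γ p α y) :
    (PP G Γ p α).relIndex T ≤ (Cn T).relIndex Y₁ := by
  rw [← S.card_bar' hy hT]
  exact (S.idx1 hy (hT.trans (BB_le_RR α y)) ((S.barB_EA hy).mono (S.R.bar_mono hT))).trans
    (S.idx2 T)

theorem lift {y : V} (hy : Γ.Adj α y) {T U : Subgroup G} (hU : U ≤ BB G Γ p α y) {b : G}
    (hb : b ∈ BB G Γ p α y) (hT : ∀ t ∈ T, t ∈ St G α → Tv p W D (φ t) → t ∈ U)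
    (h : φ b ∈ closure {a | a ∈ S.R.bar T ∧ Tv p W D a}) : b ∈ U ⊔ PP G Γ p α := by
  have h1 : closure {a | a ∈ S.R.bar T ∧ Tv p W D a} ≤ S.R.bar U := (closure_le _).2 fun a ha => by
    obtain ⟨t, t1, t2, rfl⟩ := S.R.mem_bar.1 ha.1
    exact S.R.φ_mem_bar (hT t t1 t2 ha.2) t2
  obtain ⟨u, u1, u2, e⟩ := S.R.mem_bar.1 (h1 h)
  have h2 : u⁻¹ * b ∈ PP G Γ p α := S.mem_P hy (mul_mem (inv_mem (hU u1)) hb) (by
    rw [S.R.φ_mul _ (inv_mem u2) _ (BB_le_St hy hb), S.R.φ_inv u2, e, inv_mul_cancel])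
  simpa using mul_mem (mem_sup_left u1) (mem_sup_right h2)

theorem same_plane {y : V} (hy : Γ.Adj α y) {b b' : G} (hb : b ∈ BB G Γ p α y)
    (hb' : b' ∈ BB G Γ p α y) (t : Tv p W D (φ b)) (t' : Tv p W D (φ b'))
    (e : Pl p W F (φ b) = Pl p W F (φ b')) {U : Subgroup G} (hU : U ≤ Y₁) (h : b ∈ Cn U) :
    b' ∈ Cn U := by
  have k := S.R.φ_mem_bar hb (BB_le_St hy hb)
  have k' := S.R.φ_mem_bar hb' (BB_le_St hy hb')
  obtain ⟨n, hn⟩ := S.L.acts_pow t (k := 1) (by rw [pow_one]; exact S.L.tv_pow t')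
    (S.quad hy k' k)
  have h1 : (b ^ n)⁻¹ * b' ∈ PP G Γ p α := by
    refine S.mem_P hy (mul_mem (inv_mem (pow_mem hb n)) hb') ?_
    rw [S.R.φ_mul _ (inv_mem (pow_mem (BB_le_St hy hb) n)) _ (BB_le_St hy hb'),
      S.R.φ_inv (pow_mem (BB_le_St hy hb) n), S.R.φ_pow (BB_le_St hy hb)]
    refine S.eq_one_of_fix hy fun a ha v hv => ?_
    rw [mul_smul, inv_smul_eq_iff]
    by_cases h2 : Pl p W F a = Pl p W F (φ b)
    · exact hn v (h2 ▸ hv)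
    · rw [S.L.dich ha t' (e ▸ h2) hv]
      exact (pow_mem (MulAction.mem_stabilizer_iff.2 (S.L.dich ha t h2 hv)) n :).symm
  simpa using mul_mem (pow_mem h n) (Cn_anti hU (S.PC h1))

end SC

end Pool.Agent.Lib.MP_bf45aa_co
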