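import Pool.Agent.Lib.MP_bf45aa_co.Amalgam2

set_option autoImplicit false
set_option linter.unusedSectionVars false

/-! The Thompson-Wielandt type reduction to a single prime. -/

namespace Pool.Agent.Lib.MP_bf45aa_co

open Subgroup
open scoped commutatorElement

variable {V : Type*}

/-- `O_p` of the kernel of the local action. -/
def QQ (G : Type*) [Group G] [MulAction G V] (Γ : SimpleGraph V) (p : ℕ) (x : V) : Subgroup G :=
  core (· = p) (Kn G Γ 1 x)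

variable {G : Type*} [Group G] [MulAction G V] {Γ : SimpleGraph V} [Finite G]

theorem Ctx.cj_QQ (c : Ctx G Γ) (p : ℕ) (g : G) (x : V) :
    cj g (QQ G Γ p x) = QQ G Γ p (g • x) := by
  rw [QQ, cj_core, c.cj_Kn]; rfl

theorem core_SN (π : ℕ → Prop) (X : Subgroup G) : SN (core π X) X :=
  SN.single (core_le π X) fun _ hg => Nm_core (le_Nm_self X hg)

theorem Ctx.reduction [Finite V] (c : Ctx G Γ) {d : ℕ} (hd : ∀ v, (Γ.neighborSet v).ncard ≤ d)
    {α β : V} (h : Γ.Adj α β)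
    (hp : ∀ p : ℕ, p.Prime → QQ G Γ p α ⊓ QQ G Γ p β ≠ ⊥ →
      ∃ D : Dat G V, D.Equi ∧ D.Loc Γ p α β ∧ D.U α ≤ Cn (QQ G Γ p α)) (v : V) :
    Kn G Γ (2 * cb d 1 + 2) v = ⊥ := by
  by_contra hne
  obtain ⟨w, hw⟩ := c.has_nbr h v
  set m := 2 * cb d 1 with hm
  obtain ⟨S, ⟨hS, hS0⟩, hmin⟩ := Set.Finite.exists_minimalFor (fun N : Subgroup G => N)
    {S | SN S (Kn G Γ (m + 2) v) ∧ S ≠ ⊥} (Set.toFinite _) ⟨_, SN.refl _, hne⟩
  have hsimp : ∀ N ≤ S, S ≤ Nm N → N = ⊥ ∨ N = S := by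
    intro N h1 h2
    by_cases h3 : N = ⊥
    · exact Or.inl h3
    · exact Or.inr (le_antisymm h1 (hmin ⟨(SN.single h1 h2).trans hS, h3⟩ h1))
  have sv : SN S (Kn G Γ (m + 1) v) := hS.trans (c.SN_Kn_self (m + 1) 1 v)
  have sw : SN S (Kn G Γ (m + 1) w) := hS.trans (c.SN_Kn_adj m hw)
  have sv1 : SN S (Kn G Γ 1 v) := sv.trans (by rw [add_comm]; exact c.SN_Kn_self 1 m v)
  have sw1 : SN S (Kn G Γ 1 w) := sw.trans (by rw [add_comm]; exact c.SN_Kn_self 1 m w)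
  have stv : S ≤ St G v := sv1.le.trans (Kn_le_St 1 v)
  have stw : S ≤ St G w := sw1.le.trans (Kn_le_St 1 w)
  rcases hsimp ⁅S, S⁆ (commutator_le_self S) (normalizer_commutator_ge_left S S) with hab | hperf
  · have hab' : S ≤ Cn S := commutator_eq_bot_iff_le_centralizer.1 hab
    obtain ⟨p, hpp, hpd⟩ := Nat.exists_prime_and_dvd (n := Nat.card S)
      (fun h1 => hS0 (card_eq_one.1 h1))
    have := Fact.mk hpp
    obtain ⟨a, ha⟩ := exists_prime_orderOf_dvd_card' p hpd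
    have ha' : orderOf (a : G) = p := by rw [orderOf_coe, ha]
    have hz : zpowers (a : G) = S := by
      rcases hsimp _ (zpowers_le.2 a.2) (hab'.trans ((Cn_anti (zpowers_le.2 a.2)).trans
        (Cn_le_Nm _))) with h1 | h1
      · rw [zpowers_eq_bot, ← orderOf_eq_one_iff, ha'] at h1
        exact absurd h1 hpp.one_lt.ne'
      · exact h1
    have hpi : IsPi (· = p) S := by
      intro q hq hd
      rw [← hz, Nat.card_zpowers, ha'] at hd
      exact (Nat.prime_dvd_prime_iff_eq hq hpp).1 hd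
    obtain ⟨g, g1, g2⟩ := c.arc hw h
    obtain ⟨D, E, L, hU⟩ := hp p hpp (by
      rw [← g1, ← g2, ← c.cj_QQ, ← c.cj_QQ, ← cj_inf, Ne, cj_eq_bot]
      exact fun h1 => hS0 (eq_bot_iff.2 ((le_inf (sv1.le_core hpi) (sw1.le_core hpi)).trans h1.le)))
    obtain ⟨k, hk, x, u, u', hr, hu, a, ha, a1, a2, a3⟩ := amalgam c hd E h L
    have hUx : D.U x ≤ Cn (QQ G Γ p x) := by
      obtain ⟨y, hy⟩ := c.has_nbr h x
      obtain ⟨g, rfl, -⟩ := c.arc h hy
      rw [← E.U, ← c.cj_QQ, ← cj_Cn, cj_le_cj]; exact hU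
    refine hS0 (c.kill (X := fun y => core (· = p) (Kn G Γ (m + 1) y))
      (fun g y => by rw [cj_core, c.cj_Kn]) hu (a := a) ?_ a1 a2 a3 hw (sv.le_core hpi)
      (sw.le_core hpi) stv stw)
    refine Cn_anti ?_ (hUx ha)
    refine SN.le_core ?_ (isPi_core _ _)
    refine (core_SN _ _).trans (SN.trans ?_ (c.SN_Kn hr))
    have := c.SN_Kn_self (k + 1) (m - k) u
    rwa [show k + 1 + (m - k) = m + 1 by omega] at this
  · by_cases hall : ∀ x y, Γ.Adj x y → ∀ S', SN S' (Kn G Γ 1 x) → ⁅S', S'⁆ = S' →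
        (∀ N ≤ S', S' ≤ Nm N → N = ⊥ ∨ N = S') → S' ≤ Kn G Γ 1 y
    · let E : V → Subgroup G := fun x => sSup {S' | SN S' (Kn G Γ 1 x) ∧ ⁅S', S'⁆ = S' ∧
        ∀ N ≤ S', S' ≤ Nm N → N = ⊥ ∨ N = S'}
      have hE : ∀ (g : G) x, cj g (E x) = E (g • x) := by
        refine cj_eq_of_le (fun (g : G) (x : V) => g • x) act_inv E ?_
        intro g x
        rw [cj_sSup]
        refine sSup_le_sSup ?_
        rintro _ ⟨S', ⟨h1, h2, h3⟩, rfl⟩
        refine ⟨by rw [← c.cj_Kn]; exact h1.cj g, by rw [← cj_comm, h2], fun N hN1 hN2 => ?_⟩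
        obtain ⟨N, rfl⟩ := exists_cj g N
        rw [← cj_Nm, cj_le_cj] at hN2
        rw [cj_eq_bot, cj_inj]
        exact h3 N (cj_le_cj.1 hN1) hN2
      have hle : ∀ x y, Γ.Adj x y → E x ≤ E y := by
        intro x y hxy
        refine sSup_le_sSup ?_
        rintro S' ⟨h1, h2, h3⟩
        refine ⟨?_, h2, h3⟩
        have h4 : SN S' (St G x ⊓ St G y) := h1.trans (SN.single
          (le_inf (Kn_le_St 1 x) (Kn_le_St_adj 0 hxy)) (inf_le_left.trans (c.St_le_Nm_Kn 1 x)))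
        exact h4.of_le (hall x y hxy S' h1 h2 h3) (le_inf (Kn_le_St_adj 0 hxy.symm) (Kn_le_St 1 y))
      have hEK : ∀ x, E x ≤ St G x := fun x => sSup_le fun S' h1 => h1.1.le.trans (Kn_le_St 1 x)
      have he : E v = E w := le_antisymm (hle _ _ hw) (hle _ _ hw.symm)
      have h0 := c.L0 hw (hEK v) (he.le.trans (hEK w))
        ((c.tr_St v).mono (le_inf (St_le_Nm_of_equi hE v) le_rfl))
        ((c.tr_St w).mono (le_inf (by rw [he]; exact St_le_Nm_of_equi hE w) le_rfl))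
      have h1 : S ≤ E v := le_sSup ⟨sv1, hperf, hsimp⟩
      exact hS0 (eq_bot_iff.2 (h1.trans h0.le))
    · push Not at hall
      obtain ⟨x, y, hxy, S', h1, h2, h3, h4⟩ := hall
      have h5 : SN S' (St G x ⊓ St G y) := h1.trans (SN.single
        (le_inf (Kn_le_St 1 x) (Kn_le_St_adj 0 hxy)) (inf_le_left.trans (c.St_le_Nm_Kn 1 x)))
      have h6 := h5.wielandt h2 h3 (Kn G Γ 1 y)
        (le_inf (Kn_le_St_adj 0 hxy.symm) (Kn_le_St 1 y))
        (inf_le_right.trans (c.St_le_Nm_Kn 1 y)) h4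
      obtain ⟨a, ha, h7⟩ := SetLike.not_le_iff_exists.1 h4
      exact hS0 (c.kill (c.cj_Kn 1) hxy.symm (h6 ha) (h5.le ha).2 (h5.le ha).1 h7 hw sv1.le sw1.le
        stv stw)

theorem Ctx.card_bound [Finite V] (c : Ctx G Γ) {d : ℕ} (hd : ∀ v, (Γ.neighborSet v).ncard ≤ d)
    (hp : ∀ α β, Γ.Adj α β → ∀ p : ℕ, p.Prime → QQ G Γ p α ⊓ QQ G Γ p β ≠ ⊥ →
      ∃ D : Dat G V, D.Equi ∧ D.Loc Γ p α β ∧ D.U α ≤ Cn (QQ G Γ p α)) (v : V) :
    Nat.card (St G v) ≤ cb d (2 * cb d 1 + 2) := by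
  have h0 : Kn G Γ (2 * cb d 1 + 2) v = ⊥ := by
    by_cases h : ∃ w, Γ.Adj v w
    · obtain ⟨w, hw⟩ := h
      exact c.reduction hd hw (hp v w hw) v
    · rw [eq_bot_iff]
      intro a ha
      refine mem_bot.2 (c.faithful a fun y => ?_)
      obtain ⟨w⟩ := c.conn v y
      cases w with
      | nil => exact Kn_le_St _ _ ha
      | cons h1 _ => exact absurd ⟨_, h1⟩ h
  have := c.relIndex_Kn hd (2 * cb d 1 + 2) v
  rwa [h0, relIndex_bot_left] at this

end Pool.Agent.Lib.MP_bf45aa_co
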